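import Pool.Agent.Lib.MP_8501c9_pr.Deep.Defs
import Pool.Agent.Lib.MP_8501c9_pr.Wide.Beta

/-!
# The correction for the sides shorter than the average, side lengths of order `d` and larger
-/

set_option autoImplicit false
open Set

namespace Pool.Agent.Lib.MP_8501c9_pr.Deep

open Pool.Agent.Lib.MP_8501c9_pr Pool.Agent.Lib.MP_8501c9_pr.Mid
open Pool.Agent.Lib.MP_8501c9_pr.Wide

/-- the second entry of the maximum in `qE` -/
noncomputable def d6A (c a l m : ℝ) : ℝ :=
  l / m * Real.exp (c * a * (1 / m - 1 / l))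

theorem d6_qE (c : ℝ) (lam : ℕ → ℝ) (d t m : ℕ) :
    qE c lam d t m = max 1 (d6A c (lam t) (lt d t) m) := rfl

theorem d6_one_le_qE (c : ℝ) (lam : ℕ → ℝ) (d t m : ℕ) : 1 ≤ qE c lam d t m :=
  le_max_left _ _

theorem one_le_bE (c : ℝ) (lam : ℕ → ℝ) (d t x : ℕ) : 1 ≤ bE c lam d t x := by
  unfold bE
  exact Finset.one_le_prod fun m _ => d6_one_le_qE c lam d t m

theorem d6A_le_one {c a m l : ℝ} (hc : 0 ≤ c) (ha : 0 ≤ a) (hl : 1 ≤ l) (h : l ≤ m) :
    d6A c a l m ≤ 1 := by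
  have hl0 : 0 < l := by linarith
  have hm0 : 0 < m := by linarith
  unfold d6A
  have h1 : l / m ≤ 1 := (div_le_one hm0).2 h
  have h2 : Real.exp (c * a * (1 / m - 1 / l)) ≤ 1 := by
    rw [Real.exp_le_one_iff]
    have h3 : 1 / m ≤ 1 / l := one_div_le_one_div_of_le hl0 h
    have h4 : 0 ≤ c * a := by positivity
    nlinarith
  calc l / m * Real.exp (c * a * (1 / m - 1 / l)) ≤ 1 * 1 :=
        mul_le_mul h1 h2 (Real.exp_pos _).le zero_le_one
    _ = 1 := one_mul 1

theorem d6_qE_eq_one {c R : ℝ} (hc : 0 ≤ c) {d : ℕ} {lam : ℕ → ℝ} (h : LamOK R d lam)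
    {t m : ℕ} (hm : lt d t ≤ m) : qE c lam d t m = 1 := by
  rw [d6_qE]
  exact max_eq_left (d6A_le_one hc (h.nonneg t) (v7_one_le_lt d t) hm)

theorem bE_succ {c R : ℝ} (hc : 0 ≤ c) {d : ℕ} (hd : 1 ≤ d) {lam : ℕ → ℝ}
    (h : LamOK R d lam) (t x : ℕ) (hx : 1 ≤ x) :
    bE c lam d t x = qE c lam d t x * bE c lam d t (x + 1) := by
  have _ := hx
  unfold bE
  rcases le_or_gt x (lev d t) with h' | h'
  · rw [← Finset.insert_Icc_succ_left_eq_Icc h', Finset.prod_insert]
    · rfl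
    · simp
  · have h1 : lt d t ≤ x := by
      have h2 := v7_lt_lt hd t
      have h3 : (lev d t : ℝ) + 1 ≤ x := by exact_mod_cast h'
      linarith
    rw [d6_qE_eq_one hc h h1, Finset.Icc_eq_empty (by omega), Finset.Icc_eq_empty (by omega),
      Finset.prod_empty, one_mul]

theorem bE_zero (c : ℝ) (lam : ℕ → ℝ) {d : ℕ} (hd : 1 ≤ d) : bE c lam d 0 1 = 1 := by
  have _ := hd
  have h1 : lev d 0 = 1 := by
    unfold lev
    rw [Nat.zero_div]
  have h2 : lt d 0 = 1 := by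
    unfold lt
    simp
  unfold bE
  rw [h1, Finset.Icc_self, Finset.prod_singleton, d6_qE, h2, Nat.cast_one]
  unfold d6A
  simp

/-! ### growth of the corrections -/

theorem d6A_le {c R a₁ a₂ m l₁ l₂ : ℝ} (hc : 0 ≤ c) (hR : 0 ≤ R) (hm : 1 ≤ m)
    (h1 : m ≤ l₁) (h2 : l₁ ≤ l₂) (ha₁ : 0 ≤ a₁) (ha₁' : a₁ ≤ R * l₁)
    (ha : a₂ - a₁ ≤ R * (l₂ - l₁)) :
    d6A c a₂ l₂ m ≤ d6A c a₁ l₁ m * Real.exp ((l₂ - l₁) * (1 + 2 * c * R) / m) := by
  have hm0 : 0 < m := by linarith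
  have hl1 : 0 < l₁ := by linarith
  have hl2 : 0 < l₂ := by linarith
  have hδ : 0 ≤ l₂ - l₁ := by linarith
  unfold d6A
  have e1 : l₂ / m ≤ l₁ / m * Real.exp ((l₂ - l₁) / m) := by
    have h3 : (l₂ - l₁) / m + 1 ≤ Real.exp ((l₂ - l₁) / m) := Real.add_one_le_exp _
    have h4 : l₂ / m ≤ l₁ / m * ((l₂ - l₁) / m + 1) := by
      rw [div_mul_eq_mul_div, div_le_div_iff_of_pos_right hm0]
      have h5 : (l₂ - l₁) * 1 ≤ (l₂ - l₁) * (l₁ / m) :=
        mul_le_mul_of_nonneg_left ((one_le_div hm0).2 h1) hδ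
      have h6 : l₁ * ((l₂ - l₁) / m + 1) = (l₂ - l₁) * (l₁ / m) + l₁ := by
        field_simp
      rw [h6]
      linarith
    exact h4.trans (mul_le_mul_of_nonneg_left h3 (by positivity))
  have e2 : c * a₂ * (1 / m - 1 / l₂) ≤
      c * a₁ * (1 / m - 1 / l₁) + (l₂ - l₁) * (2 * c * R) / m := by
    have h3 : c * a₂ * (1 / m - 1 / l₂) - c * a₁ * (1 / m - 1 / l₁) =
        c * ((a₂ - a₁) * (1 / m - 1 / l₂) + a₁ * ((l₂ - l₁) / (l₁ * l₂))) := by
      field_simp
      ring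
    have hml : 1 / l₂ ≤ 1 / m := one_div_le_one_div_of_le hm0 (h1.trans h2)
    have hl2' : 0 < 1 / l₂ := by positivity
    have h4 : (a₂ - a₁) * (1 / m - 1 / l₂) ≤ R * (l₂ - l₁) * (1 / m) := by
      calc (a₂ - a₁) * (1 / m - 1 / l₂) ≤ R * (l₂ - l₁) * (1 / m - 1 / l₂) :=
            mul_le_mul_of_nonneg_right ha (by linarith)
        _ ≤ R * (l₂ - l₁) * (1 / m) :=
            mul_le_mul_of_nonneg_left (by linarith) (by positivity)
    have h5 : a₁ * ((l₂ - l₁) / (l₁ * l₂)) ≤ R * (l₂ - l₁) * (1 / m) := by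
      calc a₁ * ((l₂ - l₁) / (l₁ * l₂)) ≤ (R * l₁) * ((l₂ - l₁) / (l₁ * l₂)) :=
            mul_le_mul_of_nonneg_right ha₁' (by positivity)
        _ = R * (l₂ - l₁) * (1 / l₂) := by
            field_simp
        _ ≤ R * (l₂ - l₁) * (1 / m) := mul_le_mul_of_nonneg_left hml (by positivity)
    have h6 : c * ((a₂ - a₁) * (1 / m - 1 / l₂) + a₁ * ((l₂ - l₁) / (l₁ * l₂))) ≤
        c * (R * (l₂ - l₁) * (1 / m) + R * (l₂ - l₁) * (1 / m)) :=
      mul_le_mul_of_nonneg_left (by linarith) hc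
    have h7 : c * (R * (l₂ - l₁) * (1 / m) + R * (l₂ - l₁) * (1 / m)) =
        (l₂ - l₁) * (2 * c * R) / m := by
      ring
    linarith
  calc l₂ / m * Real.exp (c * a₂ * (1 / m - 1 / l₂))
      ≤ (l₁ / m * Real.exp ((l₂ - l₁) / m)) *
        Real.exp (c * a₁ * (1 / m - 1 / l₁) + (l₂ - l₁) * (2 * c * R) / m) :=
        mul_le_mul e1 (Real.exp_le_exp.2 e2) (Real.exp_pos _).le (by positivity)
    _ = l₁ / m * Real.exp (c * a₁ * (1 / m - 1 / l₁)) *
        Real.exp ((l₂ - l₁) * (1 + 2 * c * R) / m) := by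
        have e3 : (l₂ - l₁) * (1 + 2 * c * R) / m =
            (l₂ - l₁) / m + (l₂ - l₁) * (2 * c * R) / m := by ring
        rw [e3, Real.exp_add, Real.exp_add]
        ring

/-- a factor above the previous level -/
theorem d6A_new {c R a m l : ℝ} (hc : 0 ≤ c) (hR : 0 ≤ R) (hm : 1 ≤ m) (h : m ≤ l)
    (ha : a ≤ R * l) : d6A c a l m ≤ Real.exp ((l - m) * (1 + 2 * c * R) / m) := by
  have hm0 : 0 < m := by linarith
  have hl0 : 0 < l := by linarith
  have hδ : 0 ≤ l - m := by linarith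
  unfold d6A
  have e1 : l / m ≤ Real.exp ((l - m) / m) := by
    have h3 : (l - m) / m + 1 ≤ Real.exp ((l - m) / m) := Real.add_one_le_exp _
    have h4 : l / m = (l - m) / m + 1 := by
      field_simp
      ring
    linarith
  have e2 : c * a * (1 / m - 1 / l) ≤ (l - m) * (2 * c * R) / m := by
    have h1 : (0 : ℝ) ≤ 1 / m - 1 / l := by
      have := one_div_le_one_div_of_le hm0 h
      linarith
    have h3 : c * a * (1 / m - 1 / l) ≤ c * (R * l) * (1 / m - 1 / l) :=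
      mul_le_mul_of_nonneg_right (mul_le_mul_of_nonneg_left ha hc) h1
    have h4 : c * (R * l) * (1 / m - 1 / l) = (l - m) * (c * R) / m := by
      field_simp
    have h5 : (l - m) * (c * R) / m ≤ (l - m) * (2 * c * R) / m := by
      apply div_le_div_of_nonneg_right _ hm0.le
      apply mul_le_mul_of_nonneg_left _ hδ
      have : 0 ≤ c * R := by positivity
      linarith
    linarith
  calc l / m * Real.exp (c * a * (1 / m - 1 / l))
      ≤ Real.exp ((l - m) / m) * Real.exp ((l - m) * (2 * c * R) / m) :=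
        mul_le_mul e1 (Real.exp_le_exp.2 e2) (Real.exp_pos _).le (Real.exp_pos _).le
    _ = Real.exp ((l - m) * (1 + 2 * c * R) / m) := by
        rw [← Real.exp_add]
        congr 1
        ring

theorem d6_lam_add {R : ℝ} {d : ℕ} {lam : ℕ → ℝ} (h : LamOK R d lam) (t : ℕ) :
    ∀ s : ℕ, lam (t + s) - lam t ≤ R * ((s : ℝ) / d) := by
  intro s
  induction s with
  | zero => simp
  | succ s ih =>
    have h1 := h.lip (t + s)
    have h2 := (abs_le.1 h1).2
    have h3 : R * (((s + 1 : ℕ) : ℝ) / d) = R * ((s : ℝ) / d) + R / d := by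
      push_cast
      ring
    rw [h3]
    have h4 : t + (s + 1) = t + s + 1 := by ring
    rw [h4]
    linarith

/-- growth of one factor -/
theorem d6_qE_add {c R : ℝ} (hc : 0 ≤ c) (hR : 0 ≤ R) {d : ℕ} (hd : 1 ≤ d)
    {lam : ℕ → ℝ} (hlam : LamOK R d lam) (t s : ℕ) {m : ℕ} (hm : 1 ≤ m) :
    qE c lam d (t + s) m ≤ qE c lam d t m *
      Real.exp ((s : ℝ) / d * (1 + 2 * c * R) / m) := by
  have hd0 : (0 : ℝ) < d := by exact_mod_cast hd
  have hm0 : (1 : ℝ) ≤ m := by exact_mod_cast hm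
  have hK : 0 ≤ 1 + 2 * c * R := by positivity
  have hexp : 1 ≤ Real.exp ((s : ℝ) / d * (1 + 2 * c * R) / m) :=
    Real.one_le_exp (by positivity)
  have h1q := d6_one_le_qE c lam d t m
  have hR1 : 1 ≤ qE c lam d t m * Real.exp ((s : ℝ) / d * (1 + 2 * c * R) / m) := by nlinarith
  rw [d6_qE c lam d (t + s)]
  refine max_le hR1 ?_
  have hadd := v7_lt_add d t s
  have hs0 : (0 : ℝ) ≤ (s : ℝ) / d := by positivity
  rcases le_total (lt d (t + s)) m with h | h
  · exact (d6A_le_one hc (hlam.nonneg _) (v7_one_le_lt d _) h).trans hR1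
  · rcases le_total (lt d t) m with h' | h'
    · have h2 := d6A_new hc hR hm0 h (hlam.le (t + s))
      refine h2.trans ?_
      have h3 : Real.exp ((lt d (t + s) - m) * (1 + 2 * c * R) / m) ≤
          Real.exp ((s : ℝ) / d * (1 + 2 * c * R) / m) := by
        rw [Real.exp_le_exp]
        apply div_le_div_of_nonneg_right _ (by positivity)
        apply mul_le_mul_of_nonneg_right _ hK
        linarith
      refine h3.trans ?_
      nlinarith
    · have h4 := d6_lam_add hlam t s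
      have h3 : lt d (t + s) - lt d t = (s : ℝ) / d := by linarith
      have h2 := d6A_le (a₂ := lam (t + s)) hc hR hm0 h' (by linarith : lt d t ≤ lt d (t + s))
        (hlam.nonneg t) (hlam.le t) (by rw [h3]; exact h4)
      rw [h3] at h2
      refine h2.trans (mul_le_mul_of_nonneg_right ?_ (Real.exp_pos _).le)
      exact le_max_right _ _

theorem d6_bE_ext {c R : ℝ} (hc : 0 ≤ c) {d : ℕ} (hd : 1 ≤ d) {lam : ℕ → ℝ}
    (h : LamOK R d lam) (t x : ℕ) {N : ℕ} (hN : lev d t ≤ N) :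
    bE c lam d t x = ∏ m ∈ Finset.Icc x N, qE c lam d t m := by
  unfold bE
  refine Finset.prod_subset (Finset.Icc_subset_Icc_right hN) ?_
  intro m hm hm'
  rw [Finset.mem_Icc] at hm hm'
  have h1 : lev d t < m := by
    by_contra h
    exact hm' ⟨hm.1, by omega⟩
  apply d6_qE_eq_one hc h
  have h2 := v7_lt_lt hd t
  have h3 : (lev d t : ℝ) + 1 ≤ m := by exact_mod_cast h1
  linarith

theorem d6_bE_add {c R : ℝ} (hc : 0 ≤ c) (hR : 0 ≤ R) {d : ℕ} (hd : 1 ≤ d)
    {lam : ℕ → ℝ} (hlam : LamOK R d lam) (t s : ℕ) {x : ℕ} (hx : 1 ≤ x) :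
    bE c lam d (t + s) x ≤ bE c lam d t x * Real.exp ((s : ℝ) / d * (1 + 2 * c * R) *
      ∑ m ∈ Finset.Icc x (lev d (t + s)), 1 / (m : ℝ)) := by
  rw [d6_bE_ext hc hd hlam t x (v7_lev_mono d t s), Finset.mul_sum, Real.exp_sum,
    ← Finset.prod_mul_distrib]
  unfold bE
  refine Finset.prod_le_prod (fun m _ => zero_le_one.trans (d6_one_le_qE c lam d _ m)) ?_
  intro m hm
  rw [Finset.mem_Icc] at hm
  have h1 := d6_qE_add hc hR hd hlam t s (hx.trans hm.1)
  rw [mul_one_div]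
  exact h1

/-! ### the harmonic sum against the deficit -/

/-- one step of the deficit -/
theorem d6_gapl_term {l m : ℕ} (hm : 1 ≤ m) (hml : m < l) :
    ((l : ℝ) - m) / (2 * m * ((l : ℝ) + 1)) ≤ gapl l m - gapl l (m + 1) := by
  have hm0 : (0 : ℝ) < m := by exact_mod_cast hm
  have hm1 : (1 : ℝ) ≤ m := by exact_mod_cast hm
  have hl0 : (0 : ℝ) < l := by exact_mod_cast (by omega : 0 < l)
  have hml' : (m : ℝ) + 1 ≤ l := by exact_mod_cast hml
  have hstep := v7_gapl_step l hm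
  rw [hstep, add_sub_cancel_left, ← Real.log_div (by positivity) (by positivity)]
  refine le_trans ?_ (Real.one_sub_inv_le_log_of_pos (by positivity))
  have e1 : (((m : ℝ) + 1) / m / (((l : ℝ) + 1) / l))⁻¹ = m * (l + 1) / ((m + 1) * l) := by
    field_simp
  have e2 : 1 - (m : ℝ) * (l + 1) / ((m + 1) * l) = ((l : ℝ) - m) / ((m + 1) * l) := by
    field_simp
    ring
  rw [e1, e2]
  apply div_le_div_of_nonneg_left (by linarith) (by positivity)
  nlinarith

/-- the sum of the positive parts of the differences -/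
theorem d6_sum_le {A : ℝ} {l : ℕ} : ∀ (j x : ℕ), x + j = l → 1 ≤ x →
    ∑ m ∈ Finset.Ico x l, A / (m : ℝ) ≤ gapl l x +
      ∑ m ∈ Finset.Ico x l, max 0 (A / (m : ℝ) - ((l : ℝ) - m) / (2 * m * ((l : ℝ) + 1))) := by
  intro j
  induction j with
  | zero =>
    intro x hx _
    rw [add_zero] at hx
    subst hx
    rw [v7_gapl_self, Finset.Ico_self, Finset.sum_empty, Finset.sum_empty]
    simp
  | succ j ih =>
    intro x hx hx1
    have ih' := ih (x + 1) (by omega) (by omega)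
    have hxl : x < l := by omega
    rw [Finset.sum_eq_sum_Ico_succ_bot hxl, Finset.sum_eq_sum_Ico_succ_bot hxl]
    have h1 := d6_gapl_term hx1 hxl
    have h2 := le_max_right (0 : ℝ) (A / (x : ℝ) - ((l : ℝ) - x) / (2 * x * ((l : ℝ) + 1)))
    linarith

/-- the sum of the positive parts is small -/
theorem d6_pos_le {K : ℝ} (hK : 1 ≤ K) {d l x : ℕ} (hl : 1 ≤ l) (hd : 16 * K ≤ d)
    (hx : 1 ≤ x) :
    ∑ m ∈ Finset.Ico x l, max 0 (2 * K / d / (m : ℝ) - ((l : ℝ) - m) / (2 * m * ((l : ℝ) + 1))) ≤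
      32 * K ^ 2 / d ^ 2 := by
  have hd0 : (0 : ℝ) < d := by linarith
  have hl1 : (1 : ℝ) ≤ l := by exact_mod_cast hl
  have hl0 : (0 : ℝ) < l := by linarith
  set a : ℝ := 4 * K * (l + 1) / d with ha
  have ha0 : 0 ≤ a := by positivity
  have hal : a ≤ l / 2 := by
    rw [ha, div_le_div_iff₀ hd0 (by norm_num)]
    nlinarith
  have hterm : ∀ m ∈ Finset.Ico x l,
      max 0 (2 * K / d / (m : ℝ) - ((l : ℝ) - m) / (2 * m * ((l : ℝ) + 1))) ≤
        if m ∈ Finset.Ico (l - ⌊a⌋₊) l then 4 * K / (d * l) else 0 := by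
    intro m hm
    rw [Finset.mem_Ico] at hm
    have hm1 : (1 : ℝ) ≤ m := by exact_mod_cast hx.trans hm.1
    have hm0 : (0 : ℝ) < m := by linarith
    have hml : (m : ℝ) + 1 ≤ l := by exact_mod_cast hm.2
    rcases lt_or_ge ((l : ℝ) - m) a with h | h
    · have hmem : m ∈ Finset.Ico (l - ⌊a⌋₊) l := by
        rw [Finset.mem_Ico]
        refine ⟨?_, hm.2⟩
        have h1 : l - m ≤ ⌊a⌋₊ := by
          apply Nat.le_floor
          rw [Nat.cast_sub hm.2.le]
          exact h.le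
        omega
      rw [if_pos hmem]
      apply max_le (by positivity)
      have h2 : (l : ℝ) / 2 ≤ m := by linarith
      have h3 : 2 * K / d / (m : ℝ) ≤ 4 * K / (d * l) := by
        rw [div_div, div_le_div_iff₀ (by positivity) (by positivity)]
        have h4 : (d : ℝ) * l ≤ 2 * (d * m) := by nlinarith
        have h5 : 0 ≤ 2 * K := by linarith
        nlinarith
      have h4 : 0 ≤ ((l : ℝ) - m) / (2 * m * ((l : ℝ) + 1)) := by
        apply div_nonneg <;> nlinarith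
      linarith
    · have h1 : 2 * K / d / (m : ℝ) - ((l : ℝ) - m) / (2 * m * ((l : ℝ) + 1)) ≤ 0 := by
        have h2 : a / (2 * m * ((l : ℝ) + 1)) ≤ ((l : ℝ) - m) / (2 * m * ((l : ℝ) + 1)) :=
          div_le_div_of_nonneg_right h (by positivity)
        have h3 : a / (2 * m * ((l : ℝ) + 1)) = 2 * K / d / (m : ℝ) := by
          rw [ha]
          field_simp
          ring
        linarith
      rw [max_eq_left h1]
      split_ifs
      · positivity
      · exact le_refl _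
  refine (Finset.sum_le_sum hterm).trans ?_
  rw [← Finset.sum_filter, Finset.sum_const, nsmul_eq_mul]
  have hcard : (((Finset.Ico x l).filter (fun m => m ∈ Finset.Ico (l - ⌊a⌋₊) l)).card : ℝ) ≤
      a := by
    have h1 : ((Finset.Ico x l).filter (fun m => m ∈ Finset.Ico (l - ⌊a⌋₊) l)).card ≤
        (Finset.Ico (l - ⌊a⌋₊) l).card := by
      apply Finset.card_le_card
      intro m hm
      exact (Finset.mem_filter.1 hm).2
    rw [Nat.card_Ico] at h1
    have h2 : l - (l - ⌊a⌋₊) ≤ ⌊a⌋₊ := by omega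
    have h3 : (((Finset.Ico x l).filter (fun m => m ∈ Finset.Ico (l - ⌊a⌋₊) l)).card : ℝ) ≤
        (⌊a⌋₊ : ℝ) := by exact_mod_cast h1.trans h2
    exact h3.trans (Nat.floor_le ha0)
  calc (((Finset.Ico x l).filter (fun m => m ∈ Finset.Ico (l - ⌊a⌋₊) l)).card : ℝ) *
        (4 * K / (d * l)) ≤ a * (4 * K / (d * l)) :=
        mul_le_mul_of_nonneg_right hcard (by positivity)
    _ = 16 * K ^ 2 / d ^ 2 * ((l + 1) / l) := by
        rw [ha]
        field_simp
        ring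
    _ ≤ 16 * K ^ 2 / d ^ 2 * 2 := by
        apply mul_le_mul_of_nonneg_left _ (by positivity)
        rw [div_le_iff₀ hl0]
        linarith
    _ = 32 * K ^ 2 / d ^ 2 := by ring

/-- the harmonic sum against the deficit -/
theorem d6_harm {K : ℝ} (hK : 1 ≤ K) {d l x : ℕ} (hl : 1 ≤ l) (hd : 16 * K ≤ d)
    (hx : 1 ≤ x) :
    2 * K / d * ∑ m ∈ Finset.Ico x l, 1 / (m : ℝ) ≤ gapl l x + 32 * K ^ 2 / d ^ 2 := by
  have hd0 : (0 : ℝ) < d := by linarith
  rcases le_total x l with h | h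
  · obtain ⟨j, hj⟩ := Nat.exists_eq_add_of_le h
    have h1 := d6_sum_le (A := 2 * K / d) j x hj.symm hx
    have h2 := d6_pos_le hK hl hd hx
    have h3 : 2 * K / d * ∑ m ∈ Finset.Ico x l, 1 / (m : ℝ) =
        ∑ m ∈ Finset.Ico x l, 2 * K / d / (m : ℝ) := by
      rw [Finset.mul_sum]
      refine Finset.sum_congr rfl fun m _ => ?_
      ring
    rw [h3]
    linarith
  · rw [Finset.Ico_eq_empty_of_le h, Finset.sum_empty, mul_zero]
    have := gapl_nonneg hl hx
    positivity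

/-- two units of size -/
theorem bE_add_two (η c R : ℝ) (hη : 0 < η) (hc : 0 ≤ c) (hc2 : c ≤ 2) (hR : 1 ≤ R) :
    ∃ C₀ : ℝ, 0 ≤ C₀ ∧ ∃ l₀ D₀ : ℕ, ∀ (d t x : ℕ) (lam : ℕ → ℝ), D₀ ≤ d → LamOK R d lam →
      1 ≤ x → bE c lam d (t + 2) x ≤ bE c lam d t x *
        Real.exp (gapl (lev d t) x + (if lev d t < l₀ then C₀ else η) / d) := by
  have _ := hc2
  have hR0 : 0 ≤ R := by linarith
  set K : ℝ := 1 + 2 * c * R with hK
  have hK1 : 1 ≤ K := by
    rw [hK]
    have : 0 ≤ 2 * c * R := by positivity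
    linarith
  refine ⟨4 * K + 1, by positivity, ⌈8 * K / η⌉₊,
    max 2 (max ⌈16 * K⌉₊ (max ⌈64 * K ^ 2 / η⌉₊ ⌈32 * K ^ 2⌉₊)), ?_⟩
  intro d t x lam hD hlam hx
  have hd2 : 2 ≤ d := (le_max_left _ _).trans hD
  have hd1 : 1 ≤ d := by omega
  have hd0 : (0 : ℝ) < d := by exact_mod_cast hd1
  have hdK : 16 * K ≤ d := by
    refine (Nat.le_ceil _).trans ?_
    exact_mod_cast ((le_max_left _ _).trans (le_max_right _ _)).trans hD
  have hdη : 64 * K ^ 2 / η ≤ d := by
    refine (Nat.le_ceil _).trans ?_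
    exact_mod_cast (((le_max_left _ _).trans (le_max_right _ _)).trans (le_max_right _ _)).trans hD
  have hdK2 : 32 * K ^ 2 ≤ d := by
    refine (Nat.le_ceil _).trans ?_
    exact_mod_cast (((le_max_right _ _).trans (le_max_right _ _)).trans (le_max_right _ _)).trans hD
  refine (d6_bE_add hc hR0 hd1 hlam t 2 hx).trans ?_
  refine mul_le_mul_of_nonneg_left ?_ (zero_le_one.trans (one_le_bE c lam d t x))
  rw [Real.exp_le_exp, ← hK]
  set l := lev d t with hl
  have hl1 : 1 ≤ l := v7_lev_pos d t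
  have hl0 : (0 : ℝ) < l := by exact_mod_cast hl1
  have hlev : lev d (t + 2) ≤ l + 1 := by
    rw [hl]
    unfold lev
    have : (t + 2) / d ≤ t / d + 1 := by
      calc (t + 2) / d ≤ (t + d) / d := Nat.div_le_div_right (by omega)
        _ = t / d + 1 := Nat.add_div_right t hd1
    omega
  have hsum : ∑ m ∈ Finset.Icc x (lev d (t + 2)), 1 / (m : ℝ) ≤
      ∑ m ∈ Finset.Ico x l, 1 / (m : ℝ) + 2 / l := by
    have h1 : ∑ m ∈ Finset.Icc x (lev d (t + 2)), 1 / (m : ℝ) ≤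
        ∑ m ∈ Finset.Ico x l ∪ {l, l + 1}, 1 / (m : ℝ) := by
      refine Finset.sum_le_sum_of_subset_of_nonneg ?_ fun m _ _ => by positivity
      intro m hm
      rw [Finset.mem_Icc] at hm
      rw [Finset.mem_union, Finset.mem_Ico, Finset.mem_insert, Finset.mem_singleton]
      omega
    have h2 : ∑ m ∈ Finset.Ico x l ∪ {l, l + 1}, 1 / (m : ℝ) ≤
        ∑ m ∈ Finset.Ico x l, 1 / (m : ℝ) + ∑ m ∈ ({l, l + 1} : Finset ℕ), 1 / (m : ℝ) := by
      rw [← Finset.sum_union_inter]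
      have : 0 ≤ ∑ m ∈ Finset.Ico x l ∩ {l, l + 1}, 1 / (m : ℝ) :=
        Finset.sum_nonneg fun m _ => by positivity
      linarith
    have h3 : ∑ m ∈ ({l, l + 1} : Finset ℕ), 1 / (m : ℝ) ≤ 2 / l := by
      rw [Finset.sum_pair (by omega)]
      have h4 : 1 / (((l + 1 : ℕ) : ℝ)) ≤ 1 / (l : ℝ) := by
        apply one_div_le_one_div_of_le hl0
        push_cast
        linarith
      have h5 : (2 : ℝ) / l = 1 / l + 1 / l := by ring
      rw [h5]
      linarith
    linarith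
  have hh := d6_harm hK1 hl1 hdK hx
  have h1 : ((2 : ℕ) : ℝ) / d * K * ∑ m ∈ Finset.Icc x (lev d (t + 2)), 1 / (m : ℝ) ≤
      ((2 : ℕ) : ℝ) / d * K * (∑ m ∈ Finset.Ico x l, 1 / (m : ℝ) + 2 / l) :=
    mul_le_mul_of_nonneg_left hsum (by positivity)
  have h2 : ((2 : ℕ) : ℝ) / d * K * (∑ m ∈ Finset.Ico x l, 1 / (m : ℝ) + 2 / l) =
      2 * K / d * ∑ m ∈ Finset.Ico x l, 1 / (m : ℝ) + 4 * K / l / d := by
    push_cast
    ring
  have h3 : 32 * K ^ 2 / (d : ℝ) ^ 2 + 4 * K / l / d ≤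
      (if l < ⌈8 * K / η⌉₊ then 4 * K + 1 else η) / d := by
    have e1 : 32 * K ^ 2 / (d : ℝ) ^ 2 + 4 * K / l / d =
        (32 * K ^ 2 / d + 4 * K / l) / d := by
      field_simp
    rw [e1]
    apply div_le_div_of_nonneg_right _ hd0.le
    split_ifs with h
    · have e2 : 32 * K ^ 2 / (d : ℝ) ≤ 1 := by
        rw [div_le_one hd0]
        exact hdK2
      have e3 : 4 * K / (l : ℝ) ≤ 4 * K := by
        apply div_le_self (by positivity)
        exact_mod_cast hl1
      linarith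
    · have e2 : 32 * K ^ 2 / (d : ℝ) ≤ η / 2 := by
        rw [div_le_iff₀ hη] at hdη
        rw [div_le_iff₀ hd0]
        linarith
      have e3 : 4 * K / (l : ℝ) ≤ η / 2 := by
        have h4 : 8 * K / η ≤ l := by
          refine (Nat.le_ceil _).trans ?_
          exact_mod_cast (not_lt.1 h)
        rw [div_le_iff₀ hη] at h4
        rw [div_le_iff₀ hl0]
        linarith
      linarith
  linarith

theorem bE_add_one (c R : ℝ) (hc : 0 ≤ c) (hc2 : c ≤ 2) (hR : 1 ≤ R) : ∃ C : ℝ, 0 ≤ C ∧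
    ∀ (d t x : ℕ) (lam : ℕ → ℝ), 2 ≤ d → t ≤ d ^ 4 → LamOK R d lam → 1 ≤ x →
      bE c lam d (t + 1) x ≤ bE c lam d t x * Real.exp (C * Real.log d / d) := by
  have _ := hc2
  have hR0 : 0 ≤ R := by linarith
  refine ⟨6 * (1 + 2 * c * R), by positivity, ?_⟩
  intro d t x lam hd2 ht hlam hx
  have hd1 : 1 ≤ d := by omega
  have hd0 : (0 : ℝ) < d := by exact_mod_cast hd1
  refine (d6_bE_add hc hR0 hd1 hlam t 1 hx).trans ?_
  refine mul_le_mul_of_nonneg_left ?_ (zero_le_one.trans (one_le_bE c lam d t x))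
  rw [Real.exp_le_exp]
  have hlev : lev d (t + 1) ≤ d ^ 4 := by
    unfold lev
    have h1 : (t + 1) / d ≤ (d ^ 4 + (d - 1)) / d := Nat.div_le_div_right (by omega)
    have h2 : (d ^ 4 + (d - 1)) / d = d ^ 3 := by
      rw [show d ^ 4 = d * d ^ 3 by ring, Nat.mul_add_div hd1, Nat.div_eq_of_lt (by omega),
        add_zero]
    have h3 : d ^ 3 + 1 ≤ d ^ 4 := by
      have h4 : 1 ≤ d ^ 3 := Nat.one_le_pow _ _ hd1
      have h5 : d ^ 4 = d * d ^ 3 := by ring
      rw [h5]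
      nlinarith
    omega
  have hlog2 : 1 ≤ 2 * Real.log d := by
    have h1 : Real.log 2 ≤ Real.log d := Real.log_le_log (by norm_num) (by exact_mod_cast hd2)
    have h2 := Real.log_two_gt_d9
    linarith
  have hsum : ∑ m ∈ Finset.Icc x (lev d (t + 1)), 1 / (m : ℝ) ≤ 6 * Real.log d := by
    have h1 : ∑ m ∈ Finset.Icc x (lev d (t + 1)), 1 / (m : ℝ) ≤
        ∑ m ∈ Finset.Icc 1 (d ^ 4), 1 / (m : ℝ) :=
      Finset.sum_le_sum_of_subset_of_nonneg (Finset.Icc_subset_Icc hx hlev)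
        fun m _ _ => by positivity
    have h2 := harmonic_le_one_add_log (d ^ 4)
    have h3 : ((harmonic (d ^ 4) : ℚ) : ℝ) = ∑ m ∈ Finset.Icc 1 (d ^ 4), 1 / (m : ℝ) := by
      rw [harmonic_eq_sum_Icc]
      push_cast
      refine Finset.sum_congr rfl fun m _ => ?_
      rw [one_div]
    rw [h3] at h2
    push_cast at h2
    rw [Real.log_pow] at h2
    push_cast at h2
    linarith
  have h1 : ((1 : ℕ) : ℝ) / d * (1 + 2 * c * R) *
      ∑ m ∈ Finset.Icc x (lev d (t + 1)), 1 / (m : ℝ) ≤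
      ((1 : ℕ) : ℝ) / d * (1 + 2 * c * R) * (6 * Real.log d) :=
    mul_le_mul_of_nonneg_left hsum (by positivity)
  refine h1.trans (le_of_eq ?_)
  push_cast
  ring

/-! ### weights -/

theorem d6_ratio {c R : ℝ} (hc : 0 ≤ c) {d : ℕ} (hd : 1 ≤ d) {lam : ℕ → ℝ}
    (h : LamOK R d lam) (t x : ℕ) (hx : 1 ≤ x) :
    bE c lam d t (x + 1) / bE c lam d t x = (qE c lam d t x)⁻¹ := by
  have h1 := bE_succ hc hd h t x hx
  have h2 : 0 < bE c lam d t (x + 1) := zero_lt_one.trans_le (one_le_bE c lam d t (x + 1))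
  have h3 : 0 < qE c lam d t x := zero_lt_one.trans_le (d6_one_le_qE c lam d t x)
  rw [h1]
  field_simp

theorem d6_weight_a {c R a : ℝ} (hc : 0 ≤ c) {d t x : ℕ} (hx : 1 ≤ x)
    {lam : ℕ → ℝ} (h : LamOK R d lam) (ha : a ≤ lam t) :
    Real.exp (c * a / x) / x * (qE c lam d t x)⁻¹ ≤
      Real.exp (c * lam t / lt d t) / lt d t := by
  have _ := h
  have hx0 : (0 : ℝ) < x := by exact_mod_cast hx
  have hl0 : 0 < lt d t := by linarith [v7_one_le_lt d t]
  have h3 : 0 < qE c lam d t x := zero_lt_one.trans_le (d6_one_le_qE c lam d t x)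
  have h4 : d6A c (lam t) (lt d t) x ≤ qE c lam d t x := le_max_right _ _
  have h5 : Real.exp (c * lam t / lt d t) / lt d t * d6A c (lam t) (lt d t) x =
      Real.exp (c * lam t / x) / x := by
    unfold d6A
    have h6 : Real.exp (c * lam t / lt d t) *
        Real.exp (c * lam t * (1 / x - 1 / lt d t)) = Real.exp (c * lam t / x) := by
      rw [← Real.exp_add]
      congr 1
      ring
    rw [← h6]
    field_simp
  rw [← div_eq_mul_inv, div_le_iff₀ h3]
  calc Real.exp (c * a / x) / x ≤ Real.exp (c * lam t / x) / x := by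
        apply div_le_div_of_nonneg_right _ hx0.le
        rw [Real.exp_le_exp]
        apply div_le_div_of_nonneg_right _ hx0.le
        exact mul_le_mul_of_nonneg_left ha hc
    _ = Real.exp (c * lam t / lt d t) / lt d t * d6A c (lam t) (lt d t) x := h5.symm
    _ ≤ Real.exp (c * lam t / lt d t) / lt d t * qE c lam d t x :=
        mul_le_mul_of_nonneg_left h4 (by positivity)

theorem d6_weight_b {c R a : ℝ} (hc : 0 ≤ c) {d t x : ℕ} (hx : 1 ≤ x)
    {lam : ℕ → ℝ} (h : LamOK R d lam) (ha : a ≤ lam t) :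
    Real.exp (c * a / x) * (qE c lam d t x)⁻¹ ≤ Real.exp (c * lam t / lt d t) := by
  have hx0 : (0 : ℝ) < x := by exact_mod_cast hx
  have hl0 : 0 < lt d t := by linarith [v7_one_le_lt d t]
  have h3 : 0 < qE c lam d t x := zero_lt_one.trans_le (d6_one_le_qE c lam d t x)
  rcases le_total (lt d t) x with hxl | hxl
  · have h4 : (qE c lam d t x)⁻¹ ≤ 1 := inv_le_one_of_one_le₀ (d6_one_le_qE c lam d t x)
    have h5 : Real.exp (c * a / x) ≤ Real.exp (c * lam t / lt d t) := by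
      rw [Real.exp_le_exp]
      calc c * a / x ≤ c * lam t / x := by
            apply div_le_div_of_nonneg_right _ hx0.le
            exact mul_le_mul_of_nonneg_left ha hc
        _ ≤ c * lam t / lt d t :=
            div_le_div_of_nonneg_left (mul_nonneg hc (h.nonneg t)) hl0 hxl
    calc Real.exp (c * a / x) * (qE c lam d t x)⁻¹ ≤ Real.exp (c * lam t / lt d t) * 1 :=
          mul_le_mul h5 h4 (inv_nonneg.2 h3.le) (Real.exp_pos _).le
      _ = Real.exp (c * lam t / lt d t) := mul_one _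
  · have h4 := d6_weight_a hc hx h ha
    have h5 : Real.exp (c * a / x) * (qE c lam d t x)⁻¹ =
        Real.exp (c * a / x) / x * (qE c lam d t x)⁻¹ * x := by
      field_simp
    rw [h5]
    calc Real.exp (c * a / x) / x * (qE c lam d t x)⁻¹ * x
        ≤ Real.exp (c * lam t / lt d t) / lt d t * x :=
          mul_le_mul_of_nonneg_right h4 hx0.le
      _ ≤ Real.exp (c * lam t / lt d t) / lt d t * lt d t :=
          mul_le_mul_of_nonneg_left hxl (by positivity)
      _ = Real.exp (c * lam t / lt d t) := by field_simp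

theorem weightE {c R a : ℝ} (hc : 0 ≤ c) {d t x : ℕ} (hd : 1 ≤ d) (hx : 1 ≤ x) {lam : ℕ → ℝ}
    (h : LamOK R d lam) (ha : a ≤ lam (t + 2)) :
    Real.exp (c * a / x) / x * (bE c lam d (t + 2) (x + 1) / bE c lam d (t + 2) x) ≤
      WE c lam d t ∧
    Real.exp (c * a / x) * (bE c lam d (t + 2) (x + 1) / bE c lam d (t + 2) x) ≤
      lt d (t + 2) * WE c lam d t := by
  have hl0 : 0 < lt d (t + 2) := by linarith [v7_one_le_lt d (t + 2)]
  rw [d6_ratio hc hd h (t + 2) x hx]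
  refine ⟨d6_weight_a hc hx h ha, ?_⟩
  have h1 := d6_weight_b hc hx h ha
  have h2 : lt d (t + 2) * WE c lam d t = Real.exp (c * lam (t + 2) / lt d (t + 2)) := by
    unfold WE
    field_simp
  rw [h2]
  exact h1

theorem weightE1 {c R a : ℝ} (hc : 0 ≤ c) {d t x : ℕ} (hd : 1 ≤ d) (hx : 1 ≤ x) {lam : ℕ → ℝ}
    (h : LamOK R d lam) (ha : a ≤ lam (t + 1)) :
    Real.exp (c * a / x) * (bE c lam d (t + 1) (x + 1) / bE c lam d (t + 1) x) ≤
      Real.exp (c * R) := by
  have hl0 : 0 < lt d (t + 1) := by linarith [v7_one_le_lt d (t + 1)]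
  rw [d6_ratio hc hd h (t + 1) x hx]
  refine (d6_weight_b hc hx h ha).trans ?_
  rw [Real.exp_le_exp, div_le_iff₀ hl0, mul_assoc]
  exact mul_le_mul_of_nonneg_left (h.le (t + 1)) hc

end Pool.Agent.Lib.MP_8501c9_pr.Deep
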