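import Pool.Agent.Lib.MP_8501c9_pr.Deep.Defs

/-!
# Almost optimal and regular choice of the parameter `y`
-/

set_option autoImplicit false
open Set

namespace Pool.Agent.Lib.MP_8501c9_pr.Deep

open Pool.Agent.Lib.MP_8501c9_pr Pool.Agent.Lib.MP_8501c9_pr.Mid
open Pool.Agent.Lib.MP_8501c9_pr.Wide

theorem gY_pos {y τ : ℝ} (hy0 : 0 < y) (hy1 : y < 1) (hτ : 0 < τ) : 0 < gY y τ := by
  have h1 : 0 < 1 - y := by linarith
  unfold gY
  positivity

theorem d8_bdd {τ : ℝ} (hτ : 0 < τ) : BddBelow ((fun y => gY y τ) '' Set.Ioo 0 1) := by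
  refine ⟨0, ?_⟩
  rintro _ ⟨y, hy, rfl⟩
  exact (gY_pos hy.1 hy.2 hτ).le

theorem d8_ne (τ : ℝ) : ((fun y => gY y τ) '' Set.Ioo 0 1).Nonempty :=
  ⟨_, 1 / 2, ⟨by norm_num, by norm_num⟩, rfl⟩

theorem gg_le {y τ : ℝ} (hy0 : 0 < y) (hy1 : y < 1) (hτ : 0 < τ) : gg τ ≤ gY y τ :=
  csInf_le (d8_bdd hτ) ⟨y, ⟨hy0, hy1⟩, rfl⟩

theorem d8_le_gg {a τ : ℝ} (h : ∀ y, 0 < y → y < 1 → a ≤ gY y τ) : a ≤ gg τ := by
  refine le_csInf (d8_ne τ) ?_
  rintro _ ⟨y, hy, rfl⟩
  exact h y hy.1 hy.2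

/-- the exponent is nonnegative, more precisely at least `2 y / τ` -/
theorem d8_exp {y τ : ℝ} (hy0 : 0 < y) (hy1 : y < 1) (hτ : 0 < τ) :
    2 * y / τ ≤ 2 / τ * (y / (1 - y)) + 1 / (1 - y) - (1 - y) := by
  have h1 : 0 < 1 - y := by linarith
  have h2 : 1 - y ≤ 1 / (1 - y) := by
    rw [le_div_iff₀ h1]
    nlinarith
  have h3 : y ≤ y / (1 - y) := by
    rw [le_div_iff₀ h1]
    nlinarith
  have h4 : 2 * y / τ = 2 / τ * y := by ring
  have h5 : 2 / τ * y ≤ 2 / τ * (y / (1 - y)) := mul_le_mul_of_nonneg_left h3 (by positivity)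
  linarith

theorem d8_ge1 {y τ : ℝ} (hy0 : 0 < y) (hy1 : y < 1) (hτ : 0 < τ) :
    (1 / y + τ / 2) / (1 - y) ≤ gY y τ := by
  have h1 : 0 < 1 - y := by linarith
  unfold gY
  refine le_mul_of_one_le_right (by positivity) ?_
  refine Real.one_le_exp ?_
  have h2 := d8_exp hy0 hy1 hτ
  have h3 : 0 ≤ 2 * y / τ := by positivity
  linarith

theorem d8_ge2 {y τ : ℝ} (hy0 : 0 < y) (hy1 : y < 1) (hτ : 0 < τ) : 1 / (1 - y) ≤ gY y τ := by
  refine le_trans ?_ (d8_ge1 hy0 hy1 hτ)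
  have h1 : 0 < 1 - y := by linarith
  refine div_le_div_of_nonneg_right ?_ h1.le
  have h2 : 1 ≤ 1 / y := by
    rw [le_div_iff₀ hy0]
    linarith
  have h3 : 0 ≤ τ / 2 := by positivity
  linarith

theorem d8_ge3 {y τ : ℝ} (hy0 : 0 < y) (hy1 : y < 1) (hτ : 0 < τ) :
    1 / y + τ / 2 ≤ gY y τ := by
  refine le_trans ?_ (d8_ge1 hy0 hy1 hτ)
  have h1 : 0 < 1 - y := by linarith
  rw [le_div_iff₀ h1]
  have h2 : 0 < 1 / y + τ / 2 := by positivity
  nlinarith

theorem gg_ge {τ : ℝ} (hτ : 0 < τ) : 2 * Real.exp 1 / τ ≤ gg τ ∧ τ / 2 ≤ gg τ := by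
  refine ⟨d8_le_gg fun y hy0 hy1 => ?_, d8_le_gg fun y hy0 hy1 => ?_⟩
  · have h1 : 0 < 1 - y := by linarith
    have h2 : Real.exp (2 * y / τ) ≤
        Real.exp (2 / τ * (y / (1 - y)) + 1 / (1 - y) - (1 - y)) :=
      Real.exp_le_exp.mpr (d8_exp hy0 hy1 hτ)
    have h3 : 1 / y ≤ (1 / y + τ / 2) / (1 - y) := by
      rw [le_div_iff₀ h1]
      have h4 : 0 < 1 / y := by positivity
      nlinarith [hτ]
    have h5 : 2 * Real.exp 1 / τ ≤ 1 / y * Real.exp (2 * y / τ) := by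
      have h6 : 2 * y / τ * Real.exp 1 ≤ Real.exp (2 * y / τ) := by
        have h7 := Real.add_one_le_exp (2 * y / τ - 1)
        have h8 : Real.exp (2 * y / τ) = Real.exp (2 * y / τ - 1) * Real.exp 1 := by
          rw [← Real.exp_add]
          ring_nf
        rw [h8]
        exact mul_le_mul_of_nonneg_right (by linarith) (Real.exp_pos 1).le
      have h9 : 2 * Real.exp 1 / τ = 1 / y * (2 * y / τ * Real.exp 1) := by
        field_simp
      rw [h9]
      exact mul_le_mul_of_nonneg_left h6 (by positivity)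
    refine h5.trans ?_
    unfold gY
    exact mul_le_mul h3 h2 (Real.exp_pos _).le (by positivity)
  · have h1 := d8_ge3 hy0 hy1 hτ
    have h2 : 0 < 1 / y := by positivity
    linarith

theorem d8_gg_pos {τ : ℝ} (hτ : 0 < τ) : 0 < gg τ :=
  lt_of_lt_of_le (by positivity) (gg_ge hτ).2

theorem gg_anti {τ τ' : ℝ} (hτ : 0 < τ) (h : τ ≤ τ') : gg τ' / τ' ^ 2 ≤ gg τ / τ ^ 2 := by
  have hτ' : 0 < τ' := lt_of_lt_of_le hτ h
  rw [le_div_iff₀ (by positivity)]
  refine d8_le_gg fun y hy0 hy1 => ?_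
  have h1 : 0 < 1 - y := by linarith
  have h2 : gg τ' ≤ gY y τ' := gg_le hy0 hy1 hτ'
  have h3 : gY y τ' / τ' ^ 2 * τ ^ 2 ≤ gY y τ := by
    have e1 : Real.exp (2 / τ' * (y / (1 - y)) + 1 / (1 - y) - (1 - y)) ≤
        Real.exp (2 / τ * (y / (1 - y)) + 1 / (1 - y) - (1 - y)) := by
      refine Real.exp_le_exp.mpr ?_
      have e2 : 2 / τ' ≤ 2 / τ := div_le_div_of_nonneg_left (by norm_num) hτ h
      have e3 : 2 / τ' * (y / (1 - y)) ≤ 2 / τ * (y / (1 - y)) :=
        mul_le_mul_of_nonneg_right e2 (by positivity)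
      linarith
    have e4 : (1 / y + τ' / 2) / (1 - y) / τ' ^ 2 * τ ^ 2 ≤ (1 / y + τ / 2) / (1 - y) := by
      have e5 : (1 / y + τ' / 2) * τ ^ 2 ≤ (1 / y + τ / 2) * τ' ^ 2 := by
        have e6 : τ ^ 2 ≤ τ' ^ 2 := pow_le_pow_left₀ hτ.le h 2
        have e7 : 1 / y * τ ^ 2 ≤ 1 / y * τ' ^ 2 := mul_le_mul_of_nonneg_left e6 (by positivity)
        have e8 : τ' / 2 * τ ^ 2 ≤ τ / 2 * τ' ^ 2 := by
          have : 0 ≤ τ * τ' * (τ' - τ) := by
            have : 0 ≤ τ' - τ := by linarith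
            positivity
          nlinarith
        nlinarith
      have e9 : (1 / y + τ' / 2) / (1 - y) / τ' ^ 2 * τ ^ 2 =
          ((1 / y + τ' / 2) * τ ^ 2) / ((1 - y) * τ' ^ 2) := by
        field_simp
      rw [e9, div_le_div_iff₀ (by positivity) h1]
      nlinarith
    unfold gY
    calc (1 / y + τ' / 2) / (1 - y) *
          Real.exp (2 / τ' * (y / (1 - y)) + 1 / (1 - y) - (1 - y)) / τ' ^ 2 * τ ^ 2
        = ((1 / y + τ' / 2) / (1 - y) / τ' ^ 2 * τ ^ 2) *
          Real.exp (2 / τ' * (y / (1 - y)) + 1 / (1 - y) - (1 - y)) := by ring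
      _ ≤ _ := mul_le_mul e4 e1 (Real.exp_pos _).le (by positivity)
  refine le_trans ?_ h3
  have h4 : gg τ' / τ' ^ 2 ≤ gY y τ' / τ' ^ 2 := div_le_div_of_nonneg_right h2 (by positivity)
  exact mul_le_mul_of_nonneg_right h4 (by positivity)

/-- comparison of the optimal factors at two points -/
theorem gg_mono {τ τ' : ℝ} (hτ : 0 < τ) (h : τ ≤ τ') : gg τ' ≤ τ' / τ * gg τ := by
  have hτ' : 0 < τ' := lt_of_lt_of_le hτ h
  have key : τ / τ' * gg τ' ≤ gg τ := by
    refine d8_le_gg fun y hy0 hy1 => ?_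
    have h1 : 0 < 1 - y := by linarith
    have h2 : gg τ' ≤ gY y τ' := gg_le hy0 hy1 hτ'
    refine le_trans (mul_le_mul_of_nonneg_left h2 (by positivity)) ?_
    have e1 : Real.exp (2 / τ' * (y / (1 - y)) + 1 / (1 - y) - (1 - y)) ≤
        Real.exp (2 / τ * (y / (1 - y)) + 1 / (1 - y) - (1 - y)) := by
      refine Real.exp_le_exp.mpr ?_
      have e2 : 2 / τ' ≤ 2 / τ := div_le_div_of_nonneg_left (by norm_num) hτ h
      have e3 : 2 / τ' * (y / (1 - y)) ≤ 2 / τ * (y / (1 - y)) :=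
        mul_le_mul_of_nonneg_right e2 (by positivity)
      linarith
    have e4 : τ / τ' * ((1 / y + τ' / 2) / (1 - y)) ≤ (1 / y + τ / 2) / (1 - y) := by
      have e5 : τ / τ' ≤ 1 := by
        rw [div_le_one hτ']
        exact h
      have e6 : τ / τ' * (1 / y + τ' / 2) ≤ 1 / y + τ / 2 := by
        have e7 : τ / τ' * (1 / y + τ' / 2) = τ / τ' * (1 / y) + τ / 2 := by
          field_simp
        rw [e7]
        have e8 : τ / τ' * (1 / y) ≤ 1 * (1 / y) :=
          mul_le_mul_of_nonneg_right e5 (by positivity)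
        linarith
      rw [← mul_div_assoc]
      exact div_le_div_of_nonneg_right e6 h1.le
    unfold gY
    rw [← mul_assoc]
    exact mul_le_mul e4 e1 (Real.exp_pos _).le (by positivity)
  have h5 : gg τ' = τ' / τ * (τ / τ' * gg τ') := by
    field_simp
  rw [h5]
  exact mul_le_mul_of_nonneg_left key (by positivity)

theorem d8_log_sub {a : ℝ} (ha0 : 0 ≤ a) (ha1 : a ≤ 1 / 2) : 1 / (1 - a) ≤ 1 + 2 * a := by
  rw [div_le_iff₀ (by linarith)]
  nlinarith

/-- the choice for large `τ` -/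
theorem d8_large (ε : ℝ) (hε : 0 < ε) : ∃ δ T : ℝ, 0 < δ ∧ δ < 1 ∧ 1 ≤ T ∧ ∀ τ, T ≤ τ →
    gY δ τ ≤ Real.exp ε * (τ / 2) := by
  set δ := min (ε / 10) (1 / 2) with hδ
  have hδ0 : 0 < δ := by
    rw [hδ]
    positivity
  have hδ1 : δ ≤ 1 / 2 := min_le_right _ _
  have hδε : δ ≤ ε / 10 := min_le_left _ _
  refine ⟨δ, max 1 (max (8 / (δ * ε)) (16 * δ / ε)), hδ0, by linarith, le_max_left _ _, ?_⟩
  intro τ hτ
  have hτ1 : 1 ≤ τ := (le_max_left _ _).trans hτ
  have hτ2 : 8 / (δ * ε) ≤ τ := ((le_max_left _ _).trans (le_max_right _ _)).trans hτ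
  have hτ3 : 16 * δ / ε ≤ τ := ((le_max_right _ _).trans (le_max_right _ _)).trans hτ
  have hτ0 : 0 < τ := by linarith
  have h1 : 0 < 1 - δ := by linarith
  have h2 := d8_log_sub hδ0.le hδ1
  have e1 : 1 / δ + τ / 2 ≤ τ / 2 * Real.exp (ε / 4) := by
    have e2 := Real.add_one_le_exp (ε / 4)
    have e3 : 1 / δ ≤ τ / 2 * (ε / 4) := by
      rw [div_le_iff₀ (by positivity)] at hτ2 ⊢
      nlinarith
    nlinarith
  have e4 : 1 / (1 - δ) ≤ Real.exp (2 * δ) := by
    refine h2.trans ?_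
    have := Real.add_one_le_exp (2 * δ)
    linarith
  have e5 : 2 / τ * (δ / (1 - δ)) ≤ ε / 4 := by
    have e6 : δ / (1 - δ) ≤ 2 * δ := by
      rw [div_le_iff₀ h1]
      nlinarith
    have e7 : 2 / τ * (δ / (1 - δ)) ≤ 2 / τ * (2 * δ) :=
      mul_le_mul_of_nonneg_left e6 (by positivity)
    refine e7.trans ?_
    rw [div_le_iff₀ hε] at hτ3
    rw [div_mul_eq_mul_div, div_le_iff₀ hτ0]
    nlinarith
  have e8 : 2 / τ * (δ / (1 - δ)) + 1 / (1 - δ) - (1 - δ) ≤ ε / 4 + 3 * δ := by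
    linarith
  have h3 : 2 * δ + 3 * δ ≤ ε / 2 := by linarith
  unfold gY
  calc (1 / δ + τ / 2) / (1 - δ) *
        Real.exp (2 / τ * (δ / (1 - δ)) + 1 / (1 - δ) - (1 - δ))
      = (1 / δ + τ / 2) * (1 / (1 - δ)) *
        Real.exp (2 / τ * (δ / (1 - δ)) + 1 / (1 - δ) - (1 - δ)) := by ring
    _ ≤ (τ / 2 * Real.exp (ε / 4)) * Real.exp (2 * δ) * Real.exp (ε / 4 + 3 * δ) := by
        refine mul_le_mul (mul_le_mul e1 e4 (by positivity) (by positivity))
          (Real.exp_le_exp.mpr e8) (Real.exp_pos _).le (by positivity)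
    _ = Real.exp (ε / 4 + 2 * δ + (ε / 4 + 3 * δ)) * (τ / 2) := by
        rw [Real.exp_add (ε / 4 + 2 * δ) (ε / 4 + 3 * δ), Real.exp_add (ε / 4) (2 * δ)]
        ring
    _ ≤ Real.exp ε * (τ / 2) := by
        refine mul_le_mul_of_nonneg_right (Real.exp_le_exp.mpr (by linarith)) (by positivity)

theorem gg_large (ε : ℝ) (hε : 0 < ε) : ∃ T : ℝ, 0 < T ∧ ∀ τ, T ≤ τ →
    gg τ ≤ Real.exp ε * (τ / 2) := by
  obtain ⟨δ, T, hδ0, hδ1, hT, h⟩ := d8_large ε hε
  exact ⟨T, by linarith, fun τ hτ => (gg_le hδ0 hδ1 (by linarith)).trans (h τ hτ)⟩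

/-- the choice for small `τ` -/
theorem d8_small (ε : ℝ) (hε : 0 < ε) : ∃ τ₀ : ℝ, 0 < τ₀ ∧ τ₀ ≤ 1 / 2 ∧ ∀ τ, 0 < τ → τ ≤ τ₀ →
    gY (τ / 2) τ ≤ Real.exp ε * gg τ := by
  refine ⟨min (ε / 4) (1 / 2), by positivity, min_le_right _ _, fun τ hτ0 hτ => ?_⟩
  have h1 : τ ≤ ε / 4 := hτ.trans (min_le_left _ _)
  have h2 : τ ≤ 1 / 2 := hτ.trans (min_le_right _ _)
  set a := τ / 2 with ha
  have ha0 : 0 < a := by positivity
  have ha1 : a ≤ 1 / 4 := by linarith
  have hτa : τ = 2 * a := by rw [ha]; ring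
  have h3 : 0 < 1 - a := by linarith
  have h4 := d8_log_sub ha0.le (by linarith)
  refine le_trans ?_ (mul_le_mul_of_nonneg_left (gg_ge hτ0).1 (Real.exp_pos _).le)
  have e1 : 1 / a + τ / 2 ≤ 1 / a * Real.exp a := by
    have e2 := Real.add_one_le_exp a
    have e3 : 1 / a * (a + 1) ≤ 1 / a * Real.exp a := mul_le_mul_of_nonneg_left e2 (by positivity)
    have e4 : 1 / a * (a + 1) = 1 + 1 / a := by
      field_simp
    rw [← ha]
    linarith
  have e5 : 1 / (1 - a) ≤ Real.exp (2 * a) := by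
    refine h4.trans ?_
    have := Real.add_one_le_exp (2 * a)
    linarith
  have e6 : 2 / τ * (a / (1 - a)) + 1 / (1 - a) - (1 - a) ≤ 1 + 5 * a := by
    have e7 : 2 / τ * (a / (1 - a)) = 1 / (1 - a) := by
      rw [hτa]
      field_simp
    rw [e7]
    linarith
  unfold gY
  calc (1 / a + τ / 2) / (1 - a) * Real.exp (2 / τ * (a / (1 - a)) + 1 / (1 - a) - (1 - a))
      = (1 / a + τ / 2) * (1 / (1 - a)) *
        Real.exp (2 / τ * (a / (1 - a)) + 1 / (1 - a) - (1 - a)) := by ring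
    _ ≤ (1 / a * Real.exp a) * Real.exp (2 * a) * Real.exp (1 + 5 * a) := by
        refine mul_le_mul (mul_le_mul e1 e5 (by positivity) (by positivity))
          (Real.exp_le_exp.mpr e6) (Real.exp_pos _).le (by positivity)
    _ = Real.exp (a + 2 * a + 5 * a) * (2 * Real.exp 1 / τ) := by
        rw [Real.exp_add (a + 2 * a) (5 * a), Real.exp_add a (2 * a), Real.exp_add 1 (5 * a), hτa]
        field_simp
    _ ≤ Real.exp ε * (2 * Real.exp 1 / τ) := by
        refine mul_le_mul_of_nonneg_right (Real.exp_le_exp.mpr ?_) (by positivity)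
        linarith

/-- logarithm of the growth factor -/
noncomputable def d8_f (τ y : ℝ) : ℝ :=
  Real.log (1 + τ / 2 * y) - Real.log y - Real.log (1 - y) + (2 / τ + 1) * (1 - y)⁻¹ + y -
    (2 / τ + 1)

theorem d8_log {y τ : ℝ} (hy0 : 0 < y) (hy1 : y < 1) (hτ : 0 < τ) :
    Real.log (gY y τ) = d8_f τ y := by
  have h1 : 0 < 1 - y := by linarith
  have h2 : 0 < 1 + τ / 2 * y := by positivity
  unfold gY d8_f
  rw [Real.log_mul (by positivity) (Real.exp_pos _).ne', Real.log_exp,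
    Real.log_div (by positivity) h1.ne']
  have h3 : 1 / y + τ / 2 = (1 + τ / 2 * y) / y := by
    field_simp
  rw [h3, Real.log_div h2.ne' hy0.ne']
  have h4 : y / (1 - y) = (1 - y)⁻¹ - 1 := by
    field_simp
    ring
  rw [h4, one_div]
  ring

theorem d8_convex {τ : ℝ} (hτ : 0 < τ) : ConvexOn ℝ (Set.Ioo 0 1) (d8_f τ) := by
  have hint : interior (Set.Ioo (0 : ℝ) 1) = Set.Ioo 0 1 := isOpen_Ioo.interior_eq
  have hd1 : ∀ y ∈ Set.Ioo (0 : ℝ) 1, HasDerivAt (d8_f τ)
      (τ / 2 / (1 + τ / 2 * y) - y⁻¹ + (1 - y)⁻¹ + (2 / τ + 1) * (1 / (1 - y) ^ 2) + 1) y := by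
    intro y hy
    have h1 : 1 - y ≠ 0 := by
      have := hy.2
      linarith
    have h0 : y ≠ 0 := hy.1.ne'
    have h2 : 1 + τ / 2 * y ≠ 0 := by
      have := hy.1
      positivity
    have a1 : HasDerivAt (fun y : ℝ => 1 + τ / 2 * y) (τ / 2) y := by
      simpa using ((hasDerivAt_id y).const_mul (τ / 2)).const_add 1
    have a2 : HasDerivAt (fun y : ℝ => 1 - y) (-1) y := by
      simpa using (hasDerivAt_id y).const_sub 1
    have a3 := a1.log h2
    have a4 := Real.hasDerivAt_log h0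
    have a5 := a2.log h1
    have a6 := (a2.inv h1).const_mul (2 / τ + 1)
    have a7 := ((((a3.sub a4).sub a5).add a6).add (hasDerivAt_id y)).sub_const (2 / τ + 1)
    refine a7.congr_deriv ?_
    ring
  have hd2 : ∀ y ∈ Set.Ioo (0 : ℝ) 1, HasDerivAt
      (fun y : ℝ => τ / 2 / (1 + τ / 2 * y) - y⁻¹ + (1 - y)⁻¹ +
        (2 / τ + 1) * (1 / (1 - y) ^ 2) + 1)
      (-(τ / 2 * (τ / 2)) / (1 + τ / 2 * y) ^ 2 + 1 / y ^ 2 + 1 / (1 - y) ^ 2 +
        (2 / τ + 1) * (2 * (1 - y) / ((1 - y) ^ 2) ^ 2)) y := by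
    intro y hy
    have h1 : 1 - y ≠ 0 := by
      have := hy.2
      linarith
    have h0 : y ≠ 0 := hy.1.ne'
    have h2 : 1 + τ / 2 * y ≠ 0 := by
      have := hy.1
      positivity
    have a1 : HasDerivAt (fun y : ℝ => 1 + τ / 2 * y) (τ / 2) y := by
      simpa using ((hasDerivAt_id y).const_mul (τ / 2)).const_add 1
    have a2 : HasDerivAt (fun y : ℝ => 1 - y) (-1) y := by
      simpa using (hasDerivAt_id y).const_sub 1
    have a3 := (hasDerivAt_const y (τ / 2)).div a1 h2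
    have a4 := hasDerivAt_inv h0
    have a5 := a2.inv h1
    have a6 := ((hasDerivAt_const y (1 : ℝ)).div (a2.pow 2) (pow_ne_zero 2 h1)).const_mul
      (2 / τ + 1)
    have a7 := (((a3.sub a4).add a5).add a6).add_const (1 : ℝ)
    refine a7.congr_deriv ?_
    simp only [Nat.cast_ofNat, Pi.pow_apply]
    ring
  refine convexOn_of_hasDerivWithinAt2_nonneg (convex_Ioo 0 1)
    (f' := fun y => τ / 2 / (1 + τ / 2 * y) - y⁻¹ + (1 - y)⁻¹ +
        (2 / τ + 1) * (1 / (1 - y) ^ 2) + 1)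
    (f'' := fun y => -(τ / 2 * (τ / 2)) / (1 + τ / 2 * y) ^ 2 + 1 / y ^ 2 + 1 / (1 - y) ^ 2 +
        (2 / τ + 1) * (2 * (1 - y) / ((1 - y) ^ 2) ^ 2))
    (fun y hy => (hd1 y hy).continuousAt.continuousWithinAt) ?_ ?_ ?_
  · rw [hint]
    exact fun y hy => (hd1 y hy).hasDerivWithinAt
  · rw [hint]
    exact fun y hy => (hd2 y hy).hasDerivWithinAt
  · rw [hint]
    intro y hy
    have h1 : 0 < 1 - y := by
      have := hy.2
      linarith
    have h0 : 0 < y := hy.1
    have h2 : 0 < 1 + τ / 2 * y := by positivity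
    have h3 : τ / 2 * (τ / 2) / (1 + τ / 2 * y) ^ 2 ≤ 1 / y ^ 2 := by
      rw [div_le_div_iff₀ (by positivity) (by positivity)]
      nlinarith
    have h4 : 0 ≤ 1 / (1 - y) ^ 2 := by positivity
    have h5 : 0 ≤ (2 / τ + 1) * (2 * (1 - y) / ((1 - y) ^ 2) ^ 2) := by positivity
    have h6 : -(τ / 2 * (τ / 2)) / (1 + τ / 2 * y) ^ 2 =
        -(τ / 2 * (τ / 2) / (1 + τ / 2 * y) ^ 2) := by ring
    rw [h6]
    linarith

/-- comparison at two values of `τ` -/
theorem d8_cmp {y τ τ' τ₀ G : ℝ} (hy0 : 0 < y) (hy1 : y < 1) (hτ₀ : 0 < τ₀) (hτ : τ₀ ≤ τ)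
    (hτ' : τ₀ ≤ τ') (hG : 1 / (1 - y) ≤ G) :
    gY y τ' ≤ Real.exp ((1 / 2 + 2 * G / τ₀ ^ 2) * |τ' - τ|) * gY y τ := by
  have h1 : 0 < 1 - y := by linarith
  have hp : 0 < τ := by linarith
  have hp' : 0 < τ' := by linarith
  set D := |τ' - τ| with hD
  have hD0 : 0 ≤ D := abs_nonneg _
  have hD1 : τ' - τ ≤ D := le_abs_self _
  have hD2 : τ - τ' ≤ D := by
    rw [hD, abs_sub_comm]
    exact le_abs_self _
  have hy : 1 ≤ 1 / y := by
    rw [le_div_iff₀ hy0]
    linarith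
  have hyG : y / (1 - y) ≤ G := by
    refine le_trans ?_ hG
    exact div_le_div_of_nonneg_right hy1.le h1.le
  have hyG0 : 0 ≤ y / (1 - y) := by positivity
  have hG0 : 0 ≤ G := hyG0.trans hyG
  have e1 : 1 / y + τ' / 2 ≤ (1 / y + τ / 2) * Real.exp (D / 2) := by
    have e2 := Real.add_one_le_exp (D / 2)
    have e3 : 1 ≤ 1 / y + τ / 2 := by linarith
    have e4 : (1 / y + τ / 2) * (D / 2 + 1) ≤ (1 / y + τ / 2) * Real.exp (D / 2) :=
      mul_le_mul_of_nonneg_left e2 (by linarith)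
    nlinarith
  have e5 : 2 / τ' * (y / (1 - y)) ≤ 2 / τ * (y / (1 - y)) + 2 * G / τ₀ ^ 2 * D := by
    have e6 : 2 / τ' - 2 / τ ≤ 2 / τ₀ ^ 2 * D := by
      have e7 : 2 / τ' - 2 / τ = 2 / (τ * τ') * (τ - τ') := by
        field_simp
      rw [e7]
      have e8 : 2 / (τ * τ') * (τ - τ') ≤ 2 / (τ * τ') * D :=
        mul_le_mul_of_nonneg_left hD2 (by positivity)
      refine e8.trans (mul_le_mul_of_nonneg_right ?_ hD0)
      refine div_le_div_of_nonneg_left (by norm_num) (by positivity) ?_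
      rw [pow_two]
      exact mul_le_mul hτ hτ' hτ₀.le hp.le
    have e9 : (2 / τ' - 2 / τ) * (y / (1 - y)) ≤ 2 / τ₀ ^ 2 * D * (y / (1 - y)) :=
      mul_le_mul_of_nonneg_right e6 hyG0
    have e10 : 2 / τ₀ ^ 2 * D * (y / (1 - y)) ≤ 2 / τ₀ ^ 2 * D * G :=
      mul_le_mul_of_nonneg_left hyG (by positivity)
    have e11 : 2 / τ₀ ^ 2 * D * G = 2 * G / τ₀ ^ 2 * D := by ring
    linarith [e9, e10, e11, sub_mul (2 / τ') (2 / τ) (y / (1 - y))]
  unfold gY
  calc (1 / y + τ' / 2) / (1 - y) *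
        Real.exp (2 / τ' * (y / (1 - y)) + 1 / (1 - y) - (1 - y))
      ≤ ((1 / y + τ / 2) * Real.exp (D / 2)) / (1 - y) *
        Real.exp ((2 / τ * (y / (1 - y)) + 1 / (1 - y) - (1 - y)) + 2 * G / τ₀ ^ 2 * D) := by
        refine mul_le_mul (div_le_div_of_nonneg_right e1 h1.le)
          (Real.exp_le_exp.mpr (by linarith)) (Real.exp_pos _).le (by positivity)
    _ = Real.exp (D / 2 + 2 * G / τ₀ ^ 2 * D) * ((1 / y + τ / 2) / (1 - y) *
        Real.exp (2 / τ * (y / (1 - y)) + 1 / (1 - y) - (1 - y))) := by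
        rw [Real.exp_add (2 / τ * (y / (1 - y)) + 1 / (1 - y) - (1 - y)), Real.exp_add (D / 2)]
        ring
    _ = _ := by
        congr 2
        ring

/-- almost optimal points exist -/
theorem d8_near {τ a : ℝ} (h : gg τ < a) : ∃ y, 0 < y ∧ y < 1 ∧ gY y τ < a := by
  obtain ⟨_, ⟨y, hy, rfl⟩, h2⟩ := exists_lt_of_csInf_lt (d8_ne τ) h
  exact ⟨y, hy.1, hy.2, h2⟩

theorem d8_gg_cmp {τ τ' τ₀ M : ℝ} (hτ₀ : 0 < τ₀) (hτ : τ₀ ≤ τ)
    (hτ' : τ₀ ≤ τ') (hM : gg τ ≤ M) :
    gg τ' ≤ Real.exp ((1 / 2 + 2 * (M + 1) / τ₀ ^ 2) * |τ' - τ|) * gg τ := by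
  set K := Real.exp ((1 / 2 + 2 * (M + 1) / τ₀ ^ 2) * |τ' - τ|) with hK
  have hK0 : 0 < K := Real.exp_pos _
  have hp : 0 < τ := by linarith
  have hp' : 0 < τ' := by linarith
  refine le_of_forall_pos_le_add fun e he => ?_
  have h1 : gg τ < gg τ + min 1 (e / K) := by
    have : 0 < min 1 (e / K) := by positivity
    linarith
  obtain ⟨y, hy0, hy1, hy⟩ := d8_near h1
  have h2 : gY y τ ≤ M + 1 := by
    have := min_le_left 1 (e / K)
    linarith
  have h3 := d8_cmp hy0 hy1 hτ₀ hτ hτ' ((d8_ge2 hy0 hy1 hp).trans h2)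
  rw [← hK] at h3
  have h4 := gg_le hy0 hy1 hp'
  have h5 : gY y τ ≤ gg τ + e / K := by
    have := min_le_right 1 (e / K)
    linarith
  calc gg τ' ≤ K * gY y τ := h4.trans h3
    _ ≤ K * (gg τ + e / K) := mul_le_mul_of_nonneg_left h5 hK0.le
    _ = K * gg τ + e := by
        field_simp

theorem d8_abs_sub (a b : ℝ) : |a - b| ≤ |a| + |b| := by
  have := norm_sub_le a b
  simpa [Real.norm_eq_abs] using this

/-- the ramp function -/
noncomputable def d8_ramp (u : ℝ) : ℝ := max 0 (min u 1)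

theorem d8_ramp_mono {u v : ℝ} (h : u ≤ v) : d8_ramp u ≤ d8_ramp v :=
  max_le_max le_rfl (min_le_min h le_rfl)

theorem d8_ramp_zero {u : ℝ} (h : u ≤ 0) : d8_ramp u = 0 :=
  max_eq_left ((min_le_left _ _).trans h)

theorem d8_ramp_one {u : ℝ} (h : 1 ≤ u) : d8_ramp u = 1 := by
  unfold d8_ramp
  rw [min_eq_right h]
  exact max_eq_right zero_le_one

theorem d8_ramp_lip (u v : ℝ) : |d8_ramp u - d8_ramp v| ≤ |u - v| := by
  unfold d8_ramp
  rw [max_comm 0 (min u 1), max_comm 0 (min v 1)]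
  refine (abs_max_sub_max_le_abs (min u 1) (min v 1) 0).trans ?_
  exact (abs_min_sub_min_le_max u 1 v 1).trans (by simp)

/-- the weights of the grid points -/
noncomputable def d8_w (s : ℝ) (i : ℕ) : ℝ := d8_ramp (s - i + 1) - d8_ramp (s - i)

theorem d8_w_nonneg (s : ℝ) (i : ℕ) : 0 ≤ d8_w s i :=
  sub_nonneg.mpr (d8_ramp_mono (le_add_of_nonneg_right zero_le_one))

theorem d8_w_ne {s : ℝ} {i : ℕ} (h : d8_w s i ≠ 0) : |s - i| ≤ 1 := by
  by_contra hcon
  push Not at hcon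
  apply h
  unfold d8_w
  rcases lt_abs.mp hcon with h1 | h1
  · rw [d8_ramp_one (by linarith), d8_ramp_one h1.le, sub_self]
  · rw [d8_ramp_zero (by linarith), d8_ramp_zero (by linarith), sub_self]

theorem d8_w_sum {s : ℝ} {N : ℕ} (h0 : 0 ≤ s) (h1 : s ≤ N) :
    ∑ i ∈ Finset.range (N + 1), d8_w s i = 1 := by
  have h2 : ∀ i : ℕ, d8_w s i = d8_ramp (s - i + 1) - d8_ramp (s - (i + 1 : ℕ) + 1) := by
    intro i
    unfold d8_w
    congr 2
    push_cast
    ring
  simp only [h2]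
  rw [Finset.sum_range_sub' (fun i : ℕ => d8_ramp (s - i + 1))]
  rw [d8_ramp_one (by push_cast; linarith), d8_ramp_zero (by push_cast; linarith), sub_zero]

theorem d8_w_lip (s s' : ℝ) (i : ℕ) : |d8_w s i - d8_w s' i| ≤ 2 * |s - s'| := by
  unfold d8_w
  have h1 := d8_ramp_lip (s - i + 1) (s' - i + 1)
  have h2 := d8_ramp_lip (s - i) (s' - i)
  have e1 : s - i + 1 - (s' - i + 1) = s - s' := by ring
  have e2 : s - i - (s' - (i : ℝ)) = s - s' := by ring
  rw [e1] at h1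
  rw [e2] at h2
  calc |d8_ramp (s - i + 1) - d8_ramp (s - i) - (d8_ramp (s' - i + 1) - d8_ramp (s' - i))|
      = |(d8_ramp (s - i + 1) - d8_ramp (s' - i + 1)) -
          (d8_ramp (s - i) - d8_ramp (s' - i))| := by
        congr 1
        ring
    _ ≤ |d8_ramp (s - i + 1) - d8_ramp (s' - i + 1)| + |d8_ramp (s - i) - d8_ramp (s' - i)| :=
        d8_abs_sub _ _
    _ ≤ 2 * |s - s'| := by linarith

/-- almost optimal and regular choice of the parameter -/
theorem exists_Y (ε : ℝ) (hε : 0 < ε) : ∃ (R : ℝ) (Y : ℝ → ℝ), 1 ≤ R ∧ YF R Y ∧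
    ∀ τ, 0 < τ → gY (Y τ) τ ≤ Real.exp ε * gg τ := by
  obtain ⟨δ, T, hδ0, hδ1, hT1, hT⟩ := d8_large (ε / 2) (by positivity)
  obtain ⟨τ₀, hτ₀, hτ₀1, hsm⟩ := d8_small (ε / 2) (by positivity)
  have hTτ : 0 < T - τ₀ := by linarith
  -- bound for `gg` on `[τ₀, T]`
  set M := T / τ₀ * gg τ₀ with hM
  have hM0 : 0 < M := by
    have := d8_gg_pos hτ₀
    have : 0 < T := by linarith
    positivity
  have hgM : ∀ τ, τ₀ ≤ τ → τ ≤ T → gg τ ≤ M := by
    intro τ h1 h2
    refine (gg_mono hτ₀ h1).trans ?_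
    exact mul_le_mul_of_nonneg_right (div_le_div_of_nonneg_right h2 hτ₀.le) (d8_gg_pos hτ₀).le
  set G := Real.exp (ε / 2) * M + 1 with hG
  have hMG : M + 1 ≤ G := by
    have : 1 ≤ Real.exp (ε / 2) := Real.one_le_exp (by positivity)
    nlinarith
  have hG0 : 1 < G := by
    have : 0 < Real.exp (ε / 2) * M := by positivity
    linarith
  set K := 1 / 2 + 2 * G / τ₀ ^ 2 with hK
  have hK0 : 0 < K := by
    have : 0 < G := by linarith
    positivity
  -- the grid
  obtain ⟨N, hN⟩ := exists_nat_gt (max 1 (K * (T - τ₀) / (ε / 4)))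
  have hN1 : (1 : ℝ) < N := (le_max_left _ _).trans_lt hN
  have hN0 : (0 : ℝ) < N := by linarith
  set h := (T - τ₀) / N with hh
  have hh0 : 0 < h := by positivity
  have hKh : K * h ≤ ε / 4 := by
    have h1 : K * (T - τ₀) / (ε / 4) ≤ N := ((le_max_right _ _).trans_lt hN).le
    rw [div_le_iff₀ (by positivity)] at h1
    rw [hh, ← mul_div_assoc, div_le_iff₀ hN0]
    linarith
  have hNh : τ₀ + N * h = T := by
    rw [hh]
    field_simp
    ring
  have hy : ∀ i : ℕ, ∃ y : ℝ, 0 < y ∧ y < 1 ∧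
      (i ≤ N → gY y (τ₀ + i * h) ≤ Real.exp (ε / 2) * gg (τ₀ + i * h)) ∧
      (i = 0 → y = τ₀ / 2) ∧ (i = N → y = δ) := by
    intro i
    rcases Nat.eq_zero_or_pos i with h0 | h0
    · refine ⟨τ₀ / 2, by positivity, by linarith, fun _ => ?_, fun _ => rfl, fun h1 => ?_⟩
      · rw [h0]
        simpa using hsm τ₀ hτ₀ le_rfl
      · exfalso
        rw [← h1, h0] at hN1
        norm_num at hN1
    · rcases eq_or_ne i N with h1 | h1
      · refine ⟨δ, hδ0, hδ1, fun _ => ?_, fun h2 => by omega, fun _ => rfl⟩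
        rw [h1, hNh]
        refine (hT T le_rfl).trans ?_
        exact mul_le_mul_of_nonneg_left (gg_ge (by linarith)).2 (Real.exp_pos _).le
      · have hpos : 0 < τ₀ + i * h := by positivity
        have h2 : gg (τ₀ + i * h) < Real.exp (ε / 2) * gg (τ₀ + i * h) := by
          have h3 : 1 < Real.exp (ε / 2) := Real.one_lt_exp_iff.mpr (by positivity)
          have h4 := d8_gg_pos hpos
          nlinarith
        obtain ⟨y, hy0, hy1, hy2⟩ := d8_near h2
        exact ⟨y, hy0, hy1, fun _ => hy2.le, fun h3 => by omega, fun h3 => absurd h3 h1⟩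
  choose y hy0 hy1 hy2 hy3 hy4 using hy
  have hgrid : ∀ i : ℕ, i ≤ N → τ₀ ≤ τ₀ + i * h ∧ τ₀ + i * h ≤ T := by
    intro i hi
    have hi' : (i : ℝ) ≤ N := by exact_mod_cast hi
    constructor
    · have : 0 ≤ (i : ℝ) * h := by positivity
      linarith
    · have : (i : ℝ) * h ≤ N * h := mul_le_mul_of_nonneg_right hi' hh0.le
      linarith
  have hyG : ∀ i : ℕ, i ≤ N → gY (y i) (τ₀ + i * h) ≤ G := by
    intro i hi
    have h1 := hy2 i hi
    have h2 := hgM _ (hgrid i hi).1 (hgrid i hi).2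
    have h3 : Real.exp (ε / 2) * gg (τ₀ + i * h) ≤ Real.exp (ε / 2) * M :=
      mul_le_mul_of_nonneg_left h2 (Real.exp_pos _).le
    linarith
  have hylow : ∀ i : ℕ, i ≤ N → 1 / G ≤ y i := by
    intro i hi
    have hpos : 0 < τ₀ + i * h := by positivity
    have h1 := d8_ge3 (hy0 i) (hy1 i) hpos
    have h2 : 1 / y i ≤ G := by
      have := hyG i hi
      linarith
    rw [div_le_iff₀ (hy0 i)] at h2
    rw [div_le_iff₀ (by linarith)]
    linarith
  have hyup : ∀ i : ℕ, i ≤ N → y i ≤ 1 - 1 / G := by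
    intro i hi
    have hpos : 0 < τ₀ + i * h := by positivity
    have h1 := (d8_ge2 (hy0 i) (hy1 i) hpos).trans (hyG i hi)
    have h3 : 0 < 1 - y i := by
      have := hy1 i
      linarith
    rw [div_le_iff₀ h3] at h1
    have h2 : 1 / G ≤ 1 - y i := by
      rw [div_le_iff₀ (by linarith)]
      linarith
    linarith
  -- the interpolation
  set A : ℝ → ℝ := fun s => ∑ i ∈ Finset.range (N + 1), d8_w s i * y i with hA
  have hA0 : A 0 = τ₀ / 2 := by
    rw [hA]
    simp only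
    rw [Finset.sum_eq_single_of_mem 0 (by simp)]
    · rw [hy3 0 rfl]
      unfold d8_w
      rw [d8_ramp_one (by norm_num), d8_ramp_zero (by norm_num)]
      ring
    · intro i _ hi
      have hi' : (1 : ℝ) ≤ i := by exact_mod_cast Nat.one_le_iff_ne_zero.mpr hi
      unfold d8_w
      rw [d8_ramp_zero (by linarith), d8_ramp_zero (by linarith)]
      ring
  have hAN : A N = δ := by
    rw [hA]
    simp only
    rw [Finset.sum_eq_single_of_mem N (by simp)]
    · rw [hy4 N rfl]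
      unfold d8_w
      rw [d8_ramp_one (by linarith), d8_ramp_zero (by linarith)]
      ring
    · intro i hi1 hi
      have hi2 : i < N := by
        have := Finset.mem_range.mp hi1
        omega
      have hi' : (i : ℝ) + 1 ≤ N := by exact_mod_cast hi2
      unfold d8_w
      rw [d8_ramp_one (by linarith), d8_ramp_one (by linarith)]
      ring
  have hAlow : ∀ s : ℝ, 0 ≤ s → s ≤ N → 1 / G ≤ A s := by
    intro s hs0 hs1
    calc 1 / G = ∑ i ∈ Finset.range (N + 1), d8_w s i * (1 / G) := by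
          rw [← Finset.sum_mul, d8_w_sum hs0 hs1, one_mul]
      _ ≤ A s := by
          refine Finset.sum_le_sum fun i hi => ?_
          have hi' := Finset.mem_range.mp hi
          exact mul_le_mul_of_nonneg_left (hylow i (by omega)) (d8_w_nonneg s i)
  have hAup : ∀ s : ℝ, 0 ≤ s → s ≤ N → A s ≤ 1 - 1 / G := by
    intro s hs0 hs1
    calc A s ≤ ∑ i ∈ Finset.range (N + 1), d8_w s i * (1 - 1 / G) := by
          refine Finset.sum_le_sum fun i hi => ?_
          have hi' := Finset.mem_range.mp hi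
          exact mul_le_mul_of_nonneg_left (hyup i (by omega)) (d8_w_nonneg s i)
      _ = 1 - 1 / G := by
          rw [← Finset.sum_mul, d8_w_sum hs0 hs1, one_mul]
  have hAlip : ∀ s s' : ℝ, |A s - A s'| ≤ 2 * (N + 1) * |s - s'| := by
    intro s s'
    have h1 : A s - A s' = ∑ i ∈ Finset.range (N + 1), (d8_w s i - d8_w s' i) * y i := by
      rw [hA]
      simp only
      rw [← Finset.sum_sub_distrib]
      exact Finset.sum_congr rfl fun i _ => by ring
    rw [h1]
    refine (Finset.abs_sum_le_sum_abs _ _).trans ?_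
    calc ∑ i ∈ Finset.range (N + 1), |(d8_w s i - d8_w s' i) * y i|
        ≤ ∑ i ∈ Finset.range (N + 1), 2 * |s - s'| := by
          refine Finset.sum_le_sum fun i _ => ?_
          rw [abs_mul, abs_of_pos (hy0 i)]
          have h2 := d8_w_lip s s' i
          have h3 := abs_nonneg (d8_w s i - d8_w s' i)
          have h4 := (hy1 i).le
          nlinarith [hy0 i]
      _ = 2 * (N + 1) * |s - s'| := by
          rw [Finset.sum_const, Finset.card_range, nsmul_eq_mul]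
          push_cast
          ring
  -- the choice is almost optimal in the middle range
  have hmid : ∀ τ : ℝ, τ₀ ≤ τ → τ ≤ T → gY (A ((τ - τ₀) / h)) τ ≤ Real.exp ε * gg τ := by
    intro τ h1 h2
    have hτ0 : 0 < τ := by linarith
    set s := (τ - τ₀) / h with hs
    have hs0 : 0 ≤ s := div_nonneg (by linarith) hh0.le
    have hs1 : s ≤ N := by
      rw [hs, div_le_iff₀ hh0]
      linarith
    have hsτ : τ = τ₀ + s * h := by
      rw [hs, div_mul_cancel₀ _ hh0.ne']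
      ring
    have hA01 : 0 < A s ∧ A s < 1 := by
      have a1 := hAlow s hs0 hs1
      have a2 := hAup s hs0 hs1
      have a3 : 0 < 1 / G := by
        have : 0 < G := by linarith
        positivity
      constructor <;> linarith
    have key : ∀ i ∈ Finset.range (N + 1), d8_w s i * d8_f τ (y i) ≤
        d8_w s i * (ε + Real.log (gg τ)) := by
      intro i hi
      have hi' : i ≤ N := by
        have := Finset.mem_range.mp hi
        omega
      by_cases hw : d8_w s i = 0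
      · rw [hw, zero_mul, zero_mul]
      · refine mul_le_mul_of_nonneg_left ?_ (d8_w_nonneg s i)
        rw [← d8_log (hy0 i) (hy1 i) hτ0]
        have hdist : |τ - (τ₀ + i * h)| ≤ h := by
          have e1 : τ - (τ₀ + i * h) = (s - i) * h := by
            rw [hsτ]
            ring
          rw [e1, abs_mul, abs_of_pos hh0]
          have := d8_w_ne hw
          nlinarith
        obtain ⟨g1, g2⟩ := hgrid i hi'
        have c1 := d8_cmp (hy0 i) (hy1 i) hτ₀ g1 h1
          ((d8_ge2 (hy0 i) (hy1 i) (by linarith)).trans (hyG i hi'))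
        have c2 := d8_gg_cmp (τ := τ) (τ' := τ₀ + i * h) hτ₀ h1 g1 (hgM τ h1 h2)
        have c3 : Real.exp ((1 / 2 + 2 * G / τ₀ ^ 2) * |τ - (τ₀ + i * h)|) ≤
            Real.exp (ε / 4) := by
          refine Real.exp_le_exp.mpr ?_
          have : K * |τ - (τ₀ + i * h)| ≤ K * h := mul_le_mul_of_nonneg_left hdist hK0.le
          exact this.trans hKh
        have c4 : Real.exp ((1 / 2 + 2 * (M + 1) / τ₀ ^ 2) * |τ₀ + i * h - τ|) ≤
            Real.exp (ε / 4) := by
          refine Real.exp_le_exp.mpr ?_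
          rw [abs_sub_comm]
          have a1 : 1 / 2 + 2 * (M + 1) / τ₀ ^ 2 ≤ K := by
            rw [hK]
            have : 2 * (M + 1) / τ₀ ^ 2 ≤ 2 * G / τ₀ ^ 2 :=
              div_le_div_of_nonneg_right (by linarith) (by positivity)
            linarith
          calc (1 / 2 + 2 * (M + 1) / τ₀ ^ 2) * |τ - (τ₀ + i * h)|
              ≤ K * h := mul_le_mul a1 hdist (abs_nonneg _) hK0.le
            _ ≤ ε / 4 := hKh
        have hpos := gY_pos (hy0 i) (hy1 i) hτ0
        have hgpos := d8_gg_pos hτ0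
        have hgpos2 := d8_gg_pos (τ := τ₀ + i * h) (by linarith)
        have hYpos2 := gY_pos (hy0 i) (hy1 i) (τ := τ₀ + i * h) (by linarith)
        have c5 : gY (y i) τ ≤ Real.exp ε * gg τ := by
          calc gY (y i) τ ≤ Real.exp (ε / 4) * gY (y i) (τ₀ + i * h) :=
                c1.trans (mul_le_mul_of_nonneg_right c3 hYpos2.le)
            _ ≤ Real.exp (ε / 4) * (Real.exp (ε / 2) * gg (τ₀ + i * h)) :=
                mul_le_mul_of_nonneg_left (hy2 i hi') (Real.exp_pos _).le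
            _ ≤ Real.exp (ε / 4) * (Real.exp (ε / 2) * (Real.exp (ε / 4) * gg τ)) := by
                refine mul_le_mul_of_nonneg_left (mul_le_mul_of_nonneg_left ?_
                  (Real.exp_pos _).le) (Real.exp_pos _).le
                exact c2.trans (mul_le_mul_of_nonneg_right c4 hgpos.le)
            _ = Real.exp (ε / 4 + (ε / 2 + ε / 4)) * gg τ := by
                rw [Real.exp_add, Real.exp_add]
                ring
            _ = Real.exp ε * gg τ := by
                congr 2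
                ring
        have c6 := Real.log_le_log hpos c5
        rwa [Real.log_mul (Real.exp_pos _).ne' hgpos.ne', Real.log_exp] at c6
    have hjen : d8_f τ (A s) ≤ ε + Real.log (gg τ) := by
      have j1 := (d8_convex hτ0).map_sum_le (t := Finset.range (N + 1)) (w := fun i => d8_w s i)
        (p := fun i => y i) (fun i _ => d8_w_nonneg s i) (d8_w_sum hs0 hs1)
        (fun i _ => ⟨hy0 i, hy1 i⟩)
      simp only [smul_eq_mul] at j1
      refine j1.trans ((Finset.sum_le_sum key).trans (le_of_eq ?_))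
      rw [← Finset.sum_mul, d8_w_sum hs0 hs1, one_mul]
    rw [← d8_log hA01.1 hA01.2 hτ0] at hjen
    have hpos := gY_pos hA01.1 hA01.2 hτ0
    have hgpos := d8_gg_pos hτ0
    calc gY (A s) τ = Real.exp (Real.log (gY (A s) τ)) := (Real.exp_log hpos).symm
      _ ≤ Real.exp (ε + Real.log (gg τ)) := Real.exp_le_exp.mpr hjen
      _ = Real.exp ε * gg τ := by rw [Real.exp_add, Real.exp_log hgpos]
  -- the function
  set Y : ℝ → ℝ := fun τ => A ((max τ₀ (min τ T) - τ₀) / h) + (min τ τ₀ - τ₀) / 2 with hY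
  have hτ₀T : τ₀ ≤ T := by linarith
  have hYsm : ∀ τ, τ ≤ τ₀ → Y τ = τ / 2 := by
    intro τ h1
    rw [hY]
    simp only
    rw [max_eq_left ((min_le_left _ _).trans h1), sub_self, zero_div, hA0, min_eq_left h1]
    ring
  have hYmid : ∀ τ, τ₀ ≤ τ → τ ≤ T → Y τ = A ((τ - τ₀) / h) := by
    intro τ h1 h2
    rw [hY]
    simp only
    rw [min_eq_left h2, max_eq_right h1, min_eq_right h1]
    ring
  have hYlarge : ∀ τ, T ≤ τ → Y τ = δ := by
    intro τ h1
    rw [hY]
    simp only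
    rw [min_eq_right h1, max_eq_right hτ₀T, min_eq_right (hτ₀T.trans h1)]
    have h2 : (T - τ₀) / h = N := by
      rw [div_eq_iff hh0.ne']
      linarith
    rw [h2, hAN]
    ring
  set KY := 2 * ((N : ℝ) + 1) / h + 1 / 2 with hKY
  have hKY0 : 0 < KY := by positivity
  have hYlip : ∀ τ τ', |Y τ' - Y τ| ≤ KY * |τ' - τ| := by
    intro τ τ'
    have a1 : |max τ₀ (min τ' T) - max τ₀ (min τ T)| ≤ |τ' - τ| := by
      rw [max_comm τ₀, max_comm τ₀]
      refine (abs_max_sub_max_le_abs _ _ _).trans ?_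
      exact (abs_min_sub_min_le_max τ' T τ T).trans (by simp)
    have a2 : |min τ' τ₀ - min τ τ₀| ≤ |τ' - τ| :=
      (abs_min_sub_min_le_max τ' τ₀ τ τ₀).trans (by simp)
    have a3 := hAlip ((max τ₀ (min τ' T) - τ₀) / h) ((max τ₀ (min τ T) - τ₀) / h)
    have a4 : (max τ₀ (min τ' T) - τ₀) / h - (max τ₀ (min τ T) - τ₀) / h =
        (max τ₀ (min τ' T) - max τ₀ (min τ T)) / h := by ring
    rw [a4, abs_div, abs_of_pos hh0] at a3
    have a5 : Y τ' - Y τ = (A ((max τ₀ (min τ' T) - τ₀) / h) -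
        A ((max τ₀ (min τ T) - τ₀) / h)) + (min τ' τ₀ - min τ τ₀) / 2 := by
      rw [hY]
      simp only
      ring
    rw [a5]
    refine (abs_add_le _ _).trans ?_
    have a6 : |(min τ' τ₀ - min τ τ₀) / 2| ≤ |τ' - τ| / 2 := by
      rw [abs_div, abs_of_pos (by norm_num : (0 : ℝ) < 2)]
      linarith
    have a7 : 2 * ((N : ℝ) + 1) * (|max τ₀ (min τ' T) - max τ₀ (min τ T)| / h) ≤
        2 * ((N : ℝ) + 1) * (|τ' - τ| / h) :=
      mul_le_mul_of_nonneg_left (div_le_div_of_nonneg_right a1 hh0.le) (by positivity)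
    have a8 : KY * |τ' - τ| = 2 * ((N : ℝ) + 1) * (|τ' - τ| / h) + |τ' - τ| / 2 := by
      rw [hKY]
      ring
    linarith
  have hG0' : 0 < G := by linarith
  have hδG : 1 / G ≤ δ ∧ δ ≤ 1 - 1 / G := by
    rw [← hy4 N rfl]
    exact ⟨hylow N le_rfl, hyup N le_rfl⟩
  set R := 2 + G + 1 / τ₀ + KY * (1 + T) with hR
  have hT0 : 0 < T := by linarith
  have p1 : 0 < 1 / τ₀ := by positivity
  have p2 : 0 < KY * (1 + T) := by positivity
  have hR2 : 2 ≤ R := by linarith
  have hRG : G ≤ R := by linarith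
  have hRτ : 1 / τ₀ ≤ R := by linarith
  have hRK : KY * (1 + T) ≤ R := by linarith
  have hR0 : 0 < R := by linarith
  have hYb : ∀ τ, τ₀ ≤ τ → 1 / G ≤ Y τ ∧ Y τ ≤ 1 - 1 / G := by
    intro τ h1
    rcases le_total τ T with h2 | h2
    · rw [hYmid τ h1 h2]
      have s0 : 0 ≤ (τ - τ₀) / h := div_nonneg (by linarith) hh0.le
      have s1 : (τ - τ₀) / h ≤ N := by
        rw [div_le_iff₀ hh0]
        linarith
      exact ⟨hAlow _ s0 s1, hAup _ s0 s1⟩
    · rw [hYlarge τ h2]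
      exact hδG
  have hRinv : 1 / R ≤ 1 / G := div_le_div_of_nonneg_left zero_le_one hG0' hRG
  refine ⟨R, Y, by linarith, ⟨?_, ?_, ?_, ?_⟩, ?_⟩
  · intro τ hτ
    rcases le_total τ τ₀ with h1 | h1
    · rw [hYsm τ h1]
      have a1 : min τ 1 / R ≤ τ / R := div_le_div_of_nonneg_right (min_le_left _ _) hR0.le
      have a2 : τ / R ≤ τ / 2 := div_le_div_of_nonneg_left hτ.le (by norm_num) hR2
      linarith
    · have a1 : min τ 1 / R ≤ 1 / R := div_le_div_of_nonneg_right (min_le_right _ _) hR0.le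
      have := (hYb τ h1).1
      linarith
  · intro τ hτ
    rcases le_total τ τ₀ with h1 | h1
    · rw [hYsm τ h1]
      nlinarith
    · have a1 := (hYb τ h1).2
      have a2 : 0 < 1 / G := by positivity
      have a3 : 1 ≤ R * τ₀ := by
        rw [div_le_iff₀ hτ₀] at hRτ
        exact hRτ
      have a4 : R * τ₀ ≤ R * τ := mul_le_mul_of_nonneg_left h1 hR0.le
      linarith
  · intro τ hτ
    rcases le_total τ τ₀ with h1 | h1
    · rw [hYsm τ h1]
      have a1 : 1 / R ≤ 1 / 2 := div_le_div_of_nonneg_left zero_le_one (by norm_num) hR2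
      linarith
    · have := (hYb τ h1).2
      linarith
  · intro τ τ' hτ hττ'
    have hnn : 0 ≤ τ' - τ := by linarith
    rcases le_total T τ with h1 | h1
    · rw [hYlarge τ h1, hYlarge τ' (h1.trans hττ'), sub_self, abs_zero]
      positivity
    · have a1 := hYlip τ τ'
      rw [abs_of_nonneg hnn] at a1
      refine a1.trans ?_
      rw [le_div_iff₀ (by linarith)]
      have a2 : KY * (1 + τ) ≤ R := by
        refine le_trans ?_ hRK
        exact mul_le_mul_of_nonneg_left (by linarith) hKY0.le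
      calc KY * (τ' - τ) * (1 + τ) = (KY * (1 + τ)) * (τ' - τ) := by ring
        _ ≤ R * (τ' - τ) := mul_le_mul_of_nonneg_right a2 hnn
  · intro τ hτ
    have hge : Real.exp (ε / 2) ≤ Real.exp ε := Real.exp_le_exp.mpr (by linarith)
    have hgpos := d8_gg_pos hτ
    rcases le_total τ τ₀ with h1 | h1
    · rw [hYsm τ h1]
      exact (hsm τ hτ h1).trans (mul_le_mul_of_nonneg_right hge hgpos.le)
    · rcases le_total τ T with h2 | h2
      · rw [hYmid τ h1 h2]
        exact hmid τ h1 h2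
      · rw [hYlarge τ h2]
        refine (hT τ h2).trans ?_
        exact mul_le_mul hge (gg_ge hτ).2 (by positivity) (Real.exp_pos _).le

end Pool.Agent.Lib.MP_8501c9_pr.Deep
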