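import Pool.Agent.Lib.MP_8501c9_pr.Deep.NewPts
import Pool.Agent.Lib.MP_8501c9_pr.Wide.InvStep
import Pool.Agent.Lib.MP_8501c9_pr.Wide.Fill

/-!
# Side lengths are made equal with prescribed steps
-/

set_option autoImplicit false
open Set

namespace Pool.Agent.Lib.MP_8501c9_pr.Deep

open Pool.Agent.Lib.MP_8501c9_pr Pool.Agent.Lib.MP_8501c9_pr.Mid
open Pool.Agent.Lib.MP_8501c9_pr.Wide

variable {n d : ℕ}

theorem k8_phi_add (Q : BoxT n d) : phi Q + d = ∑ m, sd Q m := by
  unfold phi sd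
  rw [Finset.sum_add_distrib]
  simp

theorem dst_of_cst {z : Vtx n d} {x : Fin d → ℕ} {Z T : Finset (Vtx n d)}
    (h : Cst z x Z T) : Dst z x Z T := by
  obtain ⟨Q', Q, h⟩ := h
  refine ⟨Q', Q, h.inv, ?_, ?_, ?_⟩
  · intro m
    have h2 := h.sides m
    simpa using h2
  · intro m
    have := h.thin m
    omega
  · obtain ⟨i, j, hij, hi, hj⟩ := h.grow
    have hmono : ∀ m, sd Q' m ≤ sd Q m := l2_sd_mono h.inv.le h.inv.sub
    have h1 : ∑ m, (sd Q' m + if m = i ∨ m = j then 1 else 0) ≤ ∑ m, sd Q m := by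
      refine Finset.sum_le_sum fun m _ => ?_
      have := hmono m
      split_ifs with hm
      · rcases hm with rfl | rfl <;> omega
      · omega
    rw [Finset.sum_add_distrib, k_sum_pair hij] at h1
    have h2 := k8_phi_add Q'
    have h3 := k8_phi_add Q
    omega

theorem k8_mem_NewP {Q' Q : BoxT n d} {i j : Fin d} (hij : i ≠ j) {b : Vtx n d}
    (hb : b ∈ NewP Q' Q {i, j}) :
    (∀ m, out Q b m = if m = i ∨ m = j then 1 else 0) ∧ b ∉ cov Q' := by
  unfold NewP at hb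
  rw [Finset.mem_filter] at hb
  obtain ⟨-, h1, h2, h3⟩ := hb
  refine ⟨?_, h3⟩
  have hs : ∀ m, out Q b m ≠ 0 ↔ m = i ∨ m = j := by
    intro m
    have h4 : m ∈ supp Q b ↔ m ∈ ({i, j} : Finset (Fin d)) := by rw [h1]
    unfold supp at h4
    rw [Finset.mem_filter, Finset.mem_insert, Finset.mem_singleton] at h4
    simpa using h4
  have h5 : ∑ m, out Q b m = out Q b i + out Q b j := by
    rw [← Finset.sum_pair (f := fun m => out Q b m) hij]
    symm
    apply Finset.sum_subset (Finset.subset_univ _)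
    intro m _ hm
    by_contra h6
    exact hm (by
      rw [Finset.mem_insert, Finset.mem_singleton]
      exact (hs m).1 h6)
  have hi : out Q b i ≠ 0 := (hs i).2 (Or.inl rfl)
  have hj : out Q b j ≠ 0 := (hs j).2 (Or.inr rfl)
  intro m
  split_ifs with hm
  · rcases hm with rfl | rfl <;> omega
  · by_contra h6
    exact hm ((hs m).1 h6)

theorem dst_corner {p : ℝ} (hp0 : 0 ≤ p) (hp1 : p ≤ 1) {z : Vtx n d} {x : Fin d → ℕ} {y : ℕ}
    (h4 : ∀ m, 4 ≤ x m) (hy : ∀ m, x m ≤ y) (hroom : Room (y + 3) z) {i j : Fin d}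
    (hij : i ≠ j) {g : Finset (Vtx n d) → ℝ} {v : ℝ} (hv : 0 ≤ v)
    (h : ∀ Z T, Cst z (fun m => x m + if m = i ∨ m = j then 1 else 0) Z T → Ach p g Z T v) :
    ∀ Z T, Dst z x Z T → Ach p g Z T (fch p (∏ m, (x m : ℝ)) y * v) := by
  rintro Z T ⟨Q', Q, hinv, hsd, hthin, hgrow⟩
  have hQ : Q.1 ≤ Q.2 := (hinv.sub.1.trans hinv.le).trans hinv.sub.2
  have hvol : vol Q = ∏ m, (x m : ℝ) := by
    unfold vol
    exact Finset.prod_congr rfl fun m _ => by rw [hsd m]
  have hvp : 0 < vol Q := d_vol_pos Q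
  have hy1 : 1 ≤ y := by
    have := h4 i
    have := hy i
    omega
  have hyR : (1 : ℝ) ≤ y := by exact_mod_cast hy1
  have hroom' : ∀ i, 2 ≤ (Q.1 i : ℕ) ∧ (Q.2 i : ℕ) + 2 < n := by
    intro m
    have h1 := hroom m
    have h2 : (Q.1 m : ℕ) ≤ z m := hinv.mem.1 m
    have h3 : (z m : ℕ) ≤ Q.2 m := hinv.mem.2 m
    have h4 : sd Q m ≤ y := by
      rw [hsd m]
      exact hy m
    unfold sd at h4
    omega
  have h1 := card_NewP_two hinv.le hinv.sub hthin (fun m => by rw [hsd m]; exact h4 m) hij hroom'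
  have h2 := vol_sub_ge2 hinv.le hinv.sub hgrow (y := y) (fun m => by rw [hsd m]; exact hy m)
  have hxi : (1 : ℝ) ≤ sd Q i := by exact_mod_cast d_sd_pos Q i
  have hxj : (1 : ℝ) ≤ sd Q j := by exact_mod_cast d_sd_pos Q j
  have hxiy : (sd Q i : ℝ) ≤ y := by
    rw [hsd i]
    exact_mod_cast hy i
  have hxjy : (sd Q j : ℝ) ≤ y := by
    rw [hsd j]
    exact_mod_cast hy j
  have hpos : (0 : ℝ) < (sd Q i : ℝ) * sd Q j := by positivity
  have hle : (sd Q i : ℝ) * sd Q j ≤ (y : ℝ) ^ 2 := by nlinarith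
  have h3 : vol Q / y ≤ vol Q - vol Q' := by
    refine le_trans ?_ h2
    rw [div_le_div_iff₀ (by positivity) (by positivity)]
    nlinarith [mul_nonneg hvp.le (mul_nonneg (by linarith : (0 : ℝ) ≤ y)
      (by linarith : (0 : ℝ) ≤ y - 1))]
  have h5 : 0 ≤ vol Q / y := by positivity
  have hcard : 4 * (∏ m, (x m : ℝ)) / (y : ℝ) ^ 3 ≤ ((NewP Q' Q {i, j}).card : ℝ) := by
    rw [← hvol]
    refine le_trans ?_ h1
    calc 4 * vol Q / (y : ℝ) ^ 3 = 4 * (vol Q / y) / (y : ℝ) ^ 2 := by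
          field_simp
      _ ≤ 4 * (vol Q - vol Q') / (y : ℝ) ^ 2 := by
          apply div_le_div_of_nonneg_right _ (by positivity)
          linarith
      _ ≤ 4 * (vol Q - vol Q') / ((sd Q i : ℝ) * sd Q j) := by
          apply div_le_div_of_nonneg_left _ hpos hle
          linarith
  have hdisj : Disjoint (NewP Q' Q {i, j}) Z := by
    rw [Finset.disjoint_left]
    intro b hb hbZ
    exact (k8_mem_NewP hij hb).2 (hinv.cov hbZ)
  have hfch : fch p (∏ m, (x m : ℝ)) y ≤ 1 - (1 - p) ^ (NewP Q' Q {i, j}).card := by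
    unfold fch
    have h2 : (1 - p) ^ (NewP Q' Q {i, j}).card ≤
        Real.exp (-(p * (NewP Q' Q {i, j}).card)) := by
      have h3 : 1 - p ≤ Real.exp (-p) := by
        have := Real.add_one_le_exp (-p)
        linarith
      calc (1 - p) ^ (NewP Q' Q {i, j}).card ≤ (Real.exp (-p)) ^ (NewP Q' Q {i, j}).card :=
            pow_le_pow_left₀ (by linarith) h3 _
        _ = Real.exp (-(p * (NewP Q' Q {i, j}).card)) := by
            rw [← Real.exp_nat_mul]
            congr 1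
            ring
    have h4 : Real.exp (-(p * (NewP Q' Q {i, j}).card)) ≤
        Real.exp (-(4 * p * (∏ m, (x m : ℝ)) / (y : ℝ) ^ 3)) := by
      apply Real.exp_le_exp.2
      have := mul_le_mul_of_nonneg_left hcard hp0
      have e : p * (4 * (∏ m, (x m : ℝ)) / (y : ℝ) ^ 3) =
          4 * p * (∏ m, (x m : ℝ)) / (y : ℝ) ^ 3 := by ring
      linarith
    linarith
  refine Ach.mono (Ach.askFirst hp0 hp1 hdisj hv ?_) (mul_le_mul_of_nonneg_right hfch hv)
  intro b hb Y hY hbY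
  obtain ⟨ho, -⟩ := k8_mem_NewP hij hb
  have hsub : NewP Q' Q {i, j} ⊆ cov Q \ cov Q' := by
    intro c hc
    obtain ⟨hc1, hc2⟩ := k8_mem_NewP hij hc
    refine Finset.mem_sdiff.2 ⟨?_, hc2⟩
    unfold cov
    rw [Finset.mem_filter]
    exact ⟨Finset.mem_univ _, (l3_sum_out hij hc1).le⟩
  have hq : Que Q (∅ ∪ {b}) := by
    rw [Finset.empty_union]
    constructor
    · intro c hc
      rw [Finset.mem_singleton] at hc
      rw [hc]
      exact l3_sum_out hij ho
    · simp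
  have h6 := (inv_step hinv (hY.trans hsub) (Finset.singleton_subset_iff.2 hbY) hq
    (a := b) (by simp)).1
  have e1 : ((∅ : Finset (Vtx n d)) ∪ {b}).erase b = ∅ := by simp
  have e2 : T ∪ {b} = insert b T := by
    rw [Finset.union_comm]
    rfl
  rw [e1, e2] at h6
  apply h
  refine ⟨Q, ext Q b, h6, by simp, by simp, ?_, ?_, ?_⟩
  · intro m
    simp only [Finset.notMem_empty, false_and, exists_false, if_false, add_zero]
    rw [d_sd_ext hQ, ho m, hsd m]
  · intro m
    rw [d_sd_ext hQ, ho m]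
    split_ifs <;> omega
  · refine ⟨i, j, hij, ?_, ?_⟩
    · rw [d_sd_ext hQ, ho i]
      simp
    · rw [d_sd_ext hQ, ho j]
      simp

theorem k8_fch_anti {p v : ℝ} (hp0 : 0 ≤ p) (hv : 0 ≤ v) {y y' : ℕ} (h0 : 1 ≤ y) (h : y ≤ y') :
    fch p v y' ≤ fch p v y := by
  unfold fch
  have h0' : (0 : ℝ) < y := by exact_mod_cast h0
  have h1 : (y : ℝ) ≤ y' := by exact_mod_cast h
  have h2 : 4 * p * v / (y' : ℝ) ^ 3 ≤ 4 * p * v / (y : ℝ) ^ 3 := by
    apply div_le_div_of_nonneg_left (by positivity) (by positivity)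
    exact pow_le_pow_left₀ h0'.le h1 3
  have h3 := Real.exp_le_exp.2 (neg_le_neg h2)
  linarith

/-- all sides are brought to the same length, with prescribed steps -/
theorem reach_equalize {p : ℝ} (hp0 : 0 ≤ p) (hp1 : p ≤ 1) {z : Vtx n d} {x : Fin d → ℕ}
    {l X' y J : ℕ} (hl : 4 ≤ l) (hx : ∀ m, l ≤ x m) (hX : ∀ m, x m + 1 ≤ X')
    (hJ : X' ≤ l + J) (hd : J + 4 ≤ d) (hy : X' ≤ y) (hev : Even (∑ m, (X' - x m)))
    (hroom : Room (y + 3) z) {g : Finset (Vtx n d) → ℝ} {v : ℝ} (hv : 0 ≤ v)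
    (h : ∀ Z T, Cst z (fun _ => X') Z T → Ach p g Z T v) :
    ∀ Z T, Dst z x Z T → Ach p g Z T
      ((∏ i ∈ Finset.range ((∑ m, (X' - x m)) / 2),
        fch p (Real.exp (sfun d (∑ m, (x m - 1) + 2 * i) - d * ((J : ℝ) / l) ^ 2)) y) * v) := by
  obtain ⟨k, hk⟩ := hev
  -- two directions
  have hd2 : 1 < d := by omega
  set i : Fin d := ⟨0, by omega⟩ with hi
  set j : Fin d := ⟨1, hd2⟩ with hj
  have hij : i ≠ j := by
    rw [hi, hj]
    intro h
    simp at h
  -- deficits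
  have hbig : ∀ m, (X' - x m) + 2 ≤ k := by
    intro m
    have h1 : (X' - x m) + ∑ m' ∈ Finset.univ.erase m, (X' - x m') = ∑ m, (X' - x m) :=
      Finset.add_sum_erase _ (fun m => X' - x m) (Finset.mem_univ m)
    have h2 : ∑ _m' ∈ (Finset.univ : Finset (Fin d)).erase m, 1 ≤
        ∑ m' ∈ Finset.univ.erase m, (X' - x m') := by
      refine Finset.sum_le_sum fun m' _ => ?_
      have := hX m'
      omega
    rw [Finset.sum_const, Finset.card_erase_of_mem (Finset.mem_univ m), Finset.card_univ,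
      Fintype.card_fin, smul_eq_mul, mul_one] at h2
    have h3 := hx m
    omega
  obtain ⟨k', rfl⟩ : ∃ k', k = k' + 1 := ⟨k - 1, by have := hbig i; omega⟩
  set x' : Fin d → ℕ := fun m => x m + if m = i ∨ m = j then 1 else 0 with hx'
  have hxX : ∀ m, x' m ≤ X' := by
    intro m
    have := hX m
    simp only [hx']
    split_ifs <;> omega
  have hlx : ∀ m, l ≤ x' m := fun m => (hx m).trans (Nat.le_add_right _ _)
  have hsum' : ∑ m, (X' - x' m) = 2 * k' := by
    have e1 : ∑ m, ((X' - x' m) + if m = i ∨ m = j then 1 else 0) = ∑ m, (X' - x m) := by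
      refine Finset.sum_congr rfl fun m _ => ?_
      have := hX m
      simp only [hx']
      split_ifs <;> omega
    rw [Finset.sum_add_distrib, k_sum_pair hij] at e1
    omega
  have hmax' : ∀ m, X' - x' m ≤ k' := by
    intro m
    have h1 := hbig m
    simp only [hx']
    omega
  have hX'1 : 1 ≤ X' := by
    have := hX i
    omega
  have ht : ∑ m, (x' m - 1) = ∑ m, (x m - 1) + 2 := by
    have e1 : ∀ m, x' m - 1 = (x m - 1) + if m = i ∨ m = j then 1 else 0 := by
      intro m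
      have := hx m
      simp only [hx']
      omega
    rw [Finset.sum_congr rfl fun m _ => e1 m, Finset.sum_add_distrib, k_sum_pair hij]
  have hroom1 : Room (X' + 1) z := fun m => by
    have := hroom m
    omega
  have hfill := Fill_aux hp0 hp1 (z := z) (x₁ := fun _ => X') (l := l) (y := X') (J := J)
    (by omega) (fun _ => le_rfl) hJ hroom1 k' x' hxX hlx hsum' hmax'
  set θ : ℝ := ∏ i ∈ Finset.range k',
    fch p (Real.exp (sfun d (∑ m, (x' m - 1) + 2 * i) - d * ((J : ℝ) / l) ^ 2)) X' with hθ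
  have hθ0 : 0 ≤ θ := Finset.prod_nonneg fun i _ => l9_fch_nonneg hp0 (Real.exp_pos _).le X'
  have hnext : ∀ Z T, Cst z x' Z T → Ach p g Z T (θ * v) := by
    intro Z T hc
    exact hfill g v hv (fun x'' Z T h1 hc => h Z T (h1 ▸ hc)) x' Z T rfl hc
  intro Z T hD
  have hcor := dst_corner hp0 hp1 (fun m => hl.trans (hx m)) (y := y)
    (fun m => by have := hX m; omega) hroom hij (g := g) (v := θ * v) (mul_nonneg hθ0 hv) hnext Z T
    hD
  refine Ach.mono hcor ?_
  have hk2 : (∑ m, (X' - x m)) / 2 = k' + 1 := by omega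
  rw [hk2, Finset.prod_range_succ', mul_comm _ (fch _ _ _), mul_assoc]
  have hvol := Fill_vol (l := l) (J := J) (by omega) x hx
    (fun m => by have := hX m; omega)
  have hn1 : ∀ i, 0 ≤ fch p (Real.exp (sfun d (∑ m, (x m - 1) + 2 * (i + 1)) -
      d * ((J : ℝ) / l) ^ 2)) y := fun i => l9_fch_nonneg hp0 (Real.exp_pos _).le y
  refine mul_le_mul ?_ ?_ ?_ ?_
  · refine l9_fch_mono hp0 ?_ y
    simpa using hvol
  · refine mul_le_mul_of_nonneg_right ?_ hv
    rw [hθ]
    refine Finset.prod_le_prod (fun i _ => hn1 i) fun i _ => ?_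
    have e : ∑ m, (x' m - 1) + 2 * i = ∑ m, (x m - 1) + 2 * (i + 1) := by
      rw [ht]
      ring
    rw [e]
    exact k8_fch_anti hp0 (Real.exp_pos _).le hX'1 hy
  · exact mul_nonneg (Finset.prod_nonneg fun i _ => hn1 i) hv
  · exact l9_fch_nonneg hp0 (Finset.prod_nonneg fun _ _ => Nat.cast_nonneg _) y

end Pool.Agent.Lib.MP_8501c9_pr.Deep
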