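import Pool.Agent.Lib.MP_8501c9_pr.Deep.Defs2
import Pool.Agent.Lib.MP_8501c9_pr.Deep.ChooseY

/-!
# The growth rate of the generating polynomials (K6)
-/

set_option autoImplicit false
open Set Filter Topology

namespace Pool.Agent.Lib.MP_8501c9_pr.Deep

open Pool.Agent.Lib.MP_8501c9_pr Pool.Agent.Lib.MP_8501c9_pr.Mid
open Pool.Agent.Lib.MP_8501c9_pr.Wide

/-- truncated exponential series -/
noncomputable def k6_P (K : ℕ) (a : ℝ) : ℝ :=
  ∑ i ∈ Finset.range (K + 1), 1 / (i.factorial : ℝ) * a ^ i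

theorem k6_eval_Pk (K : ℕ) (a : Polynomial ℝ) (z : ℝ) :
    (Pk K a).eval z = k6_P K (a.eval z) := by
  unfold Pk k6_P
  rw [Polynomial.eval_finsetSum]
  refine Finset.sum_congr rfl fun i _ => ?_
  simp

theorem k6_P_mono (K : ℕ) {a b : ℝ} (ha : 0 ≤ a) (hab : a ≤ b) : k6_P K a ≤ k6_P K b := by
  unfold k6_P
  refine Finset.sum_le_sum fun i _ => ?_
  exact mul_le_mul_of_nonneg_left (pow_le_pow_left₀ ha hab i) (by positivity)

theorem k6_P_one (K : ℕ) {a : ℝ} (ha : 0 ≤ a) : 1 ≤ k6_P K a := by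
  unfold k6_P
  have h := Finset.single_le_sum (f := fun i : ℕ => 1 / (i.factorial : ℝ) * a ^ i)
    (s := Finset.range (K + 1)) (fun i _ => by positivity)
    (Finset.mem_range.mpr (Nat.succ_pos K) : 0 ∈ Finset.range (K + 1))
  simpa using h

theorem k6_P_self {K : ℕ} (hK : 1 ≤ K) {a : ℝ} (ha : 0 ≤ a) : a ≤ k6_P K a := by
  unfold k6_P
  have h := Finset.single_le_sum (f := fun i : ℕ => 1 / (i.factorial : ℝ) * a ^ i)
    (s := Finset.range (K + 1)) (fun i _ => by positivity)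
    (Finset.mem_range.mpr (by omega) : 1 ∈ Finset.range (K + 1))
  simpa using h

theorem k6_P_continuous (K : ℕ) : Continuous (k6_P K) := by
  unfold k6_P
  exact continuous_finsetSum _ fun i _ => continuous_const.mul (continuous_id.pow i)

/-- the truncated series is close to the exponential function on bounded sets -/
theorem k6_P_exp (A₀ η : ℝ) (hη : 0 < η) : ∃ K : ℕ, 1 ≤ K ∧
    ∀ a, 0 ≤ a → a ≤ A₀ → Real.exp a * (1 - η) ≤ k6_P K a := by
  have hs : ∀ a : ℝ, HasSum (fun i : ℕ => 1 / (i.factorial : ℝ) * a ^ i) (Real.exp a) := by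
    intro a
    have h := NormedSpace.expSeries_div_hasSum_exp (𝔸 := ℝ) a
    rw [← Real.exp_eq_exp_ℝ] at h
    have e : (fun i : ℕ => 1 / (i.factorial : ℝ) * a ^ i) =
        fun i : ℕ => a ^ i / (i.factorial : ℝ) := by
      funext i
      ring
    rw [e]
    exact h
  have hlim : Tendsto (fun K : ℕ => k6_P K A₀) atTop (𝓝 (Real.exp A₀)) :=
    (tendsto_add_atTop_iff_nat (f := fun n => ∑ i ∈ Finset.range n,
      1 / (i.factorial : ℝ) * A₀ ^ i) 1).mpr (hs A₀).tendsto_sum_nat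
  have hev : ∀ᶠ K : ℕ in atTop, Real.exp A₀ - η < k6_P K A₀ :=
    hlim.eventually (lt_mem_nhds (by linarith))
  obtain ⟨K, hK1, hK⟩ := ((eventually_ge_atTop 1).and hev).exists
  refine ⟨K, hK1, fun a ha0 ha => ?_⟩
  have h1 : ∀ x : ℝ, Real.exp x - k6_P K x =
      ∑' i : ℕ, 1 / ((i + (K + 1)).factorial : ℝ) * x ^ (i + (K + 1)) := by
    intro x
    have h := (hs x).summable.sum_add_tsum_nat_add (K + 1)
    rw [(hs x).tsum_eq] at h
    unfold k6_P
    linarith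
  have h2 : Real.exp a - k6_P K a ≤ Real.exp A₀ - k6_P K A₀ := by
    rw [h1, h1]
    refine Summable.tsum_le_tsum (fun i => ?_) ?_ ?_
    · exact mul_le_mul_of_nonneg_left (pow_le_pow_left₀ ha0 ha _) (by positivity)
    · exact (summable_nat_add_iff (f := fun i : ℕ => 1 / (i.factorial : ℝ) * a ^ i)
        (K + 1)).mpr (hs a).summable
    · exact (summable_nat_add_iff (f := fun i : ℕ => 1 / (i.factorial : ℝ) * A₀ ^ i)
        (K + 1)).mpr (hs A₀).summable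
  have h3 : 1 ≤ Real.exp a := Real.one_le_exp ha0
  nlinarith

/-- nonnegative coefficients -/
def k6_NN (p : Polynomial ℝ) : Prop := ∀ n, 0 ≤ p.coeff n

theorem k6_NN_add {p q : Polynomial ℝ} (hp : k6_NN p) (hq : k6_NN q) : k6_NN (p + q) := by
  intro n
  rw [Polynomial.coeff_add]
  exact add_nonneg (hp n) (hq n)

theorem k6_NN_mul {p q : Polynomial ℝ} (hp : k6_NN p) (hq : k6_NN q) : k6_NN (p * q) := by
  intro n
  rw [Polynomial.coeff_mul]
  exact Finset.sum_nonneg fun x _ => mul_nonneg (hp _) (hq _)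

theorem k6_NN_C {c : ℝ} (hc : 0 ≤ c) : k6_NN (Polynomial.C c) := by
  intro n
  rw [Polynomial.coeff_C]
  split_ifs
  · exact hc
  · exact le_refl _

theorem k6_NN_one : k6_NN 1 := by
  have h := k6_NN_C (c := 1) (by norm_num)
  simpa using h

theorem k6_NN_X : k6_NN Polynomial.X := by
  intro n
  rw [Polynomial.coeff_X]
  split_ifs
  · norm_num
  · exact le_refl _

theorem k6_NN_zero : k6_NN 0 := by
  intro n
  simp

theorem k6_NN_pow {p : Polynomial ℝ} (hp : k6_NN p) (i : ℕ) : k6_NN (p ^ i) := by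
  induction i with
  | zero => rw [pow_zero]; exact k6_NN_one
  | succ i ih => rw [pow_succ]; exact k6_NN_mul ih hp

theorem k6_NN_Pk {a : Polynomial ℝ} (ha : k6_NN a) (K : ℕ) : k6_NN (Pk K a) := by
  unfold Pk
  intro n
  rw [Polynomial.finsetSum_coeff]
  exact Finset.sum_nonneg fun i _ =>
    k6_NN_mul (k6_NN_C (by positivity)) (k6_NN_pow ha i) n

theorem k6_eval_nonneg {p : Polynomial ℝ} (hp : k6_NN p) {z : ℝ} (hz : 0 ≤ z) :
    0 ≤ p.eval z := by
  rw [Polynomial.eval_eq_sum_range]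
  exact Finset.sum_nonneg fun i _ => mul_nonneg (hp i) (pow_nonneg hz i)

theorem k6_coeff_le {p : Polynomial ℝ} (hp : k6_NN p) {z : ℝ} (hz : 0 ≤ z) (r : ℕ) :
    p.coeff r * z ^ r ≤ p.eval z := by
  rw [Polynomial.eval_eq_sum_range' (n := max (p.natDegree + 1) (r + 1)) (by omega)]
  exact Finset.single_le_sum (f := fun i => p.coeff i * z ^ i)
    (fun i _ => mul_nonneg (hp i) (pow_nonneg hz i)) (Finset.mem_range.mpr (by omega))

theorem k6_NN_tp {α₂ α₁ β₂ β₁ : ℝ} (hα₂ : 0 ≤ α₂) (hα₁ : 0 ≤ α₁) (hβ₂ : 0 ≤ β₂)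
    (hβ₁ : 0 ≤ β₁) (K k : ℕ) :
    k6_NN (tp α₂ α₁ β₂ β₁ K k).1 ∧ k6_NN (tp α₂ α₁ β₂ β₁ K k).2 := by
  induction k with
  | zero => exact ⟨k6_NN_zero, k6_NN_zero⟩
  | succ k ih =>
    obtain ⟨h1, h2⟩ := ih
    have hA : k6_NN (Polynomial.C (α₂ / 2) * (tp α₂ α₁ β₂ β₁ K k).1 +
        Polynomial.C α₁ * (tp α₂ α₁ β₂ β₁ K k).2) :=
      k6_NN_add (k6_NN_mul (k6_NN_C (by positivity)) h1) (k6_NN_mul (k6_NN_C hα₁) h2)
    have hB : k6_NN (1 + Polynomial.C β₂ * (tp α₂ α₁ β₂ β₁ K k).1 +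
        Polynomial.C β₁ * (tp α₂ α₁ β₂ β₁ K k).2) :=
      k6_NN_add (k6_NN_add k6_NN_one (k6_NN_mul (k6_NN_C hβ₂) h1))
        (k6_NN_mul (k6_NN_C hβ₁) h2)
    have hX := k6_NN_mul k6_NN_X (k6_NN_Pk hA K)
    have g1 := k6_NN_mul hX (k6_NN_pow hB 2)
    have g2 := k6_NN_mul hX hB
    rw [tp]
    exact ⟨g1, g2⟩

theorem k6_NN_mp {α₂ α₁ β₂ β₁ : ℝ} (hα₂ : 0 ≤ α₂) (hα₁ : 0 ≤ α₁) (hβ₂ : 0 ≤ β₂)
    (hβ₁ : 0 ≤ β₁) (K k : ℕ) : k6_NN (mp α₂ α₁ β₂ β₁ K k) := by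
  obtain ⟨h1, h2⟩ := k6_NN_tp hα₂ hα₁ hβ₂ hβ₁ K k
  exact k6_NN_Pk (k6_NN_add (k6_NN_mul (k6_NN_C (by positivity)) h1)
    (k6_NN_mul (k6_NN_C hα₁) h2)) K

/-- the linear form `A` -/
noncomputable def k6_A (τ : ℝ) (u : ℝ × ℝ) : ℝ := 2 / τ * u.1 + 2 * u.2

/-- the linear form `B` -/
noncomputable def k6_B (τ : ℝ) (u : ℝ × ℝ) : ℝ := u.1 + τ / 2 * u.2

/-- the iteration -/
noncomputable def k6_F (τ z : ℝ) (K : ℕ) (u : ℝ × ℝ) : ℝ × ℝ :=
  (z * k6_P K (k6_A τ u) * (1 + k6_B τ u) ^ 2, z * k6_P K (k6_A τ u) * (1 + k6_B τ u))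

/-- the values of the polynomials -/
noncomputable def k6_u (τ z : ℝ) (K k : ℕ) : ℝ × ℝ :=
  (((tp (4 / τ) 2 1 (τ / 2) K k).1).eval z, ((tp (4 / τ) 2 1 (τ / 2) K k).2).eval z)

theorem k6_u_zero (τ z : ℝ) (K : ℕ) : k6_u τ z K 0 = (0, 0) := by
  simp [k6_u, tp]

theorem k6_u_succ (τ z : ℝ) (K k : ℕ) :
    k6_u τ z K (k + 1) = k6_F τ z K (k6_u τ z K k) := by
  have e : (4 / τ / 2 : ℝ) = 2 / τ := by ring
  simp only [k6_u, k6_F, k6_A, k6_B, tp]
  refine Prod.ext ?_ ?_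
  · simp only [Polynomial.eval_mul, Polynomial.eval_X, k6_eval_Pk, Polynomial.eval_add,
      Polynomial.eval_C, Polynomial.eval_pow, Polynomial.eval_one, e]
    ring_nf
  · simp only [Polynomial.eval_mul, Polynomial.eval_X, k6_eval_Pk, Polynomial.eval_add,
      Polynomial.eval_C, Polynomial.eval_one, e]
    ring_nf

theorem k6_mp_eval (τ z : ℝ) (K k : ℕ) :
    (mp (4 / τ) 2 1 (τ / 2) K k).eval z = k6_P K (k6_A τ (k6_u τ z K k)) := by
  have e : (4 / τ / 2 : ℝ) = 2 / τ := by ring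
  simp only [mp, k6_eval_Pk, k6_u, k6_A, Polynomial.eval_add, Polynomial.eval_mul,
    Polynomial.eval_C, e]

theorem k6_A_mono {τ : ℝ} (hτ : 0 < τ) {u v : ℝ × ℝ} (h : u ≤ v) : k6_A τ u ≤ k6_A τ v := by
  unfold k6_A
  have h1 := h.1
  have h2 := h.2
  have : 2 / τ * u.1 ≤ 2 / τ * v.1 := mul_le_mul_of_nonneg_left h1 (by positivity)
  linarith

theorem k6_B_mono {τ : ℝ} (hτ : 0 < τ) {u v : ℝ × ℝ} (h : u ≤ v) : k6_B τ u ≤ k6_B τ v := by
  unfold k6_B
  have h1 := h.1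
  have h2 := h.2
  have : τ / 2 * u.2 ≤ τ / 2 * v.2 := mul_le_mul_of_nonneg_left h2 (by positivity)
  linarith

theorem k6_A_nonneg {τ : ℝ} (hτ : 0 < τ) {u : ℝ × ℝ} (h : 0 ≤ u) : 0 ≤ k6_A τ u := by
  have h1 := h.1
  have h2 := h.2
  simp only [Prod.fst_zero, Prod.snd_zero] at h1 h2
  unfold k6_A
  positivity

theorem k6_B_nonneg {τ : ℝ} (hτ : 0 < τ) {u : ℝ × ℝ} (h : 0 ≤ u) : 0 ≤ k6_B τ u := by
  have h1 := h.1
  have h2 := h.2
  simp only [Prod.fst_zero, Prod.snd_zero] at h1 h2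
  unfold k6_B
  positivity

theorem k6_F_mono {τ z : ℝ} (hτ : 0 < τ) (hz : 0 ≤ z) (K : ℕ) {u v : ℝ × ℝ} (hu : 0 ≤ u)
    (h : u ≤ v) : k6_F τ z K u ≤ k6_F τ z K v := by
  have hA := k6_A_mono hτ h
  have hB := k6_B_mono hτ h
  have hA0 := k6_A_nonneg hτ hu
  have hB0 := k6_B_nonneg hτ hu
  have hP := k6_P_mono K hA0 hA
  have hP1 := k6_P_one K hA0
  have hzP : z * k6_P K (k6_A τ u) ≤ z * k6_P K (k6_A τ v) := mul_le_mul_of_nonneg_left hP hz
  have hzP0 : 0 ≤ z * k6_P K (k6_A τ v) := mul_nonneg hz (by linarith)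
  constructor
  · show z * k6_P K (k6_A τ u) * (1 + k6_B τ u) ^ 2 ≤ z * k6_P K (k6_A τ v) * (1 + k6_B τ v) ^ 2
    exact mul_le_mul hzP (pow_le_pow_left₀ (by linarith) (by linarith) 2) (by positivity) hzP0
  · show z * k6_P K (k6_A τ u) * (1 + k6_B τ u) ≤ z * k6_P K (k6_A τ v) * (1 + k6_B τ v)
    exact mul_le_mul hzP (by linarith) (by positivity) hzP0

theorem k6_u_nonneg {τ z : ℝ} (hτ : 0 < τ) (hz : 0 ≤ z) (K k : ℕ) : 0 ≤ k6_u τ z K k := by
  obtain ⟨h1, h2⟩ := k6_NN_tp (α₂ := 4 / τ) (α₁ := 2) (β₂ := 1) (β₁ := τ / 2) (by positivity)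
    (by norm_num) (by norm_num) (by positivity) K k
  have g1 := k6_eval_nonneg h1 hz
  have g2 := k6_eval_nonneg h2 hz
  unfold k6_u
  exact Prod.mk_le_mk.mpr ⟨g1, g2⟩

theorem k6_u_mono {τ z : ℝ} (hτ : 0 < τ) (hz : 0 ≤ z) (K : ℕ) : Monotone (k6_u τ z K) := by
  refine monotone_nat_of_le_succ fun k => ?_
  induction k with
  | zero =>
    rw [k6_u_zero]
    exact k6_u_nonneg hτ hz K 1
  | succ k ih =>
    rw [k6_u_succ τ z K k, k6_u_succ τ z K (k + 1)]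
    exact k6_F_mono hτ hz K (k6_u_nonneg hτ hz K k) ih

/-- for small `z` the iteration is bounded by one -/
theorem k6_small {τ : ℝ} (hτ : 0 < τ) (K : ℕ) : ∃ z₀ : ℝ, 0 < z₀ ∧
    ∀ k, k6_u τ z₀ K k ≤ (1, 1) := by
  have h1 : (0 : ℝ × ℝ) ≤ (1, 1) := ⟨by simp, by simp⟩
  have hA0 := k6_A_nonneg hτ h1
  have hB0 := k6_B_nonneg hτ h1
  have hP1 := k6_P_one K hA0
  set P := k6_P K (k6_A τ (1, 1)) with hP
  set B := k6_B τ (1, 1) with hB
  have hPB : 0 < P * (1 + B) ^ 2 := by positivity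
  refine ⟨1 / (P * (1 + B) ^ 2), by positivity, fun k => ?_⟩
  induction k with
  | zero =>
    rw [k6_u_zero]
    exact h1
  | succ k ih =>
    rw [k6_u_succ]
    have hz : 0 ≤ 1 / (P * (1 + B) ^ 2) := by positivity
    refine le_trans (k6_F_mono hτ hz K (k6_u_nonneg hτ hz K k) ih) ?_
    constructor
    · show 1 / (P * (1 + B) ^ 2) * P * (1 + B) ^ 2 ≤ 1
      have : 1 / (P * (1 + B) ^ 2) * P * (1 + B) ^ 2 = 1 := by field_simp
      exact this.le
    · show 1 / (P * (1 + B) ^ 2) * P * (1 + B) ≤ 1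
      have : 1 / (P * (1 + B) ^ 2) * P * (1 + B) = 1 / (1 + B) := by field_simp
      rw [this, div_le_one (by positivity)]
      linarith

/-- if the coefficients decay, the values are bounded -/
theorem k6_bounded {τ z q : ℝ} (hτ : 0 < τ) (hz : 0 < z) (hq0 : 0 ≤ q) (hq1 : q < 1) (K N : ℕ)
    (h : ∀ r k, N ≤ r → (mp (4 / τ) 2 1 (τ / 2) K k).coeff r * z ^ r ≤ q ^ r) :
    ∃ C : ℝ, ∀ k, (mp (4 / τ) 2 1 (τ / 2) K k).eval z ≤ C := by
  obtain ⟨z₀, hz₀, hu⟩ := k6_small hτ K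
  set C₁ := k6_P K (k6_A τ (1, 1)) with hC₁
  refine ⟨(∑ i ∈ Finset.range N, C₁ * (z / z₀) ^ i) + 1 / (1 - q), fun k => ?_⟩
  have hNN : k6_NN (mp (4 / τ) 2 1 (τ / 2) K k) :=
    k6_NN_mp (by positivity) (by norm_num) (by norm_num) (by positivity) K k
  set p := mp (4 / τ) 2 1 (τ / 2) K k with hp
  have hC : ∀ r, p.coeff r * z₀ ^ r ≤ C₁ := by
    intro r
    refine le_trans (k6_coeff_le hNN hz₀.le r) ?_
    rw [hp, k6_mp_eval]
    exact k6_P_mono K (k6_A_nonneg hτ (k6_u_nonneg hτ hz₀.le K k)) (k6_A_mono hτ (hu k))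
  rw [Polynomial.eval_eq_sum_range' (n := N + (p.natDegree + 1)) (by omega),
    Finset.sum_range_add]
  refine add_le_add ?_ ?_
  · refine Finset.sum_le_sum fun i _ => ?_
    have h1 : p.coeff i * z ^ i = p.coeff i * z₀ ^ i * (z / z₀) ^ i := by
      rw [div_pow, mul_assoc, mul_div_cancel₀ _ (pow_ne_zero i hz₀.ne')]
    rw [h1]
    exact mul_le_mul_of_nonneg_right (hC i) (by positivity)
  · refine le_trans (Finset.sum_le_sum (g := fun i => q ^ i) fun i _ => ?_) ?_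
    · refine le_trans (h (N + i) k (by omega)) ?_
      exact pow_le_pow_of_le_one hq0 hq1.le (by omega)
    · rw [one_div, ← tsum_geometric_of_lt_one hq0 hq1]
      exact (summable_geometric_of_lt_one hq0 hq1).sum_le_tsum _ fun i _ => pow_nonneg hq0 i

/-- a fixed point of the iteration -/
theorem k6_fixed {τ z C : ℝ} (hτ : 0 < τ) (hz : 0 < z) {K : ℕ} (hK : 1 ≤ K)
    (h : ∀ k, (mp (4 / τ) 2 1 (τ / 2) K k).eval z ≤ C) :
    ∃ u : ℝ × ℝ, 0 ≤ u ∧ k6_F τ z K u = u := by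
  have hA : ∀ k, k6_A τ (k6_u τ z K k) ≤ C := by
    intro k
    have h1 := h k
    rw [k6_mp_eval] at h1
    exact le_trans (k6_P_self hK (k6_A_nonneg hτ (k6_u_nonneg hτ hz.le K k))) h1
  have hb : ∀ k, (k6_u τ z K k).1 ≤ τ / 2 * C ∧ (k6_u τ z K k).2 ≤ C / 2 := by
    intro k
    have h1 := hA k
    have h0 := k6_u_nonneg hτ hz.le K k
    have h01 := h0.1
    have h02 := h0.2
    simp only [Prod.fst_zero, Prod.snd_zero] at h01 h02
    unfold k6_A at h1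
    have h3 : 0 ≤ 2 / τ * (k6_u τ z K k).1 := by positivity
    constructor
    · have h2 : 2 / τ * (k6_u τ z K k).1 ≤ C := by linarith
      have h4 : (k6_u τ z K k).1 = τ / 2 * (2 / τ * (k6_u τ z K k).1) := by field_simp
      rw [h4]
      exact mul_le_mul_of_nonneg_left h2 (by positivity)
    · linarith
  have hm := k6_u_mono hτ hz.le K
  have hm1 : Monotone fun k => (k6_u τ z K k).1 := fun a b hab => (hm hab).1
  have hm2 : Monotone fun k => (k6_u τ z K k).2 := fun a b hab => (hm hab).2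
  have hl1 := tendsto_atTop_ciSup hm1 ⟨τ / 2 * C, by rintro _ ⟨k, rfl⟩; exact (hb k).1⟩
  have hl2 := tendsto_atTop_ciSup hm2 ⟨C / 2, by rintro _ ⟨k, rfl⟩; exact (hb k).2⟩
  set U1 := ⨆ k, (k6_u τ z K k).1
  set U2 := ⨆ k, (k6_u τ z K k).2
  have hl : Tendsto (k6_u τ z K) atTop (𝓝 (U1, U2)) := by
    have := hl1.prodMk_nhds hl2
    exact this
  have hc : Continuous (k6_F τ z K) := by
    have cA : Continuous (k6_A τ) := by
      unfold k6_A
      fun_prop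
    have cB : Continuous (k6_B τ) := by
      unfold k6_B
      fun_prop
    have cP := (k6_P_continuous K).comp cA
    unfold k6_F
    exact (((continuous_const.mul cP).mul ((continuous_const.add cB).pow 2))).prodMk
      ((continuous_const.mul cP).mul (continuous_const.add cB))
  refine ⟨(U1, U2), ?_, ?_⟩
  · exact ge_of_tendsto hl (Eventually.of_forall fun k => k6_u_nonneg hτ hz.le K k)
  · have h1 : Tendsto (fun k => k6_u τ z K (k + 1)) atTop (𝓝 (U1, U2)) :=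
      hl.comp (tendsto_add_atTop_nat 1)
    have h2 : Tendsto (fun k => k6_u τ z K (k + 1)) atTop (𝓝 (k6_F τ z K (U1, U2))) := by
      have h3 := (hc.tendsto (U1, U2)).comp hl
      refine h3.congr fun k => ?_
      exact (k6_u_succ τ z K k).symm
    exact tendsto_nhds_unique h2 h1

/-- a fixed point gives a lower bound for `1 / z` -/
theorem k6_final {τ z η A₀ : ℝ} (hτ : 0 < τ) (hz : 0 < z) (hη : 0 < η) (hη1 : η < 1) {K : ℕ}
    (hA₀ : A₀ = (2 / τ + 2) / z)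
    (hK : ∀ a, 0 ≤ a → a ≤ A₀ → Real.exp a * (1 - η) ≤ k6_P K a)
    {u : ℝ × ℝ} (hu : 0 ≤ u) (hF : k6_F τ z K u = u) : (1 - η) * gg τ ≤ 1 / z := by
  have hA0 := k6_A_nonneg hτ hu
  have hB0 := k6_B_nonneg hτ hu
  have hP1 := k6_P_one K hA0
  have hu1 : 0 ≤ u.1 := hu.1
  have hu2 : 0 ≤ u.2 := hu.2
  have e1 : z * k6_P K (k6_A τ u) * (1 + k6_B τ u) ^ 2 = u.1 := congrArg Prod.fst hF
  have e2 : z * k6_P K (k6_A τ u) * (1 + k6_B τ u) = u.2 := congrArg Prod.snd hF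
  have hAdef : k6_A τ u = 2 / τ * u.1 + 2 * u.2 := rfl
  have hBdef : k6_B τ u = u.1 + τ / 2 * u.2 := rfl
  have hKA := hK (k6_A τ u) hA0
  obtain ⟨A, hA⟩ : ∃ A, A = k6_A τ u := ⟨_, rfl⟩
  obtain ⟨B, hB⟩ : ∃ B, B = k6_B τ u := ⟨_, rfl⟩
  obtain ⟨P, hP⟩ : ∃ P, P = k6_P K (k6_A τ u) := ⟨_, rfl⟩
  obtain ⟨x, hx⟩ : ∃ x, x = u.1 := ⟨_, rfl⟩
  obtain ⟨y, hy⟩ : ∃ y, y = u.2 := ⟨_, rfl⟩
  rw [← hP, ← hB, ← hx] at e1
  rw [← hP, ← hB, ← hy] at e2
  rw [← hA, ← hx, ← hy] at hAdef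
  rw [← hB, ← hx, ← hy] at hBdef
  rw [← hP, ← hA] at hKA
  rw [← hA] at hA0
  rw [← hB] at hB0
  rw [← hP] at hP1
  rw [← hx] at hu1
  rw [← hy] at hu2
  have hypos : 0 < y := by
    rw [← e2]
    positivity
  have hxy : x = (1 + B) * y := by
    rw [← e1, ← e2]
    ring
  have hxpos : 0 < x := by
    rw [hxy]
    positivity
  have hyx : y ≤ x := by
    rw [hxy]
    nlinarith
  have hBx : x ≤ 1 + B := by
    have : 0 ≤ τ / 2 * y := by positivity
    linarith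
  have hzx : x ≤ 1 / z := by
    have h1 : z * x ^ 2 ≤ x := by
      calc z * x ^ 2 ≤ z * (1 + B) ^ 2 :=
            mul_le_mul_of_nonneg_left (pow_le_pow_left₀ hu1 hBx 2) hz.le
        _ ≤ z * P * (1 + B) ^ 2 := by
            refine mul_le_mul_of_nonneg_right ?_ (by positivity)
            nlinarith
        _ = x := e1
    rw [le_div_iff₀ hz]
    have h2 : (x * z) * x ≤ 1 * x := by
      calc (x * z) * x = z * x ^ 2 := by ring
        _ ≤ x := h1
        _ = 1 * x := by ring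
    exact le_of_mul_le_mul_right h2 hxpos
  have hAle : A ≤ A₀ := by
    rw [hAdef, hA₀]
    have h1 : 2 / τ * x ≤ 2 / τ * (1 / z) := mul_le_mul_of_nonneg_left hzx (by positivity)
    have h2 : 2 * y ≤ 2 * (1 / z) := by linarith
    calc 2 / τ * x + 2 * y ≤ 2 / τ * (1 / z) + 2 * (1 / z) := add_le_add h1 h2
      _ = (2 / τ + 2) / z := by ring
  have hPge := hKA hAle
  have hBy : B * (1 - y) = y * (1 + τ / 2) := by
    have : B = (1 + B) * y + τ / 2 * y := by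
      rw [← hxy]
      exact hBdef
    linarith
  have hy1 : y < 1 := by
    by_contra hcon
    push Not at hcon
    have h1 : 0 < y * (1 + τ / 2) := by positivity
    have h2 : B * (1 - y) ≤ 0 := mul_nonpos_of_nonneg_of_nonpos hB0 (by linarith)
    linarith
  have h1y : 0 < 1 - y := by linarith
  have hB1 : (1 + B) / y = (1 / y + τ / 2) / (1 - y) := by
    rw [div_eq_div_iff hypos.ne' h1y.ne']
    have h3 : (1 / y + τ / 2) * y = 1 + τ / 2 * y := by field_simp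
    rw [h3]
    linarith
  have hAexp : A = 2 / τ * (y / (1 - y)) + 1 / (1 - y) - (1 - y) := by
    have h2 : x = (1 + τ / 2 * y) * y / (1 - y) := by
      rw [eq_div_iff h1y.ne', hxy]
      have : (1 + B) * (1 - y) = 1 + τ / 2 * y := by linarith
      calc (1 + B) * y * (1 - y) = ((1 + B) * (1 - y)) * y := by ring
        _ = (1 + τ / 2 * y) * y := by rw [this]
    rw [hAdef, h2]
    field_simp
    ring
  have hgY : gY y τ = (1 + B) / y * Real.exp A := by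
    unfold gY
    rw [hB1, ← hAexp]
  have hgg := gg_le hypos hy1 hτ
  rw [hgY] at hgg
  have h1z : 1 / z = P * ((1 + B) / y) := by
    rw [div_eq_iff hz.ne']
    have h3 : P * ((1 + B) / y) * z = (z * P * (1 + B)) / y := by ring
    rw [h3, e2, div_self hypos.ne']
  rw [h1z]
  have hB1pos : 0 < (1 + B) / y := by positivity
  calc (1 - η) * gg τ ≤ (1 - η) * ((1 + B) / y * Real.exp A) :=
        mul_le_mul_of_nonneg_left hgg (by linarith)
    _ = (Real.exp A * (1 - η)) * ((1 + B) / y) := by ring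
    _ ≤ P * ((1 + B) / y) := mul_le_mul_of_nonneg_right hPge hB1pos.le

theorem growth (τ ε : ℝ) (hτ : 0 < τ) (hε : 0 < ε) : ∃ K : ℕ, ∀ N : ℕ, ∃ r k : ℕ, N ≤ r ∧
    (Real.exp (-ε) * gg τ) ^ r ≤ (mp (4 / τ) 2 1 (τ / 2) K k).coeff r := by
  have hg : 0 < gg τ := d8_gg_pos hτ
  obtain ⟨z, hz⟩ : ∃ z, z = Real.exp (ε / 2) / gg τ := ⟨_, rfl⟩
  have hzpos : 0 < z := by
    rw [hz]
    positivity
  obtain ⟨η, hη⟩ : ∃ η, η = 1 - Real.exp (-(ε / 4)) := ⟨_, rfl⟩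
  have hη0 : 0 < η := by
    have : Real.exp (-(ε / 4)) < 1 := Real.exp_lt_one_iff.mpr (by linarith)
    linarith
  have hη1 : η < 1 := by
    have := Real.exp_pos (-(ε / 4))
    linarith
  obtain ⟨K, hK1, hK⟩ := k6_P_exp ((2 / τ + 2) / z) η hη0
  refine ⟨K, ?_⟩
  by_contra hcon
  push Not at hcon
  obtain ⟨N, hN⟩ := hcon
  have hq1 : Real.exp (-(ε / 2)) < 1 := Real.exp_lt_one_iff.mpr (by linarith)
  obtain ⟨C, hC⟩ := k6_bounded (q := Real.exp (-(ε / 2))) hτ hzpos (Real.exp_pos _).le hq1 K N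
    (fun r k hr => by
      have h1 := (hN r k hr).le
      calc (mp (4 / τ) 2 1 (τ / 2) K k).coeff r * z ^ r ≤
            (Real.exp (-ε) * gg τ) ^ r * z ^ r :=
              mul_le_mul_of_nonneg_right h1 (pow_nonneg hzpos.le r)
        _ = (Real.exp (-(ε / 2))) ^ r := by
              rw [← mul_pow, hz]
              congr 1
              have h2 : Real.exp (-ε) * gg τ * (Real.exp (ε / 2) / gg τ) =
                  Real.exp (-ε) * Real.exp (ε / 2) := by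
                field_simp
              rw [h2, ← Real.exp_add]
              congr 1
              ring)
  obtain ⟨u, hu, hF⟩ := k6_fixed hτ hzpos hK1 hC
  have h := k6_final hτ hzpos hη0 hη1 rfl hK hu hF
  rw [hη, hz] at h
  have h1 : 1 / (Real.exp (ε / 2) / gg τ) = Real.exp (-(ε / 2)) * gg τ := by
    rw [Real.exp_neg]
    field_simp
  rw [h1] at h
  have h2 : Real.exp (-(ε / 2)) < Real.exp (-(ε / 4)) := Real.exp_lt_exp.mpr (by linarith)
  have h3 : Real.exp (-(ε / 2)) * gg τ < Real.exp (-(ε / 4)) * gg τ :=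
    mul_lt_mul_of_pos_right h2 hg
  have h4 : (1 - (1 - Real.exp (-(ε / 4)))) * gg τ = Real.exp (-(ε / 4)) * gg τ := by ring
  linarith

end Pool.Agent.Lib.MP_8501c9_pr.Deep
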