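import Pool.Agent.Lib.MP_8501c9_pr.Deep.Defs2

/-!
# Linearity and symmetry of the recursion `mac`
-/

set_option autoImplicit false
open Set

namespace Pool.Agent.Lib.MP_8501c9_pr.Deep

open Pool.Agent.Lib.MP_8501c9_pr Pool.Agent.Lib.MP_8501c9_pr.Mid
open Pool.Agent.Lib.MP_8501c9_pr.Wide

variable {n d : ℕ}

theorem k4_zero (w : Finset (Fin d) → Finset (Fin d) → ℝ) (v : (Fin d → ℕ) → ℝ)
    (r : ℕ) (J : Finset (Finset (Fin d))) (U m : Finset (Fin d)) (κ : Fin d → ℕ) :
    mac w v 0 r J U m κ = if r = 0 then v κ else 0 := rfl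

open Classical in
theorem k4_succ (w : Finset (Fin d) → Finset (Fin d) → ℝ) (v : (Fin d → ℕ) → ℝ)
    (f r : ℕ) (J : Finset (Finset (Fin d))) (U m : Finset (Fin d)) (κ : Fin d → ℕ) :
    mac w v (f + 1) r J U m κ = if r = 0 then v κ else
      ∑ B : Finset (Finset (Fin d)) with (AdmB U m B ∧ B.card ≤ r ∧ (J ∪ B).Nonempty),
        (∏ S ∈ B, w m S) * ((∑ S ∈ J ∪ B, mac w v f (r - B.card) ((J ∪ B).erase S)
          (U ∪ B.biUnion id) S (κ + ∑ S' ∈ B, inc S')) / ((J ∪ B).card : ℝ)) := by
  rw [mac]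

theorem mac_scale (w : Finset (Fin d) → Finset (Fin d) → ℝ) (v : (Fin d → ℕ) → ℝ) (t : ℝ)
    (f r : ℕ) (J : Finset (Finset (Fin d))) (U m : Finset (Fin d)) (κ : Fin d → ℕ) :
    mac (fun m S => t * w m S) v f r J U m κ = t ^ r * mac w v f r J U m κ := by
  classical
  induction f generalizing r J U m κ with
  | zero =>
    rw [k4_zero, k4_zero]
    by_cases hr : r = 0
    · simp [hr]
    · simp [hr]
  | succ f ih =>
    rw [k4_succ, k4_succ]
    by_cases hr : r = 0
    · simp [hr]
    · rw [if_neg hr, if_neg hr, Finset.mul_sum]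
      refine Finset.sum_congr rfl fun B hB => ?_
      have hBr : B.card ≤ r := (Finset.mem_filter.1 hB).2.2.1
      rw [Finset.prod_mul_distrib, Finset.prod_const]
      simp only [ih]
      rw [← Finset.mul_sum]
      have : t ^ r = t ^ B.card * t ^ (r - B.card) := by
        rw [← pow_add, Nat.add_sub_cancel' hBr]
      rw [this]
      ring

theorem mac_mono {w : Finset (Fin d) → Finset (Fin d) → ℝ} (hw : ∀ m S, 0 ≤ w m S)
    {v v' : (Fin d → ℕ) → ℝ} (h : ∀ x, v x ≤ v' x)
    (f r : ℕ) (J : Finset (Finset (Fin d))) (U m : Finset (Fin d)) (κ : Fin d → ℕ) :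
    mac w v f r J U m κ ≤ mac w v' f r J U m κ := by
  classical
  induction f generalizing r J U m κ with
  | zero =>
    rw [k4_zero, k4_zero]
    by_cases hr : r = 0
    · simp [hr, h]
    · simp [hr]
  | succ f ih =>
    rw [k4_succ, k4_succ]
    by_cases hr : r = 0
    · simp [hr, h]
    · rw [if_neg hr, if_neg hr]
      refine Finset.sum_le_sum fun B hB => ?_
      refine mul_le_mul_of_nonneg_left ?_ (Finset.prod_nonneg fun S _ => hw m S)
      refine div_le_div_of_nonneg_right ?_ (Nat.cast_nonneg _)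
      exact Finset.sum_le_sum fun S _ => ih _ _ _ _ _

theorem mac_add (w : Finset (Fin d) → Finset (Fin d) → ℝ) (v v' : (Fin d → ℕ) → ℝ) (a b : ℝ)
    (f r : ℕ) (J : Finset (Finset (Fin d))) (U m : Finset (Fin d)) (κ : Fin d → ℕ) :
    mac w (fun x => a * v x + b * v' x) f r J U m κ =
      a * mac w v f r J U m κ + b * mac w v' f r J U m κ := by
  classical
  induction f generalizing r J U m κ with
  | zero =>
    rw [k4_zero, k4_zero, k4_zero]
    by_cases hr : r = 0
    · simp [hr]
    · simp [hr]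
  | succ f ih =>
    rw [k4_succ, k4_succ, k4_succ]
    by_cases hr : r = 0
    · simp [hr]
    · rw [if_neg hr, if_neg hr, if_neg hr, Finset.mul_sum, Finset.mul_sum,
        ← Finset.sum_add_distrib]
      refine Finset.sum_congr rfl fun B hB => ?_
      simp only [ih]
      rw [Finset.sum_add_distrib, ← Finset.mul_sum, ← Finset.mul_sum]
      ring

/-- every birth adds two -/
theorem k4_inc (S : Finset (Fin d)) (hS : S.card = 1 ∨ S.card = 2) : ∑ i, inc S i = 2 := by
  have : ∑ i, inc S i = S.card * (3 - S.card) := by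
    unfold inc
    rw [Finset.sum_ite_mem, Finset.univ_inter, Finset.sum_const, smul_eq_mul]
  rw [this]
  rcases hS with h | h <;> rw [h]

theorem k4_inc_sum {U m : Finset (Fin d)} {B : Finset (Finset (Fin d))} (hB : AdmB U m B) :
    ∑ i, (∑ S ∈ B, inc S) i = 2 * B.card := by
  simp only [Finset.sum_apply]
  rw [Finset.sum_comm, Finset.sum_congr rfl (fun S hS => k4_inc S (hB.card S hS)),
    Finset.sum_const, smul_eq_mul, mul_comm]

/-- only the increments with total `2 r` matter -/
theorem mac_congr {w : Finset (Fin d) → Finset (Fin d) → ℝ} {v v' : (Fin d → ℕ) → ℝ}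
    (f r : ℕ) (J : Finset (Finset (Fin d))) (U m : Finset (Fin d)) (κ : Fin d → ℕ)
    (h : ∀ κ' : Fin d → ℕ, ∑ i, κ' i = ∑ i, κ i + 2 * r → (∀ i, κ i ≤ κ' i) → v κ' = v' κ') :
    mac w v f r J U m κ = mac w v' f r J U m κ := by
  classical
  induction f generalizing r J U m κ with
  | zero =>
    rw [k4_zero, k4_zero]
    by_cases hr : r = 0
    · simp only [hr, if_true]
      exact h κ (by simp [hr]) (fun i => le_rfl)
    · simp [hr]
  | succ f ih =>
    rw [k4_succ, k4_succ]
    by_cases hr : r = 0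
    · simp only [hr, if_true]
      exact h κ (by simp [hr]) (fun i => le_rfl)
    · rw [if_neg hr, if_neg hr]
      refine Finset.sum_congr rfl fun B hB => ?_
      have hA : AdmB U m B := (Finset.mem_filter.1 hB).2.1
      have hBr : B.card ≤ r := (Finset.mem_filter.1 hB).2.2.1
      congr 2
      refine Finset.sum_congr rfl fun S _ => ih _ _ _ _ _ fun κ' hs hle => ?_
      apply h κ'
      · rw [hs]
        simp only [Pi.add_apply]
        rw [Finset.sum_add_distrib, k4_inc_sum hA]
        omega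
      · intro i
        have := hle i
        simp only [Pi.add_apply] at this
        omega

/-! ### symmetry -/

theorem k4_inc_map (σ : Equiv.Perm (Fin d)) (S : Finset (Fin d)) (i : Fin d) :
    inc (S.map σ.symm.toEmbedding) i = inc S (σ i) := by
  unfold inc
  rw [Finset.card_map]
  simp [Finset.mem_map_equiv]

theorem k4_wS_map (a₂ a₁ b₂ b₁ : ℝ) (e : Fin d ↪ Fin d) (m S : Finset (Fin d)) :
    wS a₂ a₁ b₂ b₁ (m.map e) (S.map e) = wS a₂ a₁ b₂ b₁ m S := by
  unfold wS
  rw [Finset.card_map]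
  simp only [Finset.disjoint_map]

theorem k4_adm_map (e : Fin d ↪ Fin d) (U m : Finset (Fin d)) (B : Finset (Finset (Fin d)))
    (h : AdmB U m B) :
    AdmB (U.map e) (m.map e) (B.map (Finset.mapEmbedding e).toEmbedding) := by
  constructor
  · intro S hS
    obtain ⟨T, hT, rfl⟩ := Finset.mem_map.1 hS
    have := h.card T hT
    simpa using this
  · intro S hS
    obtain ⟨T, hT, rfl⟩ := Finset.mem_map.1 hS
    have := h.used T hT
    simp only [RelEmbedding.coe_toEmbedding, Finset.mapEmbedding_apply]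
    rw [← Finset.map_inter]
    exact Finset.map_subset_map.2 this
  · intro S hS
    obtain ⟨T, hT, rfl⟩ := Finset.mem_map.1 hS
    have := h.one T hT
    simp only [RelEmbedding.coe_toEmbedding, Finset.mapEmbedding_apply]
    rw [← Finset.map_inter, Finset.card_map]
    exact this
  · intro S hS T hT hne
    obtain ⟨S', hS', rfl⟩ := Finset.mem_map.1 (Finset.mem_coe.1 hS)
    obtain ⟨T', hT', rfl⟩ := Finset.mem_map.1 (Finset.mem_coe.1 hT)
    have hne' : S' ≠ T' := fun h => hne (by rw [h])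
    have := h.dis (Finset.mem_coe.2 hS') (Finset.mem_coe.2 hT') hne'
    simp only [Function.onFun, id] at this ⊢
    simp only [RelEmbedding.coe_toEmbedding, Finset.mapEmbedding_apply]
    exact (Finset.disjoint_map e).2 this

/-- the map on families -/
def k4F (e : Fin d ↪ Fin d) (B : Finset (Finset (Fin d))) : Finset (Finset (Fin d)) :=
  B.map (Finset.mapEmbedding e).toEmbedding

theorem k4F_inv (σ : Equiv.Perm (Fin d)) (B : Finset (Finset (Fin d))) :
    k4F σ.toEmbedding (k4F σ.symm.toEmbedding B) = B := by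
  classical
  unfold k4F
  ext S
  simp only [Finset.mem_map, RelEmbedding.coe_toEmbedding, Finset.mapEmbedding_apply]
  constructor
  · rintro ⟨T, ⟨R, hR, rfl⟩, rfl⟩
    rw [Finset.map_map]
    have : (σ.symm.toEmbedding.trans σ.toEmbedding) = Function.Embedding.refl _ := by
      ext i; simp
    rw [this, Finset.map_refl]
    exact hR
  · intro hS
    refine ⟨S.map σ.symm.toEmbedding, ⟨S, hS, rfl⟩, ?_⟩
    rw [Finset.map_map]
    have : (σ.symm.toEmbedding.trans σ.toEmbedding) = Function.Embedding.refl _ := by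
      ext i; simp
    rw [this, Finset.map_refl]

theorem k4F_inv' (σ : Equiv.Perm (Fin d)) (B : Finset (Finset (Fin d))) :
    k4F σ.symm.toEmbedding (k4F σ.toEmbedding B) = B := by
  have := k4F_inv σ.symm B
  rwa [Equiv.symm_symm] at this

theorem k4_symm (a₂ a₁ b₂ b₁ : ℝ) (v : (Fin d → ℕ) → ℝ) (σ : Equiv.Perm (Fin d)) (f r : ℕ)
    (J : Finset (Finset (Fin d))) (U m : Finset (Fin d)) (κ : Fin d → ℕ) :
    mac (wS a₂ a₁ b₂ b₁) (fun κ => v (fun i => κ (σ i))) f r J U m κ =
      mac (wS a₂ a₁ b₂ b₁) v f r (k4F σ.symm.toEmbedding J) (U.map σ.symm.toEmbedding)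
        (m.map σ.symm.toEmbedding) (fun i => κ (σ i)) := by
  classical
  induction f generalizing r J U m κ with
  | zero => rw [k4_zero, k4_zero]
  | succ f ih =>
    rw [k4_succ, k4_succ]
    by_cases hr : r = 0
    · simp [hr]
    · rw [if_neg hr, if_neg hr]
      set e := σ.symm.toEmbedding with he
      have hun : ∀ B B', k4F e (B ∪ B') = k4F e B ∪ k4F e B' := fun B B' => by
        unfold k4F; rw [Finset.map_union]
      refine Finset.sum_bij' (fun B _ => k4F e B) (fun B _ => k4F σ.toEmbedding B) ?_ ?_ ?_ ?_ ?_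
      · intro B hB
        obtain ⟨-, h1, h2, h3⟩ := Finset.mem_filter.1 hB
        refine Finset.mem_filter.2 ⟨Finset.mem_univ _, k4_adm_map e U m B h1, ?_, ?_⟩
        · unfold k4F; rw [Finset.card_map]; exact h2
        · rw [← hun]; unfold k4F; exact h3.map
      · intro B hB
        obtain ⟨-, h1, h2, h3⟩ := Finset.mem_filter.1 hB
        have hmm : ∀ V : Finset (Fin d), (V.map e).map σ.toEmbedding = V := fun V => by
          rw [Finset.map_map]
          have : (e.trans σ.toEmbedding) = Function.Embedding.refl _ := by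
            ext i; simp [he]
          rw [this, Finset.map_refl]
        have h1' := k4_adm_map σ.toEmbedding _ _ B h1
        rw [hmm, hmm] at h1'
        refine Finset.mem_filter.2 ⟨Finset.mem_univ _, h1', ?_, ?_⟩
        · unfold k4F; rw [Finset.card_map]; exact h2
        · have h3' : (k4F σ.toEmbedding (k4F e J ∪ B)).Nonempty := by
            unfold k4F; exact h3.map
          have : k4F σ.toEmbedding (k4F e J ∪ B) = J ∪ k4F σ.toEmbedding B := by
            unfold k4F; rw [Finset.map_union]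
            congr 1
            exact k4F_inv σ J
          rwa [this] at h3'
      · intro B hB
        exact k4F_inv σ B
      · intro B hB
        exact k4F_inv' σ B
      · intro B hB
        obtain ⟨-, h1, h2, h3⟩ := Finset.mem_filter.1 hB
        have hcard : (k4F e B).card = B.card := by unfold k4F; rw [Finset.card_map]
        have hcard2 : (k4F e J ∪ k4F e B).card = (J ∪ B).card := by
          rw [← hun]; unfold k4F; rw [Finset.card_map]
        have hprod : ∏ S ∈ k4F e B, wS a₂ a₁ b₂ b₁ (m.map e) S =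
            ∏ S ∈ B, wS a₂ a₁ b₂ b₁ m S := by
          unfold k4F
          rw [Finset.prod_map]
          refine Finset.prod_congr rfl fun S _ => ?_
          simp only [RelEmbedding.coe_toEmbedding, Finset.mapEmbedding_apply]
          exact k4_wS_map a₂ a₁ b₂ b₁ e m S
        rw [hprod, hcard, hcard2]
        congr 2
        rw [← hun]
        conv_rhs => unfold k4F
        rw [Finset.sum_map]
        refine Finset.sum_congr rfl fun S hS => ?_
        rw [ih]
        simp only [RelEmbedding.coe_toEmbedding, Finset.mapEmbedding_apply]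
        have e1 : k4F e ((J ∪ B).erase S) =
            ((J ∪ B).map (Finset.mapEmbedding e).toEmbedding).erase (S.map e) := by
          unfold k4F
          rw [Finset.map_erase]
          rfl
        have e2 : (U ∪ B.biUnion id).map e =
            U.map e ∪ (B.map (Finset.mapEmbedding e).toEmbedding).biUnion id := by
          rw [Finset.map_union]
          congr 1
          ext i
          simp only [Finset.mem_map, Finset.mem_biUnion, id, RelEmbedding.coe_toEmbedding,
            Finset.mapEmbedding_apply]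
          constructor
          · rintro ⟨j, ⟨T, hT, hj⟩, rfl⟩
            exact ⟨T.map e, ⟨T, hT, rfl⟩, Finset.mem_map_of_mem e hj⟩
          · rintro ⟨T', ⟨T, hT, rfl⟩, hj⟩
            obtain ⟨j, hj', rfl⟩ := Finset.mem_map.1 hj
            exact ⟨j, ⟨T, hT, hj'⟩, rfl⟩
        have e3 : (fun i => (κ + ∑ S' ∈ B, inc S') (σ i)) =
            (fun i => κ (σ i)) + ∑ S' ∈ B.map (Finset.mapEmbedding e).toEmbedding, inc S' := by
          ext i
          simp only [Pi.add_apply, Finset.sum_apply, Finset.sum_map,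
            RelEmbedding.coe_toEmbedding, Finset.mapEmbedding_apply]
          congr 1
          refine Finset.sum_congr rfl fun T _ => ?_
          exact (k4_inc_map σ T i).symm
        rw [e1, e2, e3]

theorem mac_symm (a₂ a₁ b₂ b₁ : ℝ) (v : (Fin d → ℕ) → ℝ) (f r : ℕ)
    (σ : Equiv.Perm (Fin d)) :
    mac (wS a₂ a₁ b₂ b₁) (fun κ => v (fun i => κ (σ i))) f r ∅ ∅ ∅ 0 =
      mac (wS a₂ a₁ b₂ b₁) v f r ∅ ∅ ∅ 0 := by
  have := k4_symm a₂ a₁ b₂ b₁ v σ f r ∅ ∅ ∅ 0
  simp only [k4F, Finset.map_empty] at this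
  exact this

/-! ### exponential moments -/

theorem k4_sum {ι : Type*} (w : Finset (Fin d) → Finset (Fin d) → ℝ) (s : Finset ι)
    (v : ι → (Fin d → ℕ) → ℝ)
    (f r : ℕ) (J : Finset (Finset (Fin d))) (U m : Finset (Fin d)) (κ : Fin d → ℕ) :
    mac w (fun x => ∑ j ∈ s, v j x) f r J U m κ = ∑ j ∈ s, mac w (v j) f r J U m κ := by
  classical
  induction s using Finset.induction_on with
  | empty =>
    have := mac_add w (fun _ => 0) (fun _ => 0) 0 0 f r J U m κ
    simpa using this
  | insert a s ha ih =>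
    rw [Finset.sum_insert ha, ← ih]
    have := mac_add w (v a) (fun x => ∑ j ∈ s, v j x) 1 1 f r J U m κ
    simp only [one_mul] at this
    rw [← this]
    congr 1
    funext x
    rw [Finset.sum_insert ha]

theorem k4_const (w : Finset (Fin d) → Finset (Fin d) → ℝ) (c : ℝ)
    (f r : ℕ) (J : Finset (Finset (Fin d))) (U m : Finset (Fin d)) (κ : Fin d → ℕ) :
    mac w (fun _ => c) f r J U m κ = c * mac w (fun _ => 1) f r J U m κ := by
  have := mac_add w (fun _ => 1) (fun _ => 0) c 0 f r J U m κ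
  simpa using this

theorem k4_nonneg {w : Finset (Fin d) → Finset (Fin d) → ℝ} (hw : ∀ m S, 0 ≤ w m S)
    (f r : ℕ) (J : Finset (Finset (Fin d))) (U m : Finset (Fin d)) (κ : Fin d → ℕ) :
    0 ≤ mac w (fun _ => 1) f r J U m κ := by
  have h0 := k4_const w 0 f r J U m κ
  rw [zero_mul] at h0
  rw [← h0]
  exact mac_mono hw (fun _ => zero_le_one) f r J U m κ

theorem k4_wS_nonneg {a₂ a₁ b₂ b₁ : ℝ} (ha₂ : 0 ≤ a₂) (ha₁ : 0 ≤ a₁) (hb₂ : 0 ≤ b₂)
    (hb₁ : 0 ≤ b₁) (m S : Finset (Fin d)) : 0 ≤ wS a₂ a₁ b₂ b₁ m S := by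
  unfold wS
  split_ifs <;> assumption

/-- exponential moments of the increment in one direction -/
theorem mac_exp {a₂ a₁ b₂ b₁ : ℝ} (ha₂ : 0 ≤ a₂) (ha₁ : 0 ≤ a₁) (hb₂ : 0 ≤ b₂)
    (hb₁ : 0 ≤ b₁) (r : ℕ) (lam : ℝ) (hlam : |lam| * (2 * r) ≤ 1) (i : Fin d) :
    mac (wS a₂ a₁ b₂ b₁) (fun κ => Real.exp (lam * κ i)) r r ∅ ∅ ∅ 0 ≤
      mac (d := d) (wS a₂ a₁ b₂ b₁) (fun _ => 1) r r ∅ ∅ ∅ 0 *
        Real.exp ((2 * r * lam + 4 * r ^ 2 * lam ^ 2) / d) := by
  classical
  have hw : ∀ m S : Finset (Fin d), 0 ≤ wS a₂ a₁ b₂ b₁ m S := k4_wS_nonneg ha₂ ha₁ hb₂ hb₁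
  set W := wS (d := d) a₂ a₁ b₂ b₁ with hW
  set M := mac (d := d) W (fun _ => 1) r r ∅ ∅ ∅ 0 with hM
  have hM0 : 0 ≤ M := k4_nonneg hw _ _ _ _ _ _
  have hd : (0 : ℝ) < d := by
    have : 0 < d := lt_of_le_of_lt (Nat.zero_le _) i.isLt
    exact_mod_cast this
  have hd1 : (1 : ℝ) ≤ d := by
    have : 0 < d := lt_of_le_of_lt (Nat.zero_le _) i.isLt
    exact_mod_cast this
  -- symmetric
  have hsym : ∀ j : Fin d, mac W (fun κ => Real.exp (lam * κ j)) r r ∅ ∅ ∅ 0 =
      mac W (fun κ => Real.exp (lam * κ i)) r r ∅ ∅ ∅ 0 := by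
    intro j
    have := mac_symm a₂ a₁ b₂ b₁ (fun κ => Real.exp (lam * κ i)) r r (Equiv.swap i j)
    simp only [Equiv.swap_apply_left] at this
    exact this
  have hsum : (d : ℝ) * mac W (fun κ => Real.exp (lam * κ i)) r r ∅ ∅ ∅ 0 =
      mac W (fun κ => ∑ j, Real.exp (lam * κ j)) r r ∅ ∅ ∅ 0 := by
    rw [k4_sum, Finset.sum_congr rfl (fun j _ => hsym j), Finset.sum_const, Finset.card_univ,
      Fintype.card_fin, nsmul_eq_mul]
  set C : ℝ := d + 2 * r * lam + 4 * r ^ 2 * lam ^ 2 with hC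
  have hC0 : 0 ≤ C := by
    have h1 : -1 ≤ lam * (2 * r) := by
      have : |lam * (2 * r)| ≤ 1 := by
        rw [abs_mul, abs_of_nonneg (by positivity : (0 : ℝ) ≤ 2 * r)]
        exact hlam
      exact (abs_le.1 this).1
    have h2 : 0 ≤ (4 : ℝ) * r ^ 2 * lam ^ 2 := by positivity
    rw [hC]
    nlinarith
  have hbound : mac W (fun κ => ∑ j, Real.exp (lam * κ j)) r r ∅ ∅ ∅ 0 ≤ C * M := by
    rw [hM, ← k4_const]
    have hc := mac_congr (w := W) (v := fun κ => ∑ j, Real.exp (lam * κ j))
      (v' := fun κ => if ∑ j, κ j = 2 * r then ∑ j, Real.exp (lam * κ j) else 0) r r ∅ ∅ ∅ 0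
      (by
        intro κ' hs _
        have : ∑ j, κ' j = 2 * r := by simpa using hs
        rw [if_pos this])
    rw [hc]
    refine mac_mono hw ?_ _ _ _ _ _ _
    intro κ
    by_cases hκ : ∑ j, κ j = 2 * r
    · rw [if_pos hκ]
      have hκR : ∑ j, (κ j : ℝ) = 2 * r := by exact_mod_cast hκ
      have hle : ∀ j, (κ j : ℝ) ≤ 2 * r := by
        intro j
        rw [← hκR]
        exact Finset.single_le_sum (f := fun j => (κ j : ℝ)) (fun _ _ => Nat.cast_nonneg _)
          (Finset.mem_univ j)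
      have h1 : ∀ j, Real.exp (lam * κ j) ≤ 1 + lam * κ j + lam ^ 2 * (2 * r) * κ j := by
        intro j
        have hx : |lam * (κ j : ℝ)| ≤ 1 := by
          rw [abs_mul, abs_of_nonneg (Nat.cast_nonneg _ : (0 : ℝ) ≤ (κ j : ℝ))]
          exact le_trans (mul_le_mul_of_nonneg_left (hle j) (abs_nonneg _)) hlam
        have h2 := Real.abs_exp_sub_one_sub_id_le hx
        have h3 := (abs_le.1 h2).2
        have h4 : (lam * (κ j : ℝ)) ^ 2 ≤ lam ^ 2 * (2 * r) * κ j := by
          have : lam ^ 2 * ((κ j : ℝ) * κ j) ≤ lam ^ 2 * ((2 * r) * κ j) :=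
            mul_le_mul_of_nonneg_left
              (mul_le_mul_of_nonneg_right (hle j) (Nat.cast_nonneg _)) (sq_nonneg _)
          nlinarith
        linarith
      calc ∑ j, Real.exp (lam * κ j) ≤ ∑ j, (1 + lam * κ j + lam ^ 2 * (2 * r) * κ j) :=
            Finset.sum_le_sum fun j _ => h1 j
        _ = d + lam * ∑ j, (κ j : ℝ) + lam ^ 2 * (2 * r) * ∑ j, (κ j : ℝ) := by
            rw [Finset.sum_add_distrib, Finset.sum_add_distrib, ← Finset.mul_sum,
              ← Finset.mul_sum]
            simp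
        _ = C := by rw [hκR, hC]; ring
    · rw [if_neg hκ]; exact hC0
  have hfin : mac W (fun κ => Real.exp (lam * κ i)) r r ∅ ∅ ∅ 0 ≤ M * (C / d) := by
    have h := hsum.le.trans hbound
    have : mac W (fun κ => Real.exp (lam * κ i)) r r ∅ ∅ ∅ 0 ≤ (C * M) / d := by
      rw [le_div_iff₀ hd]
      linarith
    calc _ ≤ (C * M) / d := this
      _ = M * (C / d) := by ring
  refine hfin.trans (mul_le_mul_of_nonneg_left ?_ hM0)
  have h1 : C / d = (2 * r * lam + 4 * r ^ 2 * lam ^ 2) / d + 1 := by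
    rw [hC]; field_simp; ring
  rw [h1]
  exact Real.add_one_le_exp _

end Pool.Agent.Lib.MP_8501c9_pr.Deep
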