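import Pool.Agent.Lib.MP_8501c9_pr.Deep.MacAch
import Pool.Agent.Lib.MP_8501c9_pr.Deep.MacLin

/-!
# Many macro steps (K7)
-/

set_option autoImplicit false
open Set

namespace Pool.Agent.Lib.MP_8501c9_pr.Deep

open Pool.Agent.Lib.MP_8501c9_pr Pool.Agent.Lib.MP_8501c9_pr.Mid
open Pool.Agent.Lib.MP_8501c9_pr.Wide

variable {n d : ℕ}

/-- value of a macro step with payoff `v` from the side lengths `x` -/
noncomputable def k7_Op (w : Finset (Fin d) → Finset (Fin d) → ℝ) (r : ℕ)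
    (v : (Fin d → ℕ) → ℝ) (x : Fin d → ℕ) : ℝ :=
  mac w (fun κ => v (x + κ)) r r ∅ ∅ ∅ 0

open Classical in
/-- the probability to stay among the good states -/
noncomputable def k7_W (w : Finset (Fin d) → Finset (Fin d) → ℝ) (X r S D' : ℕ) :
    ℕ → (Fin d → ℕ) → ℝ
  | 0 => fun x => if Good X r S D' x then 1 else 0
  | j + 1 => fun x => if Good X r (S - (j + 1)) D' x then k7_Op w r (k7_W w X r S D' j) x else 0

/-- exponential bound for the deviations, `c` is the average -/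
noncomputable def k7_E (lam : ℝ) (D' : ℕ) (c : ℝ) (x : Fin d → ℕ) : ℝ :=
  ∑ i, (Real.exp (lam * ((x i : ℝ) - c - D')) + Real.exp (-lam * ((x i : ℝ) - c + D')))

theorem k7_E_nonneg (lam : ℝ) (D' : ℕ) (c : ℝ) (x : Fin d → ℕ) : 0 ≤ k7_E lam D' c x := by
  unfold k7_E
  positivity

theorem k7_E_one {lam : ℝ} (hlam : 0 < lam) {D' : ℕ} {c : ℝ} {x : Fin d → ℕ} {i : Fin d}
    (h : (D' : ℝ) < |(x i : ℝ) - c|) : 1 ≤ k7_E lam D' c x := by
  unfold k7_E
  refine le_trans ?_ (Finset.single_le_sum (f := fun i =>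
    Real.exp (lam * ((x i : ℝ) - c - D')) + Real.exp (-lam * ((x i : ℝ) - c + D')))
    (fun j _ => by positivity) (Finset.mem_univ i))
  rcases lt_abs.mp h with h1 | h1
  · have h2 : 1 ≤ Real.exp (lam * ((x i : ℝ) - c - D')) :=
      Real.one_le_exp (mul_nonneg hlam.le (by linarith))
    have h3 := Real.exp_pos (-lam * ((x i : ℝ) - c + D'))
    linarith
  · have h2 : 1 ≤ Real.exp (-lam * ((x i : ℝ) - c + D')) :=
      Real.one_le_exp (by nlinarith)
    have h3 := Real.exp_pos (lam * ((x i : ℝ) - c - D'))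
    linarith

theorem k7_mac_nonneg {w : Finset (Fin d) → Finset (Fin d) → ℝ} (hw : ∀ m S, 0 ≤ w m S)
    {v : (Fin d → ℕ) → ℝ} (hv : ∀ x, 0 ≤ v x) (r : ℕ) :
    0 ≤ mac w v r r ∅ ∅ ∅ 0 := by
  have h1 := mac_add w v v 0 0 r r ∅ ∅ ∅ 0
  have h2 := mac_mono hw (v := fun x => 0 * v x + 0 * v x) (v' := v)
    (fun x => by simpa using hv x) r r ∅ ∅ ∅ 0
  rw [h1] at h2
  simpa using h2

theorem k7_mac_smul (w : Finset (Fin d) → Finset (Fin d) → ℝ) (v : (Fin d → ℕ) → ℝ) (a : ℝ)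
    (r : ℕ) : mac w (fun x => a * v x) r r ∅ ∅ ∅ 0 = a * mac w v r r ∅ ∅ ∅ 0 := by
  have h1 := mac_add w v v a 0 r r ∅ ∅ ∅ 0
  simpa using h1

theorem k7_mac_sum (w : Finset (Fin d) → Finset (Fin d) → ℝ) {ι : Type*} (s : Finset ι)
    (v : ι → (Fin d → ℕ) → ℝ) (a : ι → ℝ) (r : ℕ) :
    mac w (fun x => ∑ i ∈ s, a i * v i x) r r ∅ ∅ ∅ 0 =
      ∑ i ∈ s, a i * mac w (v i) r r ∅ ∅ ∅ 0 := by
  classical
  induction s using Finset.induction_on with
  | empty =>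
    have h := k7_mac_smul w (fun _ => 1) 0 r
    simpa using h
  | insert i s hi ih =>
    rw [Finset.sum_insert hi, ← ih]
    have h := mac_add w (v i) (fun x => ∑ i ∈ s, a i * v i x) (a i) 1 r r ∅ ∅ ∅ 0
    rw [one_mul] at h
    rw [← h]
    congr 1
    funext x
    rw [Finset.sum_insert hi, one_mul]

theorem k7_W_nonneg {w : Finset (Fin d) → Finset (Fin d) → ℝ} (hw : ∀ m S, 0 ≤ w m S)
    (X r S D' : ℕ) (j : ℕ) (x : Fin d → ℕ) : 0 ≤ k7_W w X r S D' j x := by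
  induction j generalizing x with
  | zero =>
    simp only [k7_W]
    split_ifs <;> norm_num
  | succ j ih =>
    simp only [k7_W]
    split_ifs
    · exact k7_mac_nonneg hw (fun κ => ih _) r
    · exact le_refl _

/-- the exponential bound is almost reproduced by a macro step -/
theorem k7_Op_E {a₂ a₁ b₂ b₁ : ℝ} (ha₂ : 0 ≤ a₂) (ha₁ : 0 ≤ a₁) (hb₂ : 0 ≤ b₂)
    (hb₁ : 0 ≤ b₁) {r : ℕ} {lam : ℝ} (hlam0 : 0 < lam) (hlam1 : lam * (2 * r) ≤ 1) (D' : ℕ)
    (c c' : ℝ) (hc : c' = c + 2 * r / d) (x : Fin d → ℕ) :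
    k7_Op (wS a₂ a₁ b₂ b₁) r (k7_E lam D' c') x ≤
      mac (d := d) (wS a₂ a₁ b₂ b₁) (fun _ => 1) r r ∅ ∅ ∅ 0 *
        (Real.exp (4 * r ^ 2 * lam ^ 2 / d) * k7_E lam D' c x) := by
  set M := mac (d := d) (wS a₂ a₁ b₂ b₁) (fun _ => 1) r r ∅ ∅ ∅ 0 with hM
  have habs : |lam| * (2 * r) ≤ 1 := by rwa [abs_of_pos hlam0]
  have habs' : |-lam| * (2 * r) ≤ 1 := by rwa [abs_neg, abs_of_pos hlam0]
  have e1 : (fun κ : Fin d → ℕ => k7_E lam D' c' (x + κ)) = fun κ =>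
      ∑ i ∈ Finset.univ, (1 : ℝ) * (Real.exp (lam * ((x i : ℝ) - c' - D')) *
        Real.exp (lam * κ i) + Real.exp (-lam * ((x i : ℝ) - c' + D')) *
        Real.exp (-lam * κ i)) := by
    funext κ
    unfold k7_E
    refine Finset.sum_congr rfl fun i _ => ?_
    rw [one_mul, ← Real.exp_add, ← Real.exp_add]
    congr 1
    · congr 1
      rw [Pi.add_apply]
      push_cast
      ring
    · congr 1
      rw [Pi.add_apply]
      push_cast
      ring
  unfold k7_Op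
  rw [e1, k7_mac_sum]
  unfold k7_E
  rw [Finset.mul_sum, Finset.mul_sum]
  refine Finset.sum_le_sum fun i _ => ?_
  rw [one_mul, mac_add]
  have h1 := mac_exp ha₂ ha₁ hb₂ hb₁ r lam habs i
  have h2 := mac_exp ha₂ ha₁ hb₂ hb₁ r (-lam) habs' i
  rw [← hM] at h1 h2
  have h3 : Real.exp (lam * ((x i : ℝ) - c' - D')) *
      (M * Real.exp ((2 * r * lam + 4 * r ^ 2 * lam ^ 2) / d)) =
      M * (Real.exp (4 * r ^ 2 * lam ^ 2 / d) * Real.exp (lam * ((x i : ℝ) - c - D'))) := by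
    rw [mul_left_comm, ← Real.exp_add, ← Real.exp_add, hc]
    congr 2
    ring
  have h4 : Real.exp (-lam * ((x i : ℝ) - c' + D')) *
      (M * Real.exp ((2 * r * (-lam) + 4 * r ^ 2 * (-lam) ^ 2) / d)) =
      M * (Real.exp (4 * r ^ 2 * lam ^ 2 / d) * Real.exp (-lam * ((x i : ℝ) - c + D'))) := by
    rw [mul_left_comm, ← Real.exp_add, ← Real.exp_add, hc]
    congr 2
    ring
  have h5 := mul_le_mul_of_nonneg_left h1 (Real.exp_pos (lam * ((x i : ℝ) - c' - D'))).le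
  have h6 := mul_le_mul_of_nonneg_left h2 (Real.exp_pos (-lam * ((x i : ℝ) - c' + D'))).le
  rw [h3] at h5
  rw [h4] at h6
  calc _ ≤ _ := add_le_add h5 h6
    _ = _ := by ring

/-- the average after `s` macro steps -/
noncomputable def k7_c (d X r s : ℕ) : ℝ := X + 2 * r * s / d

theorem k7_good_of {X r s D' : ℕ} {lam : ℝ} (hlam : 0 < lam) {x : Fin d → ℕ}
    (hx : ∑ i, x i = d * X + 2 * r * s) (h : ¬ Good X r s D' x) :
    1 ≤ k7_E lam D' (k7_c d X r s) x := by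
  unfold Good at h
  push Not at h
  obtain ⟨i, hi⟩ := h hx
  exact k7_E_one hlam hi

/-- lower bound for the probability to stay good -/
theorem k7_W_ge {a₂ a₁ b₂ b₁ : ℝ} (ha₂ : 0 ≤ a₂) (ha₁ : 0 ≤ a₁) (hb₂ : 0 ≤ b₂)
    (hb₁ : 0 ≤ b₁) {r : ℕ} {lam : ℝ} (hlam0 : 0 < lam) (hlam1 : lam * (2 * r) ≤ 1)
    (hw : ∀ m S : Finset (Fin d), 0 ≤ wS a₂ a₁ b₂ b₁ m S) (X S D' : ℕ) (j : ℕ) (hj : j ≤ S)
    (x : Fin d → ℕ) (hx : ∑ i, x i = d * X + 2 * r * (S - j)) :
    mac (d := d) (wS a₂ a₁ b₂ b₁) (fun _ => 1) r r ∅ ∅ ∅ 0 ^ j *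
      (1 - (∑ i ∈ Finset.range (j + 1), Real.exp (4 * r ^ 2 * lam ^ 2 / d) ^ i) *
        k7_E lam D' (k7_c d X r (S - j)) x) ≤ k7_W (wS a₂ a₁ b₂ b₁) X r S D' j x := by
  set M := mac (d := d) (wS a₂ a₁ b₂ b₁) (fun _ => 1) r r ∅ ∅ ∅ 0 with hM
  have hM0 : 0 ≤ M := k7_mac_nonneg hw (fun _ => zero_le_one) r
  set θ := Real.exp (4 * r ^ 2 * lam ^ 2 / d) with hθ
  have hθ0 : 0 < θ := Real.exp_pos _
  have hT : ∀ j : ℕ, 1 ≤ ∑ i ∈ Finset.range (j + 1), θ ^ i := by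
    intro j
    have h := Finset.single_le_sum (f := fun i : ℕ => θ ^ i) (s := Finset.range (j + 1))
      (fun i _ => pow_nonneg hθ0.le i) (Finset.mem_range.mpr (Nat.succ_pos j))
    simpa using h
  induction j generalizing x with
  | zero =>
    simp only [k7_W, pow_zero, one_mul]
    have hE := k7_E_nonneg lam D' (k7_c d X r (S - 0)) x
    have hT0 := hT 0
    split_ifs with hg
    · nlinarith [mul_nonneg (by linarith : (0:ℝ) ≤ ∑ i ∈ Finset.range (0 + 1), θ ^ i) hE]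
    · have h1 := k7_good_of hlam0 (s := S) (by simpa using hx) hg
      have h2 : k7_E lam D' (k7_c d X r (S - 0)) x = k7_E lam D' (k7_c d X r S) x := by
        rw [Nat.sub_zero]
      rw [h2]
      nlinarith
  | succ j ih =>
    have hE := k7_E_nonneg lam D' (k7_c d X r (S - (j + 1))) x
    have hT1 := hT (j + 1)
    simp only [k7_W]
    split_ifs with hg
    · have hsub : S - j = S - (j + 1) + 1 := by omega
      set T := ∑ i ∈ Finset.range (j + 1), θ ^ i with hTd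
      have hstep : k7_Op (wS a₂ a₁ b₂ b₁) r
          (fun x => M ^ j * (1 - T * k7_E lam D' (k7_c d X r (S - j)) x)) x ≤
          k7_Op (wS a₂ a₁ b₂ b₁) r (k7_W (wS a₂ a₁ b₂ b₁) X r S D' j) x := by
        unfold k7_Op
        classical
        have e : mac (wS a₂ a₁ b₂ b₁)
            (fun κ => M ^ j * (1 - T * k7_E lam D' (k7_c d X r (S - j)) (x + κ))) r r ∅ ∅ ∅ 0 =
            mac (wS a₂ a₁ b₂ b₁) (fun κ => if ∑ i, κ i = 2 * r then
              M ^ j * (1 - T * k7_E lam D' (k7_c d X r (S - j)) (x + κ)) else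
              k7_W (wS a₂ a₁ b₂ b₁) X r S D' j (x + κ)) r r ∅ ∅ ∅ 0 := by
          refine mac_congr r r ∅ ∅ ∅ 0 fun κ' hκ _ => ?_
          rw [if_pos]
          simpa using hκ
        rw [e]
        refine mac_mono hw (fun κ => ?_) r r ∅ ∅ ∅ 0
        split_ifs with hκ
        · refine ih (by omega) (x + κ) ?_
          simp only [Pi.add_apply, Finset.sum_add_distrib]
          rw [hx, hκ, hsub]
          ring
        · exact le_refl _
      refine le_trans ?_ hstep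
      have hlin : k7_Op (wS a₂ a₁ b₂ b₁) r
          (fun x => M ^ j * (1 - T * k7_E lam D' (k7_c d X r (S - j)) x)) x =
          M ^ j * (M - T * k7_Op (wS a₂ a₁ b₂ b₁) r
            (k7_E lam D' (k7_c d X r (S - j))) x) := by
        unfold k7_Op
        rw [k7_mac_smul (wS a₂ a₁ b₂ b₁)
          (fun κ => 1 - T * k7_E lam D' (k7_c d X r (S - j)) (x + κ)) (M ^ j) r]
        have h := mac_add (wS a₂ a₁ b₂ b₁) (fun _ => 1)
          (fun κ => k7_E lam D' (k7_c d X r (S - j)) (x + κ)) 1 (-T) r r ∅ ∅ ∅ 0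
        rw [← hM] at h
        have e : (fun κ => 1 - T * k7_E lam D' (k7_c d X r (S - j)) (x + κ)) =
            fun κ => 1 * 1 + -T * k7_E lam D' (k7_c d X r (S - j)) (x + κ) := by
          funext κ
          ring
        rw [e, h]
        ring
      rw [hlin]
      have hOp := k7_Op_E ha₂ ha₁ hb₂ hb₁ hlam0 hlam1 D' (k7_c d X r (S - (j + 1)))
        (k7_c d X r (S - j)) (by
          unfold k7_c
          rw [hsub]
          push_cast
          ring) x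
      rw [← hM, ← hθ] at hOp
      have hT2 : ∑ i ∈ Finset.range (j + 1 + 1), θ ^ i = θ * T + 1 := by
        rw [Finset.sum_range_succ', hTd, Finset.mul_sum, pow_zero]
        congr 1
        refine Finset.sum_congr rfl fun i _ => ?_
        rw [pow_succ]
        ring
      rw [hT2, pow_succ, mul_assoc]
      refine mul_le_mul_of_nonneg_left ?_ (pow_nonneg hM0 j)
      have hT0 : 0 ≤ T := by linarith [hT j]
      have h5 := mul_le_mul_of_nonneg_left hOp hT0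
      have h6 : 0 ≤ M * k7_E lam D' (k7_c d X r (S - (j + 1))) x := mul_nonneg hM0 hE
      nlinarith
    · have h1 := k7_good_of hlam0 hx hg
      refine mul_nonpos_of_nonneg_of_nonpos (pow_nonneg hM0 _) ?_
      nlinarith

/-- the value of the remaining steps can be achieved -/
theorem k7_ach {p δ : ℝ} (hp0 : 0 < p) (hp1 : p ≤ 1 / 2) {z : Vtx n d}
    {g : Finset (Vtx n d) → ℝ} {v : ℝ} (hv : 0 ≤ v) {a₂ a₁ b₂ b₁ : ℝ} (ha₂ : 0 ≤ a₂)
    (ha₁ : 0 ≤ a₁) (hb₂ : 0 ≤ b₂) (hb₁ : 0 ≤ b₁) {X r S D' y : ℕ}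
    (hw : ∀ m S : Finset (Fin d), 0 ≤ wS a₂ a₁ b₂ b₁ m S)
    (ω : ℕ → ℝ) (hω : ∀ s, 0 ≤ ω s) (hroom : Room (y + 4) z)
    (hok : ∀ s < S, ∀ x : Fin d → ℕ, Good X r s D' x →
      MOK p δ (ω s * a₂) (ω s * a₁) (ω s * b₂) (ω s * b₁) r y x)
    (hend : ∀ x Z T, Good X r S D' x → Dst z x Z T → Ach p g Z T v) (j : ℕ) (hj : j ≤ S) :
    AchD p z g (fun x => (v * ∏ s ∈ Finset.Ico (S - j) S, (Real.exp (-(δ * r)) * ω s ^ r)) *
      k7_W (wS a₂ a₁ b₂ b₁) X r S D' j x) := by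
  induction j with
  | zero =>
    intro x Z T hD
    simp only [k7_W, Nat.sub_zero, Finset.Ico_self, Finset.prod_empty, mul_one]
    split_ifs with hg
    · rw [mul_one]
      exact hend x Z T hg hD
    · rw [mul_zero]
      exact Ach.zero
  | succ j ih =>
    intro x Z T hD
    have ih' := ih (by omega)
    simp only [k7_W]
    split_ifs with hg
    · have hM := hok (S - (j + 1)) (by omega) x hg
      set s := S - (j + 1) with hs
      set c := v * ∏ s ∈ Finset.Ico (S - j) S, (Real.exp (-(δ * r)) * ω s ^ r) with hc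
      have hc0 : 0 ≤ c := by
        rw [hc]
        refine mul_nonneg hv (Finset.prod_nonneg fun i _ => ?_)
        exact mul_nonneg (Real.exp_pos _).le (pow_nonneg (hω i) r)
      have h := macro_step hp0 hp1
        (fun x => mul_nonneg hc0 (k7_W_nonneg hw X r S D' j x)) ih'
        (mul_nonneg (hω s) ha₂) (mul_nonneg (hω s) ha₁) (mul_nonneg (hω s) hb₂)
        (mul_nonneg (hω s) hb₁) hroom hM hD
      have e : wS (d := d) (ω s * a₂) (ω s * a₁) (ω s * b₂) (ω s * b₁) =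
          fun m S => ω s * wS a₂ a₁ b₂ b₁ m S := by
        funext m S
        unfold wS
        split_ifs <;> rfl
      rw [e, mac_scale, k7_mac_smul (wS a₂ a₁ b₂ b₁)
        (fun κ => k7_W (wS a₂ a₁ b₂ b₁) X r S D' j (x + κ)) c r] at h
      have hprod : ∏ s ∈ Finset.Ico s S, (Real.exp (-(δ * r)) * ω s ^ r) =
          (Real.exp (-(δ * r)) * ω s ^ r) *
            ∏ s ∈ Finset.Ico (S - j) S, (Real.exp (-(δ * r)) * ω s ^ r) := by
        rw [Finset.prod_eq_prod_Ico_succ_bot (by omega : s < S)]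
        congr 2
        congr 1
        omega
      rw [hprod]
      refine h.mono (le_of_eq ?_)
      unfold k7_Op
      rw [hc]
      ring
    · rw [mul_zero]
      exact Ach.zero

/-- many macro steps -/
theorem macro_run {p δ : ℝ} (hp0 : 0 < p) (hp1 : p ≤ 1 / 2) (hδ : 0 ≤ δ) {z : Vtx n d}
    {g : Finset (Vtx n d) → ℝ} {v : ℝ} (hv : 0 ≤ v) {α₂ α₁ β₂ β₁ : ℝ} (hα₂ : 0 ≤ α₂)
    (hα₁ : 0 ≤ α₁) (hβ₂ : 0 ≤ β₂) (hβ₁ : 0 ≤ β₁) {X r S D' y : ℕ} (hd : 1 ≤ d) (hr : 1 ≤ r)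
    (ω : ℕ → ℝ) (hω : ∀ s, 0 ≤ ω s) (hroom : Room (y + 4) z)
    (hok : ∀ s < S, ∀ x : Fin d → ℕ, Good X r s D' x →
      MOK p δ (ω s * (α₂ / d ^ 2)) (ω s * (α₁ / d)) (ω s * (β₂ / d)) (ω s * β₁) r y x)
    {lam : ℝ} (hlam0 : 0 < lam) (hlam1 : lam * (2 * r) ≤ 1)
    (hch : 2 * d * ((S : ℝ) + 1) * Real.exp (-(lam * D') + 4 * r ^ 2 * lam ^ 2 * S / d) ≤ 1 / 2)
    (hend : ∀ x Z T, Good X r S D' x → Dst z x Z T → Ach p g Z T v) :
    ∀ Z T, Dst z (fun _ => X) Z T → Ach p g Z T (1 / 2 *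
      (∏ s ∈ Finset.range S, (Real.exp (-(δ * r)) * ω s ^ r)) *
      mac (d := d) (wS (α₂ / d ^ 2) (α₁ / d) (β₂ / d) β₁) (fun _ => 1) r r ∅ ∅ ∅ 0 ^ S * v) := by
  intro Z T hD
  have ha₂ : 0 ≤ α₂ / (d : ℝ) ^ 2 := by positivity
  have ha₁ : 0 ≤ α₁ / (d : ℝ) := by positivity
  have hb₂ : 0 ≤ β₂ / (d : ℝ) := by positivity
  have hw : ∀ m S : Finset (Fin d), 0 ≤ wS (α₂ / d ^ 2) (α₁ / d) (β₂ / d) β₁ m S := by
    intro m S
    unfold wS
    split_ifs <;> assumption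
  have h := k7_ach hp0 hp1 hv ha₂ ha₁ hb₂ hβ₁ hw ω hω hroom hok hend S le_rfl
    (fun _ => X) Z T hD
  refine h.mono ?_
  have hge := k7_W_ge ha₂ ha₁ hb₂ hβ₁ hlam0 hlam1 hw X S D' S le_rfl (fun _ => X) (by simp)
  set M := mac (d := d) (wS (α₂ / d ^ 2) (α₁ / d) (β₂ / d) β₁) (fun _ => 1) r r ∅ ∅ ∅ 0
    with hM
  have hM0 : 0 ≤ M := k7_mac_nonneg hw (fun _ => zero_le_one) r
  set θ := Real.exp (4 * r ^ 2 * lam ^ 2 / d) with hθ
  have hθ1 : 1 ≤ θ := Real.one_le_exp (by positivity)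
  have hT : ∑ i ∈ Finset.range (S + 1), θ ^ i ≤ ((S : ℝ) + 1) * θ ^ S := by
    calc ∑ i ∈ Finset.range (S + 1), θ ^ i ≤ ∑ i ∈ Finset.range (S + 1), θ ^ S :=
          Finset.sum_le_sum fun i hi =>
            pow_le_pow_right₀ hθ1 (by have := Finset.mem_range.mp hi; omega)
      _ = ((S : ℝ) + 1) * θ ^ S := by
          rw [Finset.sum_const, Finset.card_range, nsmul_eq_mul]
          push_cast
          ring
  have hE : k7_E (d := d) lam D' (k7_c d X r (S - S)) (fun _ => X) =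
      2 * d * Real.exp (-(lam * D')) := by
    unfold k7_E k7_c
    rw [Nat.sub_self]
    have e1 : lam * ((X : ℝ) - ((X : ℝ) + 2 * r * ((0 : ℕ) : ℝ) / d) - D') = -(lam * D') := by
      push_cast
      ring
    have e2 : -lam * ((X : ℝ) - ((X : ℝ) + 2 * r * ((0 : ℕ) : ℝ) / d) + D') = -(lam * D') := by
      push_cast
      ring
    simp only [e1, e2]
    rw [Finset.sum_const, Finset.card_univ, Fintype.card_fin, nsmul_eq_mul]
    ring
  have hTE : (∑ i ∈ Finset.range (S + 1), θ ^ i) *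
      k7_E (d := d) lam D' (k7_c d X r (S - S)) (fun _ => X) ≤ 1 / 2 := by
    rw [hE]
    refine le_trans (mul_le_mul_of_nonneg_right hT (by positivity)) ?_
    refine le_trans (le_of_eq ?_) hch
    rw [Real.exp_add, hθ, ← Real.exp_nat_mul]
    have : (S : ℝ) * (4 * r ^ 2 * lam ^ 2 / d) = 4 * r ^ 2 * lam ^ 2 * S / d := by ring
    rw [this]
    ring
  have hW : M ^ S * (1 / 2) ≤ k7_W (d := d) (wS (α₂ / d ^ 2) (α₁ / d) (β₂ / d) β₁) X r S D' S
      (fun _ => X) := by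
    refine le_trans (mul_le_mul_of_nonneg_left ?_ (pow_nonneg hM0 S)) hge
    linarith
  have hc0 : 0 ≤ v * ∏ s ∈ Finset.Ico (S - S) S, (Real.exp (-(δ * r)) * ω s ^ r) :=
    mul_nonneg hv (Finset.prod_nonneg fun i _ =>
      mul_nonneg (Real.exp_pos _).le (pow_nonneg (hω i) r))
  refine le_trans (le_of_eq ?_) (mul_le_mul_of_nonneg_left hW hc0)
  rw [Nat.sub_self, ← Finset.range_eq_Ico]
  ring

end Pool.Agent.Lib.MP_8501c9_pr.Deep
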