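import Pool.Agent.Lib.MP_8501c9_pr.Deep.Defs2
import Mathlib.Algebra.Polynomial.Coeff

/-!
# K5: a lower bound for the total mass of a macro step (MP_8501c9_pr, Deep)
-/

set_option autoImplicit false
open Set

namespace Pool.Agent.Lib.MP_8501c9_pr.Deep

open Pool.Agent.Lib.MP_8501c9_pr Pool.Agent.Lib.MP_8501c9_pr.Mid
open Pool.Agent.Lib.MP_8501c9_pr.Wide

variable {n d : ℕ}

/-! ### coefficientwise order of polynomials -/

/-- coefficientwise order -/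
def K5le (p q : Polynomial ℝ) : Prop := ∀ n, p.coeff n ≤ q.coeff n

theorem k5_refl (p : Polynomial ℝ) : K5le p p := fun _ => le_rfl

theorem k5_trans {p q r : Polynomial ℝ} (h : K5le p q) (h' : K5le q r) : K5le p r :=
  fun n => (h n).trans (h' n)

theorem k5_add {p q p' q' : Polynomial ℝ} (h : K5le p q) (h' : K5le p' q') :
    K5le (p + p') (q + q') := by
  intro n
  rw [Polynomial.coeff_add, Polynomial.coeff_add]
  exact add_le_add (h n) (h' n)

theorem k5_sum {ι : Type*} (s : Finset ι) {p q : ι → Polynomial ℝ}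
    (h : ∀ i ∈ s, K5le (p i) (q i)) : K5le (∑ i ∈ s, p i) (∑ i ∈ s, q i) := by
  intro n
  rw [Polynomial.finsetSum_coeff, Polynomial.finsetSum_coeff]
  exact Finset.sum_le_sum fun i hi => h i hi n

theorem k5_mul {p q p' q' : Polynomial ℝ} (h0 : K5le 0 q) (h0' : K5le 0 p')
    (h : K5le p q) (h' : K5le p' q') : K5le (p * p') (q * q') := by
  intro n
  rw [Polynomial.coeff_mul, Polynomial.coeff_mul]
  refine Finset.sum_le_sum fun x _ => ?_
  have h1 := h0 x.1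
  have h2 := h0' x.2
  rw [Polynomial.coeff_zero] at h1 h2
  exact mul_le_mul (h x.1) (h' x.2) h2 h1

theorem k5_nonneg_mul {p q : Polynomial ℝ} (h0 : K5le 0 p) (h0' : K5le 0 q) :
    K5le 0 (p * q) := by
  intro n
  rw [Polynomial.coeff_mul, Polynomial.coeff_zero]
  refine Finset.sum_nonneg fun x _ => ?_
  have h1 := h0 x.1
  have h2 := h0' x.2
  rw [Polynomial.coeff_zero] at h1 h2
  exact mul_nonneg h1 h2

theorem k5_nonneg_add {p q : Polynomial ℝ} (h0 : K5le 0 p) (h0' : K5le 0 q) :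
    K5le 0 (p + q) := by
  have := k5_add h0 h0'
  rwa [add_zero] at this

theorem k5_nonneg_C {a : ℝ} (ha : 0 ≤ a) : K5le 0 (Polynomial.C a) := by
  intro n
  rw [Polynomial.coeff_zero, Polynomial.coeff_C]
  split_ifs
  · exact ha
  · exact le_rfl

theorem k5_nonneg_one : K5le 0 (1 : Polynomial ℝ) := by
  have := k5_nonneg_C (a := 1) zero_le_one
  rwa [Polynomial.C_1] at this

theorem k5_nonneg_X : K5le 0 (Polynomial.X : Polynomial ℝ) := by
  intro n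
  rw [Polynomial.coeff_zero, Polynomial.coeff_X]
  split_ifs
  · exact zero_le_one
  · exact le_rfl

theorem k5_nonneg_pow {p : Polynomial ℝ} (h0 : K5le 0 p) (k : ℕ) : K5le 0 (p ^ k) := by
  induction k with
  | zero => rw [pow_zero]; exact k5_nonneg_one
  | succ k ih => rw [pow_succ]; exact k5_nonneg_mul ih h0

theorem k5_nonneg_sum {ι : Type*} (s : Finset ι) {p : ι → Polynomial ℝ}
    (h : ∀ i ∈ s, K5le 0 (p i)) : K5le 0 (∑ i ∈ s, p i) := by
  have := k5_sum (p := fun _ => 0) s h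
  simpa using this

theorem k5_nonneg_prod {ι : Type*} (s : Finset ι) {p : ι → Polynomial ℝ}
    (h : ∀ i ∈ s, K5le 0 (p i)) : K5le 0 (∏ i ∈ s, p i) := by
  classical
  induction s using Finset.induction_on with
  | empty => rw [Finset.prod_empty]; exact k5_nonneg_one
  | insert i s hi ih =>
    rw [Finset.prod_insert hi]
    exact k5_nonneg_mul (h i (Finset.mem_insert_self i s))
      (ih fun j hj => h j (Finset.mem_insert_of_mem hj))

theorem k5_pow {p q : Polynomial ℝ} (h0 : K5le 0 p) (h : K5le p q) (k : ℕ) :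
    K5le (p ^ k) (q ^ k) := by
  induction k with
  | zero => rw [pow_zero, pow_zero]; exact k5_refl _
  | succ k ih =>
    rw [pow_succ, pow_succ]
    exact k5_mul (k5_nonneg_pow (k5_trans h0 h) k) h0 ih h

theorem k5_C_mul {a : ℝ} (ha : 0 ≤ a) {p q : Polynomial ℝ} (h : K5le p q) :
    K5le (Polynomial.C a * p) (Polynomial.C a * q) := by
  intro n
  rw [Polynomial.coeff_C_mul, Polynomial.coeff_C_mul]
  exact mul_le_mul_of_nonneg_left (h n) ha

theorem k5_Pk_nonneg (K : ℕ) {a : Polynomial ℝ} (h : K5le 0 a) : K5le 0 (Pk K a) := by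
  unfold Pk
  exact k5_nonneg_sum _ fun i _ => k5_nonneg_mul (k5_nonneg_C (by positivity))
    (k5_nonneg_pow h i)

theorem k5_Pk_mono (K : ℕ) {a b : Polynomial ℝ} (h0 : K5le 0 a) (h : K5le a b) :
    K5le (Pk K a) (Pk K b) := by
  unfold Pk
  exact k5_sum _ fun i _ => k5_C_mul (by positivity) (k5_pow h0 h i)

/-! ### the polynomials of the trees -/

section tp

variable {α₂ α₁ β₂ β₁ : ℝ}

/-- the exponent -/
noncomputable def k5A (α₂ α₁ : ℝ) (t : Polynomial ℝ × Polynomial ℝ) : Polynomial ℝ :=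
  Polynomial.C (α₂ / 2) * t.1 + Polynomial.C α₁ * t.2

/-- the slots -/
noncomputable def k5G (β₂ β₁ : ℝ) (t : Polynomial ℝ × Polynomial ℝ) : Polynomial ℝ :=
  Polynomial.C β₂ * t.1 + Polynomial.C β₁ * t.2

/-- one step of the recursion -/
noncomputable def k5T (α₂ α₁ β₂ β₁ : ℝ) (K : ℕ) (t : Polynomial ℝ × Polynomial ℝ) :
    Polynomial ℝ × Polynomial ℝ :=
  (Polynomial.X * Pk K (k5A α₂ α₁ t) * (1 + k5G β₂ β₁ t) ^ 2,
    Polynomial.X * Pk K (k5A α₂ α₁ t) * (1 + k5G β₂ β₁ t))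

theorem k5_tp_succ (K k : ℕ) : tp α₂ α₁ β₂ β₁ K (k + 1) =
    k5T α₂ α₁ β₂ β₁ K (tp α₂ α₁ β₂ β₁ K k) := by
  simp only [tp, k5A, k5G, k5T, add_assoc]

theorem k5_A_nonneg (hα₂ : 0 ≤ α₂) (hα₁ : 0 ≤ α₁) {t : Polynomial ℝ × Polynomial ℝ}
    (h1 : K5le 0 t.1) (h2 : K5le 0 t.2) : K5le 0 (k5A α₂ α₁ t) :=
  k5_nonneg_add (k5_nonneg_mul (k5_nonneg_C (by positivity)) h1)
    (k5_nonneg_mul (k5_nonneg_C hα₁) h2)

theorem k5_G_nonneg (hβ₂ : 0 ≤ β₂) (hβ₁ : 0 ≤ β₁) {t : Polynomial ℝ × Polynomial ℝ}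
    (h1 : K5le 0 t.1) (h2 : K5le 0 t.2) : K5le 0 (k5G β₂ β₁ t) :=
  k5_nonneg_add (k5_nonneg_mul (k5_nonneg_C hβ₂) h1)
    (k5_nonneg_mul (k5_nonneg_C hβ₁) h2)

theorem k5_A_mono (hα₂ : 0 ≤ α₂) (hα₁ : 0 ≤ α₁) {t t' : Polynomial ℝ × Polynomial ℝ}
    (h1 : K5le t.1 t'.1) (h2 : K5le t.2 t'.2) : K5le (k5A α₂ α₁ t) (k5A α₂ α₁ t') :=
  k5_add (k5_C_mul (by positivity) h1) (k5_C_mul hα₁ h2)

theorem k5_G_mono (hβ₂ : 0 ≤ β₂) (hβ₁ : 0 ≤ β₁) {t t' : Polynomial ℝ × Polynomial ℝ}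
    (h1 : K5le t.1 t'.1) (h2 : K5le t.2 t'.2) : K5le (k5G β₂ β₁ t) (k5G β₂ β₁ t') :=
  k5_add (k5_C_mul hβ₂ h1) (k5_C_mul hβ₁ h2)

theorem k5_one_add_nonneg {p : Polynomial ℝ} (h : K5le 0 p) : K5le 0 (1 + p) :=
  k5_nonneg_add k5_nonneg_one h

theorem k5_T_nonneg (hα₂ : 0 ≤ α₂) (hα₁ : 0 ≤ α₁) (hβ₂ : 0 ≤ β₂) (hβ₁ : 0 ≤ β₁) (K : ℕ)
    {t : Polynomial ℝ × Polynomial ℝ} (h1 : K5le 0 t.1) (h2 : K5le 0 t.2) :
    K5le 0 (k5T α₂ α₁ β₂ β₁ K t).1 ∧ K5le 0 (k5T α₂ α₁ β₂ β₁ K t).2 := by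
  have hP := k5_Pk_nonneg K (k5_A_nonneg hα₂ hα₁ h1 h2)
  have hG := k5_one_add_nonneg (k5_G_nonneg hβ₂ hβ₁ h1 h2)
  exact ⟨k5_nonneg_mul (k5_nonneg_mul k5_nonneg_X hP) (k5_nonneg_pow hG 2),
    k5_nonneg_mul (k5_nonneg_mul k5_nonneg_X hP) hG⟩

theorem k5_T_mono (hα₂ : 0 ≤ α₂) (hα₁ : 0 ≤ α₁) (hβ₂ : 0 ≤ β₂) (hβ₁ : 0 ≤ β₁) (K : ℕ)
    {t t' : Polynomial ℝ × Polynomial ℝ} (h01 : K5le 0 t.1) (h02 : K5le 0 t.2)
    (h1 : K5le t.1 t'.1) (h2 : K5le t.2 t'.2) :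
    K5le (k5T α₂ α₁ β₂ β₁ K t).1 (k5T α₂ α₁ β₂ β₁ K t').1 ∧
      K5le (k5T α₂ α₁ β₂ β₁ K t).2 (k5T α₂ α₁ β₂ β₁ K t').2 := by
  have h01' := k5_trans h01 h1
  have h02' := k5_trans h02 h2
  have hA0 := k5_A_nonneg hα₂ hα₁ h01 h02
  have hG0 := k5_one_add_nonneg (k5_G_nonneg hβ₂ hβ₁ h01 h02)
  have hA1 := k5_A_nonneg hα₂ hα₁ h01' h02'
  have hP := k5_Pk_mono K hA0 (k5_A_mono hα₂ hα₁ h1 h2)
  have hG : K5le (1 + k5G β₂ β₁ t) (1 + k5G β₂ β₁ t') :=
    k5_add (k5_refl 1) (k5_G_mono hβ₂ hβ₁ h1 h2)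
  have hXP : K5le (Polynomial.X * Pk K (k5A α₂ α₁ t))
      (Polynomial.X * Pk K (k5A α₂ α₁ t')) :=
    k5_mul k5_nonneg_X (k5_Pk_nonneg K hA0) (k5_refl _) hP
  have hXP0 := k5_nonneg_mul k5_nonneg_X (k5_Pk_nonneg K hA1)
  exact ⟨k5_mul hXP0 (k5_nonneg_pow hG0 2) hXP (k5_pow hG0 hG 2),
    k5_mul hXP0 hG0 hXP hG⟩

theorem k5_tp_nonneg (hα₂ : 0 ≤ α₂) (hα₁ : 0 ≤ α₁) (hβ₂ : 0 ≤ β₂) (hβ₁ : 0 ≤ β₁) (K k : ℕ) :
    K5le 0 (tp α₂ α₁ β₂ β₁ K k).1 ∧ K5le 0 (tp α₂ α₁ β₂ β₁ K k).2 := by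
  induction k with
  | zero =>
    have e : tp α₂ α₁ β₂ β₁ K 0 = (0, 0) := by simp only [tp]
    rw [e]
    exact ⟨k5_refl _, k5_refl _⟩
  | succ k ih =>
    rw [k5_tp_succ]
    exact k5_T_nonneg hα₂ hα₁ hβ₂ hβ₁ K ih.1 ih.2

theorem k5_tp_mono (hα₂ : 0 ≤ α₂) (hα₁ : 0 ≤ α₁) (hβ₂ : 0 ≤ β₂) (hβ₁ : 0 ≤ β₁) (K k : ℕ) :
    K5le (tp α₂ α₁ β₂ β₁ K k).1 (tp α₂ α₁ β₂ β₁ K (k + 1)).1 ∧
      K5le (tp α₂ α₁ β₂ β₁ K k).2 (tp α₂ α₁ β₂ β₁ K (k + 1)).2 := by
  induction k with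
  | zero =>
    have h := k5_tp_nonneg hα₂ hα₁ hβ₂ hβ₁ K (0 + 1)
    have e : tp α₂ α₁ β₂ β₁ K 0 = (0, 0) := by simp only [tp]
    rw [e]
    exact h
  | succ k ih =>
    have h0 := k5_tp_nonneg hα₂ hα₁ hβ₂ hβ₁ K k
    have h := k5_T_mono hα₂ hα₁ hβ₂ hβ₁ K h0.1 h0.2 ih.1 ih.2
    rw [← k5_tp_succ K k, ← k5_tp_succ K (k + 1)] at h
    exact h

theorem k5_tp_zero (K k : ℕ) : (tp α₂ α₁ β₂ β₁ K k).1.coeff 0 = 0 ∧
    (tp α₂ α₁ β₂ β₁ K k).2.coeff 0 = 0 := by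
  cases k with
  | zero => simp [tp]
  | succ k =>
    rw [k5_tp_succ]
    constructor
    · simp only [k5T, Polynomial.mul_coeff_zero, Polynomial.coeff_X_zero, zero_mul]
    · simp only [k5T, Polynomial.mul_coeff_zero, Polynomial.coeff_X_zero, zero_mul]

theorem k5_Pk_zero (K : ℕ) {a : Polynomial ℝ} (h : a.coeff 0 = 0) : (Pk K a).coeff 0 = 1 := by
  unfold Pk
  rw [Polynomial.finsetSum_coeff, Finset.sum_range_succ']
  rw [Finset.sum_eq_zero]
  · simp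
  · intro i _
    rw [Polynomial.coeff_C_mul, pow_succ, Polynomial.mul_coeff_zero, h, mul_zero, mul_zero]

end tp

/-! ### inserting one set into a family -/

theorem k5_ins {D : Type*} [DecidableEq D] (𝓐 𝓑 : Finset (Finset D)) (c : Finset D → Finset D)
    (q : D → Prop) [DecidablePred q] (N : ℕ) (f : Finset D → ℝ) (hf : ∀ B, 0 ≤ f B)
    (h1 : ∀ B ∈ 𝓐, ∀ S ∈ c B, S ∉ B ∧ q S ∧ insert S B ∈ 𝓑)
    (h2 : ∀ B ∈ 𝓑, (B.filter q).card ≤ N) :
    ∑ B ∈ 𝓐, ∑ S ∈ c B, f (insert S B) ≤ N * ∑ B ∈ 𝓑, f B := by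
  have e1 : ∑ B ∈ 𝓐, ∑ S ∈ c B, f (insert S B) =
      ∑ x ∈ 𝓐.sigma c, f (insert x.2 x.1) := by
    rw [Finset.sum_sigma]
  have e2 : ∑ x ∈ 𝓐.sigma c, f (insert x.2 x.1) =
      ∑ y ∈ (𝓐.sigma c).image (fun x : (Σ _ : Finset D, D) => (insert x.2 x.1, x.2)),
        f y.1 := by
    rw [Finset.sum_image]
    intro x hx y hy hxy
    rw [Finset.mem_coe, Finset.mem_sigma] at hx hy
    simp only [Prod.mk.injEq] at hxy
    obtain ⟨hxy1, hxy2⟩ := hxy
    have hx1 := (h1 x.1 hx.1 x.2 hx.2).1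
    have hy1 := (h1 y.1 hy.1 y.2 hy.2).1
    obtain ⟨a, s⟩ := x
    obtain ⟨b, t⟩ := y
    simp only at hxy1 hxy2 hx1 hy1
    subst hxy2
    have : a = b := by
      rw [← Finset.erase_insert hx1, ← Finset.erase_insert hy1, hxy1]
    rw [this]
  have e3 : ∑ y ∈ (𝓐.sigma c).image (fun x : (Σ _ : Finset D, D) => (insert x.2 x.1, x.2)),
        f y.1 ≤ ∑ B ∈ 𝓑, ∑ S ∈ B.filter q, f B := by
    rw [Finset.sum_sigma' (s := 𝓑) (t := fun B => B.filter q) (f := fun B _ => f B)]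
    have : ∑ x ∈ 𝓑.sigma (fun B => B.filter q), f x.1 =
        ∑ y ∈ (𝓑.sigma (fun B => B.filter q)).image
          (fun x : (Σ _ : Finset D, D) => (x.1, x.2)), f y.1 := by
      rw [Finset.sum_image]
      intro x _ y _ hxy
      simp only [Prod.mk.injEq] at hxy
      exact Sigma.ext hxy.1 (heq_of_eq hxy.2)
    rw [this]
    refine Finset.sum_le_sum_of_subset_of_nonneg ?_ (fun y _ _ => hf y.1)
    intro y hy
    rw [Finset.mem_image] at hy ⊢
    obtain ⟨x, hx, rfl⟩ := hy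
    rw [Finset.mem_sigma] at hx
    obtain ⟨g1, g2, g3⟩ := h1 x.1 hx.1 x.2 hx.2
    refine ⟨⟨insert x.2 x.1, x.2⟩, ?_, rfl⟩
    rw [Finset.mem_sigma, Finset.mem_filter]
    exact ⟨g3, Finset.mem_insert_self _ _, g2⟩
  have e4 : ∑ B ∈ 𝓑, ∑ S ∈ B.filter q, f B ≤ N * ∑ B ∈ 𝓑, f B := by
    rw [Finset.mul_sum]
    refine Finset.sum_le_sum fun B hB => ?_
    rw [Finset.sum_const, nsmul_eq_mul]
    exact mul_le_mul_of_nonneg_right (by exact_mod_cast h2 B hB) (hf B)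
  rw [e1, e2]
  exact e3.trans e4

/-- the weighted sum over a set of families -/
noncomputable def k5Phi (w : Finset (Fin d) → ℝ) (u : Finset (Fin d) → Polynomial ℝ) (N : ℕ)
    (𝓑 : Finset (Finset (Finset (Fin d)))) (Q : Polynomial ℝ) : ℝ :=
  ∑ B ∈ 𝓑, (∏ S ∈ B, w S) * (Q * ∏ S ∈ B, u S).coeff N

theorem k5_step {w : Finset (Fin d) → ℝ} (hw : ∀ S, 0 ≤ w S)
    {u : Finset (Fin d) → Polynomial ℝ} (hu : ∀ S, K5le 0 (u S)) (N : ℕ)
    (𝓐 𝓑 : Finset (Finset (Finset (Fin d)))) (c : Finset (Finset (Fin d)) →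
      Finset (Finset (Fin d))) (q : Finset (Fin d) → Prop) [DecidablePred q] (M : ℕ)
    {Q G : Polynomial ℝ} (hQ : K5le 0 Q) (θ : ℝ)
    (h1 : ∀ B ∈ 𝓐, ∀ S ∈ c B, S ∉ B ∧ q S ∧ insert S B ∈ 𝓑)
    (h2 : ∀ B ∈ 𝓑, (B.filter q).card ≤ M)
    (h3 : ∀ B ∈ 𝓐, K5le (Polynomial.C θ * G) (∑ S ∈ c B, Polynomial.C (w S) * u S)) :
    θ * k5Phi w u N 𝓐 (Q * G) ≤ M * k5Phi w u N 𝓑 Q := by
  have hf : ∀ B : Finset (Finset (Fin d)), 0 ≤ (∏ S ∈ B, w S) * (Q * ∏ S ∈ B, u S).coeff N := by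
    intro B
    refine mul_nonneg (Finset.prod_nonneg fun S _ => hw S) ?_
    have := k5_nonneg_mul hQ (k5_nonneg_prod B (fun S _ => hu S)) N
    rwa [Polynomial.coeff_zero] at this
  refine le_trans ?_ (k5_ins 𝓐 𝓑 c q M (fun B => (∏ S ∈ B, w S) *
    (Q * ∏ S ∈ B, u S).coeff N) hf h1 h2)
  unfold k5Phi
  rw [Finset.mul_sum]
  refine Finset.sum_le_sum fun B hB => ?_
  have e1 : ∑ S ∈ c B, (∏ T ∈ insert S B, w T) * (Q * ∏ T ∈ insert S B, u T).coeff N =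
      (∏ T ∈ B, w T) *
        ((∑ S ∈ c B, Polynomial.C (w S) * u S) * (Q * ∏ T ∈ B, u T)).coeff N := by
    rw [Finset.sum_mul, Polynomial.finsetSum_coeff, Finset.mul_sum]
    refine Finset.sum_congr rfl fun S hS => ?_
    have hSB := (h1 B hB S hS).1
    rw [Finset.prod_insert hSB, Finset.prod_insert hSB]
    rw [show Polynomial.C (w S) * u S * (Q * ∏ T ∈ B, u T) =
      Polynomial.C (w S) * (Q * (u S * ∏ T ∈ B, u T)) by ring, Polynomial.coeff_C_mul]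
    ring
  rw [e1]
  have e2 : θ * ((∏ S ∈ B, w S) * (Q * G * ∏ S ∈ B, u S).coeff N) =
      (∏ S ∈ B, w S) * (Polynomial.C θ * G * (Q * ∏ S ∈ B, u S)).coeff N := by
    rw [show Polynomial.C θ * G * (Q * ∏ S ∈ B, u S) =
      Polynomial.C θ * (Q * G * ∏ S ∈ B, u S) by ring, Polynomial.coeff_C_mul]
    ring
  rw [e2]
  refine mul_le_mul_of_nonneg_left ?_ (Finset.prod_nonneg fun S _ => hw S)
  have hQu := k5_nonneg_mul hQ (k5_nonneg_prod B (fun S _ => hu S))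
  -- right factor is nonnegative
  have h4 := h3 B hB
  rw [Polynomial.coeff_mul, Polynomial.coeff_mul]
  refine Finset.sum_le_sum fun x _ => ?_
  have h5 := hQu x.2
  rw [Polynomial.coeff_zero] at h5
  exact mul_le_mul_of_nonneg_right (h4 x.1) h5

/-! ### families by the number of fresh sets and the slots used -/

open Classical in
/-- families with at most `i` fresh sets and with the slots `M` -/
noncomputable def k5F (U m : Finset (Fin d)) (i : ℕ) (M : Finset (Fin d)) :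
    Finset (Finset (Finset (Fin d))) :=
  Finset.univ.filter (fun B => AdmB U m B ∧ B.card = i + M.card ∧
    (B.filter (fun S => Disjoint S m)).card ≤ i ∧ B.biUnion id ∩ m = M)

theorem k5_mem_F {U m : Finset (Fin d)} {i : ℕ} {M : Finset (Fin d)}
    {B : Finset (Finset (Fin d))} : B ∈ k5F U m i M ↔ (AdmB U m B ∧ B.card = i + M.card ∧
    (B.filter (fun S => Disjoint S m)).card ≤ i ∧ B.biUnion id ∩ m = M) := by
  classical
  unfold k5F
  rw [Finset.mem_filter]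
  constructor
  · rintro ⟨_, h1, h2, h3, h4⟩
    refine ⟨h1, h2, ?_, h4⟩
    convert h3
  · rintro ⟨h1, h2, h3, h4⟩
    refine ⟨Finset.mem_univ _, h1, h2, ?_, h4⟩
    convert h3

/-- free directions -/
def k5free (U : Finset (Fin d)) (B : Finset (Finset (Fin d))) : Finset (Fin d) :=
  Finset.univ \ (U ∪ B.biUnion id)

theorem k5_mem_free {U : Finset (Fin d)} {B : Finset (Finset (Fin d))} {a : Fin d} :
    a ∈ k5free U B ↔ a ∉ U ∧ ∀ T ∈ B, a ∉ T := by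
  unfold k5free
  rw [Finset.mem_sdiff, Finset.mem_union, Finset.mem_biUnion]
  constructor
  · rintro ⟨_, h⟩
    refine ⟨fun h' => h (Or.inl h'), fun T hT hT' => h (Or.inr ⟨T, hT, hT'⟩)⟩
  · rintro ⟨h1, h2⟩
    refine ⟨Finset.mem_univ _, ?_⟩
    rintro (h | ⟨T, hT, hT'⟩)
    · exact h1 h
    · exact h2 T hT hT'

theorem k5_card_free {U m : Finset (Fin d)} {B : Finset (Finset (Fin d))} (hB : AdmB U m B) :
    d ≤ (k5free U B).card + (U.card + 2 * B.card) := by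
  have h1 : (B.biUnion id).card ≤ 2 * B.card := by
    refine (Finset.card_biUnion_le).trans ?_
    rw [mul_comm]
    refine Finset.sum_le_card_nsmul _ _ _ fun S hS => ?_
    have := hB.card S hS
    simp only [id]
    omega
  have h2 : (U ∪ B.biUnion id).card ≤ U.card + 2 * B.card :=
    (Finset.card_union_le _ _).trans (by omega)
  have h3 : (k5free U B).card = d - (U ∪ B.biUnion id).card := by
    unfold k5free
    rw [Finset.card_sdiff_of_subset (Finset.subset_univ _), Finset.card_univ, Fintype.card_fin]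
  omega

theorem k5_adm_insert {U m : Finset (Fin d)} {B : Finset (Finset (Fin d))} (hB : AdmB U m B)
    {S : Finset (Fin d)} (h1 : S.card = 1 ∨ S.card = 2) (h2 : S ∩ U ⊆ m)
    (h3 : (S ∩ m).card ≤ 1) (h4 : ∀ T ∈ B, Disjoint S T) : AdmB U m (insert S B) := by
  refine ⟨?_, ?_, ?_, ?_⟩
  · intro T hT
    rcases Finset.mem_insert.mp hT with rfl | hT
    · exact h1
    · exact hB.card T hT
  · intro T hT
    rcases Finset.mem_insert.mp hT with rfl | hT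
    · exact h2
    · exact hB.used T hT
  · intro T hT
    rcases Finset.mem_insert.mp hT with rfl | hT
    · exact h3
    · exact hB.one T hT
  · rw [Finset.coe_insert]
    refine Set.PairwiseDisjoint.insert hB.dis ?_
    intro T hT _
    exact h4 T hT

theorem k5_not_mem {B : Finset (Finset (Fin d))} {S : Finset (Fin d)} (hS : S.Nonempty)
    (h4 : ∀ T ∈ B, Disjoint S T) : S ∉ B := by
  intro h
  have := h4 S h
  rw [disjoint_self, Finset.bot_eq_empty] at this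
  exact hS.ne_empty this

/-- insertion of a fresh set -/
theorem k5_fresh {U m : Finset (Fin d)} (hmU : m ⊆ U) {i : ℕ} {M : Finset (Fin d)}
    {B : Finset (Finset (Fin d))} (hB : B ∈ k5F U m i M) {S : Finset (Fin d)}
    (hS : S ⊆ k5free U B) (h1 : S.card = 1 ∨ S.card = 2) :
    S ∉ B ∧ Disjoint S m ∧ insert S B ∈ k5F U m (i + 1) M := by
  rw [k5_mem_F] at hB
  obtain ⟨b1, b2, b3, b4⟩ := hB
  have hSU : Disjoint S U := by
    rw [Finset.disjoint_left]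
    intro a ha
    exact (k5_mem_free.mp (hS ha)).1
  have hSm : Disjoint S m := Finset.disjoint_of_subset_right hmU hSU
  have hST : ∀ T ∈ B, Disjoint S T := by
    intro T hT
    rw [Finset.disjoint_left]
    intro a ha
    exact (k5_mem_free.mp (hS ha)).2 T hT
  have hne : S.Nonempty := by
    rw [← Finset.card_pos]
    omega
  have hSB := k5_not_mem hne hST
  refine ⟨hSB, hSm, ?_⟩
  rw [k5_mem_F]
  refine ⟨k5_adm_insert b1 h1 ?_ ?_ hST, ?_, ?_, ?_⟩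
  · rw [Finset.disjoint_iff_inter_eq_empty.mp hSU]
    exact Finset.empty_subset _
  · rw [Finset.disjoint_iff_inter_eq_empty.mp hSm]
    simp
  · rw [Finset.card_insert_of_notMem hSB, b2]
    omega
  · rw [Finset.filter_insert, if_pos hSm]
    refine (Finset.card_insert_le _ _).trans ?_
    omega
  · rw [Finset.biUnion_insert, Finset.union_inter_distrib_right, b4]
    simp only [id]
    rw [Finset.disjoint_iff_inter_eq_empty.mp hSm, Finset.empty_union]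

/-- insertion of a set at a slot -/
theorem k5_slot {U m : Finset (Fin d)} (hmU : m ⊆ U) {M : Finset (Fin d)} {i₀ : Fin d}
    (hi : i₀ ∈ m) (hiM : i₀ ∉ M)
    {B : Finset (Finset (Fin d))} (hB : B ∈ k5F U m 0 M) {S : Finset (Fin d)}
    (hiS : i₀ ∈ S) (hS : ∀ a ∈ S, a = i₀ ∨ a ∈ k5free U B) (h1 : S.card = 1 ∨ S.card = 2) :
    S ∉ B ∧ i₀ ∈ S ∧ insert S B ∈ k5F U m 0 (insert i₀ M) := by
  rw [k5_mem_F] at hB
  obtain ⟨b1, b2, b3, b4⟩ := hB
  have hST : ∀ T ∈ B, Disjoint S T := by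
    intro T hT
    rw [Finset.disjoint_left]
    intro a ha haT
    rcases hS a ha with rfl | h
    · apply hiM
      rw [← b4, Finset.mem_inter, Finset.mem_biUnion]
      exact ⟨⟨T, hT, haT⟩, hi⟩
    · exact (k5_mem_free.mp h).2 T hT haT
  have hne : S.Nonempty := ⟨i₀, hiS⟩
  have hSB := k5_not_mem hne hST
  have hSm : S ∩ m = {i₀} := by
    ext a
    rw [Finset.mem_inter, Finset.mem_singleton]
    constructor
    · rintro ⟨h2, h3⟩
      rcases hS a h2 with rfl | h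
      · rfl
      · exact absurd (hmU h3) (k5_mem_free.mp h).1
    · rintro rfl
      exact ⟨hiS, hi⟩
  have hnd : ¬ Disjoint S m := by
    rw [Finset.disjoint_iff_inter_eq_empty, hSm]
    exact Finset.singleton_ne_empty _
  refine ⟨hSB, hiS, ?_⟩
  rw [k5_mem_F]
  refine ⟨k5_adm_insert b1 h1 ?_ ?_ hST, ?_, ?_, ?_⟩
  · intro a ha
    rw [Finset.mem_inter] at ha
    rcases hS a ha.1 with rfl | h
    · exact hi
    · exact absurd ha.2 (k5_mem_free.mp h).1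
  · rw [hSm, Finset.card_singleton]
  · rw [Finset.card_insert_of_notMem hSB, b2, Finset.card_insert_of_notMem hiM]
    omega
  · rw [Finset.filter_insert, if_neg hnd]
    exact b3
  · rw [Finset.biUnion_insert, Finset.union_inter_distrib_right, b4]
    simp only [id]
    rw [hSm]
    rfl

/-! ### sums over the candidates -/

theorem k5_fresh_sum {α₂ α₁ β₂ β₁ : ℝ} (hα₂ : 0 ≤ α₂) (hα₁ : 0 ≤ α₁) (hd : 1 ≤ d)
    {c₀ : ℕ} {θ : ℝ} (hc : c₀ + 1 ≤ d) (h1 : θ * d ≤ d - c₀)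
    (h2 : θ * (d : ℝ) ^ 2 ≤ (d - c₀) * (d - c₀ - 1)) {F m : Finset (Fin d)}
    (hF : d ≤ F.card + c₀) (hFm : Disjoint F m) {u₁ u₂ : Polynomial ℝ} (hu₁ : K5le 0 u₁)
    (hu₂ : K5le 0 u₂) :
    K5le (Polynomial.C θ * (Polynomial.C (α₂ / 2) * u₁ + Polynomial.C α₁ * u₂))
      (∑ S ∈ F.powersetCard 1 ∪ F.powersetCard 2,
        Polynomial.C (wS (α₂ / d ^ 2) (α₁ / d) (β₂ / d) β₁ m S) *
          (if S.card = 2 then u₁ else u₂)) := by
  have hdis : Disjoint (F.powersetCard 1) (F.powersetCard 2) := by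
    rw [Finset.disjoint_left]
    intro S hS hS'
    rw [Finset.mem_powersetCard] at hS hS'
    omega
  rw [Finset.sum_union hdis]
  have e1 : ∑ S ∈ F.powersetCard 1, Polynomial.C (wS (α₂ / d ^ 2) (α₁ / d) (β₂ / d) β₁ m S) *
      (if S.card = 2 then u₁ else u₂) = Polynomial.C (F.card * (α₁ / d)) * u₂ := by
    rw [Finset.sum_congr rfl (g := fun _ => Polynomial.C (α₁ / d) * u₂)]
    · rw [Finset.sum_const, Finset.card_powersetCard, Nat.choose_one_right, nsmul_eq_mul,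
        Polynomial.C_mul, ← mul_assoc]
      congr 2
    · intro S hS
      rw [Finset.mem_powersetCard] at hS
      have hSm : Disjoint S m := Finset.disjoint_of_subset_left hS.1 hFm
      unfold wS
      rw [if_pos hSm, if_neg (by omega), if_neg (by omega)]
  have e2 : ∑ S ∈ F.powersetCard 2, Polynomial.C (wS (α₂ / d ^ 2) (α₁ / d) (β₂ / d) β₁ m S) *
      (if S.card = 2 then u₁ else u₂) =
      Polynomial.C ((F.card.choose 2 : ℕ) * (α₂ / d ^ 2)) * u₁ := by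
    rw [Finset.sum_congr rfl (g := fun _ => Polynomial.C (α₂ / (d : ℝ) ^ 2) * u₁)]
    · rw [Finset.sum_const, Finset.card_powersetCard, nsmul_eq_mul,
        Polynomial.C_mul, ← mul_assoc]
      congr 2
    · intro S hS
      rw [Finset.mem_powersetCard] at hS
      have hSm : Disjoint S m := Finset.disjoint_of_subset_left hS.1 hFm
      unfold wS
      rw [if_pos hSm, if_pos (by omega), if_pos (by omega)]
  rw [e1, e2]
  have hd0 : (0 : ℝ) < d := by exact_mod_cast hd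
  have hFr : (d : ℝ) - c₀ ≤ F.card := by
    have : (d : ℝ) ≤ F.card + c₀ := by exact_mod_cast hF
    linarith
  have hcr : (c₀ : ℝ) + 1 ≤ d := by exact_mod_cast hc
  intro N
  simp only [Polynomial.coeff_C_mul, Polynomial.coeff_add]
  have hv1 := hu₁ N
  have hv2 := hu₂ N
  rw [Polynomial.coeff_zero] at hv1 hv2
  have g1 : θ * α₁ ≤ F.card * (α₁ / d) := by
    rw [← mul_div_assoc, le_div_iff₀ hd0]
    calc θ * α₁ * d = (θ * d) * α₁ := by ring
      _ ≤ (d - c₀) * α₁ := mul_le_mul_of_nonneg_right h1 hα₁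
      _ ≤ F.card * α₁ := mul_le_mul_of_nonneg_right hFr hα₁
  have g2 : θ * (α₂ / 2) ≤ (F.card.choose 2 : ℕ) * (α₂ / d ^ 2) := by
    rw [show ((F.card.choose 2 : ℕ) : ℝ) * (α₂ / (d : ℝ) ^ 2) =
      ((F.card.choose 2 : ℕ) : ℝ) * α₂ / (d : ℝ) ^ 2 by ring, le_div_iff₀ (by positivity)]
    have hch : ((F.card.choose 2 : ℕ) : ℝ) = F.card * (F.card - 1) / 2 := by
      rw [Nat.cast_choose_two]
    rw [hch]
    have hprod : (d - c₀ : ℝ) * (d - c₀ - 1) ≤ F.card * (F.card - 1) :=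
      mul_le_mul hFr (by linarith) (by linarith) (by positivity)
    calc θ * (α₂ / 2) * (d : ℝ) ^ 2 = (θ * (d : ℝ) ^ 2) * (α₂ / 2) := by ring
      _ ≤ (F.card * (F.card - 1)) * (α₂ / 2) :=
          mul_le_mul_of_nonneg_right (h2.trans hprod) (by positivity)
      _ = F.card * (F.card - 1) / 2 * α₂ := by ring
  have k1 := mul_le_mul_of_nonneg_right g1 hv2
  have k2 := mul_le_mul_of_nonneg_right g2 hv1
  calc θ * (α₂ / 2 * u₁.coeff N + α₁ * u₂.coeff N)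
      = θ * (α₂ / 2) * u₁.coeff N + θ * α₁ * u₂.coeff N := by ring
    _ ≤ _ := by linarith

theorem k5_slot_sum {α₂ α₁ β₂ β₁ : ℝ} (hβ₂ : 0 ≤ β₂) (hβ₁ : 0 ≤ β₁) (hd : 1 ≤ d)
    {c₀ : ℕ} {θ : ℝ} (hθ : θ ≤ 1) (h1 : θ * d ≤ d - c₀) {F m : Finset (Fin d)}
    (hF : d ≤ F.card + c₀) {i₀ : Fin d} (hi : i₀ ∈ m) (hiF : i₀ ∉ F)
    {u₁ u₂ : Polynomial ℝ} (hu₁ : K5le 0 u₁) (hu₂ : K5le 0 u₂) :
    K5le (Polynomial.C θ * (Polynomial.C β₂ * u₁ + Polynomial.C β₁ * u₂))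
      (∑ S ∈ insert {i₀} (F.image (fun a => ({i₀, a} : Finset (Fin d)))),
        Polynomial.C (wS (α₂ / d ^ 2) (α₁ / d) (β₂ / d) β₁ m S) *
          (if S.card = 2 then u₁ else u₂)) := by
  have hcard : ∀ a ∈ F, ({i₀, a} : Finset (Fin d)).card = 2 := by
    intro a ha
    rw [Finset.card_pair]
    rintro rfl
    exact hiF ha
  have hnm : ({i₀} : Finset (Fin d)) ∉ F.image (fun a => ({i₀, a} : Finset (Fin d))) := by
    intro h
    rw [Finset.mem_image] at h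
    obtain ⟨a, ha, hae⟩ := h
    have := hcard a ha
    rw [hae, Finset.card_singleton] at this
    omega
  rw [Finset.sum_insert hnm, Finset.sum_image]
  swap
  · intro a ha b hb hab
    simp only at hab
    have : b ∈ ({i₀, a} : Finset (Fin d)) := by
      rw [hab]
      exact Finset.mem_insert_of_mem (Finset.mem_singleton_self b)
    rw [Finset.mem_insert, Finset.mem_singleton] at this
    rcases this with rfl | h
    · exact absurd hb hiF
    · exact h.symm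
  have e1 : ∀ S : Finset (Fin d), i₀ ∈ S → ¬ Disjoint S m := by
    intro S hS hdis
    exact (Finset.disjoint_left.mp hdis) hS hi
  have e2 : ∑ a ∈ F, Polynomial.C (wS (α₂ / d ^ 2) (α₁ / d) (β₂ / d) β₁ m {i₀, a}) *
      (if ({i₀, a} : Finset (Fin d)).card = 2 then u₁ else u₂) =
      Polynomial.C (F.card * (β₂ / d)) * u₁ := by
    rw [Finset.sum_congr rfl (g := fun _ => Polynomial.C (β₂ / d) * u₁)]
    · rw [Finset.sum_const, nsmul_eq_mul, Polynomial.C_mul, ← mul_assoc]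
      congr 2
    · intro a ha
      unfold wS
      rw [if_neg (e1 _ (Finset.mem_insert_self _ _)), if_pos (hcard a ha),
        if_pos (hcard a ha)]
  rw [e2]
  have e3 : wS (α₂ / d ^ 2) (α₁ / d) (β₂ / d) β₁ m {i₀} = β₁ := by
    unfold wS
    rw [if_neg (e1 _ (Finset.mem_singleton_self _)), if_neg (by
      rw [Finset.card_singleton]; omega)]
  rw [e3, if_neg (by rw [Finset.card_singleton]; omega)]
  have hd0 : (0 : ℝ) < d := by exact_mod_cast hd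
  have hFr : (d : ℝ) - c₀ ≤ F.card := by
    have : (d : ℝ) ≤ F.card + c₀ := by exact_mod_cast hF
    linarith
  intro N
  simp only [Polynomial.coeff_C_mul, Polynomial.coeff_add]
  have hv1 := hu₁ N
  have hv2 := hu₂ N
  rw [Polynomial.coeff_zero] at hv1 hv2
  have g1 : θ * β₂ ≤ F.card * (β₂ / d) := by
    rw [← mul_div_assoc, le_div_iff₀ hd0]
    calc θ * β₂ * d = (θ * d) * β₂ := by ring
      _ ≤ (d - c₀) * β₂ := mul_le_mul_of_nonneg_right h1 hβ₂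
      _ ≤ F.card * β₂ := mul_le_mul_of_nonneg_right hFr hβ₂
  have k1 := mul_le_mul_of_nonneg_right g1 hv1
  have k2 : θ * (β₁ * u₂.coeff N) ≤ β₁ * u₂.coeff N := by
    have := mul_nonneg hβ₁ hv2
    nlinarith
  calc θ * (β₂ * u₁.coeff N + β₁ * u₂.coeff N)
      = θ * β₂ * u₁.coeff N + θ * (β₁ * u₂.coeff N) := by ring
    _ ≤ _ := by linarith

/-! ### iteration -/

section iter

variable {α₂ α₁ β₂ β₁ : ℝ}

theorem k5_w_nonneg (hα₂ : 0 ≤ α₂) (hα₁ : 0 ≤ α₁) (hβ₂ : 0 ≤ β₂) (hβ₁ : 0 ≤ β₁)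
    (m S : Finset (Fin d)) : 0 ≤ wS (α₂ / d ^ 2) (α₁ / d) (β₂ / d) β₁ m S := by
  unfold wS
  split_ifs <;> positivity

theorem k5_u_nonneg {u₁ u₂ : Polynomial ℝ} (hu₁ : K5le 0 u₁) (hu₂ : K5le 0 u₂)
    (S : Finset (Fin d)) : K5le 0 (if S.card = 2 then u₁ else u₂) := by
  split_ifs
  · exact hu₁
  · exact hu₂

/-- the polynomial of a set -/
noncomputable def k5u (u₁ u₂ : Polynomial ℝ) (S : Finset (Fin d)) : Polynomial ℝ :=
  if S.card = 2 then u₁ else u₂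

theorem k5_fresh_iter (hα₂ : 0 ≤ α₂) (hα₁ : 0 ≤ α₁) (hβ₂ : 0 ≤ β₂) (hβ₁ : 0 ≤ β₁)
    (hd : 1 ≤ d) {c₀ K : ℕ} {θ : ℝ} (hθ0 : 0 ≤ θ) (hc : c₀ + 1 ≤ d) (h1 : θ * d ≤ d - c₀)
    (h2 : θ * (d : ℝ) ^ 2 ≤ (d - c₀) * (d - c₀ - 1)) {U m : Finset (Fin d)} (hmU : m ⊆ U)
    (hU : U.card + 2 * (K + 2) ≤ c₀) (hm2 : m.card ≤ 2) {u₁ u₂ : Polynomial ℝ}
    (hu₁ : K5le 0 u₁) (hu₂ : K5le 0 u₂) (N : ℕ) {M : Finset (Fin d)} (hM : M ⊆ m) :
    ∀ i ≤ K, ∀ Q, K5le 0 Q →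
      θ ^ i * k5Phi (wS (α₂ / d ^ 2) (α₁ / d) (β₂ / d) β₁ m) (k5u u₁ u₂) N (k5F U m 0 M)
        (Q * (Polynomial.C (α₂ / 2) * u₁ + Polynomial.C α₁ * u₂) ^ i) ≤
      (i.factorial : ℝ) * k5Phi (wS (α₂ / d ^ 2) (α₁ / d) (β₂ / d) β₁ m) (k5u u₁ u₂) N
        (k5F U m i M) Q := by
  intro i
  induction i with
  | zero =>
    intro _ Q _
    simp
  | succ i ih =>
    intro hi Q hQ
    have hA : K5le 0 (Polynomial.C (α₂ / 2) * u₁ + Polynomial.C α₁ * u₂) :=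
      k5_A_nonneg (t := (u₁, u₂)) hα₂ hα₁ hu₁ hu₂
    have h3 := ih (by omega) (Q * (Polynomial.C (α₂ / 2) * u₁ + Polynomial.C α₁ * u₂))
      (k5_nonneg_mul hQ hA)
    have hMc : M.card ≤ 2 := (Finset.card_le_card hM).trans hm2
    have h4 := k5_step (w := wS (α₂ / d ^ 2) (α₁ / d) (β₂ / d) β₁ m)
      (k5_w_nonneg hα₂ hα₁ hβ₂ hβ₁ m) (u := k5u u₁ u₂) (k5_u_nonneg hu₁ hu₂) N
      (k5F U m i M) (k5F U m (i + 1) M)
      (fun B => (k5free U B).powersetCard 1 ∪ (k5free U B).powersetCard 2)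
      (fun S => Disjoint S m) (i + 1)
      (Q := Q) (G := Polynomial.C (α₂ / 2) * u₁ + Polynomial.C α₁ * u₂) hQ θ
      (by
        intro B hB S hS
        rw [Finset.mem_union, Finset.mem_powersetCard, Finset.mem_powersetCard] at hS
        rcases hS with ⟨hS, hc⟩ | ⟨hS, hc⟩
        · exact k5_fresh hmU hB hS (Or.inl hc)
        · exact k5_fresh hmU hB hS (Or.inr hc))
      (by
        intro B hB
        rw [k5_mem_F] at hB
        exact hB.2.2.1)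
      (by
        intro B hB
        rw [k5_mem_F] at hB
        have hcf := k5_card_free hB.1
        have hFm : Disjoint (k5free U B) m := by
          rw [Finset.disjoint_left]
          intro a ha ham
          exact (k5_mem_free.mp ha).1 (hmU ham)
        exact k5_fresh_sum hα₂ hα₁ hd hc h1 h2 (by omega) hFm hu₁ hu₂)
    calc θ ^ (i + 1) * k5Phi (wS (α₂ / d ^ 2) (α₁ / d) (β₂ / d) β₁ m) (k5u u₁ u₂) N
          (k5F U m 0 M) (Q * (Polynomial.C (α₂ / 2) * u₁ + Polynomial.C α₁ * u₂) ^ (i + 1))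
        = θ * (θ ^ i * k5Phi (wS (α₂ / d ^ 2) (α₁ / d) (β₂ / d) β₁ m) (k5u u₁ u₂) N
          (k5F U m 0 M) (Q * (Polynomial.C (α₂ / 2) * u₁ + Polynomial.C α₁ * u₂) *
            (Polynomial.C (α₂ / 2) * u₁ + Polynomial.C α₁ * u₂) ^ i)) := by
          rw [pow_succ θ, pow_succ' (Polynomial.C (α₂ / 2) * u₁ + Polynomial.C α₁ * u₂) i,
            mul_assoc Q]
          ring
      _ ≤ θ * ((i.factorial : ℝ) * k5Phi (wS (α₂ / d ^ 2) (α₁ / d) (β₂ / d) β₁ m)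
          (k5u u₁ u₂) N (k5F U m i M)
          (Q * (Polynomial.C (α₂ / 2) * u₁ + Polynomial.C α₁ * u₂))) :=
          mul_le_mul_of_nonneg_left h3 hθ0
      _ = (i.factorial : ℝ) * (θ * k5Phi (wS (α₂ / d ^ 2) (α₁ / d) (β₂ / d) β₁ m)
          (k5u u₁ u₂) N (k5F U m i M)
          (Q * (Polynomial.C (α₂ / 2) * u₁ + Polynomial.C α₁ * u₂))) := by ring
      _ ≤ (i.factorial : ℝ) * (((i + 1 : ℕ) : ℝ) *
          k5Phi (wS (α₂ / d ^ 2) (α₁ / d) (β₂ / d) β₁ m)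
          (k5u u₁ u₂) N (k5F U m (i + 1) M) Q) :=
          mul_le_mul_of_nonneg_left h4 (by positivity)
      _ = _ := by
          rw [Nat.factorial_succ]
          push_cast
          ring

theorem k5_slot_iter (hα₂ : 0 ≤ α₂) (hα₁ : 0 ≤ α₁) (hβ₂ : 0 ≤ β₂) (hβ₁ : 0 ≤ β₁)
    (hd : 1 ≤ d) {c₀ : ℕ} {θ : ℝ} (hθ0 : 0 ≤ θ) (hθ1 : θ ≤ 1) (h1 : θ * d ≤ d - c₀)
    {U m : Finset (Fin d)} (hmU : m ⊆ U)
    (hU : U.card + 4 ≤ c₀) (hm2 : m.card ≤ 2) {u₁ u₂ : Polynomial ℝ}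
    (hu₁ : K5le 0 u₁) (hu₂ : K5le 0 u₂) (N : ℕ) (M : Finset (Fin d)) :
    M ⊆ m → ∀ Q, K5le 0 Q →
      θ ^ M.card * (Q * (Polynomial.C β₂ * u₁ + Polynomial.C β₁ * u₂) ^ M.card).coeff N ≤
      k5Phi (wS (α₂ / d ^ 2) (α₁ / d) (β₂ / d) β₁ m) (k5u u₁ u₂) N (k5F U m 0 M) Q := by
  induction M using Finset.induction_on with
  | empty =>
    intro _ Q _
    have he : (∅ : Finset (Finset (Fin d))) ∈ k5F U m 0 ∅ := by
      rw [k5_mem_F]
      refine ⟨⟨by simp, by simp, by simp, by simp⟩, by simp, by simp, by simp⟩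
    have he' : k5F U m 0 ∅ = {∅} := by
      ext B
      rw [Finset.mem_singleton]
      constructor
      · intro hB
        rw [k5_mem_F] at hB
        have := hB.2.1
        rw [Finset.card_empty, Nat.add_zero, Finset.card_eq_zero] at this
        exact this
      · rintro rfl
        exact he
    unfold k5Phi
    rw [he', Finset.sum_singleton]
    simp
  | insert i₀ M hi₀ ih =>
    intro hM Q hQ
    have hMm : M ⊆ m := (Finset.subset_insert i₀ M).trans hM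
    have him : i₀ ∈ m := hM (Finset.mem_insert_self i₀ M)
    have hG : K5le 0 (Polynomial.C β₂ * u₁ + Polynomial.C β₁ * u₂) :=
      k5_G_nonneg (t := (u₁, u₂)) hβ₂ hβ₁ hu₁ hu₂
    have h3 := ih hMm (Q * (Polynomial.C β₂ * u₁ + Polynomial.C β₁ * u₂))
      (k5_nonneg_mul hQ hG)
    have hMc : M.card + 1 ≤ 2 := by
      rw [← Finset.card_insert_of_notMem hi₀]
      exact (Finset.card_le_card hM).trans hm2
    have h4 := k5_step (w := wS (α₂ / d ^ 2) (α₁ / d) (β₂ / d) β₁ m)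
      (k5_w_nonneg hα₂ hα₁ hβ₂ hβ₁ m) (u := k5u u₁ u₂) (k5_u_nonneg hu₁ hu₂) N
      (k5F U m 0 M) (k5F U m 0 (insert i₀ M))
      (fun B => insert {i₀} ((k5free U B).image (fun a => ({i₀, a} : Finset (Fin d)))))
      (fun S => i₀ ∈ S) 1
      (Q := Q) (G := Polynomial.C β₂ * u₁ + Polynomial.C β₁ * u₂) hQ θ
      (by
        intro B hB S hS
        rw [Finset.mem_insert, Finset.mem_image] at hS
        rcases hS with rfl | ⟨a, ha, rfl⟩
        · refine k5_slot hmU him hi₀ hB (Finset.mem_singleton_self _) ?_ (Or.inl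
            (Finset.card_singleton _))
          intro b hb
          exact Or.inl (Finset.mem_singleton.mp hb)
        · refine k5_slot hmU him hi₀ hB (Finset.mem_insert_self _ _) ?_ (Or.inr ?_)
          · intro b hb
            rw [Finset.mem_insert, Finset.mem_singleton] at hb
            rcases hb with rfl | rfl
            · exact Or.inl rfl
            · exact Or.inr ha
          · rw [Finset.card_pair]
            rintro rfl
            exact (k5_mem_free.mp ha).1 (hmU him))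
      (by
        intro B hB
        rw [k5_mem_F] at hB
        rw [Finset.card_le_one]
        intro S hS T hT
        rw [Finset.mem_filter] at hS hT
        by_contra hne
        have := hB.1.dis hS.1 hT.1 hne
        simp only [Function.onFun, id] at this
        exact (Finset.disjoint_left.mp this) hS.2 hT.2)
      (by
        intro B hB
        rw [k5_mem_F] at hB
        have hcf := k5_card_free hB.1
        have hiF : i₀ ∉ k5free U B := fun h => (k5_mem_free.mp h).1 (hmU him)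
        exact k5_slot_sum hβ₂ hβ₁ hd hθ1 h1 (by omega) him hiF hu₁ hu₂)
    rw [Finset.card_insert_of_notMem hi₀]
    calc θ ^ (M.card + 1) *
          (Q * (Polynomial.C β₂ * u₁ + Polynomial.C β₁ * u₂) ^ (M.card + 1)).coeff N
        = θ * (θ ^ M.card * (Q * (Polynomial.C β₂ * u₁ + Polynomial.C β₁ * u₂) *
          (Polynomial.C β₂ * u₁ + Polynomial.C β₁ * u₂) ^ M.card).coeff N) := by
          rw [pow_succ θ, pow_succ' (Polynomial.C β₂ * u₁ + Polynomial.C β₁ * u₂),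
            mul_assoc Q]
          ring
      _ ≤ θ * k5Phi (wS (α₂ / d ^ 2) (α₁ / d) (β₂ / d) β₁ m) (k5u u₁ u₂) N (k5F U m 0 M)
          (Q * (Polynomial.C β₂ * u₁ + Polynomial.C β₁ * u₂)) :=
          mul_le_mul_of_nonneg_left h3 hθ0
      _ ≤ _ := by
          refine h4.trans ?_
          rw [Nat.cast_one, one_mul]

theorem k5_binom (m : Finset (Fin d)) (G : Polynomial ℝ) :
    ∑ M ∈ m.powerset, G ^ M.card = (1 + G) ^ m.card := by
  have := Finset.sum_pow_mul_eq_add_pow G 1 m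
  rw [add_comm 1 G, ← this]
  refine Finset.sum_congr rfl fun M _ => ?_
  rw [one_pow, mul_one]

open Classical in
theorem k5_total (hα₂ : 0 ≤ α₂) (hα₁ : 0 ≤ α₁) (hβ₂ : 0 ≤ β₂) (hβ₁ : 0 ≤ β₁)
    (hd : 1 ≤ d) {c₀ K : ℕ} {θ : ℝ} (hθ0 : 0 ≤ θ) (hθ1 : θ ≤ 1) (hc : c₀ + 1 ≤ d)
    (h1 : θ * d ≤ d - c₀) (h2 : θ * (d : ℝ) ^ 2 ≤ (d - c₀) * (d - c₀ - 1))
    {U m : Finset (Fin d)} (hmU : m ⊆ U)
    (hU : U.card + 2 * (K + 2) ≤ c₀) (hm2 : m.card ≤ 2) {u₁ u₂ : Polynomial ℝ}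
    (hu₁ : K5le 0 u₁) (hu₂ : K5le 0 u₂) (N : ℕ) {Q : Polynomial ℝ} (hQ : K5le 0 Q) :
    θ ^ (K + 2) * (Q * Pk K (Polynomial.C (α₂ / 2) * u₁ + Polynomial.C α₁ * u₂) *
      (1 + (Polynomial.C β₂ * u₁ + Polynomial.C β₁ * u₂)) ^ m.card).coeff N ≤
      ∑ B : Finset (Finset (Fin d)) with AdmB U m B,
        (∏ S ∈ B, wS (α₂ / d ^ 2) (α₁ / d) (β₂ / d) β₁ m S) *
          (Q * ∏ S ∈ B, k5u u₁ u₂ S).coeff N := by
  set A : Polynomial ℝ := Polynomial.C (α₂ / 2) * u₁ + Polynomial.C α₁ * u₂ with hAdef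
  set G : Polynomial ℝ := Polynomial.C β₂ * u₁ + Polynomial.C β₁ * u₂ with hGdef
  have hA : K5le 0 A := k5_A_nonneg (t := (u₁, u₂)) hα₂ hα₁ hu₁ hu₂
  have hG : K5le 0 G := k5_G_nonneg (t := (u₁, u₂)) hβ₂ hβ₁ hu₁ hu₂
  set f : Finset (Finset (Fin d)) → ℝ := fun B =>
    (∏ S ∈ B, wS (α₂ / d ^ 2) (α₁ / d) (β₂ / d) β₁ m S) *
      (Q * ∏ S ∈ B, k5u u₁ u₂ S).coeff N with hf
  have hf0 : ∀ B, 0 ≤ f B := by
    intro B
    refine mul_nonneg (Finset.prod_nonneg fun S _ => k5_w_nonneg hα₂ hα₁ hβ₂ hβ₁ m S) ?_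
    have := k5_nonneg_mul hQ (k5_nonneg_prod B (fun S _ => k5_u_nonneg hu₁ hu₂ S)) N
    rwa [Polynomial.coeff_zero] at this
  have s1 : ∑ x ∈ m.powerset ×ˢ Finset.range (K + 1), ∑ B ∈ k5F U m x.2 x.1, f B ≤
      ∑ B : Finset (Finset (Fin d)) with AdmB U m B, f B := by
    rw [← Finset.sum_biUnion]
    · refine Finset.sum_le_sum_of_subset_of_nonneg ?_ (fun B _ _ => hf0 B)
      intro B hB
      rw [Finset.mem_biUnion] at hB
      obtain ⟨x, _, hx⟩ := hB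
      rw [k5_mem_F] at hx
      rw [Finset.mem_filter]
      exact ⟨Finset.mem_univ _, hx.1⟩
    · intro x _ y _ hxy
      rw [Function.onFun, Finset.disjoint_left]
      intro B hBx hBy
      rw [k5_mem_F] at hBx hBy
      apply hxy
      have e1 : x.1 = y.1 := hBx.2.2.2.symm.trans hBy.2.2.2
      have e2 := hBx.2.1.symm.trans hBy.2.1
      rw [e1] at e2
      exact Prod.ext e1 (by omega)
  refine le_trans ?_ s1
  have s2 : ∀ x ∈ m.powerset ×ˢ Finset.range (K + 1),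
      θ ^ (K + 2) * ((1 / (x.2.factorial : ℝ)) * (Q * A ^ x.2 * G ^ x.1.card).coeff N) ≤
        ∑ B ∈ k5F U m x.2 x.1, f B := by
    intro x hx
    rw [Finset.mem_product, Finset.mem_powerset, Finset.mem_range] at hx
    obtain ⟨hxM, hxi⟩ := hx
    have g1 := k5_fresh_iter hα₂ hα₁ hβ₂ hβ₁ hd hθ0 hc h1 h2 hmU hU hm2 hu₁ hu₂ N hxM x.2
      (by omega) Q hQ
    have g2 := k5_slot_iter hα₂ hα₁ hβ₂ hβ₁ hd hθ0 hθ1 h1 hmU (by omega) hm2 hu₁ hu₂ N x.1
      hxM (Q * A ^ x.2) (k5_nonneg_mul hQ (k5_nonneg_pow hA x.2))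
    have hfac : (0 : ℝ) < (x.2.factorial : ℝ) := by exact_mod_cast Nat.factorial_pos _
    have hMc : x.1.card ≤ 2 := (Finset.card_le_card hxM).trans hm2
    have hco : 0 ≤ (Q * A ^ x.2 * G ^ x.1.card).coeff N := by
      have := k5_nonneg_mul (k5_nonneg_mul hQ (k5_nonneg_pow hA x.2))
        (k5_nonneg_pow hG x.1.card) N
      rwa [Polynomial.coeff_zero] at this
    have hpw : θ ^ (K + 2) ≤ θ ^ x.2 * θ ^ x.1.card := by
      rw [← pow_add]
      exact pow_le_pow_of_le_one hθ0 hθ1 (by omega)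
    have g3 : θ ^ x.2 * (θ ^ x.1.card * (Q * A ^ x.2 * G ^ x.1.card).coeff N) ≤
        (x.2.factorial : ℝ) * ∑ B ∈ k5F U m x.2 x.1, f B :=
      (mul_le_mul_of_nonneg_left g2 (pow_nonneg hθ0 _)).trans g1
    calc θ ^ (K + 2) * ((1 / (x.2.factorial : ℝ)) * (Q * A ^ x.2 * G ^ x.1.card).coeff N)
        ≤ (θ ^ x.2 * θ ^ x.1.card) *
          ((1 / (x.2.factorial : ℝ)) * (Q * A ^ x.2 * G ^ x.1.card).coeff N) :=
          mul_le_mul_of_nonneg_right hpw (by positivity)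
      _ = (θ ^ x.2 * (θ ^ x.1.card * (Q * A ^ x.2 * G ^ x.1.card).coeff N)) /
          (x.2.factorial : ℝ) := by ring
      _ ≤ _ := by
          rw [div_le_iff₀ hfac]
          linarith [g3]
  refine le_trans (le_of_eq ?_) (Finset.sum_le_sum s2)
  rw [← Finset.mul_sum]
  congr 1
  rw [Finset.sum_product, ← k5_binom m G]
  rw [Finset.mul_sum, Polynomial.finsetSum_coeff]
  refine Finset.sum_congr rfl fun M _ => ?_
  unfold Pk
  rw [Finset.mul_sum, Finset.sum_mul, Polynomial.finsetSum_coeff]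
  refine Finset.sum_congr rfl fun i _ => ?_
  rw [show Q * (Polynomial.C (1 / (i.factorial : ℝ)) * A ^ i) * G ^ M.card =
    Polynomial.C (1 / (i.factorial : ℝ)) * (Q * A ^ i * G ^ M.card) by ring,
    Polynomial.coeff_C_mul]

/-- admissible states -/
structure K5V (r₀ f r : ℕ) (J : Finset (Finset (Fin d))) (U m : Finset (Fin d)) : Prop where
  card : ∀ S ∈ J, S.card = 1 ∨ S.card = 2
  sub : ∀ S ∈ J, S ⊆ U
  dis : (J : Set (Finset (Fin d))).PairwiseDisjoint id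
  disM : ∀ S ∈ J, Disjoint S m
  mU : m ⊆ U
  m2 : m.card ≤ 2
  Uc : U.card + 2 * r ≤ 2 * r₀
  fle : r + J.card ≤ f

theorem k5_V_disj {r₀ f r : ℕ} {J : Finset (Finset (Fin d))} {U m : Finset (Fin d)}
    (h : K5V r₀ f r J U m) {B : Finset (Finset (Fin d))} (hB : AdmB U m B) :
    ∀ S ∈ J, ∀ T ∈ B, Disjoint S T := by
  intro S hS T hT
  rw [Finset.disjoint_left]
  intro a ha haT
  have h1 : a ∈ m := hB.used T hT (Finset.mem_inter.mpr ⟨haT, h.sub S hS ha⟩)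
  exact (Finset.disjoint_left.mp (h.disM S hS)) ha h1

theorem k5_V_disj' {r₀ f r : ℕ} {J : Finset (Finset (Fin d))} {U m : Finset (Fin d)}
    (h : K5V r₀ f r J U m) {B : Finset (Finset (Fin d))} (hB : AdmB U m B) : Disjoint J B := by
  rw [Finset.disjoint_left]
  intro S hS hSB
  have h1 := k5_V_disj h hB S hS S hSB
  rw [disjoint_self, Finset.bot_eq_empty] at h1
  have h2 := h.card S hS
  rw [h1, Finset.card_empty] at h2
  omega

theorem k5_V_next {r₀ f r : ℕ} {J : Finset (Finset (Fin d))} {U m : Finset (Fin d)}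
    (h : K5V r₀ (f + 1) r J U m) {B : Finset (Finset (Fin d))} (hB : AdmB U m B)
    (hBr : B.card ≤ r) {S : Finset (Fin d)} (hS : S ∈ J ∪ B) :
    K5V r₀ f (r - B.card) ((J ∪ B).erase S) (U ∪ B.biUnion id) S := by
  have hdis := k5_V_disj h hB
  have hJB := k5_V_disj' h hB
  have hcard : ∀ T ∈ J ∪ B, T.card = 1 ∨ T.card = 2 := by
    intro T hT
    rcases Finset.mem_union.mp hT with hT | hT
    · exact h.card T hT
    · exact hB.card T hT
  have hsub : ∀ T ∈ J ∪ B, T ⊆ U ∪ B.biUnion id := by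
    intro T hT
    rcases Finset.mem_union.mp hT with hT | hT
    · exact (h.sub T hT).trans Finset.subset_union_left
    · refine Finset.Subset.trans ?_ Finset.subset_union_right
      intro a ha
      rw [Finset.mem_biUnion]
      exact ⟨T, hT, ha⟩
  have hpd : ((J ∪ B : Finset (Finset (Fin d))) : Set (Finset (Fin d))).PairwiseDisjoint id := by
    intro T hT T' hT' hne
    rw [Finset.mem_coe, Finset.mem_union] at hT hT'
    rcases hT with hT | hT <;> rcases hT' with hT' | hT'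
    · exact h.dis hT hT' hne
    · exact hdis T hT T' hT'
    · exact (hdis T' hT' T hT).symm
    · exact hB.dis hT hT' hne
  have hbi : (B.biUnion id).card ≤ 2 * B.card := by
    refine (Finset.card_biUnion_le).trans ?_
    rw [mul_comm]
    refine Finset.sum_le_card_nsmul _ _ _ fun S hS => ?_
    have := hB.card S hS
    simp only [id]
    omega
  have hc1 : (J ∪ B).card = J.card + B.card := Finset.card_union_of_disjoint hJB
  have hc2 : ((J ∪ B).erase S).card = (J ∪ B).card - 1 := Finset.card_erase_of_mem hS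
  have hc3 : 1 ≤ (J ∪ B).card := Finset.card_pos.mpr ⟨S, hS⟩
  refine ⟨?_, ?_, ?_, ?_, ?_, ?_, ?_, ?_⟩
  · intro T hT
    exact hcard T (Finset.mem_of_mem_erase hT)
  · intro T hT
    exact hsub T (Finset.mem_of_mem_erase hT)
  · intro T hT T' hT' hne
    exact hpd (Finset.mem_coe.mpr (Finset.mem_of_mem_erase hT))
      (Finset.mem_coe.mpr (Finset.mem_of_mem_erase hT')) hne
  · intro T hT
    rw [Finset.mem_erase] at hT
    exact hpd (Finset.mem_coe.mpr hT.2) (Finset.mem_coe.mpr hS) hT.1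
  · exact hsub S hS
  · have := hcard S hS
    omega
  · have := Finset.card_union_le U (B.biUnion id)
    have := h.Uc
    omega
  · have := h.fle
    omega

theorem k5_prod_u {B : Finset (Finset (Fin d))} (hB : ∀ S ∈ B, S.card = 1 ∨ S.card = 2)
    {P b u₁ u₂ : Polynomial ℝ} (hu₁ : u₁ = Polynomial.X * P * b ^ 2)
    (hu₂ : u₂ = Polynomial.X * P * b) :
    ∏ S ∈ B, k5u u₁ u₂ S =
      Polynomial.X ^ B.card * (P ^ B.card * b ^ (∑ S ∈ B, S.card)) := by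
  rw [Finset.prod_congr rfl (g := fun S => (Polynomial.X * P) * b ^ S.card)]
  · rw [Finset.prod_mul_distrib, Finset.prod_const, Finset.prod_pow_eq_pow_sum, mul_pow,
      mul_assoc]
  · intro S hS
    unfold k5u
    rcases hB S hS with h | h
    · rw [if_neg (by omega), h, pow_one, hu₂]
    · rw [if_pos h, h, hu₁]

theorem k5_main (hα₂ : 0 ≤ α₂) (hα₁ : 0 ≤ α₁) (hβ₂ : 0 ≤ β₂) (hβ₁ : 0 ≤ β₁)
    (hd : 1 ≤ d) {c₀ K k r₀ : ℕ} {θ : ℝ} (hθ0 : 0 ≤ θ) (hθ1 : θ ≤ 1) (hc : c₀ + 1 ≤ d)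
    (h1 : θ * d ≤ d - c₀) (h2 : θ * (d : ℝ) ^ 2 ≤ (d - c₀) * (d - c₀ - 1))
    (hr₀ : 2 * r₀ + 2 * (K + 2) ≤ c₀) :
    ∀ (f r : ℕ) (J : Finset (Finset (Fin d))) (U m : Finset (Fin d)) (κ : Fin d → ℕ),
      K5V r₀ f r J U m →
      θ ^ ((K + 2) * f) *
        ((Pk K (k5A α₂ α₁ (tp α₂ α₁ β₂ β₁ K k))) ^ (J.card + 1) *
          (1 + k5G β₂ β₁ (tp α₂ α₁ β₂ β₁ K k)) ^ (m.card + ∑ S ∈ J, S.card)).coeff r ≤
      mac (wS (α₂ / d ^ 2) (α₁ / d) (β₂ / d) β₁) (fun _ => 1) f r J U m κ := by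
  classical
  have ht0 := k5_tp_nonneg hα₂ hα₁ hβ₂ hβ₁ K k
  have ht1 := k5_tp_nonneg hα₂ hα₁ hβ₂ hβ₁ K (k + 1)
  have htm := k5_tp_mono hα₂ hα₁ hβ₂ hβ₁ K k
  have hz := k5_tp_zero (α₂ := α₂) (α₁ := α₁) (β₂ := β₂) (β₁ := β₁) K k
  have hu1 : (tp α₂ α₁ β₂ β₁ K (k + 1)).1 =
      Polynomial.X * Pk K (k5A α₂ α₁ (tp α₂ α₁ β₂ β₁ K k)) *
        (1 + k5G β₂ β₁ (tp α₂ α₁ β₂ β₁ K k)) ^ 2 := by
    rw [k5_tp_succ]
    rfl
  have hu2 : (tp α₂ α₁ β₂ β₁ K (k + 1)).2 =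
      Polynomial.X * Pk K (k5A α₂ α₁ (tp α₂ α₁ β₂ β₁ K k)) *
        (1 + k5G β₂ β₁ (tp α₂ α₁ β₂ β₁ K k)) := by
    rw [k5_tp_succ]
    rfl
  have hP : K5le 0 (Pk K (k5A α₂ α₁ (tp α₂ α₁ β₂ β₁ K k))) :=
    k5_Pk_nonneg K (k5_A_nonneg hα₂ hα₁ ht0.1 ht0.2)
  have hb : K5le 0 (1 + k5G β₂ β₁ (tp α₂ α₁ β₂ β₁ K k)) :=
    k5_one_add_nonneg (k5_G_nonneg hβ₂ hβ₁ ht0.1 ht0.2)
  have hP' : K5le (Pk K (k5A α₂ α₁ (tp α₂ α₁ β₂ β₁ K k)))
      (Pk K (k5A α₂ α₁ (tp α₂ α₁ β₂ β₁ K (k + 1)))) :=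
    k5_Pk_mono K (k5_A_nonneg hα₂ hα₁ ht0.1 ht0.2) (k5_A_mono hα₂ hα₁ htm.1 htm.2)
  have hb' : K5le (1 + k5G β₂ β₁ (tp α₂ α₁ β₂ β₁ K k))
      (1 + k5G β₂ β₁ (tp α₂ α₁ β₂ β₁ K (k + 1))) :=
    k5_add (k5_refl 1) (k5_G_mono hβ₂ hβ₁ htm.1 htm.2)
  have hP0 : (Pk K (k5A α₂ α₁ (tp α₂ α₁ β₂ β₁ K k))).coeff 0 = 1 := by
    apply k5_Pk_zero
    unfold k5A
    rw [Polynomial.coeff_add, Polynomial.coeff_C_mul, Polynomial.coeff_C_mul, hz.1, hz.2]
    simp
  have hb0 : (1 + k5G β₂ β₁ (tp α₂ α₁ β₂ β₁ K k)).coeff 0 = 1 := by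
    unfold k5G
    rw [Polynomial.coeff_add, Polynomial.coeff_add, Polynomial.coeff_C_mul,
      Polynomial.coeff_C_mul, hz.1, hz.2]
    simp
  revert hu1 hu2 hP hb hP' hb' hP0 hb0
  generalize Pk K (k5A α₂ α₁ (tp α₂ α₁ β₂ β₁ K k)) = P
  generalize (1 + k5G β₂ β₁ (tp α₂ α₁ β₂ β₁ K k)) = b
  intro hu1 hu2 hP hb hP' hb' hP0 hb0
  have hpow0 : ∀ (i j : ℕ), (P ^ i * b ^ j).coeff 0 = 1 := by
    intro i j
    rw [Polynomial.mul_coeff_zero, Polynomial.coeff_zero_eq_eval_zero,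
      Polynomial.coeff_zero_eq_eval_zero, Polynomial.eval_pow, Polynomial.eval_pow,
      ← Polynomial.coeff_zero_eq_eval_zero, ← Polynomial.coeff_zero_eq_eval_zero, hP0, hb0]
    simp
  intro f
  induction f with
  | zero =>
    intro r J U m κ hV
    have hr : r = 0 := by
      have := hV.fle
      omega
    subst hr
    rw [hpow0, mul_zero, pow_zero, mul_one]
    simp [mac]
  | succ f ih =>
    intro r J U m κ hV
    by_cases hr : r = 0
    · subst hr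
      rw [hpow0, mul_one]
      simp only [mac, if_true]
      exact pow_le_one₀ hθ0 hθ1
    · have hw0 := k5_w_nonneg (d := d) hα₂ hα₁ hβ₂ hβ₁ m
      -- the payoff of a family
      have hpay : ∀ B : Finset (Finset (Fin d)), AdmB U m B →
          (P ^ J.card * b ^ (∑ S ∈ J, S.card) *
            ∏ S ∈ B, k5u (tp α₂ α₁ β₂ β₁ K (k + 1)).1 (tp α₂ α₁ β₂ β₁ K (k + 1)).2 S).coeff r =
          if B.card ≤ r then
            (P ^ (J.card + B.card) * b ^ (∑ S ∈ J, S.card + ∑ S ∈ B, S.card)).coeff (r - B.card)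
          else 0 := by
        intro B hB
        rw [k5_prod_u hB.card hu1 hu2]
        rw [show P ^ J.card * b ^ (∑ S ∈ J, S.card) *
            (Polynomial.X ^ B.card * (P ^ B.card * b ^ (∑ S ∈ B, S.card))) =
            Polynomial.X ^ B.card *
              (P ^ (J.card + B.card) * b ^ (∑ S ∈ J, S.card + ∑ S ∈ B, S.card)) by
          rw [pow_add, pow_add]; ring, Polynomial.coeff_X_pow_mul']
      have hstep : ∀ B : Finset (Finset (Fin d)), AdmB U m B → B.card ≤ r →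
          (J ∪ B).Nonempty →
          θ ^ ((K + 2) * f) *
            (P ^ (J.card + B.card) *
              b ^ (∑ S ∈ J, S.card + ∑ S ∈ B, S.card)).coeff (r - B.card) ≤
          (∑ S ∈ J ∪ B, mac (wS (α₂ / d ^ 2) (α₁ / d) (β₂ / d) β₁) (fun _ => 1) f
            (r - B.card) ((J ∪ B).erase S) (U ∪ B.biUnion id) S
            (κ + ∑ S' ∈ B, inc S')) / ((J ∪ B).card : ℝ) := by
        intro B hB hBr hne
        have hpos : (0 : ℝ) < ((J ∪ B).card : ℝ) := by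
          exact_mod_cast Finset.card_pos.mpr hne
        rw [le_div_iff₀ hpos, mul_comm, ← nsmul_eq_mul]
        refine Finset.card_nsmul_le_sum _ _ _ fun S hS => ?_
        have hV' := k5_V_next hV hB hBr hS
        have h3 := ih (r - B.card) ((J ∪ B).erase S) (U ∪ B.biUnion id) S
          (κ + ∑ S' ∈ B, inc S') hV'
        have hJB := k5_V_disj' hV hB
        have hc1 : (J ∪ B).card = J.card + B.card := Finset.card_union_of_disjoint hJB
        have hc2 : ((J ∪ B).erase S).card = (J ∪ B).card - 1 := Finset.card_erase_of_mem hS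
        have hc3 : 1 ≤ (J ∪ B).card := Finset.card_pos.mpr ⟨S, hS⟩
        have e1 : ((J ∪ B).erase S).card + 1 = J.card + B.card := by omega
        have e2 : S.card + ∑ T ∈ (J ∪ B).erase S, T.card =
            ∑ S ∈ J, S.card + ∑ S ∈ B, S.card := by
          rw [Finset.add_sum_erase _ _ hS, Finset.sum_union hJB]
        rw [e1, e2] at h3
        exact h3
      have hmac : mac (wS (α₂ / d ^ 2) (α₁ / d) (β₂ / d) β₁) (fun _ => 1) (f + 1) r J U m κ =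
          ∑ B : Finset (Finset (Fin d)) with (AdmB U m B ∧ B.card ≤ r ∧ (J ∪ B).Nonempty),
            (∏ S ∈ B, wS (α₂ / d ^ 2) (α₁ / d) (β₂ / d) β₁ m S) *
              ((∑ S ∈ J ∪ B, mac (wS (α₂ / d ^ 2) (α₁ / d) (β₂ / d) β₁) (fun _ => 1) f
                (r - B.card) ((J ∪ B).erase S) (U ∪ B.biUnion id) S
                (κ + ∑ S' ∈ B, inc S')) / ((J ∪ B).card : ℝ)) := by
        rw [mac]
        exact if_neg hr
      rw [hmac]
      have hsum : θ ^ ((K + 2) * f) * ∑ B : Finset (Finset (Fin d)) with AdmB U m B,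
          (∏ S ∈ B, wS (α₂ / d ^ 2) (α₁ / d) (β₂ / d) β₁ m S) *
            (P ^ J.card * b ^ (∑ S ∈ J, S.card) *
            ∏ S ∈ B, k5u (tp α₂ α₁ β₂ β₁ K (k + 1)).1
              (tp α₂ α₁ β₂ β₁ K (k + 1)).2 S).coeff r ≤
          ∑ B : Finset (Finset (Fin d)) with (AdmB U m B ∧ B.card ≤ r ∧ (J ∪ B).Nonempty),
            (∏ S ∈ B, wS (α₂ / d ^ 2) (α₁ / d) (β₂ / d) β₁ m S) *
              ((∑ S ∈ J ∪ B, mac (wS (α₂ / d ^ 2) (α₁ / d) (β₂ / d) β₁) (fun _ => 1) f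
                (r - B.card) ((J ∪ B).erase S) (U ∪ B.biUnion id) S
                (κ + ∑ S' ∈ B, inc S')) / ((J ∪ B).card : ℝ)) := by
        rw [Finset.mul_sum]
        have hsplit : ∑ B : Finset (Finset (Fin d)) with AdmB U m B, θ ^ ((K + 2) * f) *
            ((∏ S ∈ B, wS (α₂ / d ^ 2) (α₁ / d) (β₂ / d) β₁ m S) *
            (P ^ J.card * b ^ (∑ S ∈ J, S.card) *
            ∏ S ∈ B, k5u (tp α₂ α₁ β₂ β₁ K (k + 1)).1
              (tp α₂ α₁ β₂ β₁ K (k + 1)).2 S).coeff r) =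
            ∑ B : Finset (Finset (Fin d)) with
              (AdmB U m B ∧ B.card ≤ r ∧ (J ∪ B).Nonempty), θ ^ ((K + 2) * f) *
            ((∏ S ∈ B, wS (α₂ / d ^ 2) (α₁ / d) (β₂ / d) β₁ m S) *
            (P ^ J.card * b ^ (∑ S ∈ J, S.card) *
            ∏ S ∈ B, k5u (tp α₂ α₁ β₂ β₁ K (k + 1)).1
              (tp α₂ α₁ β₂ β₁ K (k + 1)).2 S).coeff r) := by
          symm
          refine Finset.sum_subset ?_ ?_
          · intro B hB
            rw [Finset.mem_filter] at hB ⊢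
            exact ⟨hB.1, hB.2.1⟩
          · intro B hB hB'
            rw [Finset.mem_filter] at hB hB'
            rw [hpay B hB.2]
            by_cases hBr : B.card ≤ r
            · rw [if_pos hBr]
              have hne : ¬ (J ∪ B).Nonempty := fun h => hB' ⟨hB.1, hB.2, hBr, h⟩
              rw [Finset.not_nonempty_iff_eq_empty, Finset.union_eq_empty] at hne
              obtain ⟨rfl, rfl⟩ := hne
              simp only [Finset.card_empty, Finset.sum_empty, add_zero, pow_zero, mul_one,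
                Nat.sub_zero]
              rw [Polynomial.coeff_one, if_neg hr, mul_zero, mul_zero]
            · rw [if_neg hBr, mul_zero, mul_zero]
        rw [hsplit]
        refine Finset.sum_le_sum fun B hB => ?_
        rw [Finset.mem_filter] at hB
        obtain ⟨_, hB1, hB2, hB3⟩ := hB
        rw [hpay B hB1, if_pos hB2]
        have := mul_le_mul_of_nonneg_left (hstep B hB1 hB2 hB3)
          (Finset.prod_nonneg fun S (_ : S ∈ B) => hw0 S)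
        linarith
      refine le_trans ?_ hsum
      have hQ : K5le 0 (P ^ J.card * b ^ (∑ S ∈ J, S.card)) :=
        k5_nonneg_mul (k5_nonneg_pow hP _) (k5_nonneg_pow hb _)
      have hUc : U.card + 2 * (K + 2) ≤ c₀ := by
        have := hV.Uc
        omega
      have h4 := k5_total (U := U) hα₂ hα₁ hβ₂ hβ₁ hd hθ0 hθ1 hc h1 h2 hV.mU hUc hV.m2
        ht1.1 ht1.2 r hQ
      have hmono : (P ^ (J.card + 1) * b ^ (m.card + ∑ S ∈ J, S.card)).coeff r ≤
          (P ^ J.card * b ^ (∑ S ∈ J, S.card) *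
            Pk K (k5A α₂ α₁ (tp α₂ α₁ β₂ β₁ K (k + 1))) *
            (1 + k5G β₂ β₁ (tp α₂ α₁ β₂ β₁ K (k + 1))) ^ m.card).coeff r := by
        have e : P ^ (J.card + 1) * b ^ (m.card + ∑ S ∈ J, S.card) =
            P ^ J.card * b ^ (∑ S ∈ J, S.card) * P * b ^ m.card := by
          rw [pow_succ, pow_add]; ring
        rw [e]
        exact k5_mul (k5_nonneg_mul hQ (k5_trans hP hP')) (k5_nonneg_pow hb _)
          (k5_mul hQ hP (k5_refl _) hP') (k5_pow hb hb' _) r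
      calc θ ^ ((K + 2) * (f + 1)) *
            (P ^ (J.card + 1) * b ^ (m.card + ∑ S ∈ J, S.card)).coeff r
          = θ ^ ((K + 2) * f) * (θ ^ (K + 2) *
            (P ^ (J.card + 1) * b ^ (m.card + ∑ S ∈ J, S.card)).coeff r) := by
            rw [show (K + 2) * (f + 1) = (K + 2) * f + (K + 2) by ring, pow_add]
            ring
        _ ≤ θ ^ ((K + 2) * f) * (θ ^ (K + 2) *
            (P ^ J.card * b ^ (∑ S ∈ J, S.card) *
            Pk K (k5A α₂ α₁ (tp α₂ α₁ β₂ β₁ K (k + 1))) *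
            (1 + k5G β₂ β₁ (tp α₂ α₁ β₂ β₁ K (k + 1))) ^ m.card).coeff r) :=
            mul_le_mul_of_nonneg_left
              (mul_le_mul_of_nonneg_left hmono (pow_nonneg hθ0 _)) (pow_nonneg hθ0 _)
        _ ≤ _ := mul_le_mul_of_nonneg_left h4 (pow_nonneg hθ0 _)

end iter

/-! ### the theorem -/

theorem mac_mass {α₂ α₁ β₂ β₁ : ℝ} (hα₂ : 0 ≤ α₂) (hα₁ : 0 ≤ α₁) (hβ₂ : 0 ≤ β₂) (hβ₁ : 0 ≤ β₁)
    (K k r : ℕ) (δ : ℝ) (hδ : 0 < δ) : ∃ D₀ : ℕ, ∀ d : ℕ, D₀ ≤ d →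
    (1 - δ) * (mp α₂ α₁ β₂ β₁ K k).coeff r ≤
      mac (d := d) (wS (α₂ / d ^ 2) (α₁ / d) (β₂ / d) β₁) (fun _ => 1) r r ∅ ∅ ∅ 0 := by
  set N : ℕ := (K + 2) * r with hN
  set η : ℝ := min δ 1 / (N + 1) with hη
  set c₀ : ℕ := 2 * r + 2 * (K + 2) with hc₀
  have hN1 : (0 : ℝ) < N + 1 := by positivity
  have hη0 : 0 < η := div_pos (lt_min hδ one_pos) hN1
  have hη1 : η ≤ 1 := by
    rw [hη, div_le_one hN1]
    have : min δ 1 ≤ 1 := min_le_right _ _
    have : (0 : ℝ) ≤ N := by positivity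
    linarith
  refine ⟨⌈(2 * (c₀ + 1 : ℝ)) / η⌉₊ + 1, fun d hd => ?_⟩
  have hd1 : 1 ≤ d := by omega
  have hd0 : (0 : ℝ) < d := by exact_mod_cast hd1
  have hdc : 2 * (c₀ + 1 : ℝ) ≤ η * d := by
    have h1 : (2 * (c₀ + 1 : ℝ)) / η ≤ ⌈(2 * (c₀ + 1 : ℝ)) / η⌉₊ := Nat.le_ceil _
    have h2 : ((⌈(2 * (c₀ + 1 : ℝ)) / η⌉₊ : ℕ) : ℝ) ≤ d := by
      exact_mod_cast (by omega : ⌈(2 * (c₀ + 1 : ℝ)) / η⌉₊ ≤ d)
    have h3 := h1.trans h2
    rw [div_le_iff₀ hη0] at h3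
    linarith
  have hηd : η * d ≤ d := by nlinarith
  have hcR : (c₀ : ℝ) + 1 ≤ d := by
    have : (0 : ℝ) ≤ c₀ := by positivity
    linarith
  have hc : c₀ + 1 ≤ d := by exact_mod_cast hcR
  have h1 : (1 - η) * d ≤ d - c₀ := by
    have : (0 : ℝ) ≤ c₀ := by positivity
    linarith
  have h2 : (1 - η) * (d : ℝ) ^ 2 ≤ (d - c₀) * (d - c₀ - 1) := by
    have hc0 : (0 : ℝ) ≤ c₀ := by positivity
    have e : (d - c₀ : ℝ) * (d - c₀ - 1) = (d : ℝ) ^ 2 - (2 * c₀ + 1) * d + c₀ * (c₀ + 1) := by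
      ring
    rw [e]
    have : (2 * c₀ + 1 : ℝ) * d ≤ (η * d) * d := by
      apply mul_le_mul_of_nonneg_right _ hd0.le
      linarith
    nlinarith
  have hV : K5V (d := d) r r r ∅ ∅ ∅ :=
    ⟨by simp, by simp, by simp, by simp, by simp, by simp, by simp, by simp⟩
  have h3 := k5_main (α₂ := α₂) (α₁ := α₁) (β₂ := β₂) (β₁ := β₁) hα₂ hα₁ hβ₂ hβ₁ hd1
    (c₀ := c₀) (K := K) (k := k) (r₀ := r) (θ := 1 - η) (by linarith) (by linarith) hc h1 h2
    (le_of_eq hc₀.symm) r r ∅ ∅ ∅ 0 hV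
  refine le_trans ?_ h3
  have ht0 := k5_tp_nonneg hα₂ hα₁ hβ₂ hβ₁ K k
  have hP : 0 ≤ (Pk K (k5A α₂ α₁ (tp α₂ α₁ β₂ β₁ K k))).coeff r := by
    have := k5_Pk_nonneg K (k5_A_nonneg hα₂ hα₁ ht0.1 ht0.2) r
    rwa [Polynomial.coeff_zero] at this
  simp only [Finset.card_empty, Finset.sum_empty, zero_add, pow_one, add_zero, pow_zero,
    mul_one]
  have e : mp α₂ α₁ β₂ β₁ K k = Pk K (k5A α₂ α₁ (tp α₂ α₁ β₂ β₁ K k)) := rfl
  rw [e]
  refine mul_le_mul_of_nonneg_right ?_ hP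
  have hb := one_add_mul_le_pow (a := -η) (by linarith) N
  have hNη : (N : ℝ) * η ≤ δ := by
    rw [hη, mul_div_assoc', div_le_iff₀ hN1]
    have h5 : min δ 1 ≤ δ := min_le_left _ _
    have h6 : (0 : ℝ) ≤ N := by positivity
    nlinarith
  calc 1 - δ ≤ 1 + N * (-η) := by linarith
    _ ≤ (1 + -η) ^ N := hb
    _ = (1 - η) ^ ((K + 2) * r) := by rw [← sub_eq_add_neg]

end Pool.Agent.Lib.MP_8501c9_pr.Deep
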