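import Pool.Agent.Lib.MP_8501c9_pr.Deep.Defs2
import Pool.Agent.Lib.MP_8501c9_pr.Deep.ChooseY
import Pool.Agent.Lib.MP_8501c9_pr.Deep.MacMass
import Pool.Agent.Lib.MP_8501c9_pr.Deep.Growth
import Pool.Agent.Lib.MP_8501c9_pr.Deep.MacIter
import Pool.Agent.Lib.MP_8501c9_pr.Deep.Equalize
import Pool.Agent.Lib.MP_8501c9_pr.Wide.Fill
import Pool.Agent.Lib.MP_8501c9_pr.Wide.NewCount
import Pool.Agent.Lib.MP_8501c9_pr.Wide.Pairs
import Pool.Agent.Lib.MP_8501c9_pr.PotA

/-!
# Task K9: one block, side lengths of order `d`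
-/

set_option autoImplicit false
open Set

namespace Pool.Agent.Lib.MP_8501c9_pr.Deep

open Pool.Agent.Lib.MP_8501c9_pr Pool.Agent.Lib.MP_8501c9_pr.Mid
open Pool.Agent.Lib.MP_8501c9_pr.Wide

variable {n d : ℕ}

/-! ### large dimensions -/

theorem k9_large (c U : ℝ) (hc : 0 < c) : ∃ D₀ : ℕ, ∀ d : ℕ, D₀ ≤ d →
    1 ≤ d ∧ U ≤ Real.log d ∧ Real.log d ^ 13 ≤ c * d := by
  have h1 : ∀ᶠ x : ℝ in Filter.atTop, ‖Real.log x ^ 13‖ ≤ c * ‖x‖ := by
    have := (Real.isLittleO_pow_log_id_atTop (n := 13)).def hc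
    simpa using this
  have h2 : ∀ᶠ x : ℝ in Filter.atTop, U ≤ Real.log x :=
    Real.tendsto_log_atTop.eventually_ge_atTop U
  obtain ⟨x₀, hx₀⟩ := Filter.eventually_atTop.1 (h1.and h2)
  refine ⟨⌈x₀⌉₊ + 1, fun d hd => ?_⟩
  have hd0 : x₀ ≤ d := (Nat.le_ceil x₀).trans (by
    have : ⌈x₀⌉₊ ≤ d := by omega
    exact_mod_cast this)
  obtain ⟨a1, a2⟩ := hx₀ d hd0
  refine ⟨by omega, a2, (le_abs_self _).trans ?_⟩
  rw [← Real.norm_eq_abs]
  simpa using a1

/-- numerical conditions for one block -/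
structure K9P (d X M D' r : ℕ) (τ a L : ℝ) : Prop where
  hd : 1 ≤ d
  ha0 : 0 < a
  ha1 : a ≤ 1
  hτ : 0 < τ
  hr : 1 ≤ r
  ar : 1 ≤ a * r
  lo : τ * d ≤ X
  hi : (X : ℝ) ≤ Real.exp a * (τ * d)
  even : Even M
  r1 : 2 * r ≤ D'
  r2 : 2 * r ≤ d
  big : 3 * D' + 12 ≤ M
  X4 : D' + 4 ≤ X
  dJ : 3 * D' + 12 ≤ d
  yX : ((X + M : ℕ) : ℝ) ≤ Real.exp (a / 3) * X
  y1 : 2 * ((X + M : ℕ) : ℝ) ≤ Real.exp a * (2 * ((X + M : ℕ) : ℝ) - 1)
  sm : 2 * (r : ℝ) ≤ a * X
  vol : (d : ℝ) * (((M + 2 * D' : ℕ) : ℝ) / ((X - D' : ℕ) : ℝ)) ^ 2 ≤ a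
  few : 32 * (4 : ℝ) ^ r ≤ a * d
  L6 : sfun d ((X + M - 1) * d) + 6 * Real.log d ≤ L
  gd : 2 * Real.exp (4 * a) * (gg τ * τ) ≤ d

/-- number of macro steps -/
def k9_S (d M D' r : ℕ) : ℕ := (M - 2 * D' - 6) * d / (2 * r)

/-- size after `s` macro steps -/
def k9_t (d X r s : ℕ) : ℕ := (X - 1) * d + 2 * r * s

section K9

variable {X M D' r : ℕ} {τ a L : ℝ}

theorem k9_S_le (d M D' r : ℕ) : 2 * r * k9_S d M D' r ≤ (M - 2 * D' - 6) * d :=
  Nat.mul_div_le _ _

theorem k9_S_ge (H : K9P d X M D' r τ a L) :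
    (M - 2 * D' - 7) * d ≤ 2 * r * k9_S d M D' r := by
  have h1 := Nat.div_add_mod ((M - 2 * D' - 6) * d) (2 * r)
  have h2 := Nat.mod_lt ((M - 2 * D' - 6) * d) (show 0 < 2 * r by have := H.hr; omega)
  have h3 := H.r2
  have h4 := H.big
  have h5 : M - 2 * D' - 6 = (M - 2 * D' - 7) + 1 := by omega
  unfold k9_S
  rw [h5] at h1 h2 ⊢
  rw [add_mul, one_mul] at h1 h2 ⊢
  omega

theorem k9_bounds (H : K9P d X M D' r τ a L) {s : ℕ} (hs : s ≤ k9_S d M D' r)
    {x : Fin d → ℕ} (hx : Good X r s D' x) (i : Fin d) :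
    X ≤ x i + D' ∧ x i + D' + 6 ≤ X + M := by
  have hd0 : (0 : ℝ) < d := by exact_mod_cast H.hd
  have h1 := abs_le.1 (hx.2 i)
  have h2 : 2 * r * s ≤ (M - 2 * D' - 6) * d :=
    (Nat.mul_le_mul_left _ hs).trans (k9_S_le d M D' r)
  have h3 : (2 * (r : ℝ) * s / d) ≤ ((M - 2 * D' - 6 : ℕ) : ℝ) := by
    rw [div_le_iff₀ hd0]
    exact_mod_cast h2
  have h4 : (0 : ℝ) ≤ 2 * (r : ℝ) * s / d := by positivity
  have hbig := H.big
  have h5 : ((M - 2 * D' - 6 : ℕ) : ℝ) + (2 * D' + 6) = M := by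
    have : M - 2 * D' - 6 + (2 * D' + 6) = M := by omega
    exact_mod_cast this
  constructor
  · have : (X : ℝ) ≤ x i + D' := by linarith
    exact_mod_cast this
  · have : (x i : ℝ) + D' + 6 ≤ X + M := by linarith
    exact_mod_cast this

theorem k9_lower (H : K9P d X M D' r τ a L)
    {x : Fin d → ℕ} (hx : Good X r (k9_S d M D' r) D' x) (i : Fin d) :
    X + M ≤ x i + 3 * D' + 7 := by
  have hd0 : (0 : ℝ) < d := by exact_mod_cast H.hd
  have h1 := abs_le.1 (hx.2 i)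
  have h2 := k9_S_ge H
  have h3 : ((M - 2 * D' - 7 : ℕ) : ℝ) ≤ (2 * (r : ℝ) * k9_S d M D' r / d) := by
    rw [le_div_iff₀ hd0]
    exact_mod_cast h2
  have hbig := H.big
  have h5 : ((M - 2 * D' - 7 : ℕ) : ℝ) + (2 * D' + 7) = M := by
    have : M - 2 * D' - 7 + (2 * D' + 7) = M := by omega
    exact_mod_cast this
  have : (X : ℝ) + M ≤ x i + 3 * D' + 7 := by linarith
  exact_mod_cast this

theorem k9_sum (H : K9P d X M D' r τ a L) {s : ℕ} (hs : s ≤ k9_S d M D' r)
    {x : Fin d → ℕ} (hx : Good X r s D' x) : ∑ m, (x m - 1) = k9_t d X r s := by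
  have hX := H.X4
  have h1 : ∑ m, (x m - 1) + d = ∑ m, x m := by
    have : ∀ m, x m = (x m - 1) + 1 := fun m => by
      have := (k9_bounds H hs hx m).1
      omega
    calc ∑ m, (x m - 1) + d = ∑ m, ((x m - 1) + 1) := by
          rw [Finset.sum_add_distrib]; simp
      _ = ∑ m, x m := Finset.sum_congr rfl fun m _ => (this m).symm
  rw [hx.1] at h1
  unfold k9_t
  obtain ⟨X', rfl⟩ : ∃ X', X = X' + 1 := ⟨X - 1, by omega⟩
  rw [Nat.add_sub_cancel]
  have h2 : d * (X' + 1) = X' * d + d := by ring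
  omega

theorem k9_t_le (H : K9P d X M D' r τ a L) {s : ℕ} (hs : s ≤ k9_S d M D' r) :
    k9_t d X r s ≤ (X + M - 1) * d := by
  have h2 : 2 * r * s ≤ (M - 2 * D' - 6) * d :=
    (Nat.mul_le_mul_left _ hs).trans (k9_S_le d M D' r)
  have hX := H.X4
  have hbig := H.big
  unfold k9_t
  calc (X - 1) * d + 2 * r * s ≤ (X - 1) * d + (M - 2 * D' - 6) * d := by omega
    _ = (X - 1 + (M - 2 * D' - 6)) * d := by ring
    _ ≤ _ := Nat.mul_le_mul_right _ (by omega)

theorem k9_sfun (H : K9P d X M D' r τ a L) {t : ℕ} (ht : t ≤ (X + M - 1) * d) :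
    sfun d t + 6 * Real.log d ≤ L := by
  have := sfun_mono d H.hd ht
  linarith [H.L6]

theorem k9_vol (H : K9P d X M D' r τ a L) {s : ℕ} (hs : s ≤ k9_S d M D' r)
    {x : Fin d → ℕ} (hx : Good X r s D' x) :
    Real.exp (sfun d (k9_t d X r s)) ≤ Real.exp a * ∏ i, (x i : ℝ) ∧
      ∏ i, (x i : ℝ) ≤ Real.exp (sfun d (k9_t d X r s)) := by
  have hX := H.X4
  have hbig := H.big
  have hb := k9_bounds H hs hx
  constructor
  · have h1 := Fill_vol (d := d) (l := X - D') (J := M + 2 * D') (by omega) x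
      (fun m => by have := hb m; omega) (fun m => by have := hb m; omega)
    rw [k9_sum H hs hx] at h1
    have h2 : Real.exp (sfun d (k9_t d X r s)) ≤ Real.exp a *
        Real.exp (sfun d (k9_t d X r s) -
          d * (((M + 2 * D' : ℕ) : ℝ) / ((X - D' : ℕ) : ℝ)) ^ 2) := by
      rw [← Real.exp_add]
      apply Real.exp_le_exp.2
      linarith [H.vol]
    exact h2.trans (mul_le_mul_of_nonneg_left h1 (Real.exp_pos _).le)
  · have hx1 : ∀ m, 1 ≤ x m := fun m => by have := hb m; omega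
    have h1 := Fill_log_prod H.hd x hx1
    rw [k9_sum H hs hx] at h1
    have hpos : 0 < ∏ m, (x m : ℝ) := Finset.prod_pos fun m _ => by
      have := hx1 m
      exact_mod_cast this
    rw [← Real.exp_log hpos]
    apply Real.exp_le_exp.2
    rw [h1]
    have h2 : 0 ≤ ∑ m, gap d (k9_t d X r s) (x m) :=
      Finset.sum_nonneg fun m _ => gap_nonneg _ _ _ (hx1 m)
    linarith

/-! ### the conditions for a macro step -/

theorem k9_key {a E P X y : ℝ} (hE0 : 0 ≤ E) (hE : E ≤ Real.exp a * P)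
    (hX : 0 < X) (hXy : X ≤ y) (hy : y ≤ Real.exp (a / 3) * X)
    (h2 : 2 * y ≤ Real.exp a * (2 * y - 1)) (ha : 0 ≤ a) {j : ℕ} (hj : j ≤ 3) :
    E / X ^ j ≤ Real.exp (3 * a) * (P * (2 * y - 1) / (2 * y ^ (j + 1))) := by
  have hy0 : 0 < y := hX.trans_le hXy
  have hyj : y ^ j ≤ Real.exp a * X ^ j := by
    calc y ^ j ≤ (Real.exp (a / 3) * X) ^ j := pow_le_pow_left₀ hy0.le hy j
      _ = Real.exp (a / 3) ^ j * X ^ j := mul_pow _ _ _
      _ ≤ Real.exp a * X ^ j := by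
        apply mul_le_mul_of_nonneg_right _ (by positivity)
        rw [← Real.exp_nat_mul]
        apply Real.exp_le_exp.2
        have : (j : ℝ) ≤ 3 := by exact_mod_cast hj
        nlinarith
  have h2y : 0 < 2 * y - 1 := by
    have h3 : 0 < Real.exp a * (2 * y - 1) := by linarith
    exact (pos_iff_pos_of_mul_pos h3).1 (Real.exp_pos _)
  have hP : 0 ≤ P := by
    have h3 : 0 ≤ Real.exp a * P := hE0.trans hE
    exact nonneg_of_mul_nonneg_right h3 (Real.exp_pos _)
  have h3 : E * y ^ j * (2 * y) ≤ (Real.exp a * P) * (Real.exp a * X ^ j) *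
      (Real.exp a * (2 * y - 1)) := by
    apply mul_le_mul (mul_le_mul hE hyj (by positivity) (by positivity)) h2 (by positivity)
      (by positivity)
  have h4 : Real.exp (3 * a) = Real.exp a * Real.exp a * Real.exp a := by
    rw [← Real.exp_add, ← Real.exp_add]
    congr 1
    ring
  rw [h4, div_le_iff₀ (by positivity)]
  have h5 : Real.exp a * Real.exp a * Real.exp a * (P * (2 * y - 1) / (2 * y ^ (j + 1))) * X ^ j =
      (Real.exp a * P) * (Real.exp a * X ^ j) * (Real.exp a * (2 * y - 1)) /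
        (2 * y ^ (j + 1)) := by
    ring
  rw [h5, le_div_iff₀ (by positivity)]
  calc E * (2 * y ^ (j + 1)) = E * y ^ j * (2 * y) := by ring
    _ ≤ _ := h3

/-- normalisation of the weights -/
noncomputable def k9_om (d X r : ℕ) (a L : ℝ) (s : ℕ) : ℝ :=
  Real.exp (-(4 * a)) * (2 * d) * Real.exp (-L) * Real.exp (sfun d (k9_t d X r s)) / (X : ℝ) ^ 2

theorem k9_mok (H : K9P d X M D' r τ a L) {s : ℕ} (hs : s ≤ k9_S d M D' r)
    {x : Fin d → ℕ} (hx : Good X r s D' x) :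
    MOK (Real.exp (-L)) a (k9_om d X r a L s * (4 / τ / d ^ 2)) (k9_om d X r a L s * (2 / d))
      (k9_om d X r a L s * (1 / d)) (k9_om d X r a L s * (τ / 2)) r (X + M) x := by
  have hd0 : (0 : ℝ) < d := by exact_mod_cast H.hd
  have hX4 := H.X4
  have hr1 := H.r1
  have hX0 : (0 : ℝ) < X := by
    have : 0 < X := by omega
    exact_mod_cast this
  have hτ := H.hτ
  have hb := k9_bounds H hs hx
  obtain ⟨v1, v2⟩ := k9_vol H hs hx
  set E := Real.exp (sfun d (k9_t d X r s)) with hE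
  set P := ∏ i, (x i : ℝ) with hP
  set p := Real.exp (-L) with hp
  have hom : k9_om d X r a L s = Real.exp (-(4 * a)) * (2 * d) * p * E / (X : ℝ) ^ 2 := rfl
  have hp0 : 0 < p := Real.exp_pos _
  have hE0 : 0 < E := Real.exp_pos _
  have hP0 : 0 < P := by
    have h1 : 0 < Real.exp a * P := hE0.trans_le v1
    exact (pos_iff_pos_of_mul_pos h1).1 (Real.exp_pos _)
  set y : ℝ := ((X + M : ℕ) : ℝ) with hy
  have hXy : (X : ℝ) ≤ y := by
    rw [hy]; push_cast; linarith [(Nat.cast_nonneg M : (0 : ℝ) ≤ M)]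
  have hy0 : 0 < y := hX0.trans_le hXy
  have key := fun (j : ℕ) (hj : j ≤ 3) => k9_key hE0.le v1 hX0 hXy H.yX H.y1 H.ha0.le hj
  have hea : Real.exp (-(4 * a)) * Real.exp (3 * a) ≤ Real.exp (-a) := by
    rw [← Real.exp_add]
    apply Real.exp_le_exp.2
    linarith
  have hea1 : Real.exp (-a) ≤ 1 := by
    rw [Real.exp_le_one_iff]
    linarith [H.ha0]
  have h2y : 0 < 2 * y - 1 := by
    have h3 : 0 < Real.exp a * (2 * y - 1) := by linarith [H.y1]
    exact (pos_iff_pos_of_mul_pos h3).1 (Real.exp_pos _)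
  -- the general estimate
  have gen : ∀ j ≤ 3, Real.exp (-(4 * a)) * (E / X ^ j) ≤
      Real.exp (-a) * (P * (2 * y - 1) / (2 * y ^ (j + 1))) := by
    intro j hj
    calc Real.exp (-(4 * a)) * (E / X ^ j) ≤ Real.exp (-(4 * a)) *
          (Real.exp (3 * a) * (P * (2 * y - 1) / (2 * y ^ (j + 1)))) :=
          mul_le_mul_of_nonneg_left (key j hj) (Real.exp_pos _).le
      _ = Real.exp (-(4 * a)) * Real.exp (3 * a) * (P * (2 * y - 1) / (2 * y ^ (j + 1))) := by
          ring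
      _ ≤ _ := mul_le_mul_of_nonneg_right hea (by positivity)
  have gen1 : ∀ j ≤ 3, Real.exp (-(4 * a)) * (E / X ^ j) ≤
      P * (2 * y - 1) / (2 * y ^ (j + 1)) := fun j hj =>
    (gen j hj).trans (mul_le_of_le_one_left (by positivity) hea1)
  have h2y1 : ∀ j : ℕ, P * (2 * y - 1) / (2 * y ^ (j + 1)) ≤ P / y ^ j := by
    intro j
    rw [div_le_div_iff₀ (by positivity) (by positivity), pow_succ]
    have : P * y ^ j * (2 * y - 1) ≤ P * y ^ j * (2 * y) :=
      mul_le_mul_of_nonneg_left (by linarith) (by positivity)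
    nlinarith
  refine ⟨?_, ?_, ?_, ?_, ?_, ?_, ?_⟩
  · intro i
    have := hb i
    omega
  · intro i
    have := hb i
    omega
  · -- h2
    have h1 := gen 3 le_rfl
    have h3 : 1 / (τ * d) ≤ Real.exp a / X := by
      rw [div_le_div_iff₀ (by positivity) hX0]
      linarith [H.hi]
    have h4 : k9_om d X r a L s * (4 / τ / d ^ 2) =
        8 * p * (Real.exp (-(4 * a)) * (E / X ^ 2)) * (1 / (τ * d)) := by
      rw [hom]
      field_simp
      ring
    rw [h4]
    calc 8 * p * (Real.exp (-(4 * a)) * (E / X ^ 2)) * (1 / (τ * d)) ≤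
        8 * p * (Real.exp (-(4 * a)) * (E / X ^ 2)) * (Real.exp a / X) :=
          mul_le_mul_of_nonneg_left h3 (by positivity)
      _ = 8 * p * Real.exp a * (Real.exp (-(4 * a)) * (E / X ^ 3)) := by
          field_simp
      _ ≤ 8 * p * Real.exp a * (Real.exp (-a) * (P * (2 * y - 1) / (2 * y ^ (3 + 1)))) :=
          mul_le_mul_of_nonneg_left h1 (by positivity)
      _ = 8 * p * (Real.exp a * Real.exp (-a)) * (P * (2 * y - 1) / (2 * y ^ (3 + 1))) := by
          ring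
      _ = _ := by
          rw [← Real.exp_add, add_neg_cancel, Real.exp_zero]
          ring
  · -- h1
    have h1 := gen1 2 (by norm_num)
    have h4 : k9_om d X r a L s * (2 / d) = 4 * p * (Real.exp (-(4 * a)) * (E / X ^ 2)) := by
      rw [hom]
      field_simp
      ring
    rw [h4]
    calc 4 * p * (Real.exp (-(4 * a)) * (E / X ^ 2)) ≤
        4 * p * (P * (2 * y - 1) / (2 * y ^ (2 + 1))) :=
          mul_le_mul_of_nonneg_left h1 (by positivity)
      _ = _ := by ring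
  · -- g2
    have h1 := (gen1 2 (by norm_num)).trans (h2y1 2)
    have h4 : k9_om d X r a L s * (1 / d) = 2 * p * (Real.exp (-(4 * a)) * (E / X ^ 2)) := by
      rw [hom]
      field_simp
    rw [h4]
    calc 2 * p * (Real.exp (-(4 * a)) * (E / X ^ 2)) ≤ 2 * p * (P / y ^ 2) :=
          mul_le_mul_of_nonneg_left h1 (by positivity)
      _ = _ := by ring
  · -- g1
    have h1 := (gen1 1 (by norm_num)).trans (h2y1 1)
    have h4 : k9_om d X r a L s * (τ / 2) =
        p * (Real.exp (-(4 * a)) * (E / X ^ 1)) * (τ * d / X) := by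
      rw [hom]
      field_simp
    rw [h4]
    have h5 : τ * d / X ≤ 1 := by
      rw [div_le_one hX0]
      exact H.lo
    calc p * (Real.exp (-(4 * a)) * (E / X ^ 1)) * (τ * d / X) ≤
        p * (Real.exp (-(4 * a)) * (E / X ^ 1)) * 1 :=
          mul_le_mul_of_nonneg_left h5 (by positivity)
      _ = p * (Real.exp (-(4 * a)) * (E / X ^ 1)) := mul_one _
      _ ≤ p * (P / y ^ 1) := mul_le_mul_of_nonneg_left h1 hp0.le
      _ = _ := by ring
  · -- few
    have hd1 : (1 : ℝ) ≤ d := by exact_mod_cast H.hd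
    have hpP : p * P ≤ 1 / (d : ℝ) ^ 6 := by
      calc p * P ≤ p * E := mul_le_mul_of_nonneg_left v2 hp0.le
        _ = Real.exp (-L + sfun d (k9_t d X r s)) := by rw [Real.exp_add]
        _ ≤ Real.exp (-(6 * Real.log d)) := by
            apply Real.exp_le_exp.2
            linarith [k9_sfun H (k9_t_le H hs)]
        _ = _ := by
            rw [Real.exp_neg, show 6 * Real.log (d : ℝ) = ((6 : ℕ) : ℝ) * Real.log d by norm_num,
              Real.exp_nat_mul, Real.exp_log hd0, one_div]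
    have h4 : (4 : ℝ) ^ r ≤ a * d / 32 := by linarith [H.few]
    have h5 : ((d : ℝ) + 1) ^ 2 ≤ 4 * d ^ 2 := by nlinarith
    calc p * (4 * ((d : ℝ) + 1) ^ 2 * P) * 4 ^ r =
        4 * ((d : ℝ) + 1) ^ 2 * (p * P) * 4 ^ r := by ring
      _ ≤ 4 * (4 * d ^ 2) * (1 / (d : ℝ) ^ 6) * (a * d / 32) := by
          have ha := H.ha0
          gcongr
      _ = a / 2 * (1 / (d : ℝ) ^ 3) := by
          field_simp
          ring
      _ ≤ a / 2 * 1 := by
          apply mul_le_mul_of_nonneg_left _ (by linarith [H.ha0])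
          rw [div_le_one (by positivity)]
          exact one_le_pow₀ hd1
      _ = _ := mul_one _

/-! ### the value of the macro steps -/

theorem k9_lt (H : K9P d X M D' r τ a L) {t : ℕ} (ht : (X - 1) * d ≤ t) :
    (X : ℝ) ≤ lt d t := by
  have hd0 : (0 : ℝ) < d := by exact_mod_cast H.hd
  have hX4 := H.X4
  unfold lt
  have h1 : ((X - 1 : ℕ) : ℝ) ≤ (t : ℝ) / d := by
    rw [le_div_iff₀ hd0]
    exact_mod_cast ht
  have h2 : ((X - 1 : ℕ) : ℝ) + 1 = X := by
    have : X - 1 + 1 = X := by omega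
    exact_mod_cast this
  linarith

theorem k9_gg (H : K9P d X M D' r τ a L) {t : ℕ} (ht : (X - 1) * d ≤ t) :
    0 < 2 * d * gg (lt d t / d) / lt d t ^ 2 ∧
    2 * d * gg (lt d t / d) / lt d t ^ 2 ≤ Real.exp a * (2 * d * gg τ / (X : ℝ) ^ 2) := by
  have hd0 : (0 : ℝ) < d := by exact_mod_cast H.hd
  have hX4 := H.X4
  have hX0 : (0 : ℝ) < X := by
    have : 0 < X := by omega
    exact_mod_cast this
  have hτ := H.hτ
  have hlt := k9_lt H ht
  have hlt0 : 0 < lt d t := hX0.trans_le hlt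
  have hg : 0 < gg τ := d8_gg_pos H.hτ
  have hg' : 0 < gg (lt d t / d) := d8_gg_pos (by positivity)
  have h1 : gg (lt d t / d) ≤ lt d t / d / τ * gg τ := gg_mono H.hτ (by
    rw [le_div_iff₀ hd0]
    linarith [H.lo])
  have h3 : 1 / (τ * d) ≤ Real.exp a / X := by
    rw [div_le_div_iff₀ (by positivity) hX0]
    linarith [H.hi]
  have h4 : 1 / lt d t ≤ 1 / X := one_div_le_one_div_of_le hX0 hlt
  refine ⟨by positivity, ?_⟩
  calc 2 * d * gg (lt d t / d) / lt d t ^ 2 ≤ 2 * d * (lt d t / d / τ * gg τ) / lt d t ^ 2 := by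
        gcongr
    _ = 2 * d * gg τ * (1 / (τ * d)) * (1 / lt d t) := by
        field_simp
    _ ≤ 2 * d * gg τ * (Real.exp a / X) * (1 / X) := by
        gcongr
    _ = _ := by
        field_simp

theorem k9_Ex0 (H : K9P d X M D' r τ a L) {t : ℕ} (ht : (X - 1) * d ≤ t) :
    Ex d t ≤ sfun d t + (a + Real.log (2 * d * gg τ / (X : ℝ) ^ 2)) := by
  have hd0 : (0 : ℝ) < d := by exact_mod_cast H.hd
  have hX4 := H.X4
  have hX0 : (0 : ℝ) < X := by
    have : 0 < X := by omega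
    exact_mod_cast this
  have hg : 0 < gg τ := d8_gg_pos H.hτ
  obtain ⟨h1, h2⟩ := k9_gg H ht
  have h3 := Real.log_le_log h1 h2
  rw [Real.log_mul (Real.exp_pos _).ne' (by positivity), Real.log_exp] at h3
  unfold Ex
  linarith

theorem k9_Ex (H : K9P d X M D' r τ a L) {s t : ℕ} (h1 : k9_t d X r s ≤ t)
    (h2 : t ≤ k9_t d X r s + 2 * r) :
    Ex d t ≤ Real.log (2 * d * gg τ / (X : ℝ) ^ 2) + sfun d (k9_t d X r s) + 2 * a := by
  have hX4 := H.X4
  have hX0 : (0 : ℝ) < X := by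
    have : 0 < X := by omega
    exact_mod_cast this
  have h0 : (X - 1) * d ≤ k9_t d X r s := by unfold k9_t; omega
  have h3 := k9_Ex0 H (h0.trans h1)
  obtain ⟨c, rfl⟩ := Nat.exists_eq_add_of_le h1
  have h4 := sfun_sub_le d (k9_t d X r s) c H.hd
  have h5 : X - 1 ≤ k9_t d X r s / d := (Nat.le_div_iff_mul_le H.hd).2 h0
  have h6 : (X : ℝ) ≤ ((k9_t d X r s / d : ℕ) : ℝ) + 1 := by
    have : X ≤ k9_t d X r s / d + 1 := by omega
    exact_mod_cast this
  have h7 : (c : ℝ) / (((k9_t d X r s / d : ℕ) : ℝ) + 1) ≤ a := by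
    rw [div_le_iff₀ (by positivity)]
    have e1 : (c : ℝ) ≤ 2 * r := by
      have : c ≤ 2 * r := by omega
      exact_mod_cast this
    have e2 := mul_le_mul_of_nonneg_left h6 H.ha0.le
    linarith [H.sm]
  linarith

theorem k9_step (H : K9P d X M D' r τ a L) (s : ℕ) :
    Real.exp (∑ t ∈ Finset.Ico (k9_t d X r s) (k9_t d X r (s + 1)),
      ((Ex d t - L) / 2 - 8 * a)) ≤
    Real.exp (-(a * r)) * k9_om d X r a L s ^ r * (1 / 2 * (Real.exp (-a) * gg τ) ^ r) := by
  have hd0 : (0 : ℝ) < d := by exact_mod_cast H.hd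
  have hX4 := H.X4
  have hX0 : (0 : ℝ) < X := by
    have : 0 < X := by omega
    exact_mod_cast this
  have hg : 0 < gg τ := d8_gg_pos H.hτ
  have hts : k9_t d X r (s + 1) = k9_t d X r s + 2 * r := by unfold k9_t; ring
  set q := Real.log (2 * d * gg τ / (X : ℝ) ^ 2) + sfun d (k9_t d X r s) - L with hq
  have h1 : ∑ t ∈ Finset.Ico (k9_t d X r s) (k9_t d X r (s + 1)), ((Ex d t - L) / 2 - 8 * a) ≤
      2 * r * ((q + 2 * a) / 2 - 8 * a) := by
    have h2 : ∀ t ∈ Finset.Ico (k9_t d X r s) (k9_t d X r (s + 1)),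
        ((Ex d t - L) / 2 - 8 * a) ≤ (q + 2 * a) / 2 - 8 * a := by
      intro t ht
      rw [Finset.mem_Ico, hts] at ht
      have := k9_Ex H ht.1 ht.2.le
      rw [hq]
      linarith
    have h3 := Finset.sum_le_card_nsmul _ _ _ h2
    rw [Nat.card_Ico, hts, Nat.add_sub_cancel_left, nsmul_eq_mul] at h3
    rw [hts]
    push_cast at h3
    exact h3
  have h4 : k9_om d X r a L s * gg τ = Real.exp (-(4 * a) + q) := by
    rw [hq]
    have e1 : -(4 * a) + (Real.log (2 * d * gg τ / (X : ℝ) ^ 2) + sfun d (k9_t d X r s) - L) =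
        -(4 * a) + Real.log (2 * d * gg τ / (X : ℝ) ^ 2) + sfun d (k9_t d X r s) + -L := by ring
    rw [e1, Real.exp_add, Real.exp_add, Real.exp_add, Real.exp_log (by positivity)]
    unfold k9_om
    ring
  have h5 : Real.exp (-(a * r)) * k9_om d X r a L s ^ r *
      (1 / 2 * (Real.exp (-a) * gg τ) ^ r) =
      Real.exp (-(a * r) + r * (-(4 * a) + q) + r * (-a) - Real.log 2) := by
    rw [Real.exp_sub, Real.exp_add, Real.exp_add, Real.exp_log (by norm_num),
      Real.exp_nat_mul, Real.exp_nat_mul, ← h4, mul_pow, mul_pow]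
    ring
  rw [h5]
  apply Real.exp_le_exp.2
  refine h1.trans ?_
  have h6 := Real.log_two_lt_d9
  have h7 := H.ar
  nlinarith

theorem k9_prod (F : ℕ → ℝ) (d X r S : ℕ) :
    ∏ s ∈ Finset.range S, Real.exp (∑ t ∈ Finset.Ico (k9_t d X r s) (k9_t d X r (s + 1)), F t) =
      Real.exp (∑ t ∈ Finset.Ico ((X - 1) * d) (k9_t d X r S), F t) := by
  induction S with
  | zero => simp [k9_t]
  | succ S ih =>
    rw [Finset.prod_range_succ, ih, ← Real.exp_add]
    congr 1
    apply Finset.sum_Ico_consecutive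
    · unfold k9_t; omega
    · unfold k9_t
      have : 2 * r * S ≤ 2 * r * (S + 1) := Nat.mul_le_mul_left _ (Nat.le_succ S)
      omega

theorem k9_pairs (F : ℕ → ℝ) (c : ℝ) (t m : ℕ) :
    ∏ i ∈ Finset.range m, Real.exp (F (t + 2 * i) + F (t + 2 * i + 1) + c) =
      Real.exp (∑ u ∈ Finset.Ico t (t + 2 * m), F u + m * c) := by
  induction m with
  | zero => simp
  | succ m ih =>
    rw [Finset.prod_range_succ, ih, ← Real.exp_add]
    congr 1
    have h1 : t + 2 * (m + 1) = t + 2 * m + 1 + 1 := by ring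
    rw [h1, Finset.sum_Ico_succ_top (by omega), Finset.sum_Ico_succ_top (by omega)]
    push_cast
    ring

/-! ### the steps with prescribed directions -/

theorem k9_one_sub {u : ℝ} (h0 : 0 ≤ u) (h1 : u ≤ 1) : u / 2 ≤ 1 - Real.exp (-u) := by
  have h2 : Real.exp (-u) ≤ 1 / (1 + u) := by
    rw [Real.exp_neg, ← one_div]
    apply one_div_le_one_div_of_le (by linarith)
    linarith [Real.add_one_le_exp u]
  have h3 : 1 / (1 + u) ≤ 1 - u / 2 := by
    rw [div_le_iff₀ (by linarith)]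
    nlinarith
  linarith

theorem k9_fch (H : K9P d X M D' r τ a L) {t : ℕ} (ht0 : (X - 1) * d ≤ t)
    (ht1 : t + 1 ≤ (X + M - 1) * d) {w : ℝ} (hw : w ≤ a) :
    Real.exp ((Ex d t - L) / 2 + (Ex d (t + 1) - L) / 2 + -(7 * Real.log d)) ≤
      fch (Real.exp (-L)) (Real.exp (sfun d t - w)) (X + M) := by
  have hd0 : (0 : ℝ) < d := by exact_mod_cast H.hd
  have hd1 : (1 : ℝ) ≤ d := by exact_mod_cast H.hd
  have hX4 := H.X4
  have hX0 : (0 : ℝ) < X := by
    have : 0 < X := by omega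
    exact_mod_cast this
  have hg : 0 < gg τ := d8_gg_pos H.hτ
  have hτ := H.hτ
  set y : ℝ := ((X + M : ℕ) : ℝ) with hy
  have hy4 : 4 ≤ y := by
    have : 4 ≤ X + M := by omega
    rw [hy]
    exact_mod_cast this
  have hy64 : 64 ≤ y ^ 3 := by
    calc (64 : ℝ) = 4 ^ 3 := by norm_num
      _ ≤ y ^ 3 := pow_le_pow_left₀ (by norm_num) hy4 3
  have hy0 : 0 < y := by linarith
  -- the right-hand side
  have h1 : fch (Real.exp (-L)) (Real.exp (sfun d t - a)) (X + M) ≤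
      fch (Real.exp (-L)) (Real.exp (sfun d t - w)) (X + M) :=
    l9_fch_mono (Real.exp_pos _).le (Real.exp_le_exp.2 (by linarith)) _
  refine le_trans ?_ h1
  unfold fch
  have hpv : Real.exp (-L) * Real.exp (sfun d t - a) = Real.exp (sfun d t - L) * Real.exp (-a) := by
    rw [← Real.exp_add, ← Real.exp_add]
    congr 1
    ring
  have hu : 4 * Real.exp (-L) * Real.exp (sfun d t - a) / y ^ 3 =
      4 * (Real.exp (sfun d t - L) * Real.exp (-a)) / y ^ 3 := by
    rw [← hpv]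
    ring
  rw [← hy, hu]
  set e := Real.exp (sfun d t - L) with he
  have he0 : 0 < e := Real.exp_pos _
  have he1 : e ≤ 1 := by
    rw [he, Real.exp_le_one_iff]
    have := k9_sfun H (show t ≤ (X + M - 1) * d by omega)
    have := Real.log_nonneg hd1
    linarith
  have hea : Real.exp (-a) ≤ 1 := by
    rw [Real.exp_le_one_iff]
    linarith [H.ha0]
  have hu1 : 4 * (e * Real.exp (-a)) / y ^ 3 ≤ 1 := by
    rw [div_le_one (by positivity)]
    have : e * Real.exp (-a) ≤ 1 := mul_le_one₀ he1 (Real.exp_pos _).le hea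
    linarith
  refine le_trans ?_ (k9_one_sub (by positivity) hu1)
  -- the left-hand side
  have h2 := k9_Ex0 H ht0
  have h3 := k9_Ex0 H (ht0.trans (Nat.le_succ t))
  have h4 := sfun_add_le d t 1 H.hd
  have h5 := Real.log_two_gt_d9
  have h6 : (Ex d t - L) / 2 + (Ex d (t + 1) - L) / 2 + -(7 * Real.log d) ≤
      (sfun d t - L) + Real.log 2 + a + Real.log (2 * d * gg τ / (X : ℝ) ^ 2) +
        -(7 * Real.log d) := by
    push_cast at h4
    linarith
  refine (Real.exp_le_exp.2 h6).trans ?_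
  rw [Real.exp_add, Real.exp_add, Real.exp_add, Real.exp_add, Real.exp_log (by norm_num),
    Real.exp_log (by positivity), ← he, Real.exp_neg,
    show 7 * Real.log (d : ℝ) = ((7 : ℕ) : ℝ) * Real.log d by norm_num,
    Real.exp_nat_mul, Real.exp_log hd0]
  have hy3 : y ^ 3 ≤ Real.exp a * X ^ 3 := by
    calc y ^ 3 ≤ (Real.exp (a / 3) * X) ^ 3 := pow_le_pow_left₀ hy0.le H.yX 3
      _ = Real.exp (a / 3) ^ 3 * X ^ 3 := mul_pow _ _ _
      _ = Real.exp a * X ^ 3 := by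
        rw [← Real.exp_nat_mul]
        congr 2
        push_cast
        ring
  have hmain : 2 * Real.exp a * gg τ * y ^ 3 ≤ X ^ 2 * d ^ 6 * Real.exp (-a) := by
    have e1 : Real.exp (-a) * (Real.exp a * Real.exp a * Real.exp a * Real.exp a) =
        Real.exp a * Real.exp a * Real.exp a := by
      rw [← Real.exp_add, ← Real.exp_add, ← Real.exp_add, ← Real.exp_add]
      congr 1
      ring
    have e4 : Real.exp (4 * a) = Real.exp a * Real.exp a * Real.exp a * Real.exp a := by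
      rw [← Real.exp_add, ← Real.exp_add, ← Real.exp_add]
      congr 1
      ring
    calc 2 * Real.exp a * gg τ * y ^ 3 ≤ 2 * Real.exp a * gg τ * (Real.exp a * X ^ 3) :=
          mul_le_mul_of_nonneg_left hy3 (by positivity)
      _ = 2 * Real.exp a * gg τ * Real.exp a * X ^ 2 * X := by ring
      _ ≤ 2 * Real.exp a * gg τ * Real.exp a * X ^ 2 * (Real.exp a * (τ * d)) :=
          mul_le_mul_of_nonneg_left H.hi (by positivity)
      _ = X ^ 2 * d * (2 * (Real.exp a * Real.exp a * Real.exp a) * (gg τ * τ)) := by ring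
      _ = X ^ 2 * d * (Real.exp (-a) * (2 * Real.exp (4 * a) * (gg τ * τ))) := by
          rw [← e1, e4]
          ring
      _ ≤ X ^ 2 * d * (Real.exp (-a) * d) := by
          have := H.gd
          gcongr
      _ = X ^ 2 * d ^ 2 * Real.exp (-a) := by ring
      _ ≤ _ := by
          have : (d : ℝ) ^ 2 ≤ d ^ 6 := pow_le_pow_right₀ hd1 (by norm_num)
          gcongr
  have hfin : e * 2 * Real.exp a * (2 * d * gg τ / (X : ℝ) ^ 2) * ((d : ℝ) ^ 7)⁻¹ ≤
      4 * (e * Real.exp (-a)) / y ^ 3 / 2 := by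
    have e1 : e * 2 * Real.exp a * (2 * d * gg τ / (X : ℝ) ^ 2) * ((d : ℝ) ^ 7)⁻¹ =
        2 * e * (2 * Real.exp a * gg τ * y ^ 3) / (X ^ 2 * d ^ 6 * y ^ 3) := by
      field_simp
    have e2 : 4 * (e * Real.exp (-a)) / y ^ 3 / 2 =
        2 * e * (X ^ 2 * d ^ 6 * Real.exp (-a)) / (X ^ 2 * d ^ 6 * y ^ 3) := by
      field_simp
      ring
    rw [e1, e2]
    apply div_le_div_of_nonneg_right _ (by positivity)
    exact mul_le_mul_of_nonneg_left hmain (by positivity)
  exact hfin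

/-! ### one block -/

/-- number of steps with prescribed directions -/
def k9_m (d M D' r : ℕ) : ℕ := (d * M - 2 * r * k9_S d M D' r) / 2

theorem k9_end (H : K9P d X M D' r τ a L) :
    k9_t d X r (k9_S d M D' r) + 2 * k9_m d M D' r = (X + M - 1) * d := by
  have h1 := k9_S_le d M D' r
  have hX := H.X4
  have hbig := H.big
  have h2 : (M - 2 * D' - 6) * d ≤ d * M := by
    rw [mul_comm]
    exact Nat.mul_le_mul_left _ (by omega)
  obtain ⟨M', hM'⟩ := H.even
  obtain ⟨q, hq⟩ : ∃ q, q = k9_S d M D' r := ⟨_, rfl⟩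
  unfold k9_m k9_t
  rw [← hq] at h1 ⊢
  have h3 : d * M = 2 * (d * M') := by rw [hM']; ring
  have h4 : 2 * r * q = 2 * (r * q) := by ring
  have h5 : (X + M - 1) * d = (X - 1) * d + d * M := by
    have : X + M - 1 = (X - 1) + M := by omega
    rw [this]
    ring
  rw [h5]
  omega

theorem k9_block (H : K9P d X M D' r τ a L) {lam : ℝ} (hlam0 : 0 < lam)
    (hlam1 : lam * (2 * r) ≤ 1)
    (hch : 2 * d * ((k9_S d M D' r : ℝ) + 1) *
      Real.exp (-(lam * D') + 4 * r ^ 2 * lam ^ 2 * (k9_S d M D' r : ℕ) / d) ≤ 1 / 2)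
    (hmac : 1 / 2 * (Real.exp (-a) * gg τ) ^ r ≤
      mac (d := d) (wS (4 / τ / d ^ 2) (2 / d) (1 / d) (τ / 2)) (fun _ => 1) r r ∅ ∅ ∅ 0)
    (htail : Real.log 2 + k9_m d M D' r * (7 * Real.log d) ≤
      8 * a * ((2 * r * k9_S d M D' r : ℕ) : ℝ))
    (hL : Real.log 2 ≤ L) {z : Vtx n d} (hroom : Room (X + M + 8) z) :
    Reach (Real.exp (-L)) z (fun x => ∀ m, x m = X) (fun x => ∀ m, x m = X + M)
      (Real.exp (∑ t ∈ Finset.Ico ((X - 1) * d) ((X + M - 1) * d),
        ((Ex d t - L) / 2 - 16 * a))) := by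
  intro g v hv hP x Z T hx hc
  have hx' : x = fun _ => X := funext hx
  subst hx'
  have hD := dst_of_cst hc
  have hp0 : 0 < Real.exp (-L) := Real.exp_pos _
  have hp2 : Real.exp (-L) ≤ 1 / 2 := by
    rw [show (1 / 2 : ℝ) = Real.exp (-Real.log 2) by
      rw [Real.exp_neg, Real.exp_log (by norm_num), one_div]]
    exact Real.exp_le_exp.2 (by linarith)
  have hroom' : ∀ w ≤ X + M + 8, Room w z := fun w hw i => by
    have := hroom i
    omega
  have hX4 := H.X4
  have hbig := H.big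
  have hr1 := H.r1
  have hdJ := H.dJ
  have hd0 : (0 : ℝ) < d := by exact_mod_cast H.hd
  set S := k9_S d M D' r with hS
  set m := k9_m d M D' r with hm
  have hend := k9_end H
  rw [← hS, ← hm] at hend
  set l := X + M - (3 * D' + 8) with hl
  set w := (d : ℝ) * (((3 * D' + 8 : ℕ) : ℝ) / (l : ℝ)) ^ 2 with hw
  have hwa : w ≤ a := by
    refine le_trans ?_ H.vol
    rw [hw]
    have e1 : (0 : ℝ) < ((X - D' : ℕ) : ℝ) := by
      have : 0 < X - D' := by omega
      exact_mod_cast this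
    have e2 : ((X - D' : ℕ) : ℝ) ≤ (l : ℝ) := by
      have : X - D' ≤ l := by omega
      exact_mod_cast this
    have e3 : ((3 * D' + 8 : ℕ) : ℝ) ≤ ((M + 2 * D' : ℕ) : ℝ) := by
      have : 3 * D' + 8 ≤ M + 2 * D' := by omega
      exact_mod_cast this
    gcongr
  set v' := (∏ i ∈ Finset.range m, fch (Real.exp (-L))
    (Real.exp (sfun d (k9_t d X r S + 2 * i) - w)) (X + M)) * v with hv'
  have hv'0 : 0 ≤ v' := mul_nonneg (Finset.prod_nonneg fun i _ =>
    l9_fch_nonneg hp0.le (Real.exp_pos _).le _) hv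
  -- from the good states to the end
  have hgood : ∀ x Z T, Good X r S D' x → Dst z x Z T → Ach (Real.exp (-L)) g Z T v' := by
    intro x Z T hx hxD
    have hb := k9_bounds H le_rfl hx
    have hlow := k9_lower H hx
    have hsum : ∑ m, (x m - 1) = k9_t d X r S := k9_sum H le_rfl hx
    have hsum2 : ∑ i, (X + M - x i) = 2 * m := by
      have e1 : ∑ i, (X + M - x i) + ∑ i, (x i - 1) = ∑ _i : Fin d, (X + M - 1) := by
        rw [← Finset.sum_add_distrib]
        refine Finset.sum_congr rfl fun i _ => ?_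
        have := hb i
        omega
      rw [Finset.sum_const, Finset.card_univ, Fintype.card_fin, smul_eq_mul, hsum] at e1
      have e2 : d * (X + M - 1) = (X + M - 1) * d := mul_comm _ _
      rw [e2, ← hend, add_comm] at e1
      exact Nat.add_left_cancel e1
    have h1 := reach_equalize (p := Real.exp (-L)) (x := x) (l := l) (X' := X + M) (y := X + M)
      (J := 3 * D' + 8) hp0.le (by linarith) (by omega)
      (fun i => by have := hlow i; omega) (fun i => by have := hb i; omega) (by omega) (by omega)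
      le_rfl (by rw [hsum2]; exact ⟨m, by ring⟩) (hroom' _ (by omega)) hv
      (fun Z T hZ => hP _ Z T (fun _ => rfl) hZ) Z T hxD
    rw [hsum2, hsum, Nat.mul_div_cancel_left _ (by norm_num)] at h1
    exact h1
  -- the macro steps
  have hrun := macro_run (p := Real.exp (-L)) (δ := a) hp0 hp2 H.ha0.le (z := z) (g := g)
    (v := v') hv'0 (α₂ := 4 / τ) (α₁ := 2) (β₂ := 1) (β₁ := τ / 2)
    (by have := H.hτ; positivity) (by norm_num) (by norm_num)
    (by have := H.hτ; positivity) (X := X) (r := r) (S := S) (D' := D') (y := X + M) H.hd H.hr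
    (k9_om d X r a L) (fun s => by unfold k9_om; positivity) (hroom' _ (by omega))
    (fun s hs x hx => k9_mok H hs.le hx) hlam0 hlam1 hch hgood Z T hD
  refine Ach.mono hrun ?_
  -- the value
  set M₀ := 1 / 2 * (Real.exp (-a) * gg τ) ^ r with hM₀
  have hg : 0 < gg τ := d8_gg_pos H.hτ
  have hM₀0 : 0 < M₀ := by positivity
  have hom0 : ∀ s, 0 ≤ k9_om d X r a L s := fun s => by unfold k9_om; positivity
  have h1 : Real.exp (∑ t ∈ Finset.Ico ((X - 1) * d) (k9_t d X r S),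
      ((Ex d t - L) / 2 - 8 * a)) ≤
      (∏ s ∈ Finset.range S, (Real.exp (-(a * r)) * k9_om d X r a L s ^ r)) * M₀ ^ S := by
    rw [← k9_prod]
    calc _ ≤ ∏ s ∈ Finset.range S, (Real.exp (-(a * r)) * k9_om d X r a L s ^ r * M₀) :=
          Finset.prod_le_prod (fun _ _ => (Real.exp_pos _).le) fun s _ => k9_step H s
      _ = _ := by
          rw [Finset.prod_mul_distrib, Finset.prod_const, Finset.card_range]
  have h2 : M₀ ^ S ≤ mac (d := d) (wS (4 / τ / d ^ 2) (2 / d) (1 / d) (τ / 2))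
      (fun _ => 1) r r ∅ ∅ ∅ 0 ^ S := pow_le_pow_left₀ hM₀0.le hmac S
  have h3 : Real.exp (∑ u ∈ Finset.Ico (k9_t d X r S) (k9_t d X r S + 2 * m),
      (Ex d u - L) / 2 + m * (-(7 * Real.log d))) ≤
      ∏ i ∈ Finset.range m, fch (Real.exp (-L))
        (Real.exp (sfun d (k9_t d X r S + 2 * i) - w)) (X + M) := by
    rw [← k9_pairs (fun u => (Ex d u - L) / 2)]
    refine Finset.prod_le_prod (fun _ _ => (Real.exp_pos _).le) fun i hi => ?_
    rw [Finset.mem_range] at hi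
    exact k9_fch H (by unfold k9_t; omega) (by rw [← hend]; omega) hwa
  have hprod0 : 0 ≤ ∏ s ∈ Finset.range S, (Real.exp (-(a * r)) * k9_om d X r a L s ^ r) :=
    Finset.prod_nonneg fun s _ => mul_nonneg (Real.exp_pos _).le (pow_nonneg (hom0 s) _)
  have h4 : Real.exp (∑ t ∈ Finset.Ico ((X - 1) * d) ((X + M - 1) * d),
        ((Ex d t - L) / 2 - 16 * a)) ≤
      1 / 2 * Real.exp (∑ t ∈ Finset.Ico ((X - 1) * d) (k9_t d X r S),
      ((Ex d t - L) / 2 - 8 * a)) *
      Real.exp (∑ u ∈ Finset.Ico (k9_t d X r S) (k9_t d X r S + 2 * m),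
      (Ex d u - L) / 2 + m * (-(7 * Real.log d))) := by
    rw [show (1 / 2 : ℝ) = Real.exp (-Real.log 2) by
      rw [Real.exp_neg, Real.exp_log (by norm_num), one_div], ← Real.exp_add, ← Real.exp_add]
    apply Real.exp_le_exp.2
    have ht0 : (X - 1) * d ≤ k9_t d X r S := by unfold k9_t; omega
    rw [← Finset.sum_Ico_consecutive _ ht0 (show k9_t d X r S ≤ (X + M - 1) * d by omega), ← hend]
    rw [Finset.sum_sub_distrib, Finset.sum_sub_distrib, Finset.sum_sub_distrib]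
    simp only [Finset.sum_const, Nat.card_Ico, nsmul_eq_mul]
    have e1 : k9_t d X r S - (X - 1) * d = 2 * r * S := by unfold k9_t; omega
    have e2 : k9_t d X r S + 2 * m - k9_t d X r S = 2 * m := by omega
    rw [e1, e2]
    have ha := H.ha0
    have e3 : (0 : ℝ) ≤ ((2 * m : ℕ) : ℝ) * (16 * a) := by positivity
    linarith
  calc _ ≤ 1 / 2 * Real.exp (∑ t ∈ Finset.Ico ((X - 1) * d) (k9_t d X r S),
      ((Ex d t - L) / 2 - 8 * a)) *
      Real.exp (∑ u ∈ Finset.Ico (k9_t d X r S) (k9_t d X r S + 2 * m),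
      (Ex d u - L) / 2 + m * (-(7 * Real.log d))) * v := mul_le_mul_of_nonneg_right h4 hv
    _ ≤ 1 / 2 * ((∏ s ∈ Finset.range S, (Real.exp (-(a * r)) * k9_om d X r a L s ^ r)) *
        mac (d := d) (wS (4 / τ / d ^ 2) (2 / d) (1 / d) (τ / 2))
          (fun _ => 1) r r ∅ ∅ ∅ 0 ^ S) *
        (∏ i ∈ Finset.range m, fch (Real.exp (-L))
          (Real.exp (sfun d (k9_t d X r S + 2 * i) - w)) (X + M)) * v := by
        have e5 := h1.trans (mul_le_mul_of_nonneg_left h2 hprod0)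
        apply mul_le_mul_of_nonneg_right _ hv
        apply mul_le_mul (mul_le_mul_of_nonneg_left e5 (by norm_num)) h3 (Real.exp_pos _).le
        have := (Real.exp_pos _).le.trans e5
        positivity
    _ = _ := by
        rw [hv']
        ring

end K9

/-! ### the parameters -/

theorem k9_param (τ a : ℝ) (hτ : 0 < τ) (ha0 : 0 < a) (ha1 : a ≤ 1) (r : ℕ) (hr : 1 ≤ r)
    (har : 1 ≤ a * r) : ∃ D₀ : ℕ, ∀ (d X : ℕ) (L : ℝ), D₀ ≤ d → τ * d ≤ X →
      (X : ℝ) ≤ Real.exp a * (τ * d) →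
      sfun d ((X + blk d - 1) * d) + 6 * Real.log d ≤ L →
      K9P d X (blk d) ⌈Real.log d ^ 4⌉₊ r τ a L ∧ Real.log 2 ≤ L ∧
      0 < 1 / (12 * r * Real.log d ^ 2) ∧ 1 / (12 * r * Real.log d ^ 2) * (2 * r) ≤ 1 ∧
      2 * d * ((k9_S d (blk d) ⌈Real.log d ^ 4⌉₊ r : ℝ) + 1) *
      Real.exp (-(1 / (12 * r * Real.log d ^ 2) * (⌈Real.log d ^ 4⌉₊ : ℕ)) +
        4 * r ^ 2 * (1 / (12 * r * Real.log d ^ 2)) ^ 2 *
          (k9_S d (blk d) ⌈Real.log d ^ 4⌉₊ r : ℕ) / d) ≤ 1 / 2 ∧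
      Real.log 2 + k9_m d (blk d) ⌈Real.log d ^ 4⌉₊ r * (7 * Real.log d) ≤
        8 * a * ((2 * r * k9_S d (blk d) ⌈Real.log d ^ 4⌉₊ r : ℕ) : ℝ) := by
  have hgg : 0 < gg τ := d8_gg_pos hτ
  have hr0 : (0 : ℝ) < r := by exact_mod_cast hr
  set c : ℝ := min 1 (min (a * τ / 12) (a * τ ^ 2 / 64)) with hc
  have hc0 : 0 < c := by
    rw [hc]
    positivity
  set U : ℝ := 5 + 32 * (4 : ℝ) ^ r / a + 2 * Real.exp (4 * a) * (gg τ * τ) + 96 * r + 2 / a with hU
  obtain ⟨D₀, hD₀⟩ := k9_large c U hc0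
  refine ⟨D₀, fun d X L hd hlo hhi hL6 => ?_⟩
  obtain ⟨hd1, hUu, hu13⟩ := hD₀ d hd
  have hd0 : (0 : ℝ) < d := by exact_mod_cast hd1
  set u := Real.log d with hu
  have q1 : 0 ≤ 32 * (4 : ℝ) ^ r / a := by positivity
  have q2 : 0 ≤ 2 * Real.exp (4 * a) * (gg τ * τ) := by positivity
  have q3 : (0 : ℝ) ≤ 96 * r := by positivity
  have q4 : 0 ≤ 2 / a := by positivity
  have u5 : 5 ≤ u := by linarith
  have uA : 32 * (4 : ℝ) ^ r / a ≤ u := by linarith
  have uB : 2 * Real.exp (4 * a) * (gg τ * τ) ≤ u := by linarith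
  have uC : (96 : ℝ) * r ≤ u := by linarith
  have uD : 2 / a ≤ u := by linarith
  have hu0 : 0 < u := by linarith
  have hu1 : 1 ≤ u := by linarith
  -- powers
  have p4 : 625 ≤ u ^ 4 := by
    calc (625 : ℝ) = 5 ^ 4 := by norm_num
      _ ≤ u ^ 4 := pow_le_pow_left₀ (by norm_num) u5 4
  have p4u : u ≤ u ^ 4 := by
    calc u = u ^ 1 := (pow_one u).symm
      _ ≤ u ^ 4 := pow_le_pow_right₀ hu1 (by norm_num)
  have p2 : 25 ≤ u ^ 2 := by
    calc (25 : ℝ) = 5 ^ 2 := by norm_num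
      _ ≤ u ^ 2 := pow_le_pow_left₀ (by norm_num) u5 2
  have p6 : 25 * u ^ 4 ≤ u ^ 6 := by
    calc 25 * u ^ 4 ≤ u ^ 2 * u ^ 4 := mul_le_mul_of_nonneg_right p2 (by positivity)
      _ = u ^ 6 := by ring
  have p13 : 8 * u ^ 6 ≤ u ^ 13 := by
    have h1 : (8 : ℝ) ≤ u ^ 7 := by
      calc (8 : ℝ) ≤ 5 ^ 7 := by norm_num
        _ ≤ u ^ 7 := pow_le_pow_left₀ (by norm_num) u5 7
    calc 8 * u ^ 6 ≤ u ^ 7 * u ^ 6 := mul_le_mul_of_nonneg_right h1 (by positivity)
      _ = u ^ 13 := by ring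
  have p12 : u ^ 12 ≤ u ^ 13 := pow_le_pow_right₀ hu1 (by norm_num)
  have hdu : u ^ 13 ≤ d := by
    have h1 : c ≤ 1 := min_le_left _ _
    have := mul_le_mul_of_nonneg_right h1 hd0.le
    linarith
  have haτ : 12 * u ^ 13 ≤ a * τ * d := by
    have h1 : c ≤ a * τ / 12 := (min_le_right _ _).trans (min_le_left _ _)
    have := mul_le_mul_of_nonneg_right h1 hd0.le
    linarith
  have haτ2 : 64 * u ^ 13 ≤ a * τ ^ 2 * d := by
    have h1 : c ≤ a * τ ^ 2 / 64 := (min_le_right _ _).trans (min_le_right _ _)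
    have := mul_le_mul_of_nonneg_right h1 hd0.le
    linarith
  have haX : a * τ * d ≤ a * X := by
    have := mul_le_mul_of_nonneg_left hlo ha0.le
    linarith
  have hXX : 12 * u ^ 13 ≤ X := by
    have h1 : a * (X : ℝ) ≤ 1 * X := mul_le_mul_of_nonneg_right ha1 (Nat.cast_nonneg X)
    linarith
  -- the integers
  set D' := ⌈u ^ 4⌉₊ with hD'
  have D1 : u ^ 4 ≤ (D' : ℝ) := Nat.le_ceil _
  have D2 : (D' : ℝ) < u ^ 4 + 1 := Nat.ceil_lt_add_one (by positivity)
  set c6 := ⌈u ^ 6⌉₊ with hc6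
  have C1 : u ^ 6 ≤ (c6 : ℝ) := Nat.le_ceil _
  have C2 : (c6 : ℝ) < u ^ 6 + 1 := Nat.ceil_lt_add_one (by positivity)
  have hblk : blk d = 2 * c6 := rfl
  set M := blk d with hM
  have hMr : (M : ℝ) = 2 * c6 := by rw [hblk]; push_cast; ring
  have hL0 : 6 * u ≤ L := by
    have h1 := sfun_mono d hd1 (Nat.zero_le ((X + M - 1) * d))
    rw [sfun_zero] at h1
    linarith
  have hbig : 3 * D' + 12 ≤ M := by
    have : 3 * (D' : ℝ) + 12 ≤ M := by linarith
    exact_mod_cast this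
  have hX4 : D' + 4 ≤ X := by
    have : (D' : ℝ) + 4 ≤ X := by linarith
    exact_mod_cast this
  have hX0 : (0 : ℝ) < X := by
    have : 0 < X := by omega
    exact_mod_cast this
  have H : K9P d X M D' r τ a L := by
    refine ⟨hd1, ha0, ha1, hτ, hr, har, hlo, hhi, ⟨c6, by rw [hblk]; ring⟩, ?_, ?_, hbig, hX4,
      ?_, ?_, ?_, ?_, ?_, ?_, hL6, ?_⟩
    · have : 2 * (r : ℝ) ≤ D' := by linarith
      exact_mod_cast this
    · have : 2 * (r : ℝ) ≤ d := by linarith
      exact_mod_cast this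
    · have : 3 * (D' : ℝ) + 12 ≤ d := by linarith
      exact_mod_cast this
    · push_cast
      have h1 := Real.add_one_le_exp (a / 3)
      have h2 : (M : ℝ) ≤ a / 3 * X := by
        rw [hMr]
        linarith
      have h3 := mul_le_mul_of_nonneg_right h1 hX0.le
      linarith
    · have h1 := Real.add_one_le_exp a
      have hy : (X : ℝ) ≤ ((X + M : ℕ) : ℝ) := by
        have : X ≤ X + M := by omega
        exact_mod_cast this
      set y : ℝ := ((X + M : ℕ) : ℝ) with hy'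
      have hy1 : 1 ≤ y := by linarith
      have h2 : 1 ≤ a * y := by
        have := mul_le_mul_of_nonneg_left hy ha0.le
        linarith
      have h3 : (a + 1) * (2 * y - 1) ≤ Real.exp a * (2 * y - 1) :=
        mul_le_mul_of_nonneg_right h1 (by linarith)
      have h4 := mul_le_mul_of_nonneg_left hy1 ha0.le
      linarith
    · linarith
    · have e1 : ((M + 2 * D' : ℕ) : ℝ) ≤ 4 * u ^ 6 := by
        push_cast
        rw [hMr]
        linarith
      have e2 : τ * d / 2 ≤ ((X - D' : ℕ) : ℝ) := by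
        rw [Nat.cast_sub (by omega)]
        linarith
      have e3 : 0 < τ * d / 2 := by positivity
      have e4 : ((M + 2 * D' : ℕ) : ℝ) / ((X - D' : ℕ) : ℝ) ≤ 4 * u ^ 6 / (τ * d / 2) := by
        gcongr
      have e5 : (((M + 2 * D' : ℕ) : ℝ) / ((X - D' : ℕ) : ℝ)) ^ 2 ≤
          (4 * u ^ 6 / (τ * d / 2)) ^ 2 := pow_le_pow_left₀ (by positivity) e4 2
      calc (d : ℝ) * (((M + 2 * D' : ℕ) : ℝ) / ((X - D' : ℕ) : ℝ)) ^ 2 ≤
          d * (4 * u ^ 6 / (τ * d / 2)) ^ 2 := mul_le_mul_of_nonneg_left e5 hd0.le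
        _ = 64 * u ^ 12 / (τ ^ 2 * d) := by
            field_simp
            ring
        _ ≤ a := by
            rw [div_le_iff₀ (by positivity)]
            linarith
    · rw [div_le_iff₀ ha0] at uA
      have : u * a ≤ d * a := mul_le_mul_of_nonneg_right (by linarith) ha0.le
      linarith
    · linarith
  refine ⟨H, by linarith [Real.log_two_lt_d9], by positivity, ?_, ?_, ?_⟩
  · have h1 : 1 / (12 * r * u ^ 2) * (2 * r) = 1 / (6 * u ^ 2) := by
      field_simp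
      norm_num
    rw [h1, div_le_one (by positivity)]
    linarith
  · -- the Chernoff bound
    set S := k9_S d M D' r with hS
    have s1 := k9_S_le d M D' r
    rw [← hS] at s1
    have s2 : (2 : ℝ) * r * S ≤ M * d := by
      have : 2 * r * S ≤ M * d := s1.trans (Nat.mul_le_mul_right _ (by omega))
      exact_mod_cast this
    have hMu : (M : ℝ) ≤ 3 * u ^ 6 := by rw [hMr]; linarith
    have e1 : u ^ 2 / (12 * r) ≤ 1 / (12 * r * u ^ 2) * (D' : ℝ) := by
      rw [div_mul_eq_mul_div, one_mul, div_le_div_iff₀ (by positivity) (by positivity)]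
      calc u ^ 2 * (12 * (r : ℝ) * u ^ 2) = u ^ 4 * (12 * (r : ℝ)) := by ring
        _ ≤ (D' : ℝ) * (12 * (r : ℝ)) := mul_le_mul_of_nonneg_right D1 (by positivity)
    have e2 : 4 * (r : ℝ) ^ 2 * (1 / (12 * r * u ^ 2)) ^ 2 * S / d ≤ u ^ 2 / (24 * r) := by
      have e3 : 4 * (r : ℝ) ^ 2 * (1 / (12 * r * u ^ 2)) ^ 2 * S / d =
          (2 * r * S) / (72 * r * u ^ 4 * d) := by
        field_simp
        ring
      rw [e3, div_le_div_iff₀ (by positivity) (by positivity)]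
      calc 2 * (r : ℝ) * S * (24 * r) ≤ (M * d) * (24 * r) :=
            mul_le_mul_of_nonneg_right s2 (by positivity)
        _ ≤ (3 * u ^ 6 * d) * (24 * r) := by gcongr
        _ = u ^ 2 * (72 * r * u ^ 4 * d) := by ring
    have e4 : -(1 / (12 * r * u ^ 2) * (D' : ℝ)) +
        4 * (r : ℝ) ^ 2 * (1 / (12 * r * u ^ 2)) ^ 2 * S / d ≤ -(4 * u) := by
      have e5 : u ^ 2 / (12 * (r : ℝ)) = 2 * (u ^ 2 / (24 * r)) := by
        field_simp
        norm_num
      have e6 : 4 * u ≤ u ^ 2 / (24 * r) := by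
        rw [le_div_iff₀ (by positivity)]
        calc 4 * u * (24 * (r : ℝ)) = u * (96 * r) := by ring
          _ ≤ u * u := mul_le_mul_of_nonneg_left uC hu0.le
          _ = u ^ 2 := by ring
      linarith
    have e7 : 2 * (d : ℝ) * ((S : ℝ) + 1) ≤ Real.exp (3 * u) := by
      have e8 : Real.exp (3 * u) = (d : ℝ) ^ 3 := by
        rw [show 3 * u = ((3 : ℕ) : ℝ) * u by norm_num, Real.exp_nat_mul, hu, Real.exp_log hd0]
      rw [e8]
      have hd1' : (1 : ℝ) ≤ d := by exact_mod_cast hd1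
      have hr1' : (1 : ℝ) ≤ r := by exact_mod_cast hr
      have hM2 : (2 : ℝ) ≤ M := by
        have : 2 ≤ M := by omega
        exact_mod_cast this
      have e9 : 2 * (S : ℝ) ≤ M * d := by
        have : 2 * 1 * (S : ℝ) ≤ 2 * r * S := by gcongr
        linarith
      have e10 : 2 ≤ (M : ℝ) * d := hM2.trans (le_mul_of_one_le_right (by positivity) hd1')
      have e11 : (M : ℝ) ≤ d / 2 := by linarith
      calc 2 * (d : ℝ) * ((S : ℝ) + 1) = d * (2 * S + 2) := by ring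
        _ ≤ d * (M * d + M * d) := by gcongr
        _ = d ^ 2 * (2 * M) := by ring
        _ ≤ d ^ 2 * d := mul_le_mul_of_nonneg_left (by linarith) (by positivity)
        _ = d ^ 3 := by ring
    calc _ ≤ Real.exp (3 * u) * Real.exp (-(4 * u)) :=
          mul_le_mul e7 (Real.exp_le_exp.2 e4) (Real.exp_pos _).le (Real.exp_pos _).le
      _ = Real.exp (-u) := by rw [← Real.exp_add]; congr 1; ring
      _ ≤ Real.exp (-Real.log 2) := Real.exp_le_exp.2 (by linarith [Real.log_two_lt_d9])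
      _ = 1 / 2 := by rw [Real.exp_neg, Real.exp_log (by norm_num), one_div]
  · -- the steps with prescribed directions
    set S := k9_S d M D' r with hS
    have s1 := k9_S_ge H
    rw [← hS] at s1
    have s2 : ((M : ℝ) - 2 * D' - 7) * d ≤ ((2 * r * S : ℕ) : ℝ) := by
      have e1 : ((M - 2 * D' - 7 : ℕ) : ℝ) = (M : ℝ) - 2 * D' - 7 := by
        have : M = (M - 2 * D' - 7) + 2 * D' + 7 := by omega
        have e2 : (M : ℝ) = ((M - 2 * D' - 7 : ℕ) : ℝ) + 2 * D' + 7 := by exact_mod_cast this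
        linarith
      rw [← e1]
      exact_mod_cast s1
    have m1 : 2 * k9_m d M D' r + 2 * r * S ≤ d * M := by
      have e0 := k9_S_le d M D' r
      have e1 : (M - 2 * D' - 6) * d ≤ d * M := by
        rw [mul_comm]
        exact Nat.mul_le_mul_left _ (by omega)
      unfold k9_m
      rw [← hS] at e0 ⊢
      omega
    have m2 : 2 * (k9_m d M D' r : ℝ) + ((2 * r * S : ℕ) : ℝ) ≤ d * M := by exact_mod_cast m1
    have m3 : (k9_m d M D' r : ℝ) ≤ (2 * D' + 7) * d / 2 := by linarith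
    have m4 : (k9_m d M D' r : ℝ) ≤ 3 * u ^ 4 * d / 2 := by
      refine m3.trans ?_
      have : (2 * (D' : ℝ) + 7) ≤ 3 * u ^ 4 := by linarith
      gcongr
    have s3 : u ^ 6 * d ≤ ((2 * r * S : ℕ) : ℝ) := by
      refine le_trans ?_ s2
      have : u ^ 6 ≤ (M : ℝ) - 2 * D' - 7 := by rw [hMr]; linarith
      gcongr
    have hau : 2 ≤ a * u := by
      rw [div_le_iff₀ ha0] at uD
      linarith
    have hd1' : (1 : ℝ) ≤ d := by exact_mod_cast hd1
    have h1 : Real.log 2 ≤ u ^ 5 * d := by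
      have e1 : 1 ≤ u ^ 5 := one_le_pow₀ hu1
      have e2 : 1 ≤ u ^ 5 * d := one_le_mul_of_one_le_of_one_le e1 hd1'
      linarith [Real.log_two_lt_d9]
    calc Real.log 2 + k9_m d M D' r * (7 * u) ≤ u ^ 5 * d + (3 * u ^ 4 * d / 2) * (7 * u) := by
          gcongr
      _ = 23 / 2 * (u ^ 5 * d) := by ring
      _ ≤ 8 * 2 * (u ^ 5 * d) := by
          have : 0 ≤ u ^ 5 * d := by positivity
          linarith
      _ ≤ 8 * (a * u) * (u ^ 5 * d) := by gcongr
      _ = 8 * a * (u ^ 6 * d) := by ring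
      _ ≤ _ := by gcongr

theorem k9_piece (ε τ : ℝ) (hε : 0 < ε) (hε1 : ε ≤ 1) (hτ : 0 < τ) : ∃ D₀ : ℕ,
    ∀ (n d X : ℕ) (L : ℝ) (z : Vtx n d), D₀ ≤ d → τ * d ≤ X →
      (X : ℝ) ≤ Real.exp (ε / 16) * (τ * d) →
      sfun d ((X + blk d - 1) * d) + 6 * Real.log d ≤ L → Room (X + blk d + 8) z →
      Reach (Real.exp (-L)) z (fun x => ∀ m, x m = X) (fun x => ∀ m, x m = X + blk d)
        (Real.exp (∑ t ∈ Finset.Ico ((X - 1) * d) ((X + blk d - 1) * d),
          ((Ex d t - L) / 2 - ε))) := by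
  set a := ε / 16 with ha
  have ha0 : 0 < a := by positivity
  obtain ⟨K, hK⟩ := growth τ a hτ ha0
  obtain ⟨r, k, hr, hrk⟩ := hK (⌈1 / a⌉₊ + 1)
  have har : 1 ≤ a * r := by
    have h1 : 1 / a ≤ r := (Nat.le_ceil _).trans (by
      have : ⌈1 / a⌉₊ ≤ r := by omega
      exact_mod_cast this)
    rw [div_le_iff₀ ha0] at h1
    linarith
  obtain ⟨D₁, hD₁⟩ := mac_mass (α₂ := 4 / τ) (α₁ := 2) (β₂ := 1) (β₁ := τ / 2)
    (by positivity) (by norm_num) (by norm_num) (by positivity) K k r (1 / 2) (by norm_num)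
  obtain ⟨D₂, hD₂⟩ := k9_param τ a hτ ha0 (by linarith) r (by omega) har
  refine ⟨max D₁ D₂, fun n d X L z hd hlo hhi hL6 hroom => ?_⟩
  obtain ⟨H, hL, hlam0, hlam1, hch, htail⟩ :=
    hD₂ d X L (le_of_max_le_right hd) hlo hhi hL6
  have hmac := hD₁ d (le_of_max_le_left hd)
  have hmac' : 1 / 2 * (Real.exp (-a) * gg τ) ^ r ≤
      mac (d := d) (wS (4 / τ / d ^ 2) (2 / d) (1 / d) (τ / 2)) (fun _ => 1) r r ∅ ∅ ∅ 0 := by
    refine le_trans ?_ hmac
    have := mul_le_mul_of_nonneg_left hrk (by norm_num : (0 : ℝ) ≤ 1 / 2)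
    linarith
  have h1 := k9_block H hlam0 hlam1 hch hmac' htail hL hroom
  have h16 : 16 * a = ε := by rw [ha]; ring
  rw [h16] at h1
  exact h1

theorem k9_cover (ε ε₀ : ℝ) (hε : 0 < ε) (hε1 : ε ≤ 1) (hε₀ : 0 < ε₀) (j : ℕ) : ∃ D₀ : ℕ,
    ∀ (n d X : ℕ) (L : ℝ) (z : Vtx n d), D₀ ≤ d → ε₀ * d ≤ X →
      (X : ℝ) ≤ Real.exp (j * (ε / 16)) * (ε₀ * d) →
      sfun d ((X + blk d - 1) * d) + 6 * Real.log d ≤ L → Room (X + blk d + 8) z →
      Reach (Real.exp (-L)) z (fun x => ∀ m, x m = X) (fun x => ∀ m, x m = X + blk d)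
        (Real.exp (∑ t ∈ Finset.Ico ((X - 1) * d) ((X + blk d - 1) * d),
          ((Ex d t - L) / 2 - ε))) := by
  induction j with
  | zero =>
    obtain ⟨D₀, hD₀⟩ := k9_piece ε ε₀ hε hε1 hε₀
    refine ⟨D₀, fun n d X L z hd hlo hhi hL6 hroom => hD₀ n d X L z hd hlo ?_ hL6 hroom⟩
    refine hhi.trans ?_
    rw [Nat.cast_zero, zero_mul, Real.exp_zero, one_mul]
    exact le_mul_of_one_le_left (by positivity) (Real.one_le_exp (by positivity))
  | succ j ih =>
    obtain ⟨D₁, hD₁⟩ := ih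
    obtain ⟨D₂, hD₂⟩ := k9_piece ε (Real.exp (j * (ε / 16)) * ε₀) hε hε1 (by positivity)
    refine ⟨max D₁ D₂, fun n d X L z hd hlo hhi hL6 hroom => ?_⟩
    rcases le_total (X : ℝ) (Real.exp (j * (ε / 16)) * (ε₀ * d)) with h | h
    · exact hD₁ n d X L z (le_of_max_le_left hd) hlo h hL6 hroom
    · refine hD₂ n d X L z (le_of_max_le_right hd) (by linarith) (hhi.trans_eq ?_) hL6 hroom
      push_cast
      rw [add_mul, one_mul, Real.exp_add]
      ring

/-- one block, side lengths of order `d` -/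
theorem deep_block_E (ε ε₀ T₀ : ℝ) (hε : 0 < ε) (hε₀ : 0 < ε₀) : ∃ D₀ : ℕ,
    ∀ (n d X : ℕ) (L : ℝ) (z : Vtx n d), D₀ ≤ d → ε₀ * d ≤ X → X ≤ T₀ * d →
      sfun d ((X + blk d - 1) * d) + 6 * Real.log d ≤ L → Room (X + blk d + 8) z →
      Reach (Real.exp (-L)) z (fun x => ∀ m, x m = X) (fun x => ∀ m, x m = X + blk d)
        (Real.exp (∑ t ∈ Finset.Ico ((X - 1) * d) ((X + blk d - 1) * d),
          ((Ex d t - L) / 2 - ε))) := by
  set e := min ε 1 with he
  have he0 : 0 < e := by rw [he]; positivity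
  have he1 : e ≤ 1 := min_le_right _ _
  obtain ⟨j, hj⟩ : ∃ j : ℕ, T₀ / ε₀ ≤ j * (e / 16) := by
    obtain ⟨j, hj⟩ := exists_nat_ge (T₀ / ε₀ / (e / 16))
    refine ⟨j, ?_⟩
    rwa [div_le_iff₀ (by positivity)] at hj
  obtain ⟨D₀, hD₀⟩ := k9_cover e ε₀ he0 he1 hε₀ j
  refine ⟨D₀, fun n d X L z hd hlo hhi hL6 hroom => ?_⟩
  have h1 : (X : ℝ) ≤ Real.exp (j * (e / 16)) * (ε₀ * d) := by
    have h2 := Real.add_one_le_exp (j * (e / 16))
    have h3 : T₀ / ε₀ ≤ Real.exp (j * (e / 16)) := by linarith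
    rw [div_le_iff₀ hε₀] at h3
    have h4 := mul_le_mul_of_nonneg_right h3 (Nat.cast_nonneg d : (0 : ℝ) ≤ d)
    linarith
  refine l9_reach_mono (hD₀ n d X L z hd hlo h1 hL6 hroom) ?_
  apply Real.exp_le_exp.2
  refine Finset.sum_le_sum fun t _ => ?_
  have : e ≤ ε := min_le_left _ _
  linarith

end Pool.Agent.Lib.MP_8501c9_pr.Deep
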