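import Pool.Agent.Lib.MP_8501c9_pr.Deep.Defs2
import Pool.Agent.Lib.MP_8501c9_pr.Wide.Corner
import Pool.Agent.Lib.MP_8501c9_pr.Wide.NewCount

/-!
# Counting points at distance two of a box
-/

set_option autoImplicit false
open Set

namespace Pool.Agent.Lib.MP_8501c9_pr.Deep

open Pool.Agent.Lib.MP_8501c9_pr Pool.Agent.Lib.MP_8501c9_pr.Mid
open Pool.Agent.Lib.MP_8501c9_pr.Wide

variable {n d : ℕ}

/-! ### the volume -/

theorem vol_sub_ge2 {Q' Q : BoxT n d} (hQ' : Q'.1 ≤ Q'.2) (hs : Sub Q' Q)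
    (hg : phi Q' + 2 ≤ phi Q) {y : ℕ} (hy : ∀ m, sd Q m ≤ y) :
    vol Q * (2 * y - 1) / (y : ℝ) ^ 2 ≤ vol Q - vol Q' := by
  classical
  have hne : Nonempty (Fin d) := by
    by_contra hcon
    rw [not_nonempty_iff] at hcon
    have h1 : phi Q = 0 := by
      unfold phi
      exact Finset.sum_of_isEmpty _
    omega
  obtain ⟨m0⟩ := hne
  have hy1 : 1 ≤ y := (d_sd_pos Q m0).trans (hy m0)
  have hy0 : (0 : ℝ) < y := by exact_mod_cast hy1
  have hy1' : (1 : ℝ) ≤ y := by exact_mod_cast hy1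
  set c : ℝ := 1 - 1 / y with hc
  have hc0 : 0 ≤ c := by
    rw [hc, sub_nonneg, div_le_one hy0]
    exact hy1'
  have hc1 : c ≤ 1 := by
    rw [hc]
    have : 0 ≤ 1 / (y : ℝ) := by positivity
    linarith
  have hdir : ∀ m, (sd Q' m : ℝ) ≤ sd Q m * c ^ (sd Q m - sd Q' m) := by
    intro m
    have hle := l2_sd_mono hQ' hs m
    have hx1 : (1 : ℝ) ≤ sd Q m := by exact_mod_cast d_sd_pos Q m
    have hxy : (sd Q m : ℝ) ≤ y := by exact_mod_cast hy m
    set k := sd Q m - sd Q' m with hk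
    have hk' : (sd Q' m : ℝ) = sd Q m - k := by
      have : sd Q' m + k = sd Q m := by omega
      rw [← this]
      push_cast
      ring
    have hB : 1 + (k : ℝ) * (-1 / y) ≤ (1 + -1 / y) ^ k := by
      refine one_add_mul_le_pow ?_ k
      rw [neg_div, neg_le_neg_iff, div_le_iff₀ hy0]
      linarith
    have e1 : (1 + -1 / y : ℝ) = c := by rw [hc]; ring
    rw [e1] at hB
    have e2 : (k : ℝ) ≤ sd Q m * (k / y * (y / sd Q m)) := by
      apply le_of_eq
      field_simp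
    have e3 : (sd Q m : ℝ) * (k / y) ≤ k := by
      rw [mul_div_assoc', div_le_iff₀ hy0]
      have : (0 : ℝ) ≤ k := Nat.cast_nonneg k
      nlinarith
    have e4 : (sd Q m : ℝ) * (1 + (k : ℝ) * (-1 / y)) = sd Q m - sd Q m * (k / y) := by ring
    have e5 := mul_le_mul_of_nonneg_left hB (by linarith : (0 : ℝ) ≤ sd Q m)
    rw [e4] at e5
    rw [hk']
    linarith
  have hsum : 2 ≤ ∑ m, (sd Q m - sd Q' m) := by
    have h1 : ∑ m, (sd Q m - sd Q' m) + phi Q' = phi Q := by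
      unfold phi
      rw [← Finset.sum_add_distrib]
      refine Finset.sum_congr rfl fun m _ => ?_
      have := l2_sd_mono hQ' hs m
      unfold sd at this ⊢
      omega
    omega
  have hv : vol Q' ≤ vol Q * c ^ 2 := by
    calc vol Q' ≤ ∏ m, ((sd Q m : ℝ) * c ^ (sd Q m - sd Q' m)) := by
          unfold vol
          exact Finset.prod_le_prod (fun _ _ => Nat.cast_nonneg _) fun m _ => hdir m
      _ = vol Q * c ^ (∑ m, (sd Q m - sd Q' m)) := by
          rw [Finset.prod_mul_distrib, Finset.prod_pow_eq_pow_sum]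
          rfl
      _ ≤ vol Q * c ^ 2 :=
          mul_le_mul_of_nonneg_left (pow_le_pow_of_le_one hc0 hc1 hsum) (d_vol_pos Q).le
  have hid : vol Q * (2 * y - 1) / (y : ℝ) ^ 2 = vol Q - vol Q * c ^ 2 := by
    rw [hc]
    field_simp
    ring
  rw [hid]
  linarith

/-! ### counting -/

/-- two values at distance `v` -/
theorem k1_card_pos {lo hi : Fin n} (h0 : (lo : ℕ) ≤ hi) {v : ℕ} (hv : 1 ≤ v)
    (h1 : v ≤ (lo : ℕ)) (h2 : (hi : ℕ) + v < n) :
    2 ≤ (Finset.univ.filter (fun a : Fin n => ((lo : ℕ) - a) + ((a : ℕ) - hi) = v)).card := by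
  have h3 : ({⟨(lo : ℕ) - v, by omega⟩, ⟨(hi : ℕ) + v, h2⟩} : Finset (Fin n)) ⊆
      (Finset.univ.filter (fun a : Fin n => ((lo : ℕ) - a) + ((a : ℕ) - hi) = v)) := by
    intro a ha
    rw [Finset.mem_insert, Finset.mem_singleton] at ha
    rw [Finset.mem_filter]
    refine ⟨Finset.mem_univ _, ?_⟩
    rcases ha with rfl | rfl
    · simp only
      omega
    · simp only
      omega
  have h4 := Finset.card_le_card h3
  rwa [Finset.card_pair] at h4
  intro he
  have := congrArg Fin.val he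
  simp only at this
  omega

/-- at most one value if a side has moved -/
theorem k1_card_one {lo hi lo' hi' : Fin n} (h : (lo' : ℕ) ≤ hi') (h1 : (lo : ℕ) ≤ lo')
    (h2 : (hi' : ℕ) ≤ hi) {v : ℕ} (hv : 1 ≤ v) (h3 : (hi' : ℕ) - lo' < (hi : ℕ) - lo) :
    (Finset.univ.filter (fun a : Fin n => ((lo : ℕ) - a) + ((a : ℕ) - hi) = v ∧
      ((lo' : ℕ) - a) + ((a : ℕ) - hi') = v)).card ≤ 1 := by
  rw [Finset.card_le_one]
  intro a ha b hb
  rw [Finset.mem_filter] at ha hb
  apply Fin.ext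
  have := ha.2
  have := hb.2
  omega

/-- the points with given distances to the sides -/
def k1_P (Q : BoxT n d) (o : Fin d → ℕ) : Finset (Vtx n d) :=
  Finset.univ.filter (fun x => ∀ m, out Q x m = o m)

theorem k1_mem_P {Q : BoxT n d} {o : Fin d → ℕ} {x : Vtx n d} :
    x ∈ k1_P Q o ↔ ∀ m, out Q x m = o m := by
  unfold k1_P
  rw [Finset.mem_filter]
  simp

/-- the directions of a shape -/
def k1_S (o : Fin d → ℕ) : Finset (Fin d) := Finset.univ.filter (fun m => o m ≠ 0)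

theorem k1_mem_S {o : Fin d → ℕ} {m : Fin d} : m ∈ k1_S o ↔ o m ≠ 0 := by
  unfold k1_S
  rw [Finset.mem_filter]
  simp

theorem k1_pow (S : Finset (Fin d)) : (2 : ℕ) ^ S.card = ∏ m, (if m ∈ S then 2 else 1) := by
  rw [Finset.prod_ite_mem, Finset.univ_inter, Finset.prod_const]

theorem k1_prodS (Q : BoxT n d) (S : Finset (Fin d)) :
    ∏ m ∈ S, sd Q m = ∏ m, (if m ∈ S then sd Q m else 1) := by
  rw [Finset.prod_ite_mem, Finset.univ_inter]

theorem k1_le_two {o : Fin d → ℕ} (ho : ∑ m, o m = 2) (m : Fin d) : o m ≤ 2 := by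
  rw [← ho]
  exact Finset.single_le_sum (f := o) (fun _ _ => Nat.zero_le _) (Finset.mem_univ m)

/-- number of points of a given shape, lower bound -/
theorem k1_P_ge {Q : BoxT n d} (hQ : Q.1 ≤ Q.2) {o : Fin d → ℕ} (ho : ∑ m, o m = 2)
    (hroom : ∀ i, 2 ≤ (Q.1 i : ℕ) ∧ (Q.2 i : ℕ) + 2 < n) :
    2 ^ (k1_S o).card * ∏ m, sd Q m ≤ (k1_P Q o).card * ∏ m ∈ k1_S o, sd Q m := by
  have h1 : Fintype.piFinset (fun i => Finset.univ.filter
        (fun a : Fin n => ((Q.1 i : ℕ) - a) + ((a : ℕ) - Q.2 i) = o i)) ⊆ k1_P Q o := by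
    intro x hx
    rw [Fintype.mem_piFinset] at hx
    rw [k1_mem_P]
    intro i
    have := hx i
    rw [Finset.mem_filter] at this
    exact this.2
  have h2 := Finset.card_le_card h1
  rw [Fintype.card_piFinset] at h2
  refine le_trans ?_ (Nat.mul_le_mul_right _ h2)
  rw [k1_pow, k1_prodS Q (k1_S o), ← Finset.prod_mul_distrib, ← Finset.prod_mul_distrib]
  refine Finset.prod_le_prod (fun _ _ => Nat.zero_le _) fun m _ => ?_
  have hle := d_le hQ m
  by_cases h0 : o m = 0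
  · have h3 : m ∉ k1_S o := by rw [k1_mem_S]; simp [h0]
    rw [if_neg h3, if_neg h3, one_mul, mul_one, h0]
    have := k_card_zero (lo := Q.1 m) (hi := Q.2 m)
    unfold sd
    omega
  · have h3 : m ∈ k1_S o := k1_mem_S.2 h0
    rw [if_pos h3, if_pos h3]
    refine Nat.mul_le_mul_right _ ?_
    have h4 := k1_le_two ho m
    have h5 := hroom m
    exact k1_card_pos hle (by omega) (by omega) (by omega)

/-- number of points of a given shape which were visible before -/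
theorem k1_P_cov {Q' Q : BoxT n d} (hQ' : Q'.1 ≤ Q'.2) (hs : Sub Q' Q)
    (ht : ∀ m, sd Q m ≤ sd Q' m + 2) (h4 : ∀ m, 4 ≤ sd Q m) {o : Fin d → ℕ}
    (ho : ∑ m, o m = 2) :
    (k1_P Q o ∩ cov Q').card * ∏ m ∈ k1_S o, sd Q m ≤
      2 ^ (k1_S o).card * ∏ m, sd Q' m := by
  obtain ⟨hs1, hs2⟩ := hs
  let t : Fin d → Finset (Fin n) := fun m => Finset.univ.filter
    (fun a : Fin n => ((Q.1 m : ℕ) - a) + ((a : ℕ) - Q.2 m) = o m ∧
      ((Q'.1 m : ℕ) - a) + ((a : ℕ) - Q'.2 m) = o m)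
  have hsub : k1_P Q o ∩ cov Q' ⊆ Fintype.piFinset t := by
    intro x hx
    rw [Finset.mem_inter, k1_mem_P, l2_mem_cov] at hx
    obtain ⟨h1, h2⟩ := hx
    have hle : ∀ m ∈ Finset.univ, o m ≤ out Q' x m := by
      intro m _
      rw [← h1 m]
      exact b_out_mono hs1 hs2 x m
    have heq : ∑ m, o m = ∑ m, out Q' x m :=
      le_antisymm (Finset.sum_le_sum hle) (by rw [ho]; exact h2)
    have hall := (Finset.sum_eq_sum_iff_of_le hle).1 heq
    rw [Fintype.mem_piFinset]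
    intro m
    rw [Finset.mem_filter]
    exact ⟨Finset.mem_univ _, h1 m, (hall m (Finset.mem_univ m)).symm⟩
  have hcard := Finset.card_le_card hsub
  rw [Fintype.card_piFinset] at hcard
  refine (Nat.mul_le_mul_right _ hcard).trans ?_
  rw [k1_pow, k1_prodS Q (k1_S o), ← Finset.prod_mul_distrib, ← Finset.prod_mul_distrib]
  refine Finset.prod_le_prod (fun _ _ => Nat.zero_le _) fun m _ => ?_
  have e1 := d_le hQ' m
  have e2 : (Q.1 m : ℕ) ≤ Q'.1 m := Fin.le_def.1 (hs1 m)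
  have e3 : (Q'.2 m : ℕ) ≤ Q.2 m := Fin.le_def.1 (hs2 m)
  have e4 := ht m
  by_cases h0 : o m = 0
  · have h3 : m ∉ k1_S o := by rw [k1_mem_S]; simp [h0]
    rw [if_neg h3, if_neg h3, one_mul, mul_one]
    unfold sd
    refine le_trans (Finset.card_le_card ?_) (d_card_zero e1)
    intro a ha
    rw [Finset.mem_filter] at ha ⊢
    rw [h0] at ha
    exact ⟨ha.1, ha.2.2⟩
  · have h3 : m ∈ k1_S o := k1_mem_S.2 h0
    rw [if_pos h3, if_pos h3]
    by_cases hc : sd Q m = sd Q' m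
    · rw [hc]
      refine Nat.mul_le_mul_right _ ?_
      refine le_trans (Finset.card_le_card ?_) (d_card_two e1 (v := o m) (by omega))
      intro a ha
      rw [Finset.mem_filter] at ha ⊢
      exact ⟨ha.1, ha.2.2⟩
    · have h1 : (t m).card ≤ 1 :=
        k1_card_one e1 e2 e3 (v := o m) (by omega) (by unfold sd at hc; omega)
      have h5 := h4 m
      calc (t m).card * sd Q m ≤ 1 * sd Q m := Nat.mul_le_mul_right _ h1
        _ ≤ 2 * sd Q' m := by omega

/-- number of new points of a given shape -/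
theorem k1_P_new {Q' Q : BoxT n d} (hQ' : Q'.1 ≤ Q'.2) (hs : Sub Q' Q)
    (ht : ∀ m, sd Q m ≤ sd Q' m + 2) (h4 : ∀ m, 4 ≤ sd Q m) {o : Fin d → ℕ}
    (ho : ∑ m, o m = 2) (hroom : ∀ i, 2 ≤ (Q.1 i : ℕ) ∧ (Q.2 i : ℕ) + 2 < n) :
    (2 : ℝ) ^ (k1_S o).card * (vol Q - vol Q') ≤
      ((k1_P Q o \ cov Q').card : ℝ) * ∏ m ∈ k1_S o, (sd Q m : ℝ) := by
  have hQ : Q.1 ≤ Q.2 := hs.1.trans (hQ'.trans hs.2)
  have h1 := k1_P_ge hQ ho hroom
  have h2 := k1_P_cov hQ' hs ht h4 ho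
  have h3 : (k1_P Q o \ cov Q').card + (k1_P Q o ∩ cov Q').card = (k1_P Q o).card :=
    Finset.card_sdiff_add_card_inter _ _
  have h5 : ((k1_P Q o \ cov Q').card : ℝ) = (k1_P Q o).card - (k1_P Q o ∩ cov Q').card := by
    rw [← h3]
    push_cast
    ring
  have h1' : (2 : ℝ) ^ (k1_S o).card * vol Q ≤
      ((k1_P Q o).card : ℝ) * ∏ m ∈ k1_S o, (sd Q m : ℝ) := by
    unfold vol
    exact_mod_cast h1
  have h2' : ((k1_P Q o ∩ cov Q').card : ℝ) * ∏ m ∈ k1_S o, (sd Q m : ℝ) ≤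
      (2 : ℝ) ^ (k1_S o).card * vol Q' := by
    unfold vol
    exact_mod_cast h2
  rw [h5]
  linarith

theorem k1_P_sub {Q' Q : BoxT n d} {o : Fin d → ℕ} (ho : ∑ m, o m = 2) :
    k1_P Q o \ cov Q' ⊆ NewP Q' Q (k1_S o) := by
  intro x hx
  rw [Finset.mem_sdiff, k1_mem_P] at hx
  unfold NewP
  rw [Finset.mem_filter]
  refine ⟨Finset.mem_univ _, ?_, ?_, hx.2⟩
  · unfold supp
    ext m
    rw [Finset.mem_filter, k1_mem_S, hx.1 m]
    simp
  · rw [← ho]
    exact Finset.sum_congr rfl fun m _ => hx.1 m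

theorem k1_S_two {i j : Fin d} :
    k1_S (fun m => if m = i ∨ m = j then 1 else 0) = {i, j} := by
  ext m
  rw [k1_mem_S, Finset.mem_insert, Finset.mem_singleton]
  by_cases h : m = i ∨ m = j
  · simp [h]
  · simp [h]

theorem k1_S_one {i : Fin d} : k1_S (fun m => if m = i then 2 else 0) = {i} := by
  ext m
  rw [k1_mem_S, Finset.mem_singleton]
  by_cases h : m = i
  · simp [h]
  · simp [h]

theorem k1_sum_one (i : Fin d) : ∑ m : Fin d, (if m = i then 2 else 0) = 2 := by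
  rw [Finset.sum_ite_eq']
  simp

theorem card_NewP_two {Q' Q : BoxT n d} (hQ' : Q'.1 ≤ Q'.2) (hs : Sub Q' Q)
    (ht : ∀ m, sd Q m ≤ sd Q' m + 2) (h4 : ∀ m, 4 ≤ sd Q m) {i j : Fin d} (hij : i ≠ j)
    (hroom : ∀ i, 2 ≤ (Q.1 i : ℕ) ∧ (Q.2 i : ℕ) + 2 < n) :
    4 * (vol Q - vol Q') / ((sd Q i : ℝ) * sd Q j) ≤ ((NewP Q' Q {i, j}).card : ℝ) := by
  have ho : ∑ m : Fin d, (if m = i ∨ m = j then 1 else 0) = 2 := k_sum_pair hij
  have h1 := k1_P_new hQ' hs ht h4 ho hroom
  have h2 := k1_P_sub (Q' := Q') (Q := Q) ho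
  rw [k1_S_two] at h1 h2
  rw [Finset.card_pair hij, Finset.prod_pair hij] at h1
  have h3 : ((k1_P Q (fun m => if m = i ∨ m = j then 1 else 0) \ cov Q').card : ℝ) ≤
      ((NewP Q' Q {i, j}).card : ℝ) := by exact_mod_cast Finset.card_le_card h2
  have hpos : (0 : ℝ) < (sd Q i : ℝ) * sd Q j := by
    have := d_sd_pos Q i
    have := d_sd_pos Q j
    positivity
  rw [div_le_iff₀ hpos]
  have h5 := mul_le_mul_of_nonneg_right h3 hpos.le
  norm_num at h1
  linarith

theorem card_NewP_one {Q' Q : BoxT n d} (hQ' : Q'.1 ≤ Q'.2) (hs : Sub Q' Q)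
    (ht : ∀ m, sd Q m ≤ sd Q' m + 2) (h4 : ∀ m, 4 ≤ sd Q m) (i : Fin d)
    (hroom : ∀ i, 2 ≤ (Q.1 i : ℕ) ∧ (Q.2 i : ℕ) + 2 < n) :
    2 * (vol Q - vol Q') / (sd Q i : ℝ) ≤ ((NewP Q' Q {i}).card : ℝ) := by
  have ho : ∑ m : Fin d, (if m = i then 2 else 0) = 2 := k1_sum_one i
  have h1 := k1_P_new hQ' hs ht h4 ho hroom
  have h2 := k1_P_sub (Q' := Q') (Q := Q) ho
  rw [k1_S_one] at h1 h2
  rw [Finset.card_singleton, Finset.prod_singleton] at h1
  have h3 : ((k1_P Q (fun m => if m = i then 2 else 0) \ cov Q').card : ℝ) ≤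
      ((NewP Q' Q {i}).card : ℝ) := by exact_mod_cast Finset.card_le_card h2
  have hpos : (0 : ℝ) < (sd Q i : ℝ) := by
    have := d_sd_pos Q i
    positivity
  rw [div_le_iff₀ hpos]
  have h5 := mul_le_mul_of_nonneg_right h3 hpos.le
  norm_num at h1
  linarith

/-- number of new points of a given shape beyond a moved side -/
theorem k1_slot {Q' Q : BoxT n d} (hQ' : Q'.1 ≤ Q'.2) (hs : Sub Q' Q) {o : Fin d → ℕ}
    (ho : ∑ m, o m = 2) {i : Fin d} (hi : sd Q' i < sd Q i) (hiS : i ∈ k1_S o)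
    (hroom : ∀ i, 2 ≤ (Q.1 i : ℕ) ∧ (Q.2 i : ℕ) + 2 < n) :
    2 ^ ((k1_S o).erase i).card * ∏ m, sd Q m ≤
      (k1_P Q o \ cov Q').card * ∏ m ∈ k1_S o, sd Q m := by
  classical
  have hQ : Q.1 ≤ Q.2 := hs.1.trans (hQ'.trans hs.2)
  obtain ⟨hs1, hs2⟩ := hs
  have f1 := d_le hQ' i
  have f2 : (Q.1 i : ℕ) ≤ Q'.1 i := Fin.le_def.1 (hs1 i)
  have f3 : (Q'.2 i : ℕ) ≤ Q.2 i := Fin.le_def.1 (hs2 i)
  have f4 := hroom i
  have f5 := k1_le_two ho i
  have f6 : o i ≠ 0 := k1_mem_S.1 hiS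
  obtain ⟨a0, ha0, ha1⟩ : ∃ a0 : Fin n, ((Q.1 i : ℕ) - a0) + ((a0 : ℕ) - Q.2 i) = o i ∧
      o i + 1 ≤ ((Q'.1 i : ℕ) - a0) + ((a0 : ℕ) - Q'.2 i) := by
    by_cases hlo : (Q.1 i : ℕ) < Q'.1 i
    · refine ⟨⟨(Q.1 i : ℕ) - o i, by omega⟩, ?_, ?_⟩
      · simp only
        omega
      · simp only
        omega
    · refine ⟨⟨(Q.2 i : ℕ) + o i, by omega⟩, ?_, ?_⟩
      · simp only
        omega
      · unfold sd at hi
        simp only
        omega
  let t : Fin d → Finset (Fin n) := fun m => if m = i then {a0} else Finset.univ.filter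
    (fun a : Fin n => ((Q.1 m : ℕ) - a) + ((a : ℕ) - Q.2 m) = o m)
  have hsub : Fintype.piFinset t ⊆ k1_P Q o \ cov Q' := by
    intro x hx
    rw [Fintype.mem_piFinset] at hx
    have hxi : x i = a0 := by
      have := hx i
      simp only [t, if_true] at this
      exact Finset.mem_singleton.1 this
    have hout : ∀ m, out Q x m = o m := by
      intro m
      by_cases hm : m = i
      · subst hm
        unfold out
        rw [hxi]
        exact ha0
      · have := hx m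
        simp only [t, if_neg hm] at this
        exact (Finset.mem_filter.1 this).2
    rw [Finset.mem_sdiff, k1_mem_P, l2_mem_cov]
    refine ⟨hout, fun hle => ?_⟩
    have h1 : ∑ m, o m < ∑ m, out Q' x m := by
      refine Finset.sum_lt_sum (fun m _ => ?_) ⟨i, Finset.mem_univ i, ?_⟩
      · rw [← hout m]
        exact b_out_mono hs1 hs2 x m
      · unfold out
        rw [hxi]
        omega
    omega
  have hcard := Finset.card_le_card hsub
  rw [Fintype.card_piFinset] at hcard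
  refine le_trans ?_ (Nat.mul_le_mul_right _ hcard)
  rw [k1_pow, k1_prodS Q (k1_S o), ← Finset.prod_mul_distrib, ← Finset.prod_mul_distrib]
  refine Finset.prod_le_prod (fun _ _ => Nat.zero_le _) fun m _ => ?_
  by_cases hm : m = i
  · subst hm
    simp only [t, if_true, Finset.card_singleton, one_mul]
    rw [if_neg (Finset.notMem_erase _ _), if_pos hiS, one_mul]
  · have hle := d_le hQ m
    simp only [t, if_neg hm]
    by_cases h0 : o m = 0
    · have h3 : m ∉ k1_S o := by rw [k1_mem_S]; simp [h0]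
      have h5 : m ∉ (k1_S o).erase i := fun h => h3 (Finset.mem_of_mem_erase h)
      rw [if_neg h3, if_neg h5, one_mul, mul_one, h0]
      have := k_card_zero (lo := Q.1 m) (hi := Q.2 m)
      unfold sd
      omega
    · have h3 : m ∈ k1_S o := k1_mem_S.2 h0
      have h5 : m ∈ (k1_S o).erase i := Finset.mem_erase.2 ⟨hm, h3⟩
      rw [if_pos h3, if_pos h5]
      refine Nat.mul_le_mul_right _ ?_
      have h6 := k1_le_two ho m
      have h7 := hroom m
      exact k1_card_pos hle (by omega) (by omega) (by omega)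

theorem card_slot_two {Q' Q : BoxT n d} (hQ' : Q'.1 ≤ Q'.2) (hs : Sub Q' Q) {i j : Fin d}
    (hij : i ≠ j) (hi : sd Q' i < sd Q i)
    (hroom : ∀ i, 2 ≤ (Q.1 i : ℕ) ∧ (Q.2 i : ℕ) + 2 < n) :
    2 * vol Q / ((sd Q i : ℝ) * sd Q j) ≤ ((NewP Q' Q {i, j}).card : ℝ) := by
  have ho : ∑ m : Fin d, (if m = i ∨ m = j then 1 else 0) = 2 := k_sum_pair hij
  have hiS : i ∈ k1_S (fun m => if m = i ∨ m = j then 1 else 0) := by
    rw [k1_S_two]
    simp
  have h1 := k1_slot hQ' hs ho hi hiS hroom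
  have h2 := k1_P_sub (Q' := Q') (Q := Q) ho
  rw [k1_S_two] at h1 h2
  have h0 : (({i, j} : Finset (Fin d)).erase i).card = 1 := by
    rw [Finset.card_erase_of_mem (by simp), Finset.card_pair hij]
  rw [h0, Finset.prod_pair hij, pow_one] at h1
  have h3 := h1.trans (Nat.mul_le_mul_right _ (Finset.card_le_card h2))
  have hpos : (0 : ℝ) < (sd Q i : ℝ) * sd Q j := by
    have := d_sd_pos Q i
    have := d_sd_pos Q j
    positivity
  rw [div_le_iff₀ hpos]
  unfold vol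
  exact_mod_cast h3

theorem card_slot_one {Q' Q : BoxT n d} (hQ' : Q'.1 ≤ Q'.2) (hs : Sub Q' Q) {i : Fin d}
    (hi : sd Q' i < sd Q i) (hroom : ∀ i, 2 ≤ (Q.1 i : ℕ) ∧ (Q.2 i : ℕ) + 2 < n) :
    vol Q / (sd Q i : ℝ) ≤ ((NewP Q' Q {i}).card : ℝ) := by
  have ho : ∑ m : Fin d, (if m = i then 2 else 0) = 2 := k1_sum_one i
  have hiS : i ∈ k1_S (fun m => if m = i then 2 else 0) := by
    rw [k1_S_one]
    simp
  have h1 := k1_slot hQ' hs ho hi hiS hroom
  have h2 := k1_P_sub (Q' := Q') (Q := Q) ho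
  rw [k1_S_one] at h1 h2
  rw [Finset.erase_singleton, Finset.card_empty, Finset.prod_singleton, pow_zero, one_mul] at h1
  have h3 := h1.trans (Nat.mul_le_mul_right _ (Finset.card_le_card h2))
  have hpos : (0 : ℝ) < (sd Q i : ℝ) := by
    have := d_sd_pos Q i
    positivity
  rw [div_le_iff₀ hpos]
  unfold vol
  exact_mod_cast h3

theorem card_cov_le {Q : BoxT n d} (hQ : Q.1 ≤ Q.2) :
    ((cov Q).card : ℝ) ≤ 4 * ((d : ℝ) + 1) ^ 2 * vol Q := by
  classical
  have hsub : cov Q ⊆ (Finset.univ : Finset (Option (Fin d) × Option (Fin d))).biUnion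
      (fun p => k1_P Q (v3_s p.1 + v3_s p.2)) := by
    intro x hx
    rw [l2_mem_cov] at hx
    obtain ⟨i, j, hij⟩ := v3_shape hx
    rw [Finset.mem_biUnion]
    refine ⟨(i, j), Finset.mem_univ _, ?_⟩
    rw [k1_mem_P]
    intro m
    exact congrFun hij m
  have hone : ∀ p ∈ (Finset.univ : Finset (Option (Fin d) × Option (Fin d))),
      (k1_P Q (v3_s p.1 + v3_s p.2)).card ≤ 4 * ∏ m, sd Q m := by
    intro p _
    set o : Fin d → ℕ := v3_s p.1 + v3_s p.2 with ho
    have hsum : ∑ m, o m ≤ 2 := by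
      rw [ho]
      simp only [Pi.add_apply]
      rw [Finset.sum_add_distrib]
      have := v3_sum_s p.1
      have := v3_sum_s p.2
      omega
    have hS : (k1_S o).card ≤ 2 := by
      refine le_trans ?_ hsum
      unfold k1_S
      rw [Finset.card_filter]
      refine Finset.sum_le_sum fun m _ => ?_
      split_ifs with h
      · omega
      · exact Nat.zero_le _
    have h1 : (k1_P Q o).card ≤ ∏ m, (if o m = 0 then sd Q m else 2) := d_card_out hQ o
    have h2 : ∏ m, (if o m = 0 then sd Q m else 2) ≤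
        ∏ m, ((if m ∈ k1_S o then 2 else 1) * sd Q m) := by
      refine Finset.prod_le_prod (fun _ _ => Nat.zero_le _) fun m _ => ?_
      have hpos := d_sd_pos Q m
      by_cases h0 : o m = 0
      · have h3 : m ∉ k1_S o := by rw [k1_mem_S]; simp [h0]
        rw [if_pos h0, if_neg h3, one_mul]
      · rw [if_neg h0, if_pos (k1_mem_S.2 h0)]
        omega
    rw [Finset.prod_mul_distrib, ← k1_pow] at h2
    refine (h1.trans h2).trans (Nat.mul_le_mul_right _ ?_)
    calc 2 ^ (k1_S o).card ≤ 2 ^ 2 := Nat.pow_le_pow_right (by norm_num) hS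
      _ = 4 := by norm_num
  have h1 : (cov Q).card ≤ (d + 1) ^ 2 * (4 * ∏ m, sd Q m) := by
    refine (Finset.card_le_card hsub).trans (Finset.card_biUnion_le.trans ?_)
    refine (Finset.sum_le_card_nsmul _ _ _ hone).trans ?_
    rw [Finset.card_univ, Fintype.card_prod, Fintype.card_option, Fintype.card_fin, smul_eq_mul,
      pow_two]
  have h2 : ((cov Q).card : ℝ) ≤ ((d : ℝ) + 1) ^ 2 * (4 * vol Q) := by
    unfold vol
    exact_mod_cast h1
  linarith

end Pool.Agent.Lib.MP_8501c9_pr.Deep
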