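import Pool.Agent.Lib.MP_8501c9_pr.Deep.Defs2
import Pool.Agent.Lib.MP_8501c9_pr.Deep.NewPts
import Pool.Agent.Lib.MP_8501c9_pr.Deep.Equalize
import Pool.Agent.Lib.MP_8501c9_pr.Deep.ChooseY
import Pool.Agent.Lib.MP_8501c9_pr.Wide.Fill
import Pool.Agent.Lib.MP_8501c9_pr.PotA

/-!
# Blocks of levels with side lengths much larger than the dimension
-/

set_option autoImplicit false
open Set

namespace Pool.Agent.Lib.MP_8501c9_pr.Deep

open Pool.Agent.Lib.MP_8501c9_pr Pool.Agent.Lib.MP_8501c9_pr.Mid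
open Pool.Agent.Lib.MP_8501c9_pr.Wide

variable {n d : ℕ}

/-! ### one birth -/

/-- a birth in the direction `i` only -/
theorem k10_birth {p : ℝ} (hp0 : 0 ≤ p) (hp1 : p ≤ 1) {z : Vtx n d} {Q' Q : BoxT n d}
    {Z T : Finset (Vtx n d)} (h : Inv z Q' Q ∅ Z T) (i : Fin d) {g : Finset (Vtx n d) → ℝ}
    {v c : ℝ} (hv : 0 ≤ v) (hc : c ≤ ((NewP Q' Q {i}).card : ℝ))
    (hn : ∀ Q₁ Z₁ T₁, Inv z Q Q₁ ∅ Z₁ T₁ →
      (∀ m, sd Q₁ m = sd Q m + if m = i then 2 else 0) → Ach p g Z₁ T₁ v) :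
    Ach p g Z T ((1 - Real.exp (-(p * c))) * v) := by
  have hQ : Q.1 ≤ Q.2 := (h.sub.1.trans h.le).trans h.sub.2
  have hmem : ∀ b ∈ NewP Q' Q {i}, supp Q b = {i} ∧ ∑ m, out Q b m = 2 ∧ b ∉ cov Q' := by
    intro b hb
    unfold NewP at hb
    rw [Finset.mem_filter] at hb
    exact hb.2
  have hsub : NewP Q' Q {i} ⊆ cov Q \ cov Q' := by
    intro b hb
    obtain ⟨-, h2, h3⟩ := hmem b hb
    refine Finset.mem_sdiff.2 ⟨?_, h3⟩
    unfold cov
    rw [Finset.mem_filter]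
    exact ⟨Finset.mem_univ _, h2.le⟩
  have hdisj : Disjoint (NewP Q' Q {i}) Z := by
    rw [Finset.disjoint_left]
    intro b hb hbZ
    exact (hmem b hb).2.2 (h.cov hbZ)
  have hout : ∀ b ∈ NewP Q' Q {i}, ∀ m, out Q b m = if m = i then 2 else 0 := by
    intro b hb m
    obtain ⟨h1, h2, -⟩ := hmem b hb
    have h3 : ∀ m, m ≠ i → out Q b m = 0 := by
      intro m hm
      by_contra hne
      have : m ∈ supp Q b := Finset.mem_filter.2 ⟨Finset.mem_univ _, hne⟩
      rw [h1, Finset.mem_singleton] at this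
      exact hm this
    by_cases hm : m = i
    · subst hm
      rw [if_pos rfl, ← h2]
      symm
      exact Finset.sum_eq_single_of_mem m (Finset.mem_univ m) (fun b' _ hb' => h3 b' hb')
    · rw [if_neg hm, h3 m hm]
  have hask := Ach.askFirst hp0 hp1 hdisj hv (T := T) (g := g) ?_
  · refine Ach.mono hask (mul_le_mul_of_nonneg_right ?_ hv)
    have h2 : (1 - p) ^ (NewP Q' Q {i}).card ≤ Real.exp (-(p * (NewP Q' Q {i}).card)) := by
      have h3 : 1 - p ≤ Real.exp (-p) := by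
        have := Real.add_one_le_exp (-p)
        linarith
      calc (1 - p) ^ (NewP Q' Q {i}).card ≤ (Real.exp (-p)) ^ (NewP Q' Q {i}).card :=
            pow_le_pow_left₀ (by linarith) h3 _
        _ = Real.exp (-(p * (NewP Q' Q {i}).card)) := by
            rw [← Real.exp_nat_mul]
            congr 1
            ring
    have h4 : Real.exp (-(p * (NewP Q' Q {i}).card)) ≤ Real.exp (-(p * c)) := by
      apply Real.exp_le_exp.2
      have := mul_le_mul_of_nonneg_left hc hp0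
      linarith
    linarith
  · intro b hb Y hY hbY
    obtain ⟨h1, h2, -⟩ := hmem b hb
    have hq : Que Q (∅ ∪ {b}) := by
      rw [Finset.empty_union]
      constructor
      · intro c hc
        rw [Finset.mem_singleton] at hc
        rw [hc]
        exact h2
      · simp
    have h3 := (inv_step h (hY.trans hsub) (Finset.singleton_subset_iff.2 hbY) hq
      (a := b) (by simp)).1
    have e1 : ((∅ : Finset (Vtx n d)) ∪ {b}).erase b = ∅ := by simp
    have e2 : T ∪ {b} = insert b T := by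
      rw [Finset.union_comm]
      rfl
    rw [e1, e2] at h3
    refine hn _ _ _ h3 fun m => ?_
    rw [d_sd_ext hQ, hout b hb m]

/-- room around a box -/
theorem k10_room {z : Vtx n d} {Q' Q : BoxT n d} {Z T : Finset (Vtx n d)} {y : ℕ}
    (h : Inv z Q' Q ∅ Z T) (hroom : Room (y + 3) z) (hy : ∀ m, sd Q m ≤ y) (m : Fin d) :
    2 ≤ (Q.1 m : ℕ) ∧ (Q.2 m : ℕ) + 2 < n := by
  have h1 := hroom m
  have h2 : (Q.1 m : ℕ) ≤ z m := h.mem.1 m
  have h3 : (z m : ℕ) ≤ Q.2 m := h.mem.2 m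
  have h4 := hy m
  unfold sd at h4
  omega

/-- the volume divided by a side length -/
theorem k10_div {x x' : Fin d → ℕ} {i : Fin d} {y : ℕ} (hx : ∀ m, 1 ≤ x m)
    (hx' : ∀ m, m ≠ i → x' m = x m) (hi : 1 ≤ x' i) (hy : x i ≤ y) :
    (∏ m, (x m : ℝ)) / y ≤ (∏ m, (x' m : ℝ)) / (x' i : ℝ) := by
  have h1 : ∏ m, (x m : ℝ) = x i * ∏ m ∈ Finset.univ.erase i, (x m : ℝ) :=
    (Finset.mul_prod_erase _ _ (Finset.mem_univ i)).symm
  have h2 : ∏ m, (x' m : ℝ) = x' i * ∏ m ∈ Finset.univ.erase i, (x' m : ℝ) :=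
    (Finset.mul_prod_erase _ _ (Finset.mem_univ i)).symm
  have h3 : ∏ m ∈ Finset.univ.erase i, (x' m : ℝ) = ∏ m ∈ Finset.univ.erase i, (x m : ℝ) :=
    Finset.prod_congr rfl fun m hm => by rw [hx' m (Finset.ne_of_mem_erase hm)]
  have hi' : (0 : ℝ) < x' i := by exact_mod_cast hi
  have h4 : 0 ≤ ∏ m ∈ Finset.univ.erase i, (x m : ℝ) :=
    Finset.prod_nonneg fun m _ => Nat.cast_nonneg _
  have h5 : (x i : ℝ) ≤ y := by exact_mod_cast hy
  have h6 : (1 : ℝ) ≤ x i := by exact_mod_cast hx i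
  rw [h1, h2, h3, mul_div_cancel_left₀ _ hi'.ne', mul_div_right_comm]
  refine mul_le_of_le_one_left h4 ?_
  rw [div_le_one (by linarith)]
  exact h5

/-- further births at the moved side -/
theorem k10_more {p : ℝ} (hp0 : 0 ≤ p) (hp1 : p ≤ 1) {z : Vtx n d}
    {x : Fin d → ℕ} {y : ℕ} (h1 : ∀ m, 1 ≤ x m) (hy : ∀ m, x m ≤ y) {i : Fin d}
    (hroom : Room (y + 3) z) {g : Finset (Vtx n d) → ℝ} {v : ℝ} (hv : 0 ≤ v) (X₁ : ℕ)
    (hX₁ : X₁ ≤ y)
    (hn : ∀ Z T, Dst z (fun m => if m = i then X₁ else x m) Z T → Ach p g Z T v) (h : ℕ) :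
    ∀ Q' Q Z T, Inv z Q' Q ∅ Z T → (∀ m, m ≠ i → sd Q m = x m) →
      (∀ m, sd Q m = sd Q' m + if m = i then 2 else 0) → sd Q i + 2 * h = X₁ →
      Ach p g Z T ((1 - Real.exp (-(p * (∏ m, (x m : ℝ)) / y))) ^ h * v) := by
  induction h with
  | zero =>
    intro Q' Q Z T hI hm hs hX
    rw [pow_zero, one_mul]
    refine hn Z T ⟨Q', Q, hI, ?_, ?_, ?_⟩
    · intro m
      show sd Q m = if m = i then X₁ else x m
      by_cases hmi : m = i
      · rw [if_pos hmi, hmi]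
        omega
      · rw [if_neg hmi, hm m hmi]
    · intro m
      rw [hs m]
      split_ifs <;> omega
    · have hQ : Q.1 ≤ Q.2 := (hI.sub.1.trans hI.le).trans hI.sub.2
      have e1 : ∀ m, ((Q.2 m : ℕ) - Q.1 m) = ((Q'.2 m : ℕ) - Q'.1 m) + if m = i then 2 else 0 := by
        intro m
        have := hs m
        have h2 : (Q.1 m : ℕ) ≤ Q.2 m := hQ m
        have h3 : (Q'.1 m : ℕ) ≤ Q'.2 m := hI.le m
        unfold sd at this
        omega
      unfold phi
      rw [Finset.sum_congr rfl fun m _ => e1 m, Finset.sum_add_distrib, Finset.sum_ite_eq']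
      simp
  | succ h ih =>
    intro Q' Q Z T hI hm hs hX
    have hQ : Q.1 ≤ Q.2 := (hI.sub.1.trans hI.le).trans hI.sub.2
    have hy' : ∀ m, sd Q m ≤ y := by
      intro m
      by_cases hmi : m = i
      · rw [hmi]
        omega
      · rw [hm m hmi]
        exact hy m
    have hq0 : 0 ≤ 1 - Real.exp (-(p * (∏ m, (x m : ℝ)) / y)) := by
      have : Real.exp (-(p * (∏ m, (x m : ℝ)) / y)) ≤ 1 := by
        apply Real.exp_le_one_iff.2
        have : 0 ≤ p * (∏ m, (x m : ℝ)) / y :=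
          div_nonneg (mul_nonneg hp0 (Finset.prod_nonneg fun m _ => Nat.cast_nonneg _))
            (Nat.cast_nonneg _)
        linarith
      linarith
    have hcard := card_slot_one hI.le hI.sub (i := i) (by rw [hs i, if_pos rfl]; omega)
      (fun m => k10_room hI hroom hy' m)
    have hdiv := k10_div (x := x) (x' := sd Q) (i := i) (y := y) h1 hm (d_sd_pos Q i) (hy i)
    have hvol : vol Q = ∏ m, (sd Q m : ℝ) := rfl
    rw [hvol] at hcard
    have := k10_birth hp0 hp1 hI i (g := g)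
      (mul_nonneg (pow_nonneg hq0 h) hv) (hdiv.trans hcard) ?_
    · rw [pow_succ', mul_assoc]
      rw [← mul_div_assoc] at this
      exact this
    · intro Q₁ Z₁ T₁ hI₁ hs₁
      refine ih Q Q₁ Z₁ T₁ hI₁ ?_ hs₁ ?_
      · intro m hmi
        rw [hs₁ m, if_neg hmi, add_zero, hm m hmi]
      · rw [hs₁ i, if_pos rfl]
        omega

/-- a run in one direction -/
theorem dst_run {p : ℝ} (hp0 : 0 ≤ p) (hp1 : p ≤ 1) {z : Vtx n d} {x : Fin d → ℕ} {y h : ℕ}
    (h4 : ∀ m, 4 ≤ x m) (hy : ∀ m, x m ≤ y) {i : Fin d} (hi : x i + 2 * (h + 1) ≤ y)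
    (hroom : Room (y + 3) z) {g : Finset (Vtx n d) → ℝ} {v : ℝ} (hv : 0 ≤ v)
    (hn : ∀ Z T, Dst z (fun m => x m + if m = i then 2 * (h + 1) else 0) Z T →
      Ach p g Z T v) :
    ∀ Z T, Dst z x Z T → Ach p g Z T
      ((1 - Real.exp (-(2 * p * (∏ m, (x m : ℝ)) * (2 * y - 1) / (y : ℝ) ^ 3))) *
        (1 - Real.exp (-(p * (∏ m, (x m : ℝ)) / y))) ^ h * v) := by
  rintro Z T ⟨Q', Q, hI, hs, ht, hg⟩
  have hQ : Q.1 ≤ Q.2 := (hI.sub.1.trans hI.le).trans hI.sub.2
  have hy' : ∀ m, sd Q m ≤ y := fun m => by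
    rw [hs m]
    exact hy m
  have hq0 : 0 ≤ 1 - Real.exp (-(p * (∏ m, (x m : ℝ)) / y)) := by
    have : Real.exp (-(p * (∏ m, (x m : ℝ)) / y)) ≤ 1 := by
      apply Real.exp_le_one_iff.2
      have : 0 ≤ p * (∏ m, (x m : ℝ)) / y :=
        div_nonneg (mul_nonneg hp0 (Finset.prod_nonneg fun m _ => Nat.cast_nonneg _))
          (Nat.cast_nonneg _)
      linarith
    linarith
  have hvol : vol Q = ∏ m, (x m : ℝ) := by
    unfold vol
    exact Finset.prod_congr rfl fun m _ => by rw [hs m]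
  have hv0 : 0 < vol Q := d_vol_pos Q
  have hcard := card_NewP_one hI.le hI.sub ht (fun m => by rw [hs m]; exact h4 m) i
    (fun m => k10_room hI hroom hy' m)
  have hvs := vol_sub_ge2 hI.le hI.sub hg (y := y) hy'
  have hxi : (4 : ℝ) ≤ sd Q i := by
    rw [hs i]
    exact_mod_cast h4 i
  have hyi : (sd Q i : ℝ) ≤ y := by exact_mod_cast hy' i
  have hy0 : (0 : ℝ) < y := by linarith
  have hc : 2 * vol Q * (2 * y - 1) / (y : ℝ) ^ 3 ≤ ((NewP Q' Q {i}).card : ℝ) := by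
    refine le_trans ?_ hcard
    have h5 : 0 ≤ vol Q * (2 * y - 1) / (y : ℝ) ^ 2 :=
      div_nonneg (mul_nonneg hv0.le (by linarith)) (by positivity)
    calc 2 * vol Q * (2 * y - 1) / (y : ℝ) ^ 3 = 2 * (vol Q * (2 * y - 1) / (y : ℝ) ^ 2) / y := by
          field_simp
      _ ≤ 2 * (vol Q * (2 * y - 1) / (y : ℝ) ^ 2) / (sd Q i : ℝ) :=
          div_le_div_of_nonneg_left (by positivity) (by linarith) hyi
      _ ≤ 2 * (vol Q - vol Q') / (sd Q i : ℝ) := by
          apply div_le_div_of_nonneg_right _ (by linarith)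
          linarith
  have hb := k10_birth hp0 hp1 hI i (g := g) (mul_nonneg (pow_nonneg hq0 h) hv) hc ?_
  · rw [mul_assoc]
    refine Ach.mono hb (le_of_eq ?_)
    rw [hvol]
    congr 4
    ring
  · intro Q₁ Z₁ T₁ hI₁ hs₁
    refine k10_more hp0 hp1 (x := x) (y := y) (i := i) (fun m => le_trans (by omega) (h4 m)) hy
      hroom hv (x i + 2 * (h + 1)) hi ?_ h Q Q₁ Z₁ T₁ hI₁ ?_ hs₁ ?_
    · intro Z₂ T₂ hD
      refine hn Z₂ T₂ ?_
      have e : (fun m => x m + if m = i then 2 * (h + 1) else 0) =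
          fun m => if m = i then x i + 2 * (h + 1) else x m := by
        funext m
        by_cases hm : m = i
        · rw [if_pos hm, if_pos hm, hm]
        · rw [if_neg hm, if_neg hm, add_zero]
      rw [e]
      exact hD
    · intro m hmi
      rw [hs₁ m, if_neg hmi, add_zero, hs m]
    · rw [hs₁ i, if_pos rfl, hs i]
      omega

/-! ### numbers -/

theorem k10_exp {w A : ℝ} (hw : 0 < w) (h : A ≤ Real.log w - w) :
    Real.exp A ≤ 1 - Real.exp (-w) := by
  have h1 : Real.exp A ≤ w * Real.exp (-w) := by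
    calc Real.exp A ≤ Real.exp (Real.log w - w) := Real.exp_le_exp.2 h
      _ = w * Real.exp (-w) := by rw [sub_eq_add_neg, Real.exp_add, Real.exp_log hw]
  have h2 : w * Real.exp (-w) ≤ 1 - Real.exp (-w) := by
    have h3 : w + 1 ≤ Real.exp w := Real.add_one_le_exp w
    have h4 : Real.exp w * Real.exp (-w) = 1 := by
      rw [← Real.exp_add]
      simp
    have h5 := Real.exp_pos (-w)
    nlinarith
  linarith

/-- facts about the dimension -/
theorem k10_num (ε : ℝ) (hε : 0 < ε) : ∃ D₀ : ℕ, ∀ d : ℕ, D₀ ≤ d →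
    2 ≤ d ∧ 4 ≤ d ∧ ∃ H : ℕ, blk d = 2 * H ∧ 3 ≤ H ∧ 2 * H ≤ d ∧
      (2 * (H : ℝ)) / d ≤ ε / 16 ∧ d * ((2 * (H : ℝ)) / d) ^ 2 ≤ ε / 16 ∧
      Real.exp (-(6 * Real.log d)) ≤ ε / 16 ∧ 18 * Real.log d ≤ ((H : ℝ) - 1) * ε ∧
      1 ≤ Real.log d := by
  have t1 : Filter.Tendsto (fun d : ℕ => Real.log (d : ℝ)) Filter.atTop Filter.atTop :=
    Real.tendsto_log_atTop.comp tendsto_natCast_atTop_atTop
  have t2 : Filter.Tendsto (fun d : ℕ => Real.log (d : ℝ) ^ 12 / (d : ℝ)) Filter.atTop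
      (nhds 0) := by
    have := (isLittleO_log_rpow_atTop (r := 1 / 12) (by norm_num)).tendsto_div_nhds_zero
    have h2 := (this.pow 12).comp tendsto_natCast_atTop_atTop (α := ℕ)
    simp only [ne_eq, OfNat.ofNat_ne_zero, not_false_eq_true, zero_pow] at h2
    refine h2.congr' ?_
    filter_upwards [Filter.eventually_gt_atTop 0] with d hd
    have hd' : (0 : ℝ) < d := by exact_mod_cast hd
    simp only [Function.comp]
    rw [div_pow, ← Real.rpow_natCast ((d : ℝ) ^ (1 / 12 : ℝ)), ← Real.rpow_mul hd'.le]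
    norm_num
  have e1 := t1.eventually_ge_atTop (max 2 (40 / ε))
  have e2 := t2.eventually_le_const (u := min (ε / 400) (1 / 4)) (by positivity)
  obtain ⟨D, hD⟩ := Filter.eventually_atTop.1 (e1.and e2)
  refine ⟨max D 4, fun d hd => ?_⟩
  obtain ⟨h1, h2⟩ := hD d ((le_max_left _ _).trans hd)
  have hd4 : 4 ≤ d := (le_max_right _ _).trans hd
  have hdR : (4 : ℝ) ≤ d := by exact_mod_cast hd4
  have hl2 : 2 ≤ Real.log d := (le_max_left _ _).trans h1
  have hlε : 40 / ε ≤ Real.log d := (le_max_right _ _).trans h1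
  have hq1 := h2.trans (min_le_left _ _)
  have hq2 := h2.trans (min_le_right _ _)
  have hd0 : (0 : ℝ) < d := by linarith
  obtain ⟨l, hl⟩ : ∃ l, l = Real.log d := ⟨_, rfl⟩
  rw [← hl] at hl2 hlε hq1 hq2 ⊢
  have hl0 : 0 < l := by linarith
  have p2 : 4 ≤ l ^ 2 := by nlinarith
  have p6 : 64 ≤ l ^ 6 := by
    have : l ^ 6 = (l ^ 2) ^ 3 := by ring
    rw [this]
    calc (64 : ℝ) = 4 ^ 3 := by norm_num
      _ ≤ _ := pow_le_pow_left₀ (by norm_num) p2 3
  have p12 : 64 * l ^ 6 ≤ l ^ 12 := by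
    have : l ^ 12 = l ^ 6 * l ^ 6 := by ring
    rw [this]
    exact mul_le_mul_of_nonneg_right p6 (by positivity)
  have hH1 : l ^ 6 ≤ ((⌈l ^ 6⌉₊ : ℕ) : ℝ) := Nat.le_ceil _
  have hH2 : ((⌈l ^ 6⌉₊ : ℕ) : ℝ) < l ^ 6 + 1 := Nat.ceil_lt_add_one (by positivity)
  set H : ℕ := ⌈l ^ 6⌉₊ with hH
  have hεl : 40 ≤ l * ε := by
    rw [div_le_iff₀ hε] at hlε
    exact hlε
  have hld : l ^ 12 / d * d = l ^ 12 := div_mul_cancel₀ _ hd0.ne'
  refine ⟨by omega, hd4, H, ?_, ?_, ?_, ?_, ?_, ?_, ?_, by linarith⟩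
  · unfold blk
    rw [hH, hl]
  · have : (3 : ℝ) ≤ H := by linarith
    exact_mod_cast this
  · have : (2 * H : ℝ) ≤ d := by
      rw [div_le_iff₀ hd0] at hq2
      linarith
    exact_mod_cast this
  · rw [div_le_iff₀ hd0] at hq1 ⊢
    linarith
  · have h5 : d * ((2 * (H : ℝ)) / d) ^ 2 = (2 * (H : ℝ)) ^ 2 / d := by
      field_simp
    rw [h5, div_le_iff₀ hd0]
    rw [div_le_iff₀ hd0] at hq1
    have h6 : (2 * (H : ℝ)) ^ 2 ≤ (4 * l ^ 6) ^ 2 :=
      pow_le_pow_left₀ (by positivity) (by linarith) 2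
    have h7 : (4 * l ^ 6) ^ 2 = 16 * l ^ 12 := by ring
    rw [h7] at h6
    linarith [mul_pos hε hd0]
  · have h5 : 6 * l + 1 ≤ Real.exp (6 * l) := Real.add_one_le_exp _
    rw [Real.exp_neg, inv_le_comm₀ (Real.exp_pos _) (by positivity)]
    refine le_trans ?_ h5
    rw [inv_le_comm₀ (by positivity) (by positivity), ← one_div, div_le_iff₀ (by positivity)]
    nlinarith
  · have h5 : l ^ 2 ≤ l ^ 6 - 1 := by
      have : l ^ 6 = l ^ 2 * (l ^ 2 * l ^ 2) := by ring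
      have h6 : (4 : ℝ) * 4 ≤ l ^ 2 * l ^ 2 := mul_le_mul p2 p2 (by norm_num) (by positivity)
      nlinarith
    have h6 : l ^ 2 * ε ≤ ((H : ℝ) - 1) * ε := mul_le_mul_of_nonneg_right (by linarith) hε.le
    nlinarith

/-- what is used about the parameters -/
structure k10_S (ε L : ℝ) (d X H : ℕ) : Prop where
  d4 : 4 ≤ d
  eps : 0 < ε
  gg : ∀ t : ℕ, (X - 1) * d ≤ t → gg (lt d t / d) ≤ Real.exp (ε / 2) * (lt d t / d / 2)
  Xd : d ≤ X
  Xd2 : X ≤ d ^ 2
  H3 : 3 ≤ H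
  Hd : 2 * H ≤ d
  a1 : (2 * (H : ℝ)) / X ≤ ε / 16
  a2 : d * ((2 * (H : ℝ)) / X) ^ 2 ≤ ε / 16
  a3 : Real.exp (-(6 * Real.log d)) ≤ ε / 16
  a4 : 18 * Real.log d ≤ ((H : ℝ) - 1) * ε
  hL : sfun d ((X + 2 * H - 1) * d) + 6 * Real.log d ≤ L
  l1 : 1 ≤ Real.log d

theorem k10_Xpos {ε L : ℝ} {d X H : ℕ} (h : k10_S ε L d X H) : (4 : ℝ) ≤ X := by
  have h1 := h.d4
  have h2 := h.Xd
  have : 4 ≤ X := by omega
  exact_mod_cast this

/-- upper bound for the exponent -/
theorem k10_term {ε L : ℝ} {d X H : ℕ} (h : k10_S ε L d X H) {s t : ℕ}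
    (hs : (X - 1) * d ≤ s) (hst : s ≤ t) (ht : t ≤ s + 2 * H) :
    (Ex d t - L) / 2 - ε ≤ (sfun d s - Real.log X - L) / 2 - 5 * ε / 8 := by
  have hd4 := h.d4
  have hd0 : (0 : ℝ) < d := by
    have : 0 < d := by omega
    exact_mod_cast this
  have hX4 := k10_Xpos h
  have hX0 : (0 : ℝ) < X := by linarith
  have hε := h.eps
  have h1 := h.gg t (hs.trans hst)
  have hX1 : 1 ≤ X := by
    have := h.Xd
    omega
  have hlt : (X : ℝ) ≤ lt d t := by
    unfold lt
    have h2 : (((X - 1) * d : ℕ) : ℝ) ≤ (t : ℝ) := by exact_mod_cast hs.trans hst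
    rw [Nat.cast_mul, Nat.cast_sub hX1] at h2
    have h3 : (X : ℝ) - 1 ≤ (t : ℝ) / d := by
      rw [le_div_iff₀ hd0]
      exact_mod_cast h2
    linarith
  have hlt0 : 0 < lt d t := by linarith
  have hgg0 : 0 < gg (lt d t / d) := d8_gg_pos (by positivity)
  have h2 : Real.log (2 * d * gg (lt d t / d) / lt d t ^ 2) ≤ ε / 2 - Real.log X := by
    have h3 : 2 * d * gg (lt d t / d) / lt d t ^ 2 ≤ Real.exp (ε / 2) / X := by
      rw [div_le_div_iff₀ (by positivity) hX0]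
      calc 2 * d * gg (lt d t / d) * X ≤
          2 * d * (Real.exp (ε / 2) * (lt d t / d / 2)) * lt d t := by gcongr
        _ = Real.exp (ε / 2) * lt d t ^ 2 := by
          field_simp
    calc Real.log (2 * d * gg (lt d t / d) / lt d t ^ 2) ≤ Real.log (Real.exp (ε / 2) / X) :=
          Real.log_le_log (by positivity) h3
      _ = ε / 2 - Real.log X := by
          rw [Real.log_div (Real.exp_pos _).ne' hX0.ne', Real.log_exp]
  have h3 : sfun d t ≤ sfun d s + ε / 16 := by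
    obtain ⟨c, rfl⟩ := Nat.exists_eq_add_of_le hst
    refine (sfun_sub_le d s c (by omega)).trans ?_
    have h4 : (X : ℝ) ≤ ((s / d : ℕ) : ℝ) + 1 := by
      have : X - 1 ≤ s / d := (Nat.le_div_iff_mul_le (by omega)).2 hs
      have h5 : X ≤ s / d + 1 := by omega
      exact_mod_cast h5
    have h6 : (c : ℝ) ≤ 2 * H := by
      have : c ≤ 2 * H := by omega
      exact_mod_cast this
    have h7 : (c : ℝ) / (((s / d : ℕ) : ℝ) + 1) ≤ 2 * H / X :=
      div_le_div₀ (by positivity) h6 hX0 h4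
    linarith [h.a1]
  unfold Ex
  linarith

theorem k10_sum {ε L : ℝ} {d X H : ℕ} (h : k10_S ε L d X H) {s b : ℕ}
    (hs : (X - 1) * d ≤ s) (hb : b ≤ H) :
    ∑ t ∈ Finset.Ico s (s + 2 * b), ((Ex d t - L) / 2 - ε) ≤
      b * (sfun d s - Real.log X - L - 5 * ε / 4) := by
  have h1 : ∑ t ∈ Finset.Ico s (s + 2 * b), ((Ex d t - L) / 2 - ε) ≤
      ∑ _t ∈ Finset.Ico s (s + 2 * b), ((sfun d s - Real.log X - L) / 2 - 5 * ε / 8) := by
    refine Finset.sum_le_sum fun t ht => ?_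
    rw [Finset.mem_Ico] at ht
    exact k10_term h hs ht.1 (by omega)
  refine h1.trans (le_of_eq ?_)
  rw [Finset.sum_const, Nat.card_Ico, nsmul_eq_mul, Nat.add_sub_cancel_left]
  push_cast
  ring

/-- lower bound for the expected number of points -/
theorem k10_low {ε L : ℝ} {d X H : ℕ} (h : k10_S ε L d X H) {s : ℕ} {V : ℝ}
    (hs' : s ≤ (X + 2 * H - 1) * d)
    (hV : Real.exp (sfun d s - d * ((2 * (H : ℝ)) / X) ^ 2) ≤ V) :
    ∃ w : ℝ, 0 < w ∧ w ≤ Real.exp (-L) * V / ((X + 2 * H : ℕ) : ℝ) ∧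
      sfun d s - Real.log X - L - 3 * ε / 16 ≤ Real.log w - w := by
  have hd4 := h.d4
  have hX4 := k10_Xpos h
  have hX0 : (0 : ℝ) < X := by linarith
  have hH0 : (0 : ℝ) ≤ H := Nat.cast_nonneg _
  have hy : ((X + 2 * H : ℕ) : ℝ) = X + 2 * H := by push_cast; ring
  have hy0 : (0 : ℝ) < X + 2 * H := by linarith
  have hε := h.eps
  refine ⟨Real.exp (-L) * Real.exp (sfun d s - d * ((2 * (H : ℝ)) / X) ^ 2) /
    ((X + 2 * H : ℕ) : ℝ), ?_, ?_, ?_⟩
  · rw [hy]
    positivity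
  · rw [hy]
    gcongr
  · rw [hy, Real.log_div (by positivity) hy0.ne', Real.log_mul (Real.exp_pos _).ne'
      (Real.exp_pos _).ne', Real.log_exp, Real.log_exp]
    have h1 : Real.log (X + 2 * H) ≤ Real.log X + 2 * H / X := by
      have h2 : (X : ℝ) + 2 * H = X * (1 + 2 * H / X) := by
        field_simp
      rw [h2, Real.log_mul hX0.ne' (by positivity)]
      have h3 := Real.log_le_sub_one_of_pos (x := 1 + 2 * (H : ℝ) / X) (by positivity)
      linarith
    have h2 : Real.exp (-L) * Real.exp (sfun d s - d * ((2 * (H : ℝ)) / X) ^ 2) / (X + 2 * H) ≤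
        ε / 16 := by
      have h3 : Real.exp (-L) * Real.exp (sfun d s - d * ((2 * (H : ℝ)) / X) ^ 2) ≤
          Real.exp (-(6 * Real.log d)) := by
        rw [← Real.exp_add]
        apply Real.exp_le_exp.2
        have h4 := sfun_mono d (by omega) hs'
        have h5 := h.hL
        have h6 : 0 ≤ d * ((2 * (H : ℝ)) / X) ^ 2 := by positivity
        linarith
      refine le_trans ?_ h.a3
      refine (div_le_self (by positivity) (by linarith)).trans h3
    have h3 := h.a1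
    have h4 := h.a2
    linarith

theorem k10_logy {ε L : ℝ} {d X H : ℕ} (h : k10_S ε L d X H) :
    Real.log ((X + 2 * H : ℕ) : ℝ) ≤ 3 * Real.log d := by
  have hd4 := h.d4
  have h1 : X + 2 * H ≤ d ^ 3 := by
    have h2 := h.Xd2
    have h3 := h.Hd
    have h4 : d ^ 3 = d ^ 2 * d := by ring
    have h5 : d ^ 2 * 2 ≤ d ^ 2 * d := Nat.mul_le_mul_left _ (by omega)
    have h6 : d ≤ d ^ 2 := by nlinarith
    omega
  have h2 : ((X + 2 * H : ℕ) : ℝ) ≤ (d : ℝ) ^ 3 := by exact_mod_cast h1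
  have hX : 0 < X + 2 * H := by
    have := h.Xd
    omega
  have h3 : (0 : ℝ) < ((X + 2 * H : ℕ) : ℝ) := by exact_mod_cast hX
  have h4 := Real.log_le_log h3 h2
  rw [Real.log_pow] at h4
  exact_mod_cast h4

/-- the value of a run -/
theorem k10_run {ε L : ℝ} {d X H : ℕ} (h : k10_S ε L d X H) {s b : ℕ} {V : ℝ}
    (hs : (X - 1) * d ≤ s) (hs' : s ≤ (X + 2 * H - 1) * d) (hb : b + 1 ≤ H) (hb' : H ≤ b + 2)
    (hV : Real.exp (sfun d s - d * ((2 * (H : ℝ)) / X) ^ 2) ≤ V) :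
    Real.exp (∑ t ∈ Finset.Ico s (s + 2 * (b + 1)), ((Ex d t - L) / 2 - ε) +
        12 * Real.log d) ≤
      (1 - Real.exp (-(2 * Real.exp (-L) * V * (2 * ((X + 2 * H : ℕ) : ℝ) - 1) /
        ((X + 2 * H : ℕ) : ℝ) ^ 3))) *
        (1 - Real.exp (-(Real.exp (-L) * V / ((X + 2 * H : ℕ) : ℝ)))) ^ b := by
  obtain ⟨w, hw0, hw1, hw2⟩ := k10_low h hs' hV
  have hlog := k10_logy h
  have hX4 := k10_Xpos h
  have hH0 : (0 : ℝ) ≤ H := Nat.cast_nonneg _
  obtain ⟨y, hy⟩ : ∃ y : ℝ, y = ((X + 2 * H : ℕ) : ℝ) := ⟨_, rfl⟩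
  have hy4 : 4 ≤ y := by
    rw [hy]
    push_cast
    linarith
  rw [← hy] at hw1 hlog ⊢
  have hy0 : 0 < y := by linarith
  have hε := h.eps
  have hsum := k10_sum h hs hb
  obtain ⟨B, hB⟩ : ∃ B, B = sfun d s - Real.log X - L := ⟨_, rfl⟩
  rw [← hB] at hw2 hsum
  have hV0 : 0 < V := (Real.exp_pos _).trans_le hV
  have hpV : 0 < Real.exp (-L) * V := mul_pos (Real.exp_pos _) hV0
  have f1 : Real.exp (B - 3 * ε / 16 - Real.log y) ≤
      1 - Real.exp (-(2 * Real.exp (-L) * V * (2 * y - 1) / y ^ 3)) := by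
    have g1 : Real.exp (B - 3 * ε / 16 - Real.log y) ≤ 1 - Real.exp (-(w / y)) := by
      apply k10_exp (by positivity)
      rw [Real.log_div hw0.ne' hy0.ne']
      have : w / y ≤ w := div_le_self hw0.le (by linarith)
      linarith
    have g2 : w / y ≤ 2 * Real.exp (-L) * V * (2 * y - 1) / y ^ 3 := by
      calc w / y ≤ Real.exp (-L) * V / y / y := by gcongr
        _ ≤ 2 * Real.exp (-L) * V * (2 * y - 1) / y ^ 3 := by
          rw [div_div, div_le_div_iff₀ (by positivity) (by positivity)]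
          have : 1 * y ≤ 2 * (2 * y - 1) := by linarith
          calc Real.exp (-L) * V * y ^ 3 = Real.exp (-L) * V * y ^ 2 * (1 * y) := by ring
            _ ≤ Real.exp (-L) * V * y ^ 2 * (2 * (2 * y - 1)) := by gcongr
            _ = _ := by ring
    have g3 : Real.exp (-(2 * Real.exp (-L) * V * (2 * y - 1) / y ^ 3)) ≤
        Real.exp (-(w / y)) := Real.exp_le_exp.2 (by linarith)
    linarith
  have f2 : Real.exp (B - 3 * ε / 16) ≤ 1 - Real.exp (-(Real.exp (-L) * V / y)) := by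
    have g1 : Real.exp (B - 3 * ε / 16) ≤ 1 - Real.exp (-w) := k10_exp hw0 hw2
    have g3 : Real.exp (-(Real.exp (-L) * V / y)) ≤ Real.exp (-w) :=
      Real.exp_le_exp.2 (by linarith)
    linarith
  calc Real.exp (∑ t ∈ Finset.Ico s (s + 2 * (b + 1)), ((Ex d t - L) / 2 - ε) +
        12 * Real.log d) ≤
      Real.exp (B - 3 * ε / 16 - Real.log y) * Real.exp (B - 3 * ε / 16) ^ b := by
        rw [← Real.exp_nat_mul, ← Real.exp_add]
        apply Real.exp_le_exp.2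
        have h4 := h.a4
        have h5 : (H : ℝ) ≤ b + 2 := by exact_mod_cast hb'
        push_cast at hsum
        have h6 : ((H : ℝ) - 1) * ε ≤ ((b : ℝ) + 1) * ε :=
          mul_le_mul_of_nonneg_right (by linarith) hε.le
        have h7 : 0 ≤ (b : ℝ) * ε := by positivity
        have h8 := h.l1
        nlinarith
    _ ≤ _ := by
        refine mul_le_mul f1 (pow_le_pow_left₀ (Real.exp_pos _).le f2 b) (by positivity) ?_
        exact (Real.exp_pos _).le.trans f1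

/-- the value of a corner birth -/
theorem k10_fch {ε L : ℝ} {d X H : ℕ} (h : k10_S ε L d X H) {s : ℕ} {V : ℝ}
    (hs : (X - 1) * d ≤ s) (hs' : s ≤ (X + 2 * H - 1) * d)
    (hV : Real.exp (sfun d s - d * ((2 * (H : ℝ)) / X) ^ 2) ≤ V) :
    Real.exp (∑ t ∈ Finset.Ico s (s + 2), ((Ex d t - L) / 2 - ε) - 6 * Real.log d) ≤
      fch (Real.exp (-L)) V (X + 2 * H) := by
  obtain ⟨w, hw0, hw1, hw2⟩ := k10_low h hs' hV
  have hlog := k10_logy h
  have hX4 := k10_Xpos h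
  have hH0 : (0 : ℝ) ≤ H := Nat.cast_nonneg _
  unfold fch
  obtain ⟨y, hy⟩ : ∃ y : ℝ, y = ((X + 2 * H : ℕ) : ℝ) := ⟨_, rfl⟩
  have hy4 : 4 ≤ y := by
    rw [hy]
    push_cast
    linarith
  rw [← hy] at hw1 hlog ⊢
  have hy0 : 0 < y := by linarith
  have hε := h.eps
  have hsum := k10_sum h hs (b := 1) (by have := h.H3; omega)
  obtain ⟨B, hB⟩ : ∃ B, B = sfun d s - Real.log X - L := ⟨_, rfl⟩
  rw [← hB] at hw2 hsum
  rw [mul_one] at hsum
  have hV0 : 0 < V := (Real.exp_pos _).trans_le hV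
  have hpV : 0 < Real.exp (-L) * V := mul_pos (Real.exp_pos _) hV0
  have g1 : Real.exp (∑ t ∈ Finset.Ico s (s + 2), ((Ex d t - L) / 2 - ε) - 6 * Real.log d) ≤
      1 - Real.exp (-(w / y ^ 2)) := by
    apply k10_exp (by positivity)
    rw [Real.log_div hw0.ne' (by positivity), Real.log_pow]
    have : w / y ^ 2 ≤ w := div_le_self hw0.le (by nlinarith)
    push_cast at hsum ⊢
    linarith
  have g2 : w / y ^ 2 ≤ 4 * Real.exp (-L) * V / y ^ 3 := by
    calc w / y ^ 2 ≤ Real.exp (-L) * V / y / y ^ 2 := by gcongr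
      _ ≤ 4 * Real.exp (-L) * V / y ^ 3 := by
        rw [div_div]
        have e : y * y ^ 2 = y ^ 3 := by ring
        rw [e]
        apply div_le_div_of_nonneg_right _ (by positivity)
        nlinarith
  have g3 : Real.exp (-(4 * Real.exp (-L) * V / y ^ 3)) ≤ Real.exp (-(w / y ^ 2)) :=
    Real.exp_le_exp.2 (by linarith)
  linarith

/-! ### the block -/

theorem k10_sumx (x : Fin d → ℕ) (hx : ∀ m, 1 ≤ x m) (i : Fin d) (c : ℕ) :
    ∑ m, (x m + (if m = i then c else 0) - 1) = ∑ m, (x m - 1) + c := by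
  have e : ∀ m, x m + (if m = i then c else 0) - 1 = (x m - 1) + if m = i then c else 0 := by
    intro m
    have := hx m
    omega
  rw [Finset.sum_congr rfl fun m _ => e m, Finset.sum_add_distrib, Finset.sum_ite_eq']
  simp

theorem k10_sumc (x : Fin d → ℕ) (hx : ∀ m, 1 ≤ x m) {i j : Fin d} (hij : i ≠ j) :
    ∑ m, (x m + (if m = i ∨ m = j then 1 else 0) - 1) = ∑ m, (x m - 1) + 2 := by
  have e : ∀ m, x m + (if m = i ∨ m = j then 1 else 0) - 1 =
      (x m - 1) + if m = i ∨ m = j then 1 else 0 := by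
    intro m
    have := hx m
    omega
  rw [Finset.sum_congr rfl fun m _ => e m, Finset.sum_add_distrib, k_sum_pair hij]

theorem k10_sumS {X H : ℕ} (hX : 1 ≤ X) (S : Finset (Fin d)) :
    ∑ m, (X + (if m ∈ S then 2 * H else 0) - 1) = (X - 1) * d + 2 * H * S.card := by
  have e : ∀ m, X + (if m ∈ S then 2 * H else 0) - 1 = (X - 1) + if m ∈ S then 2 * H else 0 := by
    intro m
    omega
  rw [Finset.sum_congr rfl fun m _ => e m, Finset.sum_add_distrib, Finset.sum_const,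
    Finset.sum_ite_mem, Finset.univ_inter, Finset.sum_const, Finset.card_univ, Fintype.card_fin,
    smul_eq_mul, smul_eq_mul]
  ring

/-- the end of the block -/
theorem k10_last {ε L : ℝ} {X H : ℕ} (h : k10_S ε L d X H) {z : Vtx n d}
    (hroom : Room (X + 2 * H + 8) z) {g : Finset (Vtx n d) → ℝ} {v : ℝ} (hv : 0 ≤ v)
    {i₀ j₀ : Fin d} (hij : i₀ ≠ j₀) (hL0 : 0 ≤ L)
    (hn : ∀ Z T, Cst z (fun _ => X + 2 * H) Z T → Ach (Real.exp (-L)) g Z T v)
    {S : Finset (Fin d)} (hi : i₀ ∉ S) (hj : j₀ ∉ S) (hS : S.card + 2 = d)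
    {Z T : Finset (Vtx n d)} (hD : Dst z (fun m => X + if m ∈ S then 2 * H else 0) Z T) :
    Ach (Real.exp (-L)) g Z T (Real.exp (∑ t ∈ Finset.Ico ((X - 1) * d + 2 * H * S.card)
      ((X + 2 * H - 1) * d), ((Ex d t - L) / 2 - ε)) * v) := by
  have hp0 : 0 ≤ Real.exp (-L) := (Real.exp_pos _).le
  have hp1 : Real.exp (-L) ≤ 1 := Real.exp_le_one_iff.2 (by linarith)
  have hX4 : 4 ≤ X := by
    have := h.d4
    have := h.Xd
    omega
  obtain ⟨b, hb⟩ : ∃ b, H = b + 2 := ⟨H - 2, by have := h.H3; omega⟩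
  have hroom1 : Room (X + 2 * H + 3) z := fun m => by
    have := hroom m
    omega
  have hroom2 : Room (X + 2 * H + 1) z := fun m => by
    have := hroom m
    omega
  -- all directions outside `S` are `i₀` and `j₀`
  have hall : ∀ m, m ∉ S → m = i₀ ∨ m = j₀ := by
    intro m hm
    by_contra hcon
    push Not at hcon
    have h1 : (insert m (insert i₀ (insert j₀ S))).card = S.card + 3 := by
      rw [Finset.card_insert_of_notMem, Finset.card_insert_of_notMem,
        Finset.card_insert_of_notMem hj]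
      · simp [hij, hi]
      · simp [hcon.1, hcon.2, hm]
    have h2 := Finset.card_le_univ (insert m (insert i₀ (insert j₀ S)))
    rw [h1, Fintype.card_fin] at h2
    omega
  set x₀ : Fin d → ℕ := fun m => X + if m ∈ S then 2 * H else 0 with hx₀
  set x₁ : Fin d → ℕ := fun m => x₀ m + if m = i₀ then 2 * (b + 1) else 0 with hx₁
  set x₂ : Fin d → ℕ := fun m => x₁ m + if m = j₀ then 2 * (b + 1) else 0 with hx₂
  set x₃ : Fin d → ℕ := fun m => x₂ m + if m = i₀ ∨ m = j₀ then 1 else 0 with hx₃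
  have v0 : ∀ m, X ≤ x₀ m := fun m => Nat.le_add_right _ _
  have v1 : ∀ m, X ≤ x₁ m := fun m => (v0 m).trans (Nat.le_add_right _ _)
  have v2 : ∀ m, X ≤ x₂ m := fun m => (v1 m).trans (Nat.le_add_right _ _)
  have v3 : ∀ m, X ≤ x₃ m := fun m => (v2 m).trans (Nat.le_add_right _ _)
  have w0 : ∀ m, x₀ m = if m = i₀ ∨ m = j₀ then X else X + 2 * H := by
    intro m
    simp only [hx₀]
    by_cases hm : m ∈ S
    · have h1 : ¬ (m = i₀ ∨ m = j₀) := by
        rintro (rfl | rfl)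
        · exact hi hm
        · exact hj hm
      rw [if_pos hm, if_neg h1]
    · rw [if_neg hm, if_pos (hall m hm), add_zero]
  have w1 : ∀ m, x₁ m = if m = i₀ then X + 2 * (b + 1) else if m = j₀ then X
      else X + 2 * H := by
    intro m
    simp only [hx₁]
    rw [w0 m]
    by_cases h1 : m = i₀
    · simp [h1]
    · by_cases h2 : m = j₀
      · simp [h2, hij.symm]
      · simp [h1, h2]
  have w2 : ∀ m, x₂ m = if m = i₀ ∨ m = j₀ then X + 2 * (b + 1) else X + 2 * H := by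
    intro m
    simp only [hx₂]
    rw [w1 m]
    by_cases h1 : m = i₀
    · simp [h1, hij]
    · by_cases h2 : m = j₀
      · simp [h2, hij.symm]
      · simp [h1, h2]
  have w3 : ∀ m, x₃ m = if m = i₀ ∨ m = j₀ then X + 2 * (b + 1) + 1 else X + 2 * H := by
    intro m
    simp only [hx₃]
    rw [w2 m]
    by_cases h1 : m = i₀ ∨ m = j₀
    · simp [h1]
    · simp [h1]
  have u0 : ∀ m, x₀ m ≤ X + 2 * H := fun m => by
    rw [w0 m]
    split_ifs <;> omega
  have u1 : ∀ m, x₁ m ≤ X + 2 * H := fun m => by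
    rw [w1 m]
    split_ifs <;> omega
  have u2 : ∀ m, x₂ m ≤ X + 2 * H := fun m => by
    rw [w2 m]
    split_ifs <;> omega
  have u3 : ∀ m, x₃ m ≤ X + 2 * H := fun m => by
    rw [w3 m]
    split_ifs <;> omega
  obtain ⟨s, hs⟩ : ∃ s, s = (X - 1) * d + 2 * H * S.card := ⟨_, rfl⟩
  rw [← hs]
  have s0 : ∑ m, (x₀ m - 1) = s := by
    rw [hs]
    exact k10_sumS (by omega) S
  have s1 : ∑ m, (x₁ m - 1) = s + 2 * (b + 1) := by
    rw [← s0]
    exact k10_sumx x₀ (fun m => le_trans (by omega) (v0 m)) i₀ _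
  have s2 : ∑ m, (x₂ m - 1) = s + 2 * (b + 1) + 2 * (b + 1) := by
    rw [← s1]
    exact k10_sumx x₁ (fun m => le_trans (by omega) (v1 m)) j₀ _
  have s3 : ∑ m, (x₃ m - 1) = s + 2 * (b + 1) + 2 * (b + 1) + 2 := by
    rw [← s2]
    exact k10_sumc x₂ (fun m => le_trans (by omega) (v2 m)) hij
  have hend : (X + 2 * H - 1) * d = s + 2 * (b + 1) + 2 * (b + 1) + 2 + 2 := by
    have e1 : X + 2 * H - 1 = (X - 1) + 2 * H := by omega
    have e2 : 2 * H * d = 2 * H * (S.card + 2) := by rw [hS]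
    rw [hs, e1, add_mul, e2, hb]
    ring
  have hs0 : (X - 1) * d ≤ s := by
    rw [hs]
    exact Nat.le_add_right _ _
  have hV0 := Fill_vol (l := X) (J := 2 * H) (by omega) x₀ v0 u0
  have hV1 := Fill_vol (l := X) (J := 2 * H) (by omega) x₁ v1 u1
  have hV2 := Fill_vol (l := X) (J := 2 * H) (by omega) x₂ v2 u2
  have hV3 := Fill_vol (l := X) (J := 2 * H) (by omega) x₃ v3 u3
  rw [s0] at hV0
  rw [s1] at hV1
  rw [s2] at hV2
  rw [s3] at hV3
  push_cast at hV0 hV1 hV2 hV3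
  have r0 := k10_run h (s := s) (b := b) hs0 (by omega) (by omega) (by omega) hV0
  have r1 := k10_run h (s := s + 2 * (b + 1)) (b := b) (by omega) (by omega) (by omega)
    (by omega) hV1
  have r2 := k10_fch h (s := s + 2 * (b + 1) + 2 * (b + 1)) (by omega) (by omega) hV2
  have r3 := k10_fch h (s := s + 2 * (b + 1) + 2 * (b + 1) + 2) (by omega) (by omega) hV3
  obtain ⟨F, hF⟩ : ∃ F : ℕ → ℝ, F = fun t => (Ex d t - L) / 2 - ε := ⟨_, rfl⟩
  have hFt : ∀ t, (Ex d t - L) / 2 - ε = F t := fun t => by rw [hF]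
  simp only [hFt] at r0 r1 r2 r3 ⊢
  -- the last corner
  have c3 : ∀ Z T, Cst z x₃ Z T → Ach (Real.exp (-L)) g Z T
      (Real.exp (∑ t ∈ Finset.Ico (s + 2 * (b + 1) + 2 * (b + 1) + 2)
        (s + 2 * (b + 1) + 2 * (b + 1) + 2 + 2), F t - 6 * Real.log d) * v) := by
    intro Z T hC
    have h1 := reach_chain hp0 hp1 (x := x₃) (y := X + 2 * H) u3 hroom2 hij g v hv ?_ x₃ Z T
      rfl hC
    · exact Ach.mono h1 (mul_le_mul_of_nonneg_right r3 hv)
    · intro x' Z' T' hx' hC'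
      refine hn Z' T' ?_
      have e : (fun _ : Fin d => X + 2 * H) = x' := by
        rw [hx']
        funext m
        rw [w3 m]
        by_cases h1 : m = i₀ ∨ m = j₀
        · rw [if_pos h1, if_pos h1]
          omega
        · rw [if_neg h1, if_neg h1, add_zero]
      rw [e]
      exact hC'
  have c2 : ∀ Z T, Dst z x₂ Z T → Ach (Real.exp (-L)) g Z T
      (Real.exp (∑ t ∈ Finset.Ico (s + 2 * (b + 1) + 2 * (b + 1))
        (s + 2 * (b + 1) + 2 * (b + 1) + 2), F t - 6 * Real.log d) *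
      (Real.exp (∑ t ∈ Finset.Ico (s + 2 * (b + 1) + 2 * (b + 1) + 2)
        (s + 2 * (b + 1) + 2 * (b + 1) + 2 + 2), F t - 6 * Real.log d) * v)) := by
    intro Z T hD2
    have hv3 := mul_nonneg (Real.exp_pos (∑ t ∈ Finset.Ico (s + 2 * (b + 1) + 2 * (b + 1) + 2)
        (s + 2 * (b + 1) + 2 * (b + 1) + 2 + 2), F t - 6 * Real.log d)).le hv
    have h1 := dst_corner hp0 hp1 (x := x₂) (y := X + 2 * H) (fun m => hX4.trans (v2 m)) u2
      hroom1 hij hv3 c3 Z T hD2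
    exact Ach.mono h1 (mul_le_mul_of_nonneg_right r2 hv3)
  obtain ⟨v₂, hv₂⟩ : ∃ v₂, v₂ = (Real.exp (∑ t ∈ Finset.Ico (s + 2 * (b + 1) + 2 * (b + 1))
        (s + 2 * (b + 1) + 2 * (b + 1) + 2), F t - 6 * Real.log d) *
      (Real.exp (∑ t ∈ Finset.Ico (s + 2 * (b + 1) + 2 * (b + 1) + 2)
        (s + 2 * (b + 1) + 2 * (b + 1) + 2 + 2), F t - 6 * Real.log d) * v)) := ⟨_, rfl⟩
  rw [← hv₂] at c2
  have hv2 : 0 ≤ v₂ := by
    rw [hv₂]
    positivity
  have c1 := dst_run hp0 hp1 (x := x₁) (y := X + 2 * H) (h := b) (i := j₀)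
    (fun m => hX4.trans (v1 m)) u1 (by rw [w1 j₀, if_neg hij.symm, if_pos rfl]; omega) hroom1
    hv2 c2
  have q1 : 0 ≤ (1 - Real.exp (-(2 * Real.exp (-L) * (∏ m, (x₁ m : ℝ)) *
      (2 * ((X + 2 * H : ℕ) : ℝ) - 1) / ((X + 2 * H : ℕ) : ℝ) ^ 3))) *
        (1 - Real.exp (-(Real.exp (-L) * (∏ m, (x₁ m : ℝ)) / ((X + 2 * H : ℕ) : ℝ)))) ^ b :=
    (Real.exp_pos _).le.trans r1
  have c0 := dst_run hp0 hp1 (x := x₀) (y := X + 2 * H) (h := b) (i := i₀)
    (fun m => hX4.trans (v0 m)) u0 (by rw [w0 i₀, if_pos (Or.inl rfl)]; omega) hroom1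
    (mul_nonneg q1 hv2) c1 Z T hD
  refine Ach.mono c0 ?_
  rw [hend]
  have hsplit : ∑ t ∈ Finset.Ico s (s + 2 * (b + 1) + 2 * (b + 1) + 2 + 2), F t =
      ∑ t ∈ Finset.Ico s (s + 2 * (b + 1)), F t +
      ∑ t ∈ Finset.Ico (s + 2 * (b + 1)) (s + 2 * (b + 1) + 2 * (b + 1)), F t +
      ∑ t ∈ Finset.Ico (s + 2 * (b + 1) + 2 * (b + 1)) (s + 2 * (b + 1) + 2 * (b + 1) + 2), F t +
      ∑ t ∈ Finset.Ico (s + 2 * (b + 1) + 2 * (b + 1) + 2)
        (s + 2 * (b + 1) + 2 * (b + 1) + 2 + 2), F t := by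
    rw [Finset.sum_Ico_consecutive _ (by omega) (by omega),
      Finset.sum_Ico_consecutive _ (by omega) (by omega),
      Finset.sum_Ico_consecutive _ (by omega) (by omega)]
  rw [hsplit]
  obtain ⟨A₀, hA₀⟩ : ∃ A, A = ∑ t ∈ Finset.Ico s (s + 2 * (b + 1)), F t := ⟨_, rfl⟩
  obtain ⟨A₁, hA₁⟩ : ∃ A, A = ∑ t ∈ Finset.Ico (s + 2 * (b + 1))
    (s + 2 * (b + 1) + 2 * (b + 1)), F t := ⟨_, rfl⟩
  obtain ⟨A₂, hA₂⟩ : ∃ A, A = ∑ t ∈ Finset.Ico (s + 2 * (b + 1) + 2 * (b + 1))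
    (s + 2 * (b + 1) + 2 * (b + 1) + 2), F t := ⟨_, rfl⟩
  obtain ⟨A₃, hA₃⟩ : ∃ A, A = ∑ t ∈ Finset.Ico (s + 2 * (b + 1) + 2 * (b + 1) + 2)
    (s + 2 * (b + 1) + 2 * (b + 1) + 2 + 2), F t := ⟨_, rfl⟩
  rw [← hA₀] at r0
  rw [← hA₁] at r1
  rw [← hA₂, ← hA₃] at hv₂
  rw [← hA₀, ← hA₁, ← hA₂, ← hA₃]
  have hl := h.l1
  calc Real.exp (A₀ + A₁ + A₂ + A₃) * v ≤
      Real.exp (A₀ + 12 * Real.log d) * (Real.exp (A₁ + 12 * Real.log d) * v₂) := by
        rw [hv₂, ← mul_assoc, ← mul_assoc, ← mul_assoc, ← Real.exp_add, ← Real.exp_add,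
          ← Real.exp_add]
        refine mul_le_mul_of_nonneg_right (Real.exp_le_exp.2 ?_) hv
        linarith
    _ ≤ _ := by
        refine mul_le_mul r0 (mul_le_mul_of_nonneg_right r1 hv2) (by positivity)
          ((Real.exp_pos _).le.trans r0)

/-- the directions which get a full run -/
theorem k10_ind {ε L : ℝ} {X H : ℕ} (h : k10_S ε L d X H) {z : Vtx n d}
    (hroom : Room (X + 2 * H + 8) z) {g : Finset (Vtx n d) → ℝ} {v : ℝ} (hv : 0 ≤ v)
    {i₀ j₀ : Fin d} (hij : i₀ ≠ j₀) (hL0 : 0 ≤ L)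
    (hn : ∀ Z T, Cst z (fun _ => X + 2 * H) Z T → Ach (Real.exp (-L)) g Z T v) (k : ℕ) :
    ∀ S : Finset (Fin d), i₀ ∉ S → j₀ ∉ S → S.card + k + 2 = d →
    ∀ Z T, Dst z (fun m => X + if m ∈ S then 2 * H else 0) Z T →
    Ach (Real.exp (-L)) g Z T (Real.exp (∑ t ∈ Finset.Ico ((X - 1) * d + 2 * H * S.card)
      ((X + 2 * H - 1) * d), ((Ex d t - L) / 2 - ε)) * v) := by
  induction k with
  | zero =>
    intro S hi hj hS Z T hD
    exact k10_last h hroom hv hij hL0 hn hi hj (by omega) hD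
  | succ k ih =>
    intro S hi hj hS Z T hD
    have hp0 : 0 ≤ Real.exp (-L) := (Real.exp_pos _).le
    have hp1 : Real.exp (-L) ≤ 1 := Real.exp_le_one_iff.2 (by linarith)
    have hX4 : 4 ≤ X := by
      have := h.d4
      have := h.Xd
      omega
    obtain ⟨b, hb⟩ : ∃ b, H = b + 1 := ⟨H - 1, by have := h.H3; omega⟩
    have hroom1 : Room (X + 2 * H + 3) z := fun m => by
      have := hroom m
      omega
    obtain ⟨i, hiS⟩ : ∃ i, i ∉ insert i₀ (insert j₀ S) := by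
      by_contra hcon
      push Not at hcon
      have h1 : insert i₀ (insert j₀ S) = Finset.univ := Finset.eq_univ_iff_forall.2 hcon
      have h2 : (insert i₀ (insert j₀ S)).card ≤ S.card + 2 :=
        (Finset.card_insert_le _ _).trans (by have := Finset.card_insert_le j₀ S; omega)
      rw [h1, Finset.card_univ, Fintype.card_fin] at h2
      omega
    rw [Finset.mem_insert, Finset.mem_insert, not_or, not_or] at hiS
    have hih := ih (insert i S) (by simp [Ne.symm hiS.1, hi]) (by simp [Ne.symm hiS.2.1, hj])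
      (by rw [Finset.card_insert_of_notMem hiS.2.2]; omega)
    have hcard : (insert i S).card = S.card + 1 := Finset.card_insert_of_notMem hiS.2.2
    rw [hcard] at hih
    set x₀ : Fin d → ℕ := fun m => X + if m ∈ S then 2 * H else 0 with hx₀
    have v0 : ∀ m, X ≤ x₀ m := fun m => Nat.le_add_right _ _
    have u0 : ∀ m, x₀ m ≤ X + 2 * H := fun m => by
      simp only [hx₀]
      split_ifs <;> omega
    have hx : (fun m => x₀ m + if m = i then 2 * (b + 1) else 0) =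
        fun m => X + if m ∈ insert i S then 2 * H else 0 := by
      funext m
      simp only [hx₀]
      by_cases hm : m = i
      · subst hm
        rw [if_neg hiS.2.2, if_pos rfl, if_pos (Finset.mem_insert_self _ _), hb, add_zero]
      · rw [if_neg hm]
        by_cases hmS : m ∈ S
        · rw [if_pos hmS, if_pos (Finset.mem_insert_of_mem hmS), add_zero]
        · rw [if_neg hmS, if_neg (by simp [hm, hmS])]
    obtain ⟨s, hs⟩ : ∃ s, s = (X - 1) * d + 2 * H * S.card := ⟨_, rfl⟩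
    have hs1 : (X - 1) * d + 2 * H * (S.card + 1) = s + 2 * (b + 1) := by
      rw [hs, hb]
      ring
    rw [hs1] at hih
    rw [← hs]
    have s0 : ∑ m, (x₀ m - 1) = s := by
      rw [hs]
      exact k10_sumS (by omega) S
    have hs0 : (X - 1) * d ≤ s := by
      rw [hs]
      exact Nat.le_add_right _ _
    have hend : s + 2 * (b + 1) ≤ (X + 2 * H - 1) * d := by
      have e1 : X + 2 * H - 1 = (X - 1) + 2 * H := by omega
      rw [hs, e1, add_mul, add_assoc, ← hb]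
      apply Nat.add_le_add_left
      calc 2 * H * S.card + 2 * H = 2 * H * (S.card + 1) := by ring
        _ ≤ 2 * H * d := Nat.mul_le_mul_left _ (by omega)
    have hV0 := Fill_vol (l := X) (J := 2 * H) (by omega) x₀ v0 u0
    rw [s0] at hV0
    push_cast at hV0
    have r0 := k10_run h (s := s) (b := b) hs0 (by omega) (by omega) (by omega) hV0
    obtain ⟨F, hF⟩ : ∃ F : ℕ → ℝ, F = fun t => (Ex d t - L) / 2 - ε := ⟨_, rfl⟩
    have hFt : ∀ t, (Ex d t - L) / 2 - ε = F t := fun t => by rw [hF]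
    simp only [hFt] at r0 hih ⊢
    have hv1 : 0 ≤ Real.exp (∑ t ∈ Finset.Ico (s + 2 * (b + 1)) ((X + 2 * H - 1) * d), F t) * v :=
      by positivity
    have hxi : x₀ i = X := by
      simp only [hx₀]
      rw [if_neg hiS.2.2, add_zero]
    have c0 := dst_run hp0 hp1 (x := x₀) (y := X + 2 * H) (h := b) (i := i)
      (fun m => hX4.trans (v0 m)) u0 (by rw [hxi, hb]) hroom1
      hv1 (by
        intro Z' T' hD'
        rw [hx] at hD'
        exact hih Z' T' hD') Z T hD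
    refine Ach.mono c0 ?_
    rw [← Finset.sum_Ico_consecutive _ (show s ≤ s + 2 * (b + 1) by omega) hend, Real.exp_add,
      mul_assoc]
    refine mul_le_mul_of_nonneg_right (le_trans (Real.exp_le_exp.2 ?_) r0) hv1
    have := h.l1
    linarith

/-- one block, side lengths much larger than `d` -/
theorem deep_block_F (ε : ℝ) (hε : 0 < ε) : ∃ T₀ : ℝ, 0 < T₀ ∧ ∃ D₀ : ℕ,
    ∀ (n d X : ℕ) (L : ℝ) (z : Vtx n d), D₀ ≤ d → T₀ * d ≤ X → X ≤ d ^ 2 →
      sfun d ((X + blk d - 1) * d) + 6 * Real.log d ≤ L → Room (X + blk d + 8) z →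
      Reach (Real.exp (-L)) z (fun x => ∀ m, x m = X) (fun x => ∀ m, x m = X + blk d)
        (Real.exp (∑ t ∈ Finset.Ico ((X - 1) * d) ((X + blk d - 1) * d),
          ((Ex d t - L) / 2 - ε))) := by
  obtain ⟨T, hT0, hT⟩ := gg_large (ε / 2) (by positivity)
  obtain ⟨D, hD⟩ := k10_num ε hε
  refine ⟨max T 1, by positivity, D, ?_⟩
  intro n d X L z hd hX hXd2 hL hroom
  obtain ⟨h2, h4, H, hH, hH3, hHd, a1, a2, a3, a4, l1⟩ := hD d hd
  rw [hH] at hL hroom ⊢
  have hd0 : (0 : ℝ) < d := by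
    have : 0 < d := by omega
    exact_mod_cast this
  have hXT : T * d ≤ X := (mul_le_mul_of_nonneg_right (le_max_left _ _) hd0.le).trans hX
  have hX1 : (d : ℝ) ≤ X := by
    have := (mul_le_mul_of_nonneg_right (le_max_right T 1) hd0.le).trans hX
    linarith
  have hXd : d ≤ X := by exact_mod_cast hX1
  have hX0 : (0 : ℝ) < X := by linarith
  have hS : k10_S ε L d X H := by
    refine ⟨h4, hε, ?_, hXd, hXd2, hH3, hHd, ?_, ?_, a3, a4, hL, l1⟩
    · intro t ht
      refine hT _ ?_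
      rw [le_div_iff₀ hd0]
      refine hXT.trans ?_
      unfold lt
      have h3 : (((X - 1) * d : ℕ) : ℝ) ≤ (t : ℝ) := by exact_mod_cast ht
      rw [Nat.cast_mul, Nat.cast_sub (by omega)] at h3
      have h5 : (X : ℝ) - 1 ≤ (t : ℝ) / d := by
        rw [le_div_iff₀ hd0]
        exact_mod_cast h3
      linarith
    · refine le_trans ?_ a1
      exact div_le_div_of_nonneg_left (by positivity) hd0 hX1
    · refine le_trans ?_ a2
      have h3 : (2 * (H : ℝ)) / X ≤ (2 * (H : ℝ)) / d :=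
        div_le_div_of_nonneg_left (by positivity) hd0 hX1
      have h5 : 0 ≤ (2 * (H : ℝ)) / X := by positivity
      gcongr
  have hL0 : 0 ≤ L := by
    have h3 := sfun_mono d (by omega) (Nat.zero_le ((X + 2 * H - 1) * d))
    rw [sfun_zero] at h3
    linarith
  intro g v hv hnext x Z T' hx hC
  have hx' : x = fun _ => X := funext hx
  rw [hx'] at hC
  have hD0 := dst_of_cst hC
  have hne : (⟨0, by omega⟩ : Fin d) ≠ ⟨1, by omega⟩ := by
    intro h
    have := congrArg Fin.val h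
    simp at this
  have hind := k10_ind hS hroom hv hne hL0
    (fun Z T hC' => hnext _ Z T (fun _ => rfl) hC') (d - 2) ∅ (by simp) (by simp)
    (by simp; omega) Z T' (by simpa using hD0)
  simpa using hind

end Pool.Agent.Lib.MP_8501c9_pr.Deep
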