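import Pool.Agent.Lib.MP_8501c9_pr.Deep.Defs2
import Pool.Agent.Lib.MP_8501c9_pr.Wide.Cells

/-!
# Task K12: from the growth started at one point to percolation, sizes up to `d ^ 3`
-/

set_option autoImplicit false
open Set

namespace Pool.Agent.Lib.MP_8501c9_pr.Deep

open Pool.Agent.Lib.MP_8501c9_pr Pool.Agent.Lib.MP_8501c9_pr.Mid
open Pool.Agent.Lib.MP_8501c9_pr.Wide

variable {n d : ℕ}

/-! ### numerical facts -/

open Filter in
theorem k12_ev_D {b : ℝ} (hb : 0 < b) : ∀ᶠ d : ℕ in atTop,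
    (2 * (d : ℝ) + 1) ^ (2 * 2 * (2 + 1)) +
      ((d : ℝ) * ((d : ℝ) ^ 2 + 3) + 1) * (2 * d + 1) ^ (2 * 2 * (2 + 2)) ≤ Real.exp (b * d) := by
  filter_upwards [Q_ev_rpow (3 ^ 12 + 5 * 3 ^ 16) ((19 : ℕ) : ℝ) b hb,
    eventually_ge_atTop 1] with d hd hd1
  refine le_trans ?_ hd
  have hd1' : (1 : ℝ) ≤ d := by exact_mod_cast hd1
  rw [Real.rpow_natCast]
  have h1 : (2 * (d : ℝ) + 1) ^ (2 * 2 * (2 + 1)) ≤ 3 ^ 12 * (d : ℝ) ^ 19 := by
    calc (2 * (d : ℝ) + 1) ^ (2 * 2 * (2 + 1)) ≤ (3 * d) ^ 12 := by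
          norm_num
          gcongr
          linarith
      _ = 3 ^ 12 * (d : ℝ) ^ 12 := by rw [mul_pow]
      _ ≤ 3 ^ 12 * (d : ℝ) ^ 19 := by
          gcongr
          norm_num
  have h2 : ((d : ℝ) * ((d : ℝ) ^ 2 + 3) + 1) * (2 * d + 1) ^ (2 * 2 * (2 + 2)) ≤
      5 * 3 ^ 16 * (d : ℝ) ^ 19 := by
    have h3 : (d : ℝ) * ((d : ℝ) ^ 2 + 3) + 1 ≤ 5 * (d : ℝ) ^ 3 := by
      have h4 : (1 : ℝ) ≤ (d : ℝ) ^ 3 := one_le_pow₀ hd1'
      have h5 : (d : ℝ) ≤ (d : ℝ) ^ 3 := by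
        calc (d : ℝ) = (d : ℝ) ^ 1 := by ring
          _ ≤ (d : ℝ) ^ 3 := pow_le_pow_right₀ hd1' (by norm_num)
      have h6 : (d : ℝ) * ((d : ℝ) ^ 2 + 3) + 1 = (d : ℝ) ^ 3 + 3 * d + 1 := by ring
      rw [h6]
      linarith
    calc ((d : ℝ) * ((d : ℝ) ^ 2 + 3) + 1) * (2 * (d : ℝ) + 1) ^ (2 * 2 * (2 + 2))
        ≤ (5 * (d : ℝ) ^ 3) * (3 * d) ^ 16 := by
          norm_num
          gcongr
          linarith
      _ = 5 * 3 ^ 16 * (d : ℝ) ^ 19 := by ring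
  linarith

open Filter in
theorem k12_ev_layer : ∀ᶠ d : ℕ in atTop,
    (2 * ((d : ℝ) ^ 2 + 2)) * ((d : ℝ) ^ 8 * (Real.log d + (d + 1) * (d : ℝ) ^ 3 + 2)) ≤ 2 ^ d := by
  filter_upwards [Q_ev_rpow 30 ((14 : ℕ) : ℝ) (Real.log 2)
    (Real.log_pos one_lt_two), eventually_ge_atTop 1] with d hd hd1
  have hd1' : (1 : ℝ) ≤ d := by exact_mod_cast hd1
  have hd0 : (0 : ℝ) < d := by linarith
  have e1 : Real.exp (Real.log 2 * d) = 2 ^ d := by
    rw [mul_comm, Real.exp_nat_mul, Real.exp_log two_pos]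
  rw [e1] at hd
  refine le_trans ?_ hd
  rw [Real.rpow_natCast]
  have h2 : Real.log d ≤ d := (Real.log_le_sub_one_of_pos hd0).trans (by linarith)
  have h0 : (1 : ℝ) ≤ (d : ℝ) ^ 4 := one_le_pow₀ hd1'
  have h3 : (d : ℝ) ≤ (d : ℝ) ^ 4 := by
    calc (d : ℝ) = (d : ℝ) ^ 1 := by ring
      _ ≤ (d : ℝ) ^ 4 := pow_le_pow_right₀ hd1' (by norm_num)
  have h4 : ((d : ℝ) + 1) * (d : ℝ) ^ 3 ≤ 2 * (d : ℝ) ^ 4 := by
    calc ((d : ℝ) + 1) * (d : ℝ) ^ 3 ≤ (2 * d) * (d : ℝ) ^ 3 := by gcongr; linarith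
      _ = _ := by ring
  have h5 : Real.log d + (d + 1) * (d : ℝ) ^ 3 + 2 ≤ 5 * (d : ℝ) ^ 4 := by linarith
  calc (2 * ((d : ℝ) ^ 2 + 2)) * ((d : ℝ) ^ 8 * (Real.log d + (d + 1) * (d : ℝ) ^ 3 + 2))
      ≤ (2 * (3 * (d : ℝ) ^ 2)) * ((d : ℝ) ^ 8 * (5 * (d : ℝ) ^ 4)) := by
        have : 0 ≤ Real.log d := Real.log_nonneg hd1'
        have h6 : (1 : ℝ) ≤ (d : ℝ) ^ 2 := one_le_pow₀ hd1'
        gcongr
        linarith
    _ = _ := by ring

/-- failure of the layers -/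
theorem k12_layer {n d k : ℕ} {L : ℝ} (hd : 1 ≤ d)
    (hev : (2 * ((d : ℝ) ^ 2 + 2)) * ((d : ℝ) ^ 8 * (Real.log d + (d + 1) * (d : ℝ) ^ 3 + 2)) ≤ 2 ^ d)
    (hn : 1 ≤ n) (hk : k ≤ d ^ 3) (hlog : Real.log n ≤ (d : ℝ) ^ 3)
    (hL : L ≤ sfun d k + 8 * Real.log d) (hL0 : 0 ≤ L) :
    d * (n : ℝ) ^ (d + 1) * (1 - Real.exp (-L)) ^ ((2 * lev d k + 5) ^ (d - 1)) ≤ 1 / 4 := by
  have hd0 : (0 : ℝ) < d := by exact_mod_cast hd
  have hn0 : (0 : ℝ) < n := by exact_mod_cast hn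
  set l := lev d k with hl
  have hld : l ≤ d ^ 2 + 1 := by
    rw [hl]
    unfold lev
    have : k / d ≤ d ^ 2 := by
      apply Nat.div_le_of_le_mul
      rw [← pow_succ']
      exact hk
    omega
  have hkl : k ≤ l * d := by
    rw [hl]
    unfold lev
    have h1 := Nat.div_add_mod k d
    have h2 := Nat.mod_lt k hd
    nlinarith
  set N : ℕ := (2 * l + 5) ^ (d - 1) with hN
  have hp1 : 0 ≤ 1 - Real.exp (-L) := by
    have : Real.exp (-L) ≤ 1 := Real.exp_le_one_iff.mpr (by linarith)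
    linarith
  have h1 : (1 - Real.exp (-L)) ^ N ≤ Real.exp (-(Real.exp (-L) * N)) := by
    have h2 : 1 - Real.exp (-L) ≤ Real.exp (-Real.exp (-L)) := by
      have := Real.add_one_le_exp (-Real.exp (-L))
      linarith
    calc (1 - Real.exp (-L)) ^ N ≤ (Real.exp (-Real.exp (-L))) ^ N := by gcongr
      _ = Real.exp (-(Real.exp (-L) * N)) := by
          rw [← Real.exp_nat_mul]; congr 1; ring
  -- the exponent
  have h3 : Real.log d + (d + 1) * (d : ℝ) ^ 3 + 2 ≤ Real.exp (-L) * N := by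
    have h4 : L ≤ d * Real.log (l + 1) + 8 * Real.log d := by
      have := Q_sfun_le hd hkl
      linarith
    have h5 : Real.exp (-(d * Real.log (l + 1) + 8 * Real.log d)) ≤ Real.exp (-L) :=
      Real.exp_le_exp.mpr (by linarith)
    have hM1 : (0 : ℝ) < l + 1 := by positivity
    have h6 : Real.exp (-(d * Real.log (l + 1) + 8 * Real.log d)) =
        (((l : ℝ) + 1) ^ d)⁻¹ * ((d : ℝ) ^ 8)⁻¹ := by
      have h8 : Real.exp (8 * Real.log d) = (d : ℝ) ^ 8 := by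
        have := Real.exp_nat_mul (Real.log d) 8
        push_cast at this
        rw [this, Real.exp_log hd0]
      rw [neg_add, Real.exp_add, Real.exp_neg, Real.exp_neg, Real.exp_nat_mul,
        Real.exp_log hM1, h8]
    have h7 : (2 : ℝ) ^ d * ((l : ℝ) + 1) ^ d ≤ (2 * ((d : ℝ) ^ 2 + 2)) * (N : ℝ) := by
      have h8 : (2 : ℝ) ^ d * ((l : ℝ) + 1) ^ d =
          (2 * ((l : ℝ) + 1)) * (2 * ((l : ℝ) + 1)) ^ (d - 1) := by
        rw [← mul_pow, ← pow_succ']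
        congr 1
        omega
      rw [h8, hN]
      push_cast
      have hld' : (l : ℝ) ≤ (d : ℝ) ^ 2 + 1 := by exact_mod_cast hld
      have h9 : 2 * ((l : ℝ) + 1) ≤ 2 * ((d : ℝ) ^ 2 + 2) := by linarith
      have h10 : 2 * ((l : ℝ) + 1) ≤ 2 * (l : ℝ) + 5 := by linarith
      have h11 : (2 * ((l : ℝ) + 1)) ^ (d - 1) ≤ (2 * (l : ℝ) + 5) ^ (d - 1) :=
        pow_le_pow_left₀ (by positivity) h10 _
      exact mul_le_mul h9 h11 (by positivity) (by positivity)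
    have hE : 0 < (d : ℝ) ^ 8 := by positivity
    have hMd : 0 < ((l : ℝ) + 1) ^ d := by positivity
    have h9 : Real.log d + (d + 1) * (d : ℝ) ^ 3 + 2 ≤
        (((l : ℝ) + 1) ^ d)⁻¹ * ((d : ℝ) ^ 8)⁻¹ * N := by
      rw [← mul_inv, inv_mul_eq_div, le_div_iff₀ (by positivity)]
      have h23 : (0 : ℝ) < 2 * ((d : ℝ) ^ 2 + 2) := by positivity
      have h10 := mul_le_mul_of_nonneg_right hev hMd.le
      have h11 := h10.trans h7
      have h12 : (2 * ((d : ℝ) ^ 2 + 2)) * ((Real.log d + (d + 1) * (d : ℝ) ^ 3 + 2) *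
          (((l : ℝ) + 1) ^ d * (d : ℝ) ^ 8)) ≤ (2 * ((d : ℝ) ^ 2 + 2)) * N := by
        refine le_trans (le_of_eq ?_) h11
        ring
      exact le_of_mul_le_mul_left h12 h23
    calc _ ≤ (((l : ℝ) + 1) ^ d)⁻¹ * ((d : ℝ) ^ 8)⁻¹ * N := h9
      _ ≤ Real.exp (-L) * N := by rw [← h6]; gcongr
  have h13 : (d : ℝ) * (n : ℝ) ^ (d + 1) ≤ Real.exp (Real.log d + (d + 1) * (d : ℝ) ^ 3) := by
    rw [Real.exp_add, Real.exp_log hd0]
    gcongr
    have : (n : ℝ) ^ (d + 1) = Real.exp ((d + 1) * Real.log n) := by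
      rw [show ((d : ℝ) + 1) = ((d + 1 : ℕ) : ℝ) by push_cast; ring, Real.exp_nat_mul,
        Real.exp_log hn0]
    rw [this, Real.exp_le_exp]
    gcongr
  have h14 : Real.exp (-2) ≤ 1 / 4 := by
    rw [Real.exp_neg, one_div]
    gcongr
    have := Real.add_one_le_exp (1 : ℝ)
    have h2 : Real.exp 2 = Real.exp 1 * Real.exp 1 := by rw [← Real.exp_add]; norm_num
    rw [h2]
    nlinarith
  calc d * (n : ℝ) ^ (d + 1) * (1 - Real.exp (-L)) ^ N
      ≤ Real.exp (Real.log d + (d + 1) * (d : ℝ) ^ 3) * Real.exp (-(Real.exp (-L) * N)) := by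
        gcongr
    _ = Real.exp (Real.log d + (d + 1) * (d : ℝ) ^ 3 + -(Real.exp (-L) * N)) := by
        rw [← Real.exp_add]
    _ ≤ Real.exp (-2) := Real.exp_le_exp.mpr (by linarith)
    _ ≤ 1 / 4 := h14

/-- from the growth started at one point to percolation -/
theorem perc_of_ach2 (ε : ℝ) (hε : 0 < ε) : ∃ A D₀ : ℕ, ∀ (n d k : ℕ) (L V : ℝ), D₀ ≤ d →
    A * d ≤ k → k ≤ d ^ 3 → sfun d k ≤ L → L ≤ sfun d k + 8 * Real.log d →
    (k : ℝ) ≤ 16 * Real.log n → Real.log n ≤ (d : ℝ) ^ 3 →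
    (∀ z : Vtx n d, Room (2 * lev d k + 9) z → ∀ (g : Finset (Vtx n d) → ℝ) (v : ℝ), 0 ≤ v →
      (∀ Z T, Cst z (fun _ => 2 * lev d k + 5) Z T → Ach (Real.exp (-L)) g Z T v) →
      Ach (Real.exp (-L)) g ∅ ∅ (Real.exp V * v)) →
    ε * k ≤ d * Real.log n + V → 1 / 2 ≤ percProb n d 2 (Real.exp (-L)) := by
  classical
  obtain ⟨c, hc⟩ := exists_nat_ge (32 / ε + 4)
  have h32 : 0 ≤ 32 / ε := by positivity
  have hc4 : 4 ≤ c := by
    have : (4 : ℝ) ≤ c := by linarith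
    exact_mod_cast this
  have hc32 : 32 / ε ≤ c := by linarith
  have hc0 : (0 : ℝ) < c := by
    have : 0 < c := by omega
    exact_mod_cast this
  have hev1 := Q_ev_rpow (26 * (c : ℝ)) 1 (1 / 16) (by norm_num)
  have hev2 := k12_ev_D (b := ε / 8) (by positivity)
  have hev3 := k12_ev_layer
  have hev4 : ∀ᶠ d : ℕ in Filter.atTop, 4 / ε ≤ (d : ℝ) :=
    tendsto_natCast_atTop_atTop.eventually_ge_atTop _
  obtain ⟨D₁, hD₁⟩ := Filter.eventually_atTop.1 hev1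
  obtain ⟨D₂, hD₂⟩ := Filter.eventually_atTop.1 hev2
  obtain ⟨D₃, hD₃⟩ := Filter.eventually_atTop.1 hev3
  obtain ⟨D₄, hD₄⟩ := Filter.eventually_atTop.1 hev4
  refine ⟨c + 10, D₁ + D₂ + D₃ + D₄ + 2, ?_⟩
  intro n d k L V hd hk1 hk2 hL1 hL2 hn1 hn2 hgrow hmain
  have hd1 : 1 ≤ d := by omega
  have hd0' : (0 : ℝ) < d := by exact_mod_cast hd1
  have hdk : d ≤ k := by
    have : 1 * d ≤ (c + 10) * d := Nat.mul_le_mul_right d (by omega)
    omega
  have e1 := hD₁ k (by omega)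
  have e2 := hD₂ d (by omega)
  have e3 := hD₃ d (by omega)
  have e4 := hD₄ d (by omega)
  rw [Real.rpow_one] at e1
  have hdk' : (d : ℝ) ≤ k := by exact_mod_cast hdk
  have hk0' : (0 : ℝ) < k := by linarith
  -- the level
  set l := lev d k with hl
  have hl1 : c + 11 ≤ l := by
    rw [hl]
    unfold lev
    have : c + 10 ≤ k / d := (Nat.le_div_iff_mul_le hd1).2 hk1
    omega
  have hld : l ≤ d ^ 2 + 1 := by
    rw [hl]
    unfold lev
    have : k / d ≤ d ^ 2 := by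
      apply Nat.div_le_of_le_mul
      rw [← pow_succ']
      exact hk2
    omega
  have hlk : l * d ≤ k + d := by
    rw [hl]
    unfold lev
    have h1 : k / d * d ≤ k := Nat.div_mul_le_self k d
    nlinarith
  set w : ℕ := 2 * l + 9 with hw
  set Y : ℕ := 2 * l + 5 with hY
  set B : ℕ := c * w with hB
  have hw0 : (0 : ℝ) < w := by rw [hw]; positivity
  have hBw : 4 * w ≤ B := Nat.mul_le_mul_right w hc4
  have hB0 : 1 ≤ B := by omega
  have hB0' : (0 : ℝ) < B := by exact_mod_cast hB0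
  have hBcast : (B : ℝ) = c * w := by rw [hB]; push_cast; ring
  have hBe : 4 * (w : ℝ) / B ≤ ε / 8 := by
    rw [hBcast, div_le_iff₀ (by positivity)]
    rw [div_le_iff₀ hε] at hc32
    nlinarith
  -- n is large
  have hn0 : 0 < n := by
    rcases Nat.eq_zero_or_pos n with h | h
    · rw [h] at hn1
      simp only [CharP.cast_eq_zero, Real.log_zero, mul_zero] at hn1
      linarith
    · exact h
  have hn0' : (0 : ℝ) < n := by exact_mod_cast hn0
  have hnB' : 2 * (B : ℝ) * d ≤ n := by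
    have h1 : 2 * (B : ℝ) * d ≤ 26 * c * k := by
      rw [hBcast, hw]
      push_cast
      have hlk' : (l : ℝ) * d ≤ k + d := by exact_mod_cast hlk
      have h2 : 2 * (c * (2 * (l : ℝ) + 9)) * d = 2 * c * (2 * (l * d) + 9 * d) := by ring
      have h3 : 26 * (c : ℝ) * k = 2 * c * (13 * k) := by ring
      rw [h2, h3]
      gcongr
      linarith
    refine h1.trans (e1.trans ?_)
    rw [← Real.exp_log hn0', Real.exp_le_exp]
    linarith
  have hnB : 2 * B * d ≤ n := by exact_mod_cast hnB'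
  have hnB2 : 2 * B ≤ n := by
    have : 2 * B * 1 ≤ 2 * B * d := Nat.mul_le_mul_left (2 * B) hd1
    omega
  -- L is large
  have hsf : d * Real.log l ≤ sfun d k := y7_sfun_ge hd1
  have hl0' : (0 : ℝ) < l := by
    have : 0 < l := by omega
    exact_mod_cast this
  have hl1' : (1 : ℝ) ≤ l := by
    have : 1 ≤ l := by omega
    exact_mod_cast this
  have hlogl : 0 ≤ Real.log l := Real.log_nonneg hl1'
  have hL0 : 0 ≤ L := by
    have : 0 ≤ d * Real.log l := by positivity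
    linarith
  set p : ℝ := Real.exp (-L) with hp
  have hp0 : 0 < p := Real.exp_pos _
  have hp1 : p ≤ 1 := by
    rw [hp]
    exact Real.exp_le_one_iff.mpr (by linarith)
  -- the denominator
  have hBl : B ≤ l ^ 3 := by
    have h1 : c ≤ l := by omega
    have h2 : w ≤ l ^ 2 := by
      rw [hw]
      nlinarith
    calc B ≤ l * l ^ 2 := Nat.mul_le_mul h1 h2
      _ = l ^ 3 := by ring
  have hBp : (B : ℝ) ^ d * p ^ (2 + 1) ≤ 1 := by
    have h1 : (B : ℝ) ^ d ≤ Real.exp (3 * (d * Real.log l)) := by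
      calc (B : ℝ) ^ d ≤ ((l : ℝ) ^ 3) ^ d := by
            gcongr
            exact_mod_cast hBl
        _ = Real.exp (3 * (d * Real.log l)) := by
            rw [show 3 * (d * Real.log l) = (d : ℝ) * (((3 : ℕ) : ℝ) * Real.log l) by
              push_cast; ring, Real.exp_nat_mul, Real.exp_nat_mul, Real.exp_log hl0']
    have h2 : p ^ (2 + 1) = Real.exp (-(3 * L)) := by
      rw [hp, ← Real.exp_nat_mul]; congr 1; push_cast; ring
    rw [h2]
    calc (B : ℝ) ^ d * Real.exp (-(3 * L))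
        ≤ Real.exp (3 * (d * Real.log l)) * Real.exp (-(3 * L)) := by gcongr
      _ = Real.exp (3 * (d * Real.log l) + -(3 * L)) := by rw [Real.exp_add]
      _ ≤ 1 := Real.exp_le_one_iff.mpr (by linarith)
  set m : ℕ := d * (l + 2) with hm
  have hmY : d * (Y - 1) ≤ 2 * m := by
    have : Y - 1 = 2 * (l + 2) := by omega
    rw [this, hm]
    exact le_of_eq (by ring)
  set D : ℝ := (2 * (d : ℝ) + 1) ^ (2 * 2 * (2 + 1)) +
      ((d : ℝ) * ((d : ℝ) ^ 2 + 3) + 1) * (2 * d + 1) ^ (2 * 2 * (2 + 2)) with hD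
  have hDpos : 0 < D := by positivity
  have hDge : (B : ℝ) ^ d * (2 * d + 1) ^ (2 * 2 * (2 + 1)) * p ^ (2 + 1) +
        ((m : ℝ) + 1) * (2 * d + 1) ^ (2 * 2 * (2 + 2)) ≤ D := by
    rw [hD]
    have h1 : (B : ℝ) ^ d * (2 * d + 1) ^ (2 * 2 * (2 + 1)) * p ^ (2 + 1) ≤
        1 * (2 * (d : ℝ) + 1) ^ (2 * 2 * (2 + 1)) := by
      calc (B : ℝ) ^ d * (2 * d + 1) ^ (2 * 2 * (2 + 1)) * p ^ (2 + 1) =
            ((B : ℝ) ^ d * p ^ (2 + 1)) * (2 * (d : ℝ) + 1) ^ (2 * 2 * (2 + 1)) := by ring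
        _ ≤ 1 * (2 * (d : ℝ) + 1) ^ (2 * 2 * (2 + 1)) := by gcongr
    have h2 : (m : ℝ) + 1 ≤ (d : ℝ) * ((d : ℝ) ^ 2 + 3) + 1 := by
      rw [hm]
      push_cast
      have h4 : (l : ℝ) ≤ (d : ℝ) ^ 2 + 1 := by exact_mod_cast hld
      have h5 : (l : ℝ) + 2 ≤ (d : ℝ) ^ 2 + 3 := by linarith
      have h6 := mul_le_mul_of_nonneg_left h5 hd0'.le
      linarith
    have h3 : ((m : ℝ) + 1) * (2 * d + 1) ^ (2 * 2 * (2 + 2)) ≤
        ((d : ℝ) * ((d : ℝ) ^ 2 + 3) + 1) * (2 * d + 1) ^ (2 * 2 * (2 + 2)) := by gcongr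
    linarith
  -- the value of the strategy
  have hach : ∀ z : Vtx n d, Room w z → Ach p (ind (y7_good Y z)) ∅ ∅ (Real.exp V) := by
    intro z hz
    have h1 := hgrow z hz (ind (y7_good Y z)) 1 zero_le_one ?_
    · rw [mul_one] at h1
      exact h1
    · intro Z T hC
      have h2 : y7_good Y z T := ⟨Z, hC⟩
      have h3 : ind (y7_good Y z) T = 1 := by
        unfold ind
        rw [if_pos h2]
      have h4 := Ach.leaf (p := p) (g := ind (y7_good Y z)) (Z := Z) (T := T)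
      rw [h3] at h4
      exact h4
  set X : ℝ := Real.exp V / D with hX
  have hXpos : 0 < X := by positivity
  set q : ℝ := ((B - 2 * w : ℕ) : ℝ) ^ d * X with hq
  have hq0 : 0 ≤ q := by positivity
  have hbox : ∀ o : Fin d → ℕ, (∀ i, o i + B ≤ n) → q ≤ Pr p (fun A : Finset (Vtx n d) =>
      ∃ R : BoxT n d, R.1 ≤ R.2 ∧ (∀ i, Y ≤ sd R i) ∧ ∀ x, R.1 ≤ x → x ≤ R.2 →
        x ∈ bclosure 2 ((A : Set (Vtx n d)) ∩ nbox o (fun _ => B))) := fun o ho =>
    y7_box (w := w) (m := m) (D := D) (W := Real.exp V) hd1 (by omega) (by omega) ho hmY hp0.le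
      hp1 hDpos (Real.exp_pos _).le hDge hach hq
  have hq1 : q ≤ 1 := by
    have h1 := hbox (fun _ => 0) (fun _ => by omega)
    refine h1.trans ?_
    rw [← Pr_true (p := p) (V := Vtx n d)]
    exact Pr_mono hp0.le hp1 fun _ _ => trivial
  have hfin := percProb_ge_box n d hd1 p hp0.le hp1 Y B (by omega)
    (by omega) (by omega) q hq0 hq1 hbox
  have hlayer := k12_layer (n := n) (k := k) (L := L) hd1 e3 hn0 hk2 hn2 hL2 hL0
  have hcells := Q_cells (n := n) (d := d) (B := B) (w := w) (q := q) (X := X) (ε := ε) hB0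
    hBw hBe hnB hnB2 hq hq1 ?_ hXpos
  · rw [← hp, ← hl, ← hY] at hlayer
    linarith
  · -- the exponent
    have h1 : Real.log X = V - Real.log D := by
      rw [hX, Real.log_div (Real.exp_pos _).ne' hDpos.ne', Real.log_exp]
    have h2 : Real.log D ≤ ε / 8 * d := by
      rw [← Real.log_exp (ε / 8 * d)]
      exact Real.log_le_log hDpos e2
    have h4 : 4 ≤ ε * d := by
      rw [div_le_iff₀ hε] at e4
      linarith
    have h5 : ε * d ≤ ε * k := by gcongr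
    rw [h1]
    linarith

end Pool.Agent.Lib.MP_8501c9_pr.Deep
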