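import Mathlib

/-!
# MP_8501c9_pr, Deep: choosing one point for each element of a set of types (K2)
-/

set_option autoImplicit false

open Finset

namespace Pool.Agent.Lib.MP_8501c9_pr.Deep

private theorem k2_aux {V D : Type*} [DecidableEq V] [DecidableEq D] (sp : V → D) (p : ℝ)
    (U : Finset D) (N : Finset V) : N.image sp ⊆ U → ∀ f : Finset D → ℝ,
    ∑ B ∈ U.powerset,
        (∏ S ∈ B, p * ((N.filter (fun b => sp b = S)).card : ℝ)) * f B =
      ∑ B ∈ N.powerset with (B.image sp).card = B.card, p ^ B.card * f (B.image sp) := by
  induction N using Finset.induction_on with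
  | empty =>
    intro _ f
    rw [Finset.sum_eq_single ∅]
    · simp [Finset.filter_singleton]
    · intro B _ hB
      obtain ⟨S, hS⟩ := Finset.nonempty_iff_ne_empty.2 hB
      rw [Finset.prod_eq_zero hS, zero_mul]
      simp
    · intro h
      exact absurd (Finset.empty_mem_powerset U) h
  | insert a N ha ih =>
    intro hU f
    rw [Finset.image_insert, Finset.insert_subset_iff] at hU
    obtain ⟨hs, hNU⟩ := hU
    set s := sp a with hsdef
    have hU' : insert s (U.erase s) = U := Finset.insert_erase hs
    have hns : s ∉ U.erase s := Finset.notMem_erase s U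
    -- splitting sums over the powerset of `U`
    have hsplit : ∀ g : Finset D → ℝ, ∑ B ∈ U.powerset, g B =
        ∑ B ∈ (U.erase s).powerset, g B + ∑ B ∈ (U.erase s).powerset, g (insert s B) := by
      intro g
      rw [← Finset.sum_powerset_insert hns, hU']
    have hc : ∀ S, S ≠ s → ((insert a N).filter (fun b => sp b = S)) =
        N.filter (fun b => sp b = S) := by
      intro S hS
      rw [Finset.filter_insert, if_neg]
      intro h
      exact hS h.symm
    have hc' : (((insert a N).filter (fun b => sp b = s)).card : ℝ) =
        (N.filter (fun b => sp b = s)).card + 1 := by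
      rw [Finset.filter_insert, if_pos rfl, Finset.card_insert_of_notMem]
      · push_cast; ring
      · intro h
        exact ha (Finset.mem_filter.1 h).1
    have hprod : ∀ B ∈ (U.erase s).powerset,
        (∏ S ∈ B, p * (((insert a N).filter (fun b => sp b = S)).card : ℝ)) =
          ∏ S ∈ B, p * ((N.filter (fun b => sp b = S)).card : ℝ) := by
      intro B hB
      refine Finset.prod_congr rfl fun S hS => ?_
      rw [hc S]
      intro h
      rw [h] at hS
      exact hns (Finset.mem_powerset.1 hB hS)
    have hnsB : ∀ B ∈ (U.erase s).powerset, s ∉ B := by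
      intro B hB h
      exact hns (Finset.mem_powerset.1 hB h)
    have h1 := ih hNU f
    have h2 := ih hNU (fun X => if s ∈ X then 0 else f (insert s X))
    rw [hsplit] at h1 h2
    rw [hsplit]
    have e1 : ∑ B ∈ (U.erase s).powerset,
        (∏ S ∈ B, p * (((insert a N).filter (fun b => sp b = S)).card : ℝ)) * f B =
        ∑ B ∈ (U.erase s).powerset,
        (∏ S ∈ B, p * ((N.filter (fun b => sp b = S)).card : ℝ)) * f B := by
      refine Finset.sum_congr rfl fun B hB => ?_
      rw [hprod B hB]
    have e2 : ∑ B ∈ (U.erase s).powerset,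
        (∏ S ∈ insert s B, p * (((insert a N).filter (fun b => sp b = S)).card : ℝ)) *
          f (insert s B) =
        ∑ B ∈ (U.erase s).powerset,
        (∏ S ∈ insert s B, p * ((N.filter (fun b => sp b = S)).card : ℝ)) * f (insert s B) +
        p * ∑ B ∈ (U.erase s).powerset,
        (∏ S ∈ B, p * ((N.filter (fun b => sp b = S)).card : ℝ)) * f (insert s B) := by
      rw [Finset.mul_sum, ← Finset.sum_add_distrib]
      refine Finset.sum_congr rfl fun B hB => ?_
      rw [Finset.prod_insert (hnsB B hB), Finset.prod_insert (hnsB B hB), hprod B hB, hc']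
      ring
    have e3 : ∑ B ∈ (U.erase s).powerset,
        (∏ S ∈ B, p * ((N.filter (fun b => sp b = S)).card : ℝ)) *
          (if s ∈ B then 0 else f (insert s B)) =
        ∑ B ∈ (U.erase s).powerset,
        (∏ S ∈ B, p * ((N.filter (fun b => sp b = S)).card : ℝ)) * f (insert s B) := by
      refine Finset.sum_congr rfl fun B hB => ?_
      rw [if_neg (hnsB B hB)]
    have e4 : ∑ B ∈ (U.erase s).powerset,
        (∏ S ∈ insert s B, p * ((N.filter (fun b => sp b = S)).card : ℝ)) *
          (if s ∈ insert s B then 0 else f (insert s (insert s B))) = 0 := by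
      refine Finset.sum_eq_zero fun B _ => ?_
      rw [if_pos (Finset.mem_insert_self s B), mul_zero]
    rw [e3, e4, add_zero] at h2
    rw [e1, e2, h2, ← add_assoc, h1]
    -- the right side
    rw [Finset.sum_filter, Finset.sum_filter, Finset.sum_filter, Finset.sum_powerset_insert ha]
    congr 1
    rw [Finset.mul_sum]
    refine Finset.sum_congr rfl fun B hB => ?_
    have haB : a ∉ B := fun h => ha (Finset.mem_powerset.1 hB h)
    rw [Finset.image_insert, ← hsdef, Finset.card_insert_of_notMem haB]
    by_cases hsB : s ∈ B.image sp
    · have hne : ¬ (B.image sp).card = B.card + 1 := by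
        have := Finset.card_image_le (s := B) (f := sp)
        omega
      rw [Finset.insert_eq_of_mem hsB, if_pos hsB, if_neg hne]
      simp
    · rw [Finset.card_insert_of_notMem hsB, if_neg hsB]
      by_cases hB2 : (B.image sp).card = B.card
      · rw [if_pos hB2, if_pos (by rw [hB2])]
        ring
      · rw [if_neg hB2, if_neg (fun h => hB2 (Nat.succ_injective h)), mul_zero]

/-- one point for each element of a set of types -/
theorem sum_choose {V D : Type*} [DecidableEq V] [DecidableEq D] (N : Finset V) (sp : V → D)
    (p : ℝ) (f : Finset D → ℝ) :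
    ∑ B ∈ (N.image sp).powerset,
        (∏ S ∈ B, p * ((N.filter (fun b => sp b = S)).card : ℝ)) * f B =
      ∑ B ∈ N.powerset with (B.image sp).card = B.card, p ^ B.card * f (B.image sp) :=
  k2_aux sp p (N.image sp) N (Finset.Subset.refl _) f

end Pool.Agent.Lib.MP_8501c9_pr.Deep
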