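import Pool.Agent.Lib.MP_8501c9_pr.Deep.Defs3
import Pool.Agent.Lib.MP_8501c9_pr.Deep.ChooseY
import Pool.Agent.Lib.MP_8501c9_pr.Mid.Sums
import Mathlib.Analysis.SpecialFunctions.Integrability.Basic

/-!
# Sums of the exponents and integrals, side lengths of order `d`
-/

set_option autoImplicit false
open Set

namespace Pool.Agent.Lib.MP_8501c9_pr.Deep

open Pool.Agent.Lib.MP_8501c9_pr Pool.Agent.Lib.MP_8501c9_pr.Mid
open Pool.Agent.Lib.MP_8501c9_pr.Wide

theorem gg_cont : ContinuousOn gg (Set.Ioi 0) := by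
  intro τ hτ
  have hτ0 : 0 < τ := hτ
  refine ContinuousAt.continuousWithinAt ?_
  obtain ⟨K₁, hK₁⟩ : ∃ K₁ : ℝ, K₁ = 1 / 2 + 2 * (gg τ + 1) / (τ / 2) ^ 2 := ⟨_, rfl⟩
  have hg := d8_gg_pos hτ0
  have hK₁0 : 0 ≤ K₁ := by
    rw [hK₁]
    positivity
  obtain ⟨M, hM⟩ : ∃ M : ℝ, M = Real.exp (K₁ * (τ / 2)) * gg τ := ⟨_, rfl⟩
  have hM0 : 0 < M := by
    rw [hM]
    positivity
  obtain ⟨K₂, hK₂⟩ : ∃ K₂ : ℝ, K₂ = 1 / 2 + 2 * (M + 1) / (τ / 2) ^ 2 := ⟨_, rfl⟩
  have hnear : ∀ᶠ x in nhds τ, |x - τ| ≤ τ / 2 := by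
    have : Metric.closedBall τ (τ / 2) ∈ nhds τ := Metric.closedBall_mem_nhds τ (by linarith)
    filter_upwards [this] with x hx
    rwa [Metric.mem_closedBall, Real.dist_eq] at hx
  have hup : ∀ᶠ x in nhds τ, gg x ≤ Real.exp (K₁ * |x - τ|) * gg τ := by
    filter_upwards [hnear] with x hx
    have h1 := abs_le.1 hx
    have := d8_gg_cmp (τ := τ) (τ' := x) (τ₀ := τ / 2) (M := gg τ) (by linarith) (by linarith)
      (by linarith) le_rfl
    rwa [← hK₁] at this
  have hlow : ∀ᶠ x in nhds τ, Real.exp (-(K₂ * |x - τ|)) * gg τ ≤ gg x := by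
    filter_upwards [hnear, hup] with x hx hx2
    have h1 := abs_le.1 hx
    have h3 : gg x ≤ M := by
      rw [hM]
      refine hx2.trans (mul_le_mul_of_nonneg_right ?_ hg.le)
      exact Real.exp_le_exp.2 (mul_le_mul_of_nonneg_left hx hK₁0)
    have := d8_gg_cmp (τ := x) (τ' := τ) (τ₀ := τ / 2) (M := M) (by linarith) (by linarith)
      (by linarith) h3
    rw [← hK₂, abs_sub_comm] at this
    rw [Real.exp_neg, inv_mul_le_iff₀ (Real.exp_pos _)]
    exact this
  have t0 : Filter.Tendsto (fun x : ℝ => |x - τ|) (nhds τ) (nhds 0) := by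
    have : Filter.Tendsto (fun x : ℝ => |x - τ|) (nhds τ) (nhds |τ - τ|) :=
      ((continuous_id.sub continuous_const).abs).tendsto τ
    simpa using this
  have t1 : Filter.Tendsto (fun x : ℝ => Real.exp (K₁ * |x - τ|) * gg τ) (nhds τ)
      (nhds (gg τ)) := by
    have : Filter.Tendsto (fun x : ℝ => Real.exp (K₁ * |x - τ|) * gg τ) (nhds τ)
        (nhds (Real.exp (K₁ * 0) * gg τ)) :=
      (((Real.continuous_exp.tendsto _).comp (t0.const_mul K₁))).mul_const _
    simpa using this
  have t2 : Filter.Tendsto (fun x : ℝ => Real.exp (-(K₂ * |x - τ|)) * gg τ) (nhds τ)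
      (nhds (gg τ)) := by
    have : Filter.Tendsto (fun x : ℝ => Real.exp (-(K₂ * |x - τ|)) * gg τ) (nhds τ)
        (nhds (Real.exp (-(K₂ * 0)) * gg τ)) :=
      (((Real.continuous_exp.tendsto _).comp ((t0.const_mul K₂).neg))).mul_const _
    simpa using this
  exact tendsto_of_tendsto_of_tendsto_of_le_of_le' t2 t1 hlow hup

theorem hD_anti {d : ℕ} (hd : 1 ≤ d) : AntitoneOn (hD d) (Set.Ioi 0) := by
  intro u hu u' hu' huu
  have hd' : (0 : ℝ) < d := by exact_mod_cast hd
  have hu0 : 0 < u := hu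
  have hu0' : 0 < u' := hu'
  unfold hD
  refine Real.log_le_log ?_ ?_
  · have := d8_gg_pos (τ := u' / d) (by positivity)
    positivity
  · have h := gg_anti (τ := u / d) (τ' := u' / d) (by positivity) (by gcongr)
    have e1 : 2 * (d : ℝ) * gg (u' / d) / u' ^ 2 = 2 / d * (gg (u' / d) / (u' / d) ^ 2) := by
      field_simp
    have e2 : 2 * (d : ℝ) * gg (u / d) / u ^ 2 = 2 / d * (gg (u / d) / (u / d) ^ 2) := by
      field_simp
    rw [e1, e2]
    exact mul_le_mul_of_nonneg_left h (by positivity)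

/-- the optimal factor on a logarithmic scale -/
theorem m1_log_gg {τ : ℝ} (hτ : 0 < τ) : |Real.log (gg τ)| ≤ 6 + |Real.log τ| := by
  have hg := d8_gg_pos hτ
  have l2 : Real.log 2 ≤ 1 := by
    have := Real.log_le_sub_one_of_pos (x := 2) (by norm_num)
    linarith
  have l20 : 0 ≤ Real.log 2 := Real.log_nonneg (by norm_num)
  rcases le_total 1 τ with h | h
  · have h0 : 0 ≤ Real.log τ := Real.log_nonneg h
    rw [abs_of_nonneg h0, abs_le]
    constructor
    · have h1 := Real.log_le_log (by positivity) (gg_ge hτ).2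
      rw [Real.log_div hτ.ne' (by norm_num)] at h1
      linarith
    · have h1 : gg τ ≤ 5 * τ * Real.exp (7 / 2) := by
        refine (gg_le (y := 1 / 2) (by norm_num) (by norm_num) hτ).trans ?_
        unfold gY
        have e1 : (1 / (1 / 2 : ℝ) + τ / 2) / (1 - 1 / 2) = 4 + τ := by ring
        rw [e1]
        have e2 : 2 / τ ≤ 2 := by
          rw [div_le_iff₀ hτ]
          linarith
        refine mul_le_mul (by linarith) (Real.exp_le_exp.2 ?_) (Real.exp_pos _).le (by positivity)
        have e3 : 2 / τ * ((1 / 2 : ℝ) / (1 - 1 / 2)) = 2 / τ := by norm_num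
        rw [e3]
        norm_num
        linarith
      have h2 := Real.log_le_log hg h1
      rw [Real.log_mul (by positivity) (Real.exp_pos _).ne', Real.log_exp,
        Real.log_mul (by norm_num) hτ.ne'] at h2
      have h3 : Real.log 5 ≤ 5 / 2 := by
        have e : Real.log 5 ≤ Real.log 8 := Real.log_le_log (by norm_num) (by norm_num)
        have e2 : Real.log 8 = 3 * Real.log 2 := by
          rw [show (8 : ℝ) = 2 ^ 3 by norm_num, Real.log_pow]
          norm_num
        have e3 := Real.log_two_lt_d9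
        linarith
      linarith
  · have h0 : Real.log τ ≤ 0 := Real.log_nonpos hτ.le h
    rw [abs_of_nonpos h0, abs_le]
    constructor
    · have h1 := Real.log_le_log (by positivity) (gg_ge hτ).1
      rw [Real.log_div (by positivity) hτ.ne', Real.log_mul (by norm_num) (by positivity),
        Real.log_exp] at h1
      linarith
    · have h1 : gg τ ≤ 8 * Real.exp 2 / τ := by
        refine (gg_le (y := τ / 4) (by positivity) (by linarith) hτ).trans ?_
        unfold gY
        have h4 : 0 < 1 - τ / 4 := by linarith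
        have e1 : 1 / (1 - τ / 4) ≤ 4 / 3 := by
          rw [div_le_iff₀ h4]
          linarith
        have e2 : (1 / (τ / 4) + τ / 2) / (1 - τ / 4) ≤ 8 / τ := by
          have e3 : 1 / (τ / 4) + τ / 2 ≤ 6 / τ := by
            rw [le_div_iff₀ hτ]
            have : (1 / (τ / 4) + τ / 2) * τ = 4 + τ ^ 2 / 2 := by field_simp
            rw [this]
            nlinarith
          calc (1 / (τ / 4) + τ / 2) / (1 - τ / 4) = (1 / (τ / 4) + τ / 2) * (1 / (1 - τ / 4)) := by
                ring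
            _ ≤ 6 / τ * (4 / 3) := mul_le_mul e3 e1 (by positivity) (by positivity)
            _ = 8 / τ := by ring
        have e5 : 2 / τ * (τ / 4 / (1 - τ / 4)) + 1 / (1 - τ / 4) - (1 - τ / 4) ≤ 2 := by
          have e6 : 2 / τ * (τ / 4 / (1 - τ / 4)) = 1 / 2 * (1 / (1 - τ / 4)) := by
            field_simp
            ring
          rw [e6]
          linarith
        calc (1 / (τ / 4) + τ / 2) / (1 - τ / 4) *
              Real.exp (2 / τ * (τ / 4 / (1 - τ / 4)) + 1 / (1 - τ / 4) - (1 - τ / 4))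
            ≤ 8 / τ * Real.exp 2 :=
              mul_le_mul e2 (Real.exp_le_exp.2 e5) (Real.exp_pos _).le (by positivity)
          _ = 8 * Real.exp 2 / τ := by ring
      have h2 := Real.log_le_log hg h1
      rw [Real.log_div (by positivity) hτ.ne', Real.log_mul (by norm_num) (Real.exp_pos _).ne',
        Real.log_exp] at h2
      have e2 : Real.log 8 = 3 * Real.log 2 := by
        rw [show (8 : ℝ) = 2 ^ 3 by norm_num, Real.log_pow]
        norm_num
      linarith

theorem m1_hD {d : ℕ} (hd : 1 ≤ d) {u : ℝ} (hu : 0 < u) :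
    hD d u = Real.log 2 + Real.log d + Real.log (gg (u / d)) - 2 * Real.log u := by
  have hd' : (0 : ℝ) < d := by exact_mod_cast hd
  have hg := d8_gg_pos (τ := u / d) (by positivity)
  unfold hD
  rw [Real.log_div (by positivity) (by positivity), Real.log_mul (by positivity) hg.ne',
    Real.log_mul (by norm_num) hd'.ne', Real.log_pow]
  push_cast
  ring

theorem hD_bound : ∃ C : ℝ, 0 ≤ C ∧ ∀ (d : ℕ) (u : ℝ), 2 ≤ d → 0 < u →
    |hD d u| ≤ C * (Real.log d + |Real.log u|) := by
  refine ⟨16, by norm_num, fun d u hd hu => ?_⟩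
  have hd' : (2 : ℝ) ≤ d := by exact_mod_cast hd
  have hd0 : (0 : ℝ) < d := by linarith
  rw [m1_hD (by omega) hu]
  have h1 := m1_log_gg (τ := u / d) (by positivity)
  have h2 : |Real.log (u / d)| ≤ |Real.log u| + Real.log d := by
    rw [Real.log_div hu.ne' hd0.ne']
    have h3 : 0 ≤ Real.log d := Real.log_nonneg (by linarith)
    calc |Real.log u - Real.log d| ≤ |Real.log u| + |Real.log d| := abs_sub _ _
      _ = |Real.log u| + Real.log d := by rw [abs_of_nonneg h3]
  have h4 : Real.log 2 ≤ Real.log d := Real.log_le_log (by norm_num) hd'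
  have h5 := Real.log_two_gt_d9
  have h6 := neg_abs_le (Real.log u)
  have h7 := le_abs_self (Real.log u)
  have h8 := abs_le.1 (h1.trans (add_le_add_right h2 6))
  rw [abs_le]
  constructor
  · nlinarith [abs_nonneg (Real.log u)]
  · nlinarith [abs_nonneg (Real.log u)]

theorem m1_cont {d : ℕ} (hd : 1 ≤ d) : ContinuousOn (hD d) (Set.Ioi 0) := by
  have hd' : (0 : ℝ) < d := by exact_mod_cast hd
  have h1 : ContinuousOn (fun u : ℝ => gg (u / d)) (Set.Ioi 0) := by
    refine gg_cont.comp (continuous_id.div_const _).continuousOn ?_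
    intro u hu
    exact div_pos hu hd'
  have h2 : ContinuousOn (fun u : ℝ => 2 * (d : ℝ) * gg (u / d) / u ^ 2) (Set.Ioi 0) := by
    refine (continuousOn_const.mul h1).div (continuous_pow 2).continuousOn ?_
    intro u hu
    exact (pow_pos hu 2).ne'
  refine h2.log ?_
  intro u hu
  have hu0 : 0 < u := hu
  have hg := d8_gg_pos (τ := u / d) (by positivity)
  positivity

theorem hD_int {d : ℕ} (hd : 2 ≤ d) {a b : ℝ} (ha : 0 ≤ a) (hb : 0 ≤ b) :
    IntervalIntegrable (hD d) MeasureTheory.volume a b := by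
  obtain ⟨C, hC, h⟩ := hD_bound
  have hsub : Set.uIoc a b ⊆ Set.Ioi 0 := by
    intro x hx
    rw [Set.mem_uIoc] at hx
    rcases hx with hx | hx
    · exact lt_of_le_of_lt ha hx.1
    · exact lt_of_le_of_lt hb hx.1
  have hg : IntervalIntegrable (fun u => C * (Real.log d + |Real.log u|))
      MeasureTheory.volume a b := by
    refine IntervalIntegrable.const_mul ?_ C
    refine IntervalIntegrable.add intervalIntegrable_const ?_
    exact intervalIntegral.intervalIntegrable_log'.abs
  refine hg.mono_fun' ?_ ?_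
  · exact ((m1_cont (by omega)).mono hsub).aestronglyMeasurable measurableSet_uIoc
  · refine (MeasureTheory.ae_restrict_iff' measurableSet_uIoc).2 ?_
    refine Filter.Eventually.of_forall fun x hx => ?_
    show ‖hD d x‖ ≤ C * (Real.log d + |Real.log x|)
    rw [Real.norm_eq_abs]
    exact h d x hd (hsub hx)

theorem m1_sum_upper {d : ℕ} (hd : 2 ≤ d) (k : ℕ) :
    ∑ t ∈ Finset.range k, hD d (Wide.lt d t) ≤ d * ∫ u in (0 : ℝ)..((k : ℝ) / d), hD d u := by
  have hd' : (0 : ℝ) < d := by exact_mod_cast (by omega : 0 < d)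
  induction k with
  | zero => simp
  | succ k ih =>
    have hk0 : 0 ≤ (k : ℝ) / d := by positivity
    have hk1 : 0 ≤ ((k + 1 : ℕ) : ℝ) / d := by positivity
    rw [Finset.sum_range_succ, ← intervalIntegral.integral_add_adjacent_intervals
      (hD_int hd le_rfl hk0) (hD_int hd hk0 hk1), mul_add]
    refine add_le_add ih ?_
    have hle : (k : ℝ) / d ≤ ((k + 1 : ℕ) : ℝ) / d := by
      push_cast
      gcongr
      linarith
    have hlen : ((k + 1 : ℕ) : ℝ) / d - (k : ℝ) / d = 1 / d := by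
      push_cast
      ring
    have h1 : ∫ u in ((k : ℝ) / d)..(((k + 1 : ℕ) : ℝ) / d), hD d (Wide.lt d k) ≤
        ∫ u in ((k : ℝ) / d)..(((k + 1 : ℕ) : ℝ) / d), hD d u := by
      refine intervalIntegral.integral_mono_on_of_le_Ioo hle intervalIntegrable_const
        (hD_int hd hk0 hk1) ?_
      intro x hx
      have hx0 : 0 < x := lt_of_le_of_lt hk0 hx.1
      refine hD_anti (by omega) hx0 ?_ ?_
      · show 0 < Wide.lt d k
        unfold Wide.lt
        positivity
      · unfold Wide.lt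
        have h2 : ((k + 1 : ℕ) : ℝ) / d ≤ 1 + (k : ℝ) / d := by
          push_cast
          rw [add_div]
          have : 1 / (d : ℝ) ≤ 1 := by
            rw [div_le_one hd']
            exact_mod_cast (by omega : 1 ≤ d)
          linarith
        linarith [hx.2]
    rw [intervalIntegral.integral_const, hlen, smul_eq_mul] at h1
    have h3 := mul_le_mul_of_nonneg_left h1 hd'.le
    have h4 : (d : ℝ) * (1 / d * hD d (Wide.lt d k)) = hD d (Wide.lt d k) := by
      field_simp
    linarith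

theorem m1_sum_lower {d : ℕ} (hd : 2 ≤ d) (k : ℕ) :
    (d : ℝ) * ∫ u in (1 : ℝ)..(1 + (k : ℝ) / d), hD d u ≤
      ∑ t ∈ Finset.range k, hD d (Wide.lt d t) := by
  have hd' : (0 : ℝ) < d := by exact_mod_cast (by omega : 0 < d)
  induction k with
  | zero => simp
  | succ k ih =>
    have hk0 : 0 ≤ 1 + (k : ℝ) / d := by positivity
    have hk1 : 0 ≤ 1 + ((k + 1 : ℕ) : ℝ) / d := by positivity
    rw [Finset.sum_range_succ, ← intervalIntegral.integral_add_adjacent_intervals
      (hD_int hd zero_le_one hk0) (hD_int hd hk0 hk1), mul_add]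
    refine add_le_add ih ?_
    have hle : 1 + (k : ℝ) / d ≤ 1 + ((k + 1 : ℕ) : ℝ) / d := by
      push_cast
      gcongr
      linarith
    have hlen : 1 + ((k + 1 : ℕ) : ℝ) / d - (1 + (k : ℝ) / d) = 1 / d := by
      push_cast
      ring
    have h1 : ∫ u in (1 + (k : ℝ) / d)..(1 + ((k + 1 : ℕ) : ℝ) / d), hD d u ≤
        ∫ u in (1 + (k : ℝ) / d)..(1 + ((k + 1 : ℕ) : ℝ) / d), hD d (Wide.lt d k) := by
      refine intervalIntegral.integral_mono_on_of_le_Ioo hle (hD_int hd hk0 hk1)
        intervalIntegrable_const ?_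
      intro x hx
      have hx0 : 0 < x := lt_of_le_of_lt hk0 hx.1
      refine hD_anti (by omega) ?_ hx0 ?_
      · show 0 < Wide.lt d k
        unfold Wide.lt
        positivity
      · unfold Wide.lt
        exact hx.1.le
    rw [intervalIntegral.integral_const, hlen, smul_eq_mul] at h1
    have h3 := mul_le_mul_of_nonneg_left h1 hd'.le
    have h4 : (d : ℝ) * (1 / d * hD d (Wide.lt d k)) = hD d (Wide.lt d k) := by
      field_simp
    linarith

theorem sum_Ex : ∃ C : ℝ, 0 ≤ C ∧ ∀ d k : ℕ, 2 ≤ d → d ≤ k → k ≤ d ^ 3 →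
    |∑ t ∈ Finset.range k, Ex d t - ((d : ℝ) ^ 2 * (∫ u in (0 : ℝ)..((k : ℝ) / d), vfun u) +
      d * ∫ u in (0 : ℝ)..((k : ℝ) / d), hD d u)| ≤ C * (d * Real.log d) := by
  obtain ⟨C, hC, hb⟩ := hD_bound
  refine ⟨2 + 10 * C, by positivity, fun d k hd hdk hk => ?_⟩
  have hd2 : (2 : ℝ) ≤ d := by exact_mod_cast hd
  have hd' : (0 : ℝ) < d := by linarith
  have hk' : (0 : ℝ) < k := by exact_mod_cast (by omega : 0 < k)
  have hdk1 : (1 : ℝ) ≤ (k : ℝ) / d := by
    rw [le_div_iff₀ hd', one_mul]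
    exact_mod_cast hdk
  have hk2 : (k : ℝ) / d ≤ (d : ℝ) ^ 2 := by
    rw [div_le_iff₀ hd']
    have : (k : ℝ) ≤ (d : ℝ) ^ 3 := by exact_mod_cast hk
    calc (k : ℝ) ≤ (d : ℝ) ^ 3 := this
      _ = (d : ℝ) ^ 2 * d := by ring
  have hl2 : Real.log 2 ≤ Real.log d := Real.log_le_log (by norm_num) hd2
  have hl0 := Real.log_two_gt_d9
  have hld : 0 < Real.log d := by linarith
  -- logarithm of `1 + k / d`
  have hlk : Real.log (1 + (k : ℝ) / d) ≤ 3 * Real.log d := by
    have h1 : 1 + (k : ℝ) / d ≤ (d : ℝ) ^ 3 := by nlinarith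
    have h2 := Real.log_le_log (by positivity) h1
    rw [Real.log_pow] at h2
    push_cast at h2
    exact h2
  -- the sum of the logarithms of the sizes
  have hs : ∑ t ∈ Finset.range k, Ex d t = ∑ t ∈ Finset.range k, sfun d t +
      ∑ t ∈ Finset.range k, hD d (Wide.lt d t) := by
    rw [← Finset.sum_add_distrib]
    rfl
  rw [hs, sum_sfun_eq d k (by omega)]
  have b1 : 0 ≤ sfun d k := by
    unfold sfun
    exact mul_nonneg hd'.le (vfun_nonneg (by positivity))
  have b2 : sfun d k ≤ d * (3 * Real.log d) := by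
    unfold sfun
    exact mul_le_mul_of_nonneg_left ((vfun_le_log (by positivity)).trans hlk) hd'.le
  have c1 := m1_sum_upper hd k
  have c2 := m1_sum_lower hd k
  -- comparison of the two integrals
  have hk0 : 0 ≤ (k : ℝ) / d := by positivity
  have hk1 : 0 ≤ 1 + (k : ℝ) / d := by positivity
  have e1 : (∫ u in (0 : ℝ)..1, hD d u) + (∫ u in (1 : ℝ)..(1 + (k : ℝ) / d), hD d u) =
      ∫ u in (0 : ℝ)..(1 + (k : ℝ) / d), hD d u :=
    intervalIntegral.integral_add_adjacent_intervals (hD_int hd le_rfl zero_le_one)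
      (hD_int hd zero_le_one hk1)
  have e2 : (∫ u in (0 : ℝ)..((k : ℝ) / d), hD d u) +
      (∫ u in ((k : ℝ) / d)..(1 + (k : ℝ) / d), hD d u) =
      ∫ u in (0 : ℝ)..(1 + (k : ℝ) / d), hD d u :=
    intervalIntegral.integral_add_adjacent_intervals (hD_int hd le_rfl hk0)
      (hD_int hd hk0 hk1)
  have f1 : |∫ u in (0 : ℝ)..1, hD d u| ≤ C * (Real.log d + 1) := by
    have h1 : ‖∫ u in (0 : ℝ)..1, hD d u‖ ≤
        |∫ u in (0 : ℝ)..1, C * (Real.log d + -Real.log u)| := by
      refine intervalIntegral.norm_integral_le_abs_of_norm_le ?_ ?_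
      · refine (MeasureTheory.ae_restrict_iff' measurableSet_uIoc).2 ?_
        refine Filter.Eventually.of_forall fun x hx => ?_
        rw [uIoc_of_le zero_le_one] at hx
        rw [Real.norm_eq_abs]
        have h2 := hb d x hd hx.1
        rwa [abs_of_nonpos (Real.log_nonpos hx.1.le hx.2)] at h2
      · refine IntervalIntegrable.const_mul ?_ C
        exact intervalIntegrable_const.add intervalIntegral.intervalIntegrable_log'.neg
    rw [Real.norm_eq_abs] at h1
    refine h1.trans (le_of_eq ?_)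
    have hl : IntervalIntegrable (fun u : ℝ => -Real.log u) MeasureTheory.volume 0 1 :=
      intervalIntegral.intervalIntegrable_log'.neg
    rw [intervalIntegral.integral_const_mul, intervalIntegral.integral_add intervalIntegrable_const
      hl, intervalIntegral.integral_const,
      intervalIntegral.integral_neg, integral_log]
    simp only [sub_zero, smul_eq_mul, one_mul, Real.log_one, mul_zero, zero_mul, sub_zero, zero_sub,
      add_zero, neg_neg]
    exact abs_of_nonneg (by positivity)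
  have f2 : |∫ u in ((k : ℝ) / d)..(1 + (k : ℝ) / d), hD d u| ≤ C * (Real.log d + 3 * Real.log d) := by
    have h1 : ∀ u ∈ uIoc ((k : ℝ) / d) (1 + (k : ℝ) / d), ‖hD d u‖ ≤
        C * (Real.log d + 3 * Real.log d) := by
      intro u hu
      rw [uIoc_of_le (by linarith)] at hu
      have hu1 : 1 < u := lt_of_le_of_lt hdk1 hu.1
      rw [Real.norm_eq_abs]
      refine (hb d u hd (by linarith)).trans ?_
      refine mul_le_mul_of_nonneg_left ?_ hC
      rw [abs_of_nonneg (Real.log_nonneg hu1.le)]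
      have : Real.log u ≤ Real.log (1 + (k : ℝ) / d) := Real.log_le_log (by linarith) hu.2
      linarith
    have h2 := intervalIntegral.norm_integral_le_of_norm_le_const h1
    rw [Real.norm_eq_abs] at h2
    refine h2.trans (le_of_eq ?_)
    rw [add_sub_cancel_right, abs_one, mul_one]
  have g1 := abs_le.1 f1
  have g2 := abs_le.1 f2
  obtain ⟨I1, hI1⟩ : ∃ I1, I1 = ∫ u in (0 : ℝ)..((k : ℝ) / d), hD d u := ⟨_, rfl⟩
  obtain ⟨I2, hI2⟩ : ∃ I2, I2 = ∫ u in (1 : ℝ)..(1 + (k : ℝ) / d), hD d u := ⟨_, rfl⟩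
  obtain ⟨I3, hI3⟩ : ∃ I3, I3 = ∫ u in (0 : ℝ)..1, hD d u := ⟨_, rfl⟩
  obtain ⟨I4, hI4⟩ : ∃ I4, I4 = ∫ u in ((k : ℝ) / d)..(1 + (k : ℝ) / d), hD d u := ⟨_, rfl⟩
  obtain ⟨S, hS⟩ : ∃ S, S = ∑ t ∈ Finset.range k, hD d (Wide.lt d t) := ⟨_, rfl⟩
  rw [← hI1] at c1 e2 ⊢
  rw [← hI2] at c2 e1
  rw [← hI3] at e1 g1
  rw [← hI4] at e2 g2
  rw [← hS] at c1 c2 ⊢
  have k1 : I1 - I2 = I3 - I4 := by linarith
  have k2 : I3 - I4 ≤ C * (Real.log d + 1) + C * (Real.log d + 3 * Real.log d) := by
    linarith [g1.2, g2.1]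
  have k3 : C * (Real.log d + 1) + C * (Real.log d + 3 * Real.log d) ≤ 10 * C * Real.log d := by
    have : 1 ≤ 2 * Real.log d := by linarith
    nlinarith
  have k4 : (d : ℝ) * (I1 - I2) ≤ d * (10 * C * Real.log d) :=
    mul_le_mul_of_nonneg_left (by linarith) hd'.le
  have k5 : 0 ≤ d * Real.log d := by positivity
  rw [abs_le]
  constructor
  · nlinarith
  · have k6 : 0 ≤ C * (d * Real.log d) := by positivity
    nlinarith

end Pool.Agent.Lib.MP_8501c9_pr.Deep
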