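import Pool.Agent.Lib.MP_8501c9_pr.Deep.Defs3
import Pool.Agent.Lib.MP_8501c9_pr.Deep.ChooseY
import Pool.Agent.Lib.MP_8501c9_pr.Deep.DeepSums
import Pool.Agent.Lib.MP_8501c9_pr.Wide.Vlim
import Pool.Agent.Lib.MP_8501c9_pr.Wide.WideFinal
import Pool.Agent.Lib.MP_8501c9_pr.Wide.RegimesBD

/-!
# Comparison of the two expressions for the exponent
-/

set_option autoImplicit false
open Set

namespace Pool.Agent.Lib.MP_8501c9_pr.Deep

open Pool.Agent.Lib.MP_8501c9_pr Pool.Agent.Lib.MP_8501c9_pr.Mid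
open Pool.Agent.Lib.MP_8501c9_pr.Wide

theorem gg_small (ε : ℝ) (hε : 0 < ε) : ∃ τ₀ : ℝ, 0 < τ₀ ∧ ∀ τ : ℝ, 0 < τ → τ ≤ τ₀ →
    gg τ ≤ Real.exp ε * (2 * Real.exp 1 / τ) := by
  refine ⟨min (ε / 4) (1 / 2), by positivity, fun τ hτ0 hτ => ?_⟩
  have h1 : τ ≤ ε / 4 := hτ.trans (min_le_left _ _)
  have h2 : τ ≤ 1 / 2 := hτ.trans (min_le_right _ _)
  have hy0 : 0 < τ / 2 := by positivity
  have hy1 : τ / 2 < 1 := by linarith
  refine (gg_le hy0 hy1 hτ0).trans ?_
  set a := τ / 2 with ha
  have ha0 : 0 < a := by positivity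
  have ha1 : a ≤ 1 / 4 := by linarith
  have hτa : τ = 2 * a := by rw [ha]; ring
  have h3 : 0 < 1 - a := by linarith
  have h4 := d8_log_sub ha0.le (by linarith)
  have e1 : 1 / a + τ / 2 ≤ 1 / a * Real.exp a := by
    have e2 := Real.add_one_le_exp a
    have e3 : 1 / a * (a + 1) ≤ 1 / a * Real.exp a := mul_le_mul_of_nonneg_left e2 (by positivity)
    have e4 : 1 / a * (a + 1) = 1 + 1 / a := by
      field_simp
    rw [← ha]
    linarith
  have e5 : 1 / (1 - a) ≤ Real.exp (2 * a) := by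
    refine h4.trans ?_
    have := Real.add_one_le_exp (2 * a)
    linarith
  have e6 : 2 / τ * (a / (1 - a)) + 1 / (1 - a) - (1 - a) ≤ 1 + 5 * a := by
    have e7 : 2 / τ * (a / (1 - a)) = 1 / (1 - a) := by
      rw [hτa]
      field_simp
    rw [e7]
    linarith
  unfold gY
  calc (1 / a + τ / 2) / (1 - a) * Real.exp (2 / τ * (a / (1 - a)) + 1 / (1 - a) - (1 - a))
      = (1 / a + τ / 2) * (1 / (1 - a)) *
        Real.exp (2 / τ * (a / (1 - a)) + 1 / (1 - a) - (1 - a)) := by ring
    _ ≤ (1 / a * Real.exp a) * Real.exp (2 * a) * Real.exp (1 + 5 * a) := by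
        refine mul_le_mul (mul_le_mul e1 e5 (by positivity) (by positivity))
          (Real.exp_le_exp.mpr e6) (Real.exp_pos _).le (by positivity)
    _ = Real.exp (a + 2 * a + 5 * a) * (2 * Real.exp 1 / τ) := by
        rw [Real.exp_add (a + 2 * a) (5 * a), Real.exp_add a (2 * a), Real.exp_add 1 (5 * a), hτa]
        field_simp
    _ ≤ Real.exp ε * (2 * Real.exp 1 / τ) := by
        refine mul_le_mul_of_nonneg_right (Real.exp_le_exp.mpr ?_) (by positivity)
        linarith

theorem aopt_zero : aopt 0 = 0 := by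
  unfold aopt
  have h1 : {a : ℝ | 0 < a ∧ 2 * 0 ≤ a * vfun a - ∫ u in (0 : ℝ)..a, vfun u} = Set.Ioi 0 := by
    ext a
    constructor
    · rintro ⟨h, -⟩
      exact h
    · intro h
      have h2 := vtheta_nonneg (le_of_lt (Set.mem_Ioi.mp h))
      unfold vtheta at h2
      exact ⟨h, by linarith⟩
  rw [h1, csInf_Ioi]

/-- the value function, as a function of the side length -/
noncomputable def c0_V (d : ℕ) (u : ℝ) : ℝ := e7_W (u / Real.sqrt d)

theorem c0_V_eq {d : ℕ} (hd : 1 ≤ d) {u : ℝ} (hu : 0 < u) :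
    Vlim (d / (4 * u ^ 2)) = c0_V d u := by
  have hd0 : (0 : ℝ) < d := by exact_mod_cast hd
  have hs : 0 < Real.sqrt d := Real.sqrt_pos.mpr hd0
  unfold c0_V
  rw [Vlim_eq (by positivity), e7_W_pos (div_pos hu hs)]
  congr 1
  rw [div_pow, Real.sq_sqrt hd0.le]
  field_simp

theorem c0_V_int (d : ℕ) (a b : ℝ) : IntervalIntegrable (c0_V d) MeasureTheory.volume a b := by
  apply Monotone.intervalIntegrable
  intro x y h
  exact e7_W_mono (div_le_div_of_nonneg_right h (Real.sqrt_nonneg _))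

/-- the difference of the two integrands -/
theorem c0_corr {d : ℕ} (hd : 1 ≤ d) {u : ℝ} (hu : 0 < u) :
    corr d u = hD d u - (Real.log (4 * Real.exp 1 * d ^ 2) - 3 * Real.log u - 2 * c0_V d u) := by
  have hd0 : (0 : ℝ) < d := by exact_mod_cast hd
  have hg : 0 < gg (u / d) := d8_gg_pos (div_pos hu hd0)
  have he := Real.exp_pos 1
  unfold corr hD
  rw [c0_V_eq hd hu]
  have h1 : Real.log (2 * d * gg (u / d) / u ^ 2) =
      Real.log (gg (u / d) * u / (2 * Real.exp 1 * d)) +
        (Real.log (4 * Real.exp 1 * d ^ 2) - 3 * Real.log u) := by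
    have h2 : (3 : ℝ) * Real.log u = Real.log (u ^ 3) := by
      rw [Real.log_pow]
      norm_num
    rw [h2, ← Real.log_div (by positivity) (by positivity),
      ← Real.log_mul (by positivity) (by positivity)]
    congr 1
    field_simp
    ring
  rw [h1]
  ring

theorem corr_int {d : ℕ} (hd : 2 ≤ d) {a b : ℝ} (ha : 0 ≤ a) (hb : 0 ≤ b) :
    IntervalIntegrable (corr d) MeasureTheory.volume a b := by
  have h1 : IntervalIntegrable (fun u => hD d u -
      (Real.log (4 * Real.exp 1 * d ^ 2) - 3 * Real.log u - 2 * c0_V d u))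
      MeasureTheory.volume a b := by
    refine (hD_int hd ha hb).sub (((intervalIntegrable_const).sub
      (intervalIntegral.intervalIntegrable_log'.const_mul 3)).sub ((c0_V_int d a b).const_mul 2))
  refine h1.congr ?_
  intro u hu
  have hu0 : 0 < u := lt_of_le_of_lt (le_min ha hb) hu.1
  exact (c0_corr (by omega) hu0).symm

theorem c0_diff {d : ℕ} (hd : 2 ≤ d) {a : ℝ} (ha : 0 < a) :
    (∫ u in (0 : ℝ)..a, hD d u) / a - (∫ u in (0 : ℝ)..a, corr d u) / a =
      Real.log (4 * Real.exp 1 * d ^ 2) - 3 * Real.log a + 3 -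
        2 * ((∫ u in (0 : ℝ)..a, c0_V d u) / a) := by
  have h1 : ∫ u in (0 : ℝ)..a, corr d u = ∫ u in (0 : ℝ)..a, (hD d u -
      (Real.log (4 * Real.exp 1 * d ^ 2) - 3 * Real.log u - 2 * c0_V d u)) := by
    apply intervalIntegral.integral_congr_ae
    refine Filter.Eventually.of_forall fun u hu => ?_
    rw [Set.uIoc_of_le ha.le] at hu
    exact c0_corr (by omega) hu.1
  have i1 : IntervalIntegrable (fun _ : ℝ => Real.log (4 * Real.exp 1 * d ^ 2))
      MeasureTheory.volume 0 a := intervalIntegrable_const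
  have i2 : IntervalIntegrable (fun u : ℝ => 3 * Real.log u) MeasureTheory.volume 0 a :=
    intervalIntegral.intervalIntegrable_log'.const_mul 3
  have i3 : IntervalIntegrable (fun u : ℝ => 2 * c0_V d u) MeasureTheory.volume 0 a :=
    (c0_V_int d 0 a).const_mul 2
  rw [h1, intervalIntegral.integral_sub (hD_int hd le_rfl ha.le) ((i1.sub i2).sub i3),
    intervalIntegral.integral_sub (i1.sub i2) i3, intervalIntegral.integral_sub i1 i2,
    intervalIntegral.integral_const_mul, intervalIntegral.integral_const_mul,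
    intervalIntegral.integral_const, integral_log, sub_zero, smul_eq_mul]
  field_simp
  ring

theorem c0_avg (c ε : ℝ) (hc : 0 < c) (hε : 0 < ε) : ∃ D₀ : ℕ, ∀ (d : ℕ) (a : ℝ), D₀ ≤ d →
    c * d ≤ a → 1 - ε ≤ (∫ u in (0 : ℝ)..a, c0_V d u) / a ∧
      (∫ u in (0 : ℝ)..a, c0_V d u) / a ≤ 1 := by
  obtain ⟨κ₀, hκ₀, hκ⟩ := Vst_small (ε / 2) (by positivity)
  set M := Real.sqrt (1 / (4 * κ₀)) with hM
  have hM0 : 0 < M := Real.sqrt_pos.mpr (by positivity)
  obtain ⟨D, hD⟩ := rbd_sqrt_large (2 * M / (c * ε) + 1)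
  refine ⟨max D 1, fun d a hd ha => ?_⟩
  have hd1 : 1 ≤ d := (le_max_right _ _).trans hd
  have hd0 : (0 : ℝ) < d := by exact_mod_cast hd1
  have hs : 0 < Real.sqrt d := Real.sqrt_pos.mpr hd0
  have hss : Real.sqrt d * Real.sqrt d = d := Real.mul_self_sqrt hd0.le
  have hsq := hD d ((le_max_left _ _).trans hd)
  have ha0 : 0 < a := lt_of_lt_of_le (by positivity) ha
  constructor
  · have hV : ∀ u : ℝ, M * Real.sqrt d ≤ u → 1 - ε / 2 ≤ c0_V d u := by
      intro u hu
      have hu0 : 0 < u := lt_of_lt_of_le (by positivity) hu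
      have hx : M ≤ u / Real.sqrt d := by
        rw [le_div_iff₀ hs]
        exact hu
      unfold c0_V
      rw [e7_W_pos (div_pos hu0 hs)]
      refine hκ _ (by positivity) ?_
      have h2 : M ^ 2 ≤ (u / Real.sqrt d) ^ 2 := pow_le_pow_left₀ hM0.le hx 2
      rw [hM, Real.sq_sqrt (by positivity)] at h2
      rw [div_le_iff₀ (by positivity)] at h2
      rw [div_le_iff₀ (by positivity)]
      nlinarith
    have hMa : M * Real.sqrt d ≤ ε / 2 * a := by
      have h3 : 2 * M / (c * ε) ≤ Real.sqrt d := by linarith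
      rw [div_le_iff₀ (by positivity)] at h3
      have h4 : M * Real.sqrt d ≤ ε / 2 * (c * d) := by
        have h5 := mul_le_mul_of_nonneg_right h3 hs.le
        have h6 : Real.sqrt d * (c * ε) * Real.sqrt d = c * ε * d := by
          calc Real.sqrt d * (c * ε) * Real.sqrt d = c * ε * (Real.sqrt d * Real.sqrt d) := by
                ring
            _ = c * ε * d := by rw [hss]
        rw [h6] at h5
        linarith
      exact h4.trans (mul_le_mul_of_nonneg_left ha (by positivity))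
    rw [le_div_iff₀ ha0]
    rcases le_total (M * Real.sqrt d) a with h5 | h5
    · have h6 : 0 ≤ ∫ u in (0 : ℝ)..(M * Real.sqrt d), c0_V d u :=
        intervalIntegral.integral_nonneg (by positivity) fun u _ => (e7_W_mem _).1
      have h7 : (a - M * Real.sqrt d) * (1 - ε / 2) ≤
          ∫ u in (M * Real.sqrt d)..a, c0_V d u := by
        have h8 : ∫ _ in (M * Real.sqrt d)..a, (1 - ε / 2) ≤
            ∫ u in (M * Real.sqrt d)..a, c0_V d u :=
          intervalIntegral.integral_mono_on h5 intervalIntegrable_const (c0_V_int d _ _)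
            fun u hu => hV u hu.1
        rw [intervalIntegral.integral_const, smul_eq_mul] at h8
        exact h8
      rw [← intervalIntegral.integral_add_adjacent_intervals (c0_V_int d 0 (M * Real.sqrt d))
        (c0_V_int d (M * Real.sqrt d) a)]
      have h9 : 0 ≤ M * Real.sqrt d := by positivity
      nlinarith
    · have h6 : 0 ≤ ∫ u in (0 : ℝ)..a, c0_V d u :=
        intervalIntegral.integral_nonneg ha0.le fun u _ => (e7_W_mem _).1
      nlinarith
  · rw [div_le_one ha0]
    have h8 : ∫ u in (0 : ℝ)..a, c0_V d u ≤ ∫ _ in (0 : ℝ)..a, (1 : ℝ) :=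
      intervalIntegral.integral_mono_on ha0.le (c0_V_int d _ _) intervalIntegrable_const
        fun u _ => (e7_W_mem _).2
    rw [intervalIntegral.integral_const, smul_eq_mul] at h8
    linarith

theorem Ld_Lall (c ε : ℝ) (hc : 0 < c) (hε : 0 < ε) : ∃ D₀ : ℕ, ∀ n d : ℕ, D₀ ≤ d →
    c * d ≤ aopt (Real.log n / d) → |Ld n d - Lall n d| ≤ ε := by
  obtain ⟨A, hA, hcexp⟩ := cexp_asymp (ε / 2) (by positivity)
  obtain ⟨D₁, h1⟩ := c0_avg c (ε / 4) hc (by positivity)
  obtain ⟨D₂, hD₂⟩ := exists_nat_gt (A / c)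
  refine ⟨max (max D₁ D₂) 2, fun n d hd ha => ?_⟩
  have hd1 : D₁ ≤ d := ((le_max_left _ _).trans (le_max_left _ _)).trans hd
  have hd2 : D₂ ≤ d := ((le_max_right _ _).trans (le_max_left _ _)).trans hd
  have hd3 : 2 ≤ d := (le_max_right _ _).trans hd
  have hd0 : (0 : ℝ) < d := by
    have : 0 < d := by omega
    exact_mod_cast this
  have hb : 0 < Real.log n / d := by
    rcases (div_nonneg (Real.log_natCast_nonneg n) hd0.le).eq_or_lt with h | h
    · exfalso
      rw [← h, aopt_zero] at ha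
      have : 0 < c * d := by positivity
      linarith
    · exact h
  set b := Real.log n / d with hbdef
  have ha0 : 0 < aopt b := lt_of_lt_of_le (by positivity) ha
  have hAa : A ≤ aopt b := by
    have h2 : (D₂ : ℝ) ≤ d := by exact_mod_cast hd2
    have h3 : A / c < d := lt_of_lt_of_le hD₂ h2
    rw [div_lt_iff₀ hc] at h3
    linarith
  have h2 := hcexp b hb hAa
  obtain ⟨h3, h4⟩ := h1 d (aopt b) hd1 ha
  have h5 := c0_diff hd3 ha0
  have h6 : Ld n d - Lall n d = (cexp b - (3 * Real.log (aopt b) - 2 - Real.log 4)) +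
      2 * (1 - (∫ u in (0 : ℝ)..aopt b, c0_V d u) / aopt b) := by
    unfold Ld Lall
    rw [← hbdef]
    have h7 : Real.log (4 * Real.exp 1 * d ^ 2) = Real.log 4 + 1 + 2 * Real.log d := by
      rw [Real.log_mul (by positivity) (by positivity), Real.log_mul (by norm_num)
        (Real.exp_pos 1).ne', Real.log_exp, Real.log_pow]
      norm_num
    rw [h7] at h5
    linarith
  rw [h6]
  rw [abs_le] at h2 ⊢
  constructor <;> linarith

end Pool.Agent.Lib.MP_8501c9_pr.Deep
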