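import Pool.Agent.Lib.MP_8501c9_pr.Deep.Compare0
import Pool.Agent.Lib.MP_8501c9_pr.Wide.WideFinal
import Pool.Agent.Lib.MP_8501c9_pr.Wide.RegimesBD

/-!
# The critical probability for `d = O(log n)` and `a ≪ d`
-/

set_option autoImplicit false
open Set

namespace Pool.Agent.Lib.MP_8501c9_pr.Deep

open Pool.Agent.Lib.MP_8501c9_pr Pool.Agent.Lib.MP_8501c9_pr.Mid
open Pool.Agent.Lib.MP_8501c9_pr.Wide

/-- the correction is close to the value function of the one-direction problem -/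
theorem m4b_corr {ε τ₀ : ℝ}
    (h : ∀ τ : ℝ, 0 < τ → τ ≤ τ₀ → gg τ ≤ Real.exp ε * (2 * Real.exp 1 / τ)) {d : ℕ}
    (hd : 1 ≤ d) {u : ℝ} (hu : 0 < u) (hu' : u ≤ τ₀ * d) :
    2 * e7_W (u / Real.sqrt d) ≤ corr d u ∧ corr d u ≤ 2 * e7_W (u / Real.sqrt d) + ε := by
  have hd0 : (0 : ℝ) < d := by exact_mod_cast hd
  have hs : 0 < Real.sqrt d := Real.sqrt_pos.mpr hd0
  have hτ : 0 < u / d := div_pos hu hd0
  have hτ' : u / d ≤ τ₀ := by rwa [div_le_iff₀ hd0]
  have h1 := (gg_ge hτ).1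
  have h2 := h _ hτ hτ'
  have hc : 0 < 2 * Real.exp 1 * d / u := by positivity
  have e1 : 2 * Real.exp 1 / (u / d) = 2 * Real.exp 1 * d / u := by
    field_simp
  rw [e1] at h1 h2
  have e2 : gg (u / d) * u / (2 * Real.exp 1 * d) = gg (u / d) / (2 * Real.exp 1 * d / u) := by
    field_simp
  have h3 : 1 ≤ gg (u / d) * u / (2 * Real.exp 1 * d) := by
    rw [e2, le_div_iff₀ hc, one_mul]
    exact h1
  have h4 : gg (u / d) * u / (2 * Real.exp 1 * d) ≤ Real.exp ε := by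
    rw [e2, div_le_iff₀ hc]
    exact h2
  have h5 : 0 ≤ Real.log (gg (u / d) * u / (2 * Real.exp 1 * d)) := Real.log_nonneg h3
  have h6 : Real.log (gg (u / d) * u / (2 * Real.exp 1 * d)) ≤ ε := by
    rw [Real.log_le_iff_le_exp (by linarith)]
    exact h4
  have h7 : Vlim (d / (4 * u ^ 2)) = e7_W (u / Real.sqrt d) := by
    rw [Vlim_eq (by positivity), e7_W_pos (div_pos hu hs)]
    congr 1
    rw [div_pow, Real.sq_sqrt hd0.le]
    field_simp
  unfold corr
  rw [h7]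
  constructor <;> linarith

theorem m4b_int {d : ℕ} {a : ℝ} :
    IntervalIntegrable (fun u => e7_W (u / Real.sqrt d)) MeasureTheory.volume 0 a := by
  have hm : Monotone (fun u : ℝ => e7_W (u / Real.sqrt d)) := fun x y hxy =>
    e7_W_mono (div_le_div_of_nonneg_right hxy (Real.sqrt_nonneg _))
  exact hm.intervalIntegrable

theorem m4b_avg {ε τ₀ : ℝ}
    (h : ∀ τ : ℝ, 0 < τ → τ ≤ τ₀ → gg τ ≤ Real.exp ε * (2 * Real.exp 1 / τ)) {d : ℕ}
    (hd : 2 ≤ d) {a : ℝ} (ha : 0 < a) (ha' : a ≤ τ₀ * d) :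
    2 * avW (fun g => Vst (1 / (4 * g ^ 2))) a d ≤ (∫ u in (0 : ℝ)..a, corr d u) / a ∧
      (∫ u in (0 : ℝ)..a, corr d u) / a ≤ 2 * avW (fun g => Vst (1 / (4 * g ^ 2))) a d + ε := by
  rw [e7_avW_eq a ha d (by omega)]
  have hi1 : IntervalIntegrable (corr d) MeasureTheory.volume 0 a := corr_int hd le_rfl ha.le
  have hi2 : IntervalIntegrable (fun u => 2 * e7_W (u / Real.sqrt d)) MeasureTheory.volume 0 a :=
    m4b_int.const_mul 2
  have hi3 : IntervalIntegrable (fun u => 2 * e7_W (u / Real.sqrt d) + ε)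
      MeasureTheory.volume 0 a := hi2.add intervalIntegrable_const
  have hb : ∀ u ∈ Ioo (0 : ℝ) a, 2 * e7_W (u / Real.sqrt d) ≤ corr d u ∧
      corr d u ≤ 2 * e7_W (u / Real.sqrt d) + ε := fun u hu =>
    m4b_corr h (by omega) hu.1 (hu.2.le.trans ha')
  have h1 := intervalIntegral.integral_mono_on_of_le_Ioo ha.le hi2 hi1 fun u hu => (hb u hu).1
  have h2 := intervalIntegral.integral_mono_on_of_le_Ioo ha.le hi1 hi3 fun u hu => (hb u hu).2
  rw [intervalIntegral.integral_const_mul] at h1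
  rw [intervalIntegral.integral_add hi2 intervalIntegrable_const,
    intervalIntegral.integral_const_mul, intervalIntegral.integral_const, smul_eq_mul,
    sub_zero] at h2
  constructor
  · rw [← mul_div_assoc, le_div_iff₀ ha, div_mul_cancel₀ _ ha.ne']
    exact h1
  · rw [div_le_iff₀ ha, add_mul, ← mul_div_assoc, div_mul_cancel₀ _ ha.ne']
    linarith

theorem m4b_small {κ₀ ε g : ℝ} (h : ∀ κ, κ₀ ≤ κ → Vst κ ≤ ε)
    (hκ : κ₀ ≤ 1 / (4 * g ^ 2)) {d : ℕ} (hd : 1 ≤ d) {a : ℝ} (ha : 0 < a)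
    (ha' : a ≤ g * Real.sqrt d) :
    0 ≤ avW (fun g => Vst (1 / (4 * g ^ 2))) a d ∧
      avW (fun g => Vst (1 / (4 * g ^ 2))) a d ≤ ε := by
  rw [e7_avW_eq a ha d hd]
  have hd0 : (0 : ℝ) < d := by exact_mod_cast hd
  have hs : 0 < Real.sqrt d := Real.sqrt_pos.mpr hd0
  constructor
  · apply div_nonneg _ ha.le
    exact intervalIntegral.integral_nonneg ha.le fun u _ => (e7_W_mem _).1
  · rw [div_le_iff₀ ha]
    have h1 : ∫ u in (0 : ℝ)..a, e7_W (u / Real.sqrt d) ≤ ∫ u in (0 : ℝ)..a, ε := by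
      refine intervalIntegral.integral_mono_on_of_le_Ioo ha.le m4b_int
        intervalIntegrable_const fun u hu => ?_
      have hu0 : 0 < u / Real.sqrt d := div_pos hu.1 hs
      have hu1 : u / Real.sqrt d ≤ g := by
        rw [div_le_iff₀ hs]
        exact hu.2.le.trans ha'
      rw [e7_W_pos hu0]
      apply h
      refine hκ.trans (one_div_le_one_div_of_le (by positivity) ?_)
      have := pow_le_pow_left₀ hu0.le hu1 2
      linarith
    rw [intervalIntegral.integral_const, smul_eq_mul, sub_zero] at h1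
    linarith

/-- `d = O(log n)` and `a ≪ d` -/
theorem pc_I (c₀ ε : ℝ) (hc₀ : 0 < c₀) (hε : 0 < ε) : ∃ c : ℝ, 0 < c ∧ ∃ D₀ : ℕ,
    ∀ n d : ℕ, D₀ ≤ d → c₀ * d ≤ Real.log n → aopt (Real.log n / d) ≤ c * d →
    Real.exp (-(Lall n d + ε)) ≤ pc n d 2 ∧ pc n d 2 ≤ Real.exp (-(Lall n d - ε)) := by
  obtain ⟨τ₀, hτ₀, hgg⟩ := gg_small (ε / 4) (by positivity)
  obtain ⟨κ₀, hκ₀, hV⟩ := Vst_large (ε / 8) (by positivity)
  have he1 : 0 < 1 - Real.exp (-(ε / 4)) := by
    have : Real.exp (-(ε / 4)) < 1 := by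
      rw [← Real.exp_zero]
      exact Real.exp_lt_exp.2 (by linarith)
    linarith
  obtain ⟨g₁, hg₁, D₁, hAB⟩ := pc_AB c₀ (1 - Real.exp (-(ε / 4))) hc₀ he1
  obtain ⟨A₁, c₁, hA₁, hc₁, D₂, hW⟩ := pc_wide (ε / 4) (by positivity)
  obtain ⟨A₂, hA₂, hC⟩ := cexp_asymp (ε / 4) (by positivity)
  -- the threshold between the two cases
  obtain ⟨g, hg⟩ : ∃ g : ℝ, g = min g₁ (1 / (2 * Real.sqrt κ₀)) := ⟨_, rfl⟩
  have hsκ : 0 < Real.sqrt κ₀ := Real.sqrt_pos.2 hκ₀
  have hg0 : 0 < g := by rw [hg]; exact lt_min hg₁ (by positivity)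
  have hgg₁ : g ≤ g₁ := by rw [hg]; exact min_le_left _ _
  have hgκ : κ₀ ≤ 1 / (4 * g ^ 2) := by
    have h1 : g ≤ 1 / (2 * Real.sqrt κ₀) := by rw [hg]; exact min_le_right _ _
    have h2 : g ^ 2 ≤ (1 / (2 * Real.sqrt κ₀)) ^ 2 := pow_le_pow_left₀ hg0.le h1 2
    have h3 : (1 / (2 * Real.sqrt κ₀)) ^ 2 = 1 / (4 * κ₀) := by
      rw [div_pow, mul_pow, Real.sq_sqrt hκ₀.le]
      norm_num
    rw [h3, le_div_iff₀ (by positivity)] at h2
    rw [le_div_iff₀ (by positivity)]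
    linarith
  obtain ⟨D₃, hD₃⟩ := rbd_sqrt_large (max A₁ A₂ / g)
  refine ⟨min c₁ τ₀, lt_min hc₁ hτ₀, max (max D₁ D₂) (max D₃ 2), ?_⟩
  intro n d hd hn ha
  have hd1 : D₁ ≤ d := le_trans (le_max_left _ _) ((le_max_left _ _).trans hd)
  have hd2 : D₂ ≤ d := le_trans (le_max_right _ _) ((le_max_left _ _).trans hd)
  have hd3 : D₃ ≤ d := le_trans (le_max_left _ _) ((le_max_right _ _).trans hd)
  have hd4 : 2 ≤ d := le_trans (le_max_right _ _) ((le_max_right _ _).trans hd)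
  have hd0 : (0 : ℝ) < d := by
    have : (2 : ℝ) ≤ d := by exact_mod_cast hd4
    linarith
  have hb0 : 0 < Real.log n / d := by
    apply div_pos _ hd0
    have : 0 < c₀ * d := by positivity
    linarith
  obtain ⟨a0, -, -, -, -⟩ := aopt_spec hb0
  have hac : aopt (Real.log n / d) ≤ c₁ * d :=
    ha.trans (mul_le_mul_of_nonneg_right (min_le_left _ _) hd0.le)
  have haτ : aopt (Real.log n / d) ≤ τ₀ * d :=
    ha.trans (mul_le_mul_of_nonneg_right (min_le_right _ _) hd0.le)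
  obtain ⟨q1, q2⟩ := m4b_avg hgg hd4 a0 haτ
  have hL : Lall n d = d * ell (Real.log n / d) + 2 * Real.log d - cexp (Real.log n / d) +
    (∫ u in (0 : ℝ)..aopt (Real.log n / d), corr d u) / aopt (Real.log n / d) := rfl
  rcases le_total (aopt (Real.log n / d)) (g * Real.sqrt d) with hag | hag
  · -- small `a`
    obtain ⟨r1, r2⟩ := m4b_small hV hgκ (by omega : 1 ≤ d) a0 hag
    have h1 := hAB n d hd1 hn (hag.trans
      (mul_le_mul_of_nonneg_right hgg₁ (Real.sqrt_nonneg _)))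
    obtain ⟨h2, h3⟩ := rbd_window h1
    obtain ⟨X, hX⟩ : ∃ X : ℝ, X = Real.exp (cexp (Real.log n / d) -
      d * ell (Real.log n / d)) / (d : ℝ) ^ 2 := ⟨_, rfl⟩
    rw [← hX] at h2 h3
    have hX0 : 0 < X := by rw [hX]; positivity
    have hXl : Real.log X = cexp (Real.log n / d) - d * ell (Real.log n / d) -
        2 * Real.log d := by
      rw [hX, Real.log_div (Real.exp_pos _).ne' (by positivity), Real.log_exp, Real.log_pow]
      push_cast
      ring
    have hp0 : 0 < pc n d 2 := by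
      have := mul_pos h2 hX0
      rwa [div_mul_cancel₀ _ hX0.ne'] at this
    rw [Real.log_div hp0.ne' hX0.ne', hXl, abs_le] at h3
    constructor
    · rw [← Real.le_log_iff_exp_le hp0]
      linarith [h3.1, h3.2]
    · rw [← Real.log_le_iff_le_exp hp0]
      linarith [h3.1, h3.2]
  · -- large `a`
    have hAmax : max A₁ A₂ ≤ aopt (Real.log n / d) := by
      refine le_trans ?_ hag
      have := hD₃ d hd3
      rw [div_le_iff₀ hg0] at this
      linarith
    obtain ⟨w1, w2⟩ := hW n d hd2 ((le_max_left _ _).trans hAmax) hac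
    have hc := hC _ hb0 ((le_max_right _ _).trans hAmax)
    rw [abs_le] at hc
    have hLw : Lw (fun g => Vst (1 / (4 * g ^ 2))) n d = d * ell (Real.log n / d) +
      2 * Real.log d - 3 * Real.log (aopt (Real.log n / d)) + 2 + Real.log 4 +
      2 * avW (fun g => Vst (1 / (4 * g ^ 2))) (aopt (Real.log n / d)) d := rfl
    constructor
    · refine le_trans (Real.exp_le_exp.2 ?_) w1
      linarith [hc.1, hc.2]
    · refine w2.trans (Real.exp_le_exp.2 ?_)
      linarith [hc.1, hc.2]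

end Pool.Agent.Lib.MP_8501c9_pr.Deep
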