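import Pool.Agent.Lib.MP_8501c9_pr.Deep.BetaE
import Pool.Agent.Lib.MP_8501c9_pr.Wide.PotPF

/-!
# Potentials for side lengths up to `d ^ 2` (task D7)
-/

set_option autoImplicit false
open Set

namespace Pool.Agent.Lib.MP_8501c9_pr.Deep

open Pool.Agent.Lib.MP_8501c9_pr Pool.Agent.Lib.MP_8501c9_pr.Mid
open Pool.Agent.Lib.MP_8501c9_pr.Wide

/-! ### the functions `B` and `U` -/

/-- number of slots, scaled -/
noncomputable def d7B (Y : ℝ → ℝ) (τ : ℝ) : ℝ := Y τ * (1 + τ / 2) / (1 - Y τ)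

/-- weight of a layer, scaled -/
noncomputable def d7U (Y : ℝ → ℝ) (τ : ℝ) : ℝ := Y τ * (1 + d7B Y τ + τ)

section Y

variable {R : ℝ} {Y : ℝ → ℝ}

theorem d7_Y_pos (hY : YF R Y) (hR : 1 ≤ R) {τ : ℝ} (hτ : 0 < τ) : 0 < Y τ := by
  have h1 := hY.low τ hτ
  have h2 : 0 < min τ 1 / R := by
    have : 0 < min τ 1 := lt_min hτ one_pos
    positivity
  linarith

theorem d7_Y_one (hY : YF R Y) (hR : 1 ≤ R) {τ : ℝ} (hτ : 0 < τ) :
    0 < 1 - Y τ ∧ 1 / (1 - Y τ) ≤ R := by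
  have h1 := hY.le_one τ hτ
  have h2 : 0 < 1 / R := by positivity
  have h3 : 1 / R ≤ 1 - Y τ := by linarith
  refine ⟨by linarith, ?_⟩
  rw [div_le_iff₀ (by linarith)]
  rw [div_le_iff₀ (by linarith)] at h3
  linarith

theorem d7_Y_lt_one (hY : YF R Y) (hR : 1 ≤ R) {τ : ℝ} (hτ : 0 < τ) : Y τ < 1 := by
  have := (d7_Y_one hY hR hτ).1
  linarith

theorem d7_B_eq' (hY : YF R Y) (hR : 1 ≤ R) {τ : ℝ} (hτ : 0 < τ) :
    d7B Y τ = (1 / (1 - Y τ) - 1) * (1 + τ / 2) := by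
  have h := (d7_Y_one hY hR hτ).1
  unfold d7B
  field_simp
  ring

theorem d7_B_nonneg (hY : YF R Y) (hR : 1 ≤ R) {τ : ℝ} (hτ : 0 < τ) : 0 ≤ d7B Y τ := by
  have h1 := (d7_Y_one hY hR hτ).1
  have h2 := d7_Y_pos hY hR hτ
  unfold d7B
  positivity

theorem d7_B_fix (hY : YF R Y) (hR : 1 ≤ R) {τ : ℝ} (hτ : 0 < τ) :
    Y τ * (1 + d7B Y τ + τ / 2) = d7B Y τ := by
  have h := (d7_Y_one hY hR hτ).1
  unfold d7B
  field_simp
  ring

theorem d7_one_add_B (hY : YF R Y) (hR : 1 ≤ R) {τ : ℝ} (hτ : 0 < τ) :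
    1 + d7B Y τ = (1 + Y τ * τ / 2) / (1 - Y τ) := by
  have h := (d7_Y_one hY hR hτ).1
  unfold d7B
  field_simp
  ring

theorem d7_B_le' (hY : YF R Y) (hR : 1 ≤ R) {τ : ℝ} (hτ : 0 < τ) :
    d7B Y τ ≤ R * (Y τ * (1 + τ / 2)) := by
  have h1 := (d7_Y_one hY hR hτ).2
  have h2 := d7_Y_pos hY hR hτ
  have h3 : 0 ≤ Y τ * (1 + τ / 2) := by positivity
  unfold d7B
  calc Y τ * (1 + τ / 2) / (1 - Y τ) = 1 / (1 - Y τ) * (Y τ * (1 + τ / 2)) := by ring
    _ ≤ R * (Y τ * (1 + τ / 2)) := mul_le_mul_of_nonneg_right h1 h3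

theorem d7_B_le (hY : YF R Y) (hR : 1 ≤ R) {τ : ℝ} (hτ : 0 < τ) :
    d7B Y τ ≤ R * (1 + τ) := by
  have h1 := d7_Y_lt_one hY hR hτ
  refine (d7_B_le' hY hR hτ).trans (mul_le_mul_of_nonneg_left ?_ (by linarith))
  nlinarith

theorem d7_B_ge (hY : YF R Y) (hR : 1 ≤ R) {τ : ℝ} (hτ : 0 < τ) :
    τ / (2 * R) ≤ 1 + d7B Y τ := by
  have hB := d7_B_nonneg hY hR hτ
  rw [div_le_iff₀ (by linarith)]
  rcases le_total τ 1 with h | h
  · nlinarith
  · have h1 := hY.low τ hτ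
    rw [min_eq_right h, div_le_iff₀ (by linarith)] at h1
    have h2 := (d7_Y_one hY hR hτ).1
    have h3 := d7_Y_pos hY hR hτ
    have h4 : Y τ * (1 + τ / 2) ≤ d7B Y τ := by
      unfold d7B
      rw [le_div_iff₀ h2]
      have : 0 ≤ Y τ * (1 + τ / 2) := by positivity
      nlinarith
    have h5 : Y τ * (τ / 2) ≤ 1 + d7B Y τ := by nlinarith
    calc τ = 1 * τ := (one_mul _).symm
      _ ≤ Y τ * R * τ := mul_le_mul_of_nonneg_right h1 hτ.le
      _ = Y τ * (τ / 2) * (2 * R) := by ring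
      _ ≤ (1 + d7B Y τ) * (2 * R) := mul_le_mul_of_nonneg_right h5 (by linarith)

theorem d7_X_lip (hY : YF R Y) (hR : 1 ≤ R) {τ τ' : ℝ} (hτ : 0 < τ) (h : τ ≤ τ') :
    |1 / (1 - Y τ') - 1 / (1 - Y τ)| ≤ R ^ 3 * (τ' - τ) / (1 + τ) := by
  have hτ' : 0 < τ' := by linarith
  obtain ⟨h1, h2⟩ := d7_Y_one hY hR hτ
  obtain ⟨h3, h4⟩ := d7_Y_one hY hR hτ'
  have h5 := hY.lip τ τ' hτ h
  have e : 1 / (1 - Y τ') - 1 / (1 - Y τ) = (Y τ' - Y τ) * (1 / (1 - Y τ') * (1 / (1 - Y τ))) := by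
    field_simp
    ring
  have h6 : 0 ≤ 1 / (1 - Y τ') := by positivity
  have h7 : 0 ≤ 1 / (1 - Y τ) := by positivity
  rw [e, abs_mul, abs_of_nonneg (mul_nonneg h6 h7)]
  calc |Y τ' - Y τ| * (1 / (1 - Y τ') * (1 / (1 - Y τ)))
      ≤ (R * (τ' - τ) / (1 + τ)) * (R * R) := by
        refine mul_le_mul h5 (mul_le_mul h4 h2 h7 (by linarith)) (mul_nonneg h6 h7) ?_
        have : 0 ≤ τ' - τ := by linarith
        positivity
    _ = _ := by ring

theorem d7_B_lip (hY : YF R Y) (hR : 1 ≤ R) {τ τ' : ℝ} (hτ : 0 < τ) (h : τ ≤ τ') :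
    |d7B Y τ' - d7B Y τ| ≤ 2 * R ^ 3 * (τ' - τ) := by
  have hτ' : 0 < τ' := by linarith
  have h0 : 0 ≤ τ' - τ := by linarith
  obtain ⟨h1, h2⟩ := d7_Y_one hY hR hτ
  obtain ⟨h3, h4⟩ := d7_Y_one hY hR hτ'
  have h5 := d7_X_lip hY hR hτ h
  have h6 := d7_Y_pos hY hR hτ'
  have h7 : 0 ≤ 1 / (1 - Y τ') - 1 := by
    have : 1 ≤ 1 / (1 - Y τ') := by
      rw [le_div_iff₀ h3]
      linarith
    linarith
  rw [d7_B_eq' hY hR hτ, d7_B_eq' hY hR hτ']
  have e : (1 / (1 - Y τ') - 1) * (1 + τ' / 2) - (1 / (1 - Y τ) - 1) * (1 + τ / 2) =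
      (1 / (1 - Y τ') - 1 / (1 - Y τ)) * (1 + τ / 2) +
        (1 / (1 - Y τ') - 1) * ((τ' - τ) / 2) := by ring
  rw [e]
  have hR3 : 1 ≤ R ^ 3 := one_le_pow₀ hR
  have hRR : R ≤ R ^ 3 := by
    calc R = R * 1 := (mul_one R).symm
      _ ≤ R * R ^ 2 := mul_le_mul_of_nonneg_left (one_le_pow₀ hR) (by linarith)
      _ = R ^ 3 := by ring
  have t1 : |(1 / (1 - Y τ') - 1 / (1 - Y τ)) * (1 + τ / 2)| ≤ R ^ 3 * (τ' - τ) := by
    rw [abs_mul, abs_of_nonneg (show 0 ≤ 1 + τ / 2 by positivity)]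
    calc |1 / (1 - Y τ') - 1 / (1 - Y τ)| * (1 + τ / 2)
        ≤ (R ^ 3 * (τ' - τ) / (1 + τ)) * (1 + τ) := by
          refine mul_le_mul h5 (by linarith) (by positivity) (by positivity)
      _ = R ^ 3 * (τ' - τ) := by field_simp
  have t2 : |(1 / (1 - Y τ') - 1) * ((τ' - τ) / 2)| ≤ R ^ 3 * (τ' - τ) := by
    rw [abs_mul, abs_of_nonneg h7, abs_of_nonneg (by positivity)]
    exact mul_le_mul (by linarith) (by linarith) (by positivity) (by positivity)
  calc _ ≤ R ^ 3 * (τ' - τ) + R ^ 3 * (τ' - τ) := (abs_add_le _ _).trans (add_le_add t1 t2)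
    _ = _ := by ring

theorem d7_U_nonneg (hY : YF R Y) (hR : 1 ≤ R) {τ : ℝ} (hτ : 0 < τ) : 0 ≤ d7U Y τ := by
  have h1 := d7_B_nonneg hY hR hτ
  have h2 := d7_Y_pos hY hR hτ
  unfold d7U
  positivity

theorem d7_U_le (hY : YF R Y) (hR : 1 ≤ R) {τ : ℝ} (hτ : 0 < τ) : d7U Y τ ≤ 5 * R ^ 3 * τ := by
  have h1 := d7_B_le' hY hR hτ
  have h2 := d7_Y_pos hY hR hτ
  have h3 := hY.up τ hτ
  have h4 := d7_Y_lt_one hY hR hτ
  have h5 := d7_B_nonneg hY hR hτ
  have hR2 : R ≤ R ^ 3 := by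
    calc R = R * 1 := (mul_one R).symm
      _ ≤ R * R ^ 2 := mul_le_mul_of_nonneg_left (one_le_pow₀ hR) (by linarith)
      _ = R ^ 3 := by ring
  have hR3 : R ^ 2 ≤ R ^ 3 := pow_le_pow_right₀ hR (by norm_num)
  have hR4 : 1 ≤ R ^ 3 := one_le_pow₀ hR
  unfold d7U
  have e1 : Y τ * (1 + d7B Y τ + τ) = Y τ + Y τ * d7B Y τ + Y τ * τ := by ring
  have e2 : Y τ * d7B Y τ ≤ R ^ 2 * τ + R * τ := by
    calc Y τ * d7B Y τ ≤ Y τ * (R * (Y τ * (1 + τ / 2))) :=
          mul_le_mul_of_nonneg_left h1 h2.le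
      _ = R * (Y τ * Y τ) + R * (Y τ * Y τ) * (τ / 2) := by ring
      _ ≤ R * (Y τ * 1) + R * (1 * 1) * (τ / 2) := by
          gcongr
      _ ≤ R * (R * τ) + R * τ := by
          have : R * (1 * 1) * (τ / 2) ≤ R * τ := by nlinarith
          have : R * (Y τ * 1) ≤ R * (R * τ) := by
            rw [mul_one]
            exact mul_le_mul_of_nonneg_left h3 (by linarith)
          linarith
      _ = _ := by ring
  have e3 : Y τ * τ ≤ 1 * τ := mul_le_mul_of_nonneg_right h4.le hτ.le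
  have e4 : R * τ ≤ R ^ 3 * τ := mul_le_mul_of_nonneg_right hR2 hτ.le
  have e5 : R ^ 2 * τ ≤ R ^ 3 * τ := mul_le_mul_of_nonneg_right hR3 hτ.le
  have e6 : 1 * τ ≤ R ^ 3 * τ := mul_le_mul_of_nonneg_right hR4 hτ.le
  rw [e1]
  nlinarith

theorem d7_U_lip (hY : YF R Y) (hR : 1 ≤ R) {τ τ' : ℝ} (hτ : 0 < τ) (h : τ ≤ τ') :
    |d7U Y τ' - d7U Y τ| ≤ 5 * R ^ 3 * (τ' - τ) := by
  have hτ' : 0 < τ' := by linarith
  have h0 : 0 ≤ τ' - τ := by linarith
  have h1 := hY.lip τ τ' hτ h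
  have h2 := d7_B_lip hY hR hτ h
  have h3 := d7_Y_pos hY hR hτ'
  have h4 := d7_Y_lt_one hY hR hτ'
  have h5 := d7_B_le hY hR hτ
  have h6 := d7_B_nonneg hY hR hτ
  have hR2 : R ≤ R ^ 3 := by
    calc R = R * 1 := (mul_one R).symm
      _ ≤ R * R ^ 2 := mul_le_mul_of_nonneg_left (one_le_pow₀ hR) (by linarith)
      _ = R ^ 3 := by ring
  have hR3 : R ^ 2 ≤ R ^ 3 := pow_le_pow_right₀ hR (by norm_num)
  have hR4 : 1 ≤ R ^ 3 := one_le_pow₀ hR
  unfold d7U
  have e : Y τ' * (1 + d7B Y τ' + τ') - Y τ * (1 + d7B Y τ + τ) =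
      (Y τ' - Y τ) * (1 + d7B Y τ + τ) + Y τ' * ((d7B Y τ' - d7B Y τ) + (τ' - τ)) := by ring
  rw [e]
  have t1 : |(Y τ' - Y τ) * (1 + d7B Y τ + τ)| ≤ R * (1 + R) * (τ' - τ) := by
    rw [abs_mul, abs_of_nonneg (show 0 ≤ 1 + d7B Y τ + τ by positivity)]
    calc |Y τ' - Y τ| * (1 + d7B Y τ + τ)
        ≤ (R * (τ' - τ) / (1 + τ)) * ((1 + R) * (1 + τ)) := by
          refine mul_le_mul h1 ?_ (by positivity) (by positivity)
          linarith
      _ = R * (1 + R) * (τ' - τ) := by field_simp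
  have t2 : |Y τ' * ((d7B Y τ' - d7B Y τ) + (τ' - τ))| ≤ (2 * R ^ 3 + 1) * (τ' - τ) := by
    rw [abs_mul, abs_of_pos h3]
    calc Y τ' * |(d7B Y τ' - d7B Y τ) + (τ' - τ)|
        ≤ 1 * (2 * R ^ 3 * (τ' - τ) + (τ' - τ)) := by
          refine mul_le_mul h4.le ?_ (abs_nonneg _) zero_le_one
          refine (abs_add_le _ _).trans (add_le_add h2 ?_)
          rw [abs_of_nonneg h0]
      _ = _ := by ring
  calc _ ≤ R * (1 + R) * (τ' - τ) + (2 * R ^ 3 + 1) * (τ' - τ) :=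
        (abs_add_le _ _).trans (add_le_add t1 t2)
    _ = (R + R ^ 2 + 2 * R ^ 3 + 1) * (τ' - τ) := by ring
    _ ≤ (5 * R ^ 3) * (τ' - τ) := mul_le_mul_of_nonneg_right (by linarith) h0

theorem d7_log_abs {a b m : ℝ} (hm : 0 < m) (ha : m ≤ a) (hb : m ≤ b) :
    |Real.log a - Real.log b| ≤ |a - b| / m := by
  have key : ∀ a b : ℝ, m ≤ a → m ≤ b → Real.log a - Real.log b ≤ |a - b| / m := by
    intro a b ha hb
    have h1 := p7_log_sub (a := b) (b := a) (by linarith) (by linarith)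
    refine h1.trans ?_
    calc (a - b) / b ≤ |a - b| / b := by
          gcongr
          · linarith
          · exact le_abs_self _
      _ ≤ |a - b| / m := div_le_div_of_nonneg_left (abs_nonneg _) hm hb
  rw [abs_le]
  constructor
  · have := key b a hb ha
    rw [abs_sub_comm] at this
    linarith
  · exact key a b ha hb

theorem d7_log_B (hY : YF R Y) (hR : 1 ≤ R) {τ τ' e : ℝ} (hτ : 0 < τ) (h : τ ≤ τ')
    (he : 0 ≤ e) : |Real.log (1 + (d7B Y τ' + e)) - Real.log (1 + (d7B Y τ + e))| ≤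
      4 * R ^ 4 * ((τ' - τ) / τ) := by
  have hτ' : 0 < τ' := by linarith
  have h1 := d7_B_ge hY hR hτ
  have h2 := d7_B_ge hY hR hτ'
  have h3 : τ / (2 * R) ≤ τ' / (2 * R) := by gcongr
  have h4 : 0 < τ / (2 * R) := by positivity
  refine (d7_log_abs h4 (by linarith) (by linarith)).trans ?_
  have h5 := d7_B_lip hY hR hτ h
  have e1 : 1 + (d7B Y τ' + e) - (1 + (d7B Y τ + e)) = d7B Y τ' - d7B Y τ := by ring
  rw [e1]
  calc |d7B Y τ' - d7B Y τ| / (τ / (2 * R)) ≤ 2 * R ^ 3 * (τ' - τ) / (τ / (2 * R)) := by gcongr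
    _ = _ := by field_simp; ring

theorem d7_log_Y (hY : YF R Y) (hR : 1 ≤ R) {τ τ' : ℝ} (hτ : 0 < τ) (h : τ ≤ τ') :
    |Real.log (Y τ') - Real.log (Y τ)| ≤ R ^ 2 * ((τ' - τ) / τ) := by
  have hτ' : 0 < τ' := by linarith
  have hm : 0 < min τ 1 := lt_min hτ one_pos
  have h1 := hY.low τ hτ
  have h2 := hY.low τ' hτ'
  have h3 : min τ 1 / R ≤ min τ' 1 / R := by gcongr
  have h4 : 0 < min τ 1 / R := by positivity
  refine (d7_log_abs h4 (by linarith) (by linarith)).trans ?_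
  have h5 := hY.lip τ τ' hτ h
  have h6 : τ ≤ (1 + τ) * min τ 1 := by
    rcases le_total τ 1 with h7 | h7
    · rw [min_eq_left h7]; nlinarith
    · rw [min_eq_right h7]; linarith
  have h0 : 0 ≤ τ' - τ := by linarith
  calc |Y τ' - Y τ| / (min τ 1 / R) ≤ (R * (τ' - τ) / (1 + τ)) / (min τ 1 / R) := by gcongr
    _ = R ^ 2 * ((τ' - τ) / ((1 + τ) * min τ 1)) := by field_simp
    _ ≤ R ^ 2 * ((τ' - τ) / τ) := by gcongr

/-- the value of the factor -/
theorem d7_gY (hY : YF R Y) (hR : 1 ≤ R) {τ : ℝ} (hτ : 0 < τ) :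
    Real.log (gY (Y τ) τ) = Real.log (1 + d7B Y τ) - Real.log (Y τ) + 2 * d7U Y τ / τ := by
  have h1 := (d7_Y_one hY hR hτ).1
  have h2 := d7_Y_pos hY hR hτ
  have h3 := d7_B_nonneg hY hR hτ
  have e1 : (1 / Y τ + τ / 2) / (1 - Y τ) = (1 + d7B Y τ) / Y τ := by
    rw [d7_one_add_B hY hR hτ]
    field_simp
  have e2 : 2 / τ * (Y τ / (1 - Y τ)) + 1 / (1 - Y τ) - (1 - Y τ) = 2 * d7U Y τ / τ := by
    unfold d7U
    rw [d7_one_add_B hY hR hτ]
    field_simp
    ring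
  unfold gY
  rw [e1, e2, Real.log_mul (by positivity) (Real.exp_ne_zero _), Real.log_exp,
    Real.log_div (by positivity) h2.ne']

end Y

/-! ### levels -/

theorem d7_tau_pos {d : ℕ} (hd : 1 ≤ d) (t : ℕ) : 0 < lt d t / d := by
  have h1 := p7_one_le_lt d t
  have hd0 : (0 : ℝ) < d := by exact_mod_cast hd
  positivity

theorem d7_lt_mono {d s t : ℕ} (h : s ≤ t) : lt d s ≤ lt d t := by
  obtain ⟨r, rfl⟩ := Nat.exists_eq_add_of_le h
  rw [p7_lt_add]
  have : (0 : ℝ) ≤ (r : ℝ) / d := by positivity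
  linarith

theorem d7_tau_mono {d s t : ℕ} (h : s ≤ t) : lt d s / d ≤ lt d t / d :=
  div_le_div_of_nonneg_right (d7_lt_mono h) (Nat.cast_nonneg d)

theorem d7_tau_add {d : ℕ} (hd : 1 ≤ d) (t r : ℕ) :
    lt d (t + r) / d - lt d t / d = r / (d : ℝ) ^ 2 := by
  have hd0 : (0 : ℝ) < d := by exact_mod_cast hd
  rw [p7_lt_add]
  field_simp
  ring

theorem d7_frac {d : ℕ} (hd : 1 ≤ d) (t r : ℕ) :
    (lt d (t + r) / d - lt d t / d) / (lt d t / d) = r / (d * lt d t) := by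
  have hd0 : (0 : ℝ) < d := by exact_mod_cast hd
  have h1 := p7_one_le_lt d t
  rw [d7_tau_add hd]
  field_simp

/-- a new layer changes the corrections little when the weight stays the same -/
theorem d7_bE_const {c R : ℝ} (hc : 0 ≤ c) (hR : 0 ≤ R) {d : ℕ} (hd : 1 ≤ d) {lam : ℕ → ℝ}
    (h : LamOK R d lam) {t x : ℕ} (hx : 1 ≤ x) (he : lam (t + 1) = lam t) :
    bE c lam d (t + 1) x ≤ bE c lam d t x * Real.exp ((1 + c * R) / d) := by
  have hd0 : (0 : ℝ) < d := by exact_mod_cast hd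
  have hlt := p7_one_le_lt d t
  have hlt0 : 0 < lt d t := by linarith
  have e1 : lt d (t + 1) = lt d t + 1 / d := by
    have := p7_lt_add d t 1
    push_cast at this
    exact this
  have hinv : 0 < 1 / (d : ℝ) := by positivity
  have hlt1 : 0 < lt d (t + 1) := by linarith
  set δ : ℝ := (1 + c * R) / (d * lt d t) with hδ
  have hδ0 : 0 ≤ δ := by positivity
  have hq0 : ∀ s m, 0 < qE c lam d s m := fun s m => lt_of_lt_of_le one_pos (le_max_left _ _)
  have hq : ∀ m, qE c lam d (t + 1) m ≤ qE c lam d t m * Real.exp δ := by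
    intro m
    have h1 : 1 ≤ Real.exp δ := Real.one_le_exp hδ0
    unfold qE
    rw [he]
    refine max_le ?_ ?_
    · calc (1 : ℝ) = 1 * 1 := (one_mul 1).symm
        _ ≤ _ := mul_le_mul (le_max_left _ _) h1 zero_le_one
            (zero_le_one.trans (le_max_left _ _))
    · have hl := h.nonneg t
      have hl2 := h.le t
      have h2 : lt d (t + 1) ≤ lt d t * Real.exp (1 / (d * lt d t)) := by
        have := Real.add_one_le_exp (1 / (d * lt d t))
        calc lt d (t + 1) = lt d t * (1 / (d * lt d t) + 1) := by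
              rw [e1]
              field_simp
              ring
          _ ≤ _ := mul_le_mul_of_nonneg_left this hlt0.le
      have h3 : c * lam t * (1 / m - 1 / lt d (t + 1)) ≤
          c * lam t * (1 / m - 1 / lt d t) + c * R / (d * lt d t) := by
        have e3 : c * lam t * (1 / m - 1 / lt d (t + 1)) =
            c * lam t * (1 / m - 1 / lt d t) + c * lam t * (1 / lt d t - 1 / lt d (t + 1)) := by
          ring
        have e4 : 1 / lt d t - 1 / lt d (t + 1) = 1 / (d * lt d t) * (1 / lt d (t + 1)) := by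
          rw [e1] at hlt1 ⊢
          field_simp
          ring
        have e5 : c * lam t * (1 / lt d t - 1 / lt d (t + 1)) ≤ c * R / (d * lt d t) := by
          rw [e4]
          have h4 : lam t * (1 / lt d (t + 1)) ≤ R := by
            rw [mul_one_div, div_le_iff₀ hlt1]
            refine hl2.trans (mul_le_mul_of_nonneg_left ?_ hR)
            linarith
          calc c * lam t * (1 / (d * lt d t) * (1 / lt d (t + 1))) =
              c * (lam t * (1 / lt d (t + 1))) * (1 / (d * lt d t)) := by ring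
            _ ≤ c * R * (1 / (d * lt d t)) := by gcongr
            _ = _ := by ring
        linarith
      have e6 : δ = 1 / (d * lt d t) + c * R / (d * lt d t) := by
        rw [hδ]; ring
      calc lt d (t + 1) / m * Real.exp (c * lam t * (1 / m - 1 / lt d (t + 1)))
          ≤ (lt d t * Real.exp (1 / (d * lt d t))) / m *
              Real.exp (c * lam t * (1 / m - 1 / lt d t) + c * R / (d * lt d t)) := by gcongr
        _ = (lt d t / m * Real.exp (c * lam t * (1 / m - 1 / lt d t))) * Real.exp δ := by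
            rw [e6, Real.exp_add, Real.exp_add]
            ring
        _ ≤ _ := by
            gcongr
            exact le_max_right _ _
  have hprod : ∏ m ∈ Finset.Icc x (lev d t), qE c lam d (t + 1) m ≤
      bE c lam d t x * Real.exp ((1 + c * R) / d) := by
    calc ∏ m ∈ Finset.Icc x (lev d t), qE c lam d (t + 1) m
        ≤ ∏ m ∈ Finset.Icc x (lev d t), (qE c lam d t m * Real.exp δ) :=
          Finset.prod_le_prod (fun m _ => (hq0 _ _).le) (fun m _ => hq m)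
      _ = bE c lam d t x * Real.exp ((Finset.Icc x (lev d t)).card * δ) := by
          rw [Finset.prod_mul_distrib, Finset.prod_const, Real.exp_nat_mul]
          rfl
      _ ≤ bE c lam d t x * Real.exp ((1 + c * R) / d) := by
          refine mul_le_mul_of_nonneg_left (Real.exp_le_exp.2 ?_)
            (zero_le_one.trans (one_le_bE c lam d t x))
          have h5 : ((Finset.Icc x (lev d t)).card : ℝ) ≤ lt d t := by
            refine le_trans ?_ (p7_lev_le_lt hd t)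
            rw [Nat.card_Icc]
            exact_mod_cast (show lev d t + 1 - x ≤ lev d t by omega)
          calc ((Finset.Icc x (lev d t)).card : ℝ) * δ ≤ lt d t * δ :=
                mul_le_mul_of_nonneg_right h5 hδ0
            _ = (1 + c * R) / d := by rw [hδ]; field_simp
  rcases Nat.lt_or_ge (t % d + 1) d with h1 | h1
  · have h2 := (p7_lev_same hd h1).1
    unfold bE at hprod ⊢
    rw [h2]
    exact hprod
  · have h3 : t % d < d := Nat.mod_lt _ (by omega)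
    obtain ⟨h4, h5⟩ := p7_lev_next (r := 1) hd h1 (by omega)
    have h6 : (t + 1) % d = 0 := by omega
    have h7 : lt d (t + 1) = lev d (t + 1) := by
      have h8 := Nat.div_add_mod (t + 1) d
      rw [h6, add_zero] at h8
      unfold lt lev
      have h9 : ((t + 1 : ℕ) : ℝ) = d * ((t + 1) / d : ℕ) := by exact_mod_cast h8.symm
      rw [h9]
      push_cast
      field_simp
      ring
    by_cases hxl : x ≤ lev d t + 1
    · have h8 : bE c lam d (t + 1) x =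
          (∏ m ∈ Finset.Icc x (lev d t), qE c lam d (t + 1) m) * qE c lam d (t + 1) (lev d t + 1) := by
        unfold bE
        rw [h4, Finset.prod_Icc_succ_top hxl]
      have h9 : qE c lam d (t + 1) (lev d t + 1) = 1 := by
        unfold qE
        rw [← h4, h7]
        have : (0 : ℝ) < lev d (t + 1) := by
          have := p7_one_le_lev d (t + 1)
          linarith
        rw [div_self this.ne', sub_self, mul_zero, Real.exp_zero, mul_one, max_self]
      rw [h8, h9, mul_one]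
      exact hprod
    · have h8 : bE c lam d (t + 1) x = 1 := by
        unfold bE
        rw [h4, Finset.Icc_eq_empty (by omega), Finset.prod_empty]
      rw [h8]
      have h10 := one_le_bE c lam d t x
      have h11 : 1 ≤ Real.exp ((1 + c * R) / d) := Real.one_le_exp (by positivity)
      nlinarith

/-! ### the data of the potential -/

/-- weight of a layer -/
noncomputable def d7lam (Y : ℝ → ℝ) (ℓ : ℝ) (T d t : ℕ) : ℝ :=
  d * d7U Y (lt d (min t T) / d) + ℓ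

/-- number of slots -/
noncomputable def d7bet (Y : ℝ → ℝ) (ℓ : ℝ) (d t : ℕ) : ℝ := d7B Y (lt d t / d) + ℓ / d

/-- the quantity `Pi` -/
noncomputable def d7Pi (Y : ℝ → ℝ) (d t : ℕ) : ℝ :=
  d * (Y (lt d (t + 2) / d) * (1 + d7B Y (lt d (t + 2) / d)))

/-- the weight, a bit larger -/
noncomputable def d7lh (Y : ℝ → ℝ) (ℓ R₁ : ℝ) (T d t : ℕ) : ℝ := d7lam Y ℓ T d t + 2 * R₁ / d

/-- logarithm of the factor in the recursion of `C` -/
noncomputable def d7P (Y : ℝ → ℝ) (c ℓ R₁ : ℝ) (T d t : ℕ) : ℝ :=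
  Real.log 2 + 2 * Real.log (1 + d7bet Y ℓ d t) +
    2 * (c * d7lh Y ℓ R₁ T d (t + 2) / lt d (t + 2) - Real.log (lt d (t + 2))) + Real.log d -
    Real.log (Y (lt d (t + 2) / d)) - Real.log (1 + d7B Y (lt d (t + 2) / d))

section S

variable {R : ℝ} {Y : ℝ → ℝ} {c ℓ R₁ : ℝ} {T d : ℕ}

theorem d7_lam_add (hY : YF R Y) (hR : 1 ≤ R) (hd : 1 ≤ d) (hR₁ : 5 * R ^ 3 ≤ R₁) (t r : ℕ) :
    |d7lam Y ℓ T d (t + r) - d7lam Y ℓ T d t| ≤ R₁ * r / d := by
  have hd0 : (0 : ℝ) < d := by exact_mod_cast hd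
  obtain ⟨r', hr', h1⟩ : ∃ r', r' ≤ r ∧ min (t + r) T = min t T + r' :=
    ⟨min (t + r) T - min t T, by omega, by omega⟩
  have h2 := d7_U_lip hY hR (d7_tau_pos hd (min t T))
    (d7_tau_mono (d := d) (show min t T ≤ min t T + r' by omega))
  rw [d7_tau_add hd] at h2
  unfold d7lam
  rw [h1]
  have e : (d : ℝ) * d7U Y (lt d (min t T + r') / d) + ℓ - (d * d7U Y (lt d (min t T) / d) + ℓ) =
      d * (d7U Y (lt d (min t T + r') / d) - d7U Y (lt d (min t T) / d)) := by ring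
  rw [e, abs_mul, abs_of_pos hd0]
  have hR3 : 0 ≤ R ^ 3 := by positivity
  have hR10 : 0 ≤ R₁ := by linarith
  have hr'' : (r' : ℝ) ≤ r := by exact_mod_cast hr'
  calc (d : ℝ) * |d7U Y (lt d (min t T + r') / d) - d7U Y (lt d (min t T) / d)|
      ≤ d * (5 * R ^ 3 * (r' / (d : ℝ) ^ 2)) := mul_le_mul_of_nonneg_left h2 hd0.le
    _ = 5 * R ^ 3 * r' / d := by field_simp
    _ ≤ R₁ * r / d := by gcongr

theorem d7_lam_ge (hY : YF R Y) (hR : 1 ≤ R) (hd : 1 ≤ d) (t : ℕ) : ℓ ≤ d7lam Y ℓ T d t := by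
  have h1 := d7_U_nonneg hY hR (d7_tau_pos hd (min t T))
  unfold d7lam
  have : 0 ≤ (d : ℝ) * d7U Y (lt d (min t T) / d) := by positivity
  linarith

theorem d7_lam_le (hY : YF R Y) (hR : 1 ≤ R) (hd : 1 ≤ d) (hR₁ : 5 * R ^ 3 ≤ R₁) (hℓ : 0 ≤ ℓ)
    (t : ℕ) : d7lam Y ℓ T d t ≤ (R₁ + ℓ) * lt d t := by
  have hd0 : (0 : ℝ) < d := by exact_mod_cast hd
  have h1 := d7_U_le hY hR (d7_tau_pos hd (min t T))
  have h2 := p7_one_le_lt d t
  have h3 : lt d (min t T) ≤ lt d t := d7_lt_mono (min_le_left _ _)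
  have h4 := p7_one_le_lt d (min t T)
  have hR3 : 0 ≤ R ^ 3 := by positivity
  unfold d7lam
  have h5 : (d : ℝ) * d7U Y (lt d (min t T) / d) ≤ R₁ * lt d t := by
    calc (d : ℝ) * d7U Y (lt d (min t T) / d) ≤ d * (5 * R ^ 3 * (lt d (min t T) / d)) :=
          mul_le_mul_of_nonneg_left h1 hd0.le
      _ = 5 * R ^ 3 * lt d (min t T) := by field_simp
      _ ≤ R₁ * lt d t := mul_le_mul hR₁ h3 (by linarith) (by linarith)
  have h6 : ℓ ≤ ℓ * lt d t := by nlinarith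
  linarith

theorem d7_lamOK (hY : YF R Y) (hR : 1 ≤ R) (hd : 1 ≤ d) (hR₁ : 5 * R ^ 3 ≤ R₁) (hℓ : 0 ≤ ℓ) :
    LamOK (3 * R₁ + ℓ) d (d7lh Y ℓ R₁ T d) := by
  have hd0 : (0 : ℝ) < d := by exact_mod_cast hd
  have hd1 : (1 : ℝ) ≤ d := by exact_mod_cast hd
  have hR3 : 0 ≤ R ^ 3 := by positivity
  have hR10 : 0 ≤ R₁ := by linarith
  refine ⟨fun t => ?_, fun t => ?_, fun t => ?_⟩
  · have h1 := d7_lam_ge (ℓ := ℓ) (T := T) hY hR hd t
    unfold d7lh
    have h2 : 0 ≤ 2 * R₁ / d := by positivity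
    linarith
  · have h1 := d7_lam_le (ℓ := ℓ) (T := T) hY hR hd hR₁ hℓ t
    have h2 := p7_one_le_lt d t
    unfold d7lh
    have h3 : 2 * R₁ / d ≤ 2 * R₁ * lt d t := by
      rw [div_le_iff₀ hd0]
      have : 0 ≤ 2 * R₁ * lt d t := by positivity
      nlinarith
    linarith
  · have h1 := d7_lam_add (ℓ := ℓ) (T := T) hY hR hd hR₁ t 1
    unfold d7lh
    have e : d7lam Y ℓ T d (t + 1) + 2 * R₁ / d - (d7lam Y ℓ T d t + 2 * R₁ / d) =
        d7lam Y ℓ T d (t + 1) - d7lam Y ℓ T d t := by ring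
    rw [e]
    refine h1.trans ?_
    push_cast
    rw [mul_one]
    gcongr
    linarith

theorem d7_WE_pos (c : ℝ) (lam : ℕ → ℝ) (d t : ℕ) : 0 < WE c lam d t := by
  have h := p7_one_le_lt d (t + 2)
  unfold WE
  positivity

theorem d7_bet_nonneg (hY : YF R Y) (hR : 1 ≤ R) (hd : 1 ≤ d) (hℓ : 0 ≤ ℓ) (t : ℕ) :
    0 ≤ d7bet Y ℓ d t := by
  have h1 := d7_B_nonneg hY hR (d7_tau_pos hd t)
  unfold d7bet
  positivity

theorem d7_Pi_pos (hY : YF R Y) (hR : 1 ≤ R) (hd : 1 ≤ d) (t : ℕ) : 0 < d7Pi Y d t := by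
  have h1 := d7_B_nonneg hY hR (d7_tau_pos hd (t + 2))
  have h2 := d7_Y_pos hY hR (d7_tau_pos hd (t + 2))
  have hd0 : (0 : ℝ) < d := by exact_mod_cast hd
  unfold d7Pi
  positivity

theorem d7_B_bet (hY : YF R Y) (hR : 1 ≤ R) (hd : 1 ≤ d) (hℓ : 4 * R ^ 3 ≤ ℓ) (t : ℕ) :
    d7B Y (lt d (t + 2) / d) ≤ d7bet Y ℓ d t := by
  have hd1 : (1 : ℝ) ≤ d := by exact_mod_cast hd
  have h1 := d7_B_lip hY hR (d7_tau_pos hd t) (d7_tau_mono (d := d) (show t ≤ t + 2 by omega))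
  rw [d7_tau_add hd] at h1
  have h2 := (le_abs_self _).trans h1
  have h3 : 2 * R ^ 3 * (((2 : ℕ) : ℝ) / (d : ℝ) ^ 2) ≤ ℓ / d := by
    push_cast
    have hR3 : 0 ≤ R ^ 3 := by positivity
    have hℓ0 : 0 ≤ ℓ := by linarith
    have hinv : 1 / (d : ℝ) ≤ 1 := by
      rw [div_le_one (by linarith)]
      exact hd1
    calc 2 * R ^ 3 * (2 / (d : ℝ) ^ 2) = 4 * R ^ 3 / d * (1 / d) := by field_simp; ring
      _ ≤ ℓ / d * 1 := by
          refine mul_le_mul (by gcongr) hinv (by positivity) (by positivity)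
      _ = ℓ / d := mul_one _
  unfold d7bet
  linarith

theorem d7_exp_P (hY : YF R Y) (hR : 1 ≤ R) (hd : 1 ≤ d) (hℓ : 0 ≤ ℓ) (t : ℕ) :
    d7Pi Y d t * Real.exp (d7P Y c ℓ R₁ T d t) =
      2 * (1 + d7bet Y ℓ d t) ^ 2 * (d * WE c (d7lh Y ℓ R₁ T d) d t) ^ 2 := by
  have hd0 : (0 : ℝ) < d := by exact_mod_cast hd
  have h1 := d7_B_nonneg hY hR (d7_tau_pos hd (t + 2))
  have h2 := d7_Y_pos hY hR (d7_tau_pos hd (t + 2))
  have h3 := d7_bet_nonneg hY hR hd hℓ t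
  have h4 := d7_Pi_pos hY hR hd t
  have h5 := d7_WE_pos c (d7lh Y ℓ R₁ T d) d t
  have h6 := p7_one_le_lt d (t + 2)
  have hW : Real.log (WE c (d7lh Y ℓ R₁ T d) d t) =
      c * d7lh Y ℓ R₁ T d (t + 2) / lt d (t + 2) - Real.log (lt d (t + 2)) := by
    unfold WE
    rw [Real.log_div (Real.exp_ne_zero _) (by linarith), Real.log_exp]
  have hPi : Real.log (d7Pi Y d t) = Real.log d + (Real.log (Y (lt d (t + 2) / d)) +
      Real.log (1 + d7B Y (lt d (t + 2) / d))) := by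
    unfold d7Pi
    rw [Real.log_mul hd0.ne' (by positivity), Real.log_mul h2.ne' (by positivity)]
  have hA : 0 < 2 * (1 + d7bet Y ℓ d t) ^ 2 * (d * WE c (d7lh Y ℓ R₁ T d) d t) ^ 2 := by
    positivity
  have hlog : Real.log (2 * (1 + d7bet Y ℓ d t) ^ 2 * (d * WE c (d7lh Y ℓ R₁ T d) d t) ^ 2) =
      Real.log (d7Pi Y d t) + d7P Y c ℓ R₁ T d t := by
    rw [hPi, Real.log_mul (by positivity) (by positivity), Real.log_mul (by norm_num)
      (by positivity), Real.log_pow, Real.log_pow, Real.log_mul hd0.ne' h5.ne', hW]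
    unfold d7P
    push_cast
    ring
  rw [← Real.exp_log h4, ← Real.exp_add, ← hlog, Real.exp_log hA]

/-- the factors increase -/
theorem d7_P_succ (hY : YF R Y) (hR : 1 ≤ R) (hd : 1 ≤ d) (hR₁ : 5 * R ^ 3 ≤ R₁) (hℓ : 0 ≤ ℓ)
    (hc : 0 ≤ c) (hc2 : c ≤ 2) (t : ℕ) :
    d7P Y c ℓ R₁ T d t ≤ d7P Y c ℓ R₁ T d (t + 1) +
      (12 * R ^ 4 + R ^ 2 + 2 + 4 * (4 * R₁ + ℓ)) / (d * lt d t) := by
  have hd0 : (0 : ℝ) < d := by exact_mod_cast hd
  have hd1 : (1 : ℝ) ≤ d := by exact_mod_cast hd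
  have hlt := p7_one_le_lt d t
  have hlt2 := p7_one_le_lt d (t + 2)
  have hlt3 := p7_one_le_lt d (t + 3)
  have hm2 : lt d t ≤ lt d (t + 2) := d7_lt_mono (by omega)
  have hR3 : 0 ≤ R ^ 3 := by positivity
  have hR10 : 0 ≤ R₁ := by linarith
  have hR4 : 0 ≤ R ^ 4 := by positivity
  have e3 : lt d (t + 3) = lt d (t + 2) + 1 / d := by
    have := p7_lt_add d (t + 2) 1
    push_cast at this
    exact this
  have hu : 1 / ((d : ℝ) * lt d (t + 2)) ≤ 1 / (d * lt d t) := by gcongr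
  have hu0 : 0 < 1 / ((d : ℝ) * lt d t) := by positivity
  -- bet
  have t1 : Real.log (1 + d7bet Y ℓ d t) - Real.log (1 + d7bet Y ℓ d (t + 1)) ≤
      4 * R ^ 4 * (1 / (d * lt d t)) := by
    have h1 := d7_log_B (e := ℓ / d) hY hR (d7_tau_pos hd t)
      (d7_tau_mono (d := d) (show t ≤ t + 1 by omega)) (by positivity)
    rw [d7_frac hd] at h1
    push_cast at h1
    have h2 := (abs_le.1 h1).1
    unfold d7bet
    linarith
  -- B
  have t2 : Real.log (1 + d7B Y (lt d (t + 3) / d)) - Real.log (1 + d7B Y (lt d (t + 2) / d)) ≤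
      4 * R ^ 4 * (1 / (d * lt d t)) := by
    have h1 := d7_log_B (e := 0) hY hR (d7_tau_pos hd (t + 2))
      (d7_tau_mono (d := d) (show t + 2 ≤ t + 2 + 1 by omega)) le_rfl
    rw [d7_frac hd] at h1
    push_cast at h1
    simp only [add_zero] at h1
    have h2 := (abs_le.1 h1).2
    have h3 : 4 * R ^ 4 * (1 / ((d : ℝ) * lt d (t + 2))) ≤ 4 * R ^ 4 * (1 / (d * lt d t)) :=
      mul_le_mul_of_nonneg_left hu (by positivity)
    linarith
  -- Y
  have t3 : Real.log (Y (lt d (t + 3) / d)) - Real.log (Y (lt d (t + 2) / d)) ≤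
      R ^ 2 * (1 / (d * lt d t)) := by
    have h1 := d7_log_Y hY hR (d7_tau_pos hd (t + 2))
      (d7_tau_mono (d := d) (show t + 2 ≤ t + 2 + 1 by omega))
    rw [d7_frac hd] at h1
    push_cast at h1
    have h2 := (abs_le.1 h1).2
    have h3 : R ^ 2 * (1 / ((d : ℝ) * lt d (t + 2))) ≤ R ^ 2 * (1 / (d * lt d t)) :=
      mul_le_mul_of_nonneg_left hu (by positivity)
    linarith
  -- lt
  have t4 : Real.log (lt d (t + 3)) - Real.log (lt d (t + 2)) ≤ 1 / (d * lt d t) := by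
    have h1 := p7_log_sub (a := lt d (t + 2)) (b := lt d (t + 3)) (by linarith) (by linarith)
    refine h1.trans ?_
    rw [e3, add_sub_cancel_left, div_div]
    exact hu
  -- lam
  have t5 : c * d7lh Y ℓ R₁ T d (t + 2) / lt d (t + 2) -
      c * d7lh Y ℓ R₁ T d (t + 3) / lt d (t + 3) ≤ 2 * (4 * R₁ + ℓ) * (1 / (d * lt d t)) := by
    have hOK := d7_lamOK (T := T) hY hR hd hR₁ hℓ
    have h1 := d7_lam_add (ℓ := ℓ) (T := T) hY hR hd hR₁ (t + 2) 1
    push_cast at h1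
    have h2 := (abs_le.1 h1).1
    have h3 : d7lh Y ℓ R₁ T d (t + 2) ≤ d7lh Y ℓ R₁ T d (t + 3) + R₁ / d := by
      unfold d7lh
      rw [mul_one] at h2
      linarith
    have h4 := hOK.nonneg (t + 3)
    have h5 := hOK.le (t + 3)
    have h6 : c * d7lh Y ℓ R₁ T d (t + 2) / lt d (t + 2) ≤
        c * (d7lh Y ℓ R₁ T d (t + 3) + R₁ / d) / lt d (t + 2) := by gcongr
    have h7 : c * (d7lh Y ℓ R₁ T d (t + 3) + R₁ / d) / lt d (t + 2) -
        c * d7lh Y ℓ R₁ T d (t + 3) / lt d (t + 3) =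
        c * ((d7lh Y ℓ R₁ T d (t + 3) / lt d (t + 3) + R₁) * (1 / (d * lt d (t + 2)))) := by
      have : 0 < lt d (t + 2) := by linarith
      have : 0 < lt d (t + 3) := by linarith
      rw [e3] at *
      field_simp
      ring
    have h8 : d7lh Y ℓ R₁ T d (t + 3) / lt d (t + 3) ≤ 3 * R₁ + ℓ := by
      rw [div_le_iff₀ (by linarith)]
      exact h5
    have h9 : c * ((d7lh Y ℓ R₁ T d (t + 3) / lt d (t + 3) + R₁) * (1 / (d * lt d (t + 2)))) ≤
        2 * ((3 * R₁ + ℓ + R₁) * (1 / (d * lt d t))) := by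
      have h10 : 0 ≤ d7lh Y ℓ R₁ T d (t + 3) / lt d (t + 3) := by positivity
      gcongr
    calc _ ≤ 2 * ((3 * R₁ + ℓ + R₁) * (1 / (d * lt d t))) := by linarith
      _ = _ := by ring
  have e : (12 * R ^ 4 + R ^ 2 + 2 + 4 * (4 * R₁ + ℓ)) / (d * lt d t) =
      2 * (4 * R ^ 4 * (1 / (d * lt d t))) + 4 * R ^ 4 * (1 / (d * lt d t)) +
      R ^ 2 * (1 / (d * lt d t)) + 2 * (1 / (d * lt d t)) +
      2 * (2 * (4 * R₁ + ℓ) * (1 / (d * lt d t))) := by ring
  unfold d7P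
  rw [e, show t + 1 + 2 = t + 3 by ring]
  linarith

/-- lower bound for the factors -/
theorem d7_neg_P (hY : YF R Y) (hR : 1 ≤ R) (hd : 2 ≤ d) (hR₁ : 5 * R ^ 3 ≤ R₁)
    (hℓ : 4 * R ^ 3 ≤ ℓ) (hc : 0 ≤ c) {t : ℕ} (ht : t ≤ d ^ 3) :
    -d7P Y c ℓ R₁ T d t ≤ 6 * Real.log d := by
  have hd1 : 1 ≤ d := by omega
  have hd2 : (2 : ℝ) ≤ d := by exact_mod_cast hd
  have hd0 : (0 : ℝ) < d := by linarith
  have hR3 : 0 ≤ R ^ 3 := by positivity
  have hℓ0 : 0 ≤ ℓ := by linarith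
  have h1 := d7_B_bet hY hR hd1 hℓ t
  have h2 := d7_B_nonneg hY hR (d7_tau_pos hd1 (t + 2))
  have h3 : Real.log (1 + d7B Y (lt d (t + 2) / d)) ≤ Real.log (1 + d7bet Y ℓ d t) :=
    Real.log_le_log (by linarith) (by linarith)
  have h4 : 0 ≤ Real.log (1 + d7bet Y ℓ d t) := Real.log_nonneg (by linarith)
  have h5 : Real.log (Y (lt d (t + 2) / d)) ≤ 0 :=
    Real.log_nonpos (d7_Y_pos hY hR (d7_tau_pos hd1 (t + 2))).le
      (d7_Y_lt_one hY hR (d7_tau_pos hd1 (t + 2))).le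
  have h6 := p7_one_le_lt d (t + 2)
  have h7 : 0 ≤ c * d7lh Y ℓ R₁ T d (t + 2) / lt d (t + 2) := by
    have := (d7_lamOK (T := T) hY hR hd1 hR₁ hℓ0).nonneg (t + 2)
    positivity
  have h8 : Real.log (lt d (t + 2)) ≤ 3 * Real.log d := by
    have h9 : lt d (t + 2) ≤ (d : ℝ) ^ 3 := by
      have ht' : (t : ℝ) ≤ (d : ℝ) ^ 3 := by exact_mod_cast ht
      have e : lt d (t + 2) = 1 + t / d + 2 / d := by
        unfold lt
        push_cast
        ring
      have h10 : (t : ℝ) / d ≤ (d : ℝ) ^ 2 := by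
        rw [div_le_iff₀ hd0]
        calc (t : ℝ) ≤ (d : ℝ) ^ 3 := ht'
          _ = (d : ℝ) ^ 2 * d := by ring
      have h11 : 2 / (d : ℝ) ≤ 1 := by
        rw [div_le_one hd0]
        exact hd2
      rw [e]
      nlinarith [mul_nonneg (sq_nonneg (d : ℝ)) (show (0 : ℝ) ≤ d - 2 by linarith)]
    have h12 := Real.log_le_log (by linarith) h9
    rw [Real.log_pow] at h12
    push_cast at h12
    exact h12
  have h13 : 0 ≤ Real.log 2 := Real.log_nonneg (by norm_num)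
  have h14 : 0 ≤ Real.log d := Real.log_nonneg (by linarith)
  unfold d7P
  linarith

/-- the value of the factors -/
theorem d7_P_le (hY : YF R Y) (hR : 1 ≤ R) (hd : 1 ≤ d) (hR₁ : 5 * R ^ 3 ≤ R₁) (hℓ : 0 ≤ ℓ)
    {η : ℝ} (hη : 0 ≤ η) (hη1 : η ≤ 1 / 10) {t : ℕ} (ht : t + 2 ≤ T) :
    d7P Y (1 + 3 * η) ℓ R₁ T d t ≤
      Real.log (2 * d * gY (Y (lt d t / d)) (lt d t / d) / lt d t ^ 2) + 6 * η * R₁ +
        (2 * ℓ + 2 * R ^ 2 + 8 * R ^ 4) / d + 4 * (ℓ + 4 * R₁) / lt d t := by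
  have hd0 : (0 : ℝ) < d := by exact_mod_cast hd
  have hd1 : (1 : ℝ) ≤ d := by exact_mod_cast hd
  have hlt := p7_one_le_lt d t
  have hlt2 := p7_one_le_lt d (t + 2)
  have hm2 : lt d t ≤ lt d (t + 2) := d7_lt_mono (by omega)
  have hτ := d7_tau_pos hd t
  have hR3 : 0 ≤ R ^ 3 := by positivity
  have hR10 : 0 ≤ R₁ := by linarith
  have hB := d7_B_nonneg hY hR hτ
  have hYp := d7_Y_pos hY hR hτ
  have hY1 := (d7_Y_one hY hR hτ).1
  have hg : 0 < gY (Y (lt d t / d)) (lt d t / d) := by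
    unfold gY
    positivity
  have hG : Real.log (2 * d * gY (Y (lt d t / d)) (lt d t / d) / lt d t ^ 2) =
      Real.log 2 + Real.log d + (Real.log (1 + d7B Y (lt d t / d)) - Real.log (Y (lt d t / d)) +
        2 * d7U Y (lt d t / d) / (lt d t / d)) - 2 * Real.log (lt d t) := by
    rw [Real.log_div (by positivity) (by positivity), Real.log_mul (by positivity) hg.ne',
      Real.log_mul (by norm_num) hd0.ne', Real.log_pow, d7_gY hY hR hτ]
    push_cast
    ring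
  have hdl : 1 / ((d : ℝ) * lt d t) ≤ 1 / d := by
    rw [div_le_div_iff_of_pos_left one_pos (by positivity) hd0]
    nlinarith
  -- bet
  have t1 : Real.log (1 + d7bet Y ℓ d t) - Real.log (1 + d7B Y (lt d t / d)) ≤ ℓ / d := by
    have h1 := p7_log_sub (a := 1 + d7B Y (lt d t / d)) (b := 1 + d7bet Y ℓ d t) (by linarith)
      (by unfold d7bet; positivity)
    refine h1.trans ?_
    have e : 1 + d7bet Y ℓ d t - (1 + d7B Y (lt d t / d)) = ℓ / d := by
      unfold d7bet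
      ring
    rw [e]
    exact div_le_self (by positivity) (by linarith)
  -- B
  have t2 : Real.log (1 + d7B Y (lt d t / d)) - Real.log (1 + d7B Y (lt d (t + 2) / d)) ≤
      8 * R ^ 4 * (1 / d) := by
    have h1 := d7_log_B (e := 0) hY hR hτ (d7_tau_mono (d := d) (show t ≤ t + 2 by omega)) le_rfl
    rw [d7_frac hd] at h1
    push_cast at h1
    simp only [add_zero] at h1
    have h2 := (abs_le.1 h1).1
    have e : 4 * R ^ 4 * (2 / ((d : ℝ) * lt d t)) = 8 * R ^ 4 * (1 / (d * lt d t)) := by ring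
    have h3 : 8 * R ^ 4 * (1 / ((d : ℝ) * lt d t)) ≤ 8 * R ^ 4 * (1 / d) :=
      mul_le_mul_of_nonneg_left hdl (by positivity)
    linarith
  have t3 : Real.log (Y (lt d t / d)) - Real.log (Y (lt d (t + 2) / d)) ≤
      2 * R ^ 2 * (1 / d) := by
    have h1 := d7_log_Y hY hR hτ (d7_tau_mono (d := d) (show t ≤ t + 2 by omega))
    rw [d7_frac hd] at h1
    push_cast at h1
    have h2 := (abs_le.1 h1).1
    have e : R ^ 2 * (2 / ((d : ℝ) * lt d t)) = 2 * R ^ 2 * (1 / (d * lt d t)) := by ring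
    have h3 : 2 * R ^ 2 * (1 / ((d : ℝ) * lt d t)) ≤ 2 * R ^ 2 * (1 / d) :=
      mul_le_mul_of_nonneg_left hdl (by positivity)
    linarith
  have t4 : Real.log (lt d t) ≤ Real.log (lt d (t + 2)) := Real.log_le_log (by linarith) hm2
  have t5 : (1 + 3 * η) * d7lh Y ℓ R₁ T d (t + 2) / lt d (t + 2) -
      d7U Y (lt d t / d) / (lt d t / d) ≤ 3 * η * R₁ + 2 * (ℓ + 4 * R₁) / lt d t := by
    have hOK := d7_lamOK (T := T) hY hR hd hR₁ hℓ
    have h1 := d7_lam_add (ℓ := ℓ) (T := T) hY hR hd hR₁ t 2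
    push_cast at h1
    have h2 := (abs_le.1 h1).2
    have h3 : d7lh Y ℓ R₁ T d (t + 2) ≤ d * d7U Y (lt d t / d) + (ℓ + 4 * R₁) := by
      have e : d7lam Y ℓ T d t = d * d7U Y (lt d t / d) + ℓ := by
        unfold d7lam
        rw [min_eq_left (by omega)]
      have h4 : 2 * R₁ / d ≤ 2 * R₁ := div_le_self (by positivity) hd1
      have h5 : R₁ * 2 / d ≤ 2 * R₁ := by
        rw [mul_comm R₁ 2]
        exact h4
      unfold d7lh
      rw [e] at h2
      linarith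
    have h4 := hOK.nonneg (t + 2)
    have h6 : (1 + 3 * η) * d7lh Y ℓ R₁ T d (t + 2) / lt d (t + 2) ≤
        (1 + 3 * η) * (d * d7U Y (lt d t / d) + (ℓ + 4 * R₁)) / lt d t := by
      have h7 : 0 ≤ (1 + 3 * η) * d7lh Y ℓ R₁ T d (t + 2) := by positivity
      calc (1 + 3 * η) * d7lh Y ℓ R₁ T d (t + 2) / lt d (t + 2)
          ≤ (1 + 3 * η) * d7lh Y ℓ R₁ T d (t + 2) / lt d t :=
            div_le_div_of_nonneg_left h7 (by linarith) hm2
        _ ≤ _ := by gcongr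
    have h8 : d7U Y (lt d t / d) / (lt d t / d) = d * d7U Y (lt d t / d) / lt d t := by
      field_simp
    have h9 : d * d7U Y (lt d t / d) / lt d t ≤ R₁ := by
      rw [← h8, div_le_iff₀ hτ]
      refine (d7_U_le hY hR hτ).trans ?_
      gcongr
    have e2 : (1 + 3 * η) * (d * d7U Y (lt d t / d) + (ℓ + 4 * R₁)) / lt d t =
        d * d7U Y (lt d t / d) / lt d t + 3 * η * (d * d7U Y (lt d t / d) / lt d t) +
          (1 + 3 * η) * (ℓ + 4 * R₁) / lt d t := by ring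
    have h10 : 3 * η * (d * d7U Y (lt d t / d) / lt d t) ≤ 3 * η * R₁ :=
      mul_le_mul_of_nonneg_left h9 (by positivity)
    have h11 : (1 + 3 * η) * (ℓ + 4 * R₁) / lt d t ≤ 2 * (ℓ + 4 * R₁) / lt d t := by
      gcongr
      linarith
    rw [h8]
    linarith
  have e : (2 * ℓ + 2 * R ^ 2 + 8 * R ^ 4) / d = 2 * (ℓ / d) + 2 * R ^ 2 * (1 / d) +
      8 * R ^ 4 * (1 / d) := by ring
  have e' : 4 * (ℓ + 4 * R₁) / lt d t = 2 * (2 * (ℓ + 4 * R₁) / lt d t) := by ring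
  rw [hG, e, e']
  unfold d7P
  have e5 : 2 * d7U Y (lt d t / d) / (lt d t / d) = 2 * (d7U Y (lt d t / d) / (lt d t / d)) := by
    ring
  rw [e5]
  linarith

end S

/-! ### the constants `C` -/

section C

variable {a J : ℕ → ℝ} {Lam B : ℝ} {m1 d k : ℕ}

/-- one term of the exponent -/
noncomputable def d7b (a J : ℕ → ℝ) (Lam : ℝ) (m1 s : ℕ) : ℝ :=
  a s + J s + if s < m1 then Lam else 0

/-- the constants `C` -/
noncomputable def d7C (a J : ℕ → ℝ) (Lam B : ℝ) (m1 k t : ℕ) : ℝ :=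
  Real.exp (B + ∑ s ∈ Finset.Ico t k, d7b a J Lam m1 s)

theorem d7_a_le_b (hJ : ∀ s, 0 ≤ J s) (s : ℕ) :
    a s + (if s < m1 then Lam else 0) ≤ d7b a J Lam m1 s := by
  unfold d7b
  linarith [hJ s]

theorem d7_a_le_b' (hJ : ∀ s, 0 ≤ J s) (hLam : 0 ≤ Lam) (s : ℕ) :
    a s + J s ≤ d7b a J Lam m1 s := by
  unfold d7b
  have h2 : 0 ≤ if s < m1 then Lam else 0 := by
    split_ifs
    · exact hLam
    · exact le_rfl
  linarith

theorem d7_recC (hJ : ∀ s, 0 ≤ J s) (hLam : 0 ≤ Lam) {t : ℕ} (ht : t + 2 < k)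
    (ha : a t ≤ a (t + 1) + J t) :
    d7C a J Lam B m1 k (t + 2) * Real.exp (2 * a t) ≤ d7C a J Lam B m1 k t := by
  unfold d7C
  rw [← Real.exp_add, Real.exp_le_exp, Finset.sum_eq_sum_Ico_succ_bot (show t < k by omega),
    Finset.sum_eq_sum_Ico_succ_bot (show t + 1 < k by omega)]
  have h1 := d7_a_le_b' (a := a) (m1 := m1) hJ hLam t
  have h2 := d7_a_le_b' (a := a) (m1 := m1) hJ hLam (t + 1)
  have h3 := hJ (t + 1)
  linarith

theorem d7_ratioC (hJ : ∀ s, 0 ≤ J s) {c₁ L : ℝ} (hm1 : ∀ t : ℕ, (t : ℝ) < Lam → t < m1)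
    (hLam : 0 ≤ Lam) {t : ℕ} (ht : t + 1 < k)
    (ha : -a t ≤ (L - sfun d t) / 2 + c₁ * Real.log d) :
    d7C a J Lam B m1 k (t + 1) ≤ d7C a J Lam B m1 k t *
      Real.exp ((L - sfun d t) / 2 + c₁ * Real.log d - if (t : ℝ) < Lam then Lam else 0) := by
  unfold d7C
  rw [← Real.exp_add, Real.exp_le_exp, Finset.sum_eq_sum_Ico_succ_bot (show t < k by omega)]
  have h2 := d7_a_le_b (a := a) (Lam := Lam) (m1 := m1) hJ t
  have h3 : (if (t : ℝ) < Lam then Lam else 0) ≤ if t < m1 then Lam else 0 := by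
    by_cases h : (t : ℝ) < Lam
    · rw [if_pos h, if_pos (hm1 t h)]
    · rw [if_neg h]
      split_ifs
      · exact hLam
      · exact le_rfl
  linarith

theorem d7_endC (hJ : ∀ s, 0 ≤ J s) {c₁ L : ℝ} (hd : 2 ≤ d) (hc₁ : 0 ≤ c₁)
    (hL : sfun d k ≤ L) (hLam : 0 ≤ Lam)
    (ha : ∀ s, s < k → -a s ≤ (L - sfun d s) / 2 + c₁ * Real.log d) {t : ℕ}
    (ht : t + 1 = k ∨ t + 2 = k) :
    1 ≤ d7C a J Lam ((L - sfun d k) + 2 * (c₁ * Real.log d) + 2) m1 k t := by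
  have hd2 : (2 : ℝ) ≤ d := by exact_mod_cast hd
  have hlog2 := Real.log_two_lt_d9
  have hlogd : 0 ≤ Real.log d := Real.log_nonneg (by linarith)
  have hc₁0 : 0 ≤ c₁ * Real.log d := mul_nonneg hc₁ hlogd
  have hbd : ∀ s, s < k → -d7b a J Lam m1 s ≤ (L - sfun d s) / 2 + c₁ * Real.log d := by
    intro s hs
    have h1 := ha s hs
    have h2 := d7_a_le_b' (a := a) (m1 := m1) hJ hLam s
    have h3 := hJ s
    linarith
  unfold d7C
  refine Real.one_le_exp ?_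
  rcases ht with ht | ht
  · subst ht
    rw [Finset.sum_eq_sum_Ico_succ_bot (by omega), Finset.Ico_self, Finset.sum_empty]
    have h1 := hbd t (by omega)
    have h2 := sfun_add_le d t 1 (by omega)
    push_cast at h2
    linarith
  · subst ht
    rw [Finset.sum_eq_sum_Ico_succ_bot (by omega), Finset.sum_eq_sum_Ico_succ_bot (by omega),
      Finset.Ico_self, Finset.sum_empty]
    have h1 := hbd t (by omega)
    have h1' := hbd (t + 1) (by omega)
    have h2 := sfun_add_le d t 2 (by omega)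
    have h3 := sfun_add_le d (t + 1) 1 (by omega)
    push_cast at h2 h3
    rw [show t + 1 + 1 = t + 2 by ring] at h3
    linarith

end C

/-! ### the result -/

theorem d7_log_ratio {d : ℕ} (hd : 2 ≤ d) : 1 / 2 ≤ Real.log d := by
  have h1 : Real.log 2 ≤ Real.log d := Real.log_le_log (by norm_num) (by exact_mod_cast hd)
  have h2 := Real.log_two_gt_d9
  linarith

theorem exists_PE (ε R : ℝ) (hε0 : 0 < ε) (hε1 : ε ≤ 1) (hR : 1 ≤ R) :
    ∃ η R' c₁ : ℝ, 0 < η ∧ η ≤ 1 / 10 ∧ η ≤ ε ∧ 1 ≤ R' ∧ 0 ≤ c₁ ∧ ∀ c₃ : ℝ, 0 ≤ c₃ →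
      ∃ C : ℝ, 0 ≤ C ∧ ∃ D₀ : ℕ, ∀ (d k : ℕ) (L : ℝ) (Y : ℝ → ℝ),
        D₀ ≤ d → d ≤ k → k ≤ d ^ 3 → sfun d k ≤ L → YF R Y →
        ∃ (lam bet Pi W nu C' : ℕ → ℝ) (F : ℕ → ℕ → ℝ),
          PE d k L η R' c₁ c₃ lam bet Pi W nu C' F ∧ lam 0 ≤ C ∧
          C' 0 * F 0 1 ^ d ≤ Real.exp (∑ t ∈ Finset.range k, (sfun d t - L +
            Real.log (2 * d * gY (Y (lt d t / d)) (lt d t / d) / lt d t ^ 2)) / 2 +
            ε * k + C * (d * Real.log d) + (L - sfun d k)) := by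
  have hR3 : 1 ≤ R ^ 3 := one_le_pow₀ hR
  obtain ⟨R₁, hR₁⟩ : ∃ R₁ : ℝ, R₁ = 5 * R ^ 3 := ⟨_, rfl⟩
  have hR₁5 : 5 ≤ R₁ := by linarith
  have hR₁' : 5 * R ^ 3 ≤ R₁ := hR₁.ge
  obtain ⟨η, hη⟩ : ∃ η : ℝ, η = ε / (100 * R₁) := ⟨_, rfl⟩
  have hη0 : 0 < η := by rw [hη]; positivity
  have hηR : 100 * (η * R₁) = ε := by rw [hη]; field_simp
  have hηε : 500 * η ≤ ε := by nlinarith
  have hη1 : η ≤ 1 / 10 := by linarith
  obtain ⟨ℓ, hℓ⟩ : ∃ ℓ : ℝ, ℓ = 10 * R₁ / η := ⟨_, rfl⟩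
  have hηℓ : η * ℓ = 10 * R₁ := by rw [hℓ]; field_simp
  have hℓR : R₁ ≤ ℓ := by
    rw [hℓ, le_div_iff₀ hη0]
    nlinarith
  have hℓ1 : 1 ≤ ℓ := by linarith
  have hℓ0 : 0 ≤ ℓ := by linarith
  have hℓR3 : 4 * R ^ 3 ≤ ℓ := by linarith
  have hc0 : 0 ≤ 1 + 3 * η := by linarith
  have hc2 : 1 + 3 * η ≤ 2 := by linarith
  obtain ⟨R₂, hR₂⟩ : ∃ R₂ : ℝ, R₂ = 3 * R₁ + ℓ := ⟨_, rfl⟩
  have hR₂1 : 1 ≤ R₂ := by linarith
  obtain ⟨Cb, hCb0, hCb⟩ := bE_add_one (1 + 3 * η) R₂ hc0 hc2 hR₂1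
  obtain ⟨c₁, hc₁⟩ : ∃ c₁ : ℝ, c₁ = 10 + Cb + 4 * R₂ := ⟨_, rfl⟩
  have hc₁0 : 0 ≤ c₁ := by linarith
  obtain ⟨R', hR'⟩ : ∃ R' : ℝ, R' = Real.exp (2 * R₂) + 7 * R + ℓ + R₁ := ⟨_, rfl⟩
  have hexp0 := Real.exp_pos (2 * R₂)
  have hR'1 : 1 ≤ R' := by linarith
  have hR'e : Real.exp (2 * R₂) ≤ R' := by linarith
  refine ⟨η, R', c₁, hη0, hη1, by linarith, hR'1, hc₁0, fun c₃ hc₃ => ?_⟩
  obtain ⟨C₀, hC₀, l₀, D₁, hb2⟩ := bE_add_two η (1 + 3 * η) R₂ hη0 hc0 hc2 hR₂1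
  obtain ⟨D₂, hlog2⟩ := p7_log_sq c₃
  obtain ⟨l₁, hl₁⟩ : ∃ l₁ : ℕ, 4 * (ℓ + 4 * R₁) / η ≤ l₁ := ⟨_, Nat.le_ceil _⟩
  obtain ⟨K, hK⟩ : ∃ K : ℝ, K = 12 * R ^ 4 + R ^ 2 + 2 + 4 * (4 * R₁ + ℓ) := ⟨_, rfl⟩
  obtain ⟨E, hE⟩ : ∃ E : ℝ, E = 2 * ℓ + 2 * R ^ 2 + 8 * R ^ 4 := ⟨_, rfl⟩
  have hR4 : 0 ≤ R ^ 4 := by positivity
  have hR2 : 0 ≤ R ^ 2 := by positivity
  have hE0 : 0 ≤ E := by linarith
  obtain ⟨CA, hCA⟩ : ∃ CA : ℝ, CA = C₀ * l₀ + 2 * (ℓ + 4 * R₁) * l₁ + C₀ * l₀ + 3 := ⟨_, rfl⟩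
  have hCA0 : 0 ≤ CA := by
    rw [hCA]
    positivity
  refine ⟨2 * c₁ + 2 * CA + (R₁ + ℓ), by linarith,
    max (max D₁ D₂) (max 2 (max ⌈2 * K⌉₊ ⌈E / η⌉₊)), ?_⟩
  intro d k L Y hd hdk hk hL hY
  have hD1 : D₁ ≤ d := (le_max_left D₁ D₂).trans ((le_max_left _ _).trans hd)
  have hD2 : D₂ ≤ d := (le_max_right D₁ D₂).trans ((le_max_left _ _).trans hd)
  have hD3 : max 2 (max ⌈2 * K⌉₊ ⌈E / η⌉₊) ≤ d := (le_max_right _ _).trans hd
  have hd2 : 2 ≤ d := (le_max_left _ _).trans hD3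
  have hD4 : max ⌈2 * K⌉₊ ⌈E / η⌉₊ ≤ d := (le_max_right _ _).trans hD3
  have hdK : 2 * K ≤ (d : ℝ) :=
    (Nat.le_ceil _).trans (by exact_mod_cast (le_max_left _ _).trans hD4)
  have hdE : E / η ≤ (d : ℝ) :=
    (Nat.le_ceil _).trans (by exact_mod_cast (le_max_right _ _).trans hD4)
  have hd1 : 1 ≤ d := by omega
  have hd2' : (2 : ℝ) ≤ d := by exact_mod_cast hd2
  have hd0 : (0 : ℝ) < d := by linarith
  have hlogd := d7_log_ratio hd2
  have hEd : E / d ≤ η := by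
    rw [div_le_iff₀ hη0] at hdE
    rw [div_le_iff₀ hd0]
    linarith
  have hLam0 : 0 ≤ c₃ * Real.log d := mul_nonneg hc₃ (by linarith)
  have hm1 : ∀ t : ℕ, (t : ℝ) < c₃ * Real.log d → t < ⌈c₃ * Real.log d⌉₊ :=
    fun t ht => Nat.lt_ceil.2 ht
  have hOK : LamOK R₂ d (d7lh Y ℓ R₁ (k + 4) d) := by
    rw [hR₂]
    exact d7_lamOK hY hR hd1 hR₁' hℓ0
  have hlamh2 : ∀ t, d7lam Y ℓ (k + 4) d t ≤ d7lh Y ℓ R₁ (k + 4) d (t + 2) := by
    intro t
    have h1 := d7_lam_add (ℓ := ℓ) (T := k + 4) hY hR hd1 hR₁' t 2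
    push_cast at h1
    have h2 := (abs_le.1 h1).1
    unfold d7lh
    rw [mul_comm R₁ 2] at h2
    linarith
  have hlamh1 : ∀ t, d7lam Y ℓ (k + 4) d t ≤ d7lh Y ℓ R₁ (k + 4) d (t + 1) := by
    intro t
    have h1 := d7_lam_add (ℓ := ℓ) (T := k + 4) hY hR hd1 hR₁' t 1
    push_cast at h1
    have h2 := (abs_le.1 h1).1
    have h3 : R₁ * 1 / d ≤ 2 * R₁ / d := div_le_div_of_nonneg_right (by linarith) hd0.le
    unfold d7lh
    linarith
  -- the exponents
  obtain ⟨nu, hnu⟩ : ∃ nu : ℕ → ℝ, ∀ t, nu t = if lev d t < l₀ then C₀ else η :=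
    ⟨fun t => if lev d t < l₀ then C₀ else η, fun _ => rfl⟩
  have hnu0 : ∀ t, 0 ≤ nu t := by
    intro t
    rw [hnu]
    split_ifs
    · exact hC₀
    · exact hη0.le
  obtain ⟨a, haa⟩ : ∃ a : ℕ → ℝ, ∀ t, a t = (-L + sfun d t + nu t + 12 * η +
      d7P Y (1 + 3 * η) ℓ R₁ (k + 4) d t) / 2 := ⟨_, fun _ => rfl⟩
  obtain ⟨J, hJJ⟩ : ∃ J : ℕ → ℝ, ∀ t, J t = if lev d t < l₀ then C₀ else 0 :=
    ⟨fun t => if lev d t < l₀ then C₀ else 0, fun _ => rfl⟩
  have hJ0 : ∀ t, 0 ≤ J t := by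
    intro t
    rw [hJJ]
    split_ifs
    · exact hC₀
    · exact le_rfl
  have hnuJ : ∀ t, nu t ≤ nu (t + 1) + J t := by
    intro t
    have h1 := hnu0 (t + 1)
    by_cases h : lev d t < l₀
    · rw [hnu t, hJJ t, if_pos h, if_pos h]
      linarith
    · have h2 : ¬ lev d (t + 1) < l₀ := by
        have := p7_lev_mono d (show t ≤ t + 1 by omega)
        omega
      rw [hnu t, hnu (t + 1), hJJ t, if_neg h, if_neg h, if_neg h2]
      linarith
  have hasucc : ∀ t, a t ≤ a (t + 1) + J t := by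
    intro t
    have h1 := d7_P_succ (c := 1 + 3 * η) (T := k + 4) hY hR hd1 hR₁' hℓ0 hc0 hc2 t
    rw [← hK] at h1
    have hlt := p7_one_le_lt d t
    have hs : sfun d (t + 1) = sfun d t + vslope (t / d) := sfun_succ' d t hd1
    have hv : 1 / (2 * lt d t) ≤ vslope (t / d) := by
      refine le_trans ?_ (vslope_ge (t / d))
      have hq : ((t / d : ℕ) : ℝ) + 2 = lev d t + 1 := by unfold lev; push_cast; ring
      have hlev := p7_lev_le_lt hd1 t
      rw [hq]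
      exact one_div_le_one_div_of_le (by have := p7_one_le_lev d t; linarith) (by linarith)
    have h2 : K / (d * lt d t) ≤ 1 / (2 * lt d t) := by
      rw [div_le_div_iff₀ (by positivity) (by positivity)]
      nlinarith
    have h3 := hnuJ t
    have h4 := hJ0 t
    rw [haa, haa, hs]
    linarith
  have hnega : ∀ t, t < k → -a t ≤ (L - sfun d t) / 2 + c₁ * Real.log d := by
    intro t ht
    have h1 := d7_neg_P (c := 1 + 3 * η) (T := k + 4) hY hR hd2 hR₁' hℓR3 hc0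
      (show t ≤ d ^ 3 by omega)
    have h2 := hnu0 t
    have h3 : 3 * Real.log d ≤ c₁ * Real.log d :=
      mul_le_mul_of_nonneg_right (by linarith) (by linarith)
    rw [haa]
    linarith
  have hF0 : ∀ t x, 0 < bE (1 + 3 * η) (d7lh Y ℓ R₁ (k + 4) d) d t x := fun t x =>
    lt_of_lt_of_le one_pos (one_le_bE _ _ _ _ _)
  refine ⟨d7lam Y ℓ (k + 4) d, d7bet Y ℓ d, d7Pi Y d,
    WE (1 + 3 * η) (d7lh Y ℓ R₁ (k + 4) d) d, nu,
    d7C a J (c₃ * Real.log d) ((L - sfun d k) + 2 * (c₁ * Real.log d) + 2)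
      ⌈c₃ * Real.log d⌉₊ k,
    bE (1 + 3 * η) (d7lh Y ℓ R₁ (k + 4) d) d, ?_, ?_, ?_⟩
  · refine
      { F_ge := fun t x => one_le_bE _ _ _ _ _
        C_pos := fun t => Real.exp_pos _
        W_pos := fun t => d7_WE_pos _ _ _ _
        ltW := ?_
        Pi_pos := fun t => d7_Pi_pos hY hR hd1 t
        bet_nonneg := fun t => d7_bet_nonneg hY hR hd1 hℓ0 t
        bet_le := ?_
        nu_nonneg := hnu0
        lam_ge := fun t => hℓ1.trans (d7_lam_ge hY hR hd1 t)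
        lam_le := ?_
        lam_lip := ?_
        bet_lip := ?_
        wE := fun t x hx => (weightE hc0 hd1 hx hOK (hlamh2 t)).1
        wEx := fun t x hx => (weightE hc0 hd1 hx hOK (hlamh2 t)).2
        wE1 := ?_
        volF := ?_
        stepF := ?_
        piA := ?_
        piB := ?_
        recC := ?_
        ratioC := fun t ht => d7_ratioC hJ0 hm1 hLam0 ht (hnega t (by omega))
        endC := fun t ht => d7_endC hJ0 hd2 hc₁0 hL hLam0 hnega ht }
    · intro t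
      have h1 := p7_one_le_lt d (t + 2)
      have h2 := hOK.le (t + 2)
      unfold WE
      rw [mul_div_cancel₀ _ (by linarith)]
      refine le_trans (Real.exp_le_exp.2 ?_) hR'e
      rw [mul_div_assoc]
      have h3 : d7lh Y ℓ R₁ (k + 4) d (t + 2) / lt d (t + 2) ≤ R₂ := by
        rw [div_le_iff₀ (by linarith)]
        exact h2
      have h4 : 0 ≤ d7lh Y ℓ R₁ (k + 4) d (t + 2) / lt d (t + 2) := by
        have := hOK.nonneg (t + 2)
        positivity
      exact mul_le_mul hc2 h3 h4 (by norm_num)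
    · intro t ht
      have h1 := d7_B_le hY hR (d7_tau_pos hd1 t)
      have h2 : lt d t / d ≤ 6 * d := by
        rw [div_le_iff₀ hd0]
        unfold lt
        have h3 : (t : ℝ) ≤ d ^ 3 + 4 := by
          exact_mod_cast (show t ≤ d ^ 3 + 4 by omega)
        have h4 : (t : ℝ) / d ≤ d ^ 2 + 2 := by
          rw [div_le_iff₀ hd0]
          nlinarith
        nlinarith
      have h3 : ℓ / d ≤ ℓ := div_le_self hℓ0 (by linarith)
      have h4 : R * (1 + lt d t / d) ≤ R * (1 + 6 * d) :=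
        mul_le_mul_of_nonneg_left (by linarith) (by linarith)
      have h5 : R * (1 + 6 * (d : ℝ)) ≤ 7 * R * d := by nlinarith
      have h6 : ℓ ≤ ℓ * d := by nlinarith
      have h7 : (7 * R + ℓ) * (d : ℝ) ≤ R' * d :=
        mul_le_mul_of_nonneg_right (by linarith) hd0.le
      unfold d7bet
      linarith
    · intro t
      have h1 := d7_lam_le (ℓ := ℓ) (T := k + 4) hY hR hd1 hR₁' hℓ0 t
      refine h1.trans (mul_le_mul_of_nonneg_right ?_ ?_)
      · linarith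
      · have := p7_one_le_lt d t
        linarith
    · intro s t hst hts
      obtain ⟨r, rfl⟩ := Nat.exists_eq_add_of_le hst
      have h1 := d7_lam_add (ℓ := ℓ) (T := k + 4) hY hR hd1 hR₁' s r
      have h2 := (abs_le.1 h1).2
      have h3 := d7_lam_ge (ℓ := ℓ) (T := k + 4) hY hR hd1 s
      have h4 : R₁ * r / d ≤ 10 * R₁ := by
        rw [div_le_iff₀ hd0]
        have h5 : (r : ℝ) ≤ 4 * d + 4 := by exact_mod_cast (show r ≤ 4 * d + 4 by omega)
        nlinarith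
      have h6 : η * ℓ ≤ η * d7lam Y ℓ (k + 4) d s := mul_le_mul_of_nonneg_left h3 hη0.le
      linarith
    · intro s t hst hts
      obtain ⟨r, rfl⟩ := Nat.exists_eq_add_of_le hst
      have h1 := d7_B_lip hY hR (d7_tau_pos hd1 s) (d7_tau_mono (d := d) hst)
      rw [d7_tau_add hd1] at h1
      have h2 := (abs_le.1 h1).2
      have h3 := d7_B_nonneg hY hR (d7_tau_pos hd1 s)
      have h4 : 2 * R ^ 3 * ((r : ℝ) / (d : ℝ) ^ 2) ≤ 10 * R₁ / d := by
        rw [mul_div_assoc', div_le_div_iff₀ (by positivity) hd0]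
        have h5 : (r : ℝ) ≤ 4 * d + 4 := by exact_mod_cast (show r ≤ 4 * d + 4 by omega)
        have h6 : 2 * R ^ 3 * (r : ℝ) ≤ R₁ * (10 * d) := by
          have h7 : (r : ℝ) ≤ 10 * d := by linarith
          exact mul_le_mul (by linarith) h7 (by positivity) (by linarith)
        calc 2 * R ^ 3 * (r : ℝ) * d ≤ R₁ * (10 * d) * d :=
              mul_le_mul_of_nonneg_right h6 hd0.le
          _ = 10 * R₁ * (d : ℝ) ^ 2 := by ring
      have h6 : η * (ℓ / d) = 10 * R₁ / d := by rw [← hηℓ]; ring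
      have h7 : 0 ≤ η * d7B Y (lt d s / d) := by positivity
      unfold d7bet
      linarith
    · intro t x hx
      refine (weightE1 hc0 hd1 hx hOK (hlamh1 t)).trans (le_trans (Real.exp_le_exp.2 ?_) hR'e)
      exact mul_le_mul_of_nonneg_right hc2 (by linarith)
    · intro t x ht hx
      have h1 := hb2 d t x (d7lh Y ℓ R₁ (k + 4) d) hD1 hOK hx
      rw [← hnu] at h1
      calc bE (1 + 3 * η) (d7lh Y ℓ R₁ (k + 4) d) d (t + 2) x * Real.exp (-gap d t x)
          ≤ (bE (1 + 3 * η) (d7lh Y ℓ R₁ (k + 4) d) d t x *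
              Real.exp (gapl (lev d t) x + nu t / d)) * Real.exp (-gap d t x) :=
            mul_le_mul_of_nonneg_right h1 (Real.exp_pos _).le
        _ = _ := by
            rw [mul_assoc, ← Real.exp_add]
            congr 2
            unfold gap gapl
            ring
    · intro t x hx
      rcases Nat.lt_or_ge t (k + 4) with ht | ht
      · have ht4 : t ≤ d ^ 4 := by
          have h1 : 4 * d ^ 2 ≤ d ^ 4 := by
            have : d ^ 4 = d ^ 2 * d ^ 2 := by ring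
            rw [this]
            exact Nat.mul_le_mul_right _ (by nlinarith)
          have h2 : 2 * d ^ 3 ≤ d ^ 4 := by
            have : d ^ 4 = d * d ^ 3 := by ring
            rw [this]
            exact Nat.mul_le_mul_right _ hd2
          have h3 : 4 ≤ d ^ 3 := by
            calc 4 ≤ 2 ^ 3 := by norm_num
              _ ≤ d ^ 3 := Nat.pow_le_pow_left hd2 3
          omega
        refine (hCb d t x (d7lh Y ℓ R₁ (k + 4) d) hd2 ht4 hOK hx).trans
          (mul_le_mul_of_nonneg_left (Real.exp_le_exp.2 ?_) (hF0 _ _).le)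
        refine div_le_div_of_nonneg_right ?_ hd0.le
        exact mul_le_mul_of_nonneg_right (by linarith) (by linarith)
      · have he : d7lh Y ℓ R₁ (k + 4) d (t + 1) = d7lh Y ℓ R₁ (k + 4) d t := by
          unfold d7lh d7lam
          rw [min_eq_right (show k + 4 ≤ t + 1 by omega), min_eq_right ht]
        refine (d7_bE_const hc0 (by linarith) hd1 hOK hx he).trans
          (mul_le_mul_of_nonneg_left (Real.exp_le_exp.2 ?_) (hF0 _ _).le)
        refine div_le_div_of_nonneg_right ?_ hd0.le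
        have h1 : (1 + 3 * η) * R₂ ≤ 2 * R₂ := mul_le_mul_of_nonneg_right hc2 (by linarith)
        have h2 : c₁ * (1 / 2) ≤ c₁ * Real.log d := mul_le_mul_of_nonneg_left hlogd hc₁0
        linarith
    · intro t ht
      have hτ := d7_tau_pos hd1 (t + 2)
      have h1 := d7_B_bet hY hR hd1 hℓR3 t
      have h2 := d7_B_nonneg hY hR hτ
      have h3 := d7_Y_pos hY hR hτ
      have h4 := d7_bet_nonneg hY hR hd1 hℓ0 t
      have h5 : (1 + d7B Y (lt d (t + 2) / d)) * (1 + lt d (t + 2) / (d * (1 + d7bet Y ℓ d t))) ≤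
          1 + d7B Y (lt d (t + 2) / d) + lt d (t + 2) / d := by
        have e : lt d (t + 2) / (d * (1 + d7bet Y ℓ d t)) =
            lt d (t + 2) / d * (1 / (1 + d7bet Y ℓ d t)) := by field_simp
        have h6 : (1 + d7B Y (lt d (t + 2) / d)) * (1 / (1 + d7bet Y ℓ d t)) ≤ 1 := by
          rw [mul_one_div, div_le_one (by linarith)]
          linarith
        rw [e]
        nlinarith
      have h7 : d7Pi Y d t * (1 + lt d (t + 2) / (d * (1 + d7bet Y ℓ d t))) ≤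
          d * d7U Y (lt d (t + 2) / d) := by
        unfold d7Pi d7U
        calc _ = d * (Y (lt d (t + 2) / d) * ((1 + d7B Y (lt d (t + 2) / d)) *
              (1 + lt d (t + 2) / (d * (1 + d7bet Y ℓ d t))))) := by ring
          _ ≤ _ := by gcongr
      refine h7.trans ?_
      have h8 := d7_lam_add (ℓ := ℓ) (T := k + 4) hY hR hd1 hR₁' t 2
      push_cast at h8
      have h9 := (abs_le.1 h8).2
      have e : d7lam Y ℓ (k + 4) d (t + 2) = d * d7U Y (lt d (t + 2) / d) + ℓ := by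
        unfold d7lam
        rw [min_eq_left (by omega)]
      have h10 : R₁ * 2 / d ≤ ℓ := by
        rw [div_le_iff₀ hd0]
        nlinarith
      linarith
    · intro t ht
      have hτ := d7_tau_pos hd1 (t + 2)
      have h1 := d7_B_bet hY hR hd1 hℓR3 t
      have h2 := d7_B_nonneg hY hR hτ
      have h3 := d7_Y_pos hY hR hτ
      have h4 := d7_bet_nonneg hY hR hd1 hℓ0 t
      have h5 : (1 + d7B Y (lt d (t + 2) / d)) *
          (1 + lt d (t + 2) / (2 * d * (1 + d7bet Y ℓ d t))) ≤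
          1 + d7B Y (lt d (t + 2) / d) + lt d (t + 2) / d / 2 := by
        have e : lt d (t + 2) / (2 * d * (1 + d7bet Y ℓ d t)) =
            lt d (t + 2) / d / 2 * (1 / (1 + d7bet Y ℓ d t)) := by field_simp
        have h6 : (1 + d7B Y (lt d (t + 2) / d)) * (1 / (1 + d7bet Y ℓ d t)) ≤ 1 := by
          rw [mul_one_div, div_le_one (by linarith)]
          linarith
        rw [e]
        nlinarith
      unfold d7Pi
      calc _ = d * (Y (lt d (t + 2) / d) * ((1 + d7B Y (lt d (t + 2) / d)) *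
            (1 + lt d (t + 2) / (2 * d * (1 + d7bet Y ℓ d t))))) := by ring
        _ ≤ d * (Y (lt d (t + 2) / d) * (1 + d7B Y (lt d (t + 2) / d) +
            lt d (t + 2) / d / 2)) := by gcongr
        _ = d * d7B Y (lt d (t + 2) / d) := by rw [d7_B_fix hY hR hτ]
        _ ≤ d * d7bet Y ℓ d t := by gcongr
    · intro t ht
      have h1 := d7_recC (a := a) (Lam := c₃ * Real.log d) (m1 := ⌈c₃ * Real.log d⌉₊)
        (B := (L - sfun d k) + 2 * (c₁ * Real.log d) + 2) hJ0 hLam0 ht (hasucc t)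
      have h2 := d7_exp_P (c := 1 + 3 * η) (R₁ := R₁) (T := k + 4) hY hR hd1 hℓ0 t
      have h3 : 2 * Real.exp (-L + sfun d t + nu t + 12 * η) * (1 + d7bet Y ℓ d t) ^ 2 *
          (d * WE (1 + 3 * η) (d7lh Y ℓ R₁ (k + 4) d) d t) ^ 2 =
          d7Pi Y d t * Real.exp (2 * a t) := by
        calc _ = Real.exp (-L + sfun d t + nu t + 12 * η) * (2 * (1 + d7bet Y ℓ d t) ^ 2 *
              (d * WE (1 + 3 * η) (d7lh Y ℓ R₁ (k + 4) d) d t) ^ 2) := by ring
          _ = _ := by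
              rw [← h2, haa, show ∀ z : ℝ, 2 * (z / 2) = z by intro z; ring, Real.exp_add _
                (d7P Y (1 + 3 * η) ℓ R₁ (k + 4) d t)]
              ring
      have h4 := d7_Pi_pos hY hR hd1 t
      rw [h3]
      calc _ = d7Pi Y d t * (d7C a J (c₃ * Real.log d)
            ((L - sfun d k) + 2 * (c₁ * Real.log d) + 2) ⌈c₃ * Real.log d⌉₊ k (t + 2) *
            Real.exp (2 * a t)) := by ring
        _ ≤ _ := mul_le_mul_of_nonneg_left h1 h4.le
  · have h1 := d7_lam_le (ℓ := ℓ) (T := k + 4) hY hR hd1 hR₁' hℓ0 0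
    have e : lt d 0 = 1 := by unfold lt; simp
    rw [e, mul_one] at h1
    linarith
  · rw [bE_zero _ _ hd1, one_pow, mul_one]
    unfold d7C
    rw [Real.exp_le_exp]
    have hb : ∑ s ∈ Finset.Ico 0 k, d7b a J (c₃ * Real.log d) ⌈c₃ * Real.log d⌉₊ s =
        ∑ s ∈ Finset.range k, a s + ∑ s ∈ Finset.range k, J s +
        ∑ s ∈ Finset.range k, (if s < ⌈c₃ * Real.log d⌉₊ then c₃ * Real.log d else 0) := by
      unfold d7b
      rw [← Finset.range_eq_Ico, Finset.sum_add_distrib, Finset.sum_add_distrib]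
    have hlam := p7_sum_Lam hLam0 ⌈c₃ * Real.log d⌉₊ k
    have hceil : c₃ * Real.log d * ⌈c₃ * Real.log d⌉₊ ≤ d :=
      (mul_le_mul_of_nonneg_left (Nat.ceil_lt_add_one hLam0).le hLam0).trans (hlog2 d hD2)
    have hjs : ∑ s ∈ Finset.range k, J s ≤ C₀ * (l₀ * d) := by
      have h1 : ∑ s ∈ Finset.range k, J s =
          ∑ s ∈ Finset.range k, if lev d s < l₀ then C₀ else 0 :=
        Finset.sum_congr rfl (fun s _ => hJJ s)
      rw [h1]
      exact p7_count hd1 hC₀ l₀ k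
    have has : ∀ t ∈ Finset.range k, a t ≤ (sfun d t - L +
        Real.log (2 * d * gY (Y (lt d t / d)) (lt d t / d) / lt d t ^ 2)) / 2 +
        (15 / 2 * η + 3 * η * R₁) + (if lev d t < l₀ then C₀ else 0) +
        (if lev d t < l₁ then 2 * (ℓ + 4 * R₁) else 0) := by
      intro t ht
      rw [Finset.mem_range] at ht
      have h1 := d7_P_le (T := k + 4) hY hR hd1 hR₁' hℓ0 hη0.le hη1 (show t + 2 ≤ k + 4 by omega)
      rw [← hE] at h1
      have h2 : nu t ≤ η + if lev d t < l₀ then C₀ else 0 := by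
        rw [hnu]
        split_ifs <;> linarith
      have h3 : 4 * (ℓ + 4 * R₁) / lt d t ≤
          η + 2 * (if lev d t < l₁ then 2 * (ℓ + 4 * R₁) else 0) := by
        have h5 := p7_one_le_lt d t
        have h6 := p7_lev_le_lt hd1 t
        split_ifs with h
        · have : 4 * (ℓ + 4 * R₁) / lt d t ≤ 4 * (ℓ + 4 * R₁) :=
            div_le_self (by positivity) h5
          linarith
        · have h7 : (l₁ : ℝ) ≤ lev d t := by exact_mod_cast not_lt.1 h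
          rw [mul_zero, add_zero, div_le_iff₀ (by linarith)]
          rw [div_le_iff₀ hη0] at hl₁
          nlinarith
      have h4 : 0 ≤ if lev d t < l₀ then C₀ else 0 := by
        split_ifs
        · exact hC₀
        · exact le_rfl
      rw [haa]
      linarith
    have hsum := Finset.sum_le_sum has
    rw [Finset.sum_add_distrib, Finset.sum_add_distrib, Finset.sum_add_distrib,
      Finset.sum_const, Finset.card_range, nsmul_eq_mul] at hsum
    have hc1 := p7_count hd1 hC₀ l₀ k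
    have hc2' := p7_count hd1 (show 0 ≤ 2 * (ℓ + 4 * R₁) by positivity) l₁ k
    have hk0 : (0 : ℝ) ≤ k := Nat.cast_nonneg k
    have hηk : (k : ℝ) * (15 / 2 * η + 3 * η * R₁) ≤ ε * k := by
      rw [mul_comm]
      refine mul_le_mul_of_nonneg_right ?_ hk0
      nlinarith
    have hdd : (d : ℝ) ≤ 2 * (d * Real.log d) := by nlinarith
    have hCAd : CA * d ≤ 2 * CA * (d * Real.log d) := by nlinarith
    have hc1d : 2 * (c₁ * Real.log d) ≤ 2 * c₁ * (d * Real.log d) := by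
      have h1 : Real.log d ≤ d * Real.log d := by nlinarith
      calc 2 * (c₁ * Real.log d) = 2 * c₁ * Real.log d := by ring
        _ ≤ 2 * c₁ * (d * Real.log d) := mul_le_mul_of_nonneg_left h1 (by linarith)
    have hRd : 0 ≤ (R₁ + ℓ) * (d * Real.log d) := by positivity
    have hCAe : CA * d = C₀ * (l₀ * d) + 2 * (ℓ + 4 * R₁) * (l₁ * d) + C₀ * (l₀ * d) + 3 * d := by
      rw [hCA]; ring
    rw [hb]
    linarith

end Pool.Agent.Lib.MP_8501c9_pr.Deep
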