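import Pool.Agent.Lib.MP_8501c9_pr.Deep.FramePE
import Pool.Agent.Lib.MP_8501c9_pr.Deep.PotPE
import Pool.Agent.Lib.MP_8501c9_pr.Deep.ChooseY

/-!
# D9: the upper bound of the percolation probability for side lengths of order `d` and larger
-/

set_option autoImplicit false
open Set

namespace Pool.Agent.Lib.MP_8501c9_pr.Deep

open Pool.Agent.Lib.MP_8501c9_pr Pool.Agent.Lib.MP_8501c9_pr.Mid
open Pool.Agent.Lib.MP_8501c9_pr.Wide

variable {n d : ℕ}

theorem d9_lt_pos (d t : ℕ) : 0 < lt d t := by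
  unfold lt
  positivity

theorem d9_log_le {ε : ℝ} {R : ℝ} {Y : ℝ → ℝ} (hR : 1 ≤ R) (hY : YF R Y)
    (hg : ∀ τ, 0 < τ → gY (Y τ) τ ≤ Real.exp ε * gg τ) {d : ℕ} (hd : 1 ≤ d) (t : ℕ) :
    Real.log (2 * d * gY (Y (lt d t / d)) (lt d t / d) / lt d t ^ 2) ≤
      Real.log (2 * d * gg (lt d t / d) / lt d t ^ 2) + ε := by
  have hlt := d9_lt_pos d t
  have hd0 : (0 : ℝ) < d := by exact_mod_cast hd
  have hτ : 0 < lt d t / d := by positivity
  have hR0 : 0 < R := by linarith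
  have hy0 : 0 < Y (lt d t / d) :=
    lt_of_lt_of_le (div_pos (lt_min hτ one_pos) hR0) (hY.low _ hτ)
  have hy1 : Y (lt d t / d) < 1 :=
    lt_of_le_of_lt (hY.le_one _ hτ) (by linarith [one_div_pos.2 hR0])
  have hgY := gY_pos hy0 hy1 hτ
  have hgg : 0 < gg (lt d t / d) := lt_of_lt_of_le (by positivity) (gg_ge hτ).1
  have h1 : Real.log (2 * d * gg (lt d t / d) / lt d t ^ 2) + ε =
      Real.log (2 * d * (Real.exp ε * gg (lt d t / d)) / lt d t ^ 2) := by
    have h2 : 2 * d * (Real.exp ε * gg (lt d t / d)) / lt d t ^ 2 =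
        (2 * d * gg (lt d t / d) / lt d t ^ 2) * Real.exp ε := by ring
    rw [h2, Real.log_mul (by positivity) (Real.exp_pos _).ne', Real.log_exp]
  rw [h1]
  refine Real.log_le_log (by positivity) ?_
  refine div_le_div_of_nonneg_right ?_ (by positivity)
  exact mul_le_mul_of_nonneg_left (hg _ hτ) (by positivity)

theorem deep_upper (ε : ℝ) (hε : 0 < ε) : ∃ C : ℝ, 0 ≤ C ∧ ∃ D₀ : ℕ,
    ∀ (n d k : ℕ) (L : ℝ), D₀ ≤ d → d ≤ k → k ≤ d ^ 3 → k ≤ d * (n - 1) →
      sfun d k + Real.sqrt (ε * d) ≤ L →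
      percProb n d 2 (Real.exp (-L)) ≤ Real.exp (d * Real.log n - ((k : ℝ) / 2 + 1) * L +
        (∑ t ∈ Finset.range k, Ex d t) / 2 + ε * k + C * (d * Real.log d) +
        (L - sfun d k)) := by
  obtain ⟨R, Y, hR, hY, hg⟩ := exists_Y (ε / 4) (by positivity)
  have hε2 : 0 < min (ε / 4) 1 := lt_min (by positivity) one_pos
  obtain ⟨η, R', c₁, hη0, hη1, hηε, hR', hc₁, hPE⟩ :=
    exists_PE (min (ε / 4) 1) R hε2 (min_le_right _ _) hR
  obtain ⟨c₃, hc₃, D₁, hdeep⟩ := deep_le η R' c₁ hη0 hη1 hR' hc₁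
  obtain ⟨C, hC, D₂, hpot⟩ := hPE c₃ hc₃
  refine ⟨3 * C + 2, by positivity, max (max D₁ D₂) 3, ?_⟩
  intro n d k L hD hdk hkd hkn hL
  have hD1 : D₁ ≤ d := le_trans (le_trans (le_max_left _ _) (le_max_left _ _)) hD
  have hD2 : D₂ ≤ d := le_trans (le_trans (le_max_right _ _) (le_max_left _ _)) hD
  have hD3 : 3 ≤ d := le_trans (le_max_right _ _) hD
  have hηε' : η ≤ ε := hηε.trans ((min_le_left _ _).trans (by linarith))
  have hsq : Real.sqrt (η * d) ≤ Real.sqrt (ε * d) :=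
    Real.sqrt_le_sqrt (mul_le_mul_of_nonneg_right hηε' (Nat.cast_nonneg d))
  have hsL : sfun d k ≤ L := by linarith [Real.sqrt_nonneg (ε * d)]
  obtain ⟨lam, bet, Pi, W, nu, C', F, hP, hlam, hval⟩ := hpot d k L Y hD2 hdk hkd hsL hY
  have h1 := hdeep n d k L lam bet Pi W nu C' F hD1 hdk hkd hkn (by linarith) hP
  refine h1.trans ?_
  rw [mul_assoc]
  refine (mul_le_mul_of_nonneg_left hval (Real.exp_pos _).le).trans ?_
  rw [← Real.exp_add]
  apply Real.exp_le_exp.2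
  -- the sum
  have hsum : ∑ t ∈ Finset.range k, (sfun d t - L +
      Real.log (2 * d * gY (Y (lt d t / d)) (lt d t / d) / lt d t ^ 2)) / 2 ≤
      (∑ t ∈ Finset.range k, Ex d t) / 2 + k * ((ε / 4 - L) / 2) := by
    have h2 : ∑ t ∈ Finset.range k, (sfun d t - L +
        Real.log (2 * d * gY (Y (lt d t / d)) (lt d t / d) / lt d t ^ 2)) / 2 ≤
        ∑ t ∈ Finset.range k, (Ex d t / 2 + (ε / 4 - L) / 2) := by
      refine Finset.sum_le_sum fun t _ => ?_
      have h3 := d9_log_le hR hY hg (by omega : 1 ≤ d) t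
      unfold Ex
      linarith
    refine h2.trans (le_of_eq ?_)
    rw [Finset.sum_add_distrib, Finset.sum_const, Finset.card_range, nsmul_eq_mul,
      Finset.sum_div]
  have hk0 : (0 : ℝ) ≤ k := Nat.cast_nonneg k
  have hmin : min (ε / 4) 1 * (k : ℝ) ≤ ε / 4 * k :=
    mul_le_mul_of_nonneg_right (min_le_left _ _) hk0
  have hlog : 1 ≤ Real.log d := by
    rw [Real.le_log_iff_exp_le (by positivity)]
    have h3 : (3 : ℝ) ≤ d := by exact_mod_cast hD3
    linarith [Real.exp_one_lt_d9]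
  have hdlog : 1 ≤ (d : ℝ) * Real.log d := by
    have h3 : (3 : ℝ) ≤ d := by exact_mod_cast hD3
    calc (1 : ℝ) ≤ 3 * 1 := by norm_num
      _ ≤ d * Real.log d := mul_le_mul h3 hlog zero_le_one (by positivity)
  have hC2 : 2 * C + 2 ≤ (2 * C + 2) * ((d : ℝ) * Real.log d) :=
    le_mul_of_one_le_right (by positivity) hdlog
  have hεk : 0 ≤ ε * (k : ℝ) := by positivity
  have e1 : ((k : ℝ) / 2 + 1) * L = k * L / 2 + L := by ring
  have e2 : (3 * C + 2) * ((d : ℝ) * Real.log d) =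
      C * (d * Real.log d) + (2 * C + 2) * (d * Real.log d) := by ring
  have e3 : (k : ℝ) * ((ε / 4 - L) / 2) = ε * k / 8 - k * L / 2 := by ring
  have e4 : ε / 4 * (k : ℝ) = ε * k / 4 := by ring
  rw [e1, e2]
  rw [e3] at hsum
  rw [e4] at hmin
  linarith

end Pool.Agent.Lib.MP_8501c9_pr.Deep
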