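import Pool.Agent.Lib.MP_8501c9_pr.Deep.DeepSums
import Pool.Agent.Lib.MP_8501c9_pr.Deep.DeepUpper
import Pool.Agent.Lib.MP_8501c9_pr.Wide.AoptW
import Pool.Agent.Lib.MP_8501c9_pr.Mid.Final

/-!
# Lower bound for the critical probability, side lengths of order `d` and larger
-/

set_option autoImplicit false
open Set

namespace Pool.Agent.Lib.MP_8501c9_pr.Deep

open Pool.Agent.Lib.MP_8501c9_pr Pool.Agent.Lib.MP_8501c9_pr.Mid
open Pool.Agent.Lib.MP_8501c9_pr.Wide

section PcDeepLower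

/-- the average over a slightly shorter interval -/
private theorem pdl_avg {f : ℝ → ℝ} {H a κ m : ℝ} (hκ : 0 < κ) (hκa : κ ≤ a) (hH : 0 ≤ H)
    (hi1 : IntervalIntegrable f MeasureTheory.volume 0 κ)
    (hi2 : IntervalIntegrable f MeasureTheory.volume κ a)
    (h1 : |∫ u in (0 : ℝ)..κ, f u| ≤ H * κ) (h2 : |∫ u in κ..a, f u| ≤ H * (a - κ))
    (hm : m = (∫ u in (0 : ℝ)..a, f u) / a) :
    (∫ u in (0 : ℝ)..κ, f u) - κ * m ≤ 2 * H * (a - κ) ∧ |m| ≤ H := by
  have ha : 0 < a := lt_of_lt_of_le hκ hκa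
  have h4 := intervalIntegral.integral_add_adjacent_intervals hi1 hi2
  have hav : m * a = ∫ u in (0 : ℝ)..a, f u := by
    rw [hm]
    field_simp
  rw [← h4] at hav
  generalize (∫ u in (0 : ℝ)..κ, f u) = I1 at *
  generalize (∫ u in κ..a, f u) = I2 at *
  have hmH : |m| ≤ H := by
    have e : m = (I1 + I2) / a := by rw [← hav]; field_simp
    rw [e, abs_div, abs_of_pos ha, div_le_iff₀ ha]
    have := abs_add_le I1 I2
    linarith
  refine ⟨?_, hmH⟩
  rw [abs_le] at h1 h2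
  have e1 : a * (I1 - κ * m) = (a - κ) * I1 - κ * I2 := by
    linear_combination (-κ) * hav
  have e2 : (a - κ) * I1 ≤ (a - κ) * (H * κ) :=
    mul_le_mul_of_nonneg_left h1.2 (sub_nonneg.2 hκa)
  have e3 : κ * (-(H * (a - κ))) ≤ κ * I2 := mul_le_mul_of_nonneg_left h2.1 hκ.le
  have e4 : a * (I1 - κ * m) ≤ a * (2 * H * (a - κ)) := by
    rw [e1]
    have e5 : H * (a - κ) * κ ≤ H * (a - κ) * a :=
      mul_le_mul_of_nonneg_left hκa (mul_nonneg hH (sub_nonneg.2 hκa))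
    linarith
  exact le_of_mul_le_mul_left e4 ha

/-- integral of the growth exponent from zero -/
private theorem pdl_int0 {C : ℝ} {d : ℕ} {a x : ℝ} (hC : 0 ≤ C)
    (hf : ∀ u : ℝ, 0 < u → |hD d u| ≤ C * (Real.log d + |Real.log u|)) (hx : 1 ≤ x) (hxa : x ≤ a)
    (ha : Real.log a ≤ 2 * Real.log d) (hd : 1 ≤ Real.log d) :
    |∫ u in (0 : ℝ)..x, hD d u| ≤ 6 * C * Real.log d * x := by
  have hx0 : 0 < x := by linarith
  have hla : 0 ≤ Real.log a := Real.log_nonneg (hx.trans hxa)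
  have hi : IntervalIntegrable (fun u : ℝ => C * (Real.log d + 2 * Real.log a - Real.log u))
      MeasureTheory.volume 0 x :=
    ((intervalIntegrable_const).sub intervalIntegral.intervalIntegrable_log').const_mul C
  have h1 := intervalIntegral.norm_integral_le_of_norm_le (a := 0) (b := x)
    (μ := MeasureTheory.volume) (f := hD d)
    (g := fun u : ℝ => C * (Real.log d + 2 * Real.log a - Real.log u)) hx0.le
    (Filter.Eventually.of_forall fun u hu => by
      rw [Real.norm_eq_abs]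
      refine (hf u hu.1).trans (mul_le_mul_of_nonneg_left ?_ hC)
      have h2 : Real.log u ≤ Real.log a := Real.log_le_log hu.1 (hu.2.trans hxa)
      have h3 : |Real.log u| ≤ 2 * Real.log a - Real.log u := by
        rw [abs_le]
        constructor <;> linarith
      linarith) hi
  rw [Real.norm_eq_abs] at h1
  refine h1.trans ?_
  have h2 : (∫ u in (0 : ℝ)..x, C * (Real.log d + 2 * Real.log a - Real.log u)) =
      C * ((Real.log d + 2 * Real.log a) * x - (x * Real.log x - x)) := by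
    rw [intervalIntegral.integral_const_mul, intervalIntegral.integral_sub
      intervalIntegrable_const intervalIntegral.intervalIntegrable_log', integral_log,
      intervalIntegral.integral_const]
    simp only [smul_eq_mul]
    ring
  rw [h2]
  have h3 : 0 ≤ Real.log x := Real.log_nonneg hx
  have h4 : (Real.log d + 2 * Real.log a) * x - (x * Real.log x - x) ≤ 6 * Real.log d * x := by
    have h5 : 0 ≤ x * Real.log x := mul_nonneg hx0.le h3
    have h6 : (Real.log d + 2 * Real.log a + 1) * x ≤ (6 * Real.log d) * x :=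
      mul_le_mul_of_nonneg_right (by linarith) hx0.le
    linarith
  have h5 := mul_le_mul_of_nonneg_left h4 hC
  linarith

/-- integral of the growth exponent over large side lengths -/
private theorem pdl_int1 {C : ℝ} {d : ℕ} {a x : ℝ} (hC : 0 ≤ C)
    (hf : ∀ u : ℝ, 0 < u → |hD d u| ≤ C * (Real.log d + |Real.log u|)) (hx : 1 ≤ x) (hxa : x ≤ a)
    (ha : Real.log a ≤ 2 * Real.log d) (hd : 1 ≤ Real.log d) :
    |∫ u in x..a, hD d u| ≤ 6 * C * Real.log d * (a - x) := by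
  have h1 := intervalIntegral.norm_integral_le_of_norm_le_const (a := x) (b := a)
    (C := 6 * C * Real.log d) (f := hD d) (fun u hu => by
      rw [uIoc_of_le hxa] at hu
      have hu1 : 1 < u := lt_of_le_of_lt hx hu.1
      rw [Real.norm_eq_abs]
      refine (hf u (by linarith)).trans ?_
      have h2 : Real.log u ≤ Real.log a := Real.log_le_log (by linarith) hu.2
      have h3 : 0 ≤ Real.log u := Real.log_nonneg hu1.le
      rw [abs_of_nonneg h3]
      have h4 := mul_le_mul_of_nonneg_left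
        (show Real.log d + Real.log u ≤ 6 * Real.log d by linarith) hC
      linarith)
  rwa [Real.norm_eq_abs, abs_of_nonneg (sub_nonneg.2 hxa)] at h1

/-- the algebra behind the lower bound -/
private theorem pdl_alg {d k a κ b ℓ I m IH ld L L0 sE S e C₀ C₂ H ε τ : ℝ}
    (hd : 16 ≤ d) (hk : k = κ * d) (hκ1 : 1 ≤ κ) (hκa : κ ≤ a) (hε : 0 < ε)
    (he : 0 < e) (he' : e ≤ ε / 400) (hτ0 : 0 ≤ τ) (hτ1 : τ ≤ 1 / 10)
    (hτ2 : τ * (3 * H) ≤ ε / 50) (hH : 0 ≤ H)
    (hd2 : 100 ≤ ε * d) (hgap : a - κ ≤ a * τ) (hτ3 : d * τ ^ 2 ≤ 32 * e + 2 / d)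
    (hL : L0 ≤ L) (hL0 : L0 = d * ℓ + m + ε)
    (hE : sE ≤ d ^ 2 * I + d * IH + C₂ * (d * ld))
    (hq : (2 * b + I) - κ * ℓ ≤ (a - κ) ^ 2 / κ)
    (hW : IH - κ * m ≤ 2 * H * (a - κ))
    (hC : (C₂ / 2 + C₀) * ld ≤ ε / 50 * κ) (hS : 0 ≤ S) :
    d * (b * d) - (k / 2 + 1) * L + sE / 2 + e * k + C₀ * (d * ld) + (L - S) ≤
      -(ε / 4) * k := by
  have hd0 : 0 < d := by linarith
  have hκ0 : 0 < κ := by linarith
  have ha0 : 0 < a := by linarith
  have hk0 : 0 < k := by rw [hk]; positivity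
  have haτ : a * τ ≤ a * (1 / 10) := mul_le_mul_of_nonneg_left hτ1 ha0.le
  have hκlow : a * (9 / 10) ≤ κ := by linarith
  have e7 : a * d ≤ (10 / 9) * k := by
    have := mul_le_mul_of_nonneg_right hκlow hd0.le
    rw [hk]
    linarith
  -- monotone in L
  have h1 : -(k / 2 + 1) * L + L ≤ -(k / 2) * L0 := by
    have := mul_le_mul_of_nonneg_left hL (show 0 ≤ k / 2 by positivity)
    linarith
  -- quadratic term
  have h2 : d ^ 2 / 2 * ((a - κ) ^ 2 / κ) ≤ (ε / 20 + ε / 50) * k := by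
    have g0 : 0 ≤ a - κ := sub_nonneg.2 hκa
    have e1 : (a - κ) ^ 2 ≤ (a * τ) ^ 2 := pow_le_pow_left₀ g0 hgap 2
    have e2 : (a - κ) ^ 2 / κ ≤ (a * τ) ^ 2 / (a * (9 / 10)) := by
      gcongr
    have e3 : (a * τ) ^ 2 / (a * (9 / 10)) = a * τ ^ 2 * (10 / 9) := by
      field_simp
    have e4 : d ^ 2 / 2 * ((a - κ) ^ 2 / κ) ≤ d ^ 2 / 2 * (a * τ ^ 2 * (10 / 9)) := by
      rw [← e3]
      exact mul_le_mul_of_nonneg_left e2 (by positivity)
    have e5 : d ^ 2 / 2 * (a * τ ^ 2 * (10 / 9)) = (5 / 9) * (a * d) * (d * τ ^ 2) := by ring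
    have e6 : (5 / 9) * (a * d) * (d * τ ^ 2) ≤ (5 / 9) * (a * d) * (32 * e + 2 / d) :=
      mul_le_mul_of_nonneg_left hτ3 (by positivity)
    have e8 : 2 / d ≤ ε / 50 := by
      rw [div_le_div_iff₀ hd0 (by norm_num)]
      linarith
    have e9 : 0 ≤ 32 * e + 2 / d := by positivity
    have e10 : (5 / 9) * (a * d) * (32 * e + 2 / d) ≤ (5 / 9) * ((10 / 9) * k) * (32 * e + 2 / d) := by
      gcongr
    have e11 : (5 / 9) * ((10 / 9) * k) * (32 * e + 2 / d) ≤
        (5 / 9) * ((10 / 9) * k) * (32 * (ε / 400) + ε / 50) := by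
      gcongr
    have e12 : (5 / 9) * ((10 / 9) * k) * (32 * (ε / 400) + ε / 50) ≤ (ε / 20 + ε / 50) * k := by
      have : 0 < ε * k := by positivity
      linarith
    linarith
  -- the averages
  have h4 : d / 2 * (IH - κ * m) ≤ τ * (3 * H) * k := by
    have e1 : d / 2 * (IH - κ * m) ≤ d / 2 * (2 * H * (a * τ)) := by
      refine mul_le_mul_of_nonneg_left (hW.trans ?_) (by positivity)
      exact mul_le_mul_of_nonneg_left hgap (by positivity)
    have e2 : d / 2 * (2 * H * (a * τ)) = H * τ * (a * d) := by ring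
    have e3 : H * τ * (a * d) ≤ H * τ * ((10 / 9) * k) :=
      mul_le_mul_of_nonneg_left e7 (by positivity)
    have e5 : 0 ≤ H * τ * k := by positivity
    linarith
  have h5 : (τ * (3 * H)) * k ≤ ε / 50 * k := mul_le_mul_of_nonneg_right hτ2 hk0.le
  have h6 : d * ((C₂ / 2 + C₀) * ld) ≤ ε / 50 * k := by
    have := mul_le_mul_of_nonneg_left hC hd0.le
    rw [hk]
    linarith
  have h7 : e * k ≤ (ε / 400) * k := by gcongr
  have h8 : d ^ 2 / 2 * ((2 * b + I) - κ * ℓ) ≤ d ^ 2 / 2 * ((a - κ) ^ 2 / κ) :=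
    mul_le_mul_of_nonneg_left hq (by positivity)
  -- the identity
  have h9 : d * (b * d) - (k / 2) * L0 + (d ^ 2 * I + d * IH + C₂ * (d * ld)) / 2 +
      C₀ * (d * ld) =
      d ^ 2 / 2 * ((2 * b + I) - κ * ℓ) + d / 2 * (IH - κ * m) +
        d * ((C₂ / 2 + C₀) * ld) - ε / 2 * k := by
    rw [hL0, hk]
    ring
  have h10 : 0 < ε * k := by positivity
  linarith

/-- square of a sum -/
private theorem pdl_sq (x y : ℝ) : (x + y) ^ 2 ≤ 2 * (x ^ 2 + y ^ 2) := by
  nlinarith [sq_nonneg (x - y)]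

/-- for nonpositive arguments the minimiser is small -/
private theorem pdl_aopt_nonpos {b : ℝ} (hb : b ≤ 0) : aopt b ≤ 1 := by
  unfold aopt
  refine csInf_le ⟨0, fun x hx => hx.1.le⟩ ⟨one_pos, ?_⟩
  have := vtheta_nonneg (u := 1) zero_le_one
  unfold vtheta at this
  linarith

/-- the logarithm is much smaller than the root -/
private theorem pdl_log (η : ℝ) (hη : 0 < η) :
    ∀ᶠ d : ℕ in Filter.atTop, Real.log d ≤ η * Real.sqrt d := by
  have hcast : Filter.Tendsto (fun d : ℕ => (d : ℝ)) Filter.atTop Filter.atTop :=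
    tendsto_natCast_atTop_atTop
  have h1 := (isLittleO_log_rpow_atTop (show (0 : ℝ) < 1 / 2 by norm_num)).def hη
  filter_upwards [hcast.eventually h1] with d h
  rw [Real.norm_eq_abs, Real.norm_eq_abs] at h
  rw [Real.sqrt_eq_rpow (d : ℝ)]
  refine (le_abs_self _).trans (h.trans_eq ?_)
  rw [abs_of_nonneg (Real.rpow_nonneg (Nat.cast_nonneg d) _)]

private theorem pdl_large (e ε Ch K c₀ C₁ : ℝ) (he : 0 < e) (hε : 0 < ε) (hCh : 0 ≤ Ch)
    (hK : 0 ≤ K) (hc₀ : 0 < c₀) :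
    ∃ D : ℕ, ∀ d : ℕ, D ≤ d → (16 : ℝ) ≤ d ∧ 100 ≤ ε * d ∧ 4 ≤ c₀ * d ∧
      1 ≤ Real.log d ∧
      4 * Real.sqrt (e / d) + 1 / d ≤ 1 / 10 ∧
      (4 * Real.sqrt (e / d) + 1 / d) * (3 * (6 * Ch * Real.log d)) ≤ ε / 50 ∧
      6 * Ch * Real.log d ≤ Real.sqrt (e * d) ∧
      K * Real.log d ≤ ε / 50 * (c₀ * d * (9 / 10)) ∧
      C₁ * (d * Real.log d) ≤ (d : ℝ) ^ 2 := by
  have hcast : Filter.Tendsto (fun d : ℕ => (d : ℝ)) Filter.atTop Filter.atTop :=
    tendsto_natCast_atTop_atTop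
  have t0 : Filter.Tendsto (fun d : ℕ => 4 * Real.sqrt (e / d) + 1 / d) Filter.atTop (nhds 0) := by
    have h1 : Filter.Tendsto (fun d : ℕ => e / (d : ℝ)) Filter.atTop (nhds 0) :=
      tendsto_const_div_atTop_nhds_zero_nat e
    have h2 := (Real.continuous_sqrt.tendsto 0).comp h1
    rw [Real.sqrt_zero] at h2
    have h3 := (h2.const_mul 4).add (tendsto_const_div_atTop_nhds_zero_nat (1 : ℝ))
    rw [mul_zero, add_zero] at h3
    exact h3
  have hse : 0 < Real.sqrt e := Real.sqrt_pos.2 he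
  have e1 := hcast.eventually_ge_atTop 16
  have e2 := hcast.eventually_ge_atTop (100 / ε)
  have e3 := hcast.eventually_ge_atTop (4 / c₀)
  have e4 := (Real.tendsto_log_atTop.comp hcast).eventually_ge_atTop 1
  have e5 := t0.eventually_le_const (show (0 : ℝ) < 1 / 10 by norm_num)
  have e6 := pdl_log (ε / 50 / ((4 * Real.sqrt e + 1) * (3 * (6 * (Ch + 1))))) (by positivity)
  have e7 := pdl_log (Real.sqrt e / (6 * (Ch + 1))) (by positivity)
  have e8 := pdl_log (ε / 50 * (c₀ * (9 / 10)) / (K + 1)) (by positivity)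
  have e9 := pdl_log (1 / (|C₁| + 1)) (by positivity)
  obtain ⟨D, hD⟩ := Filter.eventually_atTop.1
    (e1.and (e2.and (e3.and (e4.and (e5.and (e6.and (e7.and (e8.and e9))))))))
  refine ⟨D, fun d hd => ?_⟩
  obtain ⟨h1, h2, h3, h4, h5, h6, h7, h8, h9⟩ := hD d hd
  have hd0 : (0 : ℝ) < d := by linarith
  have h4' : 1 ≤ Real.log d := h4
  have hl0 : 0 < Real.log d := by linarith
  have hr0 : 0 < Real.sqrt d := Real.sqrt_pos.2 hd0
  have hr1 : 1 ≤ Real.sqrt d := by rw [Real.one_le_sqrt]; linarith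
  have hr2 : Real.sqrt d ^ 2 = d := Real.sq_sqrt hd0.le
  have hrd : Real.sqrt d ≤ d := by
    calc Real.sqrt d = Real.sqrt d * 1 := (mul_one _).symm
      _ ≤ Real.sqrt d * Real.sqrt d := mul_le_mul_of_nonneg_left hr1 hr0.le
      _ = d := by rw [← sq, hr2]
  refine ⟨h1, ?_, ?_, h4', h5, ?_, ?_, ?_, ?_⟩
  · rw [div_le_iff₀ hε] at h2
    linarith
  · rw [div_le_iff₀ hc₀] at h3
    linarith
  · have g1 : 4 * Real.sqrt (e / d) + 1 / d ≤ (4 * Real.sqrt e + 1) / Real.sqrt d := by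
      rw [Real.sqrt_div he.le, add_div]
      have g2 : 1 / (d : ℝ) ≤ 1 / Real.sqrt d := one_div_le_one_div_of_le hr0 hrd
      have g3 : 4 * (Real.sqrt e / Real.sqrt d) = 4 * Real.sqrt e / Real.sqrt d := by ring
      linarith
    have g4 : 3 * (6 * Ch * Real.log d) ≤ 3 * (6 * (Ch + 1)) * Real.log d := by
      have : 0 ≤ Real.log d := hl0.le
      linarith
    have g5 : Real.log d * ((4 * Real.sqrt e + 1) * (3 * (6 * (Ch + 1)))) ≤
        ε / 50 * Real.sqrt d := by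
      have g6 : 0 < (4 * Real.sqrt e + 1) * (3 * (6 * (Ch + 1))) := by positivity
      have g7 : ε / 50 / ((4 * Real.sqrt e + 1) * (3 * (6 * (Ch + 1)))) * Real.sqrt d *
          ((4 * Real.sqrt e + 1) * (3 * (6 * (Ch + 1)))) = ε / 50 * Real.sqrt d := by
        field_simp
      rw [← g7]
      exact mul_le_mul_of_nonneg_right h6 g6.le
    calc (4 * Real.sqrt (e / d) + 1 / d) * (3 * (6 * Ch * Real.log d)) ≤
        (4 * Real.sqrt e + 1) / Real.sqrt d * (3 * (6 * (Ch + 1)) * Real.log d) := by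
          refine mul_le_mul g1 g4 (by positivity) (by positivity)
      _ = Real.log d * ((4 * Real.sqrt e + 1) * (3 * (6 * (Ch + 1)))) / Real.sqrt d := by ring
      _ ≤ ε / 50 := by
          rw [div_le_iff₀ hr0]
          exact g5
  · rw [Real.sqrt_mul he.le]
    have g1 : 6 * Ch * Real.log d ≤ 6 * (Ch + 1) * Real.log d := by
      have : 0 ≤ Real.log d := hl0.le
      linarith
    have g2 : Real.log d * (6 * (Ch + 1)) ≤ Real.sqrt e * Real.sqrt d := by
      have g6 : 0 < 6 * (Ch + 1) := by positivity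
      have g7 : Real.sqrt e / (6 * (Ch + 1)) * Real.sqrt d * (6 * (Ch + 1)) =
          Real.sqrt e * Real.sqrt d := by
        field_simp
      rw [← g7]
      exact mul_le_mul_of_nonneg_right h7 g6.le
    linarith
  · have g1 : K * Real.log d ≤ (K + 1) * Real.log d := by linarith
    have g2 : Real.log d * (K + 1) ≤ ε / 50 * (c₀ * (9 / 10)) * Real.sqrt d := by
      have g6 : 0 < K + 1 := by positivity
      have g7 : ε / 50 * (c₀ * (9 / 10)) / (K + 1) * Real.sqrt d * (K + 1) =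
          ε / 50 * (c₀ * (9 / 10)) * Real.sqrt d := by
        field_simp
      rw [← g7]
      exact mul_le_mul_of_nonneg_right h8 g6.le
    have g3 : ε / 50 * (c₀ * (9 / 10)) * Real.sqrt d ≤ ε / 50 * (c₀ * (9 / 10)) * d :=
      mul_le_mul_of_nonneg_left hrd (by positivity)
    linarith
  · have g1 : C₁ * (d * Real.log d) ≤ (|C₁| + 1) * (d * Real.log d) := by
      refine mul_le_mul_of_nonneg_right ?_ (by positivity)
      have := le_abs_self C₁
      linarith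
    have g2 : Real.log d * (|C₁| + 1) ≤ Real.sqrt d := by
      have g6 : 0 < |C₁| + 1 := by positivity
      have g7 : 1 / (|C₁| + 1) * Real.sqrt d * (|C₁| + 1) = Real.sqrt d := by
        field_simp
      calc Real.log d * (|C₁| + 1) ≤ 1 / (|C₁| + 1) * Real.sqrt d * (|C₁| + 1) :=
            mul_le_mul_of_nonneg_right h9 g6.le
        _ = Real.sqrt d := g7
    calc C₁ * (d * Real.log d) ≤ (|C₁| + 1) * (d * Real.log d) := g1
      _ = d * (Real.log d * (|C₁| + 1)) := by ring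
      _ ≤ d * d := mul_le_mul_of_nonneg_left (g2.trans hrd) hd0.le
      _ = (d : ℝ) ^ 2 := by ring

theorem pc_deep_lower (c₀ C₁ ε : ℝ) (hc₀ : 0 < c₀) (hε : 0 < ε) : ∃ D₀ : ℕ, ∀ n d : ℕ,
    D₀ ≤ d → c₀ * d ≤ aopt (Real.log n / d) →
    aopt (Real.log n / d) ≤ C₁ * (d * Real.log d) →
    Real.exp (-(Ld n d + ε)) ≤ pc n d 2 := by
  obtain ⟨Ch, hCh0, hCh⟩ := hD_bound
  obtain ⟨C₂, hC₂, hB⟩ := sum_Ex
  obtain ⟨e, hedef⟩ : ∃ e, e = ε / 400 := ⟨_, rfl⟩
  have he0 : 0 < e := by rw [hedef]; positivity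
  obtain ⟨C₀, hC₀, D₃, hP⟩ := deep_upper e he0
  obtain ⟨D₁, hD₁⟩ := pdl_large e ε Ch (C₂ / 2 + C₀) c₀ C₁ he0 hε hCh0 (by positivity) hc₀
  refine ⟨max D₃ D₁, ?_⟩
  intro n d hd hA hc
  obtain ⟨hd16, hd100, hd4, hld, hτ1, hτ2, hlogd, hconst0, hC₁d⟩ :=
    hD₁ d ((le_max_right _ _).trans hd)
  have hd3 : D₃ ≤ d := (le_max_left _ _).trans hd
  have hd0 : (0 : ℝ) < d := by linarith
  have hd2n : 2 ≤ d := by exact_mod_cast (show (2 : ℝ) ≤ d by linarith)
  obtain ⟨b, hb⟩ : ∃ b, b = Real.log n / d := ⟨_, rfl⟩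
  have hlogn : Real.log n = b * d := by rw [hb]; field_simp
  rw [← hb] at hA hc
  have hb0 : 0 < b := by
    by_contra hcon
    have := pdl_aopt_nonpos (not_lt.1 hcon)
    linarith
  obtain ⟨ha0, hell, hth, h2b, h4b⟩ := aopt_spec hb0
  have hquad := fun (α : ℝ) (hα : 0 < α) => aopt_quad_min (b := b) hb0 hα
  obtain ⟨m, hm⟩ : ∃ m, m = (∫ u in (0 : ℝ)..aopt b, hD d u) / aopt b := ⟨_, rfl⟩
  have hLd : Ld n d = d * ell b + m := by
    unfold Ld
    rw [← hb, hm]
  obtain ⟨a, ha⟩ : ∃ a, a = aopt b := ⟨_, rfl⟩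
  rw [← ha] at hA hc ha0 hell hth h2b h4b hm
  simp only [← ha] at hquad
  have ha4 : 4 ≤ a := by linarith
  have had : a ≤ (d : ℝ) ^ 2 := hc.trans hC₁d
  have hlad : Real.log a ≤ 2 * Real.log d := by
    have h1 := Real.log_le_log ha0 had
    rw [Real.log_pow] at h1
    exact_mod_cast h1
  obtain ⟨s, hs⟩ : ∃ s, s = Real.sqrt (e / d) := ⟨_, rfl⟩
  have hs0 : 0 ≤ s := by rw [hs]; exact Real.sqrt_nonneg _
  have hs2 : s ^ 2 = e / d := by rw [hs]; exact Real.sq_sqrt (by positivity)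
  have hsd : Real.sqrt (e * d) = d * s := by
    have h1 : e * d = (d : ℝ) ^ 2 * (e / d) := by field_simp
    rw [h1, Real.sqrt_mul (sq_nonneg _), Real.sqrt_sq hd0.le, hs]
  rw [← hs] at hτ1 hτ2
  obtain ⟨τ, hτ⟩ : ∃ τ, τ = 4 * s + 1 / (d : ℝ) := ⟨_, rfl⟩
  rw [← hτ] at hτ1 hτ2
  obtain ⟨H, hH⟩ : ∃ H, H = 6 * Ch * Real.log d := ⟨_, rfl⟩
  have hH0 : 0 ≤ H := by rw [hH]; exact mul_nonneg (by positivity) (by linarith)
  rw [← hH] at hτ2 hlogd
  have h1d : 0 < 1 / (d : ℝ) := by positivity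
  have hτ0 : 0 ≤ τ := by rw [hτ]; positivity
  have hs1 : 4 * s ≤ 1 / 10 := by linarith
  obtain ⟨α, hα⟩ : ∃ α, α = a * (1 - 4 * s) := ⟨_, rfl⟩
  have hα0 : 0 < α := by rw [hα]; exact mul_pos ha0 (by linarith)
  obtain ⟨k, hk⟩ : ∃ k, k = ⌊α * d⌋₊ := ⟨_, rfl⟩
  have hk1 : (k : ℝ) ≤ α * d := by rw [hk]; exact Nat.floor_le (by positivity)
  have hk2 : α * d < k + 1 := by rw [hk]; exact Nat.lt_floor_add_one _
  obtain ⟨κ, hκ⟩ : ∃ κ, κ = (k : ℝ) / d := ⟨_, rfl⟩
  have hkκ : (k : ℝ) = κ * d := by rw [hκ]; field_simp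
  have hκα : κ ≤ α := by rw [hκ, div_le_iff₀ hd0]; exact hk1
  have hακ : α ≤ κ + 1 / d := by
    have h1 : κ + 1 / d = ((k : ℝ) + 1) / d := by rw [hκ]; ring
    rw [h1, le_div_iff₀ hd0]; exact hk2.le
  have hαa : α ≤ a := by rw [hα]; exact mul_le_of_le_one_right ha0.le (by linarith)
  have hκa : κ ≤ a := hκα.trans hαa
  have hgap : a - κ ≤ a * τ := by
    have h1 : a * τ = 4 * a * s + a * (1 / d) := by rw [hτ]; ring
    have h2 : 1 / (d : ℝ) ≤ a * (1 / d) := le_mul_of_one_le_left h1d.le (by linarith)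
    have h3 : α = a - 4 * a * s := by rw [hα]; ring
    linarith
  have hgap2 : 4 * a * s ≤ a - κ := by
    have h3 : α = a - 4 * a * s := by rw [hα]; ring
    linarith
  have haτ : a * τ ≤ a * (1 / 10) := mul_le_mul_of_nonneg_left hτ1 ha0.le
  have hκlow : a * (9 / 10) ≤ κ := by linarith
  have hκ1 : 1 ≤ κ := by linarith
  have hκ0 : 0 < κ := by linarith
  have hτ3 : d * τ ^ 2 ≤ 32 * e + 2 / d := by
    have h1 : τ ^ 2 ≤ 2 * (16 * s ^ 2 + (1 / (d : ℝ)) ^ 2) := by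
      rw [hτ, show 16 * s ^ 2 = (4 * s) ^ 2 by ring]
      exact pdl_sq _ _
    have h2 : (d : ℝ) * (2 * (16 * s ^ 2 + (1 / (d : ℝ)) ^ 2)) = 32 * e + 2 / d := by
      rw [hs2]
      field_simp
      ring
    rw [← h2]
    exact mul_le_mul_of_nonneg_left h1 hd0.le
  -- the conditions on `k`
  have hdk : d ≤ k := by
    have : (d : ℝ) ≤ k := by rw [hkκ]; exact le_mul_of_one_le_left hd0.le hκ1
    exact_mod_cast this
  have hkd3 : k ≤ d ^ 3 := by
    have h1 : (k : ℝ) ≤ (d : ℝ) ^ 3 := by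
      calc (k : ℝ) = κ * d := hkκ
        _ ≤ (d : ℝ) ^ 2 * d := mul_le_mul_of_nonneg_right (hκa.trans had) hd0.le
        _ = (d : ℝ) ^ 3 := by ring
    exact_mod_cast h1
  have hn0 : n ≠ 0 := by
    rintro rfl
    rw [Nat.cast_zero, Real.log_zero] at hlogn
    have : 0 < b * d := by positivity
    linarith
  have hnpos : (0 : ℝ) < n := by exact_mod_cast Nat.pos_of_ne_zero hn0
  have hkn : k ≤ d * (n - 1) := by
    have h1 : Real.log n + 1 ≤ n := by
      have := Real.log_le_sub_one_of_pos hnpos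
      linarith
    have h2 : κ ≤ (n : ℝ) - 1 := by
      have h3 : b * 16 ≤ b * d := mul_le_mul_of_nonneg_left hd16 hb0.le
      linarith
    have h4 : (k : ℝ) ≤ d * ((n : ℝ) - 1) := by
      rw [hkκ, mul_comm]
      exact mul_le_mul_of_nonneg_left h2 hd0.le
    have h5 : ((n - 1 : ℕ) : ℝ) = (n : ℝ) - 1 := by
      rw [Nat.cast_sub (Nat.one_le_iff_ne_zero.2 hn0), Nat.cast_one]
    rw [← h5] at h4
    exact_mod_cast h4
  -- averages
  have hf : ∀ u : ℝ, 0 < u → |hD d u| ≤ Ch * (Real.log d + |Real.log u|) :=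
    fun u hu => hCh d u hd2n hu
  have hI1 := pdl_int0 hCh0 hf hκ1 hκa hlad hld
  have hI2 := pdl_int1 hCh0 hf hκ1 hκa hlad hld
  rw [← hH] at hI1 hI2
  obtain ⟨hW1, hW2⟩ := pdl_avg hκ0 hκa hH0 (hD_int hd2n le_rfl hκ0.le)
    (hD_int hd2n hκ0.le ha0.le) hI1 hI2 hm
  rw [abs_le] at hW2
  -- the volume
  have hSd : sfun d k = d * vfun κ := by rw [hκ]; rfl
  have hS0 : 0 ≤ sfun d k := by
    rw [hSd]
    exact mul_nonneg hd0.le (vfun_nonneg hκ0.le)
  have hSL : sfun d k + Real.sqrt (e * d) ≤ Ld n d + ε := by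
    have h1 := le_vfun_sub hκ0.le hκa
    have h2 : 2 * s ≤ (a - κ) / (a + 2) := by
      rw [le_div_iff₀ (by linarith)]
      have h7 : 4 * s ≤ a * s := mul_le_mul_of_nonneg_right ha4 hs0
      have h8 : 2 * s * (a + 2) = 2 * (a * s) + 4 * s := by ring
      have h9 : 0 ≤ a * s := mul_nonneg ha0.le hs0
      have h10 : 4 * a * s = 4 * (a * s) := by ring
      linarith
    have h3 : d * (2 * s) ≤ d * (vfun a - vfun κ) :=
      mul_le_mul_of_nonneg_left (h2.trans h1) hd0.le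
    rw [hLd, hell, hSd, hsd]
    rw [hsd] at hlogd
    linarith [hW2.1]
  -- the exponent
  have hconst : (C₂ / 2 + C₀) * Real.log d ≤ ε / 50 * κ := by
    refine hconst0.trans (mul_le_mul_of_nonneg_left ?_ (by positivity))
    have := mul_le_mul_of_nonneg_right hA (show (0 : ℝ) ≤ 9 / 10 by norm_num)
    linarith
  have hBk := (abs_le.1 (hB d k hd2n hdk hkd3)).2
  have hqk := hquad κ hκ0
  rw [← hκ] at hBk
  rw [min_eq_left hκa, hell] at hqk
  have hqk' := (abs_le.1 hqk).2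
  rw [show (κ - a) ^ 2 = (a - κ) ^ 2 by ring] at hqk'
  have hd1n : 1 ≤ n := Nat.one_le_iff_ne_zero.2 hn0
  have hkd : (d : ℝ) ≤ k := by exact_mod_cast hdk
  refine le_pc_of n d _ fun p hp0 hp => ?_
  rcases eq_or_lt_of_le hp0 with h | hp0'
  · rw [← h, u_percProb_zero hd1n]
    norm_num
  · obtain ⟨L, hL⟩ : ∃ L, L = -Real.log p := ⟨_, rfl⟩
    have hpL : p = Real.exp (-L) := by rw [hL, neg_neg, Real.exp_log hp0']
    have hLL : Ld n d + ε ≤ L := by
      rw [hpL] at hp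
      have := Real.exp_le_exp.1 hp
      linarith
    rw [hpL]
    refine lt_of_le_of_lt (hP n d k L hd3 hdk hkd3 hkn (hSL.trans hLL)) ?_
    rw [hlogn]
    have hE := pdl_alg (d := (d : ℝ)) (k := (k : ℝ)) (a := a) (κ := κ) (b := b) (ℓ := vfun a)
      (I := ∫ u in (0 : ℝ)..κ, vfun u) (S := sfun d k) (m := m)
      (IH := ∫ u in (0 : ℝ)..κ, hD d u) (ld := Real.log d) (L := L)
      (L0 := Ld n d + ε) (sE := ∑ t ∈ Finset.range k, Ex d t) (e := e) (C₀ := C₀)
      (C₂ := C₂) (H := H) (ε := ε) (τ := τ) hd16 hkκ hκ1 hκa hε he0 hedef.le hτ0 hτ1 hτ2 hH0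
      hd100 hgap hτ3 hLL (by rw [hLd, hell]) (by linarith) hqk' hW1 hconst hS0
    have h1 : ε / 4 * (k : ℝ) ≥ 25 := by
      have := mul_le_mul_of_nonneg_left hkd hε.le
      linarith
    refine lt_of_le_of_lt (Real.exp_le_exp.2 (hE.trans (by linarith : -(ε / 4) * (k : ℝ) ≤ -25))) ?_
    rw [Real.exp_neg]
    have h2 := Real.add_one_le_exp (25 : ℝ)
    rw [inv_lt_comm₀ (Real.exp_pos _) (by norm_num)]
    linarith

end PcDeepLower

end Pool.Agent.Lib.MP_8501c9_pr.Deep
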