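import Pool.Agent.Lib.MP_8501c9_pr.Deep.BlockE
import Pool.Agent.Lib.MP_8501c9_pr.Deep.BlockF
import Pool.Agent.Lib.MP_8501c9_pr.Wide.InvStep
import Pool.Agent.Lib.MP_8501c9_pr.Wide.Brun

/-!
# K11: many blocks
-/

set_option autoImplicit false
open Set

namespace Pool.Agent.Lib.MP_8501c9_pr.Deep

open Pool.Agent.Lib.MP_8501c9_pr Pool.Agent.Lib.MP_8501c9_pr.Mid
open Pool.Agent.Lib.MP_8501c9_pr.Wide

variable {n d : ℕ}

theorem k11_refl {p θ : ℝ} (hθ : θ = 1) {z : Vtx n d} {P₀ P₁ : (Fin d → ℕ) → Prop}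
    (h : ∀ x, P₀ x → P₁ x) : Reach p z P₀ P₁ θ := by
  intro g v hv hnext x Z T h0 hc
  rw [hθ, one_mul]
  exact hnext x Z T (h x h0) hc

theorem deep_run (ε ε₀ : ℝ) (hε : 0 < ε) (hε₀ : 0 < ε₀) : ∃ D₀ : ℕ,
    ∀ (n d X j : ℕ) (L : ℝ) (z : Vtx n d), D₀ ≤ d → ε₀ * d ≤ X → 1 ≤ X →
      X + j * blk d ≤ d ^ 2 →
      sfun d ((X + j * blk d - 1) * d) + 6 * Real.log d ≤ L → Room (X + j * blk d + 8) z →
      Reach (Real.exp (-L)) z (fun x => ∀ m, x m = X) (fun x => ∀ m, x m = X + j * blk d)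
        (Real.exp (∑ t ∈ Finset.Ico ((X - 1) * d) ((X + j * blk d - 1) * d),
          ((Ex d t - L) / 2 - ε))) := by
  obtain ⟨T₀, hT₀, DF, hF⟩ := deep_block_F ε hε
  obtain ⟨DE, hE⟩ := deep_block_E ε ε₀ T₀ hε hε₀
  refine ⟨max (max DF DE) 1, ?_⟩
  intro n d X j L z hD hX hX1
  have hDF : DF ≤ d := le_trans (le_trans (le_max_left _ _) (le_max_left _ _)) hD
  have hDE : DE ≤ d := le_trans (le_trans (le_max_right _ _) (le_max_left _ _)) hD
  have hd1 : 1 ≤ d := le_trans (le_max_right _ _) hD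
  induction j with
  | zero =>
    intro _ _ _
    refine k11_refl ?_ ?_
    · simp
    · intro x hx m
      rw [hx m]
      simp
  | succ j ih =>
    intro hXd hL hroom
    have e : X + (j + 1) * blk d = X + j * blk d + blk d := by ring
    rw [e] at hXd hL hroom ⊢
    have hle : (X + j * blk d - 1) * d ≤ (X + j * blk d + blk d - 1) * d :=
      Nat.mul_le_mul_right d (by omega)
    have h1 := ih (by omega) (le_trans (by linarith [sfun_mono d hd1 hle]) hL)
      (brun_room hroom (by omega))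
    have hX' : ε₀ * d ≤ ((X + j * blk d : ℕ) : ℝ) := by
      push_cast
      have : (0 : ℝ) ≤ j * blk d := by positivity
      linarith
    have h2 : Reach (Real.exp (-L)) z (fun x => ∀ m, x m = X + j * blk d)
        (fun x => ∀ m, x m = X + j * blk d + blk d)
        (Real.exp (∑ t ∈ Finset.Ico ((X + j * blk d - 1) * d)
          ((X + j * blk d + blk d - 1) * d), ((Ex d t - L) / 2 - ε))) := by
      rcases le_total ((X + j * blk d : ℕ) : ℝ) (T₀ * d) with h | h
      · exact hE n d (X + j * blk d) L z hDE hX' h hL hroom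
      · exact hF n d (X + j * blk d) L z hDF h (by omega) hL hroom
    have h3 := reach_trans (Real.exp_pos _).le h1 h2
    rw [← Real.exp_add, Finset.sum_Ico_consecutive _ (Nat.mul_le_mul_right d (by omega)) hle] at h3
    exact h3

end Pool.Agent.Lib.MP_8501c9_pr.Deep
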