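import Pool.Agent.Lib.MP_8501c9_pr.Deep.Defs2
import Pool.Agent.Lib.MP_8501c9_pr.Deep.ChooseY
import Pool.Agent.Lib.MP_8501c9_pr.Wide.Fill
import Pool.Agent.Lib.MP_8501c9_pr.Wide.Top
import Pool.Agent.Lib.MP_8501c9_pr.PotA

/-!
# Near and after the critical size: steps with prescribed directions
-/

set_option autoImplicit false
open Set

namespace Pool.Agent.Lib.MP_8501c9_pr.Deep

open Pool.Agent.Lib.MP_8501c9_pr Pool.Agent.Lib.MP_8501c9_pr.Mid
open Pool.Agent.Lib.MP_8501c9_pr.Wide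

variable {n d : ℕ}

/-- lower bound for the probability of `N` steps from size `a` -/
noncomputable def k13P (d : ℕ) (p : ℝ) (y a N : ℕ) : ℝ :=
  ∏ i ∈ Finset.range N, fch p (Real.exp (sfun d (a + 2 * i) - 1)) y

theorem k13P_nonneg {p : ℝ} (hp0 : 0 ≤ p) (y a N : ℕ) : 0 ≤ k13P d p y a N :=
  Finset.prod_nonneg fun _ _ => l9_fch_nonneg hp0 (Real.exp_pos _).le y

theorem k13P_add (p : ℝ) (y a N M : ℕ) :
    k13P d p y a (N + M) = k13P d p y a N * k13P d p y (a + 2 * N) M := by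
  unfold k13P
  rw [Finset.prod_range_add]
  congr 1
  apply Finset.prod_congr rfl
  intro i _
  rw [mul_add, add_assoc]

theorem k13_fch_anti {p : ℝ} (hp0 : 0 ≤ p) {v : ℝ} (hv : 0 ≤ v) {y y' : ℕ} (hy : 1 ≤ y)
    (h : y ≤ y') : fch p v y' ≤ fch p v y := by
  unfold fch
  have hy' : (0 : ℝ) < y := by exact_mod_cast hy
  have h' : (y : ℝ) ≤ y' := by exact_mod_cast h
  have h1 : 4 * p * v / (y' : ℝ) ^ 3 ≤ 4 * p * v / (y : ℝ) ^ 3 := by
    apply div_le_div_of_nonneg_left (by positivity) (by positivity)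
    exact pow_le_pow_left₀ hy'.le h' 3
  have h2 := Real.exp_le_exp.mpr (neg_le_neg h1)
  linarith

/-- two levels -/
theorem k13_step {p : ℝ} (hp0 : 0 ≤ p) (hp1 : p ≤ 1) {z : Vtx n d} {X Y : ℕ} (hX : 1 ≤ X)
    (hd : 2 ≤ d) (hXd : (d : ℝ) * (2 / X) ^ 2 ≤ 1) (hXY : X + 2 ≤ Y) (hroom : Room (Y + 1) z) :
    Reach p z (fun x => x = fun _ => X) (fun x => x = fun _ => X + 2)
      (k13P d p Y ((X - 1) * d) d) := by
  have hroom' : Room (X + 2 + 1) z := fun i => by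
    have := hroom i
    omega
  have hs : ∑ _m : Fin d, (X + 2 - X) = 2 * d := by
    rw [Finset.sum_const, Finset.card_univ, Fintype.card_fin, smul_eq_mul]
    have : X + 2 - X = 2 := by omega
    rw [this, mul_comm]
  have h := reach_fill hp0 hp1 (z := z) (x₀ := fun _ : Fin d => X) (x₁ := fun _ => X + 2)
    (l := X) (y := X + 2) (J := 2) hX (fun m => by omega) (fun m => le_rfl) (fun m => le_rfl)
    le_rfl (by
      show Even (∑ _m : Fin d, (X + 2 - X))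
      rw [hs]
      exact ⟨d, by ring⟩)
    ⟨⟨0, by omega⟩, ⟨1, by omega⟩, by
      intro h
      have := congrArg Fin.val h
      simp at this, fun m => ⟨le_rfl, le_rfl⟩⟩ hroom'
  refine l9_reach_mono h ?_
  have e1 : (∑ _m : Fin d, (X + 2 - X)) / 2 = d := by
    rw [hs]
    omega
  have e2 : ∑ _m : Fin d, (X - 1) = (X - 1) * d := by
    rw [Finset.sum_const, Finset.card_univ, Fintype.card_fin, smul_eq_mul, mul_comm]
  show k13P d p Y ((X - 1) * d) d ≤ ∏ i ∈ Finset.range ((∑ _m : Fin d, (X + 2 - X)) / 2),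
    fch p (Real.exp (sfun d (∑ _m : Fin d, (X - 1) + 2 * i) - d * (((2 : ℕ) : ℝ) / X) ^ 2)) (X + 2)
  rw [e1, e2]
  unfold k13P
  refine Finset.prod_le_prod (fun i _ => l9_fch_nonneg hp0 (Real.exp_pos _).le Y) fun i _ => ?_
  refine (k13_fch_anti hp0 (Real.exp_pos _).le (by omega) hXY).trans ?_
  refine l9_fch_mono hp0 ?_ _
  apply Real.exp_le_exp.2
  push_cast
  linarith

/-- many levels -/
theorem k13_run {p : ℝ} (hp0 : 0 ≤ p) (hp1 : p ≤ 1) {z : Vtx n d} {X Y : ℕ} (hX : 1 ≤ X)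
    (hd : 2 ≤ d) (hXd : (d : ℝ) * (2 / X) ^ 2 ≤ 1) (b : ℕ) (hXY : X + 2 * b ≤ Y)
    (hroom : Room (Y + 1) z) :
    Reach p z (fun x => x = fun _ => X) (fun x => x = fun _ => X + 2 * b)
      (k13P d p Y ((X - 1) * d) (b * d)) := by
  induction b with
  | zero =>
    have : k13P d p Y ((X - 1) * d) (0 * d) = 1 := by
      unfold k13P
      simp
    rw [this]
    exact l9_reach_refl (fun x h => by
      show x = _
      rw [show x = fun _ => X from h]
      rfl)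
  | succ b ih =>
    have h1 := ih (by omega)
    have hXR : (0 : ℝ) < X := by exact_mod_cast hX
    have h2 := k13_step hp0 hp1 (z := z) (X := X + 2 * b) (Y := Y) (by omega) hd (by
      refine le_trans ?_ hXd
      push_cast
      gcongr
      have : (0 : ℝ) ≤ b := Nat.cast_nonneg b
      linarith) (by omega) hroom
    have e1 : (X + 2 * b - 1) * d = (X - 1) * d + 2 * (b * d) := by
      have : X + 2 * b - 1 = X - 1 + 2 * b := by omega
      rw [this]
      ring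
    rw [e1] at h2
    rw [show (b + 1) * d = b * d + d by ring, k13P_add]
    exact reach_trans (k13P_nonneg hp0 _ _ _) h1 h2

/-- exponent of a step -/
theorem k13_w_ge {C₀ L : ℝ} {k Y t : ℕ} (hd : 1 ≤ d) (hlog : 7 ≤ Real.log d)
    (hL : L ≤ sfun d k + C₀ * Real.log d) (hY1 : 1 ≤ Y) (hY : Y ≤ 4 * d ^ 2) :
    Real.exp (sfun d t - sfun d k - (C₀ + 7) * Real.log d) ≤
      4 * Real.exp (-L) * Real.exp (sfun d t - 1) / (Y : ℝ) ^ 3 := by
  have hdR : (0 : ℝ) < d := by exact_mod_cast hd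
  have hYR : (0 : ℝ) < Y := by exact_mod_cast hY1
  have hYd : (Y : ℝ) ≤ 4 * d ^ 2 := by exact_mod_cast hY
  have h1 : (4 : ℝ) * Real.exp (-L) * Real.exp (sfun d t - 1) / (Y : ℝ) ^ 3 =
      Real.exp (Real.log 4 - L + (sfun d t - 1) - 3 * Real.log Y) := by
    have e3 : (Y : ℝ) ^ 3 = Real.exp (3 * Real.log Y) := by
      rw [show (3 : ℝ) * Real.log Y = ((3 : ℕ) : ℝ) * Real.log Y by norm_num, Real.exp_nat_mul,
        Real.exp_log hYR]
    have e4 : (4 : ℝ) = Real.exp (Real.log 4) := (Real.exp_log (by norm_num)).symm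
    rw [e3, div_eq_mul_inv, ← Real.exp_neg]
    nth_rewrite 1 [e4]
    rw [← Real.exp_add, ← Real.exp_add, ← Real.exp_add]
    congr 1
  rw [h1]
  apply Real.exp_le_exp.2
  have h7 : Real.log Y ≤ Real.log 4 + 2 * Real.log d := by
    have : Real.log 4 + 2 * Real.log d = Real.log (4 * (d : ℝ) ^ 2) := by
      rw [Real.log_mul (by norm_num) (by positivity), Real.log_pow]
      norm_num
    rw [this]
    exact Real.log_le_log hYR hYd
  have h8 : Real.log 4 ≤ 1.4 := by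
    have : Real.log 4 = 2 * Real.log 2 := by
      rw [show (4 : ℝ) = 2 ^ 2 by norm_num, Real.log_pow]
      norm_num
    rw [this]
    have := Real.log_two_lt_d9
    linarith
  nlinarith

/-- powers of the logarithm are small -/
theorem k13_log_pow (n : ℕ) (c : ℝ) (hc : 0 < c) :
    ∀ᶠ x : ℝ in Filter.atTop, Real.log x ^ n ≤ c * x := by
  have h := Real.isLittleO_pow_log_id_atTop (n := n)
  have h2 := h.bound hc
  filter_upwards [h2, Filter.eventually_ge_atTop (1 : ℝ)] with x hx hx1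
  rw [Real.norm_eq_abs, Real.norm_eq_abs, id, abs_of_nonneg (by linarith : (0 : ℝ) ≤ x)] at hx
  exact (le_abs_self _).trans hx

theorem k13_blk (hlog : 7 ≤ Real.log d) : (blk d : ℝ) + 4 ≤ 3 * Real.log d ^ 6 := by
  unfold blk
  push_cast
  have h1 : (⌈Real.log d ^ 6⌉₊ : ℝ) ≤ Real.log d ^ 6 + 1 :=
    (Nat.ceil_lt_add_one (by positivity)).le
  have h2 : (7 : ℝ) ^ 6 ≤ Real.log d ^ 6 := pow_le_pow_left₀ (by norm_num) hlog 6
  norm_num at h2
  linarith

/-- the product of the probabilities -/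
theorem k13_prod_lower (ε ε₀ C₀ : ℝ) (hε : 0 < ε) (hε₀ : 0 < ε₀) (hC₀ : 0 ≤ C₀) : ∃ D₀ : ℕ,
    ∀ (d k X Y N : ℕ) (L : ℝ), D₀ ≤ d → ε₀ * (d : ℝ) ^ 2 ≤ k → k ≤ d ^ 3 →
      1 ≤ X → (X - 1) * d ≤ k → k ≤ (X - 1) * d + (blk d + 4) * d → ε₀ / 2 * d ≤ X →
      L ≤ sfun d k + C₀ * Real.log d → 1 ≤ Y → Y ≤ 3 * lev d k + 10 →
      (X - 1) * d + 2 * N = (Y - 1) * d →
      Real.exp (-(ε * k)) ≤ k13P d (Real.exp (-L)) Y ((X - 1) * d) N := by
  obtain ⟨K, hK⟩ : ∃ K : ℝ, K = C₀ + 8 + 6 / ε₀ := ⟨_, rfl⟩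
  have hK8 : 8 ≤ K := by
    rw [hK]
    have : 0 < 6 / ε₀ := by positivity
    linarith
  have hKC : C₀ + 8 ≤ K := by
    rw [hK]
    have : 0 < 6 / ε₀ := by positivity
    linarith
  have hexp : Real.exp (-(ε / 16)) < 1 := by
    rw [Real.exp_lt_one_iff]
    linarith
  have hev1 := k13_log_pow 12 (ε / (22 * K ^ 2)) (by positivity)
  have hev2 : ∀ᶠ x : ℝ in Filter.atTop, 7 ≤ Real.log x :=
    Real.tendsto_log_atTop.eventually_ge_atTop 7
  have hev3 : ∀ᶠ x : ℝ in Filter.atTop, 1 / (1 - Real.exp (-(ε / 16))) ≤ x :=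
    Filter.eventually_ge_atTop _
  have hev4 : ∀ᶠ x : ℝ in Filter.atTop, 1 / ε₀ ≤ x := Filter.eventually_ge_atTop _
  obtain ⟨x₀, hx₀⟩ := Filter.eventually_atTop.1 (((hev1.and hev2).and hev3).and hev4)
  refine ⟨⌈x₀⌉₊ + 13, ?_⟩
  intro d k X Y N L hD hdk hkd hX1 hXk hkX hXd hL hY1 hY hN
  have hxd : x₀ ≤ d := by
    have h1 : x₀ ≤ ⌈x₀⌉₊ := Nat.le_ceil _
    have h2 : ((⌈x₀⌉₊ : ℕ) : ℝ) ≤ d := by
      have : ⌈x₀⌉₊ ≤ d := by omega
      exact_mod_cast this
    linarith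
  obtain ⟨⟨⟨hA, hlog⟩, hB⟩, hE4⟩ := hx₀ d hxd
  have hd1 : 1 ≤ d := by omega
  have hdR : (0 : ℝ) < d := by exact_mod_cast hd1
  have hk1 : (1 : ℝ) ≤ ε₀ * d := by
    rw [div_le_iff₀ hε₀] at hE4
    linarith
  have hdkR : (d : ℝ) ≤ k := by
    calc (d : ℝ) = 1 * d := by ring
      _ ≤ ε₀ * d * d := by gcongr
      _ = ε₀ * (d : ℝ) ^ 2 := by ring
      _ ≤ k := hdk
  have hlev : (lev d k : ℝ) ≤ k / d + 1 := by
    unfold lev
    push_cast
    have := Nat.cast_div_le (α := ℝ) (m := k) (n := d)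
    linarith
  have hlevd : lev d k ≤ d ^ 2 + 1 := by
    unfold lev
    have : k / d ≤ d ^ 2 := by
      apply Nat.div_le_of_le_mul
      calc k ≤ d ^ 3 := hkd
        _ = d * d ^ 2 := by ring
    omega
  have hY4 : Y ≤ 4 * d ^ 2 := by
    have : 13 ≤ d ^ 2 := by
      calc 13 ≤ d := by omega
        _ ≤ d ^ 2 := Nat.le_self_pow (by norm_num) d
    omega
  have hkdR : (1 : ℝ) ≤ k / d := by
    rw [le_div_iff₀ hdR]
    linarith
  have hYR : (Y : ℝ) + 1 ≤ 17 * (k / d) := by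
    have h1 : (Y : ℝ) ≤ 3 * lev d k + 10 := by exact_mod_cast hY
    linarith
  obtain ⟨l, hl⟩ : ∃ l : ℝ, l = Real.log d := ⟨_, rfl⟩
  rw [← hl] at hA hlog hL
  have hl6 : l ≤ l ^ 6 := by
    have : 1 ≤ l ^ 5 := one_le_pow₀ (by linarith)
    calc l = l * 1 := by ring
      _ ≤ l * l ^ 5 := by gcongr
      _ = l ^ 6 := by ring
  have hl61 : 1 ≤ l ^ 6 := by linarith
  have hblk := k13_blk (d := d) (by rw [← hl]; exact hlog)
  rw [← hl] at hblk
  obtain ⟨M, hM⟩ : ∃ M : ℝ, M = 6 * l ^ 6 / ε₀ + (C₀ + 7) * l := ⟨_, rfl⟩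
  have hM0 : 0 ≤ M := by
    rw [hM]
    positivity
  have hMK : M + 1 ≤ K * l ^ 6 := by
    rw [hM, hK]
    have h1 : (C₀ + 7) * l ≤ (C₀ + 7) * l ^ 6 := by gcongr
    have h2 : (C₀ + 8 + 6 / ε₀) * l ^ 6 = 6 * l ^ 6 / ε₀ + (C₀ + 7) * l ^ 6 + l ^ 6 := by ring
    linarith
  have hXR : (0 : ℝ) < X := by exact_mod_cast hX1
  have hakR : (((X - 1) * d : ℕ) : ℝ) ≤ k := by exact_mod_cast hXk
  have hkaR : (k : ℝ) - (((X - 1) * d : ℕ) : ℝ) ≤ 3 * l ^ 6 * d := by
    have h1 : (k : ℝ) ≤ (((X - 1) * d : ℕ) : ℝ) + ((blk d : ℝ) + 4) * d := by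
      exact_mod_cast hkX
    have h2 : ((blk d : ℝ) + 4) * d ≤ 3 * l ^ 6 * d := by gcongr
    linarith
  obtain ⟨i₀, hi₀⟩ : ∃ i₀ : ℕ, i₀ =
    ⌈((k : ℝ) - (((X - 1) * d : ℕ) : ℝ) + ((Y : ℝ) + 1) * ((C₀ + 8) * l)) / 2⌉₊ := ⟨_, rfl⟩
  have hi₀1 : ((k : ℝ) - (((X - 1) * d : ℕ) : ℝ) + ((Y : ℝ) + 1) * ((C₀ + 8) * l)) / 2 ≤ i₀ := by
    rw [hi₀]
    exact Nat.le_ceil _
  have hi₀2 : (i₀ : ℝ) ≤
      ((k : ℝ) - (((X - 1) * d : ℕ) : ℝ) + ((Y : ℝ) + 1) * ((C₀ + 8) * l)) / 2 + 1 := by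
    rw [hi₀]
    refine (Nat.ceil_lt_add_one ?_).le
    have : 0 ≤ (k : ℝ) - (((X - 1) * d : ℕ) : ℝ) := by linarith
    positivity
  -- the volume
  have hdown : ∀ t : ℕ, (X - 1) * d ≤ t → sfun d k - 6 * l ^ 6 / ε₀ ≤ sfun d t := by
    intro t ht
    rcases le_total k t with h | h
    · have h1 := sfun_mono d hd1 h
      have h2 : 0 ≤ 6 * l ^ 6 / ε₀ := by positivity
      linarith
    · obtain ⟨c, rfl⟩ := Nat.exists_eq_add_of_le h
      have h1 := sfun_sub_le d t c hd1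
      have h2 : (c : ℝ) ≤ 3 * l ^ 6 * d := by
        have h3 : ((t + c : ℕ) : ℝ) - (((X - 1) * d : ℕ) : ℝ) ≤ 3 * l ^ 6 * d := hkaR
        have h4 : (((X - 1) * d : ℕ) : ℝ) ≤ t := by exact_mod_cast ht
        push_cast at h3 h4
        linarith
      have h3 : (X : ℝ) ≤ ((t / d : ℕ) : ℝ) + 1 := by
        have : X - 1 ≤ t / d := (Nat.le_div_iff_mul_le (by omega)).2 ht
        have h4 : X ≤ t / d + 1 := by omega
        exact_mod_cast h4
      have h5 : (c : ℝ) / (((t / d : ℕ) : ℝ) + 1) ≤ 6 * l ^ 6 / ε₀ := by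
        rw [div_le_div_iff₀ (by linarith) hε₀]
        calc (c : ℝ) * ε₀ ≤ 3 * l ^ 6 * d * ε₀ := by gcongr
          _ = 6 * l ^ 6 * (ε₀ / 2 * d) := by ring
          _ ≤ 6 * l ^ 6 * X := by gcongr
          _ ≤ 6 * l ^ 6 * (((t / d : ℕ) : ℝ) + 1) := by gcongr
      linarith
  -- each factor
  have hfac : ∀ i ∈ Finset.range N, Real.exp (-(ε / 16 + if i < i₀ then M + 1 else 0)) ≤
      fch (Real.exp (-L)) (Real.exp (sfun d ((X - 1) * d + 2 * i) - 1)) Y := by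
    intro i hi
    rw [Finset.mem_range] at hi
    have hw := k13_w_ge (C₀ := C₀) (L := L) (k := k) (Y := Y) (t := (X - 1) * d + 2 * i) hd1
      (by rw [← hl]; exact hlog) (by rw [← hl]; exact hL) hY1 hY4
    rw [← hl] at hw
    unfold fch
    by_cases hii : i < i₀
    · rw [if_pos hii]
      obtain ⟨w, hwdef⟩ : ∃ w : ℝ, w = Real.exp (-M) := ⟨_, rfl⟩
      have hw1 : w ≤ 4 * Real.exp (-L) * Real.exp (sfun d ((X - 1) * d + 2 * i) - 1) /
          (Y : ℝ) ^ 3 := by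
        refine le_trans ?_ hw
        rw [hwdef]
        apply Real.exp_le_exp.2
        have := hdown ((X - 1) * d + 2 * i) (by omega)
        rw [hM]
        linarith
      have hw0 : 0 < w := by
        rw [hwdef]
        exact Real.exp_pos _
      have hwle : w ≤ 1 := by
        rw [hwdef, Real.exp_le_one_iff]
        linarith
      refine le_trans ?_ (tp_one_sub_exp_mono hw1)
      refine le_trans ?_ (tp_one_sub_exp hw0.le)
      have h2 : w / 2 ≤ w / (1 + w) := div_le_div_of_nonneg_left hw0.le (by linarith) (by linarith)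
      refine le_trans ?_ h2
      rw [hwdef, le_div_iff₀ (by norm_num)]
      have h3 : (2 : ℝ) ≤ Real.exp 1 := by
        have := Real.add_one_le_exp (1 : ℝ)
        linarith
      calc Real.exp (-(ε / 16 + (M + 1))) * 2 ≤ Real.exp (-(ε / 16 + (M + 1))) * Real.exp 1 :=
            mul_le_mul_of_nonneg_left h3 (Real.exp_pos _).le
        _ ≤ Real.exp (-M) := by
            rw [← Real.exp_add]
            apply Real.exp_le_exp.2
            linarith
    · rw [if_neg hii, add_zero]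
      have hii' : (i₀ : ℝ) ≤ i := by
        have : i₀ ≤ i := by omega
        exact_mod_cast this
      have h0 : 0 ≤ ((Y : ℝ) + 1) * ((C₀ + 8) * l) := by positivity
      have hki : k ≤ (X - 1) * d + 2 * i := by
        have : (k : ℝ) ≤ (((X - 1) * d + 2 * i : ℕ) : ℝ) := by
          have e : (((X - 1) * d + 2 * i : ℕ) : ℝ) = (((X - 1) * d : ℕ) : ℝ) + 2 * i := by
            push_cast
            ring
          rw [e]
          linarith
        exact_mod_cast this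
      obtain ⟨r, hr⟩ := Nat.exists_eq_add_of_le hki
      have hrR : ((Y : ℝ) + 1) * ((C₀ + 8) * l) ≤ r := by
        have e : (((X - 1) * d : ℕ) : ℝ) + 2 * i = k + r := by
          have : (((X - 1) * d + 2 * i : ℕ) : ℝ) = ((k + r : ℕ) : ℝ) := by rw [hr]
          push_cast at this
          push_cast
          linarith
        linarith
      have hup : sfun d k + (C₀ + 8) * l ≤ sfun d ((X - 1) * d + 2 * i) := by
        rw [hr]
        refine le_trans ?_ (le_sfun_add d k r hd1)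
        have h2 : (k : ℝ) + r + 2 * d ≤ (Y + 1) * d := by
          have h3 : ((k + r : ℕ) : ℝ) ≤ (((Y - 1) * d : ℕ) : ℝ) := by
            have : k + r ≤ (Y - 1) * d := by omega
            exact_mod_cast this
          rw [Nat.cast_mul, Nat.cast_sub hY1] at h3
          push_cast at h3
          have h4 : ((Y : ℝ) + 1) * d = (Y - 1) * d + 2 * d := by ring
          linarith
        have h4 : (C₀ + 8) * l ≤ (r : ℝ) * (d / (k + r + 2 * d)) := by
          rw [mul_div_assoc', le_div_iff₀ (by positivity)]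
          calc (C₀ + 8) * l * (k + r + 2 * d) ≤ (C₀ + 8) * l * ((Y + 1) * d) := by gcongr
            _ = (((Y : ℝ) + 1) * ((C₀ + 8) * l)) * d := by ring
            _ ≤ r * d := by gcongr
        linarith
      have hw1 : (d : ℝ) ≤ 4 * Real.exp (-L) * Real.exp (sfun d ((X - 1) * d + 2 * i) - 1) /
          (Y : ℝ) ^ 3 := by
        refine le_trans ?_ hw
        nth_rewrite 1 [← Real.exp_log hdR]
        apply Real.exp_le_exp.2
        rw [← hl]
        linarith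
      refine le_trans ?_ (tp_one_sub_exp_mono hw1)
      refine le_trans ?_ (tp_one_sub_exp hdR.le)
      have h2 : (d : ℝ) / (1 + d) = 1 - 1 / (1 + d) := by
        field_simp
        ring
      rw [h2]
      have h3 : 1 / (1 + (d : ℝ)) ≤ 1 - Real.exp (-(ε / 16)) := by
        rw [div_le_iff₀ (by positivity)]
        rw [div_le_iff₀ (by linarith)] at hB
        have h4 : (1 - Real.exp (-(ε / 16))) * (1 + (d : ℝ)) =
          (1 - Real.exp (-(ε / 16))) + d * (1 - Real.exp (-(ε / 16))) := by ring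
        linarith
      linarith
  unfold k13P
  refine le_trans ?_ (Finset.prod_le_prod (fun i _ => (Real.exp_pos _).le) hfac)
  rw [← Real.exp_sum]
  apply Real.exp_le_exp.2
  rw [Finset.sum_neg_distrib, neg_le_neg_iff, Finset.sum_add_distrib, Finset.sum_const,
    Finset.card_range, nsmul_eq_mul]
  have hcard : ∑ i ∈ Finset.range N, (if i < i₀ then M + 1 else 0) ≤ i₀ * (M + 1) := by
    rw [← Finset.sum_filter, Finset.sum_const, nsmul_eq_mul]
    apply mul_le_mul_of_nonneg_right _ (by linarith)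
    have : ((Finset.range N).filter (fun i => i < i₀)).card ≤ (Finset.range i₀).card := by
      apply Finset.card_le_card
      intro i hi
      rw [Finset.mem_filter] at hi
      exact Finset.mem_range.2 hi.2
    rw [Finset.card_range] at this
    exact_mod_cast this
  have hN2 : (N : ℝ) ≤ 8 * k := by
    have h1 : (((X - 1) * d + 2 * N : ℕ) : ℝ) = (((Y - 1) * d : ℕ) : ℝ) := by rw [hN]
    rw [Nat.cast_add, Nat.cast_mul (Y - 1), Nat.cast_sub hY1] at h1
    have h0 : (0 : ℝ) ≤ (((X - 1) * d : ℕ) : ℝ) := Nat.cast_nonneg _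
    push_cast at h1 h0
    have h2 : (Y : ℝ) * d ≤ 3 * k + 13 * d := by
      have h3 : (Y : ℝ) ≤ 3 * lev d k + 10 := by exact_mod_cast hY
      calc (Y : ℝ) * d ≤ (3 * (k / d + 1) + 10) * d := by
            apply mul_le_mul_of_nonneg_right _ hdR.le
            linarith
        _ = 3 * k + 13 * d := by
            field_simp
            ring
    linarith
  have h5 : (i₀ : ℝ) * (M + 1) ≤ ε / 2 * k := by
    have hdk' : (d : ℝ) ≤ k / d / ε₀ := by
      rw [le_div_iff₀ hε₀, le_div_iff₀ hdR]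
      linarith
    have h6 : (i₀ : ℝ) ≤ 11 * K * l ^ 6 * (k / d) := by
      have h7 : ((Y : ℝ) + 1) * ((C₀ + 8) * l) ≤ 17 * (k / d) * (K * l ^ 6) := by
        gcongr
      have h8 : 3 * l ^ 6 * d ≤ K * l ^ 6 * (k / d) := by
        calc 3 * l ^ 6 * d ≤ 3 * l ^ 6 * (k / d / ε₀) := by gcongr
          _ = (3 / ε₀) * l ^ 6 * (k / d) := by ring
          _ ≤ K * l ^ 6 * (k / d) := by
              gcongr
              rw [hK]
              have e : 6 / ε₀ = 3 / ε₀ + 3 / ε₀ := by ring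
              have : 0 < 3 / ε₀ := by positivity
              linarith
      have h9 : 1 ≤ K * l ^ 6 * (k / d) := by
        have h10 : 1 ≤ K * l ^ 6 := one_le_mul_of_one_le_of_one_le (by linarith) hl61
        exact one_le_mul_of_one_le_of_one_le h10 hkdR
      linarith
    have h10 : 22 * K ^ 2 * l ^ 12 ≤ ε * d := by
      calc 22 * K ^ 2 * l ^ 12 ≤ 22 * K ^ 2 * (ε / (22 * K ^ 2) * d) := by gcongr
        _ = ε * d := by field_simp
    calc (i₀ : ℝ) * (M + 1) ≤ (11 * K * l ^ 6 * (k / d)) * (K * l ^ 6) := by gcongr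
      _ = (22 * K ^ 2 * l ^ 12) * (k / d / 2) := by ring
      _ ≤ (ε * d) * (k / d / 2) := by gcongr
      _ = ε / 2 * k := by field_simp
  have h6 : (N : ℝ) * (ε / 16) ≤ 8 * k * (ε / 16) := by gcongr
  linarith

theorem k13_Ex_le {ε₀ : ℝ} (hε₀ : 0 < ε₀) {t X : ℕ} (hd : 1 ≤ d)
    (hg : 2 * (gg (ε₀ / 2) / (ε₀ / 2) ^ 2) ≤ d) (hXd : ε₀ / 2 * d ≤ X) (hX1 : 1 ≤ X)
    (ht : (X - 1) * d ≤ t) : Ex d t ≤ sfun d t := by
  have hdR : (0 : ℝ) < d := by exact_mod_cast hd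
  have h1 : (X : ℝ) ≤ lt d t := by
    unfold lt
    have h2 : (((X - 1) * d : ℕ) : ℝ) ≤ t := by exact_mod_cast ht
    rw [Nat.cast_mul, Nat.cast_sub hX1] at h2
    push_cast at h2
    have h3 : (X : ℝ) - 1 ≤ t / d := by
      rw [le_div_iff₀ hdR]
      exact h2
    linarith
  have hlt : 0 < lt d t := by
    have : (1 : ℝ) ≤ X := by exact_mod_cast hX1
    linarith
  obtain ⟨τ, hτ⟩ : ∃ τ : ℝ, τ = lt d t / d := ⟨_, rfl⟩
  have hτ0 : ε₀ / 2 ≤ τ := by
    rw [hτ, le_div_iff₀ hdR]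
    linarith
  have hτp : 0 < τ := by linarith
  have hltτ : lt d t = τ * d := by
    rw [hτ]
    field_simp
  have h4 := gg_anti (by positivity : 0 < ε₀ / 2) hτ0
  unfold Ex
  rw [← hτ, hltτ]
  have hgp := d8_gg_pos hτp
  have h5 : 2 * (d : ℝ) * gg τ / (τ * d) ^ 2 ≤ 1 := by
    have h6 : 2 * (d : ℝ) * gg τ / (τ * d) ^ 2 = 2 * (gg τ / τ ^ 2) / d := by
      field_simp
    rw [h6, div_le_iff₀ hdR]
    linarith
  have h7 : Real.log (2 * (d : ℝ) * gg τ / (τ * d) ^ 2) ≤ 0 :=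
    Real.log_nonpos (by positivity) h5
  linarith

theorem deep_top (ε ε₀ C₀ : ℝ) (hε : 0 < ε) (hε₀ : 0 < ε₀) (hC₀ : 0 ≤ C₀) : ∃ D₀ : ℕ,
    ∀ (n d k X Y : ℕ) (L : ℝ) (z : Vtx n d), D₀ ≤ d → ε₀ * (d : ℝ) ^ 2 ≤ k → k ≤ d ^ 3 →
      1 ≤ X → (X - 1) * d ≤ k → k ≤ (X - 1) * d + (blk d + 4) * d → Even (Y - X) →
      sfun d k ≤ L → L ≤ sfun d k + C₀ * Real.log d →
      lev d k + 3 ≤ Y → Y ≤ 3 * lev d k + 10 → Room (Y + 3) z →
      Reach (Real.exp (-L)) z (fun x => ∀ m, x m = X) (fun x => ∀ m, x m = Y)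
        (Real.exp ((∑ t ∈ Finset.Ico ((X - 1) * d) k, (Ex d t - L) / 2) - ε * k)) := by
  obtain ⟨D₀, hD₀⟩ := k13_prod_lower ε ε₀ C₀ hε hε₀ hC₀
  have hev1 := k13_log_pow 6 (ε₀ / 6) (by positivity)
  have hev2 : ∀ᶠ x : ℝ in Filter.atTop, 7 ≤ Real.log x :=
    Real.tendsto_log_atTop.eventually_ge_atTop 7
  have hev3 : ∀ᶠ x : ℝ in Filter.atTop, 2 * (gg (ε₀ / 2) / (ε₀ / 2) ^ 2) ≤ x :=
    Filter.eventually_ge_atTop _
  have hev4 : ∀ᶠ x : ℝ in Filter.atTop, 16 / ε₀ ^ 2 ≤ x := Filter.eventually_ge_atTop _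
  obtain ⟨x₀, hx₀⟩ := Filter.eventually_atTop.1 (((hev1.and hev2).and hev3).and hev4)
  refine ⟨D₀ + ⌈x₀⌉₊ + 2, ?_⟩
  intro n d k X Y L z hD hdk hkd hX1 hXk hkX hev hL0 hL hYl hYu hroom
  have hxd : x₀ ≤ d := by
    have h1 : x₀ ≤ ⌈x₀⌉₊ := Nat.le_ceil _
    have h2 : ((⌈x₀⌉₊ : ℕ) : ℝ) ≤ d := by
      have : ⌈x₀⌉₊ ≤ d := by omega
      exact_mod_cast this
    linarith
  obtain ⟨⟨⟨hA, hlog⟩, hg⟩, hE4⟩ := hx₀ d hxd
  have hd1 : 1 ≤ d := by omega
  have hdR : (0 : ℝ) < d := by exact_mod_cast hd1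
  have hblk := k13_blk (d := d) hlog
  have hXR : (1 : ℝ) ≤ X := by exact_mod_cast hX1
  have hXd : ε₀ / 2 * d ≤ X := by
    have h1 : (k : ℝ) ≤ (((X - 1) * d + (blk d + 4) * d : ℕ) : ℝ) := by exact_mod_cast hkX
    rw [Nat.cast_add, Nat.cast_mul, Nat.cast_sub hX1] at h1
    push_cast at h1
    have h2 : ε₀ * (d : ℝ) * d ≤ ((X : ℝ) - 1 + (blk d + 4)) * d := by
      calc ε₀ * (d : ℝ) * d = ε₀ * (d : ℝ) ^ 2 := by ring
        _ ≤ k := hdk
        _ ≤ _ := by linarith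
    have h3 := le_of_mul_le_mul_right h2 hdR
    linarith
  have hp1 : Real.exp (-L) ≤ 1 := by
    rw [Real.exp_le_one_iff]
    have : 0 ≤ sfun d k := by
      rw [← sfun_zero d]
      exact sfun_mono d hd1 (Nat.zero_le k)
    linarith
  have hXlev : X ≤ lev d k := by
    unfold lev
    have : X - 1 ≤ k / d := (Nat.le_div_iff_mul_le (by omega)).2 hXk
    omega
  obtain ⟨b, hb⟩ := hev
  have hYX : Y = X + 2 * b := by omega
  have hXd2 : (d : ℝ) * (2 / X) ^ 2 ≤ 1 := by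
    have h1 : (2 : ℝ) / X ≤ 2 / (ε₀ / 2 * d) := by
      gcongr
    have h2 : (d : ℝ) * (2 / (ε₀ / 2 * d)) ^ 2 = (16 / ε₀ ^ 2) / d := by
      field_simp
      norm_num
    calc (d : ℝ) * (2 / X) ^ 2 ≤ d * (2 / (ε₀ / 2 * d)) ^ 2 := by gcongr
      _ = (16 / ε₀ ^ 2) / d := h2
      _ ≤ 1 := by
        rw [div_le_one hdR]
        exact hE4
  have hrun := k13_run (Real.exp_pos (-L)).le hp1 (z := z) (X := X) (Y := Y) hX1 (by omega)
    hXd2 b (by omega) (fun i => by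
      have := hroom i
      omega)
  have hlow := hD₀ d k X Y (b * d) L (by omega) hdk hkd hX1 hXk hkX hXd hL (by omega) hYu (by
    have : Y - 1 = X - 1 + 2 * b := by omega
    rw [this]
    ring)
  have hsum : ∑ t ∈ Finset.Ico ((X - 1) * d) k, (Ex d t - L) / 2 ≤ 0 := by
    refine Finset.sum_nonpos fun t ht => ?_
    rw [Finset.mem_Ico] at ht
    have h1 := k13_Ex_le hε₀ hd1 hg hXd hX1 ht.1
    have h2 := sfun_mono d hd1 ht.2.le
    linarith
  have hle : Real.exp ((∑ t ∈ Finset.Ico ((X - 1) * d) k, (Ex d t - L) / 2) - ε * k) ≤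
      k13P d (Real.exp (-L)) Y ((X - 1) * d) (b * d) := by
    refine le_trans ?_ hlow
    apply Real.exp_le_exp.2
    linarith
  intro g v hv hgo x Z T hx hc
  refine l9_reach_mono hrun hle g v hv (fun x' Z' T' hx' hc' => hgo x' Z' T' ?_ hc') x Z T ?_ hc
  · intro m
    rw [show x' = fun _ => X + 2 * b from hx', hYX]
  · funext m
    exact hx m

end Pool.Agent.Lib.MP_8501c9_pr.Deep
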