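import Pool.Agent.Lib.MP_8501c9_pr.Deep.DeepStart
import Pool.Agent.Lib.MP_8501c9_pr.Deep.DeepRun
import Pool.Agent.Lib.MP_8501c9_pr.Deep.DeepTop
import Pool.Agent.Lib.MP_8501c9_pr.Deep.Cells2

/-!
# K15: the upper bound of the critical probability, assembly
-/

set_option autoImplicit false
open Set

namespace Pool.Agent.Lib.MP_8501c9_pr.Deep

open Pool.Agent.Lib.MP_8501c9_pr Pool.Agent.Lib.MP_8501c9_pr.Mid
open Pool.Agent.Lib.MP_8501c9_pr.Wide

variable {n d : ℕ}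

theorem k15_log (c : ℝ) (hc : 0 < c) : ∃ D : ℕ, ∀ d : ℕ, D ≤ d →
    11 * (1 + Real.log d) ≤ c * d := by
  have h1 := Real.isLittleO_log_id_atTop.bound (show (0 : ℝ) < c / 22 by positivity)
  have h2 := (tendsto_natCast_atTop_atTop (R := ℝ)).eventually h1
  obtain ⟨D₁, hD₁⟩ := Filter.eventually_atTop.mp h2
  refine ⟨max D₁ ⌈22 / c⌉₊, fun d hd => ?_⟩
  have e1 := hD₁ d (le_trans (le_max_left _ _) hd)
  have e2 : 22 / c ≤ d := le_trans (Nat.le_ceil _) (by exact_mod_cast le_trans (le_max_right _ _) hd)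
  rw [div_le_iff₀ hc] at e2
  have e3 : Real.log d ≤ c / 22 * d := by
    have e4 : Real.log (d : ℝ) ≤ ‖Real.log (d : ℝ)‖ := Real.le_norm_self _
    have e5 : ‖id (d : ℝ)‖ = (d : ℝ) := by simp
    rw [e5] at e1
    linarith
  nlinarith

/-- size of `sfun` -/
theorem k15_sfun {k : ℕ} (hd : 1 ≤ d) (hk : (k : ℝ) ≤ (d : ℝ) ^ 2 * (d - 1)) :
    sfun d k ≤ d * (1 + 2 * Real.log d) := by
  have hd0 : (0 : ℝ) < d := by exact_mod_cast hd
  have hkn : k ≤ d ^ 2 * d := by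
    have : (k : ℝ) ≤ ((d ^ 2 * d : ℕ) : ℝ) := by
      push_cast
      nlinarith [sq_nonneg (d : ℝ)]
    exact_mod_cast this
  refine (sfun_mono d hd hkn).trans ?_
  have h1 := brun_sfun_mul (d := d) hd (d ^ 2)
  rw [h1]
  refine mul_le_mul_of_nonneg_left ?_ hd0.le
  have e1 : (((d ^ 2 : ℕ) : ℝ) + 1) ≤ Real.exp 1 * (d : ℝ) ^ 2 := by
    push_cast
    have e2 : (2.7 : ℝ) < Real.exp 1 := by
      have := Real.exp_one_gt_d9
      linarith
    have e3 : (1 : ℝ) ≤ (d : ℝ) ^ 2 := by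
      have : (1 : ℝ) ≤ d := by exact_mod_cast hd
      nlinarith
    nlinarith
  calc Real.log (((d ^ 2 : ℕ) : ℝ) + 1) ≤ Real.log (Real.exp 1 * (d : ℝ) ^ 2) :=
        Real.log_le_log (by positivity) e1
    _ = 1 + 2 * Real.log d := by
        rw [Real.log_mul (Real.exp_pos _).ne' (by positivity), Real.log_exp, Real.log_pow]
        push_cast
        ring

theorem deep_lower (ε ε₀ : ℝ) (hε : 0 < ε) (hε₀ : 0 < ε₀) : ∃ D₀ : ℕ,
    ∀ (n d k : ℕ) (L : ℝ), D₀ ≤ d → ε₀ * (d : ℝ) ^ 2 ≤ k → (k : ℝ) ≤ (d : ℝ) ^ 2 * (d - 1) →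
      sfun d k + 7 * Real.log d ≤ L → L ≤ sfun d k + 15 / 2 * Real.log d →
      (k : ℝ) ≤ 15 * Real.log n → Real.log n ≤ (d : ℝ) ^ 3 →
      ((k : ℝ) / 2 + 1) * L + ε * k ≤ d * Real.log n + (∑ t ∈ Finset.range k, Ex d t) / 2 →
      1 / 2 ≤ percProb n d 2 (Real.exp (-L)) := by
  obtain ⟨C, hC, DS, hS⟩ := deep_start
  obtain ⟨A, DP, hP⟩ := perc_of_ach2 (ε / 4) (by positivity)
  set ε₁ := min (min (ε₀ / 3) (1 / 3)) (ε * ε₀ / (12 * (C + 1))) with hε₁
  have hε₁0 : 0 < ε₁ := by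
    rw [hε₁]
    positivity
  have hε₁a : 3 * ε₁ ≤ ε₀ := by
    have : ε₁ ≤ ε₀ / 3 := (min_le_left _ _).trans (min_le_left _ _)
    linarith
  have hε₁b : 3 * ε₁ ≤ 1 := by
    have : ε₁ ≤ 1 / 3 := (min_le_left _ _).trans (min_le_right _ _)
    linarith
  have hε₁c : C * (3 * ε₁) ≤ ε / 4 * ε₀ := by
    have h : ε₁ ≤ ε * ε₀ / (12 * (C + 1)) := min_le_right _ _
    rw [le_div_iff₀ (by positivity)] at h
    nlinarith
  obtain ⟨DR, hR⟩ := deep_run (ε / 8) ε₁ (by positivity) hε₁0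
  obtain ⟨DT, hT⟩ := deep_top (ε / 8) ε₀ 8 (by positivity) hε₀ (by norm_num)
  obtain ⟨DL, hDL⟩ := k15_log (ε * ε₀ / 12) (by positivity)
  refine ⟨max (max (max DS DP) (max DR DT)) (max (max DL 2) (max ⌈1 / ε₁⌉₊ ⌈A / ε₀⌉₊)), ?_⟩
  intro n d k L hD hk0 hk1 hL7 hL8 hkn hnd hmain
  simp only [max_le_iff] at hD
  obtain ⟨⟨⟨hDS, hDP⟩, hDR, hDT⟩, ⟨hDL', hd2⟩, hDε, hDA⟩ := hD
  have hd1 : 1 ≤ d := by omega
  have hd0 : (0 : ℝ) < d := by exact_mod_cast hd1
  have hdr1 : (1 : ℝ) ≤ d := by exact_mod_cast hd1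
  have hlog : 0 ≤ Real.log d := Real.log_nonneg hdr1
  have hdε : 1 ≤ ε₁ * d := by
    have h := le_trans (Nat.le_ceil (1 / ε₁)) (by exact_mod_cast hDε : ((⌈1 / ε₁⌉₊ : ℕ) : ℝ) ≤ d)
    rw [div_le_iff₀ hε₁0] at h
    linarith
  have hdA : A ≤ ε₀ * d := by
    have h := le_trans (Nat.le_ceil (A / ε₀)) (by exact_mod_cast hDA : ((⌈A / ε₀⌉₊ : ℕ) : ℝ) ≤ d)
    rw [div_le_iff₀ hε₀] at h
    linarith
  -- integer versions of the bounds of `k`
  have hkd2 : k ≤ d ^ 2 * (d - 1) := by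
    have : (k : ℝ) ≤ ((d ^ 2 * (d - 1) : ℕ) : ℝ) := by
      push_cast [Nat.cast_sub hd1]
      exact hk1
    exact_mod_cast this
  have hkd3 : k ≤ d ^ 3 := by
    refine hkd2.trans ?_
    calc d ^ 2 * (d - 1) ≤ d ^ 2 * d := Nat.mul_le_mul_left _ (by omega)
      _ = d ^ 3 := by ring
  have hlevd : lev d k ≤ d ^ 2 := by
    unfold lev
    have h1 : k / d ≤ d * (d - 1) := by
      refine Nat.div_le_of_le_mul ?_
      calc k ≤ d ^ 2 * (d - 1) := hkd2
        _ = d * (d * (d - 1)) := by ring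
    have h2 : d * (d - 1) + 1 ≤ d ^ 2 := by
      obtain ⟨e, rfl⟩ : ∃ e, d = e + 1 := ⟨d - 1, by omega⟩
      simp only [Nat.add_sub_cancel]
      nlinarith
    omega
  -- the first side length
  set m := ⌊ε₁ * d⌋₊ with hm
  have hm1 : 1 ≤ m := by
    rw [hm, Nat.one_le_floor_iff]
    exact hdε
  have hmle : (m : ℝ) ≤ ε₁ * d := Nat.floor_le (by positivity)
  have hmge : ε₁ * d - 1 ≤ (m : ℝ) := by
    have := Nat.lt_floor_add_one (ε₁ * d)
    rw [← hm] at this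
    linarith
  set X₁ := 2 * m + 1 with hX₁
  have hX₁r : (X₁ : ℝ) = 2 * m + 1 := by rw [hX₁]; push_cast; ring
  have hX₁odd : Odd X₁ := ⟨m, by rw [hX₁]⟩
  have hX₁3 : 3 ≤ X₁ := by omega
  have hX₁up : (X₁ : ℝ) ≤ 3 * ε₁ * d := by
    rw [hX₁r]
    nlinarith
  have hX₁low : ε₁ * d ≤ (X₁ : ℝ) := by
    rw [hX₁r]
    nlinarith
  have hX₁d : X₁ ≤ d := by
    have : (X₁ : ℝ) ≤ d := by
      refine hX₁up.trans ?_
      nlinarith
    exact_mod_cast this
  have hX₁k : (X₁ - 1) * d ≤ k := by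
    have h1 : ((X₁ * d : ℕ) : ℝ) ≤ k := by
      push_cast
      calc (X₁ : ℝ) * d ≤ 3 * ε₁ * d * d := mul_le_mul_of_nonneg_right hX₁up hd0.le
        _ ≤ ε₀ * (d : ℝ) ^ 2 := by nlinarith [sq_nonneg (d : ℝ)]
        _ ≤ k := hk0
    have h2 : X₁ * d ≤ k := by exact_mod_cast h1
    exact (Nat.mul_le_mul_right d (by omega)).trans h2
  have hX₁lev : X₁ ≤ lev d k := by
    unfold lev
    have : X₁ - 1 ≤ k / d := (Nat.le_div_iff_mul_le (by omega)).mpr hX₁k
    omega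
  -- the last side length of the run
  have hblk : 0 < blk d := by
    unfold blk
    have h1 : 0 < Real.log d ^ 6 := by
      have : 0 < Real.log d := Real.log_pos (by exact_mod_cast (by omega : 1 < d))
      positivity
    have h2 : 0 < ⌈Real.log d ^ 6⌉₊ := Nat.ceil_pos.mpr h1
    omega
  set j := (lev d k - X₁) / blk d with hj
  have hjle : j * blk d ≤ lev d k - X₁ := Nat.div_mul_le_self _ _
  set X₂ := X₁ + j * blk d with hX₂
  have hX₂lev : X₂ ≤ lev d k := by omega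
  have hX₂1 : 1 ≤ X₂ := by omega
  have hX₂k : (X₂ - 1) * d ≤ k := by
    have h1 : X₂ - 1 ≤ k / d := by
      unfold lev at hX₂lev
      omega
    exact (Nat.le_div_iff_mul_le (by omega)).mp h1
  have hkX₂ : k ≤ (X₂ - 1) * d + (blk d + 4) * d := by
    have h1 : lev d k - X₁ < j * blk d + blk d := Nat.lt_div_mul_add hblk
    have h2 : k / d + 1 ≤ X₂ - 1 + (blk d + 4) := by
      have : lev d k = k / d + 1 := rfl
      omega
    have h3 : k < (k / d + 1) * d := by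
      have h4 : k < k / d * d + d := Nat.lt_div_mul_add (by omega)
      rw [add_mul, one_mul]
      exact h4
    calc k ≤ (k / d + 1) * d := h3.le
      _ ≤ (X₂ - 1 + (blk d + 4)) * d := Nat.mul_le_mul_right d h2
      _ = (X₂ - 1) * d + (blk d + 4) * d := by ring
  have hX₁X₂ : X₁ ≤ X₂ := by omega
  have hsfun : ∀ t, t ≤ k → sfun d t + 6 * Real.log d ≤ L := by
    intro t ht
    have := sfun_mono d hd1 ht
    linarith
  set Y := 2 * lev d k + 5 with hY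
  have hev : Even (Y - X₂) := by
    have h1 : Even (blk d) := ⟨⌈Real.log d ^ 6⌉₊, by unfold blk; ring⟩
    have h2 : Even (j * blk d) := h1.mul_left j
    have h3 : Odd X₂ := by
      rw [hX₂]
      exact hX₁odd.add_even h2
    have h4 : Odd Y := ⟨lev d k + 2, by omega⟩
    exact Nat.Odd.sub_odd h4 h3
  -- the size of `L`
  have hsk := k15_sfun hd1 hk1
  have hLk : 3 * L ≤ ε / 4 * k := by
    have h1 := hDL d hDL'
    have e1 : 15 / 2 * Real.log d ≤ d * (15 / 2 * Real.log d) :=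
      le_mul_of_one_le_left (by positivity) hdr1
    have e2 : (d : ℝ) * (1 + 2 * Real.log d) + d * (15 / 2 * Real.log d) ≤
        d * (11 * (1 + Real.log d)) := by
      rw [← mul_add]
      exact mul_le_mul_of_nonneg_left (by linarith) hd0.le
    have h2 : L ≤ d * (11 * (1 + Real.log d)) := by linarith
    have h3 : L ≤ d * (ε * ε₀ / 12 * d) := h2.trans (mul_le_mul_of_nonneg_left h1 hd0.le)
    have h4 : 3 * (d * (ε * ε₀ / 12 * d)) = ε / 4 * (ε₀ * (d : ℝ) ^ 2) := by ring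
    have h5 : ε / 4 * (ε₀ * (d : ℝ) ^ 2) ≤ ε / 4 * k :=
      mul_le_mul_of_nonneg_left hk0 (by positivity)
    linarith
  set V : ℝ := (∑ t ∈ Finset.range k, (Ex d t - L) / 2) - 4 * L - ε / 2 * k with hV
  have hkr0 : (0 : ℝ) ≤ k := Nat.cast_nonneg k
  refine hP n d k L V hDP ?_ hkd3 (by linarith) (by linarith) ?_ hnd ?_ ?_
  · have h1 : ((A * d : ℕ) : ℝ) ≤ k := by
      push_cast
      calc (A : ℝ) * d ≤ ε₀ * d * d := mul_le_mul_of_nonneg_right hdA hd0.le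
        _ = ε₀ * (d : ℝ) ^ 2 := by ring
        _ ≤ k := hk0
    exact_mod_cast h1
  · have : (0 : ℝ) ≤ Real.log n := by linarith
    linarith
  · intro z hroom g v hv hfin
    have hroomS : Room (X₁ + 8) z := brun_room hroom (by omega)
    have hroomR : Room (X₁ + j * blk d + 8) z := brun_room hroom (by omega)
    have hroomT : Room (Y + 3) z := brun_room hroom (by omega)
    have hrun := hR n d X₁ j L z hDR hX₁low (by omega) (hX₂lev.trans hlevd) (hsfun _ hX₂k) hroomR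
    have htop := hT n d k X₂ Y L z hDT hk0 hkd3 hX₂1 hX₂k hkX₂ hev (by linarith) (by linarith)
      (by omega) (by omega) hroomT
    have hrt := reach_trans (Real.exp_pos _).le hrun htop
    have hstart := hS n d X₁ L z hDS hX₁odd hX₁3 hX₁d (hsfun _ hX₁k) hroomS g _
      (mul_nonneg (mul_nonneg (Real.exp_pos _).le (Real.exp_pos _).le) hv) (fun Z T hC => by
        refine hrt g v hv ?_ _ Z T (fun _ => rfl) hC
        intro x Z T hx hCx
        have : x = fun _ => Y := funext hx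
        rw [this] at hCx
        exact hfin Z T hCx)
    refine Ach.mono hstart ?_
    rw [← mul_assoc, ← Real.exp_add, ← Real.exp_add]
    refine mul_le_mul_of_nonneg_right (Real.exp_le_exp.mpr ?_) hv
    have hs1 : ∑ t ∈ Finset.range k, (Ex d t - L) / 2 =
        ∑ t ∈ Finset.range ((X₁ - 1) * d), (Ex d t - L) / 2 +
        ∑ t ∈ Finset.Ico ((X₁ - 1) * d) ((X₂ - 1) * d), (Ex d t - L) / 2 +
        ∑ t ∈ Finset.Ico ((X₂ - 1) * d) k, (Ex d t - L) / 2 := by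
      rw [Finset.range_eq_Ico, Finset.range_eq_Ico,
        Finset.sum_Ico_consecutive _ (Nat.zero_le _) (Nat.mul_le_mul_right d (by omega)),
        Finset.sum_Ico_consecutive _ (Nat.zero_le _) hX₂k]
    have hs2 : ∑ t ∈ Finset.Ico ((X₁ - 1) * d) ((X₂ - 1) * d), ((Ex d t - L) / 2 - ε / 8) =
        ∑ t ∈ Finset.Ico ((X₁ - 1) * d) ((X₂ - 1) * d), (Ex d t - L) / 2 -
        ε / 8 * ((((X₂ - 1) * d : ℕ) : ℝ) - (((X₁ - 1) * d : ℕ) : ℝ)) := by
      rw [Finset.sum_sub_distrib, Finset.sum_const, Nat.card_Ico, nsmul_eq_mul,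
        Nat.cast_sub (Nat.mul_le_mul_right d (by omega))]
      ring
    have hs3 : (((X₂ - 1) * d : ℕ) : ℝ) ≤ k := by exact_mod_cast hX₂k
    have hs4 : (0 : ℝ) ≤ (((X₁ - 1) * d : ℕ) : ℝ) := Nat.cast_nonneg _
    have hs5 : C * (X₁ * d) ≤ ε / 4 * k := by
      calc C * ((X₁ : ℝ) * d) ≤ C * (3 * ε₁ * d * d) := by
            refine mul_le_mul_of_nonneg_left ?_ hC
            exact mul_le_mul_of_nonneg_right hX₁up hd0.le
        _ = C * (3 * ε₁) * (d : ℝ) ^ 2 := by ring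
        _ ≤ ε / 4 * ε₀ * (d : ℝ) ^ 2 := mul_le_mul_of_nonneg_right hε₁c (by positivity)
        _ = ε / 4 * (ε₀ * (d : ℝ) ^ 2) := by ring
        _ ≤ ε / 4 * k := mul_le_mul_of_nonneg_left hk0 (by positivity)
    have hs6 : ε / 8 * ((((X₂ - 1) * d : ℕ) : ℝ) - (((X₁ - 1) * d : ℕ) : ℝ)) ≤ ε / 8 * k :=
      mul_le_mul_of_nonneg_left (by linarith) (by positivity)
    rw [hV, hs1, ← hX₂, hs2]
    linarith
  · rw [hV]
    have hs : ∑ t ∈ Finset.range k, (Ex d t - L) / 2 =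
        (∑ t ∈ Finset.range k, Ex d t) / 2 - k * L / 2 := by
      rw [Finset.sum_div]
      simp only [sub_div, Finset.sum_sub_distrib, Finset.sum_const, Finset.card_range,
        nsmul_eq_mul]
      ring
    rw [hs]
    have e1 : ((k : ℝ) / 2 + 1) * L = k * L / 2 + L := by ring
    rw [e1] at hmain
    linarith

end Pool.Agent.Lib.MP_8501c9_pr.Deep
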