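import Pool.Agent.Lib.MP_8501c9_pr.Deep.Defs3
import Pool.Agent.Lib.MP_8501c9_pr.Deep.ChooseY
import Pool.Agent.Lib.MP_8501c9_pr.Deep.DeepSums
import Pool.Agent.Lib.MP_8501c9_pr.Deep.DeepLower
import Pool.Agent.Lib.MP_8501c9_pr.Wide.PcUpper

/-!
# M3: the upper bound of the critical probability, side lengths of order `d` and larger
-/

set_option autoImplicit false
open Set

namespace Pool.Agent.Lib.MP_8501c9_pr.Deep

open Pool.Agent.Lib.MP_8501c9_pr Pool.Agent.Lib.MP_8501c9_pr.Mid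
open Pool.Agent.Lib.MP_8501c9_pr.Wide

/-- the integral of `hD`, from the pointwise bound -/
theorem m3_H_le {Ch : ℝ} (hCh : 0 ≤ Ch) {d : ℕ}
    (hb : ∀ u : ℝ, 0 < u → |hD d u| ≤ Ch * (Real.log d + |Real.log u|)) {α : ℝ} (hα : 1 ≤ α) :
    |∫ u in (0 : ℝ)..α, hD d u| ≤ Ch * (α * (Real.log d + 1 + Real.log α)) := by
  have hα0 : 0 < α := by linarith
  have hint : IntervalIntegrable (fun u => Ch * ((Real.log d + 2 * Real.log α) - Real.log u))
      MeasureTheory.volume 0 α :=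
    (intervalIntegrable_const.sub intervalIntegral.intervalIntegrable_log').const_mul Ch
  have h := intervalIntegral.norm_integral_le_of_norm_le (μ := MeasureTheory.volume)
    (f := hD d) hα0.le (Filter.Eventually.of_forall (fun t ht => ?_)) hint
  · rw [Real.norm_eq_abs] at h
    refine h.trans (le_of_eq ?_)
    rw [intervalIntegral.integral_const_mul, intervalIntegral.integral_sub
      intervalIntegrable_const intervalIntegral.intervalIntegrable_log', integral_log]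
    simp only [intervalIntegral.integral_const, smul_eq_mul, Real.log_zero]
    ring
  · rw [Real.norm_eq_abs]
    refine (hb t ht.1).trans (mul_le_mul_of_nonneg_left ?_ hCh)
    have h1 : Real.log t ≤ Real.log α := Real.log_le_log ht.1 ht.2
    have h2 : 0 ≤ Real.log α := Real.log_nonneg hα
    have h3 : |Real.log t| ≤ 2 * Real.log α - Real.log t := by
      rw [abs_le]
      constructor <;> linarith
    linarith

/-- differences of the integral of `hD` -/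
theorem m3_H_sub {Ch : ℝ} (hCh : 0 ≤ Ch) {d : ℕ} (hd : 2 ≤ d)
    (hb : ∀ u : ℝ, 0 < u → |hD d u| ≤ Ch * (Real.log d + |Real.log u|)) {α a M : ℝ}
    (hα : 1 ≤ α) (ha : 1 ≤ a) (hαM : α ≤ M) (haM : a ≤ M) :
    |(∫ u in (0 : ℝ)..α, hD d u) - ∫ u in (0 : ℝ)..a, hD d u| ≤
      Ch * (Real.log d + Real.log M) * |α - a| := by
  rw [intervalIntegral.integral_interval_sub_left (hD_int hd le_rfl (by linarith))
    (hD_int hd le_rfl (by linarith)), ← Real.norm_eq_abs]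
  refine intervalIntegral.norm_integral_le_of_norm_le_const fun u hu => ?_
  rw [Real.norm_eq_abs]
  have h1 : 1 ≤ u := by
    have := hu.1
    have h2 : (1 : ℝ) ≤ min a α := le_min ha hα
    linarith
  have h2 : u ≤ M := hu.2.trans (max_le haM hαM)
  refine (hb u (by linarith)).trans (mul_le_mul_of_nonneg_left ?_ hCh)
  rw [abs_of_nonneg (Real.log_nonneg h1)]
  have := Real.log_le_log (by linarith) h2
  linarith

/-- closeness from the closeness of the values of `vfun` -/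
theorem m3_diff {α a η : ℝ} (hα : 0 ≤ α) (ha : 4 ≤ a) (hη : η ≤ 1 / 4)
    (h : |vfun a - vfun α| ≤ η) : |α - a| ≤ 2 * η * a := by
  have hη0 : 0 ≤ η := (abs_nonneg _).trans h
  obtain ⟨h1, h2⟩ := abs_le.1 h
  rcases le_total α a with hαa | hαa
  · rw [abs_of_nonpos (by linarith)]
    have h3 := (le_vfun_sub hα hαa).trans h2
    rw [div_le_iff₀ (by linarith)] at h3
    nlinarith
  · rw [abs_of_nonneg (by linarith)]
    have h3 := le_vfun_sub (by linarith : (0 : ℝ) ≤ a) hαa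
    have h4 : (α - a) / (α + 2) ≤ η := by linarith
    rw [div_le_iff₀ (by linarith)] at h4
    nlinarith

/-- the computation at the end -/
theorem m3_calc {d k a α x ℓ ε Cs K₁ K₂ b I Q Ha Hα S L n c₀ : ℝ}
    (hd : 0 < d) (ha : 4 ≤ a) (hk : k = α * d) (hα : a / 2 ≤ α)
    (hdiff : |α - a| ≤ 2 * (K₂ * x / d) * a) (hx : 1 ≤ x) (hε : 0 < ε)
    (hCs : 0 ≤ Cs) (hK₁ : 0 ≤ K₁) (hK₂ : 0 ≤ K₂) (hc₀ : 0 < c₀) (hca : c₀ * d ≤ a)
    (hQ : (2 * b + I) - α * ℓ = Q) (hQb : |Q| ≤ 8 * K₂ ^ 2 * a * x ^ 2 / d ^ 2)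
    (hHa : |Ha / a| ≤ K₁ * x) (hH : |Hα - Ha| ≤ K₁ * x * |α - a|)
    (hS : d ^ 2 * I + d * Hα - Cs * (d * x) ≤ S)
    (hL : L = d * ℓ + Ha / a - ε) (hLb : L ≤ (K₁ + 5) * (d * x)) (hn : n = b * d)
    (h1 : (4 * K₂ ^ 2 + 2 * K₁ * K₂) * x ^ 2 ≤ ε / 16 * d)
    (h2 : (Cs / 2 + K₁ + 5) * x ≤ ε / 16 * (c₀ * d)) :
    (k / 2 + 1) * L + ε / 8 * k ≤ d * n + S / 2 := by
  have ha0 : 0 < a := by linarith
  have hx0 : 0 < x := by linarith
  -- the quadratic error
  have e1 : -(4 * K₂ ^ 2 * a * x ^ 2) ≤ d ^ 2 / 2 * Q := by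
    have h3 := (abs_le.1 hQb).1
    have h4 := mul_le_mul_of_nonneg_left h3 (by positivity : 0 ≤ d ^ 2 / 2)
    have h5 : d ^ 2 / 2 * (-(8 * K₂ ^ 2 * a * x ^ 2 / d ^ 2)) = -(4 * K₂ ^ 2 * a * x ^ 2) := by
      field_simp
      ring
    linarith
  -- the linear error
  have e2 : |Hα - α * (Ha / a)| ≤ 2 * (K₁ * x) * |α - a| := by
    have h3 : Hα - α * (Ha / a) = (Hα - Ha) - (α - a) * (Ha / a) := by
      field_simp
      ring
    rw [h3]
    refine (abs_sub _ _).trans ?_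
    rw [abs_mul]
    have h4 := mul_le_mul_of_nonneg_left hHa (abs_nonneg (α - a))
    linarith
  have e3 : |Hα - α * (Ha / a)| ≤ 4 * K₁ * K₂ * a * x ^ 2 / d := by
    refine e2.trans ((mul_le_mul_of_nonneg_left hdiff (by positivity)).trans (le_of_eq ?_))
    ring
  have e4 : -(2 * K₁ * K₂ * a * x ^ 2) ≤ d / 2 * (Hα - α * (Ha / a)) := by
    have h3 := (abs_le.1 e3).1
    have h4 := mul_le_mul_of_nonneg_left h3 (by positivity : 0 ≤ d / 2)
    have h5 : d / 2 * (-(4 * K₁ * K₂ * a * x ^ 2 / d)) = -(2 * K₁ * K₂ * a * x ^ 2) := by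
      field_simp
      ring
    linarith
  have hLk : (k / 2 + 1) * L = α * d / 2 * (d * ℓ + Ha / a - ε) + L := by
    rw [hk]
    nth_rewrite 1 [show (α * d / 2 + 1) * L = α * d / 2 * L + L by ring]
    rw [← hL]
  have hmain : d * n + (d ^ 2 * I + d * Hα - Cs * (d * x)) / 2 =
      α * d / 2 * (d * ℓ + Ha / a) + d ^ 2 / 2 * Q + d / 2 * (Hα - α * (Ha / a)) -
      Cs / 2 * (d * x) := by
    rw [← hQ, hn]
    ring
  have e5 : (4 * K₂ ^ 2 + 2 * K₁ * K₂) * x ^ 2 * a ≤ ε / 16 * d * a :=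
    mul_le_mul_of_nonneg_right h1 ha0.le
  have e6 : (Cs / 2 + K₁ + 5) * x * d ≤ ε / 16 * a * d := by
    refine mul_le_mul_of_nonneg_right (h2.trans ?_) hd.le
    exact mul_le_mul_of_nonneg_left hca (by positivity)
  have e7 : 3 / 8 * ε * (a / 2 * d) ≤ 3 / 8 * ε * (α * d) :=
    mul_le_mul_of_nonneg_left (mul_le_mul_of_nonneg_right hα hd.le) (by positivity)
  have e8 : 0 ≤ ε * (a * d) := by positivity
  rw [hLk, hk]
  linarith

theorem pc_deep_upper (c₀ C₁ ε : ℝ) (hc₀ : 0 < c₀) (hε : 0 < ε) : ∃ D₀ : ℕ, ∀ n d : ℕ,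
    D₀ ≤ d → c₀ * d ≤ aopt (Real.log n / d) →
    aopt (Real.log n / d) ≤ C₁ * (d * Real.log d) →
    pc n d 2 ≤ Real.exp (-(Ld n d - ε)) := by
  obtain ⟨Ch, hCh, hhD⟩ := hD_bound
  obtain ⟨Cs, hCs, hEx⟩ := sum_Ex
  obtain ⟨D', hlow⟩ := deep_lower (ε / 8) (c₀ / 2) (by positivity) (by positivity)
  obtain ⟨K₁, hK₁⟩ : ∃ K₁, K₁ = 5 * Ch := ⟨_, rfl⟩
  have hK₁0 : 0 ≤ K₁ := by rw [hK₁]; positivity
  obtain ⟨K₂, hK₂⟩ : ∃ K₂, K₂ = K₁ + 9 := ⟨_, rfl⟩
  have hK₂0 : 0 ≤ K₂ := by rw [hK₂]; positivity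
  set K₃ : ℝ := 4 * K₂ ^ 2 + 2 * K₁ * K₂ with hK₃
  set K₄ : ℝ := Cs / 2 + K₁ + 5 with hK₄
  have hK₃0 : 0 ≤ K₃ := by positivity
  have hK₄0 : 0 ≤ K₄ := by positivity
  obtain ⟨D₁, hD₁⟩ := PcUpper_large (100 + ε + |C₁| + |C₁| * 16 + 16 * K₃ / ε + 16 * K₄ / (ε * c₀)
    + 4 * K₂ + 2 * K₁ + 4 / c₀)
  refine ⟨max D' (max D₁ ⌈|C₁| + 1⌉₊), ?_⟩
  intro n d hd hA hC
  obtain ⟨hx, hx2, hd4⟩ := hD₁ d (le_trans (le_max_left _ _) (le_trans (le_max_right _ _) hd))
  have hdD' : D' ≤ d := le_trans (le_max_left _ _) hd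
  have hdC₁ : |C₁| + 1 ≤ (d : ℝ) := le_trans (Nat.le_ceil _) (by
    exact_mod_cast le_trans (le_max_right _ _) (le_trans (le_max_right _ _) hd))
  obtain ⟨x, hxd⟩ : ∃ x, x = Real.log d := ⟨_, rfl⟩
  rw [← hxd] at hx hx2 hC
  have hd4' : (4 : ℝ) ≤ d := by exact_mod_cast hd4
  have hd0 : (0 : ℝ) < d := by linarith
  have hd1 : 1 ≤ d := by omega
  have hd2 : 2 ≤ d := by omega
  -- all conditions from the size of `d`
  have p1 : 0 ≤ |C₁| := abs_nonneg _
  have p2 : 0 ≤ 16 * K₃ / ε := by positivity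
  have p3 : 0 ≤ 16 * K₄ / (ε * c₀) := by positivity
  have p4 : 0 < 4 / c₀ := by positivity
  have hx100 : 100 ≤ x := by linarith
  have hxε : ε ≤ x := by linarith
  have hx0 : 0 < x := by linarith
  have hx1 : 1 ≤ x := by linarith
  have hxx : x ≤ x ^ 2 := by
    rw [sq]
    exact le_mul_of_one_le_left hx0.le hx1
  have hgen : ∀ K : ℝ, K ≤ 100 + ε + |C₁| + |C₁| * 16 + 16 * K₃ / ε + 16 * K₄ / (ε * c₀)
      + 4 * K₂ + 2 * K₁ + 4 / c₀ → K * x ^ 2 ≤ d := fun K hK =>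
    (mul_le_mul_of_nonneg_right hK (sq_nonneg x)).trans hx2
  have hq1 : K₃ * x ^ 2 ≤ ε / 16 * d := by
    have h3 := hgen (16 * K₃ / ε) (by linarith)
    have h4 := mul_le_mul_of_nonneg_left h3 (by positivity : 0 ≤ ε / 16)
    have h5 : ε / 16 * (16 * K₃ / ε * x ^ 2) = K₃ * x ^ 2 := by field_simp
    linarith
  have hq2 : K₄ * x ≤ ε / 16 * (c₀ * d) := by
    have h3 := hgen (16 * K₄ / (ε * c₀)) (by linarith)
    have h4 := mul_le_mul_of_nonneg_left h3 (by positivity : 0 ≤ ε / 16 * c₀)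
    have h5 : ε / 16 * c₀ * (16 * K₄ / (ε * c₀) * x ^ 2) = K₄ * x ^ 2 := by field_simp
    have h6 : K₄ * x ≤ K₄ * x ^ 2 := mul_le_mul_of_nonneg_left hxx hK₄0
    linarith
  have hq3 : 4 * K₂ * x ≤ d := by
    have h3 := hgen (4 * K₂) (by linarith)
    have h6 : 4 * K₂ * x ≤ 4 * K₂ * x ^ 2 := mul_le_mul_of_nonneg_left hxx (by positivity)
    linarith
  have hq4 : 16 * |C₁| * x ≤ d := by
    have h3 := hgen (|C₁| * 16) (by linarith)
    have h6 : |C₁| * 16 * x ≤ |C₁| * 16 * x ^ 2 := mul_le_mul_of_nonneg_left hxx (by positivity)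
    linarith
  have hq5 : 4 ≤ c₀ * d := by
    have h3 := hgen (4 / c₀) (by linarith)
    have h4 : 4 / c₀ * 1 ≤ 4 / c₀ * x ^ 2 := mul_le_mul_of_nonneg_left (by linarith) p4.le
    have h5 : 4 / c₀ ≤ d := by linarith
    rw [div_le_iff₀ hc₀] at h5
    linarith
  have hq6 : 100 * x ≤ d := by
    have h3 := hgen 100 (by linarith)
    linarith
  -- the minimiser
  obtain ⟨b, hb⟩ : ∃ b, b = Real.log n / d := ⟨_, rfl⟩
  have hn : Real.log n = b * d := by rw [hb]; field_simp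
  have hb0 : 0 < b := by
    by_contra hcon
    push Not at hcon
    have hln : 0 ≤ Real.log n := Real.log_natCast_nonneg n
    have hb00 : b = 0 := by
      apply le_antisymm hcon
      rw [hb]
      positivity
    have h3 : aopt b = 0 := by
      unfold aopt
      apply le_antisymm
      · apply le_of_forall_pos_le_add
        intro η hη
        rw [zero_add]
        refine csInf_le ⟨0, fun y hy => hy.1.le⟩ ⟨hη, ?_⟩
        have := vtheta_nonneg hη.le
        unfold vtheta at this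
        rw [hb00]
        linarith
      · refine Real.sInf_nonneg fun y hy => hy.1.le
    rw [← hb, h3] at hA
    linarith
  rw [← hb] at hA hC
  obtain ⟨ha0, hell, -, hba, hab⟩ := aopt_spec hb0
  obtain ⟨a, haa⟩ : ∃ a, a = aopt b := ⟨_, rfl⟩
  have hquad := fun α (hα : 0 < α) => aopt_quad_min (b := b) (α := α) hb0 hα
  obtain ⟨H, hH⟩ : ∃ H : ℝ → ℝ, H = fun α => ∫ u in (0 : ℝ)..α, hD d u := ⟨_, rfl⟩
  obtain ⟨L, hLd⟩ : ∃ L, L = Ld n d - ε := ⟨_, rfl⟩
  have hLd' : L = d * ell b + H a / a - ε := by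
    rw [hLd, hH]
    unfold Ld
    rw [← hb, ← haa]
  rw [← hLd]
  rw [← haa] at hA hC ha0 hell hba hab hquad
  have ha4 : 4 ≤ a := hq5.trans hA
  have haC : a ≤ |C₁| * (d * x) := hC.trans
    (mul_le_mul_of_nonneg_right (le_abs_self _) (by positivity))
  have hlog2 : Real.log 2 ≤ 1 := by
    have := Real.log_two_lt_d9
    linarith
  have hlog2' : 1 / 2 ≤ Real.log 2 := by
    have := Real.log_two_gt_d9
    linarith
  have hla0 : 0 ≤ Real.log a := Real.log_nonneg (by linarith)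
  -- the logarithm of `a`
  have hlax : Real.log a ≤ 3 * x - 1 := by
    have hC1 : 0 < |C₁| := by
      by_contra hcon
      have : |C₁| = 0 := le_antisymm (not_lt.1 hcon) p1
      rw [this] at haC
      linarith
    have h3 : Real.log a ≤ Real.log (|C₁| * (d * x)) := Real.log_le_log ha0 haC
    rw [Real.log_mul hC1.ne' (by positivity), Real.log_mul hd0.ne' hx0.ne', ← hxd] at h3
    have h4 : Real.log |C₁| ≤ x := by
      rw [hxd]
      exact Real.log_le_log hC1 (by linarith)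
    have h5 : Real.log x ≤ x - 1 := Real.log_le_sub_one_of_pos hx0
    linarith
  have hl2a : Real.log (2 * a) ≤ 3 * x := by
    rw [Real.log_mul (by norm_num) ha0.ne']
    linarith
  -- the average of `hD`
  have hHb := fun (u : ℝ) (hu : 0 < u) => hhD d u hd2 hu
  have hHa : |H a / a| ≤ K₁ * x := by
    rw [abs_div, abs_of_pos ha0, div_le_iff₀ ha0, hH]
    refine (m3_H_le hCh hHb (by linarith : (1 : ℝ) ≤ a)).trans ?_
    rw [← hxd, hK₁]
    have h3 : Ch * (a * (x + 1 + Real.log a)) ≤ Ch * (a * (5 * x)) := by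
      refine mul_le_mul_of_nonneg_left (mul_le_mul_of_nonneg_left ?_ ha0.le) hCh
      linarith
    linarith
  obtain ⟨hHa1, hHa2⟩ := abs_le.1 hHa
  have hv1 : Real.log 2 ≤ vfun a := by
    have h3 : vfun 1 = Real.log 2 := by
      have := vfun_nat 1
      push_cast at this
      rw [this]
      norm_num
    rw [← h3]
    exact vfun_monotone (by linarith)
  have hvlog : vfun a ≤ 3 * x := by
    have h3 := vfun_le_log ha0.le
    have h4 : Real.log (1 + a) ≤ Real.log (2 * a) := Real.log_le_log (by linarith) (by linarith)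
    linarith
  have hLup : L ≤ (K₁ + 5) * (d * x) := by
    rw [hLd', hell]
    have h3 : d * vfun a ≤ d * (3 * x) := mul_le_mul_of_nonneg_left hvlog hd0.le
    have h4 : K₁ * x ≤ K₁ * (d * x) := by
      refine mul_le_mul_of_nonneg_left ?_ hK₁0
      exact le_mul_of_one_le_left hx0.le (by linarith)
    have h5 : 0 ≤ d * x := by positivity
    linarith
  have h7 : 7 * Real.log d ≤ L := by
    rw [← hxd, hLd', hell]
    have h3 : (d : ℝ) * (1 / 2) ≤ d * vfun a := by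
      apply mul_le_mul_of_nonneg_left _ hd0.le
      linarith
    have h4 := hgen (100 + 2 * K₁) (by linarith)
    have h5 : (100 + 2 * K₁) * x ≤ (100 + 2 * K₁) * x ^ 2 :=
      mul_le_mul_of_nonneg_left hxx (by positivity)
    linarith
  obtain ⟨k, hk1, hk2⟩ := PcUpper_exists_k hd4 h7 (by rw [← hxd]; linarith)
  obtain ⟨α, hα⟩ : ∃ α : ℝ, α = (k : ℝ) / d := ⟨_, rfl⟩
  have hkα : (k : ℝ) = α * d := by rw [hα]; field_simp
  have hsf : sfun d k = d * vfun α := by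
    unfold sfun
    rw [hα]
  have hα0 : 0 ≤ α := by rw [hα]; positivity
  have hvdiff : |vfun a - vfun α| ≤ K₂ * x / d := by
    rw [hsf, ← hxd, hLd', hell] at hk1 hk2
    have e1 : |vfun a - vfun α| * d = |(vfun a - vfun α) * d| := by
      rw [abs_mul, abs_of_pos hd0]
    rw [le_div_iff₀ hd0, e1, abs_le, hK₂]
    constructor <;> linarith
  have hη : K₂ * x / d ≤ 1 / 4 := by
    rw [div_le_iff₀ hd0]
    linarith
  have hdiff := m3_diff hα0 ha4 hη hvdiff
  have hηa : 2 * (K₂ * x / d) * a ≤ a / 2 := by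
    have := mul_le_mul_of_nonneg_right hη ha0.le
    linarith
  obtain ⟨hd1', hd2'⟩ := abs_le.1 hdiff
  have hα2 : a / 2 ≤ α := by linarith
  have hα3 : α ≤ 2 * a := by linarith
  have hαpos : 0 < α := by linarith
  have hQb : |(2 * b + ∫ u in (0 : ℝ)..α, vfun u) - α * ell b| ≤
      8 * K₂ ^ 2 * a * x ^ 2 / (d : ℝ) ^ 2 := by
    refine (hquad α hαpos).trans ?_
    have h3 : (α - a) ^ 2 ≤ (2 * (K₂ * x / d) * a) ^ 2 := by
      rw [← sq_abs (α - a)]
      exact pow_le_pow_left₀ (abs_nonneg _) hdiff 2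
    have h4 : a / 2 ≤ min α a := le_min hα2 (by linarith)
    calc (α - a) ^ 2 / min α a ≤ (2 * (K₂ * x / d) * a) ^ 2 / (a / 2) := by
          refine div_le_div₀ (sq_nonneg _) h3 (by linarith) h4
      _ = 8 * K₂ ^ 2 * a * x ^ 2 / (d : ℝ) ^ 2 := by
        field_simp
        ring
  have hHd : |H α - H a| ≤ K₁ * x * |α - a| := by
    rw [hH]
    refine (m3_H_sub hCh hd2 hHb (by linarith : 1 ≤ α) (by linarith : 1 ≤ a) hα3
      (by linarith : a ≤ 2 * a)).trans ?_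
    refine mul_le_mul_of_nonneg_right ?_ (abs_nonneg _)
    rw [← hxd, hK₁]
    have h3 : Ch * (x + Real.log (2 * a)) ≤ Ch * (5 * x) :=
      mul_le_mul_of_nonneg_left (by linarith) hCh
    linarith
  have hdk : d ≤ k := by
    have : (d : ℝ) ≤ k := by
      rw [hkα]
      exact le_mul_of_one_le_left hd0.le (by linarith)
    exact_mod_cast this
  have h2a : 2 * a + 1 ≤ (d : ℝ) * d / 4 := by
    have h3 : 2 * a ≤ 2 * (|C₁| * (d * x)) := by linarith
    have h4 : 16 * |C₁| * x * d ≤ d * d := mul_le_mul_of_nonneg_right hq4 hd0.le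
    have h5 : (4 : ℝ) * 4 ≤ d * d := mul_le_mul hd4' hd4' (by norm_num) hd0.le
    linarith
  have hkr : (k : ℝ) ≤ (d : ℝ) ^ 2 * (d - 1) := by
    rw [hkα]
    have h3 : α * d ≤ (d * d / 4) * d := mul_le_mul_of_nonneg_right (by linarith) hd0.le
    have h4 : (d : ℝ) ^ 2 * (d / 4) ≤ (d : ℝ) ^ 2 * (d - 1) :=
      mul_le_mul_of_nonneg_left (by linarith) (sq_nonneg _)
    have h5 : (d : ℝ) * d / 4 * d = (d : ℝ) ^ 2 * (d / 4) := by ring
    linarith
  have hkd3 : k ≤ d ^ 3 := by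
    have : (k : ℝ) ≤ ((d ^ 3 : ℕ) : ℝ) := by
      push_cast
      have h4 : (d : ℝ) ^ 2 * (d - 1) ≤ (d : ℝ) ^ 2 * d :=
        mul_le_mul_of_nonneg_left (by linarith) (sq_nonneg _)
      calc (k : ℝ) ≤ (d : ℝ) ^ 2 * (d - 1) := hkr
        _ ≤ (d : ℝ) ^ 2 * d := h4
        _ = (d : ℝ) ^ 3 := by ring
    exact_mod_cast this
  have hS := (abs_le.1 (hEx d k hd2 hdk hkd3)).1
  rw [← hα, ← hxd] at hS
  have hfinal := m3_calc (d := (d : ℝ)) (k := (k : ℝ)) (a := a) (α := α) (x := x) (ℓ := ell b)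
    (ε := ε) (Cs := Cs) (K₁ := K₁) (K₂ := K₂) (b := b) (I := ∫ u in (0 : ℝ)..α, vfun u)
    (Q := (2 * b + ∫ u in (0 : ℝ)..α, vfun u) - α * ell b) (Ha := H a) (Hα := H α)
    (S := ∑ t ∈ Finset.range k, Ex d t) (L := L) (n := Real.log n) (c₀ := c₀)
    hd0 ha4 hkα hα2 hdiff hx1 hε hCs hK₁0 hK₂0 hc₀ hA rfl hQb hHa hHd
    (by rw [hH]; linarith) hLd' hLup hn hq1 hq2
  refine pc_le_of n d _ (Real.exp_nonneg _) ?_ (hlow n d k L hdD' ?_ hkr hk1 hk2 ?_ ?_ hfinal)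
  · apply Real.exp_le_one_iff.2
    have : 0 ≤ Real.log d := by rw [← hxd]; exact hx0.le
    linarith
  · rw [hkα]
    have h3 : c₀ / 2 * d ≤ α := by linarith
    calc c₀ / 2 * (d : ℝ) ^ 2 = c₀ / 2 * d * d := by ring
      _ ≤ α * d := mul_le_mul_of_nonneg_right h3 hd0.le
  · rw [hn, hkα]
    have h3 : α * d ≤ (15 * b) * d := mul_le_mul_of_nonneg_right (by linarith) hd0.le
    linarith
  · rw [hn]
    have h3 : b * d ≤ (d * d / 4) * d := mul_le_mul_of_nonneg_right (by linarith) hd0.le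
    have h4 : (d : ℝ) * d / 4 * d = (d : ℝ) ^ 3 / 4 := by ring
    have h5 : 0 ≤ (d : ℝ) ^ 3 := by positivity
    linarith

end Pool.Agent.Lib.MP_8501c9_pr.Deep
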