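import Pool.Agent.Lib.MP_8501c9_pr.Deep.Defs3
import Pool.Agent.Lib.MP_8501c9_pr.Deep.PcDeepLower
import Pool.Agent.Lib.MP_8501c9_pr.Deep.PcDeepUpper
import Pool.Agent.Lib.MP_8501c9_pr.Deep.Compare0

/-!
# Task M4c: the range `c d ≤ a ≤ C₁ d log d` (assembly of M2, M3 and `Ld_Lall`)
-/

set_option autoImplicit false
open Set

namespace Pool.Agent.Lib.MP_8501c9_pr.Deep

open Pool.Agent.Lib.MP_8501c9_pr Pool.Agent.Lib.MP_8501c9_pr.Mid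
open Pool.Agent.Lib.MP_8501c9_pr.Wide

/-- `a` between multiples of `d` and `d log d` -/
theorem pc_II (c C₁ ε : ℝ) (hc : 0 < c) (hε : 0 < ε) : ∃ D₀ : ℕ,
    ∀ n d : ℕ, D₀ ≤ d → c * d ≤ aopt (Real.log n / d) →
    aopt (Real.log n / d) ≤ C₁ * (d * Real.log d) →
    Real.exp (-(Lall n d + ε)) ≤ pc n d 2 ∧ pc n d 2 ≤ Real.exp (-(Lall n d - ε)) := by
  obtain ⟨D₁, h₁⟩ := pc_deep_lower c C₁ (ε / 2) hc (half_pos hε)
  obtain ⟨D₂, h₂⟩ := pc_deep_upper c C₁ (ε / 2) hc (half_pos hε)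
  obtain ⟨D₃, h₃⟩ := Ld_Lall c (ε / 2) hc (half_pos hε)
  refine ⟨max D₁ (max D₂ D₃), fun n d hd hca haC => ?_⟩
  have hd₁ : D₁ ≤ d := le_trans (le_max_left _ _) hd
  have hd₂ : D₂ ≤ d := le_trans (le_trans (le_max_left _ _) (le_max_right _ _)) hd
  have hd₃ : D₃ ≤ d := le_trans (le_trans (le_max_right _ _) (le_max_right _ _)) hd
  have hL := abs_le.1 (h₃ n d hd₃ hca)
  refine ⟨le_trans (Real.exp_le_exp.2 ?_) (h₁ n d hd₁ hca haC),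
    le_trans (h₂ n d hd₂ hca haC) (Real.exp_le_exp.2 ?_)⟩
  · linarith [hL.1, hL.2]
  · linarith [hL.1, hL.2]

end Pool.Agent.Lib.MP_8501c9_pr.Deep
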