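import Pool.Agent.Lib.MP_8501c9_pr.Deep.Defs3
import Pool.Agent.Lib.MP_8501c9_pr.Mid.Aopt

/-!
# The rate function for large arguments
-/

set_option autoImplicit false
open Set

namespace Pool.Agent.Lib.MP_8501c9_pr.Deep

open Pool.Agent.Lib.MP_8501c9_pr Pool.Agent.Lib.MP_8501c9_pr.Mid
open Pool.Agent.Lib.MP_8501c9_pr.Wide

/-- the interpolation is close to the logarithm -/
private theorem el_log_sub {u : ℝ} (hu : 0 ≤ u) : Real.log (1 + u) - 2 / (1 + u) ^ 2 ≤ vfun u := by
  have h1 : (⌊u⌋₊ : ℝ) ≤ u := Nat.floor_le hu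
  have h2 : u < ⌊u⌋₊ + 1 := Nat.lt_floor_add_one u
  have h3 := vslope_ge ⌊u⌋₊
  rw [vfun_def]
  generalize ⌊u⌋₊ = q at *
  have hq : (0 : ℝ) ≤ q := Nat.cast_nonneg q
  have h4 : Real.log (1 + u) - Real.log (q + 1) ≤ (u - q) / (q + 1) := by
    have e1 := Real.log_le_sub_one_of_pos (x := (1 + u) / (q + 1)) (by positivity)
    rw [Real.log_div (by positivity) (by positivity)] at e1
    have e2 : (1 + u) / ((q : ℝ) + 1) - 1 = (u - q) / (q + 1) := by
      field_simp
      ring
    rw [e2] at e1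
    exact e1
  have h5 : (u - q) * (1 / ((q : ℝ) + 2)) ≤ (u - q) * vslope q :=
    mul_le_mul_of_nonneg_left h3 (sub_nonneg.2 h1)
  have h6 : (u - q) / (q + 1) - (u - q) * (1 / ((q : ℝ) + 2)) ≤ 2 / (1 + u) ^ 2 := by
    have e1 : (u - q) / (q + 1) - (u - q) * (1 / ((q : ℝ) + 2)) = (u - q) / ((q + 1) * (q + 2)) := by
      field_simp
      ring
    rw [e1, div_le_div_iff₀ (by positivity) (by positivity)]
    have e2 : u - q ≤ 1 := by linarith
    have e3 : (1 + u) ^ 2 ≤ 2 * ((q + 1) * ((q : ℝ) + 2)) := by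
      have : (1 + u) ^ 2 ≤ ((q : ℝ) + 2) ^ 2 := by
        apply pow_le_pow_left₀ (by positivity)
        linarith
      nlinarith
    calc (u - q) * (1 + u) ^ 2 ≤ 1 * (1 + u) ^ 2 := mul_le_mul_of_nonneg_right e2 (by positivity)
      _ ≤ _ := by linarith
  linarith

/-- lower bound for the integral -/
private theorem el_int {a : ℝ} (ha : 0 ≤ a) :
    (1 + a) * Real.log (1 + a) - a - 2 ≤ ∫ u in (0 : ℝ)..a, vfun u := by
  have hcont : ContinuousOn (fun u : ℝ => Real.log (1 + u) - 2 / (1 + u) ^ 2) (uIcc 0 a) := by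
    rw [uIcc_of_le ha]
    refine ContinuousOn.sub (ContinuousOn.log (by fun_prop) ?_)
      (ContinuousOn.div continuousOn_const (by fun_prop) ?_)
    · intro x hx
      have : (0 : ℝ) < 1 + x := by linarith [hx.1]
      exact this.ne'
    · intro x hx
      have : (0 : ℝ) < 1 + x := by linarith [hx.1]
      positivity
  have h1 : ∫ u in (0 : ℝ)..a, (Real.log (1 + u) - 2 / (1 + u) ^ 2) ≤ ∫ u in (0 : ℝ)..a, vfun u := by
    refine intervalIntegral.integral_mono_on ha hcont.intervalIntegrable (vfun_int _ _) ?_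
    intro x hx
    exact el_log_sub hx.1
  have h2 : ∫ u in (0 : ℝ)..a, (Real.log (1 + u) - 2 / (1 + u) ^ 2) =
      ((1 + a) * Real.log (1 + a) - a + 2 / (1 + a)) - 2 := by
    have hd : ∀ x ∈ uIcc 0 a, HasDerivAt (fun u : ℝ => (1 + u) * Real.log (1 + u) - u + 2 / (1 + u))
        (Real.log (1 + x) - 2 / (1 + x) ^ 2) x := by
      intro x hx
      rw [uIcc_of_le ha] at hx
      have hx0 : (0 : ℝ) < 1 + x := by linarith [hx.1]
      have e1 : HasDerivAt (fun u : ℝ => 1 + u) 1 x := by
        simpa using (hasDerivAt_id x).const_add (1 : ℝ)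
      have e2 := e1.log hx0.ne'
      have e3 := (e1.mul e2).sub (hasDerivAt_id x)
      have e4 := (hasDerivAt_const x (2 : ℝ)).div e1 hx0.ne'
      refine (e3.add e4).congr_deriv ?_
      field_simp
      ring
    rw [intervalIntegral.integral_eq_sub_of_hasDerivAt hd hcont.intervalIntegrable]
    simp
  have h3 : 0 ≤ 2 / (1 + a) := by positivity
  linarith

theorem ell_large : ∃ C : ℝ, 0 ≤ C ∧ ∀ b : ℝ, 2 ≤ b →
    |ell b - Real.log (2 * b)| ≤ C * Real.log b / b ∧
    |Real.log (aopt b) - Real.log (2 * b)| ≤ C * Real.log b / b := by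
  refine ⟨20, by norm_num, fun b hb => ?_⟩
  have hb0 : 0 < b := by linarith
  obtain ⟨h1, h2, h3, h4, h5⟩ := aopt_spec hb0
  rw [h2]
  generalize aopt b = a at *
  have hlb : 0.69 ≤ Real.log b := by
    have e1 := Real.log_two_gt_d9
    have e2 := Real.log_le_log (by norm_num) hb
    linarith
  -- `log (1 + a)`
  have hl1 : Real.log (1 + a) ≤ 2 + Real.log b := by
    have e1 : Real.log (1 + a) ≤ Real.log (6 * b) := Real.log_le_log (by linarith) (by linarith)
    rw [Real.log_mul (by norm_num) hb0.ne'] at e1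
    have e2 : Real.log 6 ≤ 2 := by
      rw [Real.log_le_iff_le_exp (by norm_num)]
      have e3 := Real.exp_one_gt_d9
      have e4 : Real.exp 2 = Real.exp 1 * Real.exp 1 := by
        rw [← Real.exp_add]
        norm_num
      rw [e4]
      nlinarith
    linarith
  have ha0 : (0 : ℝ) ≤ a := h1.le
  have hv2 := vfun_le_log ha0
  have hi := el_int ha0
  -- `a - 2 b`
  have h6 : a - 2 * b ≤ 4 + Real.log b := by
    have e1 : 1 * 2 / (1 + a) ^ 2 * a ≤ 2 := by
      rw [div_mul_eq_mul_div, div_le_iff₀ (by positivity)]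
      nlinarith
    have e2 := mul_le_mul_of_nonneg_left (el_log_sub ha0) ha0
    have e3 := integral_vfun_le ha0
    have e5 : a * (Real.log (1 + a) - 2 / (1 + a) ^ 2) = a * Real.log (1 + a) - 1 * 2 / (1 + a) ^ 2 * a := by
      ring
    rw [e5] at e2
    nlinarith
  have h7 : 0 ≤ Real.log a - Real.log (2 * b) ∧ Real.log a - Real.log (2 * b) ≤ (4 + Real.log b) / (2 * b) := by
    constructor
    · have := Real.log_le_log (by linarith) h4
      linarith
    · have e1 := Real.log_le_sub_one_of_pos (x := a / (2 * b)) (by positivity)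
      rw [Real.log_div h1.ne' (by positivity)] at e1
      refine e1.trans ?_
      rw [le_div_iff₀ (by positivity)]
      have : (a / (2 * b) - 1) * (2 * b) = a - 2 * b := by
        field_simp
      rw [this]
      exact h6
  have h8 : |vfun a - Real.log a| ≤ 3 / (2 * b) := by
    have e1 : Real.log (1 + a) - Real.log a ≤ 1 / a := by
      have e2 := Real.log_le_sub_one_of_pos (x := (1 + a) / a) (by positivity)
      rw [Real.log_div (by positivity) h1.ne'] at e2
      have e3 : (1 + a) / a - 1 = 1 / a := by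
        field_simp
        ring
      rw [e3] at e2
      exact e2
    have e2 : Real.log a ≤ Real.log (1 + a) := Real.log_le_log h1 (by linarith)
    have e4 : 1 / a ≤ 1 / (2 * b) := one_div_le_one_div_of_le (by positivity) h4
    have e5 : 2 / (1 + a) ^ 2 ≤ 2 / (2 * b) := by
      apply div_le_div_of_nonneg_left (by norm_num) (by positivity)
      nlinarith
    have e6 : 3 / (2 * b) = 1 / (2 * b) + 2 / (2 * b) := by
      rw [← add_div]
      norm_num
    have e7 := el_log_sub ha0
    have e8 : 0 ≤ 1 / (2 * b) := by positivity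
    have e9 : 0 ≤ 2 / (2 * b) := by positivity
    rw [e6, abs_le]
    constructor <;> linarith
  have h9 : (4 + Real.log b) / (2 * b) ≤ 5 * Real.log b / b := by
    rw [div_le_div_iff₀ (by positivity) hb0]
    nlinarith
  have h10 : 3 / (2 * b) ≤ 5 * Real.log b / b := by
    rw [div_le_div_iff₀ (by positivity) hb0]
    nlinarith
  have h11 : 20 * Real.log b / b = 5 * Real.log b / b + 5 * Real.log b / b + 10 * Real.log b / b := by
    ring
  have h12 : 0 ≤ 10 * Real.log b / b := by
    apply div_nonneg _ hb0.le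
    linarith
  have h13 : 0 ≤ 5 * Real.log b / b := by
    apply div_nonneg _ hb0.le
    linarith
  rw [abs_le] at h8
  rw [abs_le, abs_le, h11]
  refine ⟨⟨?_, ?_⟩, ?_, ?_⟩ <;> linarith [h7.1, h7.2, h8.1, h8.2]

end Pool.Agent.Lib.MP_8501c9_pr.Deep
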