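import Pool.Agent.Lib.MP_8501c9_pr.Deep.DeepSums

/-!
# The average of the exponent for large side lengths (task M5b)
-/

set_option autoImplicit false
open Set

namespace Pool.Agent.Lib.MP_8501c9_pr.Deep

open Pool.Agent.Lib.MP_8501c9_pr Pool.Agent.Lib.MP_8501c9_pr.Mid
open Pool.Agent.Lib.MP_8501c9_pr.Wide

/-- the part of the exponent which tends to zero -/
noncomputable def m5f (τ : ℝ) : ℝ := Real.log (2 * gg τ / τ)

theorem m5f_nonneg {τ : ℝ} (hτ : 0 < τ) : 0 ≤ m5f τ := by
  unfold m5f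
  refine Real.log_nonneg ?_
  rw [le_div_iff₀ hτ]
  have := (gg_ge hτ).2
  linarith

theorem m5f_nonneg' {τ : ℝ} (hτ : 0 ≤ τ) : 0 ≤ m5f τ := by
  rcases eq_or_lt_of_le hτ with h | h
  · unfold m5f
    rw [← h]
    simp
  · exact m5f_nonneg h

theorem m5f_gg_pos {τ : ℝ} (hτ : 0 < τ) : 0 < gg τ := by
  have := (gg_ge hτ).2
  linarith

theorem m5f_eq {d : ℕ} (hd : 1 ≤ d) {u : ℝ} (hu : 0 < u) :
    hD d u + Real.log u = m5f (u / d) := by
  have hd0 : (0 : ℝ) < d := by exact_mod_cast hd
  have hg := m5f_gg_pos (show 0 < u / d by positivity)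
  unfold hD m5f
  rw [← Real.log_mul (by positivity) hu.ne']
  congr 1
  field_simp

theorem m5f_int {A : ℝ} (hA : 0 ≤ A) : IntervalIntegrable m5f MeasureTheory.volume 0 A := by
  have h1 : IntervalIntegrable (fun u => hD 2 (2 * u)) MeasureTheory.volume 0 A := by
    have := (hD_int (d := 2) le_rfl (a := 0) (b := 2 * A) le_rfl (by linarith)).comp_mul_left
      (c := 2)
    simpa using this
  have h2 : IntervalIntegrable (fun u : ℝ => Real.log (2 * u)) MeasureTheory.volume 0 A := by
    have := (intervalIntegral.intervalIntegrable_log' (a := 0) (b := 2 * A)).comp_mul_left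
      (c := 2)
    simpa using this
  refine (h1.add h2).congr ?_
  intro u hu
  rw [uIoc_of_le hA] at hu
  have hu0 : 0 < u := hu.1
  have h3 := m5f_eq (d := 2) (by norm_num) (show 0 < 2 * u by linarith)
  show hD 2 (2 * u) + Real.log (2 * u) = m5f u
  rw [h3]
  congr 1
  push_cast
  ring

theorem hD_avg (ε : ℝ) (hε : 0 < ε) : ∃ T : ℝ, 0 < T ∧ ∀ (d : ℕ) (a : ℝ), 2 ≤ d → T * d ≤ a →
    |(∫ u in (0 : ℝ)..a, hD d u) / a - (1 - Real.log a)| ≤ ε := by
  obtain ⟨T₀, hT₀, hT⟩ := gg_large (ε / 2) (half_pos hε)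
  set M : ℝ := ∫ u in (0 : ℝ)..T₀, m5f u with hM
  have hM0 : 0 ≤ M := intervalIntegral.integral_nonneg hT₀.le (fun u hu => m5f_nonneg' hu.1)
  refine ⟨max T₀ (2 * M / ε), lt_max_of_lt_left hT₀, fun d a hd ha => ?_⟩
  have hd0 : (0 : ℝ) < d := by exact_mod_cast (show 0 < d by omega)
  have hA1 : T₀ * d ≤ a := le_trans (mul_le_mul_of_nonneg_right (le_max_left _ _) hd0.le) ha
  have hA2 : 2 * M / ε * d ≤ a :=
    le_trans (mul_le_mul_of_nonneg_right (le_max_right _ _) hd0.le) ha
  have ha0 : 0 < a := lt_of_lt_of_le (by positivity) hA1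
  have hAT : T₀ ≤ a / d := by rwa [le_div_iff₀ hd0]
  have hAM : 2 * M / ε ≤ a / d := by rwa [le_div_iff₀ hd0]
  have hA0 : 0 < a / d := by positivity
  have hint := m5f_int hA0.le
  have hintT := m5f_int hT₀.le
  have hint2 : IntervalIntegrable m5f MeasureTheory.volume T₀ (a / d) := hintT.symm.trans hint
  -- the integral of `m5f`
  have h1 : ∫ u in (0 : ℝ)..(a / d), m5f u ≤ M + ε / 2 * (a / d) := by
    rw [← intervalIntegral.integral_add_adjacent_intervals hintT hint2]
    have h2 : ∫ u in T₀..(a / d), m5f u ≤ ∫ _u in T₀..(a / d), ε / 2 := by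
      refine intervalIntegral.integral_mono_on hAT hint2 (by simp) ?_
      intro u hu
      have hu0 : 0 < u := lt_of_lt_of_le hT₀ hu.1
      have h3 := hT u hu.1
      have hg := m5f_gg_pos hu0
      unfold m5f
      rw [Real.log_le_iff_le_exp (by positivity), div_le_iff₀ hu0]
      linarith
    rw [intervalIntegral.integral_const, smul_eq_mul] at h2
    have h3 : (a / d - T₀) * (ε / 2) ≤ ε / 2 * (a / d) := by nlinarith
    linarith
  have h0 : 0 ≤ ∫ u in (0 : ℝ)..(a / d), m5f u :=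
    intervalIntegral.integral_nonneg hA0.le (fun u hu => m5f_nonneg' hu.1)
  -- the average
  have hlog : ∫ u in (0 : ℝ)..a, Real.log u = a * Real.log a - a := by
    rw [integral_log]
    simp
  have hI := hD_int hd (a := 0) (b := a) le_rfl ha0.le
  have hsum : ∫ u in (0 : ℝ)..a, (hD d u + Real.log u) = d * ∫ u in (0 : ℝ)..(a / d), m5f u := by
    have h4 : ∫ u in (0 : ℝ)..a, (hD d u + Real.log u) = ∫ u in (0 : ℝ)..a, m5f (u / d) := by
      refine intervalIntegral.integral_congr_ae (Filter.Eventually.of_forall fun u hu => ?_)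
      rw [uIoc_of_le ha0.le] at hu
      exact m5f_eq (by omega) hu.1
    rw [h4, intervalIntegral.integral_comp_div _ hd0.ne', zero_div, smul_eq_mul]
  rw [intervalIntegral.integral_add hI intervalIntegral.intervalIntegrable_log', hlog] at hsum
  have he : (∫ u in (0 : ℝ)..a, hD d u) / a - (1 - Real.log a) =
      (∫ u in (0 : ℝ)..(a / d), m5f u) / (a / d) := by
    have h5 : ∫ u in (0 : ℝ)..a, hD d u =
        d * (∫ u in (0 : ℝ)..(a / d), m5f u) - (a * Real.log a - a) := by linarith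
    rw [h5]
    field_simp
    ring
  rw [he, abs_of_nonneg (by positivity), div_le_iff₀ hA0]
  rw [div_le_iff₀ hε] at hAM
  linarith

end Pool.Agent.Lib.MP_8501c9_pr.Deep
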