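import Pool.Agent.Lib.MP_8501c9_pr.Deep.Compare0
import Pool.Agent.Lib.MP_8501c9_pr.Deep.EllLarge
import Pool.Agent.Lib.MP_8501c9_pr.Deep.HDavg
import Pool.Agent.Lib.MP_8501c9_pr.Wide.AoptW
import Pool.Agent.Lib.MP_8501c9_pr.SharpLower
import Pool.Agent.Lib.MP_8501c9_pr.SharpUpper

/-!
# M5c: the critical probability for side lengths much larger than `d log d`
-/

set_option autoImplicit false
open Set

namespace Pool.Agent.Lib.MP_8501c9_pr.Deep

open Pool.Agent.Lib.MP_8501c9_pr Pool.Agent.Lib.MP_8501c9_pr.Mid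
open Pool.Agent.Lib.MP_8501c9_pr.Wide

theorem c3_small {C C₁ ε b d : ℝ} (hC : 0 ≤ C) (hC₁ : 8 ≤ C₁)
    (h1 : 512 * C ≤ ε * C₁) (hd : 3 ≤ d) (hlog : Real.log C₁ ≤ 2 * Real.log d)
    (hb : C₁ * (d * Real.log d) / 8 ≤ b) : (d + 1) * (C * Real.log b / b) ≤ ε / 8 := by
  have hl1 : 1 ≤ Real.log d := by
    rw [← Real.log_exp 1]
    exact Real.log_le_log (Real.exp_pos _) (Real.exp_one_lt_three.le.trans hd)
  have hld : Real.log d ≤ d := Real.log_le_self (by linarith)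
  have hd0 : 0 < d := by linarith
  have hC0 : 0 < C₁ := by linarith
  have hl0 : 0 < Real.log d := by linarith
  set b₀ := C₁ * (d * Real.log d) / 8 with hb₀
  have hb₀d : d ≤ b₀ := by
    rw [hb₀]
    have h2 : 8 * (d * 1) ≤ C₁ * (d * Real.log d) :=
      mul_le_mul hC₁ (mul_le_mul_of_nonneg_left hl1 hd0.le) (by positivity) hC0.le
    linarith
  have he : Real.exp 1 ≤ b₀ := Real.exp_one_lt_three.le.trans (hd.trans hb₀d)
  have hb₀0 : 0 < b₀ := by linarith
  have h2 : Real.log b / b ≤ Real.log b₀ / b₀ :=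
    Real.log_div_self_antitoneOn (Set.mem_Ici.2 he) (Set.mem_Ici.2 (he.trans hb)) hb
  have h3 : Real.log b₀ ≤ 4 * Real.log d := by
    have h4 : b₀ ≤ C₁ * (d * d) := by
      rw [hb₀]
      have h5 : C₁ * (d * Real.log d) ≤ C₁ * (d * d) :=
        mul_le_mul_of_nonneg_left (mul_le_mul_of_nonneg_left hld hd0.le) hC0.le
      have h6 : 0 ≤ C₁ * (d * Real.log d) := by positivity
      linarith
    calc Real.log b₀ ≤ Real.log (C₁ * (d * d)) := Real.log_le_log hb₀0 h4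
      _ = Real.log C₁ + (Real.log d + Real.log d) := by
        rw [Real.log_mul hC0.ne' (by positivity), Real.log_mul hd0.ne' hd0.ne']
      _ ≤ 4 * Real.log d := by linarith
  have h4 : Real.log b₀ / b₀ ≤ 32 / (C₁ * d) := by
    rw [div_le_div_iff₀ hb₀0 (by positivity)]
    calc Real.log b₀ * (C₁ * d) ≤ 4 * Real.log d * (C₁ * d) :=
          mul_le_mul_of_nonneg_right h3 (by positivity)
      _ = 32 * b₀ := by rw [hb₀]; ring
  calc (d + 1) * (C * Real.log b / b) = (d + 1) * C * (Real.log b / b) := by ring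
    _ ≤ (2 * d) * C * (32 / (C₁ * d)) := by
      refine mul_le_mul ?_ (h2.trans h4) ?_ (by positivity)
      · exact mul_le_mul_of_nonneg_right (by linarith) hC
      · exact div_nonneg (Real.log_nonneg (by linarith)) (by linarith)
    _ = 64 * C / C₁ := by
      field_simp
      ring
    _ ≤ ε / 8 := by
      rw [div_le_div_iff₀ hC0 (by norm_num)]
      linarith

theorem c3_algebra {d e I lb la r η ε₁ : ℝ} (hd : 0 < d) (h1 : |e - lb| ≤ η)
    (h2 : |la - lb| ≤ η) (h3 : |I - (1 - la)| ≤ ε₁) (h4 : |1 - (d - 1) * r| ≤ 1 / d) :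
    |d * e + I - (d - 1) * (lb + r)| ≤ (d + 1) * η + ε₁ + 1 / d := by
  have e1 : d * e + I - (d - 1) * (lb + r) =
      d * (e - lb) + (I - (1 - la)) - (la - lb) + (1 - (d - 1) * r) := by ring
  rw [e1]
  rw [abs_le] at h1 h2 h3 h4 ⊢
  have h5 := mul_le_mul_of_nonneg_left h1.1 hd.le
  have h6 := mul_le_mul_of_nonneg_left h1.2 hd.le
  constructor
  · linarith [h2.1, h2.2, h3.1, h3.2, h4.1, h4.2]
  · linarith [h2.1, h2.2, h3.1, h3.2, h4.1, h4.2]

theorem c3_ratio {d : ℝ} (hd : 2 ≤ d) :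
    |1 - (d - 1) * Real.log (d / (d - 1))| ≤ 1 / d := by
  have hd0 : 0 < d := by linarith
  have hd1 : 0 < d - 1 := by linarith
  have h1 : Real.log (d / (d - 1)) ≤ d / (d - 1) - 1 :=
    Real.log_le_sub_one_of_pos (by positivity)
  have h2 : 1 - (d / (d - 1))⁻¹ ≤ Real.log (d / (d - 1)) :=
    Real.one_sub_inv_le_log_of_pos (by positivity)
  have h3 := mul_le_mul_of_nonneg_left h1 hd1.le
  have h4 := mul_le_mul_of_nonneg_left h2 hd1.le
  have e1 : (d - 1) * (d / (d - 1) - 1) = 1 := by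
    field_simp
    ring
  have e2 : (d - 1) * (1 - (d / (d - 1))⁻¹) = 1 - 1 / d := by
    field_simp
    ring
  rw [e1] at h3
  rw [e2] at h4
  have h5 : 0 < 1 / d := by positivity
  rw [abs_le]
  constructor <;> linarith

theorem c3_pow {x : ℝ} (hx : 0 < x) {d : ℕ} (hd : 2 ≤ d) :
    (((d : ℝ) - 1) / (2 * x)) ^ (d - 1) =
      Real.exp (-(((d : ℝ) - 1) * (Real.log (2 * (x / d)) + Real.log (d / ((d : ℝ) - 1))))) := by
  have hd' : (2 : ℝ) ≤ d := by exact_mod_cast hd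
  have hd0 : (0 : ℝ) < d := by linarith
  have hd1 : (0 : ℝ) < (d : ℝ) - 1 := by linarith
  have hc : ((d - 1 : ℕ) : ℝ) = (d : ℝ) - 1 := by
    rw [Nat.cast_sub (by omega)]
    norm_num
  have hy : 0 < ((d : ℝ) - 1) / (2 * x) := by positivity
  have h1 : Real.log (((d : ℝ) - 1) / (2 * x)) =
      -(Real.log (2 * (x / d)) + Real.log (d / ((d : ℝ) - 1))) := by
    rw [← Real.log_mul (by positivity) (by positivity), ← Real.log_inv]
    congr 1
    field_simp
  rw [← Real.exp_log hy, ← Real.exp_nat_mul, hc, h1]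
  congr 1
  ring

/-- `a` much larger than `d log d` -/
theorem pc_III (ε : ℝ) (hε : 0 < ε) : ∃ C₁ : ℝ, 0 < C₁ ∧ ∃ D₀ : ℕ,
    ∀ n d : ℕ, D₀ ≤ d → C₁ * (d * Real.log d) ≤ aopt (Real.log n / d) →
    Real.exp (-(Lall n d + ε)) ≤ pc n d 2 ∧ pc n d 2 ≤ Real.exp (-(Lall n d - ε)) := by
  have hδ0 : 0 < min (ε / 4) 1 := lt_min (by positivity) one_pos
  obtain ⟨D1, c1, hc1, hlow⟩ := sharp_lower (min (ε / 4) 1) hδ0 (min_le_right _ _)
  obtain ⟨D2, c2, hc2, hup⟩ := sharp_upper (min (ε / 4) 1) hδ0 (min_le_right _ _)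
  obtain ⟨C, hC, hell⟩ := ell_large
  obtain ⟨T, hT, havg⟩ := hD_avg (ε / 8) (by positivity)
  obtain ⟨D3, hLd⟩ := Ld_Lall 1 (ε / 4) one_pos (by positivity)
  set C₁ : ℝ := 512 * C / ε + 8 / c1 + 8 / c2 + T + 16 with hC₁
  have hC₁16 : 16 ≤ C₁ := by
    have : 0 ≤ 512 * C / ε + 8 / c1 + 8 / c2 + T := by positivity
    linarith
  have hC₁0 : 0 < C₁ := by linarith
  have hC₁C : 512 * C ≤ ε * C₁ := by
    have h1 : 512 * C / ε ≤ C₁ := by
      have : 0 ≤ 8 / c1 + 8 / c2 + T + 16 := by positivity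
      linarith
    rw [div_le_iff₀ hε] at h1
    linarith
  have hC₁c1 : 8 ≤ c1 * C₁ := by
    have h1 : 8 / c1 ≤ C₁ := by
      have : 0 ≤ 512 * C / ε + 8 / c2 + T + 16 := by positivity
      linarith
    rw [div_le_iff₀ hc1] at h1
    linarith
  have hC₁c2 : 8 ≤ c2 * C₁ := by
    have h1 : 8 / c2 ≤ C₁ := by
      have : 0 ≤ 512 * C / ε + 8 / c1 + T + 16 := by positivity
      linarith
    rw [div_le_iff₀ hc2] at h1
    linarith
  have hC₁T : T ≤ C₁ := by
    have : 0 ≤ 512 * C / ε + 8 / c1 + 8 / c2 + 16 := by positivity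
    linarith
  refine ⟨C₁, hC₁0, max (max D3 3) (max (max ⌈D1⌉₊ ⌈D2⌉₊) (max ⌈C₁⌉₊ ⌈8 / ε⌉₊)), ?_⟩
  intro n d hDd ha
  have hD3 : D3 ≤ d := by omega
  have hd3 : 3 ≤ d := by omega
  have hdD1 : D1 ≤ d := (Nat.le_ceil _).trans (by exact_mod_cast (show ⌈D1⌉₊ ≤ d by omega))
  have hdD2 : D2 ≤ d := (Nat.le_ceil _).trans (by exact_mod_cast (show ⌈D2⌉₊ ≤ d by omega))
  have hdC₁ : C₁ ≤ d := (Nat.le_ceil _).trans (by exact_mod_cast (show ⌈C₁⌉₊ ≤ d by omega))
  have hdε : 8 / ε ≤ d := (Nat.le_ceil _).trans (by exact_mod_cast (show ⌈8 / ε⌉₊ ≤ d by omega))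
  have hd3' : (3 : ℝ) ≤ d := by exact_mod_cast hd3
  have hd0 : (0 : ℝ) < d := by linarith
  have hl1 : 1 ≤ Real.log d := by
    rw [← Real.log_exp 1]
    exact Real.log_le_log (Real.exp_pos _) (Real.exp_one_lt_three.le.trans hd3')
  set x := Real.log n with hx
  have hx0 : 0 ≤ x := Real.log_natCast_nonneg n
  -- the main parameters
  have hdl : (d : ℝ) ≤ d * Real.log d := by
    calc (d : ℝ) = d * 1 := (mul_one _).symm
      _ ≤ d * Real.log d := mul_le_mul_of_nonneg_left hl1 hd0.le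
  have ha0 : C₁ * d ≤ aopt (x / d) := le_trans (mul_le_mul_of_nonneg_left hdl hC₁0.le) ha
  have ha1 : 48 ≤ aopt (x / d) := by
    refine le_trans ?_ ha0
    calc (48 : ℝ) = 16 * 3 := by norm_num
      _ ≤ C₁ * d := mul_le_mul hC₁16 hd3' (by norm_num) hC₁0.le
  have hb0 : 0 < x / d := by
    rcases (div_nonneg hx0 hd0.le).eq_or_lt with h | h
    · rw [← h, aopt_zero] at ha1
      norm_num at ha1
    · exact h
  obtain ⟨-, -, -, -, ha4⟩ := aopt_spec hb0
  have hba : aopt (x / d) / 8 ≤ x / d := by linarith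
  have hb2 : 2 ≤ x / d := by linarith
  have hbC : C₁ * (d * Real.log d) / 8 ≤ x / d := by linarith
  have hxd : x / d * d = x := div_mul_cancel₀ _ hd0.ne'
  have hxpos : 0 < x := by
    rw [← hxd]
    positivity
  have hsharp : ∀ c : ℝ, 0 < c → 8 ≤ c * C₁ → (d : ℝ) ^ 2 * Real.log d ≤ c * x := by
    intro c hc0 hc
    have h1 : C₁ * (d * Real.log d) / 8 * d ≤ x := by
      rw [← hxd]
      exact mul_le_mul_of_nonneg_right hbC hd0.le
    have h2 := mul_le_mul_of_nonneg_left h1 hc0.le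
    refine le_trans ?_ h2
    have h3 : 0 ≤ (d : ℝ) ^ 2 * Real.log d := by positivity
    have h4 := mul_le_mul_of_nonneg_right hc h3
    calc (d : ℝ) ^ 2 * Real.log d = 8 * ((d : ℝ) ^ 2 * Real.log d) / 8 := by ring
      _ ≤ c * C₁ * ((d : ℝ) ^ 2 * Real.log d) / 8 := by linarith
      _ = c * (C₁ * (d * Real.log d) / 8 * d) := by ring
  have hL := hlow n d hdD1 (hsharp c1 hc1 hC₁c1)
  have hU := hup n d hdD2 (hsharp c2 hc2 hC₁c2)
  rw [← hx, c3_pow hxpos (by omega), ← Real.exp_add] at hL hU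
  -- comparison of the exponents
  have hs := c3_small hC (by linarith) hC₁C hd3' (by
    have := Real.log_le_log hC₁0 hdC₁
    linarith) hbC
  obtain ⟨he1, he2⟩ := hell (x / d) hb2
  have he3 := havg d (aopt (x / d)) (by omega)
    ((mul_le_mul_of_nonneg_right hC₁T hd0.le).trans ha0)
  have hA := c3_algebra hd0 he1 he2 he3 (c3_ratio (by linarith))
  have hB := hLd n d hD3 (by
    rw [one_mul]
    refine le_trans ?_ ha0
    calc (d : ℝ) = 1 * d := (one_mul _).symm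
      _ ≤ C₁ * d := mul_le_mul_of_nonneg_right (by linarith) hd0.le)
  have hε8 : 1 / (d : ℝ) ≤ ε / 8 := by
    rw [div_le_iff₀ hε] at hdε
    rw [div_le_div_iff₀ hd0 (by norm_num)]
    linarith
  have hLdef : Ld n d = d * ell (x / d) + (∫ u in (0 : ℝ)..aopt (x / d), hD d u) /
    aopt (x / d) := rfl
  rw [hLdef] at hB
  rw [abs_le] at hA hB
  have hδ : min (ε / 4) 1 ≤ ε / 4 := min_le_left _ _
  constructor
  · refine le_trans (Real.exp_le_exp.2 ?_) hL
    linarith [hA.1, hA.2, hB.1, hB.2]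
  · refine le_trans hU (Real.exp_le_exp.2 ?_)
    linarith [hA.1, hA.2, hB.1, hB.2]

end Pool.Agent.Lib.MP_8501c9_pr.Deep
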