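import Pool.Agent.Lib.MP_8501c9_pr.Deep.Defs2
import Pool.Agent.Lib.MP_8501c9_pr.Deep.ChooseY
import Pool.Agent.Lib.MP_8501c9_pr.Wide.InvStep
import Pool.Agent.Lib.MP_8501c9_pr.Wide.Brun

/-!
# K14: the start of the growth, side lengths below the dimension
-/

set_option autoImplicit false
open Set

namespace Pool.Agent.Lib.MP_8501c9_pr.Deep

open Pool.Agent.Lib.MP_8501c9_pr Pool.Agent.Lib.MP_8501c9_pr.Mid
open Pool.Agent.Lib.MP_8501c9_pr.Wide

variable {n d : ℕ}

/-- the growth factor for small ratios -/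
theorem k14_gg {τ : ℝ} (h0 : 0 < τ) (h2 : τ ≤ 2) : gg τ ≤ 12 * Real.exp 3 / τ := by
  have hy0 : 0 < τ / 4 := by positivity
  have hy1 : τ / 4 < 1 := by linarith
  refine (gg_le hy0 hy1 h0).trans ?_
  unfold gY
  have h1 : (1 / 2 : ℝ) ≤ 1 - τ / 4 := by linarith
  have e1 : (1 / (τ / 4) + τ / 2) / (1 - τ / 4) ≤ 12 / τ := by
    have e2 : 1 / (τ / 4) + τ / 2 ≤ 6 / τ := by
      rw [le_div_iff₀ h0]
      have : (1 / (τ / 4) + τ / 2) * τ = 4 + τ ^ 2 / 2 := by
        field_simp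
      rw [this]
      nlinarith
    calc (1 / (τ / 4) + τ / 2) / (1 - τ / 4) ≤ (6 / τ) / (1 / 2) :=
          div_le_div₀ (by positivity) e2 (by norm_num) h1
      _ = 12 / τ := by
          ring
  have e3 : 2 / τ * (τ / 4 / (1 - τ / 4)) + 1 / (1 - τ / 4) - (1 - τ / 4) ≤ 3 := by
    have e4 : 2 / τ * (τ / 4 / (1 - τ / 4)) = 1 / 2 * (1 / (1 - τ / 4)) := by
      have : (1 - τ / 4) ≠ 0 := by linarith
      field_simp
      ring
    have e5 : 1 / (1 - τ / 4) ≤ 2 := by
      rw [div_le_iff₀ (by linarith)]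
      linarith
    rw [e4]
    linarith
  calc (1 / (τ / 4) + τ / 2) / (1 - τ / 4) *
        Real.exp (2 / τ * (τ / 4 / (1 - τ / 4)) + 1 / (1 - τ / 4) - (1 - τ / 4))
      ≤ 12 / τ * Real.exp 3 :=
        mul_le_mul e1 (Real.exp_le_exp.mpr e3) (Real.exp_pos _).le (by positivity)
    _ = 12 * Real.exp 3 / τ := by ring

theorem k14_lev_le_lt {t : ℕ} (hd : 1 ≤ d) : ((lev d t : ℕ) : ℝ) ≤ lt d t := by
  have hd0 : (0 : ℝ) < d := by exact_mod_cast hd
  unfold lev lt
  push_cast
  have h : ((t / d : ℕ) : ℝ) ≤ (t : ℝ) / d := Nat.cast_div_le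
  linarith

/-- comparison of the exponents -/
theorem k14_Ex {t : ℕ} (hd : 1 ≤ d) (ht : lt d t ≤ 2 * d) : Ex d t / 2 ≤ Bx d t + 3 := by
  have hd0 : (0 : ℝ) < d := by exact_mod_cast hd
  have hlev1 : (1 : ℝ) ≤ (lev d t : ℕ) := by
    unfold lev
    push_cast
    have : (0 : ℝ) ≤ ((t / d : ℕ) : ℝ) := Nat.cast_nonneg _
    linarith
  have hlev := k14_lev_le_lt (d := d) (t := t) hd
  have hlt : (0 : ℝ) < lt d t := by linarith
  have hτ0 : 0 < lt d t / d := by positivity
  have hτ2 : lt d t / d ≤ 2 := by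
    rw [div_le_iff₀ hd0]
    linarith
  have hg := k14_gg hτ0 hτ2
  have hg0 := d8_gg_pos hτ0
  have h1 : 2 * d * gg (lt d t / d) / lt d t ^ 2 ≤
      4 * (d : ℝ) ^ 2 / (Real.exp 1 * (lev d t : ℝ) ^ 3) * Real.exp 6 := by
    calc 2 * d * gg (lt d t / d) / lt d t ^ 2
        ≤ 2 * d * (12 * Real.exp 3 / (lt d t / d)) / lt d t ^ 2 := by gcongr
      _ = 24 * Real.exp 3 * d ^ 2 / lt d t ^ 3 := by
          field_simp
          ring
      _ ≤ 24 * Real.exp 3 * d ^ 2 / (lev d t : ℝ) ^ 3 := by gcongr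
      _ ≤ 4 * (d : ℝ) ^ 2 / (Real.exp 1 * (lev d t : ℝ) ^ 3) * Real.exp 6 := by
          have e6 : Real.exp 6 = Real.exp 1 * Real.exp 3 * (Real.exp 1 * Real.exp 1) := by
            rw [← Real.exp_add, ← Real.exp_add, ← Real.exp_add]
            norm_num
          have e1 : (2.7 : ℝ) < Real.exp 1 := by
            have := Real.exp_one_gt_d9
            linarith
          have e2 : (6 : ℝ) ≤ Real.exp 1 * Real.exp 1 := by nlinarith
          rw [e6]
          have e3 : 4 * (d : ℝ) ^ 2 / (Real.exp 1 * (lev d t : ℝ) ^ 3) *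
              (Real.exp 1 * Real.exp 3 * (Real.exp 1 * Real.exp 1)) =
              4 * (Real.exp 1 * Real.exp 1) * Real.exp 3 * d ^ 2 / (lev d t : ℝ) ^ 3 := by
            field_simp
          rw [e3]
          gcongr
          linarith
  have h2 : 0 < 2 * d * gg (lt d t / d) / lt d t ^ 2 := by positivity
  have h3 : Real.log (2 * d * gg (lt d t / d) / lt d t ^ 2) ≤
      Real.log (4 * (d : ℝ) ^ 2 / (Real.exp 1 * (lev d t : ℝ) ^ 3)) + 6 := by
    refine (Real.log_le_log h2 h1).trans (le_of_eq ?_)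
    rw [Real.log_mul (by positivity) (Real.exp_pos _).ne', Real.log_exp]
  unfold Ex Bx
  linarith

theorem deep_start : ∃ C : ℝ, 0 ≤ C ∧ ∃ D₀ : ℕ, ∀ (n d X : ℕ) (L : ℝ) (z : Vtx n d),
    D₀ ≤ d → Odd X → 3 ≤ X → X ≤ d → sfun d ((X - 1) * d) + 6 * Real.log d ≤ L →
    Room (X + 8) z → ∀ (g : Finset (Vtx n d) → ℝ) (v : ℝ), 0 ≤ v →
    (∀ Z T, Cst z (fun _ => X) Z T → Ach (Real.exp (-L)) g Z T v) →
    Ach (Real.exp (-L)) g ∅ ∅ (Real.exp ((∑ t ∈ Finset.range ((X - 1) * d),
      (Ex d t - L) / 2) - 4 * L - C * (X * d)) * v) := by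
  obtain ⟨C, hC, D₀, hB⟩ := reach_brun 1 one_pos
  refine ⟨C + 4, by linarith, max D₀ 4, ?_⟩
  intro n d X L z hD hodd hX3 hXd hL hroom g v hv hfin
  have hD₀ : D₀ ≤ d := le_trans (le_max_left _ _) hD
  have hd4 : 4 ≤ d := le_trans (le_max_right _ _) hD
  have hd1 : 1 ≤ d := by omega
  have hd0 : (0 : ℝ) < d := by exact_mod_cast hd1
  have hlog : 0 ≤ Real.log d := Real.log_nonneg (by exact_mod_cast hd1)
  have hs0 : 0 ≤ sfun d ((X - 1) * d) := by
    have h := sfun_mono d hd1 (Nat.zero_le ((X - 1) * d))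
    rw [sfun_zero] at h
    exact h
  have hL0 : 0 ≤ L := by linarith
  have hp0 : 0 ≤ Real.exp (-L) := (Real.exp_pos _).le
  have hp1 : Real.exp (-L) ≤ 1 := Real.exp_le_one_iff.mpr (by linarith)
  -- the directions of the first steps
  obtain ⟨E, hE, hEv⟩ : ∃ E : Finset (Fin d), (E.card = 2 ∨ E.card = 3) ∧
      Even (d - E.card) := by
    rcases Nat.even_or_odd d with hev | hod
    · obtain ⟨E, -, hE⟩ := Finset.exists_subset_card_eq
        (s := (Finset.univ : Finset (Fin d))) (n := 2) (by simp; omega)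
      refine ⟨E, Or.inl hE, ?_⟩
      rw [hE]
      exact (Nat.even_sub (by omega)).mpr (by simp [hev])
    · obtain ⟨E, -, hE⟩ := Finset.exists_subset_card_eq
        (s := (Finset.univ : Finset (Fin d))) (n := 3) (by simp; omega)
      refine ⟨E, Or.inr hE, ?_⟩
      rw [hE]
      refine (Nat.even_sub (by omega)).mpr ?_
      rw [← Nat.not_odd_iff_even]
      constructor
      · intro h
        exact absurd hod h
      · intro h
        exact absurd h (by decide)
  have hE3 : E.card ≤ 3 := by omega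
  set k := (X - 1) * d with hk
  have hk2 : 2 * d ≤ k := Nat.mul_le_mul_right d (by omega)
  have hXm : ∃ m, X - 1 = 2 * m := by
    obtain ⟨m, hm⟩ := hodd
    exact ⟨m, by omega⟩
  obtain ⟨m, hm⟩ := hXm
  have hkm : k = 2 * d * m := by
    rw [hk, hm]
    ring
  have hadm : Adm d E.card k := by
    refine ⟨?_, ?_, Or.inl ?_⟩
    · rw [hkm]
      exact ⟨d * m, by ring⟩
    · omega
    · rw [hkm]
      exact Nat.mul_mod_right _ _
  have hkd : k ≤ d ^ 2 := by
    rw [hk, pow_two]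
    exact Nat.mul_le_mul_right d (by omega)
  have hlev : lev d k = X := by
    unfold lev
    rw [hk, Nat.mul_div_cancel _ (by omega)]
    omega
  have hR := hB n d 1 k L z E hD₀ hE hEv odd_one (by omega) hadm hkd hL
    (brun_room hroom (by rw [hlev]; omega))
  set θ := Real.exp (∑ t ∈ Finset.Ico ((1 - 1) * d) k, (Bx d t - L / 2) -
        1 * (k - ((1 - 1) * d : ℕ)) - C * d) with hθ
  have hstep : ∀ Z T, Cst z (fun m => 1 + if m ∈ E then 2 else 0) Z T →
      Ach (Real.exp (-L)) g Z T (θ * v) := by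
    intro Z T hC'
    refine hR g v hv ?_ _ Z T (fun m => rfl) hC'
    intro x Z T hx hCx
    have hx' := bst_balanced hE hd4 hodd hX3 hx
    have : x = fun _ => X := funext hx'
    rw [this] at hCx
    exact hfin Z T hCx
  have hstart := ach_start hp0 hp1 (brun_room hroom (by omega)) hE
    (mul_nonneg (Real.exp_pos _).le hv) hstep
  refine Ach.mono hstart ?_
  rw [← mul_assoc (Real.exp (-L) ^ (E.card + 1))]
  refine mul_le_mul_of_nonneg_right ?_ hv
  have hpow : Real.exp (-(4 * L)) ≤ Real.exp (-L) ^ (E.card + 1) := by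
    rw [← Real.exp_nat_mul]
    refine Real.exp_le_exp.mpr ?_
    have h1 : ((E.card + 1 : ℕ) : ℝ) ≤ 4 := by exact_mod_cast (by omega : E.card + 1 ≤ 4)
    nlinarith
  refine le_trans ?_ (mul_le_mul_of_nonneg_right hpow (Real.exp_pos _).le)
  rw [← Real.exp_add]
  refine Real.exp_le_exp.mpr ?_
  have hsum : ∑ t ∈ Finset.range k, (Ex d t - L) / 2 ≤
      ∑ t ∈ Finset.range k, (Bx d t - L / 2) + 3 * k := by
    have e1 : ∑ t ∈ Finset.range k, (Bx d t - L / 2) + 3 * k =
        ∑ t ∈ Finset.range k, ((Bx d t - L / 2) + 3) := by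
      rw [Finset.sum_add_distrib, Finset.sum_const, Finset.card_range, nsmul_eq_mul]
      ring
    rw [e1]
    refine Finset.sum_le_sum fun t ht => ?_
    have htk : t < k := Finset.mem_range.mp ht
    have hlt : lt d t ≤ 2 * d := by
      unfold lt
      have e2 : (t : ℝ) / d ≤ (X : ℝ) - 1 := by
        rw [div_le_iff₀ hd0]
        have e3 : (t : ℝ) ≤ (k : ℝ) := by exact_mod_cast htk.le
        have e4 : (k : ℝ) = ((X : ℝ) - 1) * d := by
          rw [hk]
          push_cast [Nat.cast_sub (by omega : 1 ≤ X)]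
          ring
        linarith
      have e5 : (X : ℝ) ≤ d := by exact_mod_cast hXd
      linarith
    have := k14_Ex hd1 hlt
    linarith
  have hkX : (k : ℝ) ≤ X * d := by
    have : k ≤ X * d := Nat.mul_le_mul_right d (by omega)
    exact_mod_cast this
  have hdX : (d : ℝ) ≤ X * d := by
    have : d ≤ X * d := Nat.le_mul_of_pos_left d (by omega)
    exact_mod_cast this
  have hz : ((1 - 1) * d : ℕ) = 0 := by simp
  rw [hz, ← Finset.range_eq_Ico]
  push_cast
  nlinarith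

end Pool.Agent.Lib.MP_8501c9_pr.Deep
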