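import Pool.Agent.Lib.MP_8501c9_pr.Wide.DefsU

/-!
# Definitions for side lengths of order `d` and larger: moved sides, potentials
-/

set_option autoImplicit false
open Set

namespace Pool.Agent.Lib.MP_8501c9_pr.Deep

open Pool.Agent.Lib.MP_8501c9_pr Pool.Agent.Lib.MP_8501c9_pr.Mid
open Pool.Agent.Lib.MP_8501c9_pr.Wide

variable {n d : ℕ}

/-- sides, lower (`false`) or upper (`true`), of the first box which are moved in the second -/
def mv (Q Q' : BoxT n d) : Finset (Fin d × Bool) :=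
  Finset.univ.filter (fun s => (s.2 = true ∧ Q.2 s.1 < Q'.2 s.1) ∨
    (s.2 = false ∧ Q'.1 s.1 < Q.1 s.1))

/-- the point sticks out of the box at the given side -/
def outS (Q : BoxT n d) (s : Fin d × Bool) (x : Vtx n d) : Prop :=
  (s.2 = true ∧ Q.2 s.1 < x s.1) ∨ (s.2 = false ∧ x s.1 < Q.1 s.1)

open Classical in
/-- new points which stick out of `X` by two in total, and at the side `s` -/
noncomputable def slotB (Q Q' X : BoxT n d) (s : Fin d × Bool) : Finset (Vtx n d) :=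
  (cov Q' \ cov Q).filter (fun b => ∑ i, out X b i = 2 ∧ outS X s b)

open Classical in
/-- the other new points -/
noncomputable def freeB (Q Q' X : BoxT n d) : Finset (Vtx n d) :=
  (cov Q' \ cov Q).filter (fun b => ¬ (∑ i, out X b i = 2 ∧ ∃ s ∈ mv Q Q', outS X s b))

/-- factor for the points which become visible -/
noncomputable def wX (c : BoxT n d → BoxT n d → ℝ) (β : BoxT n d → ℝ) (Q Q' : BoxT n d) : ℝ :=
  Real.exp (c Q Q') * (1 + β Q') ^ (mv Q Q').card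

/-- data of a potential of product form, for side lengths up to `d ^ 2` -/
structure PE (d k : ℕ) (L η R c₁ c₃ : ℝ) (lam bet Pi W nu C : ℕ → ℝ) (F : ℕ → ℕ → ℝ) :
    Prop where
  F_ge : ∀ t x, 1 ≤ F t x
  C_pos : ∀ t, 0 < C t
  W_pos : ∀ t, 0 < W t
  ltW : ∀ t, lt d (t + 2) * W t ≤ R
  Pi_pos : ∀ t, 0 < Pi t
  bet_nonneg : ∀ t, 0 ≤ bet t
  bet_le : ∀ t : ℕ, t ≤ k + 4 → bet t ≤ R * d
  nu_nonneg : ∀ t, 0 ≤ nu t
  lam_ge : ∀ t, 1 ≤ lam t
  lam_le : ∀ t, lam t ≤ R * lt d t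
  lam_lip : ∀ s t : ℕ, s ≤ t → t ≤ s + 4 * d + 4 → lam t ≤ (1 + η) * lam s
  bet_lip : ∀ s t : ℕ, s ≤ t → t ≤ s + 4 * d + 4 → bet t ≤ (1 + η) * bet s
  wE : ∀ t x : ℕ, 1 ≤ x →
    Real.exp ((1 + 3 * η) * lam t / x) / x * (F (t + 2) (x + 1) / F (t + 2) x) ≤ W t
  wEx : ∀ t x : ℕ, 1 ≤ x →
    Real.exp ((1 + 3 * η) * lam t / x) * (F (t + 2) (x + 1) / F (t + 2) x) ≤
      lt d (t + 2) * W t
  wE1 : ∀ t x : ℕ, 1 ≤ x →
    Real.exp ((1 + 3 * η) * lam t / x) * (F (t + 1) (x + 1) / F (t + 1) x) ≤ R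
  volF : ∀ t x : ℕ, t < k → 1 ≤ x →
    F (t + 2) x * Real.exp (-(gap d t x)) ≤ F t x * Real.exp (nu t / d)
  stepF : ∀ t x : ℕ, 1 ≤ x → F (t + 1) x ≤ F t x * Real.exp (c₁ * Real.log d / d)
  piA : ∀ t, t < k → Pi t * (1 + lt d (t + 2) / (d * (1 + bet t))) ≤ lam t
  piB : ∀ t, t < k → Pi t * (1 + lt d (t + 2) / (2 * d * (1 + bet t))) ≤ d * bet t
  recC : ∀ t, t + 2 < k →
    C (t + 2) * (2 * Real.exp (-L + sfun d t + nu t + 12 * η) * (1 + bet t) ^ 2 *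
      (d * W t) ^ 2) ≤ Pi t * C t
  ratioC : ∀ t, t + 1 < k → C (t + 1) ≤ C t * Real.exp ((L - sfun d t) / 2 + c₁ * Real.log d -
    if (t : ℝ) < c₃ * Real.log d then c₃ * Real.log d else 0)
  endC : ∀ t, t + 1 = k ∨ t + 2 = k → 1 ≤ C t

/-- correction for the sides shorter than the average -/
noncomputable def qE (c : ℝ) (lam : ℕ → ℝ) (d t m : ℕ) : ℝ :=
  max 1 (lt d t / m * Real.exp (c * lam t * (1 / m - 1 / lt d t)))

/-- product of the corrections -/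
noncomputable def bE (c : ℝ) (lam : ℕ → ℝ) (d t x : ℕ) : ℝ :=
  ∏ m ∈ Finset.Icc x (lev d t), qE c lam d t m

/-- typical weight of a direction -/
noncomputable def WE (c : ℝ) (lam : ℕ → ℝ) (d t : ℕ) : ℝ :=
  Real.exp (c * lam (t + 2) / lt d (t + 2)) / lt d (t + 2)

/-- conditions for the weight of a new layer -/
structure LamOK (R : ℝ) (d : ℕ) (lam : ℕ → ℝ) : Prop where
  nonneg : ∀ t, 0 ≤ lam t
  le : ∀ t, lam t ≤ R * lt d t
  lip : ∀ t, |lam (t + 1) - lam t| ≤ R / d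

/-- growth factor for the parameter `y`, at the ratio `τ` of side length and dimension -/
noncomputable def gY (y τ : ℝ) : ℝ :=
  (1 / y + τ / 2) / (1 - y) *
    Real.exp (2 / τ * (y / (1 - y)) + 1 / (1 - y) - (1 - y))

/-- optimal growth factor -/
noncomputable def gg (τ : ℝ) : ℝ := sInf ((fun y => gY y τ) '' Set.Ioo 0 1)

/-- admissible choices of the parameter `y` as a function of `τ` -/
structure YF (R : ℝ) (Y : ℝ → ℝ) : Prop where
  low : ∀ τ, 0 < τ → min τ 1 / R ≤ Y τ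
  up : ∀ τ, 0 < τ → Y τ ≤ R * τ
  le_one : ∀ τ, 0 < τ → Y τ ≤ 1 - 1 / R
  lip : ∀ τ τ', 0 < τ → τ ≤ τ' → |Y τ' - Y τ| ≤ R * (τ' - τ) / (1 + τ)

/-- exponent of the growth by two units from size `t` -/
noncomputable def Ex (d t : ℕ) : ℝ :=
  sfun d t + Real.log (2 * d * gg (lt d t / d) / lt d t ^ 2)

end Pool.Agent.Lib.MP_8501c9_pr.Deep
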