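import Pool.Agent.Lib.MP_8501c9_pr.Deep.Defs
import Pool.Agent.Lib.MP_8501c9_pr.Wide.DefsC
import Mathlib.Algebra.Polynomial.Eval.Defs

/-!
# Definitions for side lengths of order `d` and larger: the growth strategy
-/

set_option autoImplicit false
open Set

namespace Pool.Agent.Lib.MP_8501c9_pr.Deep

open Pool.Agent.Lib.MP_8501c9_pr Pool.Agent.Lib.MP_8501c9_pr.Mid
open Pool.Agent.Lib.MP_8501c9_pr.Wide

variable {n d : ℕ}

/-- states between births with side lengths `x`; the last growth was by at least two units -/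
def Dst (z : Vtx n d) (x : Fin d → ℕ) (Z T : Finset (Vtx n d)) : Prop :=
  ∃ Q' Q, Inv z Q' Q ∅ Z T ∧ (∀ m, sd Q m = x m) ∧ (∀ m, sd Q m ≤ sd Q' m + 2) ∧
    phi Q' + 2 ≤ phi Q

/-- the payoff `v`, a function of the side lengths, can be achieved from all states -/
def AchD (p : ℝ) (z : Vtx n d) (g : Finset (Vtx n d) → ℝ) (v : (Fin d → ℕ) → ℝ) : Prop :=
  ∀ x Z T, Dst z x Z T → Ach p g Z T (v x)

/-- new points with the directions `S` which enlarge the box by two -/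
def NewP (Q' Q : BoxT n d) (S : Finset (Fin d)) : Finset (Vtx n d) :=
  Finset.univ.filter (fun b => supp Q b = S ∧ ∑ m, out Q b m = 2 ∧ b ∉ cov Q')

/-- increments of the side lengths by a birth with directions `S` -/
def inc (S : Finset (Fin d)) (i : Fin d) : ℕ := if i ∈ S then 3 - S.card else 0

/-- weight of a birth with directions `S`, where `m` are the directions enlarged last -/
noncomputable def wS (a₂ a₁ b₂ b₁ : ℝ) (m S : Finset (Fin d)) : ℝ :=
  if Disjoint S m then (if S.card = 2 then a₂ else a₁) else (if S.card = 2 then b₂ else b₁)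

/-- families of births which may be found, `U` are the directions used so far -/
structure AdmB (U m : Finset (Fin d)) (B : Finset (Finset (Fin d))) : Prop where
  card : ∀ S ∈ B, S.card = 1 ∨ S.card = 2
  used : ∀ S ∈ B, S ∩ U ⊆ m
  one : ∀ S ∈ B, (S ∩ m).card ≤ 1
  dis : (B : Set (Finset (Fin d))).PairwiseDisjoint id

open Classical in
/-- total weight of the sequences of births: `f` bounds the number of steps, `r` births have
still to be found, `J` is the queue, `U` the directions used so far, `m` the directions enlarged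
last, `κ` the increments, those of the queue included; `v` is the payoff at the end -/
noncomputable def mac (w : Finset (Fin d) → Finset (Fin d) → ℝ) (v : (Fin d → ℕ) → ℝ) :
    ℕ → ℕ → Finset (Finset (Fin d)) → Finset (Fin d) → Finset (Fin d) → (Fin d → ℕ) → ℝ
  | 0 => fun r _ _ _ κ => if r = 0 then v κ else 0
  | f + 1 => fun r J U m κ => if r = 0 then v κ else
      ∑ B : Finset (Finset (Fin d)) with (AdmB U m B ∧ B.card ≤ r ∧ (J ∪ B).Nonempty),
        (∏ S ∈ B, w m S) * ((∑ S ∈ J ∪ B, mac w v f (r - B.card) ((J ∪ B).erase S)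
          (U ∪ B.biUnion id) S (κ + ∑ S' ∈ B, inc S')) / ((J ∪ B).card : ℝ))

/-- states inside a macro step which started with the side lengths `x₀` -/
structure Est (z : Vtx n d) (x₀ κ : Fin d → ℕ) (Q' Q : BoxT n d) (A : Finset (Vtx n d))
    (J : Finset (Finset (Fin d))) (U m : Finset (Fin d)) (Z T : Finset (Vtx n d)) : Prop where
  inv : Inv z Q' Q A Z T
  que : Que Q A
  img : A.image (supp Q) = J
  sub : ∀ S ∈ J, S ⊆ U
  mU : m ⊆ U
  mJ : ∀ S ∈ J, Disjoint S m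
  sides : ∀ i, sd Q i + ∑ S ∈ J, inc S i = x₀ i + κ i
  thin : ∀ i, sd Q i ≤ sd Q' i + 2
  grow : phi Q' + 2 ≤ phi Q
  moved : ∀ i ∈ m, sd Q' i < sd Q i
  still : ∀ S ∈ J, ∀ i ∈ S, sd Q i = sd Q' i

/-- conditions for one macro step of `r` births from the side lengths `x` -/
structure MOK (p δ : ℝ) (a₂ a₁ b₂ b₁ : ℝ) (r y : ℕ) (x : Fin d → ℕ) : Prop where
  four : ∀ i, 4 ≤ x i
  top : ∀ i, x i + 2 * r ≤ y
  h2 : a₂ ≤ 4 * p * (∏ i, (x i : ℝ)) * (2 * y - 1) / (y : ℝ) ^ 4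
  h1 : a₁ ≤ 2 * p * (∏ i, (x i : ℝ)) * (2 * y - 1) / (y : ℝ) ^ 3
  g2 : b₂ ≤ 2 * p * (∏ i, (x i : ℝ)) / (y : ℝ) ^ 2
  g1 : b₁ ≤ p * (∏ i, (x i : ℝ)) / y
  few : p * (4 * ((d : ℝ) + 1) ^ 2 * ∏ i, (x i : ℝ)) * 4 ^ r ≤ δ / 2

/-- truncated exponential series of a polynomial -/
noncomputable def Pk (K : ℕ) (a : Polynomial ℝ) : Polynomial ℝ :=
  ∑ i ∈ Finset.range (K + 1), Polynomial.C (1 / (i.factorial : ℝ)) * a ^ i

/-- generating polynomials of the trees of height at most `k`, corner or straight root -/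
noncomputable def tp (α₂ α₁ β₂ β₁ : ℝ) (K : ℕ) : ℕ → Polynomial ℝ × Polynomial ℝ
  | 0 => (0, 0)
  | k + 1 =>
    (Polynomial.X * Pk K (Polynomial.C (α₂ / 2) * (tp α₂ α₁ β₂ β₁ K k).1 +
        Polynomial.C α₁ * (tp α₂ α₁ β₂ β₁ K k).2) *
      (1 + Polynomial.C β₂ * (tp α₂ α₁ β₂ β₁ K k).1 +
        Polynomial.C β₁ * (tp α₂ α₁ β₂ β₁ K k).2) ^ 2,
    Polynomial.X * Pk K (Polynomial.C (α₂ / 2) * (tp α₂ α₁ β₂ β₁ K k).1 +
        Polynomial.C α₁ * (tp α₂ α₁ β₂ β₁ K k).2) *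
      (1 + Polynomial.C β₂ * (tp α₂ α₁ β₂ β₁ K k).1 +
        Polynomial.C β₁ * (tp α₂ α₁ β₂ β₁ K k).2))

/-- generating polynomial of a macro step -/
noncomputable def mp (α₂ α₁ β₂ β₁ : ℝ) (K k : ℕ) : Polynomial ℝ :=
  Pk K (Polynomial.C (α₂ / 2) * (tp α₂ α₁ β₂ β₁ K k).1 +
    Polynomial.C α₁ * (tp α₂ α₁ β₂ β₁ K k).2)

/-- deviation from the average side length after `s` macro steps of `r` births -/
def Good (X r s D' : ℕ) (x : Fin d → ℕ) : Prop :=
  ∑ i, x i = d * X + 2 * r * s ∧ ∀ i, |(x i : ℝ) - (X + 2 * r * s / d)| ≤ D'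

/-- number of levels of a block -/
noncomputable def blk (d : ℕ) : ℕ := 2 * ⌈Real.log d ^ 6⌉₊

end Pool.Agent.Lib.MP_8501c9_pr.Deep
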