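import Pool.Agent.Lib.MP_8501c9_pr.Deep.Defs
import Pool.Agent.Lib.MP_8501c9_pr.Wide.DefsV

/-!
# The exponent of the critical probability
-/

set_option autoImplicit false
open Set

namespace Pool.Agent.Lib.MP_8501c9_pr.Deep

open Pool.Agent.Lib.MP_8501c9_pr Pool.Agent.Lib.MP_8501c9_pr.Mid
open Pool.Agent.Lib.MP_8501c9_pr.Wide

/-- exponent of the growth by two units at side length `u` -/
noncomputable def hD (d : ℕ) (u : ℝ) : ℝ := Real.log (2 * d * gg (u / d) / u ^ 2)

/-- exponent of the critical probability for side lengths of order `d` -/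
noncomputable def Ld (n d : ℕ) : ℝ :=
  d * ell (Real.log n / d) + (∫ u in (0 : ℝ)..aopt (Real.log n / d), hD d u) /
    aopt (Real.log n / d)

/-- correction to the growth factor at side length `u`: freedom of the side lengths and new
sides -/
noncomputable def corr (d : ℕ) (u : ℝ) : ℝ :=
  2 * Vlim (d / (4 * u ^ 2)) + Real.log (gg (u / d) * u / (2 * Real.exp 1 * d))

/-- exponent of the critical probability, all ranges -/
noncomputable def Lall (n d : ℕ) : ℝ :=
  d * ell (Real.log n / d) + 2 * Real.log d - cexp (Real.log n / d) +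
    (∫ u in (0 : ℝ)..aopt (Real.log n / d), corr d u) / aopt (Real.log n / d)

end Pool.Agent.Lib.MP_8501c9_pr.Deep
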