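import Pool.Agent.Lib.MP_8501c9_pr.Deep.Defs
import Pool.Agent.Lib.MP_8501c9_pr.Wide.MergePF

/-!
# Task D4: mergers and the crossing are negligible against potentials of product form, side
lengths of order `d` and larger
-/

set_option autoImplicit false
open Set

namespace Pool.Agent.Lib.MP_8501c9_pr.Deep

open Pool.Agent.Lib.MP_8501c9_pr Pool.Agent.Lib.MP_8501c9_pr.Mid
open Pool.Agent.Lib.MP_8501c9_pr.Wide

variable {n d : ℕ}

/-! ### the number of moved sides -/

theorem d4_card_mv {Q P : BoxT n d} (hQ : Q.1 ≤ Q.2) {c : ℕ}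
    (hc : phi (hull Q P) = phi Q + c) : (mv Q (hull Q P)).card ≤ c := by
  have h1 : (mv Q (hull Q P)).card = ∑ i : Fin d,
      ((if Q.2 i < (hull Q P).2 i then 1 else 0) + (if (hull Q P).1 i < Q.1 i then 1 else 0)) := by
    unfold mv
    rw [Finset.card_filter, Fintype.sum_prod_type]
    refine Finset.sum_congr rfl fun i _ => ?_
    rw [Fintype.sum_bool]
    simp
  have h2 : ∀ i ∈ Finset.univ, sd Q i +
      ((if Q.2 i < (hull Q P).2 i then 1 else 0) + (if (hull Q P).1 i < Q.1 i then 1 else 0)) ≤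
        sd (hull Q P) i := by
    intro i _
    have e1 : ((hull Q P).1 i : ℕ) ≤ Q.1 i := Fin.le_def.1 ((inf_le_left : Q.1 ⊓ P.1 ≤ Q.1) i)
    have e2 : (Q.2 i : ℕ) ≤ (hull Q P).2 i := Fin.le_def.1 ((le_sup_left : Q.2 ≤ Q.2 ⊔ P.2) i)
    have e3 : (Q.1 i : ℕ) ≤ Q.2 i := Fin.le_def.1 (hQ i)
    unfold sd
    split_ifs with a1 a2 a2
    · rw [Fin.lt_def] at a1 a2; omega
    · rw [Fin.lt_def] at a1; omega
    · rw [Fin.lt_def] at a2; omega
    · omega
  have h3 := Finset.sum_le_sum h2
  rw [Finset.sum_add_distrib, ← h1, v5_sum_sd, v5_sum_sd, hc] at h3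
  omega

/-! ### the potential along a chain of units -/

section PE

variable {k : ℕ} {L η R c₁ c₃ : ℝ} {lam bet Pi W nu C : ℕ → ℝ} {F : ℕ → ℕ → ℝ}

theorem d4_F_pos (H : PE d k L η R c₁ c₃ lam bet Pi W nu C F) (t x : ℕ) : 0 < F t x :=
  lt_of_lt_of_le one_pos (H.F_ge _ _)

theorem d4_step (H : PE d k L η R c₁ c₃ lam bet Pi W nu C F) (hη : 0 ≤ η) (s y : ℕ)
    (hy : 1 ≤ y) : Real.exp (lam (s + 1) / y) * F (s + 1) (y + 1) ≤ R * F (s + 1) y := by
  have hy0 : (0 : ℝ) < y := by exact_mod_cast hy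
  have h1 := H.wE1 s y hy
  have h2 := H.lam_lip s (s + 1) (by omega) (by omega)
  have h3 := H.lam_ge s
  have hF := d4_F_pos H (s + 1) y
  have hF' := d4_F_pos H (s + 1) (y + 1)
  have h4 : lam (s + 1) / y ≤ (1 + 3 * η) * lam s / y := by
    apply div_le_div_of_nonneg_right _ hy0.le
    have : 0 ≤ η * lam s := by positivity
    linarith
  have h5 := (mul_le_mul_of_nonneg_right (Real.exp_le_exp.2 h4)
    (by positivity : 0 ≤ F (s + 1) (y + 1) / F (s + 1) y)).trans h1
  rw [← mul_div_assoc, div_le_iff₀ hF] at h5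
  exact h5

theorem d4_dir (H : PE d k L η R c₁ c₃ lam bet Pi W nu C F) (hη : 0 ≤ η) (s x : ℕ)
    (hx : 1 ≤ x) (r : ℕ) : Real.exp ((r : ℝ) * (lam (s + 1) / ((x + r : ℕ) : ℝ) + η)) *
      F (s + 1) (x + r) ≤ (R * Real.exp η) ^ r * F (s + 1) x := by
  induction r with
  | zero => simp
  | succ r ih =>
    have hlam := H.lam_ge (s + 1)
    have hxr : (0 : ℝ) < ((x + r : ℕ) : ℝ) := by
      have : 0 < x + r := by omega
      exact_mod_cast this
    have hR0 : 0 ≤ R := by
      have h1 := H.ltW 0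
      have h2 := H.W_pos 0
      have h3 : 0 ≤ lt d (0 + 2) := by unfold lt; positivity
      exact (mul_nonneg h3 h2.le).trans h1
    have h1 : ((r + 1 : ℕ) : ℝ) * (lam (s + 1) / ((x + (r + 1) : ℕ) : ℝ) + η) ≤
        (r : ℝ) * (lam (s + 1) / ((x + r : ℕ) : ℝ) + η) + η + lam (s + 1) / ((x + r : ℕ) : ℝ) := by
      have e1 : lam (s + 1) / ((x + (r + 1) : ℕ) : ℝ) ≤ lam (s + 1) / ((x + r : ℕ) : ℝ) := by
        apply div_le_div_of_nonneg_left (by linarith) hxr
        have : x + r ≤ x + (r + 1) := by omega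
        exact_mod_cast this
      have e2 : (0 : ℝ) ≤ ((r + 1 : ℕ) : ℝ) := Nat.cast_nonneg _
      have e3 := mul_le_mul_of_nonneg_left e1 e2
      push_cast at e3 ⊢
      linarith
    have h2 := d4_step H hη s (x + r) (by omega)
    have hF := d4_F_pos H (s + 1) (x + r + 1)
    have h3 : Real.exp (((r + 1 : ℕ) : ℝ) * (lam (s + 1) / ((x + (r + 1) : ℕ) : ℝ) + η)) *
        F (s + 1) (x + r + 1) ≤ Real.exp ((r : ℝ) * (lam (s + 1) / ((x + r : ℕ) : ℝ) + η)) *
          Real.exp η * (Real.exp (lam (s + 1) / ((x + r : ℕ) : ℝ)) * F (s + 1) (x + r + 1)) := by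
      refine (mul_le_mul_of_nonneg_right (Real.exp_le_exp.2 h1) hF.le).trans_eq ?_
      rw [Real.exp_add, Real.exp_add]
      ring
    have h4 : Real.exp ((r : ℝ) * (lam (s + 1) / ((x + r : ℕ) : ℝ) + η)) *
          Real.exp η * (Real.exp (lam (s + 1) / ((x + r : ℕ) : ℝ)) * F (s + 1) (x + r + 1)) ≤
        Real.exp ((r : ℝ) * (lam (s + 1) / ((x + r : ℕ) : ℝ) + η)) *
          Real.exp η * (R * F (s + 1) (x + r)) :=
      mul_le_mul_of_nonneg_left h2 (by positivity)
    have h5 := mul_le_mul_of_nonneg_left ih (by positivity : 0 ≤ R * Real.exp η)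
    have h6 : x + (r + 1) = x + r + 1 := by omega
    rw [← h6] at h3 h4
    calc _ ≤ _ := h3
      _ ≤ _ := h4
      _ = R * Real.exp η * (Real.exp ((r : ℝ) * (lam (s + 1) / ((x + r : ℕ) : ℝ) + η)) *
          F (s + 1) (x + r)) := by ring
      _ ≤ _ := h5
      _ = _ := by rw [pow_succ]; ring

theorem d4_stepF (H : PE d k L η R c₁ c₃ lam bet Pi W nu C F) (m : ℕ) (x : ℕ) (hx : 1 ≤ x)
    (c : ℕ) : F (m + c) x ≤ F m x * Real.exp (c * (c₁ * Real.log d / d)) := by
  induction c with
  | zero => simp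
  | succ c ih =>
    have h1 := H.stepF (m + c) x hx
    have h2 := mul_le_mul_of_nonneg_right ih (Real.exp_pos (c₁ * Real.log d / d)).le
    refine (h1.trans h2).trans_eq ?_
    rw [mul_assoc, ← Real.exp_add]
    congr 2
    push_cast
    ring

theorem d4_low (H : PE d k L η R c₁ c₃ lam bet Pi W nu C F) (m e : ℕ) (he : m + e < k) :
    C (m + e) ≤ C m * Real.exp (∑ r ∈ Finset.range e,
      ((L - sfun d (m + r)) / 2 - v5_bad d c₃ (m + r)) + e * (c₁ * Real.log d)) := by
  induction e with
  | zero => simp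
  | succ e ih =>
    have h1 := ih (by omega)
    have h2 := H.ratioC (m + e) (by omega)
    refine h2.trans ((mul_le_mul_of_nonneg_right h1 (Real.exp_pos _).le).trans_eq ?_)
    rw [mul_assoc, ← Real.exp_add, Finset.sum_range_succ]
    congr 2
    unfold v5_bad
    push_cast
    ring

theorem d4_pot (H : PE d k L η R c₁ c₃ lam bet Pi W nu C F) (hd : 1 ≤ d) (hη : 0 ≤ η)
    (hR : 1 ≤ R) {Q P : BoxT n d} (hQ : Q.1 ≤ Q.2) {c : ℕ} (hc1 : 1 ≤ c)
    (hc : phi (hull Q P) = phi Q + c) (hck : phi Q + c < k) :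
    wX (cP lam η) (fun Q => bet (phi Q)) Q (hull Q P) * GP k C F (hull Q P) ≤
      (C (phi Q) * ∏ i, F (phi Q) (sd Q i)) * Real.exp (∑ r ∈ Finset.range c,
        ((L - sfun d (phi Q + r)) / 2 - v5_bad d c₃ (phi Q + r)) + c * (c₁ * Real.log d) +
          c * (c₁ * Real.log d) + c * (Real.log R + η) + c * Real.log (1 + R * d)) := by
  obtain ⟨s, hs⟩ : ∃ s, phi Q + c = s + 1 := ⟨phi Q + c - 1, by omega⟩
  have hd0 : (0 : ℝ) < d := by exact_mod_cast hd
  have hRd : 1 ≤ 1 + R * (d : ℝ) := by
    have : 0 ≤ R * (d : ℝ) := by positivity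
    linarith
  -- the slots
  have hbet0 := H.bet_nonneg (phi Q + c)
  have hbet := H.bet_le (phi Q + c) (by omega)
  have h1 : (1 + bet (phi Q + c)) ^ (mv Q (hull Q P)).card ≤
      Real.exp (c * Real.log (1 + R * d)) := by
    rw [Real.exp_nat_mul, Real.exp_log (by linarith)]
    calc (1 + bet (phi Q + c)) ^ (mv Q (hull Q P)).card ≤
        (1 + R * (d : ℝ)) ^ (mv Q (hull Q P)).card :=
          pow_le_pow_left₀ (by linarith) (by linarith) _
      _ ≤ (1 + R * (d : ℝ)) ^ c := pow_le_pow_right₀ hRd (d4_card_mv hQ hc)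
  -- the directions
  set r : Fin d → ℕ := fun i => sd (hull Q P) i - sd Q i with hr
  have hri : ∀ i, sd (hull Q P) i = sd Q i + r i := by
    intro i
    have := v5_sd_le Q P hQ i
    simp only [hr]
    omega
  have hrs : ∑ i, r i = c := by
    have e1 : ∑ i, sd (hull Q P) i = ∑ i, sd Q i + ∑ i, r i := by
      rw [← Finset.sum_add_distrib]
      exact Finset.sum_congr rfl fun i _ => hri i
    rw [v5_sum_sd, v5_sum_sd, hc] at e1
    omega
  have h2 : Real.exp (cP lam η Q (hull Q P)) * ∏ i, F (phi Q + c) (sd (hull Q P) i) ≤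
      Real.exp (c * (Real.log R + η)) * ∏ i, F (phi Q + c) (sd Q i) := by
    have e0 : Real.exp (c * (Real.log R + η)) = ∏ i, (R * Real.exp η) ^ (r i) := by
      rw [Finset.prod_pow_eq_pow_sum, hrs, Real.exp_nat_mul, Real.exp_add,
        Real.exp_log (by linarith)]
    rw [e0]
    unfold cP
    rw [Real.exp_sum, ← Finset.prod_mul_distrib, ← Finset.prod_mul_distrib, hc, hs]
    refine Finset.prod_le_prod (fun i _ => ?_) (fun i _ => ?_)
    · have := d4_F_pos H (s + 1) (sd (hull Q P) i)
      positivity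
    · have e1 := d4_dir H hη s (sd Q i) (v5_sd_pos Q i) (r i)
      rw [hri i]
      have e2 : ((sd Q i + r i : ℕ) : ℝ) - sd Q i = r i := by push_cast; ring
      rw [e2]
      exact e1
  have h3 : ∏ i, F (phi Q + c) (sd Q i) ≤
      (∏ i, F (phi Q) (sd Q i)) * Real.exp (c * (c₁ * Real.log d)) := by
    have e1 : Real.exp (c * (c₁ * Real.log d)) =
        ∏ _j : Fin d, Real.exp (c * (c₁ * Real.log d / d)) := by
      rw [Finset.prod_const, Finset.card_univ, Fintype.card_fin, ← Real.exp_nat_mul]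
      congr 1
      field_simp
    rw [e1, ← Finset.prod_mul_distrib]
    exact Finset.prod_le_prod (fun j _ => (d4_F_pos H _ _).le)
      fun j _ => d4_stepF H (phi Q) (sd Q j) (v5_sd_pos Q j) c
  have h4 := d4_low H (phi Q) c hck
  have hP0 : 0 ≤ ∏ i, F (phi Q + c) (sd (hull Q P) i) :=
    Finset.prod_nonneg fun i _ => (d4_F_pos H _ _).le
  have hP1 : 0 ≤ ∏ i, F (phi Q) (sd Q i) := Finset.prod_nonneg fun i _ => (d4_F_pos H _ _).le
  unfold wX GP
  beta_reduce
  rw [hc, if_pos hck]
  have hCc := H.C_pos (phi Q + c)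
  have hC0 := H.C_pos (phi Q)
  calc Real.exp (cP lam η Q (hull Q P)) * (1 + bet (phi Q + c)) ^ (mv Q (hull Q P)).card *
        (C (phi Q + c) * ∏ i, F (phi Q + c) (sd (hull Q P) i)) =
      (1 + bet (phi Q + c)) ^ (mv Q (hull Q P)).card * (C (phi Q + c) *
        (Real.exp (cP lam η Q (hull Q P)) * ∏ i, F (phi Q + c) (sd (hull Q P) i))) := by ring
    _ ≤ Real.exp (c * Real.log (1 + R * d)) * (C (phi Q + c) *
        (Real.exp (cP lam η Q (hull Q P)) * ∏ i, F (phi Q + c) (sd (hull Q P) i))) :=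
        mul_le_mul_of_nonneg_right h1 (by positivity)
    _ ≤ Real.exp (c * Real.log (1 + R * d)) * ((C (phi Q) * Real.exp (∑ r ∈ Finset.range c,
        ((L - sfun d (phi Q + r)) / 2 - v5_bad d c₃ (phi Q + r)) + c * (c₁ * Real.log d))) *
        (Real.exp (c * (Real.log R + η)) * ((∏ i, F (phi Q) (sd Q i)) *
          Real.exp (c * (c₁ * Real.log d))))) := by
        apply mul_le_mul_of_nonneg_left _ (Real.exp_pos _).le
        apply mul_le_mul h4 _ (by positivity) (by positivity)
        exact h2.trans (mul_le_mul_of_nonneg_left h3 (Real.exp_pos _).le)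
    _ = _ := by
        simp only [Real.exp_add]
        ring

end PE

/-! ### the main statement -/

open Classical in
/-- mergers and the crossing of the size `k` are negligible -/
theorem pe_N2 (η R c₁ : ℝ) (hη0 : 0 < η) (hη1 : η ≤ 1 / 10) (hR : 1 ≤ R) (hc₁ : 0 ≤ c₁) :
    ∃ c₃ : ℝ, 0 ≤ c₃ ∧ ∃ D₀ : ℕ, ∀ n d k : ℕ,
      ∀ (L : ℝ) (lam bet Pi W nu C : ℕ → ℝ) (F : ℕ → ℕ → ℝ),
      D₀ ≤ d → d ≤ k → k ≤ d ^ 3 → sfun d k + Real.sqrt (η * d) ≤ L →
      PE d k L η R c₁ c₃ lam bet Pi W nu C F → ∀ Q : BoxT n d, Q.1 ≤ Q.2 → phi Q < k →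
      TT (Real.exp (-L)) k Q + ∑ P : BoxT n d with FarBox Q P, wt (Real.exp (-L)) P *
        (wX (cP lam η) (fun Q => bet (phi Q)) Q (hull Q P) * GP k C F (hull Q P)) ≤
          GP k C F Q := by
  obtain ⟨a, ha⟩ : ∃ a, a = c₁ + 1 := ⟨_, rfl⟩
  have ha0 : 0 ≤ a := by linarith
  set c₃ : ℝ := 36 * (131 + 12 * a) with hc₃
  have hc₃0 : 0 < c₃ := by rw [hc₃]; positivity
  obtain ⟨D₁, hD₁⟩ := exists_log_le (2 * (2 * c₃)) 0 (Real.sqrt η) (Real.sqrt_pos.2 hη0)
  refine ⟨c₃, hc₃0.le, ⌈D₁ ^ 2⌉₊ + ⌈R * 2⌉₊ + 16, ?_⟩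
  intro n d k L lam bet Pi W nu C F hdD hdk _ hL H Q hQ hQk
  have hd16 : 16 ≤ d := by omega
  have hd16' : (16 : ℝ) ≤ d := by exact_mod_cast hd16
  have hd0 : (0 : ℝ) < d := by linarith
  have hdR : R * 2 ≤ d := (Nat.le_ceil _).trans (by
    have : ⌈R * 2⌉₊ ≤ d := by omega
    exact_mod_cast this)
  have hdD1 : D₁ ^ 2 ≤ d := (Nat.le_ceil _).trans (by
    have : ⌈D₁ ^ 2⌉₊ ≤ d := by omega
    exact_mod_cast this)
  set l := Real.log d with hl
  have hl1 : 1 ≤ l := by
    rw [hl, Real.le_log_iff_exp_le hd0]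
    have := Real.exp_one_lt_d9
    linarith
  set s := Real.sqrt (η * d) with hs
  have hs0 : 0 ≤ s := Real.sqrt_nonneg _
  have hsl : 2 * c₃ * l ≤ s := by
    have h1 : D₁ ≤ Real.sqrt d := by
      refine (le_abs_self D₁).trans ?_
      rw [← Real.sqrt_sq_eq_abs]
      exact Real.sqrt_le_sqrt hdD1
    have h2 := hD₁ (Real.sqrt d) h1
    have h3 : 0 < Real.sqrt d := Real.sqrt_pos.2 hd0
    have h4 : l ≤ 2 * Real.log (4 * Real.sqrt d) := by
      have e1 : Real.log (Real.sqrt d) ≤ Real.log (4 * Real.sqrt d) :=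
        Real.log_le_log h3 (by linarith)
      have e2 : Real.log (Real.sqrt d) = l / 2 := Real.log_sqrt hd0.le
      linarith
    have h5 : s = Real.sqrt η * Real.sqrt d := Real.sqrt_mul hη0.le _
    rw [h5]
    have h6 := mul_le_mul_of_nonneg_left h4 (by positivity : 0 ≤ 2 * c₃)
    linarith
  have hsd : s ≤ d / 3 := by
    rw [hs]
    apply Real.sqrt_le_iff.2
    refine ⟨by positivity, ?_⟩
    nlinarith
  have hcl : (131 + 12 * a) * l ≤ d / 216 := by
    have : 2 * c₃ * l = 72 * ((131 + 12 * a) * l) := by rw [hc₃]; ring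
    linarith
  have hcl0 : 0 ≤ a * l := by positivity
  have hdl : (119 + 12 * a) * l ≤ d / 20 := by linarith
  have hsl' : 9000 * l ≤ s := by
    have : 2 * c₃ * l = 72 * (131 * l + 12 * (a * l)) := by rw [hc₃]; ring
    linarith
  have hRη : Real.log R + η ≤ l := by
    have h1 : Real.log (R * 2) ≤ l := Real.log_le_log (by linarith) hdR
    rw [Real.log_mul (by linarith) (by norm_num)] at h1
    have h2 := Real.log_two_gt_d9
    linarith
  have hRd : Real.log (1 + R * d) ≤ 2 * l := by
    have h1 : 1 + R * (d : ℝ) ≤ d ^ 2 := by nlinarith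
    have h2 := Real.log_le_log (by positivity) h1
    rw [Real.log_pow] at h2
    push_cast at h2
    linarith
  -- the weights
  set m0 : ℕ := ⌈80 * Real.log (4 * d) + 1⌉₊ with hm0
  have hm0a : 80 * Real.log (4 * d) + 1 ≤ m0 := Nat.le_ceil _
  have hlog4 : 0 ≤ Real.log (4 * d) := by
    apply Real.log_nonneg
    linarith
  have hlog4' := log_four_mul_le (by omega : 2 ≤ d)
  have hm0b : (m0 : ℝ) < 80 * Real.log (4 * d) + 1 + 1 := Nat.ceil_lt_add_one (by positivity)
  have hm0d : m0 + 2 ≤ d := by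
    have h2 : (m0 : ℝ) + 2 ≤ d := by linarith
    exact_mod_cast h2
  have hm0l : ((m0 : ℝ) + 3) * Real.log 2 ≤ 2 * (100 * l) := by
    have h2 : (m0 : ℝ) + 3 ≤ 245 * l := by linarith
    have h3 := Real.log_two_lt_d9
    have h4 : 0 ≤ Real.log 2 := Real.log_nonneg (by norm_num)
    calc ((m0 : ℝ) + 3) * Real.log 2 ≤ 245 * l * 0.7 := by
          apply mul_le_mul h2 (by linarith) h4 (by positivity)
      _ ≤ _ := by linarith
  have hcost : cost d m0 k ≤ L / 2 := by
    unfold cost
    have h1 := sfun_le_sfun_succ (d - 1) (k + 1) (by omega)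
    rw [Nat.sub_add_cancel (by omega)] at h1
    have h2 := sfun_add_le d k 1 (by omega)
    have h3 : ((min k m0 + 3 : ℕ) : ℝ) ≤ (m0 : ℝ) + 3 := by
      have : min k m0 + 3 ≤ m0 + 3 := by omega
      exact_mod_cast this
    have h4 : 0 ≤ Real.log 2 := Real.log_nonneg (by norm_num)
    have h5 := mul_le_mul_of_nonneg_right h3 h4
    have h6 := Real.log_two_lt_d9
    push_cast at h2
    linarith
  have hwt : ∀ P : BoxT n d, P.1 ≤ P.2 → phi P ≤ phi Q →
      wt (Real.exp (-L)) P ≤ Real.exp (-(L * (1 + (phi P : ℝ) / 2)) +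
      (∑ j ∈ Finset.range (phi P), sfun d (j + 2)) / 2 + 100 * l * phi P) :=
    fun P hP hPQ => g_wt (by omega : 2 ≤ d) hm0a hm0d hcost hm0l P hP (by omega)
  -- the potential at `Q`
  have hLm : sfun d (phi Q) + s ≤ L := by
    have := sfun_mono d (by omega) hQk.le
    linarith
  set B := GP k C F Q with hB
  have hprod1 : 1 ≤ ∏ i, F (phi Q) (sd Q i) := by
    have := Finset.prod_le_prod (s := Finset.univ) (f := fun _ : Fin d => (1 : ℝ))
      (g := fun i => F (phi Q) (sd Q i)) (fun _ _ => zero_le_one) (fun i _ => H.F_ge _ _)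
    simpa using this
  have hBe : B = C (phi Q) * ∏ i, F (phi Q) (sd Q i) := by
    rw [hB]; unfold GP; rw [if_pos hQk]
  have hCB : C (phi Q) ≤ B := by
    rw [hBe]
    exact le_mul_of_one_le_right (H.C_pos _).le hprod1
  have hB0 : 0 ≤ B := (H.C_pos _).le.trans hCB
  have hbad0 : ∀ t, 0 ≤ v5_bad d c₃ t := v5_bad_nonneg d hc₃0.le (by linarith)
  -- the crossing
  have hTT : TT (Real.exp (-L)) k Q ≤ B * (8 / d) := by
    unfold TT
    refine g_sum (by omega : 4 ≤ d) hQ _ _ B hB0 ?_ ?_
    · intro P hP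
      rw [Finset.mem_filter] at hP
      obtain ⟨-, a1, a2, a3, a4⟩ := hP
      refine ⟨a1, a2, ?_, ?_, a3⟩
      · intro h; rw [h] at a4; omega
      · intro h; rw [h] at a4; omega
    · intro h c hc1 hch hhm hne
      obtain ⟨P₀, hP₀⟩ := hne
      have hmem : ∀ P ∈ ((Finset.univ.filter (fun P => Cross k Q P)).filter
          (fun P => (phi P, phi (hull Q P) - phi Q) = (h, c))), P ∈ gCl Q h c ∧
          phi P = h ∧ k ≤ phi Q + c ∧ P.1 ≤ P.2 ∧ phi P ≤ phi Q := by
        intro P hP
        rw [Finset.mem_filter, Finset.mem_filter] at hP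
        obtain ⟨⟨-, a1, a2, a3, a4⟩, hPe⟩ := hP
        have e1 : phi P = h := (Prod.mk.inj hPe).1
        have e2 : phi (hull Q P) - phi Q = c := (Prod.mk.inj hPe).2
        refine ⟨?_, e1, by omega, a1, a3⟩
        rw [gCl, Finset.mem_filter]
        refine ⟨Finset.mem_univ _, a1, a2, ?_, ?_, e1, by omega⟩
        · intro h; rw [h] at a4; omega
        · intro h; rw [h] at a4; omega
      have hkc := (hmem P₀ hP₀).2.2.1
      rcases Nat.eq_zero_or_pos h with h0 | h0
      · -- single points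
        subst h0
        have hc12 : c = 1 ∨ c = 2 := by omega
        have hCm : 1 ≤ C (phi Q) := H.endC _ (by omega)
        have hcard := g_card_pt (by omega : 1 ≤ d) hQ c hc12
        have hvol := vol_pos Q
        have hlv := log_vol_le (by omega : 1 ≤ d) hQ (lev d (phi Q)) rfl
        have hlv' : Real.log (vol Q) ≤ sfun d (phi Q) := by
          have e1 : 0 ≤ Real.log (1 + 1 / ((lev d (phi Q) : ℝ) * (lev d (phi Q) + 2))) *
              ((Exc (lev d (phi Q)) Q : ℝ) + Lag (lev d (phi Q)) Q) := by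
            apply mul_nonneg _ (by positivity)
            apply Real.log_nonneg
            have : 0 ≤ 1 / ((lev d (phi Q) : ℝ) * (lev d (phi Q) + 2)) := by positivity
            linarith
          linarith
        have e1 : 2 * (d : ℝ) ^ 2 * vol Q =
            Real.exp (Real.log 2 + 2 * l + Real.log (vol Q)) := by
          rw [Real.exp_add, Real.exp_add, Real.exp_log hvol, Real.exp_log (by norm_num),
            show 2 * l = ((2 : ℕ) : ℝ) * Real.log d by rw [hl]; norm_num, Real.exp_nat_mul,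
            Real.exp_log hd0]
        rw [e1] at hcard
        have h1 : ∑ P ∈ ((Finset.univ.filter (fun P => Cross k Q P)).filter
          (fun P => (phi P, phi (hull Q P) - phi Q) = (0, c))), wt (Real.exp (-L)) P ≤
            1 * Real.exp (-(2 * (max 0 1 : ℕ) * l)) := by
          refine g_class_sum (W := -L) (V := 0) _ (fun P hP => (hmem P hP).1) _ zero_le_one ?_ ?_
          · intro P hP
            obtain ⟨b1, b2, b3, b4, b5⟩ := hmem P hP
            have w1 := hwt P b4 b5
            rw [b2] at w1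
            simpa using w1
          · rw [Real.exp_zero, mul_one]
            refine (mul_le_mul_of_nonneg_right hcard (Real.exp_pos _).le).trans ?_
            rw [← Real.exp_add]
            apply Real.exp_le_exp.2
            have hlog2 := Real.log_two_lt_d9
            have e2 : ((max 0 1 : ℕ) : ℝ) = 1 := by norm_num
            rw [e2]
            linarith
        refine h1.trans ?_
        exact mul_le_mul_of_nonneg_right (hCm.trans hCB) (Real.exp_pos _).le
      · -- larger boxes
        have he : k - 1 - phi Q ≤ c := by omega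
        set e := k - 1 - phi Q with hedef
        have hlow := d4_low H (phi Q) e (by omega)
        have hend : 1 ≤ C (phi Q + e) := H.endC _ (by omega)
        have hone : 1 ≤ B * Real.exp (∑ r ∈ Finset.range e,
            ((L - sfun d (phi Q + r)) / 2 - v5_bad d c₃ (phi Q + r)) + e * (c₁ * Real.log d)) :=
          (hend.trans hlow).trans (mul_le_mul_of_nonneg_right hCB (Real.exp_pos _).le)
        have hX := v5_exp (e := e) (by omega : 2 ≤ d) hl.symm hl1 hhm he hch hLm
        have hBsum : 0 ≤ ∑ r ∈ Finset.range e, v5_bad d c₃ (phi Q + r) :=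
          Finset.sum_nonneg fun _ _ => hbad0 _
        have hF := v5_final (d := d) (m := phi Q) (h := h) (c := c) (e := e) (μ := 0) (s := s)
          (B := ∑ r ∈ Finset.range e, v5_bad d c₃ (phi Q + r)) ha0 hc₃ hl1 h0 hch he hsl hdl hBsum
          (fun _ => by positivity) (fun _ => by positivity) (by
            intro hm
            exfalso
            have e1 : d ≤ 2 * phi Q + 2 := by omega
            have e2 : (d : ℝ) ≤ 2 * phi Q + 2 := by exact_mod_cast e1
            linarith)
        have hcls := v5_class (V := ∑ r ∈ Finset.range e,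
            ((L - sfun d (phi Q + r)) / 2 - v5_bad d c₃ (phi Q + r)) + e * (c₁ * Real.log d))
          (L := L) (c := c) (by omega : 2 ≤ d) hl.symm hQ h0 (by
            rw [Finset.sum_sub_distrib]
            have e1 : (e : ℝ) * (c₁ * Real.log d) ≤ c * ((3 * a + 1) * l + 0) := by
              have e2 : (e : ℝ) ≤ c := by exact_mod_cast he
              rw [← hl]
              apply mul_le_mul e2 _ (by positivity) (by positivity)
              nlinarith
            linarith)
        refine g_class_sum _ (fun P hP => (hmem P hP).1) _ hB0 ?_ hcls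
        intro P hP
        obtain ⟨b1, b2, b3, b4, b5⟩ := hmem P hP
        have w1 := hwt P b4 b5
        rw [b2] at w1
        exact (w1.trans_eq (mul_one _).symm).trans
          (mul_le_mul_of_nonneg_left hone (Real.exp_pos _).le)
  -- the mergers
  have hFar : ∑ P : BoxT n d with FarBox Q P, wt (Real.exp (-L)) P *
        (wX (cP lam η) (fun Q => bet (phi Q)) Q (hull Q P) * GP k C F (hull Q P)) ≤
          B * (8 / d) := by
    refine g_sum (by omega : 4 ≤ d) hQ _ _ B hB0 ?_ ?_
    · intro P hP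
      rw [Finset.mem_filter] at hP
      obtain ⟨-, a1, a2, a3, a4, a5⟩ := hP
      exact ⟨a1, a2, a5, v5_hull_ne hQ a5 a4, a4⟩
    · intro h c hc1 hch hhm hne
      obtain ⟨P₀, hP₀⟩ := hne
      have hmem : ∀ P ∈ ((Finset.univ.filter (fun P => FarBox Q P)).filter
          (fun P => (phi P, phi (hull Q P) - phi Q) = (h, c))), P ∈ gCl Q h c ∧
          phi P = h ∧ phi (hull Q P) = phi Q + c ∧ P.1 ≤ P.2 ∧ phi P ≤ phi Q ∧ 1 ≤ h := by
        intro P hP
        rw [Finset.mem_filter, Finset.mem_filter] at hP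
        obtain ⟨⟨-, a1, a2, a3, a4, a5⟩, hPe⟩ := hP
        have e1 : phi P = h := (Prod.mk.inj hPe).1
        have e2 : phi (hull Q P) - phi Q = c := (Prod.mk.inj hPe).2
        refine ⟨?_, e1, by omega, a1, a4, by omega⟩
        rw [gCl, Finset.mem_filter]
        exact ⟨Finset.mem_univ _, a1, a2, a5, v5_hull_ne hQ a5 a4, e1, by omega⟩
      have h0 : 1 ≤ h := (hmem P₀ hP₀).2.2.2.2.2
      rcases Nat.lt_or_ge (phi Q + c) k with hck | hck
      · -- not crossing
        have hX := v5_exp (e := c) (by omega : 2 ≤ d) hl.symm hl1 hhm le_rfl hch hLm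
        have hBsum : 0 ≤ ∑ r ∈ Finset.range c, v5_bad d c₃ (phi Q + r) :=
          Finset.sum_nonneg fun _ _ => hbad0 _
        have hF := v5_final (d := d) (m := phi Q) (h := h) (c := c) (e := c) (μ := 0) (s := s)
          (B := ∑ r ∈ Finset.range c, v5_bad d c₃ (phi Q + r)) ha0 hc₃ hl1 h0 hch le_rfl hsl hdl
          hBsum (fun _ => by positivity) (fun _ => by positivity)
          (by
            intro hm
            have hcl3 : 3 ≤ c₃ * l := by
              have e1 : c₃ * 1 ≤ c₃ * l := mul_le_mul_of_nonneg_left hl1 hc₃0.le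
              have e2 : 36 * 131 ≤ c₃ := by rw [hc₃]; linarith
              linarith
            refine ⟨?_, rfl, ?_⟩
            · have e1 : (phi Q : ℝ) ≤ d := by linarith
              exact_mod_cast e1
            · have e1 : ∀ r ∈ Finset.range c, v5_bad d c₃ (phi Q + r) = c₃ * l := by
                intro r hr
                rw [Finset.mem_range] at hr
                unfold v5_bad
                rw [if_pos]
                have e2 : phi Q + r ≤ 2 * phi Q + 1 := by omega
                have e3 : ((phi Q + r : ℕ) : ℝ) ≤ 2 * phi Q + 1 := by exact_mod_cast e2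
                rw [← hl]
                linarith
              rw [Finset.sum_congr rfl e1, Finset.sum_const, Finset.card_range, nsmul_eq_mul])
        have hcls := v5_class (V := ∑ r ∈ Finset.range c,
            ((L - sfun d (phi Q + r)) / 2 - v5_bad d c₃ (phi Q + r)) + c * (c₁ * Real.log d) +
              c * (c₁ * Real.log d) + c * (Real.log R + η) + c * Real.log (1 + R * d))
          (L := L) (c := c) (by omega : 2 ≤ d) hl.symm hQ h0 (by
            rw [Finset.sum_sub_distrib, ← hl]
            have hc0 : (0 : ℝ) ≤ c := Nat.cast_nonneg c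
            have e1 : (c : ℝ) * (Real.log R + η) ≤ c * l := mul_le_mul_of_nonneg_left hRη hc0
            have e2 : (c : ℝ) * Real.log (1 + R * d) ≤ c * (2 * l) :=
              mul_le_mul_of_nonneg_left hRd hc0
            have e3 : (c : ℝ) * (c₁ * l) + c * (c₁ * l) + c * l + c * (2 * l) ≤
                c * ((3 * a + 1) * l + 0) := by
              have e4 : 0 ≤ (c : ℝ) * ((c₁ + 1) * l) := by positivity
              rw [ha]
              linarith
            linarith)
        refine g_class_sum _ (fun P hP => (hmem P hP).1) _ hB0 ?_ hcls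
        intro P hP
        obtain ⟨b1, b2, b3, b4, b5, b6⟩ := hmem P hP
        have w1 := hwt P b4 b5
        rw [b2] at w1
        have w2 := d4_pot H (by omega : 1 ≤ d) hη0.le hR hQ hc1 b3 hck
        have w5 : 0 ≤ wX (cP lam η) (fun Q => bet (phi Q)) Q (hull Q P) *
            GP k C F (hull Q P) := by
          apply mul_nonneg
          · unfold wX
            have := H.bet_nonneg (phi (hull Q P))
            positivity
          · unfold GP
            rw [b3, if_pos hck]
            apply mul_nonneg (H.C_pos _).le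
            exact Finset.prod_nonneg fun i _ => zero_le_one.trans (H.F_ge _ _)
        rw [← hBe] at w2
        exact mul_le_mul w1 w2 w5 (Real.exp_pos _).le
      · -- crossing: the potential vanishes
        have hzero : ∑ P ∈ ((Finset.univ.filter (fun P => FarBox Q P)).filter
          (fun P => (phi P, phi (hull Q P) - phi Q) = (h, c))), wt (Real.exp (-L)) P *
            (wX (cP lam η) (fun Q => bet (phi Q)) Q (hull Q P) * GP k C F (hull Q P)) = 0 := by
          apply Finset.sum_eq_zero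
          intro P hP
          obtain ⟨b1, b2, b3, b4, b5, b6⟩ := hmem P hP
          have : GP k C F (hull Q P) = 0 := by
            unfold GP
            rw [b3, if_neg (by omega)]
          rw [this, mul_zero, mul_zero]
        rw [hzero]
        positivity
  have hfin : 8 / (d : ℝ) + 8 / d ≤ 1 := by
    rw [← add_div, div_le_one hd0]
    linarith
  calc _ ≤ B * (8 / d) + B * (8 / d) := add_le_add hTT hFar
    _ = B * (8 / d + 8 / d) := by ring
    _ ≤ B * 1 := mul_le_mul_of_nonneg_left hfin hB0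
    _ = B := mul_one B

end Pool.Agent.Lib.MP_8501c9_pr.Deep
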