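import Pool.Agent.Lib.MP_8501c9_pr.Deep.Defs
import Pool.Agent.Lib.MP_8501c9_pr.Wide.NewCount

/-!
# Counting the points which become visible, free ones and those at the moved sides (task D2)
-/

set_option autoImplicit false
open Set

namespace Pool.Agent.Lib.MP_8501c9_pr.Deep

open Pool.Agent.Lib.MP_8501c9_pr Pool.Agent.Lib.MP_8501c9_pr.Mid
open Pool.Agent.Lib.MP_8501c9_pr.Wide

variable {n d : ℕ}

/-- a point sticks out of a box on at most one side in each direction, so the number of moved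
sides is the number of directions in which the box grows -/
theorem mv_ext_card {X : BoxT n d} (hX : X.1 ≤ X.2) (b : Vtx n d) :
    (mv X (ext X b)).card = (Finset.univ.filter (fun i => sd X i < sd (ext X b) i)).card := by
  have key : ∀ s : Fin d × Bool, s ∈ mv X (ext X b) ↔
      ((s.2 = true ∧ (X.2 s.1 : ℕ) < b s.1) ∨ (s.2 = false ∧ (b s.1 : ℕ) < X.1 s.1)) := by
    intro s
    unfold mv
    rw [Finset.mem_filter, Fin.lt_def, Fin.lt_def, b_ext_fst, b_ext_snd]
    constructor
    · rintro ⟨-, h | h⟩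
      · left
        exact ⟨h.1, by have := h.2; omega⟩
      · right
        exact ⟨h.1, by have := h.2; omega⟩
    · rintro (h | h)
      · refine ⟨Finset.mem_univ _, Or.inl ⟨h.1, ?_⟩⟩
        have := h.2
        omega
      · refine ⟨Finset.mem_univ _, Or.inr ⟨h.1, ?_⟩⟩
        have := h.2
        omega
  have hsd : ∀ i, sd X i < sd (ext X b) i ↔ ((X.2 i : ℕ) < b i ∨ (b i : ℕ) < X.1 i) := by
    intro i
    have h0 := d_le hX i
    rw [d_sd_ext hX b i]
    unfold out
    omega
  refine Finset.card_bij (fun s _ => s.1) ?_ ?_ ?_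
  · intro s hs
    rw [Finset.mem_filter, hsd]
    rcases (key s).1 hs with h | h
    · exact ⟨Finset.mem_univ _, Or.inl h.2⟩
    · exact ⟨Finset.mem_univ _, Or.inr h.2⟩
  · intro s hs s' hs' h
    have h0 := d_le hX s.1
    have h0' := d_le hX s'.1
    have e1 := (key s).1 hs
    have e2 := (key s').1 hs'
    rw [← h] at e2
    refine Prod.ext h ?_
    rcases e1 with e1 | e1
    · rcases e2 with e2 | e2
      · rw [e1.1, e2.1]
      · have a1 := e1.2
        have a2 := e2.2
        omega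
    · rcases e2 with e2 | e2
      · have a1 := e1.2
        have a2 := e2.2
        omega
      · rw [e1.1, e2.1]
  · intro i hi
    rw [Finset.mem_filter, hsd] at hi
    rcases hi.2 with h | h
    · exact ⟨(i, true), (key _).2 (Or.inl ⟨rfl, h⟩), rfl⟩
    · exact ⟨(i, false), (key _).2 (Or.inr ⟨rfl, h⟩), rfl⟩

/-! ### the general splitting, by the distances to the larger box -/

theorem d2_split {Q' X : BoxT n d} (hQ' : Q'.1 ≤ Q'.2) (h2 : Sub Q' X) (B : Finset (Vtx n d))
    (hB : ∀ b ∈ B, ∑ m, out Q' b m ≤ 2)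
    (Γ : (Fin d → ℕ) → ℝ) (hΓ : ∀ x, 0 ≤ Γ x) (N₂ : Fin d → Fin d → ℝ) (N₁ : Fin d → ℝ)
    (hN₂ : ∀ i j : Fin d, i < j →
      ((B.filter (fun b => out X b = Pi.single i 1 + Pi.single j 1)).card : ℝ) ≤ N₂ i j)
    (hN₁ : ∀ i : Fin d, ((B.filter (fun b => out X b = Pi.single i 2)).card : ℝ) ≤ N₁ i) :
    ∑ b ∈ B, Γ (sd (ext X b)) ≤
      ∑ P : Fin d × Fin d with P.1 < P.2,
        N₂ P.1 P.2 * Γ (sd X + Pi.single P.1 1 + Pi.single P.2 1) +
      ∑ i, N₁ i * Γ (sd X + Pi.single i 2) +
      ∑ i, 4 * ((d : ℝ) + 1) * vol Q' * Γ (sd X + Pi.single i 1) +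
      4 * ((d : ℝ) + 1) ^ 2 * vol Q' * Γ (sd X) := by
  classical
  have hX : X.1 ≤ X.2 := h2.1.trans (hQ'.trans h2.2)
  -- the pointwise bound
  have hpt : ∀ b ∈ B, Γ (sd (ext X b)) ≤
      ∑ P : Fin d × Fin d with P.1 < P.2, (if out X b = Pi.single P.1 1 + Pi.single P.2 1 then
        Γ (sd X + Pi.single P.1 1 + Pi.single P.2 1) else 0) +
      ∑ i, (if out X b = Pi.single i 2 then Γ (sd X + Pi.single i 2) else 0) +
      ∑ i, (if 1 ≤ out Q' b i then Γ (sd X + Pi.single i 1) else 0) + Γ (sd X) := by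
    intro b hb
    have hsd : sd (ext X b) = sd X + out X b := by
      funext m
      exact d_sd_ext hX b m
    have hle : ∀ m, out X b m ≤ out Q' b m := fun m => b_out_mono h2.1 h2.2 b m
    have ho := hB b hb
    have hes : ∑ m, out X b m ≤ 2 := (Finset.sum_le_sum fun m _ => hle m).trans ho
    have n1' : 0 ≤ ∑ P : Fin d × Fin d with P.1 < P.2,
        (if out X b = Pi.single P.1 1 + Pi.single P.2 1 then
        Γ (sd X + Pi.single P.1 1 + Pi.single P.2 1) else 0) := by
      refine Finset.sum_nonneg fun P _ => ?_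
      split_ifs
      · exact hΓ _
      · exact le_rfl
    have n2' : 0 ≤ ∑ i, (if out X b = Pi.single i 2 then Γ (sd X + Pi.single i 2) else 0) := by
      refine Finset.sum_nonneg fun P _ => ?_
      split_ifs
      · exact hΓ _
      · exact le_rfl
    have n3' : 0 ≤ ∑ i, (if 1 ≤ out Q' b i then Γ (sd X + Pi.single i 1) else 0) := by
      refine Finset.sum_nonneg fun P _ => ?_
      split_ifs
      · exact hΓ _
      · exact le_rfl
    have n4' := hΓ (sd X)
    rw [hsd]
    by_cases h0 : ∀ m, out X b m = 0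
    · have : sd X + out X b = sd X := by
        funext m
        simp [h0 m]
      rw [this]
      linarith
    · push Not at h0
      obtain ⟨i, hi⟩ := h0
      obtain ⟨j, hj⟩ := v3_shape_two hes i (by omega)
      cases j with
      | none =>
        have hoi : 1 ≤ out Q' b i := by
          have := hle i
          omega
        have e1 : out X b = Pi.single i 1 := by
          rw [hj]
          simp [v3_s]
        rw [e1] at n1' n2' ⊢
        have := Finset.single_le_sum
          (f := fun i => (if 1 ≤ out Q' b i then Γ (sd X + Pi.single i 1) else 0))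
          (fun a _ => by
            try dsimp only
            split_ifs
            · exact hΓ _
            · exact le_rfl) (Finset.mem_univ i)
        try dsimp only at this
        rw [if_pos hoi] at this
        linarith
      | some j =>
        have e0 : out X b = Pi.single i 1 + Pi.single j 1 := hj
        rcases lt_trichotomy i j with hij | hij | hij
        · have := Finset.single_le_sum
            (f := fun P : Fin d × Fin d => (if out X b = Pi.single P.1 1 + Pi.single P.2 1 then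
              Γ (sd X + Pi.single P.1 1 + Pi.single P.2 1) else 0))
            (fun a _ => by
              try dsimp only
              split_ifs
              · exact hΓ _
              · exact le_rfl) (show (i, j) ∈ Finset.univ.filter
                (fun P : Fin d × Fin d => P.1 < P.2) by simp [hij])
          try dsimp only at this
          rw [if_pos e0] at this
          have e4 : sd X + out X b = sd X + Pi.single i 1 + Pi.single j 1 := by
            rw [e0, ← add_assoc]
          rw [e4]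
          linarith
        · subst hij
          have e2 : out X b = Pi.single i 2 := by
            rw [e0, ← Pi.single_add]
          have := Finset.single_le_sum
            (f := fun i => (if out X b = Pi.single i 2 then Γ (sd X + Pi.single i 2) else 0))
            (fun a _ => by
              try dsimp only
              split_ifs
              · exact hΓ _
              · exact le_rfl) (Finset.mem_univ i)
          try dsimp only at this
          rw [if_pos e2] at this
          have e4 : sd X + out X b = sd X + Pi.single i 2 := by rw [e2]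
          rw [e4]
          linarith
        · have := Finset.single_le_sum
            (f := fun P : Fin d × Fin d => (if out X b = Pi.single P.1 1 + Pi.single P.2 1 then
              Γ (sd X + Pi.single P.1 1 + Pi.single P.2 1) else 0))
            (fun a _ => by
              try dsimp only
              split_ifs
              · exact hΓ _
              · exact le_rfl) (show (j, i) ∈ Finset.univ.filter
                (fun P : Fin d × Fin d => P.1 < P.2) by simp [hij])
          try dsimp only at this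
          have e3 : (Pi.single i 1 + Pi.single j 1 : Fin d → ℕ) = Pi.single j 1 + Pi.single i 1 :=
            add_comm _ _
          rw [if_pos (by rw [e0, e3])] at this
          have e4 : sd X + out X b = sd X + Pi.single j 1 + Pi.single i 1 := by
            rw [e0, e3, ← add_assoc]
          rw [e4]
          linarith
  refine (Finset.sum_le_sum hpt).trans ?_
  rw [Finset.sum_add_distrib, Finset.sum_add_distrib, Finset.sum_add_distrib]
  have c1 : ∑ b ∈ B, ∑ P : Fin d × Fin d with P.1 < P.2,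
      (if out X b = Pi.single P.1 1 + Pi.single P.2 1 then
        Γ (sd X + Pi.single P.1 1 + Pi.single P.2 1) else 0) ≤
      ∑ P : Fin d × Fin d with P.1 < P.2,
        N₂ P.1 P.2 * Γ (sd X + Pi.single P.1 1 + Pi.single P.2 1) := by
    rw [Finset.sum_comm]
    refine Finset.sum_le_sum fun P hP => ?_
    rw [← Finset.sum_filter, Finset.sum_const, nsmul_eq_mul]
    exact mul_le_mul_of_nonneg_right (hN₂ P.1 P.2 (Finset.mem_filter.1 hP).2) (hΓ _)
  have c2 : ∑ b ∈ B, ∑ i, (if out X b = Pi.single i 2 then Γ (sd X + Pi.single i 2) else 0) ≤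
      ∑ i, N₁ i * Γ (sd X + Pi.single i 2) := by
    rw [Finset.sum_comm]
    refine Finset.sum_le_sum fun i _ => ?_
    rw [← Finset.sum_filter, Finset.sum_const, nsmul_eq_mul]
    exact mul_le_mul_of_nonneg_right (hN₁ i) (hΓ _)
  have c3 : ∑ b ∈ B, ∑ i, (if 1 ≤ out Q' b i then Γ (sd X + Pi.single i 1) else 0) ≤
      ∑ i, 4 * ((d : ℝ) + 1) * vol Q' * Γ (sd X + Pi.single i 1) := by
    rw [Finset.sum_comm]
    refine Finset.sum_le_sum fun i _ => ?_
    rw [← Finset.sum_filter, Finset.sum_const, nsmul_eq_mul]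
    refine mul_le_mul_of_nonneg_right ?_ (hΓ _)
    exact v3_card_dir hQ' _ i (fun x hx => hB x (Finset.mem_filter.1 hx).1)
      fun x hx => (Finset.mem_filter.1 hx).2
  have c4 : ∑ b ∈ B, Γ (sd X) ≤ 4 * ((d : ℝ) + 1) ^ 2 * vol Q' * Γ (sd X) := by
    rw [Finset.sum_const, nsmul_eq_mul]
    exact mul_le_mul_of_nonneg_right (v3_card_all hQ' B hB) (hΓ _)
  linarith

/-! ### free points -/

/-- if the side is not moved, the distances to both boxes in this direction are the same -/
theorem d2_out_eq {Q Q' X : BoxT n d} (hQ : Q.1 ≤ Q.2) (h1 : Sub Q Q') (h2 : Sub Q' X)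
    {s : Fin d × Bool} (hs : s ∉ mv Q Q') {x : Vtx n d} (hx : outS X s x) :
    out Q x s.1 = out Q' x s.1 := by
  have a0 := d_le hQ s.1
  have a1 : (Q'.1 s.1 : ℕ) ≤ Q.1 s.1 := h1.1 s.1
  have a2 : (Q.2 s.1 : ℕ) ≤ Q'.2 s.1 := h1.2 s.1
  have b1 : (X.1 s.1 : ℕ) ≤ Q'.1 s.1 := h2.1 s.1
  have b2 : (Q'.2 s.1 : ℕ) ≤ X.2 s.1 := h2.2 s.1
  unfold mv at hs
  rw [Finset.mem_filter] at hs
  push Not at hs
  obtain ⟨hs1, hs2⟩ := hs (Finset.mem_univ _)
  unfold outS at hx
  unfold out
  rcases hx with ⟨hb, hx⟩ | ⟨hb, hx⟩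
  · have h3 := hs1 hb
    rw [Fin.le_def] at h3
    rw [Fin.lt_def] at hx
    omega
  · have h3 := hs2 hb
    rw [Fin.le_def] at h3
    rw [Fin.lt_def] at hx
    omega

theorem d2_outS {X : BoxT n d} {x : Vtx n d} {i : Fin d} (h : 1 ≤ out X x i) :
    ∃ c : Bool, outS X (i, c) x := by
  unfold out at h
  rcases Nat.lt_or_ge (X.2 i : ℕ) (x i) with h1 | h1
  · exact ⟨true, Or.inl ⟨rfl, Fin.lt_def.2 h1⟩⟩
  · have h2 : (x i : ℕ) < X.1 i := by omega
    exact ⟨false, Or.inr ⟨rfl, Fin.lt_def.2 h2⟩⟩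

/-- free points: where they stick out, the distances to both boxes agree -/
theorem d2_free {Q Q' X : BoxT n d} (hQ : Q.1 ≤ Q.2) (h1 : Sub Q Q') (h2 : Sub Q' X)
    {x : Vtx n d} (hx : x ∈ freeB Q Q' X) (ho : ∑ m, out X x m = 2) :
    out Q' x = out X x ∧ ¬ ∑ m, out Q x m ≤ 2 ∧
      ∀ m, out X x m ≠ 0 → out Q x m = out Q' x m := by
  classical
  unfold freeB at hx
  rw [Finset.mem_filter, Finset.mem_sdiff] at hx
  obtain ⟨⟨hc', hc⟩, hf⟩ := hx
  have hle : ∀ m, out X x m ≤ out Q' x m := fun m => b_out_mono h2.1 h2.2 x m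
  have hs' : ∑ m, out Q' x m ≤ 2 := (Finset.mem_filter.1 hc').2
  refine ⟨(v3_eq_of_le hle (by omega)).symm, ?_, ?_⟩
  · intro h
    exact hc (Finset.mem_filter.2 ⟨Finset.mem_univ _, h⟩)
  · intro m hm
    obtain ⟨c, hcs⟩ := d2_outS (X := X) (x := x) (i := m) (by omega)
    have hns : (m, c) ∉ mv Q Q' := fun hmem => hf ⟨ho, (m, c), hmem, hcs⟩
    exact d2_out_eq hQ h1 h2 hns hcs

theorem d2_n2 {Q Q' X : BoxT n d} (hQ : Q.1 ≤ Q.2) (h1 : Sub Q Q') (h2 : Sub Q' X) {i j : Fin d}
    (hij : i ≠ j) :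
    (((freeB Q Q' X).filter
      (fun b => out X b = Pi.single i 1 + Pi.single j 1)).card : ℝ) ≤
      4 * (vol Q' / ((sd Q' i : ℝ) * sd Q' j)) * ∑ m, ((sd Q' m : ℝ) - sd Q m) / sd Q' m := by
  classical
  have hv := d_vol_pos Q'
  have si := v3_sd_pos Q' i
  have sj := v3_sd_pos Q' j
  have hc : 0 ≤ 4 * (vol Q' / ((sd Q' i : ℝ) * sd Q' j)) := by positivity
  have hsum2 : ∑ m, (Pi.single i 1 + Pi.single j 1 : Fin d → ℕ) m = 2 := by
    simp only [Pi.add_apply]
    rw [Finset.sum_add_distrib, v3_sum_single, v3_sum_single]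
  set A := (freeB Q Q' X).filter (fun b => out X b = Pi.single i 1 + Pi.single j 1) with hAdef
  have hA : ∀ x ∈ A, out Q' x = Pi.single i 1 + Pi.single j 1 := by
    intro x hx
    rw [hAdef, Finset.mem_filter] at hx
    rw [(d2_free hQ h1 h2 hx.1 (by rw [hx.2]; exact hsum2)).1, hx.2]
  rw [Finset.mul_sum]
  have hsub : A ⊆ Finset.univ.biUnion (fun m₀ : Fin d => A.filter
      (fun x => (i ≠ m₀ ∧ j ≠ m₀) ∧ 1 ≤ out Q x m₀)) := by
    intro x hx
    have hx' := hx
    rw [hAdef, Finset.mem_filter] at hx'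
    obtain ⟨hfx, ho⟩ := hx'
    obtain ⟨e1, hnc', e2⟩ := d2_free hQ h1 h2 hfx (by rw [ho]; exact hsum2)
    rw [ho] at e1
    obtain ⟨m, hm0, hm1⟩ := v3_exists (Q := Q) e1 hsum2
      (fun m => by
        rw [← e1]
        exact b_out_mono h1.1 h1.2 x m) hnc' (fun m hm => e2 m (by rw [ho]; exact hm))
    rw [Finset.mem_biUnion]
    refine ⟨m, Finset.mem_univ _, Finset.mem_filter.2 ⟨hx, ⟨?_, ?_⟩, hm1⟩⟩
    · intro him
      rw [← him] at hm0
      simp [Pi.single_eq_of_ne hij] at hm0
    · intro hjm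
      rw [← hjm] at hm0
      simp [Pi.single_eq_of_ne hij.symm] at hm0
  have h3 : (A.card : ℝ) ≤ ∑ m₀ : Fin d, ((A.filter
      (fun x => (i ≠ m₀ ∧ j ≠ m₀) ∧ 1 ≤ out Q x m₀)).card : ℝ) := by
    exact_mod_cast (Finset.card_le_card hsub).trans Finset.card_biUnion_le
  refine h3.trans (Finset.sum_le_sum fun m₀ _ => ?_)
  by_cases hm : i ≠ m₀ ∧ j ≠ m₀
  · refine v3_card_new_pair hQ h1 _ hij hm.1 hm.2 fun x hx => ?_
    rw [Finset.mem_filter] at hx
    exact ⟨hA x hx.1, hx.2.2⟩
  · have : A.filter (fun x => (i ≠ m₀ ∧ j ≠ m₀) ∧ 1 ≤ out Q x m₀) = ∅ := by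
      rw [Finset.filter_eq_empty_iff]
      intro x _ h
      exact hm h.1
    rw [this, Finset.card_empty, Nat.cast_zero]
    exact mul_nonneg hc (v3_ratio_nonneg hQ h1 m₀)

theorem d2_n1 {Q Q' X : BoxT n d} (hQ : Q.1 ≤ Q.2) (h1 : Sub Q Q') (h2 : Sub Q' X) (i : Fin d) :
    (((freeB Q Q' X).filter (fun b => out X b = Pi.single i 2)).card : ℝ) ≤
      2 * (vol Q' / (sd Q' i : ℝ)) * ∑ m, ((sd Q' m : ℝ) - sd Q m) / sd Q' m := by
  classical
  have hv := d_vol_pos Q'
  have si := v3_sd_pos Q' i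
  have hc : 0 ≤ 2 * (vol Q' / (sd Q' i : ℝ)) := by positivity
  have hsum2 : ∑ m, (Pi.single i 2 : Fin d → ℕ) m = 2 := v3_sum_single i 2
  set A := (freeB Q Q' X).filter (fun b => out X b = Pi.single i 2) with hAdef
  have hA : ∀ x ∈ A, out Q' x = Pi.single i 2 := by
    intro x hx
    rw [hAdef, Finset.mem_filter] at hx
    rw [(d2_free hQ h1 h2 hx.1 (by rw [hx.2]; exact hsum2)).1, hx.2]
  rw [Finset.mul_sum]
  have hsub : A ⊆ Finset.univ.biUnion (fun m₀ : Fin d => A.filter
      (fun x => i ≠ m₀ ∧ 1 ≤ out Q x m₀)) := by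
    intro x hx
    have hx' := hx
    rw [hAdef, Finset.mem_filter] at hx'
    obtain ⟨hfx, ho⟩ := hx'
    obtain ⟨e1, hnc', e2⟩ := d2_free hQ h1 h2 hfx (by rw [ho]; exact hsum2)
    rw [ho] at e1
    obtain ⟨m, hm0, hm1⟩ := v3_exists (Q := Q) e1 hsum2
      (fun m => by
        rw [← e1]
        exact b_out_mono h1.1 h1.2 x m) hnc' (fun m hm => e2 m (by rw [ho]; exact hm))
    rw [Finset.mem_biUnion]
    refine ⟨m, Finset.mem_univ _, Finset.mem_filter.2 ⟨hx, ?_, hm1⟩⟩
    intro him
    rw [← him] at hm0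
    simp at hm0
  have h3 : (A.card : ℝ) ≤ ∑ m₀ : Fin d, ((A.filter
      (fun x => i ≠ m₀ ∧ 1 ≤ out Q x m₀)).card : ℝ) := by
    exact_mod_cast (Finset.card_le_card hsub).trans Finset.card_biUnion_le
  refine h3.trans (Finset.sum_le_sum fun m₀ _ => ?_)
  by_cases hm : i ≠ m₀
  · refine v3_card_new_single hQ h1 _ hm fun x hx => ?_
    rw [Finset.mem_filter] at hx
    exact ⟨hA x hx.1, hx.2.2⟩
  · have : A.filter (fun x => i ≠ m₀ ∧ 1 ≤ out Q x m₀) = ∅ := by
      rw [Finset.filter_eq_empty_iff]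
      intro x _ h
      exact hm h.1
    rw [this, Finset.card_empty, Nat.cast_zero]
    exact mul_nonneg hc (v3_ratio_nonneg hQ h1 m₀)

theorem free_sum_le {Q Q' X : BoxT n d} (hQ : Q.1 ≤ Q.2) (h1 : Sub Q Q') (h2 : Sub Q' X)
    (Γ : (Fin d → ℕ) → ℝ) (hΓ : ∀ x, 0 ≤ Γ x) :
    ∑ b ∈ freeB Q Q' X, Γ (sd (ext X b)) ≤
      (∑ m, ((sd Q' m : ℝ) - sd Q m) / sd Q' m) *
        (∑ P : Fin d × Fin d with P.1 < P.2, 4 * (vol Q' / ((sd Q' P.1 : ℝ) * sd Q' P.2)) *
            Γ (sd X + Pi.single P.1 1 + Pi.single P.2 1) +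
          ∑ i, 2 * (vol Q' / (sd Q' i : ℝ)) * Γ (sd X + Pi.single i 2)) +
      ∑ i, 4 * ((d : ℝ) + 1) * vol Q' * Γ (sd X + Pi.single i 1) +
      4 * ((d : ℝ) + 1) ^ 2 * vol Q' * Γ (sd X) := by
  classical
  have hQ' : Q'.1 ≤ Q'.2 := h1.1.trans (hQ.trans h1.2)
  have hB : ∀ b ∈ freeB Q Q' X, ∑ m, out Q' b m ≤ 2 := by
    intro b hb
    unfold freeB at hb
    rw [Finset.mem_filter, Finset.mem_sdiff] at hb
    exact (Finset.mem_filter.1 hb.1.1).2
  refine (d2_split hQ' h2 (freeB Q Q' X) hB Γ hΓ _ _ (fun i j hij => d2_n2 hQ h1 h2 hij.ne)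
    fun i => d2_n1 hQ h1 h2 i).trans (le_of_eq ?_)
  have e1 : ∑ P : Fin d × Fin d with P.1 < P.2,
      4 * (vol Q' / ((sd Q' P.1 : ℝ) * sd Q' P.2)) * (∑ m, ((sd Q' m : ℝ) - sd Q m) / sd Q' m) *
        Γ (sd X + Pi.single P.1 1 + Pi.single P.2 1) =
      (∑ m, ((sd Q' m : ℝ) - sd Q m) / sd Q' m) *
        ∑ P : Fin d × Fin d with P.1 < P.2, 4 * (vol Q' / ((sd Q' P.1 : ℝ) * sd Q' P.2)) *
            Γ (sd X + Pi.single P.1 1 + Pi.single P.2 1) := by
    rw [Finset.mul_sum]
    refine Finset.sum_congr rfl fun P _ => ?_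
    ring
  have e2 : ∑ i, 2 * (vol Q' / (sd Q' i : ℝ)) * (∑ m, ((sd Q' m : ℝ) - sd Q m) / sd Q' m) *
        Γ (sd X + Pi.single i 2) =
      (∑ m, ((sd Q' m : ℝ) - sd Q m) / sd Q' m) *
        ∑ i, 2 * (vol Q' / (sd Q' i : ℝ)) * Γ (sd X + Pi.single i 2) := by
    rw [Finset.mul_sum]
    refine Finset.sum_congr rfl fun P _ => ?_
    ring
  rw [e1, e2]
  ring

/-! ### points at a moved side -/

/-- the coordinate in the direction of the side is determined -/
theorem d2_T_one {Q' : BoxT n d} (hQ' : Q'.1 ≤ Q'.2) (o : Fin d → ℕ) (s : Fin d × Bool) :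
    (((v3_T Q' o s.1).filter (fun a : Fin n => (s.2 = true ∧ Q'.2 s.1 < a) ∨
      (s.2 = false ∧ a < Q'.1 s.1))).card : ℝ) ≤ 1 := by
  have h0 := d_le hQ' s.1
  have : ((v3_T Q' o s.1).filter (fun a : Fin n => (s.2 = true ∧ Q'.2 s.1 < a) ∨
      (s.2 = false ∧ a < Q'.1 s.1))).card ≤ 1 := by
    rw [Finset.card_le_one]
    intro a ha b hb
    unfold v3_T at ha hb
    rw [Finset.mem_filter, Finset.mem_filter, Fin.lt_def, Fin.lt_def] at ha hb
    have a1 := ha.1.2
    have b1 := hb.1.2
    refine Fin.ext ?_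
    rcases ha.2 with ⟨a2, a3⟩ | ⟨a2, a3⟩
    · rcases hb.2 with ⟨b2, b3⟩ | ⟨b2, b3⟩
      · omega
      · rw [a2] at b2
        simp at b2
    · rcases hb.2 with ⟨b2, b3⟩ | ⟨b2, b3⟩
      · rw [a2] at b2
        simp at b2
      · omega
  exact_mod_cast this

theorem d2_outS_sub {Q' X : BoxT n d} (h2 : Sub Q' X) {s : Fin d × Bool} {x : Vtx n d}
    (h : outS X s x) : (s.2 = true ∧ Q'.2 s.1 < x s.1) ∨ (s.2 = false ∧ x s.1 < Q'.1 s.1) := by
  unfold outS at h
  rcases h with ⟨h3, h4⟩ | ⟨h3, h4⟩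
  · exact Or.inl ⟨h3, (h2.2 s.1).trans_lt h4⟩
  · exact Or.inr ⟨h3, h4.trans_le (h2.1 s.1)⟩

theorem d2_slot_pair {Q' X : BoxT n d} (hQ' : Q'.1 ≤ Q'.2) (h2 : Sub Q' X)
    (s : Fin d × Bool) {j : Fin d} (hj : j ≠ s.1) (A : Finset (Vtx n d))
    (hA : ∀ x ∈ A, out Q' x = Pi.single s.1 1 + Pi.single j 1 ∧ outS X s x) :
    (A.card : ℝ) ≤ 2 * (vol Q' / ((sd Q' s.1 : ℝ) * sd Q' j)) := by
  classical
  set i := s.1 with hi
  set o : Fin d → ℕ := Pi.single i 1 + Pi.single j 1 with ho
  have oi : o i = 1 := by simp [ho, Pi.single_eq_of_ne hj.symm]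
  have oj : o j = 1 := by simp [ho, Pi.single_eq_of_ne hj]
  have om : ∀ m, m ≠ i → m ≠ j → o m = 0 := by
    intro m hmi hmj
    simp [ho, Pi.single_eq_of_ne hmi, Pi.single_eq_of_ne hmj]
  have key : (A.card : ℝ) ≤ (∏ m, (sd Q' m : ℝ)) *
      ∏ m, ((if m = i then (1 : ℝ) / sd Q' i else 1) * (if m = j then (2 : ℝ) / sd Q' j else 1)) := by
    refine v3_prod _ A (fun m => (v3_T Q' o m).filter
      (fun a : Fin n => m = i → ((s.2 = true ∧ Q'.2 i < a) ∨ (s.2 = false ∧ a < Q'.1 i))))
      (fun x hx m => ?_) _ fun m => ?_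
    · rw [Finset.mem_filter]
      refine ⟨?_, ?_⟩
      · have := v3_mem_T Q' x m
        rw [(hA x hx).1] at this
        exact this
      · intro hm
        subst hm
        exact d2_outS_sub h2 (hA x hx).2
    · have hs := v3_sd_pos Q' m
      by_cases hmi : m = i
      · subst hmi
        rw [if_pos rfl, if_neg hj.symm, mul_one]
        have e1 : (v3_T Q' o i).filter (fun a : Fin n => i = i →
            ((s.2 = true ∧ Q'.2 i < a) ∨ (s.2 = false ∧ a < Q'.1 i))) =
            (v3_T Q' o i).filter (fun a : Fin n =>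
            ((s.2 = true ∧ Q'.2 i < a) ∨ (s.2 = false ∧ a < Q'.1 i))) := by
          refine Finset.filter_congr fun a _ => ?_
          simp
        rw [e1]
        refine (d2_T_one hQ' o s).trans (le_of_eq ?_)
        field_simp
      · rw [if_neg hmi, one_mul]
        have h3 : ((((v3_T Q' o m).filter (fun a : Fin n => m = i →
            ((s.2 = true ∧ Q'.2 i < a) ∨ (s.2 = false ∧ a < Q'.1 i)))).card : ℕ) : ℝ) ≤
            ((v3_T Q' o m).card : ℝ) := by
          exact_mod_cast Finset.card_filter_le _ _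
        refine h3.trans ?_
        by_cases hmj : m = j
        · subst hmj
          rw [if_pos rfl]
          refine (v3_T_pos hQ' (by omega)).trans (le_of_eq ?_)
          field_simp
        · rw [if_neg hmj, mul_one]
          exact v3_T_zero hQ' (om m hmi hmj)
  refine key.trans (le_of_eq ?_)
  rw [Finset.prod_mul_distrib, v3_prod_ite, v3_prod_ite]
  unfold vol
  have := v3_sd_pos Q' i
  have := v3_sd_pos Q' j
  field_simp

theorem d2_slot_straight {Q' X : BoxT n d} (hQ' : Q'.1 ≤ Q'.2) (h2 : Sub Q' X)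
    (s : Fin d × Bool) (A : Finset (Vtx n d))
    (hA : ∀ x ∈ A, out Q' x = Pi.single s.1 2 ∧ outS X s x) :
    (A.card : ℝ) ≤ vol Q' / (sd Q' s.1 : ℝ) := by
  classical
  set i := s.1 with hi
  set o : Fin d → ℕ := Pi.single i 2 with ho
  have om : ∀ m, m ≠ i → o m = 0 := by
    intro m hmi
    simp [ho, Pi.single_eq_of_ne hmi]
  have key : (A.card : ℝ) ≤ (∏ m, (sd Q' m : ℝ)) *
      ∏ m, (if m = i then (1 : ℝ) / sd Q' i else 1) := by
    refine v3_prod _ A (fun m => (v3_T Q' o m).filter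
      (fun a : Fin n => m = i → ((s.2 = true ∧ Q'.2 i < a) ∨ (s.2 = false ∧ a < Q'.1 i))))
      (fun x hx m => ?_) _ fun m => ?_
    · rw [Finset.mem_filter]
      refine ⟨?_, ?_⟩
      · have := v3_mem_T Q' x m
        rw [(hA x hx).1] at this
        exact this
      · intro hm
        subst hm
        exact d2_outS_sub h2 (hA x hx).2
    · have hs := v3_sd_pos Q' m
      by_cases hmi : m = i
      · subst hmi
        rw [if_pos rfl]
        have e1 : (v3_T Q' o i).filter (fun a : Fin n => i = i →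
            ((s.2 = true ∧ Q'.2 i < a) ∨ (s.2 = false ∧ a < Q'.1 i))) =
            (v3_T Q' o i).filter (fun a : Fin n =>
            ((s.2 = true ∧ Q'.2 i < a) ∨ (s.2 = false ∧ a < Q'.1 i))) := by
          refine Finset.filter_congr fun a _ => ?_
          simp
        rw [e1]
        refine (d2_T_one hQ' o s).trans (le_of_eq ?_)
        field_simp
      · rw [if_neg hmi, mul_one]
        have h3 : ((((v3_T Q' o m).filter (fun a : Fin n => m = i →
            ((s.2 = true ∧ Q'.2 i < a) ∨ (s.2 = false ∧ a < Q'.1 i)))).card : ℕ) : ℝ) ≤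
            ((v3_T Q' o m).card : ℝ) := by
          exact_mod_cast Finset.card_filter_le _ _
        refine h3.trans ?_
        exact v3_T_zero hQ' (om m hmi)
  refine key.trans (le_of_eq ?_)
  rw [v3_prod_ite]
  unfold vol
  have := v3_sd_pos Q' i
  field_simp

theorem slot_sum_le {Q Q' X : BoxT n d} (hQ : Q.1 ≤ Q.2) (h1 : Sub Q Q') (h2 : Sub Q' X)
    (s : Fin d × Bool) (Γ : (Fin d → ℕ) → ℝ) (hΓ : ∀ x, 0 ≤ Γ x) :
    ∑ b ∈ slotB Q Q' X s, Γ (sd (ext X b)) ≤
      ∑ j with j ≠ s.1, 2 * (vol Q' / ((sd Q' s.1 : ℝ) * sd Q' j)) *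
        Γ (sd X + Pi.single s.1 1 + Pi.single j 1) +
      vol Q' / (sd Q' s.1 : ℝ) * Γ (sd X + Pi.single s.1 2) := by
  classical
  have hQ' : Q'.1 ≤ Q'.2 := h1.1.trans (hQ.trans h1.2)
  have hX : X.1 ≤ X.2 := h2.1.trans (hQ'.trans h2.2)
  have hfacts : ∀ b ∈ slotB Q Q' X s, out Q' b = out X b ∧ outS X s b ∧ ∑ m, out X b m = 2 := by
    intro b hb
    unfold slotB at hb
    rw [Finset.mem_filter, Finset.mem_sdiff] at hb
    obtain ⟨⟨hc', -⟩, ho, hs⟩ := hb
    have hle : ∀ m, out X b m ≤ out Q' b m := fun m => b_out_mono h2.1 h2.2 b m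
    have hs' : ∑ m, out Q' b m ≤ 2 := (Finset.mem_filter.1 hc').2
    exact ⟨(v3_eq_of_le hle (by omega)).symm, hs, ho⟩
  have hpt : ∀ b ∈ slotB Q Q' X s, Γ (sd (ext X b)) ≤
      ∑ j with j ≠ s.1, (if out X b = Pi.single s.1 1 + Pi.single j 1 then
        Γ (sd X + Pi.single s.1 1 + Pi.single j 1) else 0) +
      (if out X b = Pi.single s.1 2 then Γ (sd X + Pi.single s.1 2) else 0) := by
    intro b hb
    obtain ⟨-, hs, ho⟩ := hfacts b hb
    have hsd : sd (ext X b) = sd X + out X b := by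
      funext m
      exact d_sd_ext hX b m
    have n1' : 0 ≤ ∑ j with j ≠ s.1, (if out X b = Pi.single s.1 1 + Pi.single j 1 then
        Γ (sd X + Pi.single s.1 1 + Pi.single j 1) else 0) := by
      refine Finset.sum_nonneg fun P _ => ?_
      split_ifs
      · exact hΓ _
      · exact le_rfl
    have n2' : 0 ≤ (if out X b = Pi.single s.1 2 then Γ (sd X + Pi.single s.1 2) else 0) := by
      split_ifs
      · exact hΓ _
      · exact le_rfl
    have hi : 1 ≤ out X b s.1 := by
      unfold outS at hs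
      unfold out
      rcases hs with ⟨_, h⟩ | ⟨_, h⟩
      · rw [Fin.lt_def] at h
        omega
      · rw [Fin.lt_def] at h
        omega
    obtain ⟨j, hj⟩ := v3_shape_two ho.le s.1 hi
    rw [hsd]
    cases j with
    | none =>
      exfalso
      rw [hj] at ho
      simp only [v3_s, add_zero] at ho
      rw [v3_sum_single] at ho
      omega
    | some j =>
      have e0 : out X b = Pi.single s.1 1 + Pi.single j 1 := hj
      by_cases hij : j = s.1
      · have e2 : out X b = Pi.single s.1 2 := by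
          rw [e0, hij, ← Pi.single_add]
        rw [if_pos e2]
        have e4 : sd X + out X b = sd X + Pi.single s.1 2 := by rw [e2]
        rw [e4]
        linarith
      · have := Finset.single_le_sum
          (f := fun j : Fin d => (if out X b = Pi.single s.1 1 + Pi.single j 1 then
              Γ (sd X + Pi.single s.1 1 + Pi.single j 1) else 0))
          (fun a _ => by
            try dsimp only
            split_ifs
            · exact hΓ _
            · exact le_rfl) (show j ∈ Finset.univ.filter (fun j : Fin d => j ≠ s.1) by simp [hij])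
        try dsimp only at this
        rw [if_pos e0] at this
        have e4 : sd X + out X b = sd X + Pi.single s.1 1 + Pi.single j 1 := by
          rw [e0, ← add_assoc]
        rw [e4]
        linarith
  refine (Finset.sum_le_sum hpt).trans ?_
  rw [Finset.sum_add_distrib]
  refine add_le_add ?_ ?_
  · rw [Finset.sum_comm]
    refine Finset.sum_le_sum fun j hj => ?_
    rw [← Finset.sum_filter, Finset.sum_const, nsmul_eq_mul]
    refine mul_le_mul_of_nonneg_right ?_ (hΓ _)
    refine d2_slot_pair hQ' h2 s (Finset.mem_filter.1 hj).2 _ fun x hx => ?_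
    rw [Finset.mem_filter] at hx
    obtain ⟨h3, h4, -⟩ := hfacts x hx.1
    exact ⟨by rw [h3, hx.2], h4⟩
  · rw [← Finset.sum_filter, Finset.sum_const, nsmul_eq_mul]
    refine mul_le_mul_of_nonneg_right ?_ (hΓ _)
    refine d2_slot_straight hQ' h2 s _ fun x hx => ?_
    rw [Finset.mem_filter] at hx
    obtain ⟨h3, h4, -⟩ := hfacts x hx.1
    exact ⟨by rw [h3, hx.2], h4⟩

end Pool.Agent.Lib.MP_8501c9_pr.Deep
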