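import Pool.Agent.Lib.MP_8501c9_pr.Basic
import Pool.Agent.Lib.MP_8501c9_pr.Wide.StepPF
import Pool.Agent.Lib.MP_8501c9_pr.Deep.Defs
import Pool.Agent.Lib.MP_8501c9_pr.Deep.SlotCount

/-!
# Task D3: the inequalities for the new points, potentials for long sides
-/

set_option autoImplicit false
open Set

namespace Pool.Agent.Lib.MP_8501c9_pr.Deep

open Pool.Agent.Lib.MP_8501c9_pr Pool.Agent.Lib.MP_8501c9_pr.Mid
open Pool.Agent.Lib.MP_8501c9_pr.Wide

variable {n d : ℕ}

/-- the summand as a function of the side lengths -/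
noncomputable def d3_G (k : ℕ) (L η : ℝ) (lam bet C : ℕ → ℝ) (F : ℕ → ℕ → ℝ)
    (x x' : Fin d → ℕ) : ℝ :=
  v4_G k L η lam C F x x' *
    (1 + bet (∑ i, x' i - d)) ^ (Finset.univ.filter (fun i => x i < x' i)).card

theorem d3_eq (k : ℕ) (L η : ℝ) (lam bet C : ℕ → ℝ) (F : ℕ → ℕ → ℝ) (X : BoxT n d)
    (hX : X.1 ≤ X.2) (b : Vtx n d) :
    Real.exp (-L) * wX (cP lam η) (fun Q => bet (phi Q)) X (ext X b) * GP k C F (ext X b) =
      d3_G k L η lam bet C F (sd X) (sd (ext X b)) := by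
  unfold d3_G wX
  rw [mv_ext_card hX, ← v4_eq, v4_phi]
  ring

theorem d3_G_nonneg (k : ℕ) (L η : ℝ) (lam bet C : ℕ → ℝ) (F : ℕ → ℕ → ℝ)
    (hC : ∀ t, 0 < C t) (hF : ∀ t x, 1 ≤ F t x) (hb : ∀ t, 0 ≤ bet t) (x x' : Fin d → ℕ) :
    0 ≤ d3_G k L η lam bet C F x x' := by
  unfold d3_G
  have h1 := v4_G_nonneg k L η lam C F hC hF x x'
  have h2 := hb (∑ i, x' i - d)
  positivity

theorem d3_two {k : ℕ} {L η : ℝ} {lam bet C : ℕ → ℝ} {F : ℕ → ℕ → ℝ} {x : Fin d → ℕ} {t : ℕ}
    (hx : ∑ i, x i = t + d) {i j : Fin d} (hij : i ≠ j) :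
    d3_G k L η lam bet C F x (x + Pi.single i 1 + Pi.single j 1) =
      v4_G k L η lam C F x (x + Pi.single i 1 + Pi.single j 1) * (1 + bet (t + 2)) ^ 2 := by
  unfold d3_G
  obtain ⟨x', hx'⟩ : ∃ x' : Fin d → ℕ, x' = x + Pi.single i 1 + Pi.single j 1 := ⟨_, rfl⟩
  rw [← hx']
  have hv : ∀ m, x' m = x m + (if m = i then 1 else 0) + (if m = j then 1 else 0) := by
    intro m
    rw [hx']
    simp [Pi.single_apply]
  have hs : ∑ m, x' m - d = t + 2 := by
    simp only [hv, Finset.sum_add_distrib, Finset.sum_ite_eq', Finset.mem_univ, if_true, hx]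
    omega
  have hc : (Finset.univ.filter (fun m => x m < x' m)) = {i, j} := by
    ext m
    simp only [Finset.mem_filter, Finset.mem_univ, true_and, Finset.mem_insert,
      Finset.mem_singleton]
    rw [hv m]
    by_cases h1 : m = i
    · simp [h1, hij]
    · by_cases h2 : m = j
      · simp [h2]
      · simp [h1, h2]
  rw [hs, hc, Finset.card_pair hij]

theorem d3_st {k : ℕ} {L η : ℝ} {lam bet C : ℕ → ℝ} {F : ℕ → ℕ → ℝ} {x : Fin d → ℕ} {t : ℕ}
    (hx : ∑ i, x i = t + d) (a : ℕ) (ha : 1 ≤ a) (i : Fin d) :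
    d3_G k L η lam bet C F x (x + Pi.single i a) =
      v4_G k L η lam C F x (x + Pi.single i a) * (1 + bet (t + a)) := by
  unfold d3_G
  obtain ⟨x', hx'⟩ : ∃ x' : Fin d → ℕ, x' = x + Pi.single i a := ⟨_, rfl⟩
  rw [← hx']
  have hv : ∀ m, x' m = x m + (if m = i then a else 0) := by
    intro m
    rw [hx']
    simp [Pi.single_apply]
  have hs : ∑ m, x' m - d = t + a := by
    simp only [hv, Finset.sum_add_distrib, Finset.sum_ite_eq', Finset.mem_univ, if_true, hx]
    omega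
  have hc : (Finset.univ.filter (fun m => x m < x' m)) = {i} := by
    ext m
    simp only [Finset.mem_filter, Finset.mem_univ, true_and, Finset.mem_singleton]
    rw [hv m]
    by_cases h1 : m = i
    · simp [h1]
      omega
    · simp [h1]
  rw [hs, hc, Finset.card_singleton, pow_one]

theorem d3_zero {k : ℕ} {L η : ℝ} {lam bet C : ℕ → ℝ} {F : ℕ → ℕ → ℝ} {x : Fin d → ℕ} :
    d3_G k L η lam bet C F x x = v4_G k L η lam C F x x := by
  unfold d3_G
  simp

/-! ### the weights -/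

theorem d3_lam {lam : ℕ → ℝ} {η : ℝ} (hη0 : 0 < η) {d t s x x' : ℕ} (h1 : ∀ t, 1 ≤ lam t)
    (hl : ∀ s t : ℕ, s ≤ t → t ≤ s + 4 * d + 4 → lam t ≤ (1 + η) * lam s) (hts : t ≤ s)
    (hs : s ≤ t + 2) (hx : 1 ≤ x) (hx' : x ≤ x') :
    lam s / x' ≤ (1 + 3 * η) * lam t / x := by
  have h2 : lam s ≤ (1 + η) * lam t := hl t s hts (by omega)
  have h3 : (0 : ℝ) < x := by exact_mod_cast hx
  have h4 : (x : ℝ) ≤ x' := by exact_mod_cast hx'
  have h5 := h1 t
  have h6 := h1 s
  calc lam s / x' ≤ lam s / x := div_le_div_of_nonneg_left (by linarith) h3 h4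
    _ ≤ (1 + 3 * η) * lam t / x := by
      apply div_le_div_of_nonneg_right _ h3.le
      nlinarith

/-- the main terms -/
theorem d3_main {d k : ℕ} {L η R c₁ c₃ : ℝ} {lam bet Pp W nu C : ℕ → ℝ} {F : ℕ → ℕ → ℝ}
    (hη0 : 0 < η) (hd : 1 ≤ d)
    (h : PE d k L η R c₁ c₃ lam bet Pp W nu C F) {x : Fin d → ℕ} {t : ℕ}
    (hx : ∑ i, x i = t + d) (hx1 : ∀ i, 1 ≤ x i) (ht : t < k)
    (hV : Real.log (∏ i, (x i : ℝ)) = sfun d t - ∑ i, gap d t (x i)) :
    ∃ P : ℝ, 0 ≤ P ∧ P ≤ Real.exp (-(8 * η)) * Pp t * (C t * ∏ i, F t (x i)) ∧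
      (∀ i j, i ≠ j → ((∏ i, (x i : ℝ)) / ((x i : ℝ) * x j)) *
        d3_G k L η lam bet C F x (x + Pi.single i 1 + Pi.single j 1) ≤ P / (2 * d ^ 2)) ∧
      (∀ i, ((∏ i, (x i : ℝ)) / (x i : ℝ)) *
        d3_G k L η lam bet C F x (x + Pi.single i 2) ≤
        P / (2 * d ^ 2) * (lt d (t + 2) / (1 + bet t))) := by
  have hF := h.F_ge
  have hx0 : ∀ i, (0 : ℝ) < x i := fun i => by exact_mod_cast hx1 i
  have hVpos : 0 < ∏ i, (x i : ℝ) := Finset.prod_pos fun i _ => hx0 i
  have hFt : 0 ≤ ∏ i, F t (x i) := Finset.prod_nonneg fun i _ => zero_le_one.trans (hF _ _)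
  have hCt := h.C_pos t
  have hPt := h.Pi_pos t
  have hb0 := h.bet_nonneg t
  have hb2 := h.bet_nonneg (t + 2)
  have hd0 : (0 : ℝ) < d := by exact_mod_cast hd
  have hlt0 : 0 ≤ lt d (t + 2) := by unfold lt; positivity
  have hW := h.W_pos t
  by_cases hk : t + 2 < k
  · have hF2 : 0 ≤ ∏ i, F (t + 2) (x i) :=
      Finset.prod_nonneg fun i _ => zero_le_one.trans (hF _ _)
    have hC2 := h.C_pos (t + 2)
    have hbl : bet (t + 2) ≤ (1 + η) * bet t := h.bet_lip t (t + 2) (by omega) (by omega)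
    have hbb : 1 + bet (t + 2) ≤ (1 + η) * (1 + bet t) := by nlinarith
    obtain ⟨M, hM⟩ : ∃ M, M = Real.exp (-L) * Real.exp (2 * η) * C (t + 2) *
      ((∏ i, (x i : ℝ)) * ∏ i, F (t + 2) (x i)) := ⟨_, rfl⟩
    have hM0 : 0 ≤ M := by rw [hM]; positivity
    refine ⟨2 * M * ((1 + η) * (1 + bet t)) ^ 2 * (d * W t) ^ 2, by positivity, ?_, ?_, ?_⟩
    · -- the upper bound
      have h1 : (∏ i, F (t + 2) (x i)) * Real.exp (∑ i, (-(gap d t (x i)))) ≤
          (∏ i, F t (x i)) * Real.exp (nu t) := by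
        have h6 : Real.exp (nu t) = ∏ _m : Fin d, Real.exp (nu t / d) := by
          rw [Finset.prod_const, Finset.card_univ, Fintype.card_fin, ← Real.exp_nat_mul]
          congr 1
          field_simp
        rw [h6, Real.exp_sum, ← Finset.prod_mul_distrib, ← Finset.prod_mul_distrib]
        apply Finset.prod_le_prod
        · intro i _
          have := hF (t + 2) (x i)
          positivity
        · intro i _
          exact h.volF t (x i) ht (hx1 i)
      have h2 : (∏ i, (x i : ℝ)) = Real.exp (sfun d t - ∑ i, gap d t (x i)) := by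
        rw [← hV, Real.exp_log hVpos]
      have h3 : (∏ i, (x i : ℝ)) * ∏ i, F (t + 2) (x i) ≤
          Real.exp (sfun d t + nu t) * ∏ i, F t (x i) := by
        have e1 : (∏ i, (x i : ℝ)) * ∏ i, F (t + 2) (x i) =
            Real.exp (sfun d t) * ((∏ i, F (t + 2) (x i)) *
              Real.exp (∑ i, (-(gap d t (x i))))) := by
          rw [h2, Finset.sum_neg_distrib, sub_eq_add_neg, Real.exp_add]
          ring
        rw [e1, Real.exp_add]
        calc _ ≤ Real.exp (sfun d t) * ((∏ i, F t (x i)) * Real.exp (nu t)) :=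
              mul_le_mul_of_nonneg_left h1 (Real.exp_pos _).le
          _ = _ := by ring
      have h5 := h.recC t hk
      have h10 : (1 + η) ^ 2 ≤ Real.exp (2 * η) := by
        have := Real.add_one_le_exp η
        calc (1 + η) ^ 2 ≤ (Real.exp η) ^ 2 := by
              apply pow_le_pow_left₀ (by linarith)
              linarith
          _ = Real.exp (2 * η) := by
              rw [← Real.exp_nat_mul]
              norm_num
      calc 2 * M * ((1 + η) * (1 + bet t)) ^ 2 * (d * W t) ^ 2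
          ≤ 2 * (Real.exp (-L) * Real.exp (2 * η) * C (t + 2) *
            (Real.exp (sfun d t + nu t) * ∏ i, F t (x i))) *
            ((1 + η) * (1 + bet t)) ^ 2 * (d * W t) ^ 2 := by
            rw [hM]
            gcongr
        _ = (C (t + 2) * (2 * Real.exp (-L + sfun d t + nu t + 12 * η) * (1 + bet t) ^ 2 *
              (d * W t) ^ 2)) * (∏ i, F t (x i)) * (Real.exp (-(10 * η)) * (1 + η) ^ 2) := by
            have e1 : Real.exp (-L + sfun d t + nu t + 12 * η) * Real.exp (-(10 * η)) =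
                Real.exp (-L) * Real.exp (2 * η) * Real.exp (sfun d t + nu t) := by
              rw [← Real.exp_add, ← Real.exp_add, ← Real.exp_add]
              congr 1
              ring
            linear_combination (-(2 * C (t + 2) * (∏ i, F t (x i)) * (1 + η) ^ 2 *
              (1 + bet t) ^ 2 * (d * W t) ^ 2)) * e1
        _ ≤ (Pp t * C t) * (∏ i, F t (x i)) * (Real.exp (-(10 * η)) * Real.exp (2 * η)) := by
            gcongr
        _ = _ := by
            rw [← Real.exp_add, show -(10 * η) + 2 * η = -(8 * η) by ring]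
            ring
    · intro i j hij
      rw [d3_two hx hij, v4_G_two hF hx hij, if_pos hk]
      have li := d3_lam (x' := x i + 1) hη0 h.lam_ge h.lam_lip (by omega : t ≤ t + 2) le_rfl
        (hx1 i) (by omega)
      have lj := d3_lam (x' := x j + 1) hη0 h.lam_ge h.lam_lip (by omega : t ≤ t + 2) le_rfl
        (hx1 j) (by omega)
      push_cast at li lj
      have wi := h.wE t (x i) (hx1 i)
      have wj := h.wE t (x j) (hx1 j)
      have hri : 0 < F (t + 2) (x i + 1) / F (t + 2) (x i) :=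
        div_pos (by linarith [hF (t + 2) (x i + 1)]) (by linarith [hF (t + 2) (x i)])
      have hrj : 0 < F (t + 2) (x j + 1) / F (t + 2) (x j) :=
        div_pos (by linarith [hF (t + 2) (x j + 1)]) (by linarith [hF (t + 2) (x j)])
      have hx0i := hx0 i
      have hx0j := hx0 j
      have hi : Real.exp (lam (t + 2) / ((x i : ℝ) + 1)) / x i *
          (F (t + 2) (x i + 1) / F (t + 2) (x i)) ≤ W t := by
        refine le_trans ?_ wi
        gcongr
      have hj : Real.exp (lam (t + 2) / ((x j : ℝ) + 1)) / x j *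
          (F (t + 2) (x j + 1) / F (t + 2) (x j)) ≤ W t := by
        refine le_trans ?_ wj
        gcongr
      have e1 : ((∏ i, (x i : ℝ)) / ((x i : ℝ) * x j)) *
          (Real.exp (-L) * Real.exp ((lam (t + 2) / ((x i : ℝ) + 1) + η) +
            (lam (t + 2) / ((x j : ℝ) + 1) + η)) *
            (C (t + 2) * ((∏ m, F (t + 2) (x m)) *
            (F (t + 2) (x i + 1) / F (t + 2) (x i)) *
            (F (t + 2) (x j + 1) / F (t + 2) (x j)))) * (1 + bet (t + 2)) ^ 2) =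
          M * (1 + bet (t + 2)) ^ 2 * ((Real.exp (lam (t + 2) / ((x i : ℝ) + 1)) / x i *
            (F (t + 2) (x i + 1) / F (t + 2) (x i))) *
            (Real.exp (lam (t + 2) / ((x j : ℝ) + 1)) / x j *
            (F (t + 2) (x j + 1) / F (t + 2) (x j)))) := by
        rw [hM, show (lam (t + 2) / ((x i : ℝ) + 1) + η) +
            (lam (t + 2) / ((x j : ℝ) + 1) + η) =
            2 * η + lam (t + 2) / ((x i : ℝ) + 1) + lam (t + 2) / ((x j : ℝ) + 1) by ring,
          Real.exp_add, Real.exp_add]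
        generalize F (t + 2) (x i + 1) / F (t + 2) (x i) = r1
        generalize F (t + 2) (x j + 1) / F (t + 2) (x j) = r2
        have hi0 := hx0i.ne'
        have hj0 := hx0j.ne'
        field_simp
      rw [e1]
      have e2 : 2 * M * ((1 + η) * (1 + bet t)) ^ 2 * (d * W t) ^ 2 / (2 * d ^ 2) =
          M * ((1 + η) * (1 + bet t)) ^ 2 * (W t * W t) := by
        field_simp
      rw [e2]
      gcongr
    · intro i
      rw [d3_st hx 2 (by norm_num) i, v4_G_st hF hx 2 i, if_pos hk]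
      have li := d3_lam (x' := x i + 2) hη0 h.lam_ge h.lam_lip (by omega : t ≤ t + 2) le_rfl
        (hx1 i) (by omega)
      have lj := d3_lam (x := x i + 1) (x' := x i + 2) hη0 h.lam_ge h.lam_lip
        (by omega : t ≤ t + 2) le_rfl (by omega) (by omega)
      have wi := h.wE t (x i) (hx1 i)
      have wj := h.wEx t (x i + 1) (by omega)
      push_cast at li lj wj
      have hri : 0 < F (t + 2) (x i + 1) / F (t + 2) (x i) :=
        div_pos (by linarith [hF (t + 2) (x i + 1)]) (by linarith [hF (t + 2) (x i)])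
      have hrj : 0 < F (t + 2) (x i + 1 + 1) / F (t + 2) (x i + 1) :=
        div_pos (by linarith [hF (t + 2) (x i + 1 + 1)]) (by linarith [hF (t + 2) (x i + 1)])
      have hx0i := hx0 i
      have hi : Real.exp (lam (t + 2) / ((x i : ℝ) + 2)) / x i *
          (F (t + 2) (x i + 1) / F (t + 2) (x i)) ≤ W t := by
        refine le_trans ?_ wi
        gcongr
      have hj : Real.exp (lam (t + 2) / ((x i : ℝ) + 2)) *
          (F (t + 2) (x i + 1 + 1) / F (t + 2) (x i + 1)) ≤ lt d (t + 2) * W t := by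
        refine le_trans ?_ wj
        gcongr
      have e1 : ((∏ i, (x i : ℝ)) / (x i : ℝ)) *
          (Real.exp (-L) * Real.exp ((2 : ℕ) * (lam (t + 2) / ((x i : ℝ) + (2 : ℕ)) + η)) *
            (C (t + 2) * ((∏ m, F (t + 2) (x m)) *
            (F (t + 2) (x i + 2) / F (t + 2) (x i)))) * (1 + bet (t + 2))) =
          M * (1 + bet (t + 2)) * ((Real.exp (lam (t + 2) / ((x i : ℝ) + 2)) / x i *
            (F (t + 2) (x i + 1) / F (t + 2) (x i))) *
            (Real.exp (lam (t + 2) / ((x i : ℝ) + 2)) *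
            (F (t + 2) (x i + 1 + 1) / F (t + 2) (x i + 1)))) := by
        push_cast
        rw [hM, show 2 * (lam (t + 2) / ((x i : ℝ) + 2) + η) =
            2 * η + lam (t + 2) / ((x i : ℝ) + 2) + lam (t + 2) / ((x i : ℝ) + 2) by ring,
          Real.exp_add, Real.exp_add]
        have h3 : F (t + 2) (x i + 2) / F (t + 2) (x i) =
            (F (t + 2) (x i + 1) / F (t + 2) (x i)) *
            (F (t + 2) (x i + 1 + 1) / F (t + 2) (x i + 1)) := by
          have a1 : F (t + 2) (x i) ≠ 0 := by linarith [hF (t + 2) (x i)]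
          have a2 : F (t + 2) (x i + 1) ≠ 0 := by linarith [hF (t + 2) (x i + 1)]
          field_simp
        rw [h3]
        generalize F (t + 2) (x i + 1) / F (t + 2) (x i) = r1
        generalize F (t + 2) (x i + 1 + 1) / F (t + 2) (x i + 1) = r2
        have hi0 := hx0i.ne'
        field_simp
      rw [e1]
      have e2 : 2 * M * ((1 + η) * (1 + bet t)) ^ 2 * (d * W t) ^ 2 / (2 * d ^ 2) *
          (lt d (t + 2) / (1 + bet t)) =
          M * ((1 + η) ^ 2 * (1 + bet t)) * (W t * (lt d (t + 2) * W t)) := by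
        have : (1 + bet t) ≠ 0 := by positivity
        field_simp
      rw [e2]
      have hb3 : 1 + bet (t + 2) ≤ (1 + η) ^ 2 * (1 + bet t) := by
        have : 0 ≤ η * ((1 + η) * (1 + bet t)) := by positivity
        nlinarith
      gcongr
  · refine ⟨0, le_rfl, by positivity, ?_, ?_⟩
    · intro i j hij
      rw [d3_two hx hij, v4_G_two hF hx hij, if_neg hk]
      simp
    · intro i
      rw [d3_st hx 2 (by norm_num) i, v4_G_st hF hx 2 i, if_neg hk]
      simp

/-- one unit -/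
theorem d3_one {d k : ℕ} {L η R c₁ c₃ : ℝ} {lam bet Pp W nu C : ℕ → ℝ} {F : ℕ → ℕ → ℝ}
    (hη0 : 0 < η) (hd : 1 ≤ d) (hR : 1 ≤ R) (hc₃ : 0 ≤ c₃)
    (h : PE d k L η R c₁ c₃ lam bet Pp W nu C F) {x : Fin d → ℕ} {t : ℕ}
    (hx : ∑ i, x i = t + d) (hx1 : ∀ i, 1 ≤ x i)
    (hV : ∏ i, (x i : ℝ) ≤ Real.exp (sfun d t)) (i : Fin d) :
    (∏ i, (x i : ℝ)) * d3_G k L η lam bet C F x (x + Pi.single i 1) ≤
      Real.exp (-(L - sfun d t) / 2) * Real.exp η * Real.exp (2 * c₁ * Real.log d) *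
        (R * (2 * R * d)) * (C t * ∏ i, F t (x i)) := by
  have hF := h.F_ge
  have hx0 : ∀ i, (0 : ℝ) < x i := fun i => by exact_mod_cast hx1 i
  have hVpos : 0 < ∏ i, (x i : ℝ) := Finset.prod_pos fun i _ => hx0 i
  have hFt : 0 ≤ ∏ i, F t (x i) := Finset.prod_nonneg fun i _ => zero_le_one.trans (hF _ _)
  have hCt := h.C_pos t
  have hd0 : (0 : ℝ) < d := by exact_mod_cast hd
  have hd1 : (1 : ℝ) ≤ d := by exact_mod_cast hd
  have hlog : 0 ≤ Real.log d := Real.log_nonneg (by exact_mod_cast hd)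
  have hR0 : 0 ≤ R := by linarith
  rw [d3_st hx 1 le_rfl i, v4_G_st hF hx 1 i]
  by_cases hk : t + 1 < k
  · rw [if_pos hk]
    have hC1 := h.C_pos (t + 1)
    have li := d3_lam (s := t + 1) (x' := x i + 1) hη0 h.lam_ge h.lam_lip (by omega : t ≤ t + 1)
      (by omega) (hx1 i) (by omega)
    have wi := h.wE1 t (x i) (hx1 i)
    push_cast at li ⊢
    have hri : 0 < F (t + 1) (x i + 1) / F (t + 1) (x i) :=
      div_pos (by linarith [hF (t + 1) (x i + 1)]) (by linarith [hF (t + 1) (x i)])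
    have hx0i := hx0 i
    have h1 : Real.exp (lam (t + 1) / ((x i : ℝ) + 1)) *
        (F (t + 1) (x i + 1) / F (t + 1) (x i)) ≤ R := by
      refine le_trans ?_ wi
      gcongr
    have hb1 : 1 + bet (t + 1) ≤ 2 * R * d := by
      have := h.bet_le (t + 1) (by omega)
      nlinarith
    have hb0 := h.bet_nonneg (t + 1)
    -- the product
    have h5 : ∏ m, F (t + 1) (x m) ≤ (∏ m, F t (x m)) * Real.exp (c₁ * Real.log d) := by
      have h6 : Real.exp (c₁ * Real.log d) = ∏ _m : Fin d, Real.exp (c₁ * Real.log d / d) := by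
        rw [Finset.prod_const, Finset.card_univ, Fintype.card_fin, ← Real.exp_nat_mul]
        congr 1
        field_simp
      rw [h6, ← Finset.prod_mul_distrib]
      apply Finset.prod_le_prod
      · intro m _
        exact zero_le_one.trans (hF _ _)
      · intro m _
        exact h.stepF t (x m) (hx1 m)
    -- the constant
    have h7 : C (t + 1) ≤ C t * Real.exp ((L - sfun d t) / 2 + c₁ * Real.log d) := by
      refine (h.ratioC t hk).trans ?_
      refine mul_le_mul_of_nonneg_left ?_ hCt.le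
      apply Real.exp_le_exp.2
      have : 0 ≤ (if (t : ℝ) < c₃ * Real.log d then c₃ * Real.log d else 0) := by
        split_ifs <;> positivity
      linarith
    have h8 : 0 ≤ ∏ m, F (t + 1) (x m) :=
      Finset.prod_nonneg fun i _ => zero_le_one.trans (hF _ _)
    calc (∏ i, (x i : ℝ)) * (Real.exp (-L) *
          Real.exp (1 * (lam (t + 1) / ((x i : ℝ) + 1) + η)) *
          (C (t + 1) * ((∏ m, F (t + 1) (x m)) * (F (t + 1) (x i + 1) / F (t + 1) (x i)))) *
            (1 + bet (t + 1)))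
        = (∏ i, (x i : ℝ)) * Real.exp (-L) * Real.exp η * C (t + 1) *
          (∏ m, F (t + 1) (x m)) * ((Real.exp (lam (t + 1) / ((x i : ℝ) + 1)) *
            (F (t + 1) (x i + 1) / F (t + 1) (x i))) * (1 + bet (t + 1))) := by
          rw [one_mul, Real.exp_add]
          ring
      _ ≤ Real.exp (sfun d t) * Real.exp (-L) * Real.exp η *
          (C t * Real.exp ((L - sfun d t) / 2 + c₁ * Real.log d)) *
          ((∏ m, F t (x m)) * Real.exp (c₁ * Real.log d)) *
          (R * (2 * R * d)) := by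
          gcongr
      _ = _ := by
          have e1 : Real.exp (sfun d t) * Real.exp (-L) *
              Real.exp ((L - sfun d t) / 2 + c₁ * Real.log d) * Real.exp (c₁ * Real.log d) =
              Real.exp (-(L - sfun d t) / 2) * Real.exp (2 * c₁ * Real.log d) := by
            rw [← Real.exp_add, ← Real.exp_add, ← Real.exp_add, ← Real.exp_add]
            congr 1
            ring
          linear_combination (Real.exp η * (R * (2 * R * d)) * (C t * ∏ i, F t (x i))) * e1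
  · rw [if_neg hk]
    simp only [mul_zero, zero_mul]
    positivity

/-- zero units -/
theorem d3_zero' {d k : ℕ} {L η R c₁ c₃ : ℝ} {lam bet Pp W nu C : ℕ → ℝ} {F : ℕ → ℕ → ℝ}
    (h : PE d k L η R c₁ c₃ lam bet Pp W nu C F) {x : Fin d → ℕ} {t : ℕ}
    (hx : ∑ i, x i = t + d)
    (ht : t < k) (hV : ∏ i, (x i : ℝ) ≤ Real.exp (sfun d t)) :
    (∏ i, (x i : ℝ)) * d3_G k L η lam bet C F x x ≤
      Real.exp (-(L - sfun d t)) * (C t * ∏ i, F t (x i)) := by
  have hF := h.F_ge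
  have hFt : 0 ≤ ∏ i, F t (x i) := Finset.prod_nonneg fun i _ => zero_le_one.trans (hF _ _)
  have hCt := h.C_pos t
  rw [d3_zero]
  unfold v4_G
  have hs : ∑ m, x m - d = t := by rw [hx]; omega
  rw [hs, if_pos ht]
  have he : ∑ i, ((x i : ℝ) - x i) * (lam t / x i + η) = 0 := by simp
  rw [he, Real.exp_zero, mul_one]
  calc (∏ i, (x i : ℝ)) * (Real.exp (-L) * (C t * ∏ i, F t (x i)))
      = (∏ i, (x i : ℝ)) * Real.exp (-L) * (C t * ∏ i, F t (x i)) := by ring
    _ ≤ Real.exp (sfun d t) * Real.exp (-L) * (C t * ∏ i, F t (x i)) := by gcongr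
    _ = _ := by
        rw [← Real.exp_add]
        congr 2
        ring

/-- the choice of the constants -/
theorem d3_const (η R c₁ : ℝ) (hη0 : 0 < η) (hR : 1 ≤ R) (hc₁ : 0 ≤ c₁) :
    ∃ D₀ : ℕ, ∀ d : ℕ, D₀ ≤ d → 1 ≤ d ∧ R * (2 * R) ≤ d ∧
      (3 * (c₁ + 1) + 2) * Real.log d + Real.log (64 / η) ≤ Real.sqrt (η * d) / 2 := by
  obtain ⟨D₀, hD⟩ := v4_const η R (c₁ + 1) hη0 hR (by linarith)
  obtain ⟨D₁, hD₁⟩ := exists_nat_ge (R * (2 * R))
  refine ⟨max D₀ D₁, fun d hd => ?_⟩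
  obtain ⟨h1, _, _, h2⟩ := hD d ((le_max_left _ _).trans hd)
  refine ⟨h1, hD₁.trans ?_, h2⟩
  exact_mod_cast (le_max_right _ _).trans hd

/-- facts about a box of size below `k` -/
theorem d3_final {k : ℕ} {L η R c₁ c₃ : ℝ} {lam bet Pp W nu C : ℕ → ℝ} {F : ℕ → ℕ → ℝ}
    (hη0 : 0 < η)
    (hη1 : η ≤ 1 / 10) (hR : 1 ≤ R) (hc₁ : 0 ≤ c₁) (hc₃ : 0 ≤ c₃) (hd : 1 ≤ d)
    (hRd : R * (2 * R) ≤ d)
    (hlogd : (3 * (c₁ + 1) + 2) * Real.log d + Real.log (64 / η) ≤ Real.sqrt (η * d) / 2)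
    (hL : sfun d k + Real.sqrt (η * d) ≤ L)
    (h : PE d k L η R c₁ c₃ lam bet Pp W nu C F) (X : BoxT n d) (ht : phi X < k)
    (v : Fin d → ℝ) (hv1 : ∀ i, 1 ≤ v i) (hvX : ∀ i, v i ≤ sd X i) :
    (∑ P : Fin d × Fin d with P.1 < P.2, 4 * ((∏ i, v i) / (v P.1 * v P.2)) *
          d3_G k L η lam bet C F (sd X) (sd X + Pi.single P.1 1 + Pi.single P.2 1) +
        ∑ i, 2 * ((∏ i, v i) / v i) * d3_G k L η lam bet C F (sd X) (sd X + Pi.single i 2) ≤
      Real.exp (-(8 * η)) * lam (phi X) * GP k C F X) ∧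
    (∀ i, ∑ j with j ≠ i, 2 * ((∏ i, v i) / (v i * v j)) *
          d3_G k L η lam bet C F (sd X) (sd X + Pi.single i 1 + Pi.single j 1) +
        (∏ i, v i) / v i * d3_G k L η lam bet C F (sd X) (sd X + Pi.single i 2) ≤
      Real.exp (-(8 * η)) * bet (phi X) * GP k C F X) ∧
    ∑ i, 4 * ((d : ℝ) + 1) * (∏ i, v i) *
        d3_G k L η lam bet C F (sd X) (sd X + Pi.single i 1) +
      4 * ((d : ℝ) + 1) ^ 2 * (∏ i, v i) * d3_G k L η lam bet C F (sd X) (sd X) ≤
      η / 2 * GP k C F X := by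
  have hx := E_sum_sd X
  have hx1 : ∀ i, 1 ≤ sd X i := fun i => E_sd_pos X i
  have hF := h.F_ge
  have hx0 : ∀ i, (0 : ℝ) < sd X i := fun i => by exact_mod_cast hx1 i
  have hVpos : 0 < ∏ i, (sd X i : ℝ) := Finset.prod_pos fun i _ => hx0 i
  have hd0 : (0 : ℝ) < d := by exact_mod_cast hd
  have hR0 : 0 < R := by linarith
  have hV : Real.log (∏ i, (sd X i : ℝ)) =
      sfun d (phi X) - ∑ i, gap d (phi X) (sd X i) := log_vol_eq hd X
  have hV2 : ∏ i, (sd X i : ℝ) ≤ Real.exp (sfun d (phi X)) := by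
    rw [← Real.log_le_iff_le_exp hVpos, hV]
    have : 0 ≤ ∑ i, gap d (phi X) (sd X i) :=
      Finset.sum_nonneg fun i _ => gap_nonneg d (phi X) (sd X i) (hx1 i)
    linarith
  obtain ⟨P, hP0, hP1, hP2, hP3⟩ := d3_main hη0 hd h hx hx1 ht hV
  obtain ⟨t, htt⟩ : ∃ t, t = phi X := ⟨_, rfl⟩
  rw [← htt] at hx ht hV2 hP1 hP3 ⊢
  have hG : GP k C F X = C t * ∏ i, F t (sd X i) := by
    unfold GP
    rw [← htt, if_pos ht]
  rw [hG]
  obtain ⟨G, hGG⟩ : ∃ G, G = C t * ∏ i, F t (sd X i) := ⟨_, rfl⟩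
  have hG0 : 0 ≤ G := by
    rw [hGG]
    have := h.C_pos t
    have : 0 ≤ ∏ i, F t (sd X i) := Finset.prod_nonneg fun i _ => zero_le_one.trans (hF _ _)
    positivity
  rw [← hGG] at hP1 ⊢
  have hv0 : ∀ i, 0 < v i := fun i => by linarith [hv1 i]
  have hGn := d3_G_nonneg k L η lam bet C F h.C_pos hF h.bet_nonneg (sd X)
  have hb0 := h.bet_nonneg t
  have hPt := h.Pi_pos t
  have hlt0 : 0 ≤ lt d (t + 2) := by unfold lt; positivity
  obtain ⟨l, hl⟩ : ∃ l, l = lt d (t + 2) / (1 + bet t) := ⟨_, rfl⟩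
  have hl0 : 0 ≤ l := by rw [hl]; positivity
  rw [← hl] at hP3
  -- cross sections
  have q2 : ∀ i j, i ≠ j → ((∏ i, v i) / (v i * v j)) *
      d3_G k L η lam bet C F (sd X) (sd X + Pi.single i 1 + Pi.single j 1) ≤
      P / (2 * d ^ 2) := by
    intro i j hij
    refine le_trans ?_ (hP2 i j hij)
    exact mul_le_mul_of_nonneg_right (v4_cross2 hv1 hvX hij) (hGn _)
  have q1 : ∀ i, ((∏ i, v i) / v i) *
      d3_G k L η lam bet C F (sd X) (sd X + Pi.single i 2) ≤ P / (2 * d ^ 2) * l := by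
    intro i
    refine le_trans ?_ (hP3 i)
    exact mul_le_mul_of_nonneg_right (v4_cross1 hv1 hvX i) (hGn _)
  have hA := h.piA t ht
  have hB := h.piB t ht
  have hdl : lt d (t + 2) / (d * (1 + bet t)) = l / d := by
    rw [hl]; field_simp
  have hdl2 : lt d (t + 2) / (2 * d * (1 + bet t)) = l / (2 * d) := by
    rw [hl]; field_simp
  rw [hdl] at hA
  rw [hdl2] at hB
  refine ⟨?_, ?_, ?_⟩
  · -- free points
    have c1 : ∑ _P : Fin d × Fin d with _P.1 < _P.2, (2 : ℝ) ≤ (d : ℝ) ^ 2 := by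
      have := v4_pairs (d := d) (fun _ => 1) (fun _ => 0) 1 (fun _ => zero_le_one)
        (fun _ => le_rfl) zero_le_one
      simpa using this
    have s1 : ∑ Q : Fin d × Fin d with Q.1 < Q.2, 4 * ((∏ i, v i) / (v Q.1 * v Q.2)) *
        d3_G k L η lam bet C F (sd X) (sd X + Pi.single Q.1 1 + Pi.single Q.2 1) ≤ P := by
      calc _ ≤ ∑ Q : Fin d × Fin d with Q.1 < Q.2, 2 * (2 * (P / (2 * d ^ 2))) := by
            refine Finset.sum_le_sum fun Q hQ => ?_
            have hne : Q.1 ≠ Q.2 := (Finset.mem_filter.1 hQ).2.ne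
            have := q2 Q.1 Q.2 hne
            linarith
        _ = (2 * (P / (2 * d ^ 2))) * ∑ _P : Fin d × Fin d with _P.1 < _P.2, (2 : ℝ) := by
            rw [Finset.mul_sum]
            refine Finset.sum_congr rfl fun Q _ => ?_
            ring
        _ ≤ (2 * (P / (2 * d ^ 2))) * d ^ 2 := by gcongr
        _ = P := by field_simp
    have s2 : ∑ i, 2 * ((∏ i, v i) / v i) *
        d3_G k L η lam bet C F (sd X) (sd X + Pi.single i 2) ≤ P * (l / d) := by
      calc _ ≤ ∑ _i : Fin d, 2 * (P / (2 * d ^ 2) * l) := by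
            refine Finset.sum_le_sum fun i _ => ?_
            have := q1 i
            linarith
        _ = P * (l / d) := by
            rw [Finset.sum_const, Finset.card_univ, Fintype.card_fin, nsmul_eq_mul]
            field_simp
    calc _ ≤ P * (1 + l / d) := by linarith
      _ ≤ (Real.exp (-(8 * η)) * Pp t * G) * (1 + l / d) :=
          mul_le_mul_of_nonneg_right hP1 (by positivity)
      _ = Real.exp (-(8 * η)) * (Pp t * (1 + l / d)) * G := by ring
      _ ≤ Real.exp (-(8 * η)) * lam t * G := by gcongr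
  · -- slots
    intro i
    have s1 : ∑ j with j ≠ i, 2 * ((∏ i, v i) / (v i * v j)) *
        d3_G k L η lam bet C F (sd X) (sd X + Pi.single i 1 + Pi.single j 1) ≤ P / d := by
      calc _ ≤ ∑ j : Fin d with j ≠ i, 2 * (P / (2 * d ^ 2)) := by
            refine Finset.sum_le_sum fun j hj => ?_
            have hne : j ≠ i := (Finset.mem_filter.1 hj).2
            have := q2 i j hne.symm
            linarith
        _ ≤ ∑ _j : Fin d, 2 * (P / (2 * d ^ 2)) :=
            Finset.sum_le_sum_of_subset_of_nonneg (Finset.subset_univ _)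
              (fun _ _ _ => by positivity)
        _ = P / d := by
            rw [Finset.sum_const, Finset.card_univ, Fintype.card_fin, nsmul_eq_mul]
            field_simp
    have s2 := q1 i
    calc _ ≤ P / d + P / (2 * d ^ 2) * l := by linarith
      _ = P * (1 + l / (2 * d)) / d := by field_simp
      _ ≤ (Real.exp (-(8 * η)) * Pp t * G) * (1 + l / (2 * d)) / d := by gcongr
      _ = Real.exp (-(8 * η)) * (Pp t * (1 + l / (2 * d)) / d) * G := by ring
      _ ≤ Real.exp (-(8 * η)) * bet t * G := by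
          gcongr
          rw [div_le_iff₀ hd0]
          linarith
  · -- one unit and zero units
    have hvV := v4_cross0 hv1 hvX
    have hv00 : 0 ≤ ∏ i, v i := Finset.prod_nonneg fun i _ => (hv0 i).le
    have hlog : 0 ≤ Real.log d := Real.log_nonneg (by exact_mod_cast hd)
    have hexp : Real.exp (2 * c₁ * Real.log d) * (R * (2 * R * d)) ≤
        Real.exp (3 * (c₁ + 1) * Real.log d) := by
      have e1 : Real.exp (2 * Real.log d) = (d : ℝ) ^ 2 := by
        rw [two_mul, Real.exp_add, Real.exp_log hd0]; ring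
      calc _ ≤ Real.exp (2 * c₁ * Real.log d) * (d : ℝ) ^ 2 := by
            gcongr
            nlinarith
        _ = Real.exp (2 * c₁ * Real.log d + 2 * Real.log d) := by
            rw [← e1, ← Real.exp_add]
        _ ≤ _ := by
            apply Real.exp_le_exp.2
            have : 0 ≤ c₁ * Real.log d := by positivity
            nlinarith
    have s3 : ∑ i, 4 * ((d : ℝ) + 1) * (∏ i, v i) *
        d3_G k L η lam bet C F (sd X) (sd X + Pi.single i 1) ≤
        4 * ((d : ℝ) + 1) * d * (Real.exp (-(L - sfun d t) / 2) * Real.exp η *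
          Real.exp (3 * (c₁ + 1) * Real.log d) * 1) * G := by
      calc _ ≤ ∑ _i : Fin d, 4 * ((d : ℝ) + 1) * (Real.exp (-(L - sfun d t) / 2) *
            Real.exp η * Real.exp (3 * (c₁ + 1) * Real.log d) * 1 * G) := by
            refine Finset.sum_le_sum fun i _ => ?_
            have b1 := d3_one hη0 hd hR hc₃ h hx hx1 hV2 i
            have b3 := hGn (sd X + Pi.single i 1)
            rw [← hGG] at b1
            calc 4 * ((d : ℝ) + 1) * (∏ i, v i) *
                d3_G k L η lam bet C F (sd X) (sd X + Pi.single i 1)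
                ≤ 4 * ((d : ℝ) + 1) * (∏ i, (sd X i : ℝ)) *
                d3_G k L η lam bet C F (sd X) (sd X + Pi.single i 1) := by gcongr
              _ = 4 * ((d : ℝ) + 1) * ((∏ i, (sd X i : ℝ)) *
                d3_G k L η lam bet C F (sd X) (sd X + Pi.single i 1)) := by ring
              _ ≤ 4 * ((d : ℝ) + 1) * (Real.exp (-(L - sfun d t) / 2) * Real.exp η *
                Real.exp (2 * c₁ * Real.log d) * (R * (2 * R * d)) * G) := by gcongr
              _ = 4 * ((d : ℝ) + 1) * (Real.exp (-(L - sfun d t) / 2) * Real.exp η *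
                (Real.exp (2 * c₁ * Real.log d) * (R * (2 * R * d))) * G) := by ring
              _ ≤ 4 * ((d : ℝ) + 1) * (Real.exp (-(L - sfun d t) / 2) * Real.exp η *
                Real.exp (3 * (c₁ + 1) * Real.log d) * G) := by gcongr
              _ = _ := by ring
        _ = _ := by
            rw [Finset.sum_const, Finset.card_univ, Fintype.card_fin, nsmul_eq_mul]
            ring
    have s4 : 4 * ((d : ℝ) + 1) ^ 2 * (∏ i, v i) *
        d3_G k L η lam bet C F (sd X) (sd X) ≤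
        4 * ((d : ℝ) + 1) ^ 2 * Real.exp (-(L - sfun d t)) * G := by
      have b1 := d3_zero' h hx ht hV2
      rw [← hGG] at b1
      have b3 := hGn (sd X)
      calc 4 * ((d : ℝ) + 1) ^ 2 * (∏ i, v i) * d3_G k L η lam bet C F (sd X) (sd X)
          ≤ 4 * ((d : ℝ) + 1) ^ 2 * (∏ i, (sd X i : ℝ)) *
            d3_G k L η lam bet C F (sd X) (sd X) := by gcongr
        _ = 4 * ((d : ℝ) + 1) ^ 2 * ((∏ i, (sd X i : ℝ)) *
            d3_G k L η lam bet C F (sd X) (sd X)) := by ring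
        _ ≤ 4 * ((d : ℝ) + 1) ^ 2 * (Real.exp (-(L - sfun d t)) * G) := by gcongr
        _ = _ := by ring
    have hΔ : Real.sqrt (η * d) ≤ L - sfun d t := by
      have := sfun_mono d hd ht.le
      linarith
    have s5 := v4_tiny hη0 hη1 hd (by linarith : 0 ≤ c₁ + 1) zero_le_one le_rfl hlogd hΔ
    have s6 := mul_le_mul_of_nonneg_right s5 hG0
    linarith

theorem d3_GP_nonneg {k : ℕ} {L η R c₁ c₃ : ℝ} {lam bet Pp W nu C : ℕ → ℝ} {F : ℕ → ℕ → ℝ}
    (h : PE d k L η R c₁ c₃ lam bet Pp W nu C F) (X : BoxT n d) : 0 ≤ GP k C F X := by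
  unfold GP
  split_ifs
  · have := h.C_pos (phi X)
    have : 0 ≤ ∏ i, F (phi X) (sd X i) :=
      Finset.prod_nonneg fun i _ => zero_le_one.trans (h.F_ge _ _)
    positivity
  · exact le_rfl

theorem d3_exp {η : ℝ} (hη0 : 0 < η) : Real.exp (-(8 * η)) * (1 + η) ≤ 1 := by
  have h1 : 1 + η ≤ Real.exp (8 * η) := by
    have := Real.add_one_le_exp (8 * η)
    linarith
  calc Real.exp (-(8 * η)) * (1 + η) ≤ Real.exp (-(8 * η)) * Real.exp (8 * η) := by gcongr
    _ = 1 := by rw [← Real.exp_add]; simp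

theorem pe_A (η R c₁ c₃ : ℝ) (hη0 : 0 < η) (hη1 : η ≤ 1 / 10) (hR : 1 ≤ R) (hc₁ : 0 ≤ c₁)
    (hc₃ : 0 ≤ c₃) :
    ∃ D₀ : ℕ, ∀ n d k : ℕ, ∀ (L : ℝ) (lam bet Pi W nu C : ℕ → ℝ) (F : ℕ → ℕ → ℝ),
      D₀ ≤ d → k ≤ d ^ 3 → sfun d k + Real.sqrt (η * d) ≤ L →
      PE d k L η R c₁ c₃ lam bet Pi W nu C F →
      ∀ Q Q' X : BoxT n d, Q.1 ≤ Q.2 → Sub Q Q' → Sub Q' X → Thick Q' X → phi X < k →
        ∑ b ∈ freeB Q Q' X, Real.exp (-L) *
          wX (cP lam η) (fun Q => bet (phi Q)) X (ext X b) * GP k C F (ext X b) ≤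
            cP lam η Q Q' * GP k C F X := by
  obtain ⟨D₀, hD⟩ := d3_const η R c₁ hη0 hR hc₁
  refine ⟨D₀, ?_⟩
  intro n d k L lam bet Pp W nu C F hd _ hL h Q Q' X hQ h1 h2 h3 ht
  obtain ⟨hd1, hRd, hlogd⟩ := hD d hd
  rcases v4_eq_or hQ h1 with h0 | ⟨i0, hi0⟩
  · subst h0
    unfold freeB
    rw [Finset.sdiff_self]
    simp [cP]
  have hb := free_sum_le hQ h1 h2 (d3_G k L η lam bet C F (sd X))
    (d3_G_nonneg k L η lam bet C F h.C_pos h.F_ge h.bet_nonneg (sd X))
  have hlhs : ∑ b ∈ freeB Q Q' X, Real.exp (-L) *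
      wX (cP lam η) (fun Q => bet (phi Q)) X (ext X b) * GP k C F (ext X b) =
      ∑ b ∈ freeB Q Q' X, d3_G k L η lam bet C F (sd X) (sd (ext X b)) :=
    Finset.sum_congr rfl fun b _ => d3_eq k L η lam bet C F X
      (h2.1.trans (h1.1.trans (hQ.trans (h1.2.trans h2.2)))) b
  rw [hlhs]
  refine hb.trans ?_
  have hq1 : ∀ i, (1 : ℝ) ≤ sd Q' i := fun i => by exact_mod_cast E_sd_pos Q' i
  have hq0 : ∀ i, (sd Q i : ℝ) ≤ sd Q' i := fun i => by exact_mod_cast v4_sd_mono h1 i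
  have hqX : ∀ i, (sd Q' i : ℝ) ≤ sd X i := fun i => by exact_mod_cast v4_sd_mono h2 i
  obtain ⟨κ, hκ⟩ : ∃ κ, κ = ∑ m, ((sd Q' m : ℝ) - sd Q m) / sd Q' m := ⟨_, rfl⟩
  have hκ0 : 0 ≤ κ := by
    rw [hκ]
    exact Finset.sum_nonneg fun i _ => div_nonneg (by linarith [hq0 i]) (by linarith [hq1 i])
  have hlq : lam (phi X) ≤ (1 + η) * lam (phi Q') :=
    h.lam_lip _ _ (v4_phi_mono h2) (by have := v4_phi_thick h3; omega)
  have hlq0 : 0 ≤ lam (phi Q') := zero_le_one.trans (h.lam_ge _)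
  obtain ⟨f1, _, f3⟩ := d3_final hη0 hη1 hR hc₁ hc₃ hd1 hRd hlogd hL h X ht
    (fun i => (sd Q' i : ℝ)) hq1 hqX
  have hG0 := d3_GP_nonneg h X
  rw [v4_cP, ← hκ]
  have c3 : (1 : ℝ) ≤ ∑ i, ((sd Q' i : ℝ) - sd Q i) := by
    refine le_trans ?_ (Finset.single_le_sum (f := fun i => (sd Q' i : ℝ) - sd Q i)
      (fun i _ => by linarith [hq0 i]) (Finset.mem_univ i0))
    have : ((sd Q i0 + 1 : ℕ) : ℝ) ≤ sd Q' i0 := by exact_mod_cast hi0
    push_cast at this
    linarith
  have g1 := mul_le_mul_of_nonneg_left f1 hκ0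
  have g2 : κ * (Real.exp (-(8 * η)) * lam (phi X) * GP k C F X) ≤
      κ * lam (phi Q') * GP k C F X := by
    have e1 : Real.exp (-(8 * η)) * lam (phi X) ≤ lam (phi Q') := by
      calc Real.exp (-(8 * η)) * lam (phi X) ≤
          Real.exp (-(8 * η)) * ((1 + η) * lam (phi Q')) := by gcongr
        _ = (Real.exp (-(8 * η)) * (1 + η)) * lam (phi Q') := by ring
        _ ≤ 1 * lam (phi Q') := mul_le_mul_of_nonneg_right (d3_exp hη0) hlq0
        _ = _ := one_mul _
    calc _ = κ * ((Real.exp (-(8 * η)) * lam (phi X)) * GP k C F X) := by ring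
      _ ≤ κ * (lam (phi Q') * GP k C F X) :=
          mul_le_mul_of_nonneg_left (mul_le_mul_of_nonneg_right e1 hG0) hκ0
      _ = _ := by ring
  have g3 : η / 2 * GP k C F X ≤ η * (∑ m, ((sd Q' m : ℝ) - sd Q m)) * GP k C F X := by
    refine mul_le_mul_of_nonneg_right ?_ hG0
    nlinarith
  unfold vol
  rw [add_mul]
  linarith

theorem pe_B (η R c₁ c₃ : ℝ) (hη0 : 0 < η) (hη1 : η ≤ 1 / 10) (hR : 1 ≤ R) (hc₁ : 0 ≤ c₁)
    (hc₃ : 0 ≤ c₃) :
    ∃ D₀ : ℕ, ∀ n d k : ℕ, ∀ (L : ℝ) (lam bet Pi W nu C : ℕ → ℝ) (F : ℕ → ℕ → ℝ),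
      D₀ ≤ d → k ≤ d ^ 3 → sfun d k + Real.sqrt (η * d) ≤ L →
      PE d k L η R c₁ c₃ lam bet Pi W nu C F →
      ∀ (Q Q' X : BoxT n d) (s : Fin d × Bool), Q.1 ≤ Q.2 → Sub Q Q' → Sub Q' X →
        Thick Q' X → phi X < k → s ∈ mv Q Q' →
        ∑ b ∈ slotB Q Q' X s, Real.exp (-L) *
          wX (cP lam η) (fun Q => bet (phi Q)) X (ext X b) * GP k C F (ext X b) ≤
            bet (phi Q') * GP k C F X := by
  obtain ⟨D₀, hD⟩ := d3_const η R c₁ hη0 hR hc₁
  refine ⟨D₀, ?_⟩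
  intro n d k L lam bet Pp W nu C F hd _ hL h Q Q' X s hQ h1 h2 h3 ht _
  obtain ⟨hd1, hRd, hlogd⟩ := hD d hd
  have hb := slot_sum_le hQ h1 h2 s (d3_G k L η lam bet C F (sd X))
    (d3_G_nonneg k L η lam bet C F h.C_pos h.F_ge h.bet_nonneg (sd X))
  have hlhs : ∑ b ∈ slotB Q Q' X s, Real.exp (-L) *
      wX (cP lam η) (fun Q => bet (phi Q)) X (ext X b) * GP k C F (ext X b) =
      ∑ b ∈ slotB Q Q' X s, d3_G k L η lam bet C F (sd X) (sd (ext X b)) :=
    Finset.sum_congr rfl fun b _ => d3_eq k L η lam bet C F X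
      (h2.1.trans (h1.1.trans (hQ.trans (h1.2.trans h2.2)))) b
  rw [hlhs]
  refine hb.trans ?_
  have hq1 : ∀ i, (1 : ℝ) ≤ sd Q' i := fun i => by exact_mod_cast E_sd_pos Q' i
  have hqX : ∀ i, (sd Q' i : ℝ) ≤ sd X i := fun i => by exact_mod_cast v4_sd_mono h2 i
  have hbq : bet (phi X) ≤ (1 + η) * bet (phi Q') :=
    h.bet_lip _ _ (v4_phi_mono h2) (by have := v4_phi_thick h3; omega)
  have hbq0 : 0 ≤ bet (phi Q') := h.bet_nonneg _
  obtain ⟨_, f2, _⟩ := d3_final hη0 hη1 hR hc₁ hc₃ hd1 hRd hlogd hL h X ht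
    (fun i => (sd Q' i : ℝ)) hq1 hqX
  have hG0 := d3_GP_nonneg h X
  refine (f2 s.1).trans ?_
  refine mul_le_mul_of_nonneg_right ?_ hG0
  calc Real.exp (-(8 * η)) * bet (phi X) ≤
      Real.exp (-(8 * η)) * ((1 + η) * bet (phi Q')) := by gcongr
    _ = (Real.exp (-(8 * η)) * (1 + η)) * bet (phi Q') := by ring
    _ ≤ 1 * bet (phi Q') := mul_le_mul_of_nonneg_right (d3_exp hη0) hbq0
    _ = _ := one_mul _

theorem pe_N0 (η R c₁ c₃ : ℝ) (hη0 : 0 < η) (hη1 : η ≤ 1 / 10) (hR : 1 ≤ R) (hc₁ : 0 ≤ c₁)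
    (hc₃ : 0 ≤ c₃) :
    ∃ D₀ : ℕ, ∀ n d k : ℕ, ∀ (L : ℝ) (lam bet Pi W nu C : ℕ → ℝ) (F : ℕ → ℕ → ℝ),
      D₀ ≤ d → k ≤ d ^ 3 → sfun d k + Real.sqrt (η * d) ≤ L →
      PE d k L η R c₁ c₃ lam bet Pi W nu C F →
      ∀ (z : Vtx n d) (X : BoxT n d), Sub (z, z) X → Thick (z, z) X → phi X < k →
        ∑ b ∈ cov (z, z), Real.exp (-L) *
          wX (cP lam η) (fun Q => bet (phi Q)) X (ext X b) * GP k C F (ext X b) ≤
            (2 * lam 0 + 1) * GP k C F X := by
  obtain ⟨D₀, hD⟩ := d3_const η R c₁ hη0 hR hc₁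
  refine ⟨D₀, ?_⟩
  intro n d k L lam bet Pp W nu C F hd _ hL h z X h2 h3 ht
  obtain ⟨hd1, hRd, hlogd⟩ := hD d hd
  have hb := birth_sum_zero_le h2 (d3_G k L η lam bet C F (sd X))
    (d3_G_nonneg k L η lam bet C F h.C_pos h.F_ge h.bet_nonneg (sd X))
  have hlhs : ∑ b ∈ cov (z, z), Real.exp (-L) *
      wX (cP lam η) (fun Q => bet (phi Q)) X (ext X b) * GP k C F (ext X b) =
      ∑ b ∈ cov (z, z), d3_G k L η lam bet C F (sd X) (sd (ext X b)) :=
    Finset.sum_congr rfl fun b _ => d3_eq k L η lam bet C F X (h2.1.trans h2.2) b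
  rw [hlhs]
  refine hb.trans ?_
  have hphi : phi ((z, z) : BoxT n d) = 0 := by unfold phi; simp
  have hlq : lam (phi X) ≤ (1 + η) * lam 0 := by
    have h4 := v4_phi_thick h3
    rw [hphi] at h4
    exact h.lam_lip 0 _ (Nat.zero_le _) (by omega)
  have hl0 := h.lam_ge 0
  have hX1 : ∀ i, (1 : ℝ) ≤ sd X i := fun i => by exact_mod_cast E_sd_pos X i
  obtain ⟨f1, _, f3⟩ := d3_final hη0 hη1 hR hc₁ hc₃ hd1 hRd hlogd hL h X ht
    (fun _ => 1) (fun _ => le_rfl) hX1
  have hG0 := d3_GP_nonneg h X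
  have e1 : Real.exp (-(8 * η)) * lam (phi X) ≤ lam 0 := by
    calc Real.exp (-(8 * η)) * lam (phi X) ≤
        Real.exp (-(8 * η)) * ((1 + η) * lam 0) := by gcongr
      _ = (Real.exp (-(8 * η)) * (1 + η)) * lam 0 := by ring
      _ ≤ 1 * lam 0 := mul_le_mul_of_nonneg_right (d3_exp hη0) (by linarith)
      _ = _ := one_mul _
  have g1 := mul_le_mul_of_nonneg_right e1 hG0
  have g2 : lam 0 * GP k C F X + η / 2 * GP k C F X ≤ (2 * lam 0 + 1) * GP k C F X := by
    rw [← add_mul]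
    refine mul_le_mul_of_nonneg_right ?_ hG0
    linarith
  simp only [Finset.prod_const_one, div_one, mul_one] at f1 f3
  linarith

end Pool.Agent.Lib.MP_8501c9_pr.Deep
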