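import Pool.Agent.Lib.MP_8501c9_pr.Deep.Slots
import Pool.Agent.Lib.MP_8501c9_pr.Deep.StepPE
import Pool.Agent.Lib.MP_8501c9_pr.Deep.MergePE
import Pool.Agent.Lib.MP_8501c9_pr.Wide.FramePF

/-!
# Assembly of the upper bound for potentials of product form (task D5)
-/

set_option autoImplicit false
open Set

namespace Pool.Agent.Lib.MP_8501c9_pr.Deep

open Pool.Agent.Lib.MP_8501c9_pr Pool.Agent.Lib.MP_8501c9_pr.Mid
open Pool.Agent.Lib.MP_8501c9_pr.Wide

variable {n d : ℕ}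

theorem deep_le (η R c₁ : ℝ) (hη0 : 0 < η) (hη1 : η ≤ 1 / 10) (hR : 1 ≤ R) (hc₁ : 0 ≤ c₁) :
    ∃ c₃ : ℝ, 0 ≤ c₃ ∧ ∃ D₀ : ℕ, ∀ n d k : ℕ,
      ∀ (L : ℝ) (lam bet Pi W nu C : ℕ → ℝ) (F : ℕ → ℕ → ℝ),
      D₀ ≤ d → d ≤ k → k ≤ d ^ 3 → k ≤ d * (n - 1) →
      sfun d k + Real.sqrt (η * d) ≤ L → PE d k L η R c₁ c₃ lam bet Pi W nu C F →
      percProb n d 2 (Real.exp (-L)) ≤
        Real.exp (d * Real.log n - L + 2 * lam 0 + 2) * C 0 * F 0 1 ^ d := by
  classical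
  obtain ⟨c₃, hc₃, D₀, hN2⟩ := pe_N2 η R c₁ hη0 hη1 hR hc₁
  obtain ⟨D₁, hA⟩ := pe_A η R c₁ c₃ hη0 hη1 hR hc₁ hc₃
  obtain ⟨D₂, hB⟩ := pe_B η R c₁ c₃ hη0 hη1 hR hc₁ hc₃
  obtain ⟨D₃, hN0⟩ := pe_N0 η R c₁ c₃ hη0 hη1 hR hc₁ hc₃
  refine ⟨c₃, hc₃, max (max D₀ 1) (max D₁ (max D₂ D₃)),
    fun n d k L lam bet Pi W nu C F hd hdk hk hkn hL hPE => ?_⟩
  have hd1 : 1 ≤ d := (le_max_right D₀ 1).trans ((le_max_left _ _).trans hd)
  have hD0 : D₀ ≤ d := (le_max_left D₀ 1).trans ((le_max_left _ _).trans hd)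
  have hD1 : D₁ ≤ d := (le_max_left D₁ _).trans ((le_max_right _ _).trans hd)
  have hD2 : D₂ ≤ d := ((le_max_left D₂ D₃).trans (le_max_right D₁ _)).trans
    ((le_max_right _ _).trans hd)
  have hD3 : D₃ ≤ d := ((le_max_right D₂ D₃).trans (le_max_right D₁ _)).trans
    ((le_max_right _ _).trans hd)
  have hkpos : 1 ≤ k := hd1.trans hdk
  have hn1 : 1 ≤ n := by
    by_contra hc
    have : n - 1 = 0 := by omega
    rw [this, Nat.mul_zero] at hkn
    omega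
  have hn0 : (0 : ℝ) < n := by exact_mod_cast hn1
  have hS : 0 ≤ sfun d k := by
    have := sfun_mono d hd1 (Nat.zero_le k)
    rwa [sfun_zero] at this
  have hL0 : 0 ≤ L := by
    have := Real.sqrt_nonneg (η * d)
    linarith
  set p := Real.exp (-L) with hp
  have hp0 : 0 ≤ p := (Real.exp_pos _).le
  have hp1 : p ≤ 1 := by
    rw [hp]
    exact Real.exp_le_one_iff.2 (by linarith)
  have hlam0 : ∀ t, 0 ≤ lam t := fun t => zero_le_one.trans (hPE.lam_ge t)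
  have hG0 : ∀ Q : BoxT n d, 0 ≤ GP k C F Q := by
    intro Q
    unfold GP
    split_ifs
    · refine mul_nonneg (hPE.C_pos _).le (Finset.prod_nonneg fun i _ => ?_)
      exact zero_le_one.trans (hPE.F_ge _ _)
    · exact le_rfl
  have h1 := percProb_le_TT hd1 p hp0 hp1 k hkpos hkn
  have h2 := wt_le_of_slots hp0 k (TT p k) (GP k C F) (cP lam η) (fun Q => bet (phi Q))
    (2 * lam 0 + 1)
    (fun R => cTT_nonneg hp0 k R) hG0
    (fun R hR => by
      unfold GP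
      rw [if_neg (not_lt.2 hR)])
    (fun Q => hPE.bet_nonneg _)
    (fun Q => by
      unfold cP
      refine Finset.sum_eq_zero fun i _ => ?_
      rw [sub_self, zero_mul])
    (fun Q Q' hQ hQQ' => v6_cP_nonneg hlam0 hη0.le hQ hQQ')
    (fun Q Q' X hQ hs1 hs2 ht hX => hA n d k L lam bet Pi W nu C F hD1 hk hL hPE Q Q' X hQ hs1
      hs2 ht hX)
    (fun Q Q' X s hQ hs1 hs2 ht hX hs => hB n d k L lam bet Pi W nu C F hD2 hk hL hPE Q Q' X s
      hQ hs1 hs2 ht hX hs)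
    (fun z X hs ht hX => hN0 n d k L lam bet Pi W nu C F hD3 hk hL hPE z X hs ht hX)
    (fun Q hQ hQk => hN2 n d k L lam bet Pi W nu C F hD0 hdk hk hL hPE Q hQ hQk)
  have h3 : ∀ x : Vtx n d, GP k C F ((x, x) : BoxT n d) = C 0 * F 0 1 ^ d := by
    intro x
    have hphi : phi ((x, x) : BoxT n d) = 0 := by simp [phi]
    have hsd : ∀ m, sd ((x, x) : BoxT n d) m = 1 := by
      intro m
      simp [sd]
    unfold GP
    rw [hphi, if_pos (by omega)]
    simp [hsd]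
  have h4 : ∑ x : Vtx n d, GP k C F ((x, x) : BoxT n d) = (n : ℝ) ^ d * (C 0 * F 0 1 ^ d) := by
    rw [Finset.sum_congr rfl fun x _ => h3 x, Finset.sum_const, Finset.card_univ,
      Fintype.card_fun, Fintype.card_fin, Fintype.card_fin, nsmul_eq_mul]
    push_cast
    rfl
  have h5 : (n : ℝ) ^ d = Real.exp (d * Real.log n) := by
    rw [mul_comm, Real.exp_mul, Real.exp_log hn0, Real.rpow_natCast]
  have hCF : 0 ≤ C 0 * F 0 1 ^ d := by
    refine mul_nonneg (hPE.C_pos _).le (pow_nonneg (zero_le_one.trans (hPE.F_ge _ _)) _)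
  have he : (2 : ℝ) ≤ Real.exp 1 := by
    have := Real.add_one_le_exp (1 : ℝ)
    linarith
  calc percProb n d 2 p ≤ 2 * ∑ Q : BoxT n d with (Q.1 ≤ Q.2 ∧ phi Q < k),
        wt p Q * TT p k Q := h1
    _ ≤ 2 * (p * Real.exp (2 * lam 0 + 1) * ∑ x : Vtx n d, GP k C F (x, x)) := by linarith
    _ = 2 * (Real.exp (-L) * Real.exp (2 * lam 0 + 1) * Real.exp (d * Real.log n)) *
        (C 0 * F 0 1 ^ d) := by
        rw [h4, h5, hp]
        ring
    _ ≤ Real.exp 1 * (Real.exp (-L) * Real.exp (2 * lam 0 + 1) * Real.exp (d * Real.log n)) *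
        (C 0 * F 0 1 ^ d) := by
        refine mul_le_mul_of_nonneg_right ?_ hCF
        exact mul_le_mul_of_nonneg_right he (by positivity)
    _ = Real.exp (d * Real.log n - L + 2 * lam 0 + 2) * C 0 * F 0 1 ^ d := by
        rw [← Real.exp_add, ← Real.exp_add, ← Real.exp_add]
        have : 1 + (-L + (2 * lam 0 + 1) + d * Real.log n) =
            d * Real.log n - L + 2 * lam 0 + 2 := by ring
        rw [this]
        ring

end Pool.Agent.Lib.MP_8501c9_pr.Deep
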