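import Pool.Agent.Lib.MP_8501c9_pr.Deep.NewPts
import Pool.Agent.Lib.MP_8501c9_pr.Deep.Choose
import Pool.Agent.Lib.MP_8501c9_pr.Wide.InvStep

/-!
# The sequences of births of one step can be achieved
-/

set_option autoImplicit false
open Set

namespace Pool.Agent.Lib.MP_8501c9_pr.Deep

open Pool.Agent.Lib.MP_8501c9_pr Pool.Agent.Lib.MP_8501c9_pr.Mid
open Pool.Agent.Lib.MP_8501c9_pr.Wide

variable {n d : ℕ}

/-! ### one birth -/

theorem k3_mem_supp {Q : BoxT n d} {x : Vtx n d} {m : Fin d} :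
    m ∈ supp Q x ↔ out Q x m ≠ 0 := by
  unfold supp
  rw [Finset.mem_filter]
  simp

theorem k3_sum_supp {Q : BoxT n d} {a : Vtx n d} :
    ∑ m ∈ supp Q a, out Q a m = ∑ m, out Q a m := by
  refine Finset.sum_subset (Finset.subset_univ _) fun m _ hm => ?_
  by_contra h
  exact hm (k3_mem_supp.2 h)

theorem k3_card {Q : BoxT n d} {a : Vtx n d} (h : ∑ m, out Q a m = 2) :
    (supp Q a).card = 1 ∨ (supp Q a).card = 2 := by
  have h1 : (supp Q a).card • 1 ≤ ∑ m ∈ supp Q a, out Q a m :=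
    Finset.card_nsmul_le_sum _ _ _ fun m hm => Nat.one_le_iff_ne_zero.2 (k3_mem_supp.1 hm)
  rw [k3_sum_supp, h] at h1
  have h2 : (supp Q a).card ≠ 0 := by
    intro h0
    rw [Finset.card_eq_zero] at h0
    rw [← k3_sum_supp, h0] at h
    simp at h
  simp only [smul_eq_mul, mul_one] at h1
  omega

theorem k3_out {Q : BoxT n d} {a : Vtx n d} (h : ∑ m, out Q a m = 2) (i : Fin d) :
    out Q a i = inc (supp Q a) i := by
  unfold inc
  split_ifs with hi
  · rcases k3_card h with hc | hc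
    · obtain ⟨j, hj⟩ := Finset.card_eq_one.1 hc
      rw [← k3_sum_supp, hj, Finset.sum_singleton] at h
      rw [hj, Finset.mem_singleton] at hi
      rw [hi, hc, h]
    · obtain ⟨j, k, hjk, hj⟩ := Finset.card_eq_two.1 hc
      have h1 : out Q a j ≠ 0 := k3_mem_supp.1 (by rw [hj]; simp)
      have h2 : out Q a k ≠ 0 := k3_mem_supp.1 (by rw [hj]; simp)
      rw [← k3_sum_supp, hj, Finset.sum_pair hjk] at h
      rw [hj, Finset.mem_insert, Finset.mem_singleton] at hi
      rw [hc]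
      rcases hi with rfl | rfl <;> omega
  · by_contra h0
    exact hi (k3_mem_supp.2 h0)

theorem k3_ne {Q : BoxT n d} {a : Vtx n d} (h : ∑ m, out Q a m = 2) :
    (supp Q a).Nonempty := by
  rw [← Finset.card_pos]
  rcases k3_card h with h | h <;> omega

theorem k3_inc_le {S : Finset (Fin d)} (h : S.card = 1 ∨ S.card = 2) (i : Fin d) :
    inc S i ≤ 2 := by
  unfold inc
  split_ifs <;> omega

theorem k3_sd {Q : BoxT n d} (hQ : Q.1 ≤ Q.2) {a : Vtx n d} (h : ∑ m, out Q a m = 2)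
    (i : Fin d) : sd (ext Q a) i = sd Q i + inc (supp Q a) i := by
  rw [d_sd_ext hQ, k3_out h]

theorem k3_inc_pos {S : Finset (Fin d)} (h : S.card = 1 ∨ S.card = 2) {i : Fin d}
    (hi : i ∈ S) : 0 < inc S i := by
  unfold inc
  rw [if_pos hi]
  omega

theorem k3_inc_not {S : Finset (Fin d)} {i : Fin d} (hi : i ∉ S) : inc S i = 0 := by
  unfold inc
  rw [if_neg hi]

/-- using one element of the queue -/
theorem k3_use {Q : BoxT n d} (hQ : Q.1 ≤ Q.2) {C : Finset (Vtx n d)} (hq : Que Q C)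
    {a : Vtx n d} (ha : a ∈ C) :
    (C.erase a).image (supp (ext Q a)) = (C.image (supp Q)).erase (supp Q a) ∧
    (∀ S ∈ (C.image (supp Q)).erase (supp Q a), Disjoint S (supp Q a)) ∧
    (∀ S ∈ (C.image (supp Q)).erase (supp Q a), ∀ i ∈ S, sd (ext Q a) i = sd Q i) ∧
    (∀ i, sd (ext Q a) i + ∑ S ∈ (C.image (supp Q)).erase (supp Q a), inc S i =
      sd Q i + ∑ S ∈ C.image (supp Q), inc S i) ∧
    (∀ i ∈ supp Q a, sd Q i < sd (ext Q a) i) ∧
    (∀ i, sd (ext Q a) i ≤ sd Q i + 2) ∧ (∀ i, sd Q i ≤ sd (ext Q a) i) ∧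
    phi (ext Q a) = phi Q + 2 := by
  have h2 := hq.two a ha
  have hdis : ∀ b ∈ C.erase a, Disjoint (supp Q a) (supp Q b) := by
    intro b hb
    exact hq.dis (Finset.mem_coe.2 ha) (Finset.mem_coe.2 (Finset.mem_of_mem_erase hb))
      (Finset.ne_of_mem_erase hb).symm
  have hdis' : ∀ S ∈ (C.image (supp Q)).erase (supp Q a), Disjoint S (supp Q a) := by
    intro S hS
    obtain ⟨hne, hS⟩ := Finset.mem_erase.1 hS
    obtain ⟨b, hb, rfl⟩ := Finset.mem_image.1 hS
    refine (hdis b (Finset.mem_erase.2 ⟨?_, hb⟩)).symm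
    rintro rfl
    exact hne rfl
  have hsd := k3_sd hQ h2
  refine ⟨?_, hdis', ?_, ?_, ?_, ?_, ?_, ?_⟩
  · ext S
    rw [Finset.mem_image, Finset.mem_erase, Finset.mem_image]
    constructor
    · rintro ⟨b, hb, rfl⟩
      rw [l3_supp_ext (hdis b hb)]
      refine ⟨?_, b, Finset.mem_of_mem_erase hb, rfl⟩
      intro he
      have h3 := hdis b hb
      rw [he, disjoint_self, Finset.bot_eq_empty] at h3
      exact (k3_ne h2).ne_empty h3
    · rintro ⟨hne, b, hb, rfl⟩
      have hba : b ≠ a := by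
        rintro rfl
        exact hne rfl
      have hb' := Finset.mem_erase.2 ⟨hba, hb⟩
      exact ⟨b, hb', l3_supp_ext (hdis b hb')⟩
  · intro S hS i hi
    rw [hsd, k3_inc_not, add_zero]
    exact Finset.disjoint_left.1 (hdis' S hS) hi
  · intro i
    rw [hsd, add_assoc, Finset.add_sum_erase _ (fun S => inc S i)
      (Finset.mem_image_of_mem (supp Q) ha)]
  · intro i hi
    rw [hsd]
    have := k3_inc_pos (k3_card h2) hi
    omega
  · intro i
    rw [hsd]
    have := k3_inc_le (k3_card h2) i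
    omega
  · intro i
    rw [hsd]
    omega
  · rw [phi_ext hQ, h2]

theorem est_drain {z : Vtx n d} {x₀ κ : Fin d → ℕ} {Q' Q : BoxT n d} {A : Finset (Vtx n d)}
    {J : Finset (Finset (Fin d))} {U m : Finset (Fin d)} {Z T : Finset (Vtx n d)}
    (h : Est z x₀ κ Q' Q A J U m Z T) : Dst z (fun i => x₀ i + κ i) Z T := by
  have key : ∀ (k : ℕ) (Q : BoxT n d) (A : Finset (Vtx n d)) (J : Finset (Finset (Fin d))),
      A.card = k → Est z x₀ κ Q' Q A J U m Z T → Dst z (fun i => x₀ i + κ i) Z T := by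
    intro k
    induction k with
    | zero =>
      intro Q A J hA h
      rw [Finset.card_eq_zero] at hA
      subst hA
      have hJ : J = ∅ := by rw [← h.img]; simp
      subst hJ
      refine ⟨Q', Q, h.inv, ?_, h.thin, h.grow⟩
      intro i
      have hs := h.sides i
      simpa using hs
    | succ k ih =>
      intro Q A J hA h
      have hQ : Q.1 ≤ Q.2 := le_trans h.inv.mem.1 h.inv.mem.2
      obtain ⟨a, ha⟩ : A.Nonempty := by
        rw [← Finset.card_pos]
        omega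
      obtain ⟨u1, u2, u3, u4, u5, u6, u7, u8⟩ := k3_use hQ h.que ha
      rw [h.img] at u1 u2 u3 u4
      obtain ⟨i1, i2⟩ := inv_drain h.inv h.que ha
      have haJ : supp Q a ∈ J := by
        rw [← h.img]
        exact Finset.mem_image_of_mem _ ha
      refine ih (ext Q a) (A.erase a) (J.erase (supp Q a))
        (by rw [Finset.card_erase_of_mem ha]; omega)
        ⟨i1, i2, u1, fun S hS => h.sub S (Finset.mem_of_mem_erase hS), h.mU,
          fun S hS => h.mJ S (Finset.mem_of_mem_erase hS), ?_, ?_, ?_, ?_, ?_⟩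
      · intro i
        rw [u4, h.sides]
      · intro i
        by_cases hi : i ∈ supp Q a
        · rw [← h.still _ haJ i hi]
          exact u6 i
        · rw [k3_sd hQ (h.que.two a ha), k3_inc_not hi, add_zero]
          exact h.thin i
      · rw [u8]
        have := h.grow
        omega
      · intro i hi
        exact (h.moved i hi).trans_le (u7 i)
      · intro S hS i hi
        rw [u3 S hS i hi]
        exact h.still S (Finset.mem_of_mem_erase hS) i hi
  exact key A.card Q A J rfl h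

/-! ### weights and values -/

theorem k3_wS_nonneg {a₂ a₁ b₂ b₁ : ℝ} (ha₂ : 0 ≤ a₂) (ha₁ : 0 ≤ a₁) (hb₂ : 0 ≤ b₂)
    (hb₁ : 0 ≤ b₁) (m S : Finset (Fin d)) : 0 ≤ wS a₂ a₁ b₂ b₁ m S := by
  unfold wS
  split_ifs <;> assumption

theorem k3_mac_nonneg {w : Finset (Fin d) → Finset (Fin d) → ℝ} (hw : ∀ m S, 0 ≤ w m S)
    {v : (Fin d → ℕ) → ℝ} (hv : ∀ x, 0 ≤ v x) :
    ∀ (f r : ℕ) (J : Finset (Finset (Fin d))) (U m : Finset (Fin d)) (κ : Fin d → ℕ),
      0 ≤ mac w v f r J U m κ := by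
  intro f
  induction f with
  | zero =>
    intro r J U m κ
    simp only [mac]
    split_ifs
    · exact hv κ
    · exact le_rfl
  | succ f ih =>
    intro r J U m κ
    simp only [mac]
    split_ifs
    · exact hv κ
    · exact Finset.sum_nonneg fun B _ => mul_nonneg (Finset.prod_nonneg fun S _ => hw m S)
        (div_nonneg (Finset.sum_nonneg fun S _ => ih _ _ _ _ _) (Nat.cast_nonneg _))

/-- value of the family `B` of births found -/
noncomputable def k3_F (w : Finset (Fin d) → Finset (Fin d) → ℝ) (v : (Fin d → ℕ) → ℝ)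
    (f r : ℕ) (J : Finset (Finset (Fin d))) (U : Finset (Fin d)) (κ : Fin d → ℕ)
    (B : Finset (Finset (Fin d))) : ℝ :=
  (∑ S ∈ J ∪ B, mac w v f (r - B.card) ((J ∪ B).erase S)
    (U ∪ B.biUnion id) S (κ + ∑ S' ∈ B, inc S')) / ((J ∪ B).card : ℝ)

open Classical in
theorem k3_mac_succ (w : Finset (Fin d) → Finset (Fin d) → ℝ) (v : (Fin d → ℕ) → ℝ)
    (f r : ℕ) (J : Finset (Finset (Fin d))) (U m : Finset (Fin d)) (κ : Fin d → ℕ) :
    mac w v (f + 1) r J U m κ = if r = 0 then v κ else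
      ∑ B : Finset (Finset (Fin d)) with (AdmB U m B ∧ B.card ≤ r ∧ (J ∪ B).Nonempty),
        (∏ S ∈ B, w m S) * k3_F w v f r J U κ B := rfl

theorem k3_mac_zero (w : Finset (Fin d) → Finset (Fin d) → ℝ) (v : (Fin d → ℕ) → ℝ)
    (f : ℕ) (J : Finset (Finset (Fin d))) (U m : Finset (Fin d)) (κ : Fin d → ℕ) :
    mac w v f 0 J U m κ = v κ := by
  cases f with
  | zero => simp [mac]
  | succ f => simp [mac]

theorem k3_F_nonneg {w : Finset (Fin d) → Finset (Fin d) → ℝ} (hw : ∀ m S, 0 ≤ w m S)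
    {v : (Fin d → ℕ) → ℝ} (hv : ∀ x, 0 ≤ v x) (f r : ℕ) (J : Finset (Finset (Fin d)))
    (U : Finset (Fin d)) (κ : Fin d → ℕ) (B : Finset (Finset (Fin d))) :
    0 ≤ k3_F w v f r J U κ B :=
  div_nonneg (Finset.sum_nonneg fun _ _ => k3_mac_nonneg hw hv _ _ _ _ _ _) (Nat.cast_nonneg _)

/-- an average is at most one of the values -/
theorem k3_avg {ι : Type*} {s : Finset ι} (hs : s.Nonempty) (F : ι → ℝ) :
    ∃ i ∈ s, (∑ j ∈ s, F j) / (s.card : ℝ) ≤ F i := by
  refine Finset.exists_le_of_sum_le hs ?_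
  rw [Finset.sum_const, nsmul_eq_mul]
  have : (0 : ℝ) < s.card := by exact_mod_cast Finset.card_pos.2 hs
  rw [mul_div_cancel₀ _ this.ne']

theorem k3_exp {p : ℝ} (hp0 : 0 < p) (hp1 : p ≤ 1 / 2) : Real.exp (-(2 * p)) ≤ 1 - p := by
  rw [Real.exp_neg]
  have h1 : 1 + 2 * p ≤ Real.exp (2 * p) := by
    have := Real.add_one_le_exp (2 * p)
    linarith
  refine (inv_anti₀ (by positivity) h1).trans ?_
  rw [inv_le_iff_one_le_mul₀ (by positivity)]
  nlinarith

theorem k3_pow {p δ : ℝ} (hp0 : 0 < p) (hp1 : p ≤ 1 / 2) {N : ℕ} (h : 2 * p * N ≤ δ) :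
    Real.exp (-δ) ≤ (1 - p) ^ N := by
  calc Real.exp (-δ) ≤ Real.exp (-(2 * p * N)) := Real.exp_le_exp.2 (by linarith)
    _ = Real.exp (-(2 * p)) ^ N := by
      rw [← Real.exp_nat_mul]
      congr 1
      ring
    _ ≤ (1 - p) ^ N := pow_le_pow_left₀ (Real.exp_pos _).le (k3_exp hp0 hp1) N

theorem k3_vol_le {Q : BoxT n d} (hQ : Q.1 ≤ Q.2) {a : Vtx n d} (h : ∑ m, out Q a m = 2) :
    vol (ext Q a) ≤ 4 * vol Q := by
  have h1 : vol (ext Q a) ≤ ∏ i, ((sd Q i : ℝ) * 2 ^ (out Q a i)) := by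
    unfold vol
    refine Finset.prod_le_prod (fun i _ => Nat.cast_nonneg _) fun i _ => ?_
    rw [d_sd_ext hQ]
    have h2 : sd Q i + out Q a i ≤ sd Q i * 2 ^ (out Q a i) := by
      have h3 : out Q a i + 1 ≤ 2 ^ (out Q a i) := Nat.lt_two_pow_self
      have h4 : 1 ≤ sd Q i := d_sd_pos Q i
      nlinarith [Nat.mul_le_mul_left (sd Q i) h3]
    exact_mod_cast h2
  refine h1.trans (le_of_eq ?_)
  rw [Finset.prod_mul_distrib, Finset.prod_pow_eq_pow_sum, h]
  unfold vol
  ring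

theorem k3_vol_ge {Q : BoxT n d} (hQ : Q.1 ≤ Q.2) (a : Vtx n d) :
    vol Q ≤ vol (ext Q a) := by
  unfold vol
  refine Finset.prod_le_prod (fun i _ => Nat.cast_nonneg _) fun i _ => ?_
  rw [d_sd_ext hQ]
  exact_mod_cast Nat.le_add_right _ _

theorem k3_room {z : Vtx n d} {Q : BoxT n d} (hz : Q.1 ≤ z ∧ z ≤ Q.2) {y : ℕ}
    (hroom : Room (y + 4) z) (hy : ∀ i, sd Q i ≤ y) (i : Fin d) :
    2 ≤ (Q.1 i : ℕ) ∧ (Q.2 i : ℕ) + 2 < n := by
  have h1 := hroom i
  have h2 : (Q.1 i : ℕ) ≤ z i := hz.1 i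
  have h3 : (z i : ℕ) ≤ Q.2 i := hz.2 i
  have h4 := hy i
  unfold sd at h4
  omega

/-- the number of new points of each type -/
theorem k3_weight {p : ℝ} (hp0 : 0 < p) {z : Vtx n d} {x₀ κ : Fin d → ℕ} {Q' Q : BoxT n d}
    {A : Finset (Vtx n d)} {J : Finset (Finset (Fin d))} {U m : Finset (Fin d)}
    {Z T : Finset (Vtx n d)} {a₂ a₁ b₂ b₁ V₀ : ℝ} {y : ℕ}
    (h2 : a₂ ≤ 4 * p * V₀ * (2 * y - 1) / (y : ℝ) ^ 4)
    (h1 : a₁ ≤ 2 * p * V₀ * (2 * y - 1) / (y : ℝ) ^ 3)
    (g2 : b₂ ≤ 2 * p * V₀ / (y : ℝ) ^ 2) (g1 : b₁ ≤ p * V₀ / y) (hroom : Room (y + 4) z)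
    (h : Est z x₀ κ Q' Q A J U m Z T) (hV : V₀ ≤ vol Q) (h4 : ∀ i, 4 ≤ sd Q i)
    (hy : ∀ i, sd Q i ≤ y) {S : Finset (Fin d)} (hS : S.card = 1 ∨ S.card = 2) :
    wS a₂ a₁ b₂ b₁ m S ≤ p * ((NewP Q' Q S).card : ℝ) := by
  have hroom' := k3_room h.inv.mem hroom hy
  obtain ⟨i₀, hi₀⟩ : S.Nonempty := by
    rw [← Finset.card_pos]
    omega
  have hy4 : (4 : ℝ) ≤ y := by exact_mod_cast (h4 i₀).trans (hy i₀)
  have hy0 : (0 : ℝ) < y := by linarith
  have hsub := vol_sub_ge2 h.inv.le h.inv.sub h.grow hy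
  have hvp : 0 < vol Q := d_vol_pos Q
  have hs1 : ∀ i, (0 : ℝ) < sd Q i := fun i => by exact_mod_cast (d_sd_pos Q i)
  have hsy : ∀ i, (sd Q i : ℝ) ≤ y := fun i => by exact_mod_cast hy i
  have hD : 0 ≤ vol Q - vol Q' := by
    refine le_trans ?_ hsub
    have : (0 : ℝ) ≤ 2 * y - 1 := by linarith
    positivity
  have hss : ∀ i j, (sd Q i : ℝ) * sd Q j ≤ (y : ℝ) ^ 2 := fun i j => by
    rw [pow_two]
    exact mul_le_mul (hsy i) (hsy j) (hs1 j).le hy0.le
  unfold wS
  split_ifs with hd hc hc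
  · obtain ⟨i, j, hij, rfl⟩ := Finset.card_eq_two.1 hc
    have hN := card_NewP_two h.inv.le h.inv.sub h.thin h4 hij hroom'
    calc a₂ ≤ 4 * p * V₀ * (2 * y - 1) / (y : ℝ) ^ 4 := h2
      _ ≤ 4 * p * vol Q * (2 * y - 1) / (y : ℝ) ^ 4 := by
        apply div_le_div_of_nonneg_right _ (by positivity)
        apply mul_le_mul_of_nonneg_right _ (by linarith)
        exact mul_le_mul_of_nonneg_left hV (by positivity)
      _ = p * (4 * (vol Q * (2 * y - 1) / (y : ℝ) ^ 2) / (y : ℝ) ^ 2) := by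
        field_simp
      _ ≤ p * (4 * (vol Q - vol Q') / (y : ℝ) ^ 2) := by
        apply mul_le_mul_of_nonneg_left _ hp0.le
        apply div_le_div_of_nonneg_right _ (by positivity)
        linarith
      _ ≤ p * (4 * (vol Q - vol Q') / ((sd Q i : ℝ) * sd Q j)) := by
        apply mul_le_mul_of_nonneg_left _ hp0.le
        exact div_le_div_of_nonneg_left (by linarith) (mul_pos (hs1 i) (hs1 j)) (hss i j)
      _ ≤ p * ((NewP Q' Q {i, j}).card : ℝ) := mul_le_mul_of_nonneg_left hN hp0.le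
  · have hc1 : S.card = 1 := by omega
    obtain ⟨i, rfl⟩ := Finset.card_eq_one.1 hc1
    have hN := card_NewP_one h.inv.le h.inv.sub h.thin h4 i hroom'
    calc a₁ ≤ 2 * p * V₀ * (2 * y - 1) / (y : ℝ) ^ 3 := h1
      _ ≤ 2 * p * vol Q * (2 * y - 1) / (y : ℝ) ^ 3 := by
        apply div_le_div_of_nonneg_right _ (by positivity)
        apply mul_le_mul_of_nonneg_right _ (by linarith)
        exact mul_le_mul_of_nonneg_left hV (by positivity)
      _ = p * (2 * (vol Q * (2 * y - 1) / (y : ℝ) ^ 2) / (y : ℝ)) := by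
        field_simp
      _ ≤ p * (2 * (vol Q - vol Q') / (y : ℝ)) := by
        apply mul_le_mul_of_nonneg_left _ hp0.le
        apply div_le_div_of_nonneg_right _ (by positivity)
        linarith
      _ ≤ p * (2 * (vol Q - vol Q') / (sd Q i : ℝ)) := by
        apply mul_le_mul_of_nonneg_left _ hp0.le
        exact div_le_div_of_nonneg_left (by linarith) (hs1 i) (hsy i)
      _ ≤ p * ((NewP Q' Q {i}).card : ℝ) := mul_le_mul_of_nonneg_left hN hp0.le
  · have key : ∀ i j, i ≠ j → i ∈ m → b₂ ≤ p * ((NewP Q' Q {i, j}).card : ℝ) := by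
      intro i j hij hi
      have hN := card_slot_two h.inv.le h.inv.sub hij (h.moved i hi) hroom'
      calc b₂ ≤ 2 * p * V₀ / (y : ℝ) ^ 2 := g2
        _ ≤ 2 * p * vol Q / (y : ℝ) ^ 2 := by
          apply div_le_div_of_nonneg_right _ (by positivity)
          exact mul_le_mul_of_nonneg_left hV (by positivity)
        _ = p * (2 * vol Q / (y : ℝ) ^ 2) := by ring
        _ ≤ p * (2 * vol Q / ((sd Q i : ℝ) * sd Q j)) := by
          apply mul_le_mul_of_nonneg_left _ hp0.le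
          exact div_le_div_of_nonneg_left (by linarith) (mul_pos (hs1 i) (hs1 j)) (hss i j)
        _ ≤ p * ((NewP Q' Q {i, j}).card : ℝ) := mul_le_mul_of_nonneg_left hN hp0.le
    obtain ⟨i, j, hij, rfl⟩ := Finset.card_eq_two.1 hc
    rw [Finset.not_disjoint_iff] at hd
    obtain ⟨k, hk, hkm⟩ := hd
    rw [Finset.mem_insert, Finset.mem_singleton] at hk
    rcases hk with rfl | rfl
    · exact key k j hij hkm
    · rw [Finset.pair_comm]
      exact key k i hij.symm hkm
  · have hc1 : S.card = 1 := by omega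
    obtain ⟨i, rfl⟩ := Finset.card_eq_one.1 hc1
    rw [Finset.disjoint_singleton_left, not_not] at hd
    have hN := card_slot_one h.inv.le h.inv.sub (h.moved i hd) hroom'
    calc b₁ ≤ p * V₀ / y := g1
      _ ≤ p * vol Q / y := by
        apply div_le_div_of_nonneg_right _ hy0.le
        exact mul_le_mul_of_nonneg_left hV hp0.le
      _ = p * (vol Q / y) := by ring
      _ ≤ p * (vol Q / (sd Q i : ℝ)) := by
        apply mul_le_mul_of_nonneg_left _ hp0.le
        exact div_le_div_of_nonneg_left hvp.le (hs1 i) (hsy i)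
      _ ≤ p * ((NewP Q' Q {i}).card : ℝ) := mul_le_mul_of_nonneg_left hN hp0.le

/-! ### the next state -/

theorem k3_disj {z : Vtx n d} {x₀ κ : Fin d → ℕ} {Q' Q : BoxT n d}
    {A : Finset (Vtx n d)} {J : Finset (Finset (Fin d))} {U m : Finset (Fin d)}
    {Z T : Finset (Vtx n d)} (h : Est z x₀ κ Q' Q A J U m Z T)
    {Bf : Finset (Finset (Fin d))} (hadm : AdmB U m Bf) : Disjoint J Bf := by
  rw [Finset.disjoint_left]
  intro S hS hSB
  have h1 := hadm.used S hSB
  rw [Finset.inter_eq_left.2 (h.sub S hS)] at h1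
  have h2 := h.mJ S hS
  have h3 : S = ∅ := by
    rw [← Finset.bot_eq_empty, ← disjoint_self]
    exact h2.mono_right h1
  have h4 := hadm.card S hSB
  rw [h3] at h4
  simp at h4

theorem k3_next {z : Vtx n d} {x₀ κ : Fin d → ℕ} {Q' Q : BoxT n d}
    {A : Finset (Vtx n d)} {J : Finset (Finset (Fin d))} {U m : Finset (Fin d)}
    {Z T : Finset (Vtx n d)} (h : Est z x₀ κ Q' Q A J U m Z T) {N B : Finset (Vtx n d)}
    (hN : ∀ b ∈ N, ∑ m, out Q b m = 2 ∧ b ∉ cov Q') (hB : B ⊆ N)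
    (hinj : (B.image (supp Q)).card = B.card) (hadm : AdmB U m (B.image (supp Q)))
    {S : Finset (Fin d)} (hS : S ∈ J ∪ B.image (supp Q)) :
    ∃ a, ∑ m, out Q a m = 2 ∧
      Est z x₀ (κ + ∑ S' ∈ B.image (supp Q), inc S') Q (ext Q a) ((A ∪ B).erase a)
        ((J ∪ B.image (supp Q)).erase S) (U ∪ (B.image (supp Q)).biUnion id) S
        (Z ∪ N) (T ∪ B) := by
  have hQ : Q.1 ≤ Q.2 := le_trans h.inv.mem.1 h.inv.mem.2
  have hNc : N ⊆ cov Q \ cov Q' := by
    intro b hb
    obtain ⟨h1, h2⟩ := hN b hb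
    refine Finset.mem_sdiff.2 ⟨?_, h2⟩
    unfold cov
    rw [Finset.mem_filter]
    exact ⟨Finset.mem_univ _, h1.le⟩
  have himg : (A ∪ B).image (supp Q) = J ∪ B.image (supp Q) := by
    rw [Finset.image_union, h.img]
  have hinj' : Set.InjOn (supp Q) (B : Set (Vtx n d)) := Finset.card_image_iff.1 hinj
  have hBd : ∀ b ∈ B, ∀ c ∈ B, b ≠ c → Disjoint (supp Q b) (supp Q c) := by
    intro b hb c hc hbc
    exact hadm.dis (Finset.mem_coe.2 (Finset.mem_image_of_mem _ hb))
      (Finset.mem_coe.2 (Finset.mem_image_of_mem _ hc)) (fun he => hbc (hinj' hb hc he))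
  have hcross : ∀ b ∈ A, ∀ c ∈ B, Disjoint (supp Q b) (supp Q c) := by
    intro b hb c hc
    have hbJ : supp Q b ∈ J := by
      rw [← h.img]
      exact Finset.mem_image_of_mem _ hb
    rw [Finset.disjoint_left]
    intro i hi hi'
    have h1 : i ∈ m := hadm.used _ (Finset.mem_image_of_mem _ hc)
      (Finset.mem_inter.2 ⟨hi', h.sub _ hbJ hi⟩)
    exact Finset.disjoint_left.1 (h.mJ _ hbJ) hi h1
  have hque : Que Q (A ∪ B) := by
    refine ⟨?_, ?_⟩
    · intro b hb
      rcases Finset.mem_union.1 hb with hb | hb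
      · exact h.que.two b hb
      · exact (hN b (hB hb)).1
    · intro b hb c hc hbc
      change Disjoint (supp Q b) (supp Q c)
      rcases Finset.mem_union.1 (Finset.mem_coe.1 hb) with hb | hb
      · rcases Finset.mem_union.1 (Finset.mem_coe.1 hc) with hc | hc
        · exact h.que.dis (Finset.mem_coe.2 hb) (Finset.mem_coe.2 hc) hbc
        · exact hcross b hb c hc
      · rcases Finset.mem_union.1 (Finset.mem_coe.1 hc) with hc | hc
        · exact (hcross c hc b hb).symm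
        · exact hBd b hb c hc hbc
  rw [← himg] at hS
  obtain ⟨a, ha, rfl⟩ := Finset.mem_image.1 hS
  obtain ⟨u1, u2, u3, u4, u5, u6, u7, u8⟩ := k3_use hQ hque ha
  rw [himg] at u1 u2 u3 u4
  obtain ⟨i1, i2⟩ := inv_step h.inv hNc hB hque ha
  have hsub : ∀ S' ∈ J ∪ B.image (supp Q), S' ⊆ U ∪ (B.image (supp Q)).biUnion id := by
    intro S' hS'
    rcases Finset.mem_union.1 hS' with h1 | h1
    · exact (h.sub S' h1).trans Finset.subset_union_left
    · exact (Finset.subset_biUnion_of_mem id h1).trans Finset.subset_union_right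
  refine ⟨a, hque.two a ha, i1, i2, u1, fun S' hS' => hsub S' (Finset.mem_of_mem_erase hS'),
    hsub _ (by rw [← himg]; exact hS), u2, ?_, u6, u8.ge, u5, u3⟩
  intro i
  rw [u4, Finset.sum_union (k3_disj h hadm), ← add_assoc, h.sides, Pi.add_apply,
    Finset.sum_apply, add_assoc]

/-- the new points which are asked -/
def k3_N (Q' Q : BoxT n d) (U m : Finset (Fin d)) : Finset (Vtx n d) :=
  Finset.univ.filter (fun b => ∑ i, out Q b i = 2 ∧ b ∉ cov Q' ∧ supp Q b ∩ U ⊆ m ∧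
    (supp Q b ∩ m).card ≤ 1)

theorem k3_mem_N {Q' Q : BoxT n d} {U m : Finset (Fin d)} {b : Vtx n d} :
    b ∈ k3_N Q' Q U m ↔ ∑ i, out Q b i = 2 ∧ b ∉ cov Q' ∧ supp Q b ∩ U ⊆ m ∧
      (supp Q b ∩ m).card ≤ 1 := by
  unfold k3_N
  rw [Finset.mem_filter]
  simp

theorem k3_filter {Q' Q : BoxT n d} {U m S : Finset (Fin d)} (h1 : S ∩ U ⊆ m)
    (h2 : (S ∩ m).card ≤ 1) :
    (k3_N Q' Q U m).filter (fun b => supp Q b = S) = NewP Q' Q S := by
  ext b
  rw [Finset.mem_filter, k3_mem_N]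
  unfold NewP
  rw [Finset.mem_filter]
  constructor
  · rintro ⟨⟨q1, q2, -, -⟩, q3⟩
    exact ⟨Finset.mem_univ _, q3, q1, q2⟩
  · rintro ⟨-, rfl, q1, q2⟩
    exact ⟨⟨q1, q2, h1, h2⟩, rfl⟩

open Classical in
/-- sum over the sets of points whose family of births satisfies `P` -/
noncomputable def k3_W (p : ℝ) (Q' Q : BoxT n d) (U m : Finset (Fin d))
    (P : Finset (Finset (Fin d)) → Prop) (F : Finset (Finset (Fin d)) → ℝ) : ℝ :=
  ∑ B ∈ (k3_N Q' Q U m).powerset with (B.image (supp Q)).card = B.card,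
    p ^ B.card * (if P (B.image (supp Q)) then F (B.image (supp Q)) else 0)

open Classical in
/-- sum over the families of births which satisfy `P` -/
noncomputable def k3_S (w : Finset (Fin d) → ℝ) (P : Finset (Finset (Fin d)) → Prop)
    (F : Finset (Finset (Fin d)) → ℝ) : ℝ :=
  ∑ B : Finset (Finset (Fin d)) with P B, (∏ S ∈ B, w S) * F B

open Classical in
/-- the sum over the families of births is at most the sum over the sets of points -/
theorem k3_sum {p : ℝ} {Q' Q : BoxT n d} {U m : Finset (Fin d)}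
    {w : Finset (Fin d) → ℝ} (hw0 : ∀ S, 0 ≤ w S)
    (hw : ∀ S, (S.card = 1 ∨ S.card = 2) → w S ≤ p * ((NewP Q' Q S).card : ℝ))
    (P : Finset (Finset (Fin d)) → Prop) (hP : ∀ B, P B → AdmB U m B)
    (F : Finset (Finset (Fin d)) → ℝ) (hF : ∀ B, 0 ≤ F B) :
    k3_S w P F ≤ k3_W p Q' Q U m P F := by
  unfold k3_W k3_S
  rw [← sum_choose (k3_N Q' Q U m) (supp Q) p (fun B => if P B then F B else 0)]
  have e : ∑ B : Finset (Finset (Fin d)) with P B, (∏ S ∈ B, w S) * F B =
      ∑ B ∈ ((k3_N Q' Q U m).image (supp Q)).powerset with P B, (∏ S ∈ B, w S) * F B := by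
    symm
    refine Finset.sum_subset ?_ ?_
    · intro B hB
      rw [Finset.mem_filter] at hB ⊢
      exact ⟨Finset.mem_univ _, hB.2⟩
    · intro B hB hB'
      rw [Finset.mem_filter] at hB hB'
      have hBP := hB.2
      have h1 : ¬ B ⊆ (k3_N Q' Q U m).image (supp Q) := fun hs =>
        hB' ⟨Finset.mem_powerset.2 hs, hBP⟩
      rw [Finset.not_subset] at h1
      obtain ⟨S, hS, hSN⟩ := h1
      have hadm := hP B hBP
      have h2 : NewP Q' Q S = ∅ := by
        rw [← k3_filter (hadm.used S hS) (hadm.one S hS), Finset.filter_eq_empty_iff]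
        intro b hb he
        exact hSN (Finset.mem_image.2 ⟨b, hb, he⟩)
      have h3 : w S = 0 := by
        refine le_antisymm ?_ (hw0 S)
        have := hw S (hadm.card S hS)
        rw [h2] at this
        simpa using this
      rw [Finset.prod_eq_zero hS h3, zero_mul]
  rw [e, Finset.sum_filter]
  refine Finset.sum_le_sum fun B _ => ?_
  split_ifs with hB
  · refine mul_le_mul_of_nonneg_right ?_ (hF B)
    refine Finset.prod_le_prod (fun S _ => hw0 S) fun S hS => ?_
    have hadm := hP B hB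
    rw [k3_filter (hadm.used S hS) (hadm.one S hS)]
    exact hw S (hadm.card S hS)
  · rw [mul_zero]

theorem mac_ach {p δ : ℝ} (hp0 : 0 < p) (hp1 : p ≤ 1 / 2) {z : Vtx n d}
    {g : Finset (Vtx n d) → ℝ} {v : (Fin d → ℕ) → ℝ} (hv : ∀ x, 0 ≤ v x) (hD : AchD p z g v)
    {a₂ a₁ b₂ b₁ V₀ : ℝ} (ha₂ : 0 ≤ a₂) (ha₁ : 0 ≤ a₁) (hb₂ : 0 ≤ b₂) (hb₁ : 0 ≤ b₁) {y : ℕ}
    (h2 : a₂ ≤ 4 * p * V₀ * (2 * y - 1) / (y : ℝ) ^ 4)
    (h1 : a₁ ≤ 2 * p * V₀ * (2 * y - 1) / (y : ℝ) ^ 3)
    (g2 : b₂ ≤ 2 * p * V₀ / (y : ℝ) ^ 2) (g1 : b₁ ≤ p * V₀ / y) (hroom : Room (y + 4) z)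
    (x₀ : Fin d → ℕ) :
    ∀ (f r : ℕ) (J : Finset (Finset (Fin d))) (U m : Finset (Fin d)) (κ : Fin d → ℕ)
      (Q' Q : BoxT n d) (A Z T : Finset (Vtx n d)), Est z x₀ κ Q' Q A J U m Z T →
      r + J.card ≤ f → V₀ ≤ vol Q → (∀ i, 4 ≤ sd Q i) → (∀ i, x₀ i + κ i + 2 * r ≤ y) →
      p * (4 * ((d : ℝ) + 1) ^ 2 * vol Q) * 4 ^ f ≤ δ / 2 →
      Ach p g Z T (Real.exp (-(δ * f)) *
        mac (wS a₂ a₁ b₂ b₁) (fun κ' => v (x₀ + κ')) f r J U m κ) := by
  have hw := k3_wS_nonneg (d := d) ha₂ ha₁ hb₂ hb₁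
  have hv' : ∀ κ' : Fin d → ℕ, 0 ≤ v (x₀ + κ') := fun κ' => hv _
  -- no more births
  have hzero : ∀ (f : ℕ) (J : Finset (Finset (Fin d))) (U m : Finset (Fin d)) (κ : Fin d → ℕ)
      (Q' Q : BoxT n d) (A Z T : Finset (Vtx n d)), Est z x₀ κ Q' Q A J U m Z T →
      p * (4 * ((d : ℝ) + 1) ^ 2 * vol Q) * 4 ^ f ≤ δ / 2 →
      Ach p g Z T (Real.exp (-(δ * f)) *
        mac (wS a₂ a₁ b₂ b₁) (fun κ' => v (x₀ + κ')) f 0 J U m κ) := by
    intro f J U m κ Q' Q A Z T h hδ
    rw [k3_mac_zero]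
    refine (hD _ Z T (est_drain h)).mono ?_
    have hδ0 : 0 ≤ δ := by
      have hvp := d_vol_pos Q
      have : 0 ≤ p * (4 * ((d : ℝ) + 1) ^ 2 * vol Q) * 4 ^ f := by positivity
      linarith
    have he : Real.exp (-(δ * f)) ≤ 1 := by
      rw [Real.exp_le_one_iff]
      have : 0 ≤ δ * f := by positivity
      linarith
    exact (mul_le_mul_of_nonneg_right he (hv' κ)).trans (le_of_eq (one_mul _))
  intro f
  induction f with
  | zero =>
    intro r J U m κ Q' Q A Z T h hr _ _ _ hδ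
    have hr0 : r = 0 := by omega
    subst hr0
    exact hzero 0 J U m κ Q' Q A Z T h hδ
  | succ f ih =>
    intro r J U m κ Q' Q A Z T h hr hV h4 hy hδ
    by_cases hr0 : r = 0
    · subst hr0
      exact hzero (f + 1) J U m κ Q' Q A Z T h hδ
    classical
    have hQ : Q.1 ≤ Q.2 := le_trans h.inv.mem.1 h.inv.mem.2
    have hvp : 0 < vol Q := d_vol_pos Q
    have hsy : ∀ i, sd Q i ≤ y := by
      intro i
      have q1 := h.sides i
      have q2 := hy i
      omega
    set w : Finset (Fin d) → Finset (Fin d) → ℝ := wS a₂ a₁ b₂ b₁ with hwdef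
    set v' : (Fin d → ℕ) → ℝ := fun κ' => v (x₀ + κ') with hv'def
    set N := k3_N Q' Q U m with hNdef
    have hN : ∀ b ∈ N, ∑ m, out Q b m = 2 ∧ b ∉ cov Q' := fun b hb =>
      ⟨(k3_mem_N.1 hb).1, (k3_mem_N.1 hb).2.1⟩
    have hNZ : Disjoint N Z := by
      rw [Finset.disjoint_left]
      intro b hb hbZ
      exact (hN b hb).2 (h.inv.cov hbZ)
    set P : Finset (Finset (Fin d)) → Prop := fun B =>
      AdmB U m B ∧ B.card ≤ r ∧ (J ∪ B).Nonempty with hPdef
    set F : Finset (Finset (Fin d)) → ℝ := k3_F w v' f r J U κ with hFdef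
    have hF0 : ∀ B, 0 ≤ F B := k3_F_nonneg hw hv' f r J U κ
    -- the value after asking
    have hask := Ach.askAll (Z := Z) (T := T) (g := g) hp0.le (by linarith : p ≤ 1) hNZ
      (fun B => if (B.image (supp Q)).card = B.card ∧ P (B.image (supp Q)) then
        Real.exp (-(δ * f)) * F (B.image (supp Q)) else 0) (by
        intro B hB
        split_ifs with hgood
        · obtain ⟨hinj, hadm, hcr, hne⟩ := hgood
          obtain ⟨S, hS, hSv⟩ := k3_avg hne (fun S => mac w v' f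
            (r - (B.image (supp Q)).card) ((J ∪ B.image (supp Q)).erase S)
            (U ∪ (B.image (supp Q)).biUnion id) S (κ + ∑ S' ∈ B.image (supp Q), inc S'))
          obtain ⟨a, ha2, hEst⟩ := k3_next h hN hB hinj hadm hS
          refine (ih (r - (B.image (supp Q)).card) _ _ _ _ _ _ _ _ _ hEst ?_ ?_ ?_ ?_ ?_).mono
            (mul_le_mul_of_nonneg_left hSv (Real.exp_pos _).le)
          · have hpos := Finset.card_pos.2 hne
            rw [Finset.card_erase_of_mem hS, Finset.card_union_of_disjoint (k3_disj h hadm)]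
            rw [Finset.card_union_of_disjoint (k3_disj h hadm)] at hpos
            omega
          · exact hV.trans (k3_vol_ge hQ a)
          · intro i
            rw [d_sd_ext hQ]
            have := h4 i
            omega
          · intro i
            rw [Pi.add_apply, Finset.sum_apply]
            have q1 : ∑ S' ∈ B.image (supp Q), inc S' i ≤ (B.image (supp Q)).card • 2 :=
              Finset.sum_le_card_nsmul _ _ _ fun S' hS' => k3_inc_le (hadm.card S' hS') i
            rw [smul_eq_mul] at q1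
            have q2 := hy i
            omega
          · refine le_trans ?_ hδ
            have q1 := k3_vol_le hQ ha2
            have q2 : p * (4 * ((d : ℝ) + 1) ^ 2 * vol (ext Q a)) * 4 ^ f ≤
                p * (4 * ((d : ℝ) + 1) ^ 2 * (4 * vol Q)) * 4 ^ f := by gcongr
            refine q2.trans (le_of_eq ?_)
            ring
        · exact Ach.zero)
    refine hask.mono ?_
    -- comparison of the sums
    have hcardN : 2 * p * (N.card : ℝ) ≤ δ := by
      have q1 : N.card ≤ (cov Q).card := by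
        refine Finset.card_le_card fun b hb => ?_
        unfold cov
        rw [Finset.mem_filter]
        exact ⟨Finset.mem_univ _, (hN b hb).1.le⟩
      have q2 : (N.card : ℝ) ≤ 4 * ((d : ℝ) + 1) ^ 2 * vol Q :=
        (by exact_mod_cast q1 : (N.card : ℝ) ≤ (cov Q).card).trans (card_cov_le hQ)
      have q3 : (1 : ℝ) ≤ 4 ^ (f + 1) := one_le_pow₀ (by norm_num)
      have q4 : 0 ≤ p * (4 * ((d : ℝ) + 1) ^ 2 * vol Q) := by positivity
      have q5 : p * (4 * ((d : ℝ) + 1) ^ 2 * vol Q) ≤ δ / 2 :=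
        (le_mul_of_one_le_right q4 q3).trans hδ
      nlinarith [mul_le_mul_of_nonneg_left q2 hp0.le]
    have hpow : Real.exp (-δ) ≤ (1 - p) ^ N.card := k3_pow hp0 hp1 hcardN
    have hsum := k3_sum (p := p) (Q' := Q') (Q := Q) (U := U) (m := m) (hw m)
      (fun S hS => k3_weight hp0 h2 h1 g2 g1 hroom h hV h4 hsy hS) P (fun B hB => hB.1) F hF0
    have hmac : mac w v' (f + 1) r J U m κ = k3_S (w m) P F := by
      rw [k3_mac_succ, if_neg hr0]
      unfold k3_S
      congr 1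
      ext B
      simp only [Finset.mem_filter, hPdef]
    rw [hmac]
    have hexp : Real.exp (-(δ * ((f + 1 : ℕ) : ℝ))) = Real.exp (-(δ * f)) * Real.exp (-δ) := by
      rw [← Real.exp_add]
      congr 1
      push_cast
      ring
    rw [hexp]
    have hq0 : 0 ≤ 1 - p := by linarith
    have hW0 : 0 ≤ k3_W p Q' Q U m P F := by
      refine Finset.sum_nonneg fun B _ => mul_nonneg (pow_nonneg hp0.le _) ?_
      split_ifs
      · exact hF0 _
      · exact le_rfl
    calc Real.exp (-(δ * f)) * Real.exp (-δ) * k3_S (w m) P F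
        ≤ Real.exp (-(δ * f)) * Real.exp (-δ) * k3_W p Q' Q U m P F :=
          mul_le_mul_of_nonneg_left hsum (by positivity)
      _ ≤ Real.exp (-(δ * f)) * (1 - p) ^ N.card * k3_W p Q' Q U m P F := by
          apply mul_le_mul_of_nonneg_right _ hW0
          exact mul_le_mul_of_nonneg_left hpow (Real.exp_pos _).le
      _ ≤ _ := by
          unfold k3_W
          rw [Finset.sum_filter, Finset.mul_sum]
          refine Finset.sum_le_sum fun B hB => ?_
          have hBN := Finset.card_le_card (Finset.mem_powerset.1 hB)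
          by_cases c1 : (B.image (supp Q)).card = B.card
          · by_cases c2 : P (B.image (supp Q))
            · rw [if_pos c1, if_pos c2, if_pos ⟨c1, c2⟩]
              have e1 : (1 - p) ^ N.card ≤ (1 - p) ^ (N.card - B.card) :=
                pow_le_pow_of_le_one hq0 (by linarith) (Nat.sub_le _ _)
              have e2 : 0 ≤ p ^ B.card * (Real.exp (-(δ * f)) * F (B.image (supp Q))) :=
                mul_nonneg (pow_nonneg hp0.le _) (mul_nonneg (Real.exp_pos _).le (hF0 _))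
              calc Real.exp (-(δ * f)) * (1 - p) ^ N.card *
                    (p ^ B.card * F (B.image (supp Q))) = (1 - p) ^ N.card *
                    (p ^ B.card * (Real.exp (-(δ * f)) * F (B.image (supp Q)))) := by ring
                _ ≤ (1 - p) ^ (N.card - B.card) *
                    (p ^ B.card * (Real.exp (-(δ * f)) * F (B.image (supp Q)))) :=
                  mul_le_mul_of_nonneg_right e1 e2
                _ = _ := by ring
            · rw [if_pos c1, if_neg c2, if_neg (fun hh => c2 hh.2)]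
              simp
          · rw [if_neg c1, if_neg (fun hh => c1 hh.1)]
            simp

/-- a large step: `r` births, starting with an empty queue -/
theorem macro_step {p δ : ℝ} (hp0 : 0 < p) (hp1 : p ≤ 1 / 2) {z : Vtx n d}
    {g : Finset (Vtx n d) → ℝ} {v : (Fin d → ℕ) → ℝ} (hv : ∀ x, 0 ≤ v x) (hD : AchD p z g v)
    {a₂ a₁ b₂ b₁ : ℝ} (ha₂ : 0 ≤ a₂) (ha₁ : 0 ≤ a₁) (hb₂ : 0 ≤ b₂) (hb₁ : 0 ≤ b₁) {r y : ℕ}
    (hroom : Room (y + 4) z) {x : Fin d → ℕ} (hx : MOK p δ a₂ a₁ b₂ b₁ r y x)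
    {Z T : Finset (Vtx n d)} (h : Dst z x Z T) :
    Ach p g Z T (Real.exp (-(δ * r)) *
      mac (wS a₂ a₁ b₂ b₁) (fun κ => v (x + κ)) r r ∅ ∅ ∅ 0) := by
  obtain ⟨Q', Q, hinv, hsd, hthin, hgrow⟩ := h
  have hvol : vol Q = ∏ i, (x i : ℝ) := by
    unfold vol
    exact Finset.prod_congr rfl fun i _ => by rw [hsd i]
  have hEst : Est z x 0 Q' Q ∅ ∅ ∅ ∅ Z T := by
    refine ⟨hinv, ⟨by simp, by simp⟩, by simp, by simp, by simp, by simp, ?_, hthin, hgrow,
      by simp, by simp⟩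
    intro i
    simp [hsd i]
  refine mac_ach hp0 hp1 hv hD ha₂ ha₁ hb₂ hb₁ hx.h2 hx.h1 hx.g2 hx.g1 hroom x r r ∅ ∅ ∅ 0
    Q' Q ∅ Z T hEst (by simp) hvol.ge ?_ ?_ ?_
  · intro i
    rw [hsd i]
    exact hx.four i
  · intro i
    have := hx.top i
    simpa using this
  · rw [hvol]
    exact hx.few

end Pool.Agent.Lib.MP_8501c9_pr.Deep
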