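import Pool.Agent.Lib.MP_8501c9_pr.Deep.Compare1
import Pool.Agent.Lib.MP_8501c9_pr.Deep.Compare2
import Pool.Agent.Lib.MP_8501c9_pr.Deep.Compare3

/-!
# M6: the critical probability for all `d = O(log n)`
-/

set_option autoImplicit false
open Set

namespace Pool.Agent.Lib.MP_8501c9_pr.Deep

open Pool.Agent.Lib.MP_8501c9_pr Pool.Agent.Lib.MP_8501c9_pr.Mid
open Pool.Agent.Lib.MP_8501c9_pr.Wide

theorem pcall_ratio {ε p L : ℝ} (hε : 0 < ε) (h1 : Real.exp (-(L + Real.log (1 + ε))) ≤ p)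
    (h2 : p ≤ Real.exp (-(L - Real.log (1 + ε)))) : |p / Real.exp (-L) - 1| ≤ ε := by
  have hpos : 0 < Real.exp (-L) := Real.exp_pos _
  have h0 : 0 < 1 + ε := by linarith
  have e1 : Real.exp (-(L + Real.log (1 + ε))) = Real.exp (-L) * (1 + ε)⁻¹ := by
    rw [neg_add, Real.exp_add, Real.exp_neg (Real.log (1 + ε)), Real.exp_log h0]
  have e2 : Real.exp (-(L - Real.log (1 + ε))) = Real.exp (-L) * (1 + ε) := by
    rw [show -(L - Real.log (1 + ε)) = -L + Real.log (1 + ε) by ring, Real.exp_add,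
      Real.exp_log h0]
  rw [e1] at h1
  rw [e2] at h2
  have h3 : (1 + ε)⁻¹ ≤ p / Real.exp (-L) := by
    rw [le_div_iff₀ hpos, mul_comm]
    exact h1
  have h4 : p / Real.exp (-L) ≤ 1 + ε := by
    rw [div_le_iff₀ hpos, mul_comm]
    exact h2
  have h5 : 1 - ε ≤ (1 + ε)⁻¹ := by
    rw [← one_div, le_div_iff₀ h0]
    nlinarith
  rw [abs_le]
  constructor <;> linarith

/-- the critical probability for all `d = O(log n)` -/
theorem pc_all (c₀ ε : ℝ) (hc₀ : 0 < c₀) (hε : 0 < ε) : ∃ D₀ : ℕ, ∀ n d : ℕ,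
    D₀ ≤ d → c₀ * d ≤ Real.log n → |pc n d 2 / Real.exp (-Lall n d) - 1| ≤ ε := by
  have hε' : 0 < Real.log (1 + ε) := Real.log_pos (by linarith)
  obtain ⟨c, hc, D1, h1⟩ := pc_I c₀ (Real.log (1 + ε)) hc₀ hε'
  obtain ⟨C₁, _, D3, h3⟩ := pc_III (Real.log (1 + ε)) hε'
  obtain ⟨D2, h2⟩ := pc_II c C₁ (Real.log (1 + ε)) hc hε'
  refine ⟨max D1 (max D2 D3), fun n d hd hn => ?_⟩
  rcases le_total (aopt (Real.log n / d)) (c * d) with ha | ha
  · obtain ⟨hl, hu⟩ := h1 n d (by omega) hn ha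
    exact pcall_ratio hε hl hu
  · rcases le_total (aopt (Real.log n / d)) (C₁ * (d * Real.log d)) with ha' | ha'
    · obtain ⟨hl, hu⟩ := h2 n d (by omega) ha ha'
      exact pcall_ratio hε hl hu
    · obtain ⟨hl, hu⟩ := h3 n d (by omega) ha'
      exact pcall_ratio hε hl hu

end Pool.Agent.Lib.MP_8501c9_pr.Deep
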