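import Pool.Agent.Lib.MP_8501c9_pr.Deep.Defs
import Pool.Agent.Lib.MP_8501c9_pr.Wide.Births

/-!
# Potentials with a queue: births of visible points at the moved sides (task D1)
-/

set_option autoImplicit false
open Set

namespace Pool.Agent.Lib.MP_8501c9_pr.Deep

open Pool.Agent.Lib.MP_8501c9_pr Pool.Agent.Lib.MP_8501c9_pr.Mid
open Pool.Agent.Lib.MP_8501c9_pr.Wide

variable {n d : ℕ}

/-! ### the coefficients of `exp (c θ) (1 + β θ) ^ u` -/

/-- the coefficient of `θ ^ m` in `exp (c θ) (1 + β θ) ^ u` -/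
noncomputable def d1h (c β : ℝ) : ℕ → ℕ → ℝ
  | 0, m => c ^ m / (m.factorial : ℝ)
  | u + 1, 0 => d1h c β u 0
  | u + 1, m + 1 => d1h c β u (m + 1) + β * d1h c β u m

theorem d1h_zero_left (c β : ℝ) (m : ℕ) : d1h c β 0 m = c ^ m / (m.factorial : ℝ) := rfl

theorem d1h_succ_zero (c β : ℝ) (u : ℕ) : d1h c β (u + 1) 0 = d1h c β u 0 := rfl

theorem d1h_succ_succ (c β : ℝ) (u m : ℕ) :
    d1h c β (u + 1) (m + 1) = d1h c β u (m + 1) + β * d1h c β u m := rfl

theorem d1h_zero_right (c β : ℝ) (u : ℕ) : d1h c β u 0 = 1 := by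
  induction u with
  | zero => simp [d1h_zero_left]
  | succ u ih => rw [d1h_succ_zero, ih]

theorem d1h_nonneg {c β : ℝ} (hc : 0 ≤ c) (hβ : 0 ≤ β) (u m : ℕ) : 0 ≤ d1h c β u m := by
  induction u generalizing m with
  | zero =>
    rw [d1h_zero_left]
    positivity
  | succ u ih =>
    cases m with
    | zero => exact ih 0
    | succ m =>
      rw [d1h_succ_succ]
      exact add_nonneg (ih _) (mul_nonneg hβ (ih _))

theorem d1h_succ_ge {c β : ℝ} (hc : 0 ≤ c) (hβ : 0 ≤ β) (u m : ℕ) :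
    d1h c β u m ≤ d1h c β (u + 1) m := by
  cases m with
  | zero => exact le_rfl
  | succ m =>
    rw [d1h_succ_succ]
    have := mul_nonneg hβ (d1h_nonneg hc hβ u m)
    linarith

theorem d1h_mono {c β : ℝ} (hc : 0 ≤ c) (hβ : 0 ≤ β) (m : ℕ) :
    Monotone (fun u => d1h c β u m) :=
  monotone_nat_of_le_succ fun u => d1h_succ_ge hc hβ u m

/-- the differential equation -/
theorem d1h_rec (c β : ℝ) (u m : ℕ) :
    ((m : ℝ) + 1) * d1h c β u (m + 1) = c * d1h c β u m + u * (β * d1h c β (u - 1) m) := by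
  induction u generalizing m with
  | zero =>
    rw [d1h_zero_left, d1h_zero_left, Nat.factorial_succ]
    have h1 : (0 : ℝ) < (m.factorial : ℝ) := by positivity
    have h2 : (0 : ℝ) < (m : ℝ) + 1 := by positivity
    push_cast
    field_simp
    ring
  | succ u ih =>
    have h1 := ih m
    rw [d1h_succ_succ, Nat.add_sub_cancel]
    cases m with
    | zero =>
      rw [d1h_succ_zero, d1h_zero_right] at *
      rw [d1h_zero_right] at h1
      push_cast at h1 ⊢
      linarith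
    | succ m =>
      have h2 := ih m
      rw [d1h_succ_succ]
      -- `u * d1h u (m + 1) = u * (d1h (u - 1) (m + 1) + β d1h (u - 1) m)`
      have h3 : (u : ℝ) * d1h c β u (m + 1) =
          u * (d1h c β (u - 1) (m + 1) + β * d1h c β (u - 1) m) := by
        cases u with
        | zero => simp
        | succ u => rw [d1h_succ_succ, Nat.add_sub_cancel]
      push_cast at h1 h2 ⊢
      linear_combination h1 + β * h2 - β * h3

theorem d1h_sum {c β : ℝ} (hc : 0 ≤ c) (hβ : 0 ≤ β) (u N : ℕ) :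
    ∑ m ∈ Finset.range N, d1h c β u m ≤ Real.exp c * (1 + β) ^ u := by
  induction u with
  | zero =>
    rw [pow_zero, mul_one]
    exact Real.sum_le_exp_of_nonneg hc N
  | succ u ih =>
    cases N with
    | zero =>
      rw [Finset.range_zero, Finset.sum_empty]
      positivity
    | succ N =>
      have h1 : ∑ m ∈ Finset.range (N + 1), d1h c β (u + 1) m =
          ∑ m ∈ Finset.range (N + 1), d1h c β u m + β * ∑ m ∈ Finset.range N, d1h c β u m := by
        rw [Finset.sum_range_succ', Finset.sum_range_succ' (fun m => d1h c β u m),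
          d1h_succ_zero, Finset.mul_sum]
        simp only [d1h_succ_succ, Finset.sum_add_distrib]
        ring
      have h2 : ∑ m ∈ Finset.range N, d1h c β u m ≤
          ∑ m ∈ Finset.range (N + 1), d1h c β u m := by
        rw [Finset.sum_range_succ]
        have := d1h_nonneg hc hβ u N
        linarith
      rw [h1, pow_succ]
      have h3 : 0 ≤ Real.exp c * (1 + β) ^ u := by positivity
      have h4 := mul_le_mul_of_nonneg_left (h2.trans ih) hβ
      nlinarith

/-! ### the modified exponent -/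

/-- the exponent of the factor `wX` -/
noncomputable def d1c (c : BoxT n d → BoxT n d → ℝ) (β : BoxT n d → ℝ) (Q Q' : BoxT n d) : ℝ :=
  c Q Q' + (mv Q Q').card * Real.log (1 + β Q')

theorem d1_exp {c : BoxT n d → BoxT n d → ℝ} {β : BoxT n d → ℝ} (hβ : ∀ R, 0 ≤ β R)
    (Q Q' : BoxT n d) : Real.exp (d1c c β Q Q') = wX c β Q Q' := by
  have h1 : (0 : ℝ) < 1 + β Q' := by
    have := hβ Q'
    linarith
  unfold d1c wX
  rw [Real.exp_add, Real.exp_nat_mul, Real.exp_log h1]

theorem d1_mv_self (Q : BoxT n d) : mv Q Q = ∅ := by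
  unfold mv
  rw [Finset.filter_eq_empty_iff]
  intro s _ h
  rcases h with h | h
  · exact lt_irrefl _ h.2
  · exact lt_irrefl _ h.2

theorem d1c_self {c : BoxT n d → BoxT n d → ℝ} {β : BoxT n d → ℝ} (hcc : ∀ Q, c Q Q = 0)
    (Q : BoxT n d) : d1c c β Q Q = 0 := by
  unfold d1c
  rw [hcc, d1_mv_self]
  simp

/-! ### the combinatorial step -/

theorem d1_comb {c : BoxT n d → BoxT n d → ℝ} {G : BoxT n d → ℝ}
    (hG : ∀ R, 0 ≤ G R) (N : Finset (Vtx n d)) (m : ℕ) (X : BoxT n d) :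
    ((m : ℝ) + 1) * ∑ B ∈ N.powersetCard (m + 1), v2U c G B X ≤
        ∑ b ∈ N, Real.exp (c X (ext X b)) * ∑ B ∈ N.powersetCard m, v2U c G B (ext X b) := by
    calc ((m : ℝ) + 1) * ∑ B ∈ N.powersetCard (m + 1), v2U c G B X
        = ∑ B ∈ N.powersetCard (m + 1), ∑ b ∈ B, v2U c G B X := by
          rw [Finset.mul_sum]
          refine Finset.sum_congr rfl fun B hB => ?_
          rw [Finset.sum_const, (Finset.mem_powersetCard.1 hB).2, nsmul_eq_mul]
          push_cast
          ring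
      _ ≤ ∑ B ∈ N.powersetCard (m + 1), ∑ b ∈ B,
            Real.exp (c X (ext X b)) * v2U c G (B.erase b) (ext X b) :=
          Finset.sum_le_sum fun B _ => Finset.sum_le_sum fun b hb => v2U_step c G hb X
      _ = ∑ b ∈ N, ∑ B ∈ (N.powersetCard (m + 1)).filter (fun B => b ∈ B),
            Real.exp (c X (ext X b)) * v2U c G (B.erase b) (ext X b) := by
          refine Finset.sum_comm' fun B b => ?_
          rw [Finset.mem_filter]
          constructor
          · rintro ⟨hB, hb⟩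
            exact ⟨⟨hB, hb⟩, (Finset.mem_powersetCard.1 hB).1 hb⟩
          · rintro ⟨⟨hB, hb⟩, -⟩
            exact ⟨hB, hb⟩
      _ ≤ _ := by
          refine Finset.sum_le_sum fun b _ => ?_
          rw [← Finset.mul_sum]
          refine mul_le_mul_of_nonneg_left ?_ (Real.exp_pos _).le
          refine b_sum_le_of_inj _ _ _ (fun B => v2U c G B (ext X b)) (fun B => B.erase b)
            ?_ ?_ (fun _ _ => rfl) (fun B _ => v2U_nonneg c hG B _)
          · intro B hB
            obtain ⟨hB1, hB2⟩ := Finset.mem_filter.1 hB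
            obtain ⟨hB3, hB4⟩ := Finset.mem_powersetCard.1 hB1
            rw [Finset.mem_powersetCard]
            refine ⟨(Finset.erase_subset _ _).trans hB3, ?_⟩
            rw [Finset.card_erase_of_mem hB2, hB4]
            rfl
          · intro B hB B' hB' he
            have hb1 := (Finset.mem_filter.1 (Finset.mem_coe.1 hB)).2
            have hb2 := (Finset.mem_filter.1 (Finset.mem_coe.1 hB')).2
            have he' : B.erase b = B'.erase b := he
            rw [← Finset.insert_erase hb1, he', Finset.insert_erase hb2]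

/-! ### the moved sides -/

theorem d1_mem_mv {Q Q' : BoxT n d} {s : Fin d × Bool} : s ∈ mv Q Q' ↔
    (s.2 = true ∧ Q.2 s.1 < Q'.2 s.1) ∨ (s.2 = false ∧ Q'.1 s.1 < Q.1 s.1) := by
  unfold mv
  rw [Finset.mem_filter]
  simp

theorem d1_mv_mono {Q' X Y : BoxT n d} (h : Sub X Y) : mv Q' X ⊆ mv Q' Y := by
  intro s hs
  rw [d1_mem_mv] at hs ⊢
  rcases hs with ⟨h1, h2⟩ | ⟨h1, h2⟩
  · exact Or.inl ⟨h1, h2.trans_le (h.2 s.1)⟩
  · exact Or.inr ⟨h1, (h.1 s.1).trans_lt h2⟩

theorem d1_mv_of_outS {Q' X : BoxT n d} (h : Sub Q' X) {s : Fin d × Bool} {b : Vtx n d}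
    (hb : outS X s b) : s ∈ mv Q' (ext X b) := by
  rw [d1_mem_mv]
  rcases hb with ⟨h1, h2⟩ | ⟨h1, h2⟩
  · refine Or.inl ⟨h1, ?_⟩
    have h3 : b s.1 ≤ (ext X b).2 s.1 := by
      change b s.1 ≤ (X.2 ⊔ b) s.1
      exact le_sup_right
    exact ((h.2 s.1).trans_lt h2).trans_le h3
  · refine Or.inr ⟨h1, ?_⟩
    have h3 : (ext X b).1 s.1 ≤ b s.1 := by
      change (X.1 ⊓ b) s.1 ≤ b s.1
      exact inf_le_right
    exact (h3.trans_lt h2).trans_le (h.1 s.1)

/-- a point visible from `Q'` sticks out of `X` by two in total only at sides where `X` does not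
exceed `Q'` -/
theorem d1_slot_side {Q' X : BoxT n d} (h : Sub Q' X) {s : Fin d × Bool} {b : Vtx n d}
    (hb : b ∈ cov Q') (h2 : ∑ i, out X b i = 2) (hs : outS X s b) : s ∉ mv Q' X := by
  intro hm
  unfold cov at hb
  rw [Finset.mem_filter] at hb
  have h3 : ∑ i, out X b i < ∑ i, out Q' b i := by
    refine Finset.sum_lt_sum (fun i _ => b_out_mono h.1 h.2 b i) ⟨s.1, Finset.mem_univ _, ?_⟩
    have ha := Fin.le_def.1 (h.1 s.1)
    have hc := Fin.le_def.1 (h.2 s.1)
    rw [d1_mem_mv] at hm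
    unfold out
    rcases hs with ⟨h4, h5⟩ | ⟨h4, h5⟩
    · rcases hm with ⟨-, h6⟩ | ⟨h7, -⟩
      · rw [Fin.lt_def] at h5 h6
        omega
      · rw [h4] at h7
        exact absurd h7 (by decide)
    · rcases hm with ⟨h7, -⟩ | ⟨-, h6⟩
      · rw [h4] at h7
        exact absurd h7 (by decide)
      · rw [Fin.lt_def] at h5 h6
        omega
  omega

/-! ### the births lemma -/

/-- sum over the new points, points which stick out at a moved side use up the slot -/
theorem d1_step {p : ℝ} (hp : 0 ≤ p) {k : ℕ} {c : BoxT n d → BoxT n d → ℝ} {G β : BoxT n d → ℝ}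
    (hG : ∀ R, 0 ≤ G R) (hGk : ∀ R, k ≤ phi R → G R = 0) (hβ : ∀ R, 0 ≤ β R)
    {Q Q' : BoxT n d} (hQ : Q.1 ≤ Q.2) (h1 : Sub Q Q') (hc : 0 ≤ c Q Q')
    (hA : ∀ X : BoxT n d, Sub Q' X → Thick Q' X → phi X < k →
      ∑ b ∈ freeB Q Q' X, p * wX c β X (ext X b) * G (ext X b) ≤ c Q Q' * G X)
    (hB : ∀ (X : BoxT n d) (s : Fin d × Bool), Sub Q' X → Thick Q' X → phi X < k →
      s ∈ mv Q Q' →
      ∑ b ∈ slotB Q Q' X s, p * wX c β X (ext X b) * G (ext X b) ≤ β Q' * G X)
    {X : BoxT n d} (h2 : Sub Q' X) (h3 : Thick Q' X) (m : ℕ) :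
    ∑ b ∈ cov Q' \ cov Q, p * wX c β X (ext X b) * G (ext X b) *
        d1h (c Q Q') (β Q') (mv Q Q' \ mv Q' (ext X b)).card m ≤
      ((m : ℝ) + 1) * d1h (c Q Q') (β Q') (mv Q Q' \ mv Q' X).card (m + 1) * G X := by
  classical
  have hX : X.1 ≤ X.2 := v2_honest hQ (v2_sub_trans h1 h2)
  have hw : ∀ Y : BoxT n d, 0 ≤ wX c β X Y := by
    intro Y
    rw [← d1_exp hβ]
    exact (Real.exp_pos _).le
  have hh : ∀ u m, 0 ≤ d1h (c Q Q') (β Q') u m := d1h_nonneg hc (hβ Q')
  have hf : ∀ b : Vtx n d, 0 ≤ p * wX c β X (ext X b) * G (ext X b) := fun b =>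
    mul_nonneg (mul_nonneg hp (hw _)) (hG _)
  rcases lt_or_ge (phi X) k with hk | hk
  swap
  · refine (Finset.sum_nonpos fun b _ => ?_).trans
      (mul_nonneg (mul_nonneg (by positivity) (hh _ _)) (hG X))
    rw [hGk (ext X b) (by rw [phi_ext hX]; omega)]
    simp
  set u := (mv Q Q' \ mv Q' X).card with hu
  set f : Vtx n d → ℝ := fun b => p * wX c β X (ext X b) * G (ext X b) with hfdef
  set g : Vtx n d → ℝ := fun b => f b *
    d1h (c Q Q') (β Q') (mv Q Q' \ mv Q' (ext X b)).card m with hgdef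
  have hg0 : ∀ b, 0 ≤ g b := fun b => mul_nonneg (hf b) (hh _ _)
  have hmono : ∀ b, (mv Q Q' \ mv Q' (ext X b)).card ≤ u := fun b =>
    Finset.card_le_card (Finset.sdiff_subset_sdiff le_rfl (d1_mv_mono (v2_sub_ext X b)))
  -- every new point is free or belongs to a slot
  have hsplit : ∑ b ∈ cov Q' \ cov Q, g b ≤ ∑ b ∈ freeB Q Q' X, g b +
      ∑ s ∈ mv Q Q' \ mv Q' X, ∑ b ∈ slotB Q Q' X s, g b := by
    have e1 : ∑ b ∈ freeB Q Q' X, g b = ∑ b ∈ cov Q' \ cov Q,
        if ¬ (∑ i, out X b i = 2 ∧ ∃ s ∈ mv Q Q', outS X s b) then g b else 0 := by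
      unfold freeB
      rw [Finset.sum_filter]
    have e2 : ∀ s, ∑ b ∈ slotB Q Q' X s, g b = ∑ b ∈ cov Q' \ cov Q,
        if (∑ i, out X b i = 2 ∧ outS X s b) then g b else 0 := by
      intro s
      unfold slotB
      rw [Finset.sum_filter]
    rw [e1, Finset.sum_congr rfl fun s _ => e2 s, Finset.sum_comm, ← Finset.sum_add_distrib]
    refine Finset.sum_le_sum fun b hb => ?_
    have hnn : ∀ s, (0 : ℝ) ≤ if (∑ i, out X b i = 2 ∧ outS X s b) then g b else 0 := by
      intro s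
      split_ifs
      · exact hg0 b
      · exact le_rfl
    by_cases hfree : ¬ (∑ i, out X b i = 2 ∧ ∃ s ∈ mv Q Q', outS X s b)
    · rw [if_pos hfree]
      have := Finset.sum_nonneg (s := mv Q Q' \ mv Q' X) fun s _ => hnn s
      linarith
    · rw [if_neg hfree, zero_add]
      push Not at hfree
      obtain ⟨h4, s, hs, h5⟩ := hfree
      have h6 := d1_slot_side h2 (Finset.mem_sdiff.1 hb).1 h4 h5
      refine le_trans ?_ (Finset.single_le_sum (f := fun s =>
        if (∑ i, out X b i = 2 ∧ outS X s b) then g b else 0) (fun s _ => hnn s)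
        (Finset.mem_sdiff.2 ⟨hs, h6⟩))
      rw [if_pos ⟨h4, h5⟩]
  have hfree : ∑ b ∈ freeB Q Q' X, g b ≤ c Q Q' * G X * d1h (c Q Q') (β Q') u m := by
    calc ∑ b ∈ freeB Q Q' X, g b ≤ ∑ b ∈ freeB Q Q' X, f b * d1h (c Q Q') (β Q') u m :=
          Finset.sum_le_sum fun b _ => mul_le_mul_of_nonneg_left
            (d1h_mono hc (hβ Q') m (hmono b)) (hf b)
      _ = (∑ b ∈ freeB Q Q' X, f b) * d1h (c Q Q') (β Q') u m := by rw [Finset.sum_mul]
      _ ≤ _ := mul_le_mul_of_nonneg_right (hA X h2 h3 hk) (hh _ _)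
  have hslot : ∀ s ∈ mv Q Q' \ mv Q' X, ∑ b ∈ slotB Q Q' X s, g b ≤
      β Q' * G X * d1h (c Q Q') (β Q') (u - 1) m := by
    intro s hs
    calc ∑ b ∈ slotB Q Q' X s, g b
        ≤ ∑ b ∈ slotB Q Q' X s, f b * d1h (c Q Q') (β Q') (u - 1) m := by
          refine Finset.sum_le_sum fun b hb => mul_le_mul_of_nonneg_left
            (d1h_mono hc (hβ Q') m ?_) (hf b)
          unfold slotB at hb
          rw [Finset.mem_filter] at hb
          have h4 : mv Q Q' \ mv Q' (ext X b) ⊆ (mv Q Q' \ mv Q' X).erase s := by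
            intro r hr
            rw [Finset.mem_sdiff] at hr
            rw [Finset.mem_erase, Finset.mem_sdiff]
            refine ⟨?_, hr.1, fun h => hr.2 (d1_mv_mono (v2_sub_ext X b) h)⟩
            rintro rfl
            exact hr.2 (d1_mv_of_outS h2 hb.2.2)
          have h5 := Finset.card_le_card h4
          rw [Finset.card_erase_of_mem hs] at h5
          exact h5
      _ = (∑ b ∈ slotB Q Q' X s, f b) * d1h (c Q Q') (β Q') (u - 1) m := by rw [Finset.sum_mul]
      _ ≤ _ := mul_le_mul_of_nonneg_right (hB X s h2 h3 hk (Finset.mem_sdiff.1 hs).1) (hh _ _)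
  have hslots := Finset.sum_le_sum hslot
  rw [Finset.sum_const, nsmul_eq_mul, ← hu] at hslots
  calc ∑ b ∈ cov Q' \ cov Q, g b
      ≤ c Q Q' * G X * d1h (c Q Q') (β Q') u m +
        (u : ℝ) * (β Q' * G X * d1h (c Q Q') (β Q') (u - 1) m) := by linarith
    _ = (c Q Q' * d1h (c Q Q') (β Q') u m +
        u * (β Q' * d1h (c Q Q') (β Q') (u - 1) m)) * G X := by ring
    _ = _ := by rw [← d1h_rec]

theorem d1_layer {p : ℝ} (hp : 0 ≤ p) {k : ℕ} {c : BoxT n d → BoxT n d → ℝ} {G β : BoxT n d → ℝ}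
    (hG : ∀ R, 0 ≤ G R) (hGk : ∀ R, k ≤ phi R → G R = 0) (hβ : ∀ R, 0 ≤ β R)
    {Q Q' : BoxT n d} (hQ : Q.1 ≤ Q.2) (h1 : Sub Q Q') (hc : 0 ≤ c Q Q')
    (hA : ∀ X : BoxT n d, Sub Q' X → Thick Q' X → phi X < k →
      ∑ b ∈ freeB Q Q' X, p * wX c β X (ext X b) * G (ext X b) ≤ c Q Q' * G X)
    (hB : ∀ (X : BoxT n d) (s : Fin d × Bool), Sub Q' X → Thick Q' X → phi X < k →
      s ∈ mv Q Q' →
      ∑ b ∈ slotB Q Q' X s, p * wX c β X (ext X b) * G (ext X b) ≤ β Q' * G X) (m : ℕ) :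
    ∀ X, Sub Q' X → Thick Q' X →
      p ^ m * ∑ B ∈ (cov Q' \ cov Q).powersetCard m, v2U (d1c c β) G B X ≤
        d1h (c Q Q') (β Q') (mv Q Q' \ mv Q' X).card m * G X := by
  induction m with
  | zero =>
    intro X _ _
    rw [Finset.powersetCard_zero, Finset.sum_singleton, v2U_empty, d1h_zero_right]
    simp
  | succ m ih =>
    intro X h2 h3
    have e1 := d1_comb (c := d1c c β) hG (cov Q' \ cov Q) m X
    have e2 : p ^ (m + 1) * (((m : ℝ) + 1) *
        ∑ B ∈ (cov Q' \ cov Q).powersetCard (m + 1), v2U (d1c c β) G B X) ≤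
        ((m : ℝ) + 1) * d1h (c Q Q') (β Q') (mv Q Q' \ mv Q' X).card (m + 1) * G X := by
      calc p ^ (m + 1) * (((m : ℝ) + 1) *
            ∑ B ∈ (cov Q' \ cov Q).powersetCard (m + 1), v2U (d1c c β) G B X)
          ≤ p ^ (m + 1) * ∑ b ∈ cov Q' \ cov Q, Real.exp (d1c c β X (ext X b)) *
              ∑ B ∈ (cov Q' \ cov Q).powersetCard m, v2U (d1c c β) G B (ext X b) :=
            mul_le_mul_of_nonneg_left e1 (pow_nonneg hp _)
        _ = ∑ b ∈ cov Q' \ cov Q, p * wX c β X (ext X b) * (p ^ m *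
              ∑ B ∈ (cov Q' \ cov Q).powersetCard m, v2U (d1c c β) G B (ext X b)) := by
            rw [Finset.mul_sum]
            refine Finset.sum_congr rfl fun b _ => ?_
            rw [pow_succ, d1_exp hβ]
            ring
        _ ≤ ∑ b ∈ cov Q' \ cov Q, p * wX c β X (ext X b) *
              (d1h (c Q Q') (β Q') (mv Q Q' \ mv Q' (ext X b)).card m * G (ext X b)) := by
            refine Finset.sum_le_sum fun b hb => ?_
            have hcl := v2_class ⟨h2, h3⟩ (Finset.mem_sdiff.1 hb).1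
            refine mul_le_mul_of_nonneg_left (ih _ hcl.1 hcl.2) (mul_nonneg hp ?_)
            rw [← d1_exp hβ]
            exact (Real.exp_pos _).le
        _ = ∑ b ∈ cov Q' \ cov Q, p * wX c β X (ext X b) * G (ext X b) *
              d1h (c Q Q') (β Q') (mv Q Q' \ mv Q' (ext X b)).card m :=
            Finset.sum_congr rfl fun b _ => by ring
        _ ≤ _ := d1_step hp hG hGk hβ hQ h1 hc hA hB h2 h3 m
    have h5 : (0 : ℝ) < (m : ℝ) + 1 := by positivity
    refine le_of_mul_le_mul_left ?_ h5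
    calc _ = p ^ (m + 1) * (((m : ℝ) + 1) *
          ∑ B ∈ (cov Q' \ cov Q).powersetCard (m + 1), v2U (d1c c β) G B X) := by ring
      _ ≤ _ := e2
      _ = _ := by ring

theorem d1_births {p : ℝ} (hp : 0 ≤ p) {k : ℕ} {c : BoxT n d → BoxT n d → ℝ}
    {G β : BoxT n d → ℝ}
    (hG : ∀ R, 0 ≤ G R) (hGk : ∀ R, k ≤ phi R → G R = 0) (hβ : ∀ R, 0 ≤ β R)
    {Q Q' : BoxT n d} (hQ : Q.1 ≤ Q.2) (h1 : Sub Q Q') (hc : 0 ≤ c Q Q')
    (hA : ∀ X : BoxT n d, Sub Q' X → Thick Q' X → phi X < k →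
      ∑ b ∈ freeB Q Q' X, p * wX c β X (ext X b) * G (ext X b) ≤ c Q Q' * G X)
    (hB : ∀ (X : BoxT n d) (s : Fin d × Bool), Sub Q' X → Thick Q' X → phi X < k →
      s ∈ mv Q Q' →
      ∑ b ∈ slotB Q Q' X s, p * wX c β X (ext X b) * G (ext X b) ≤ β Q' * G X)
    {X : BoxT n d} (h2 : Sub Q' X) (h3 : Thick Q' X) :
    ∑ B ∈ (cov Q' \ cov Q).powerset, p ^ B.card * v2U (d1c c β) G B X ≤
      Real.exp (d1c c β Q Q') * G X := by
  rw [Finset.sum_powerset]
  calc ∑ j ∈ Finset.range ((cov Q' \ cov Q).card + 1),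
        ∑ B ∈ (cov Q' \ cov Q).powersetCard j, p ^ B.card * v2U (d1c c β) G B X
      = ∑ j ∈ Finset.range ((cov Q' \ cov Q).card + 1),
        p ^ j * ∑ B ∈ (cov Q' \ cov Q).powersetCard j, v2U (d1c c β) G B X := by
        refine Finset.sum_congr rfl fun j _ => ?_
        rw [Finset.mul_sum]
        refine Finset.sum_congr rfl fun B hB => ?_
        rw [(Finset.mem_powersetCard.1 hB).2]
    _ ≤ ∑ j ∈ Finset.range ((cov Q' \ cov Q).card + 1),
        d1h (c Q Q') (β Q') (mv Q Q' \ mv Q' X).card j * G X :=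
        Finset.sum_le_sum fun j _ => d1_layer hp hG hGk hβ hQ h1 hc hA hB j X h2 h3
    _ = (∑ j ∈ Finset.range ((cov Q' \ cov Q).card + 1),
        d1h (c Q Q') (β Q') (mv Q Q' \ mv Q' X).card j) * G X := by
        rw [Finset.sum_mul]
    _ ≤ (Real.exp (c Q Q') * (1 + β Q') ^ (mv Q Q' \ mv Q' X).card) * G X :=
        mul_le_mul_of_nonneg_right (d1h_sum hc (hβ Q') _ _) (hG X)
    _ ≤ Real.exp (d1c c β Q Q') * G X := by
        refine mul_le_mul_of_nonneg_right ?_ (hG X)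
        rw [d1_exp hβ]
        unfold wX
        refine mul_le_mul_of_nonneg_left ?_ (Real.exp_pos _).le
        refine pow_le_pow_right₀ ?_ (Finset.card_le_card Finset.sdiff_subset)
        have := hβ Q'
        linarith

open Classical in
/-- the exploration bound from the two-box births lemma -/
theorem d1_gen {p : ℝ} (hp : 0 ≤ p) (k : ℕ) (g G : BoxT n d → ℝ)
    (c : BoxT n d → BoxT n d → ℝ) (c₀ : ℝ) (hg : ∀ R, 0 ≤ g R) (hG : ∀ R, 0 ≤ G R)
    (hGk : ∀ R, k ≤ phi R → G R = 0) (hcc : ∀ Q, c Q Q = 0)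
    (hb : ∀ Q Q' X : BoxT n d, Q.1 ≤ Q.2 → Sub Q Q' → Sub Q' X → Thick Q' X →
      ∑ B ∈ (cov Q' \ cov Q).powerset, p ^ B.card * v2U c G B X ≤
        Real.exp (c Q Q') * G X)
    (hN0 : ∀ (z : Vtx n d) (X : BoxT n d), Sub (z, z) X → Thick (z, z) X → phi X < k →
      ∑ b ∈ cov (z, z), p * Real.exp (c X (ext X b)) * G (ext X b) ≤ c₀ * G X)
    (hN2 : ∀ Q : BoxT n d, Q.1 ≤ Q.2 → phi Q < k →
      g Q + ∑ P : BoxT n d with FarBox Q P,
        wt p P * (Real.exp (c Q (hull Q P)) * G (hull Q P)) ≤ G Q) :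
    ∑ R : BoxT n d with (R.1 ≤ R.2 ∧ phi R < k), wt p R * g R ≤
      p * Real.exp c₀ * ∑ x : Vtx n d, G (x, x) := by
  have hwt : ∀ P : BoxT n d, 0 ≤ wt p P := fun P =>
    Finset.sum_nonneg fun W _ => pow_nonneg hp _
  have hmain := explore hp k g hg (fun Q A => v2U c G A Q) (fun Q A => v2U_nonneg c hG A Q)
    (by
      intro Q A hQ hk hA hne
      obtain ⟨l, hl, hU⟩ := v2U_spec c G A Q
      cases l with
      | nil =>
        obtain ⟨a, ha⟩ := hne
        exact absurd ((hl.2 a).2 ha) (by simp)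
      | cons a l =>
        obtain ⟨ha, hl'⟩ := v2Ord_tail hl
        refine ⟨a, ha, ?_⟩
        have hcl : Sub (ext Q a) (v2X l (ext Q a)) ∧ Thick (ext Q a) (v2X l (ext Q a)) := by
          refine v2_class_list ⟨⟨le_rfl, le_rfl⟩, v2_thick_self _⟩ fun b hb => ?_
          have h1 := Finset.mem_of_mem_erase ((hl'.2 b).1 hb)
          exact v2_cov_mono (v2_sub_ext Q a) (Finset.mem_sdiff.1 (hA h1)).1
        have hterm : ∀ B ∈ (cov (ext Q a) \ cov Q).powerset,
            p ^ B.card * v2U c G ((A ∪ B) \ ins (ext Q a)) (ext Q a) ≤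
              v2E c l (ext Q a) * (p ^ B.card * v2U c G B (v2X l (ext Q a))) := by
          intro B hB
          rw [Finset.mem_powerset] at hB
          obtain ⟨m, hm, hUm⟩ := v2U_spec c G B (v2X l (ext Q a))
          have h1 : v2U c G ((A ∪ B) \ ins (ext Q a)) (ext Q a) ≤
              v2E c l (ext Q a) * v2U c G B (v2X l (ext Q a)) := by
            rw [hUm, ← v2W_append, ← v2_filter hcc G (ext Q a) (l ++ m) ⟨le_rfl, le_rfl⟩]
            refine v2U_le c G _ ⟨List.Nodup.filter _ ?_, fun x => ?_⟩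
            · rw [List.nodup_append]
              refine ⟨hl'.1, hm.1, ?_⟩
              intro x hx y hy hxy
              subst hxy
              have h2 := Finset.mem_of_mem_erase ((hl'.2 x).1 hx)
              have h3 := hB ((hm.2 x).1 hy)
              exact (Finset.mem_sdiff.1 h3).2 (Finset.mem_sdiff.1 (hA h2)).1
            · rw [List.mem_filter, List.mem_append, hl'.2, hm.2, Finset.mem_sdiff,
                Finset.mem_union, Finset.mem_erase]
              simp only [decide_eq_true_eq]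
              constructor
              · rintro ⟨h2 | h2, h3⟩
                · exact ⟨Or.inl h2.2, h3⟩
                · exact ⟨Or.inr h2, h3⟩
              · rintro ⟨h2 | h2, h3⟩
                · refine ⟨Or.inl ⟨?_, h2⟩, h3⟩
                  rintro rfl
                  exact h3 (v2_mem_ins_ext _)
                · exact ⟨Or.inr h2, h3⟩
          calc p ^ B.card * v2U c G ((A ∪ B) \ ins (ext Q a)) (ext Q a)
              ≤ p ^ B.card * (v2E c l (ext Q a) * v2U c G B (v2X l (ext Q a))) :=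
                mul_le_mul_of_nonneg_left h1 (pow_nonneg hp _)
            _ = _ := by ring
        refine (Finset.sum_le_sum hterm).trans ?_
        rw [← Finset.mul_sum]
        have h2 := hb Q (ext Q a) (v2X l (ext Q a)) hQ (v2_sub_ext Q a) hcl.1 hcl.2
        calc v2E c l (ext Q a) * ∑ B ∈ (cov (ext Q a) \ cov Q).powerset,
              p ^ B.card * v2U c G B (v2X l (ext Q a))
            ≤ v2E c l (ext Q a) * (Real.exp (c Q (ext Q a)) * G (v2X l (ext Q a))) :=
              mul_le_mul_of_nonneg_left h2 (v2E_pos c l _).le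
          _ = v2U c G A Q := by
              rw [hU, v2W_cons, v2W]
              ring)
    (by
      intro Q hQ hk
      refine le_trans ?_ ((hN2 Q hQ hk).trans (v2U_empty c G Q).ge)
      refine add_le_add le_rfl (Finset.sum_le_sum fun P _ => ?_)
      refine mul_le_mul_of_nonneg_left ?_ (hwt P)
      have hsub : Sub Q (hull Q P) := ⟨inf_le_left, le_sup_left⟩
      refine le_trans (Finset.sum_le_sum fun B _ => ?_)
        (hb Q (hull Q P) (hull Q P) hQ hsub ⟨le_rfl, le_rfl⟩ (v2_thick_self _))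
      exact mul_le_mul_of_nonneg_left (v2U_sdiff hcc G B _) (pow_nonneg hp _))
  refine hmain.trans ?_
  rw [mul_assoc]
  refine mul_le_mul_of_nonneg_left ?_ hp
  rw [Finset.mul_sum]
  refine Finset.sum_le_sum fun z _ => ?_
  have hsub : (cov ((z, z) : BoxT n d) \ {z}).powerset ⊆ (cov ((z, z) : BoxT n d)).powerset :=
    Finset.powerset_mono.2 Finset.sdiff_subset
  refine (Finset.sum_le_sum_of_subset_of_nonneg hsub fun B _ _ =>
    mul_nonneg (pow_nonneg hp _) (v2U_nonneg c hG B _)).trans ?_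
  have hcl0 : Sub (z, z) ((z, z) : BoxT n d) ∧ Thick (z, z) ((z, z) : BoxT n d) :=
    ⟨⟨le_rfl, le_rfl⟩, v2_thick_self _⟩
  have hst : ∀ C : ℝ, c₀ ≤ C → ∀ X : BoxT n d, Sub (z, z) X ∧ Thick (z, z) X →
      ∑ b ∈ cov ((z, z) : BoxT n d), p * Real.exp (c X (ext X b)) * G (ext X b) ≤ C * G X := by
    intro C hC X hX
    refine v2_all hGk _ (v2_honest (Q := (z, z)) le_rfl hX.1) fun hk => ?_
    exact (hN0 z X hX.1 hX.2 hk).trans (mul_le_mul_of_nonneg_right hC (hG X))
  rcases le_or_gt 0 c₀ with h0 | h0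
  · exact v2_births hp hG (cov ((z, z) : BoxT n d)) (fun X => Sub (z, z) X ∧ Thick (z, z) X)
      (fun X hX b hb => v2_class hX hb) h0 (hst c₀ le_rfl) hcl0
  · have hz : G (z, z) = 0 := by
      by_cases hk : phi ((z, z) : BoxT n d) < k
      · have h1 := hN0 z (z, z) hcl0.1 hcl0.2 hk
        have h2 : 0 ≤ ∑ b ∈ cov ((z, z) : BoxT n d),
            p * Real.exp (c (z, z) (ext (z, z) b)) * G (ext (z, z) b) :=
          Finset.sum_nonneg fun b _ => mul_nonneg (mul_nonneg hp (Real.exp_pos _).le) (hG _)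
        have h3 := hG (z, z)
        nlinarith
      · exact hGk _ (not_lt.1 hk)
    have h1 := v2_births hp hG (cov ((z, z) : BoxT n d))
      (fun X => Sub (z, z) X ∧ Thick (z, z) X) (fun X hX b hb => v2_class hX hb) le_rfl
      (hst 0 h0.le) hcl0
    rw [hz, mul_zero] at h1 ⊢
    exact h1

open Classical in
/-- potentials: `G` on boxes, exponents `c` and slots `β` for the points which become visible -/
theorem wt_le_of_slots {p : ℝ} (hp : 0 ≤ p) (k : ℕ) (g G : BoxT n d → ℝ)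
    (c : BoxT n d → BoxT n d → ℝ) (β : BoxT n d → ℝ) (c₀ : ℝ) (hg : ∀ R, 0 ≤ g R)
    (hG : ∀ R, 0 ≤ G R) (hGk : ∀ R, k ≤ phi R → G R = 0) (hβ : ∀ R, 0 ≤ β R)
    (hcc : ∀ Q, c Q Q = 0) (hc : ∀ Q Q', Q.1 ≤ Q.2 → Sub Q Q' → 0 ≤ c Q Q')
    (hA : ∀ Q Q' X : BoxT n d, Q.1 ≤ Q.2 → Sub Q Q' → Sub Q' X → Thick Q' X → phi X < k →
      ∑ b ∈ freeB Q Q' X, p * wX c β X (ext X b) * G (ext X b) ≤ c Q Q' * G X)
    (hB : ∀ (Q Q' X : BoxT n d) (s : Fin d × Bool), Q.1 ≤ Q.2 → Sub Q Q' → Sub Q' X →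
      Thick Q' X → phi X < k → s ∈ mv Q Q' →
      ∑ b ∈ slotB Q Q' X s, p * wX c β X (ext X b) * G (ext X b) ≤ β Q' * G X)
    (hN0 : ∀ (z : Vtx n d) (X : BoxT n d), Sub (z, z) X → Thick (z, z) X → phi X < k →
      ∑ b ∈ cov (z, z), p * wX c β X (ext X b) * G (ext X b) ≤ c₀ * G X)
    (hN2 : ∀ Q : BoxT n d, Q.1 ≤ Q.2 → phi Q < k →
      g Q + ∑ P : BoxT n d with FarBox Q P,
        wt p P * (wX c β Q (hull Q P) * G (hull Q P)) ≤ G Q) :
    ∑ R : BoxT n d with (R.1 ≤ R.2 ∧ phi R < k), wt p R * g R ≤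
      p * Real.exp c₀ * ∑ x : Vtx n d, G (x, x) := by
  refine d1_gen hp k g G (d1c c β) c₀ hg hG hGk (d1c_self hcc) ?_ ?_ ?_
  · intro Q Q' X hQ h1 h2 h3
    exact d1_births hp hG hGk hβ hQ h1 (hc Q Q' hQ h1)
      (fun X h2 h3 hk => hA Q Q' X hQ h1 h2 h3 hk)
      (fun X s h2 h3 hk hs => hB Q Q' X s hQ h1 h2 h3 hk hs) h2 h3
  · intro z X h1 h2 h3
    simp only [d1_exp hβ]
    exact hN0 z X h1 h2 h3
  · intro Q hQ hk
    simp only [d1_exp hβ]
    exact hN2 Q hQ hk

end Pool.Agent.Lib.MP_8501c9_pr.Deep
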